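import Mathlib

/-!
# Detecting odd squarefree integers
-/

set_option autoImplicit false

namespace Pool.Agent.Helper368_LD

open ArithmeticFunction

theorem sq_dvd_iff {a b d : ℕ} (ha : Squarefree a) (hb : b ≠ 0) : d ^ 2 ∣ b ^ 2 * a ↔ d ∣ b := by
  constructor
  · intro h
    have ha0 : a ≠ 0 := ha.ne_zero
    have hd0 : d ≠ 0 := by
      rintro rfl
      rw [zero_pow two_ne_zero, zero_dvd_iff] at h
      rcases mul_eq_zero.1 h with h | h
      · exact hb (pow_eq_zero_iff two_ne_zero |>.1 h)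
      · exact ha0 h
    rw [← Nat.factorization_le_iff_dvd hd0 hb]
    have h2 := (Nat.factorization_le_iff_dvd (pow_ne_zero 2 hd0)
      (mul_ne_zero (pow_ne_zero 2 hb) ha0)).2 h
    intro p
    have h3 := h2 p
    rw [Nat.factorization_mul (pow_ne_zero 2 hb) ha0] at h3
    simp only [Nat.factorization_pow, Finsupp.smul_apply, Finsupp.add_apply, smul_eq_mul] at h3
    have h4 := Squarefree.natFactorization_le_one p ha
    omega
  · intro h
    exact (pow_dvd_pow_of_dvd h 2).mul_right a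

theorem sum_moebius_divisors (n : ℕ) : ∑ d ∈ n.divisors, (moebius d : ℤ) = if n = 1 then 1 else 0 := by
  have h : ((moebius : ArithmeticFunction ℤ) * (zeta : ArithmeticFunction ℤ)) n =
      (1 : ArithmeticFunction ℤ) n := by
    rw [moebius_mul_coe_zeta]
  rw [coe_mul_zeta_apply, one_apply] at h
  exact h

theorem sqf_indicator {n N : ℕ} (hn : 1 ≤ n) (hnN : n ≤ N) :
    ∑ d ∈ (Finset.Icc 1 N).filter (fun d => d ^ 2 ∣ n), (moebius d : ℤ) =
      if Squarefree n then 1 else 0 := by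
  obtain ⟨a, b, hab, ha⟩ := Nat.sq_mul_squarefree n
  have hb : b ≠ 0 := by
    rintro rfl
    rw [zero_pow two_ne_zero, zero_mul] at hab
    omega
  have hset : (Finset.Icc 1 N).filter (fun d => d ^ 2 ∣ n) = b.divisors := by
    ext d
    rw [Finset.mem_filter, Finset.mem_Icc, Nat.mem_divisors, ← hab, sq_dvd_iff ha hb]
    constructor
    · rintro ⟨_, h⟩
      exact ⟨h, hb⟩
    · rintro ⟨h, _⟩
      have h1 := Nat.pos_of_dvd_of_pos h (Nat.pos_of_ne_zero hb)
      have h2 := Nat.le_of_dvd (Nat.pos_of_ne_zero hb) h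
      refine ⟨⟨h1, ?_⟩, h⟩
      have h3 : b ≤ b ^ 2 * a := by
        have : 1 ≤ a := Nat.pos_of_ne_zero ha.ne_zero
        nlinarith [Nat.pos_of_ne_zero hb]
      omega
  rw [hset, sum_moebius_divisors]
  congr 1
  rw [eq_iff_iff]
  constructor
  · rintro rfl
    rw [← hab]
    simpa using ha
  · intro hsq
    rw [← hab, Nat.squarefree_mul_iff] at hsq
    by_contra hb1
    have h5 := (Nat.squarefree_pow_iff hb1 two_ne_zero).1 hsq.2.1
    omega

theorem odd_sq_mul {d l : ℕ} : Odd (d ^ 2 * l) ↔ Odd d ∧ Odd l := by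
  rw [Nat.odd_mul, Nat.odd_pow_iff two_ne_zero]

/-- sums over odd squarefree integers through the Moebius function -/
theorem sqf_sum (f : ℕ → ℂ) (N : ℕ) :
    ∑ n ∈ (Finset.Icc 1 N).filter (fun n => Odd n ∧ Squarefree n), f n =
      ∑ d ∈ (Finset.Icc 1 N).filter (fun d => Odd d), ((moebius d : ℤ) : ℂ) *
        ∑ l ∈ (Finset.Icc 1 (N / d ^ 2)).filter (fun l => Odd l), f (d ^ 2 * l) := by
  have h1 : ∑ n ∈ (Finset.Icc 1 N).filter (fun n => Odd n ∧ Squarefree n), f n =
      ∑ n ∈ Finset.Icc 1 N, ∑ d ∈ Finset.Icc 1 N,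
        if Odd n ∧ d ^ 2 ∣ n then ((moebius d : ℤ) : ℂ) * f n else 0 := by
    rw [Finset.sum_filter]
    apply Finset.sum_congr rfl
    intro n hn
    rw [Finset.mem_Icc] at hn
    by_cases ho : Odd n
    · simp only [ho, true_and]
      rw [← Finset.sum_filter, ← Finset.sum_mul]
      have h2 := sqf_indicator hn.1 hn.2
      have h3 : ∑ d ∈ (Finset.Icc 1 N).filter (fun d => d ^ 2 ∣ n), ((moebius d : ℤ) : ℂ) =
          if Squarefree n then 1 else 0 := by
        rw [← Int.cast_sum, h2]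
        split_ifs <;> simp
      rw [h3]
      split_ifs <;> simp
    · simp [ho]
  rw [h1, Finset.sum_comm]
  have h4 : ∑ d ∈ (Finset.Icc 1 N).filter (fun d => Odd d), ((moebius d : ℤ) : ℂ) *
        ∑ l ∈ (Finset.Icc 1 (N / d ^ 2)).filter (fun l => Odd l), f (d ^ 2 * l) =
      ∑ d ∈ Finset.Icc 1 N, if Odd d then ((moebius d : ℤ) : ℂ) *
        ∑ l ∈ (Finset.Icc 1 (N / d ^ 2)).filter (fun l => Odd l), f (d ^ 2 * l) else 0 := by
    rw [Finset.sum_filter]
  rw [h4]
  apply Finset.sum_congr rfl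
  intro d hd
  rw [Finset.mem_Icc] at hd
  have hd2 : 0 < d ^ 2 := pow_pos hd.1 2
  rw [← Finset.sum_filter]
  split_ifs with hod
  · rw [Finset.mul_sum]
    symm
    apply Finset.sum_nbij (fun l => d ^ 2 * l)
    · intro l hl
      rw [Finset.mem_filter, Finset.mem_Icc] at hl ⊢
      refine ⟨⟨?_, ?_⟩, ?_, dvd_mul_right _ _⟩
      · have := hl.1.1
        nlinarith
      · have := (Nat.le_div_iff_mul_le hd2).1 hl.1.2
        rwa [mul_comm] at this
      · rw [odd_sq_mul]
        exact ⟨hod, hl.2⟩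
    · intro a _ b _ hab
      exact Nat.eq_of_mul_eq_mul_left hd2 hab
    · intro n hn
      rw [Finset.coe_filter, Set.mem_ofPred_eq, Finset.mem_Icc] at hn
      obtain ⟨l, hl⟩ := hn.2.2
      refine ⟨l, ?_, hl.symm⟩
      rw [Finset.coe_filter, Set.mem_ofPred_eq, Finset.mem_Icc]
      refine ⟨⟨?_, ?_⟩, ?_⟩
      · rcases Nat.eq_zero_or_pos l with h | h
        · rw [h, mul_zero] at hl
          omega
        · exact h
      · rw [Nat.le_div_iff_mul_le hd2, mul_comm, ← hl]
        exact hn.1.2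
      · have := hn.2.1
        rw [hl, odd_sq_mul] at this
        exact this.2
    · intro l _
      rfl
  · apply Finset.sum_eq_zero
    intro n hn
    rw [Finset.mem_filter] at hn
    obtain ⟨l, hl⟩ := hn.2.2
    have := hn.2.1
    rw [hl, odd_sq_mul] at this
    exact absurd this.1 hod

end Pool.Agent.Helper368_LD
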