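import Pool.Agent.Helper368_LD.JFacts
import Pool.Agent.Helper368_LD.Sieve
import Pool.Agent.Helper919.NonRes
import Pool.Agent.H38R2.CG.PV

/-!
# The character `l ↦ (k / l)` on odd integers, and sums over odd squarefree moduli
-/

set_option autoImplicit false

namespace Pool.Agent.Helper368_LD

open Complex Filter Topology
open Pool.Agent.H491R3.J

/-- the function `l ↦ (k / l)` on odd `l` -/
def kro (k l : ℕ) : ℤ := if Odd l then jacobiSym (k : ℤ) l else 0

theorem kro_mod {k : ℕ} (_hk : k ≠ 0) (l : ℕ) : kro k (l % (4 * k)) = kro k l := by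
  unfold kro
  have hpar : Odd (l % (4 * k)) ↔ Odd l := by
    rw [Nat.odd_iff, Nat.odd_iff]
    have h1 : 2 ∣ 4 * k := ⟨2 * k, by ring⟩
    rw [Nat.mod_mod_of_dvd _ h1]
  by_cases h : Odd l
  · rw [if_pos (hpar.2 h), if_pos h]
    have := jacobiSym.mod_right (k : ℤ) h
    rw [Int.natAbs_natCast] at this
    exact this.symm
  · rw [if_neg (fun h2 => h (hpar.1 h2)), if_neg h]

theorem kro_mul (k a b : ℕ) : kro k (a * b) = kro k a * kro k b := by
  unfold kro
  by_cases ha : Odd a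
  · by_cases hb : Odd b
    · rw [if_pos ha, if_pos hb, if_pos (ha.mul hb)]
      have h1 : NeZero a := ⟨by rintro rfl; exact absurd ha (by decide)⟩
      have h2 : NeZero b := ⟨by rintro rfl; exact absurd hb (by decide)⟩
      exact jacobiSym.mul_right _ _ _
    · rw [if_neg hb, if_neg (fun h => hb (Nat.Odd.of_mul_left (by rwa [mul_comm] at h))), mul_zero]
  · rw [if_neg ha, if_neg (fun h => ha (Nat.Odd.of_mul_left h)), zero_mul]

theorem kro_one (k : ℕ) : kro k 1 = 1 := by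
  unfold kro
  rw [if_pos odd_one, jacobiSym.one_right]

theorem kro_nonunit {k : ℕ} (l : ℕ) (h : ¬ l.Coprime (4 * k)) : kro k l = 0 := by
  unfold kro
  split_ifs with ho
  · have h1 : NeZero l := ⟨by rintro rfl; exact absurd ho (by decide)⟩
    rw [jacobiSym.eq_zero_iff_not_coprime, Int.gcd_natCast_natCast]
    intro h2
    apply h
    apply Nat.Coprime.mul_right
    · have h3 : Nat.Coprime l 2 := by
        rw [Nat.coprime_two_right]
        exact ho
      have : (4 : ℕ) = 2 ^ 2 := by norm_num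
      rw [this]
      exact h3.pow_right 2
    · exact Nat.Coprime.symm h2
  · rfl

theorem kro_abs (k l : ℕ) : ‖((kro k l : ℤ) : ℂ)‖ ≤ 1 := by
  unfold kro
  split_ifs
  · rcases jacobiSym.trichotomy (k : ℤ) l with h | h | h <;> rw [h] <;> simp
  · simp

/-- the character `l ↦ (k / l)` modulo `4k` -/
noncomputable def kchi (k : ℕ) [NeZero (4 * k)] : DirichletCharacter ℂ (4 * k) where
  toFun a := ((kro k a.val : ℤ) : ℂ)
  map_one' := by
    have hk : k ≠ 0 := by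
      rintro rfl
      exact NeZero.ne (4 * 0) (by norm_num)
    rw [ZMod.val_one_eq_one_mod, kro_mod hk, kro_one]
    simp
  map_mul' a b := by
    have hk : k ≠ 0 := by
      rintro rfl
      exact NeZero.ne (4 * 0) (by norm_num)
    rw [ZMod.val_mul, kro_mod hk, kro_mul]
    push_cast
    ring
  map_nonunit' a ha := by
    have h : kro k a.val = 0 := by
      apply kro_nonunit
      intro h2
      apply ha
      rw [← ZMod.natCast_zmod_val a]
      exact (ZMod.isUnit_iff_coprime a.val (4 * k)).2 h2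
    rw [h]
    simp

theorem kchi_natCast (k : ℕ) [NeZero (4 * k)] (l : ℕ) :
    kchi k (l : ZMod (4 * k)) = ((kro k l : ℤ) : ℂ) := by
  have hk : k ≠ 0 := by
    rintro rfl
    exact NeZero.ne (4 * 0) (by norm_num)
  change ((kro k ((l : ZMod (4 * k)).val) : ℤ) : ℂ) = _
  rw [ZMod.val_natCast, kro_mod hk]

theorem not_isSquare_natCast {k : ℕ} (h : ¬ IsSquare k) : ¬ IsSquare (k : ℤ) := by
  rintro ⟨a, ha⟩
  apply h
  refine ⟨a.natAbs, ?_⟩
  have h1 : ((k : ℤ)).natAbs = (a * a).natAbs := by rw [ha]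
  rwa [Int.natAbs_natCast, Int.natAbs_mul] at h1

theorem kchi_ne_one {k : ℕ} [NeZero (4 * k)] (h : ¬ IsSquare k) : kchi k ≠ 1 := by
  obtain ⟨d, hd, hj⟩ := Helper919.exists_jacobi_neg_one (k : ℤ) (not_isSquare_natCast h)
  intro h1
  have h2 := kchi_natCast k d
  have h3 : kro k d = -1 := by
    unfold kro
    rw [if_pos hd, hj]
  rw [h3] at h2
  have h4 : IsUnit (d : ZMod (4 * k)) := by
    by_contra hu
    have h5 := (kchi k).map_nonunit hu
    rw [h5] at h2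
    norm_num at h2
  rw [h1, MulChar.one_apply h4] at h2
  norm_num at h2

/-- Pólya-Vinogradov for `l ↦ (k / l)` -/
theorem kro_sum_le {k : ℕ} (hk : k ≠ 0) (h : ¬ IsSquare k) (N : ℕ) :
    ‖∑ l ∈ (Finset.Icc 1 N).filter (fun l => Odd l), ((jacobiSym (k : ℤ) l : ℤ) : ℂ)‖ ≤
      8 * √(k : ℝ) * (1 + Real.log (4 * k)) := by
  have hne : NeZero (4 * k) := ⟨by omega⟩
  have h1 := Pool.Agent.H38R2.CG.PVh.sum_le (4 * k) (kchi k) (by omega) (kchi_ne_one h) N
  have h2 : ∑ l ∈ (Finset.Icc 1 N).filter (fun l => Odd l), ((jacobiSym (k : ℤ) l : ℤ) : ℂ) =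
      ∑ n ∈ Finset.Icc 1 N, kchi k (n : ZMod (4 * k)) := by
    rw [Finset.sum_filter]
    apply Finset.sum_congr rfl
    intro l _
    rw [kchi_natCast]
    unfold kro
    split_ifs <;> simp
  rw [h2]
  refine h1.trans (le_of_eq ?_)
  push_cast
  have h3 : √(4 * (k : ℝ)) = 2 * √(k : ℝ) := by
    rw [Real.sqrt_mul (by norm_num)]
    congr 1
    rw [show (4 : ℝ) = 2 ^ 2 by norm_num, Real.sqrt_sq (by norm_num)]
  rw [h3]
  ring

theorem sum_min_le {X B : ℝ} (hX : 0 < X) (hB : 0 < B) (N : ℕ) :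
    ∑ d ∈ Finset.Icc 1 N, min (X / (d : ℝ) ^ 2) B ≤ 3 * √(X * B) := by
  set s : ℝ := √(X / B) with hsd
  set D : ℕ := ⌊s⌋₊ with hD
  have hs : 0 < s := Real.sqrt_pos.2 (by positivity)
  have hs2 : s ^ 2 = X / B := Real.sq_sqrt (by positivity)
  have h1 : (D : ℝ) ≤ s := Nat.floor_le hs.le
  have h2 : s < D + 1 := Nat.lt_floor_add_one _
  have hX2 : X = s ^ 2 * B := by rw [hs2]; field_simp
  have hXB : √(X * B) = s * B := by
    rw [hX2, show s ^ 2 * B * B = (s * B) ^ 2 by ring, Real.sqrt_sq (by positivity)]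
  rw [hXB]
  have h3 : ∀ d ∈ Finset.Icc 1 N, min (X / (d : ℝ) ^ 2) B ≤
      (if d ≤ D then B else 0) + (if D < d then X * ((d : ℝ) ^ 2)⁻¹ else 0) := by
    intro d _
    by_cases hd : d ≤ D
    · rw [if_pos hd, if_neg (by omega), add_zero]
      exact min_le_right _ _
    · rw [if_neg hd, if_pos (by omega), zero_add, ← div_eq_mul_inv]
      exact min_le_left _ _
  refine (Finset.sum_le_sum h3).trans ?_
  rw [Finset.sum_add_distrib, ← Finset.sum_filter, ← Finset.sum_filter]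
  have h4 : ∑ d ∈ (Finset.Icc 1 N).filter (fun d => d ≤ D), B ≤ s * B := by
    rw [Finset.sum_const, nsmul_eq_mul]
    apply mul_le_mul_of_nonneg_right _ hB.le
    refine le_trans ?_ h1
    have h5 : ((Finset.Icc 1 N).filter (fun d => d ≤ D)).card ≤ (Finset.Icc 1 D).card := by
      apply Finset.card_le_card
      intro d hd
      rw [Finset.mem_filter, Finset.mem_Icc] at hd
      rw [Finset.mem_Icc]
      exact ⟨hd.1.1, hd.2⟩
    rw [Nat.card_Icc] at h5
    exact_mod_cast (by omega : ((Finset.Icc 1 N).filter (fun d => d ≤ D)).card ≤ D)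
  have h6 : ∑ d ∈ (Finset.Icc 1 N).filter (fun d => D < d), X * ((d : ℝ) ^ 2)⁻¹ ≤ 2 * (s * B) := by
    rw [← Finset.mul_sum]
    have h7 : ∑ d ∈ (Finset.Icc 1 N).filter (fun d => D < d), ((d : ℝ) ^ 2)⁻¹ ≤
        ∑ d ∈ Finset.Ioo D (N + 1), ((d : ℝ) ^ 2)⁻¹ := by
      apply Finset.sum_le_sum_of_subset_of_nonneg
      · intro d hd
        rw [Finset.mem_filter, Finset.mem_Icc] at hd
        rw [Finset.mem_Ioo]
        omega
      · intro d _ _
        positivity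
    have h8 := sum_Ioo_inv_sq_le (α := ℝ) D (N + 1)
    have h9 : (2 : ℝ) / ((D : ℝ) + 1) ≤ 2 / s := by gcongr
    calc X * _ ≤ X * (2 / s) := by
          apply mul_le_mul_of_nonneg_left _ hX.le
          linarith
      _ = 2 * (s * B) := by
          rw [hX2]; field_simp
  linarith

/-- the bound `B_m` -/
noncomputable def Bm (m : ℕ) : ℝ := 8 * √(m : ℝ) * (1 + Real.log (4 * m))

theorem Bm_pos {m : ℕ} (hm : 1 ≤ m) : 0 < Bm m := by
  unfold Bm
  have h1 : (1 : ℝ) ≤ m := by exact_mod_cast hm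
  have h2 : 0 ≤ Real.log (4 * m) := Real.log_nonneg (by linarith)
  have h3 : 0 < √(m : ℝ) := Real.sqrt_pos.2 (by linarith)
  positivity

theorem jac_norm (a : ℤ) (b : ℕ) : ‖((jacobiSym a b : ℤ) : ℂ)‖ ≤ 1 := by
  rcases jacobiSym.trichotomy a b with h | h | h <;> rw [h] <;> simp

theorem sum_odd_card_le (N : ℕ) (f : ℕ → ℂ) (hf : ∀ l, ‖f l‖ ≤ 1) :
    ‖∑ l ∈ (Finset.Icc 1 N).filter (fun l => Odd l), f l‖ ≤ N := by
  refine (norm_sum_le_of_le (f := f) (n := fun _ => (1 : ℝ)) _ (fun l _ => hf l)).trans ?_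
  rw [Finset.sum_const, nsmul_eq_mul, mul_one]
  have := Finset.card_filter_le (Finset.Icc 1 N) (fun l => Odd l)
  rw [Nat.card_Icc] at this
  exact_mod_cast (by omega : ((Finset.Icc 1 N).filter (fun l => Odd l)).card ≤ N)

/-- Pólya-Vinogradov over odd squarefree moduli -/
theorem sqf_jac_le {m : ℕ} (hm : m ≠ 0) (h : ¬ IsSquare m) {X : ℝ} (hX : 0 < X) :
    ‖∑ n ∈ (Finset.Icc 1 ⌊X⌋₊).filter (fun n => Odd n ∧ Squarefree n),
      ((jacobiSym (m : ℤ) n : ℤ) : ℂ)‖ ≤ 3 * √(X * Bm m) := by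
  rw [sqf_sum]
  refine le_trans ?_ (sum_min_le hX (Bm_pos (Nat.pos_of_ne_zero hm)) ⌊X⌋₊)
  refine (norm_sum_le _ _).trans ?_
  have hsub : ∑ d ∈ (Finset.Icc 1 ⌊X⌋₊).filter (fun d => Odd d), min (X / (d : ℝ) ^ 2) (Bm m) ≤
      ∑ d ∈ Finset.Icc 1 ⌊X⌋₊, min (X / (d : ℝ) ^ 2) (Bm m) := by
    apply Finset.sum_le_sum_of_subset_of_nonneg (Finset.filter_subset _ _)
    intro d _ _
    exact le_min (by positivity) (Bm_pos (Nat.pos_of_ne_zero hm)).le
  refine le_trans (Finset.sum_le_sum ?_) hsub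
  intro d hd
  rw [Finset.mem_filter, Finset.mem_Icc] at hd
  have hd0 : (0 : ℝ) < d := by exact_mod_cast hd.1.1
  have hmu : ‖((ArithmeticFunction.moebius d : ℤ) : ℂ)‖ ≤ 1 := by
    rcases ArithmeticFunction.moebius_eq_or d with h | h | h <;> rw [h] <;> simp
  have hin : ∑ l ∈ (Finset.Icc 1 (⌊X⌋₊ / d ^ 2)).filter (fun l => Odd l),
      ((jacobiSym (m : ℤ) (d ^ 2 * l) : ℤ) : ℂ) = ((jacobiSym (m : ℤ) d ^ 2 : ℤ) : ℂ) *
      ∑ l ∈ (Finset.Icc 1 (⌊X⌋₊ / d ^ 2)).filter (fun l => Odd l), ((jacobiSym (m : ℤ) l : ℤ) : ℂ) := by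
    rw [Finset.mul_sum]
    apply Finset.sum_congr rfl
    intro l hl
    rw [Finset.mem_filter] at hl
    have h1 : NeZero l := ⟨by rintro rfl; exact absurd hl.2 (by decide)⟩
    have h2 : NeZero (d ^ 2) := ⟨by have := hd.1.1; positivity⟩
    rw [jacobiSym.mul_right, jacobiSym.pow_right]
    push_cast
    ring
  rw [hin, norm_mul, norm_mul]
  have h3 : ‖((jacobiSym (m : ℤ) d ^ 2 : ℤ) : ℂ)‖ ≤ 1 := by
    push_cast
    rw [norm_pow]
    have := jac_norm (m : ℤ) d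
    exact pow_le_one₀ (norm_nonneg _) this
  have h4 := kro_sum_le hm h (⌊X⌋₊ / d ^ 2)
  have h5 := sum_odd_card_le (⌊X⌋₊ / d ^ 2) (fun l => ((jacobiSym (m : ℤ) l : ℤ) : ℂ))
    (fun l => jac_norm _ _)
  set Z := ‖∑ l ∈ (Finset.Icc 1 (⌊X⌋₊ / d ^ 2)).filter (fun l => Odd l),
    ((jacobiSym (m : ℤ) l : ℤ) : ℂ)‖ with hZ
  have hZ0 : 0 ≤ Z := norm_nonneg _
  have h6 : (((⌊X⌋₊ / d ^ 2 : ℕ)) : ℝ) ≤ X / (d : ℝ) ^ 2 := by
    refine (Nat.cast_div_le).trans ?_
    push_cast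
    gcongr
    exact Nat.floor_le hX.le
  have h7 : Z ≤ min (X / (d : ℝ) ^ 2) (Bm m) := by
    apply le_min
    · exact h5.trans h6
    · unfold Bm; exact h4
  calc _ ≤ 1 * (1 * Z) := by gcongr
    _ ≤ _ := by linarith

end Pool.Agent.Helper368_LD
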