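import Pool.Agent.Helper368_LD.Fourier

/-!
# Comparison of weighted sums with integrals
-/

set_option autoImplicit false

namespace Pool.Agent.Helper368_LD

open MeasureTheory Set
open scoped Interval

/-- Abel summation against a density -/
theorem abel_cmp {c : ℕ → ℂ} {v w w' : ℝ → ℂ} {a b E : ℝ} (ha : 0 ≤ a) (hab : a ≤ b)
    (hw : ∀ y ∈ Icc a b, HasDerivAt w (w' y) y) (hw' : ContinuousOn w' (Icc a b))
    (hv : ContinuousOn v (Icc a b))
    (hE : ∀ y ∈ Icc a b, ‖∑ k ∈ Finset.Ioc ⌊a⌋₊ ⌊y⌋₊, c k - ∫ u in a..y, v u‖ ≤ E) :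
    ‖∑ k ∈ Finset.Ioc ⌊a⌋₊ ⌊b⌋₊, w k * c k - ∫ u in a..b, w u * v u‖ ≤
      E * (‖w b‖ + ∫ u in a..b, ‖w' u‖) := by
  have hE0 : 0 ≤ E := (norm_nonneg _).trans (hE a ⟨le_rfl, hab⟩)
  set c' : ℕ → ℂ := fun k => if ⌊a⌋₊ < k then c k else 0 with hc'
  have hC : ∀ y : ℝ, a ≤ y → ∑ k ∈ Finset.Icc 0 ⌊y⌋₊, c' k = ∑ k ∈ Finset.Ioc ⌊a⌋₊ ⌊y⌋₊, c k := by
    intro y _
    rw [hc', ← Finset.sum_filter]
    apply Finset.sum_congr _ (fun _ _ => rfl)
    ext k
    simp only [Finset.mem_filter, Finset.mem_Icc, Finset.mem_Ioc]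
    omega
  have hCa : ∑ k ∈ Finset.Icc 0 ⌊a⌋₊, c' k = 0 := by
    rw [hC a le_rfl]
    simp
  have hderiv : ∀ y ∈ Icc a b, deriv w y = w' y := fun y hy => (hw y hy).deriv
  have hw'i : IntegrableOn w' (Icc a b) := hw'.integrableOn_Icc
  have hint : IntegrableOn (deriv w) (Icc a b) := by
    refine hw'i.congr_fun ?_ measurableSet_Icc
    intro y hy
    exact (hderiv y hy).symm
  have h1 := sum_mul_eq_sub_sub_integral_mul c' ha hab
    (fun t ht => (hw t ht).differentiableAt) hint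
  rw [hCa, mul_zero, sub_zero, hC b hab] at h1
  have h2 : ∑ k ∈ Finset.Ioc ⌊a⌋₊ ⌊b⌋₊, w k * c' k = ∑ k ∈ Finset.Ioc ⌊a⌋₊ ⌊b⌋₊, w k * c k := by
    apply Finset.sum_congr rfl
    intro k hk
    rw [Finset.mem_Ioc] at hk
    rw [hc']
    simp only
    rw [if_pos hk.1]
  rw [h2] at h1
  have h3 : ∫ t in Ioc a b, deriv w t * ∑ k ∈ Finset.Icc 0 ⌊t⌋₊, c' k =
      ∫ t in a..b, w' t * ∑ k ∈ Finset.Icc 0 ⌊t⌋₊, c' k := by
    rw [intervalIntegral.integral_of_le hab]
    apply setIntegral_congr_fun measurableSet_Ioc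
    intro t ht
    simp only
    rw [hderiv t ⟨ht.1.le, ht.2⟩]
  rw [h3] at h1
  -- integration by parts
  set V : ℝ → ℂ := fun y => ∫ u in a..y, v u with hV
  have hvi : IntervalIntegrable v volume a b := by
    rw [intervalIntegrable_iff_integrableOn_Icc_of_le hab]
    exact hv.integrableOn_Icc
  have hVc : ContinuousOn V (uIcc a b) := by
    apply intervalIntegral.continuousOn_primitive_interval
    rw [uIcc_of_le hab]
    exact hv.integrableOn_Icc
  have hVd : ∀ y ∈ Ioo (min a b) (max a b), HasDerivAt V (v y) y := by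
    intro y hy
    rw [min_eq_left hab, max_eq_right hab] at hy
    apply intervalIntegral.integral_hasDerivAt_right
    · apply hvi.mono_set
      rw [uIcc_of_le hab, uIcc_of_le hy.1.le]
      exact Icc_subset_Icc_right hy.2.le
    · exact (hv.mono Ioo_subset_Icc_self).stronglyMeasurableAtFilter isOpen_Ioo y hy
    · exact (hv y ⟨hy.1.le, hy.2.le⟩).continuousAt (Icc_mem_nhds hy.1 hy.2)
  have hwc : ContinuousOn w (uIcc a b) := by
    rw [uIcc_of_le hab]
    exact fun y hy => (hw y hy).continuousAt.continuousWithinAt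
  have h4 := intervalIntegral.integral_mul_deriv_eq_deriv_mul_of_hasDerivAt (u := w) (v := V)
    (u' := w') (v' := v) hwc hVc (fun y hy => by
      rw [min_eq_left hab, max_eq_right hab] at hy
      exact hw y ⟨hy.1.le, hy.2.le⟩) hVd
    ((intervalIntegrable_iff_integrableOn_Icc_of_le hab).2 hw'i) hvi
  have hVa : V a = 0 := by rw [hV]; simp
  rw [hVa, mul_zero, sub_zero] at h4
  have hi1 : IntervalIntegrable (fun t => w' t * ∑ k ∈ Finset.Icc 0 ⌊t⌋₊, c' k) volume a b := by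
    rw [intervalIntegrable_iff_integrableOn_Icc_of_le hab]
    exact integrableOn_mul_sum_Icc c' ha hw'i
  have hi2 : IntervalIntegrable (fun t => w' t * V t) volume a b :=
    ((intervalIntegrable_iff_integrableOn_Icc_of_le hab).2 hw'i).mul_continuousOn hVc
  have h5 : ∑ k ∈ Finset.Ioc ⌊a⌋₊ ⌊b⌋₊, w k * c k - ∫ u in a..b, w u * v u =
      w b * (∑ k ∈ Finset.Ioc ⌊a⌋₊ ⌊b⌋₊, c k - V b) -
        ∫ t in a..b, w' t * (∑ k ∈ Finset.Icc 0 ⌊t⌋₊, c' k - V t) := by
    rw [h1, h4]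
    have : ∀ t, w' t * (∑ k ∈ Finset.Icc 0 ⌊t⌋₊, c' k - V t) =
        w' t * ∑ k ∈ Finset.Icc 0 ⌊t⌋₊, c' k - w' t * V t := fun t => by ring
    simp_rw [this]
    rw [intervalIntegral.integral_sub hi1 hi2]
    ring
  rw [h5]
  refine (norm_sub_le _ _).trans ?_
  rw [mul_add]
  apply add_le_add
  · rw [norm_mul, mul_comm]
    exact mul_le_mul_of_nonneg_right (hE b ⟨hab, le_rfl⟩) (norm_nonneg _)
  · rw [← intervalIntegral.integral_const_mul]
    apply intervalIntegral.norm_integral_le_of_norm_le hab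
    · apply Filter.Eventually.of_forall
      intro t ht
      rw [norm_mul, mul_comm]
      apply mul_le_mul_of_nonneg_right _ (norm_nonneg _)
      rw [hC t ht.1.le]
      exact hE t ⟨ht.1.le, ht.2⟩
    · apply IntervalIntegrable.const_mul
      exact ((intervalIntegrable_iff_integrableOn_Icc_of_le hab).2 hw'i).norm

theorem FS_integral (f : ℕ → ℝ) {x : ℝ} (hx : 0 ≤ x) :
    FS f x = ∫ t in (0 : ℝ)..x, ∑ l ∈ Finset.Icc 1 ⌊t⌋₊, f l := by
  set c : ℕ → ℝ := fun l => if 0 < l then f l else 0 with hc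
  have hC : ∀ n : ℕ, ∑ k ∈ Finset.Icc 0 n, c k = ∑ k ∈ Finset.Icc 1 n, f k := by
    intro n
    rw [hc, ← Finset.sum_filter]
    apply Finset.sum_congr _ (fun _ _ => rfl)
    ext k
    simp only [Finset.mem_filter, Finset.mem_Icc]
    omega
  have hd : ∀ t : ℝ, HasDerivAt (fun t : ℝ => x - t) (-1) t := fun t => by
    simpa using (hasDerivAt_id t).const_sub x
  have hderiv : deriv (fun t : ℝ => x - t) = fun _ => -1 := by
    funext t
    exact (hd t).deriv
  have h1 := sum_mul_eq_sub_integral_mul c hx (f := fun t : ℝ => x - t)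
    (fun t _ => (hd t).differentiableAt) (by rw [hderiv]; exact integrableOn_const (by simp))
  rw [hderiv] at h1
  simp only [sub_self, zero_mul, zero_sub, neg_mul, one_mul] at h1
  rw [integral_neg, neg_neg] at h1
  rw [intervalIntegral.integral_of_le hx]
  have h2 : ∑ k ∈ Finset.Icc 0 ⌊x⌋₊, (x - k) * c k = FS f x := by
    unfold FS
    rw [hc]
    simp only [mul_ite, mul_zero]
    rw [← Finset.sum_filter]
    apply Finset.sum_congr
    · ext k
      simp only [Finset.mem_filter, Finset.mem_Icc]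
      omega
    · intro k _
      ring
  rw [← h2, h1]
  apply setIntegral_congr_fun measurableSet_Ioc
  intro t _
  simp only
  rw [hC]

/-- the averaged sum minus the sum -/
theorem FS_diff (f : ℕ → ℝ) {x H : ℝ} (hH : 0 ≤ H) :
    FS f (x + H) - FS f x = H * ∑ l ∈ Finset.Icc 1 ⌊x⌋₊, f l +
      ∑ l ∈ Finset.Ioc ⌊x⌋₊ ⌊x + H⌋₊, f l * (x + H - l) := by
  unfold FS
  have h1 : ⌊x⌋₊ ≤ ⌊x + H⌋₊ := Nat.floor_mono (by linarith)
  have h2 : Finset.Icc 1 ⌊x + H⌋₊ = Finset.Icc 1 ⌊x⌋₊ ∪ Finset.Ioc ⌊x⌋₊ ⌊x + H⌋₊ := by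
    ext k
    simp only [Finset.mem_union, Finset.mem_Icc, Finset.mem_Ioc]
    omega
  have h3 : Disjoint (Finset.Icc 1 ⌊x⌋₊) (Finset.Ioc ⌊x⌋₊ ⌊x + H⌋₊) := by
    rw [Finset.disjoint_left]
    intro k hk
    simp only [Finset.mem_Icc, Finset.mem_Ioc] at hk ⊢
    omega
  rw [h2, Finset.sum_union h3, add_sub_right_comm, ← Finset.sum_sub_distrib, Finset.mul_sum]
  congr 1
  apply Finset.sum_congr rfl
  intro l _
  ring

end Pool.Agent.Helper368_LD
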