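import Pool.Agent.Helper368_LD.Weights

/-!
# The prime side of a block
-/

set_option autoImplicit false

namespace Pool.Agent.Helper368_LD

open MeasureTheory Set Complex
open scoped Real ArithmeticFunction.vonMangoldt

/-- the coefficients -/
noncomputable def ap (r : ℂ) (p : ℕ) : ℂ := (lp p : ℂ) * (p : ℂ) ^ (-(1 / 2 + r))

theorem cpow_split {u : ℝ} (hu : 0 < u) (r : ℂ) : (u : ℂ) ^ (-(1 / 2 + r)) =
    ((u ^ (-(1 / 2 + r.re)) : ℝ) : ℂ) * (u : ℂ) ^ (-((r.im : ℂ) * I)) := by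
  have hu' : (u : ℂ) ≠ 0 := by exact_mod_cast hu.ne'
  rw [Complex.ofReal_cpow hu.le, ← Complex.cpow_add _ _ hu']
  congr 1
  conv_lhs => rw [← Complex.re_add_im r]
  push_cast
  ring

theorem ap_eq (r : ℂ) {p : ℕ} (hp : 0 < p) : ap r p = (((p : ℝ) ^ (-(1 / 2 + r.re)) : ℝ) : ℂ) *
    ((lp p : ℂ) * (p : ℂ) ^ (-((r.im : ℂ) * I))) := by
  unfold ap
  have := cpow_split (u := (p : ℝ)) (by exact_mod_cast hp) r
  rw [Complex.ofReal_natCast] at this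
  rw [this]
  ring

theorem ap_norm (r : ℂ) {p : ℕ} (hp : 0 < p) : ‖ap r p‖ = lp p * (p : ℝ) ^ (-(1 / 2 + r.re)) := by
  rw [ap_eq r hp, norm_mul, norm_mul, norm_natCast_cpow_it _ hp, mul_one, norm_real, norm_real,
    Real.norm_of_nonneg (lp_nonneg p), Real.norm_of_nonneg (Real.rpow_nonneg (Nat.cast_nonneg p) _)]
  ring

theorem hasSum_tail {f : ℕ → ℝ} {S C : ℝ} (h : HasSum f S) (h0 : f 0 = 0) (hC : 0 ≤ C)
    (hf : ∀ k : ℕ, 1 ≤ k → |f k| ≤ C / (k : ℝ) ^ 2) {K : ℕ} (hK : 1 ≤ K) :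
    |S - ∑ k ∈ Finset.Icc 1 K, f k| ≤ C / K := by
  have h1 := h.tendsto_sum_nat
  have h2 : Filter.Tendsto (fun n => |∑ i ∈ Finset.range n, f i - ∑ k ∈ Finset.Icc 1 K, f k|)
      Filter.atTop (nhds |S - ∑ k ∈ Finset.Icc 1 K, f k|) := (h1.sub_const _).abs
  apply le_of_tendsto h2
  filter_upwards [Filter.eventually_gt_atTop K] with n hn
  have h3 : ∑ i ∈ Finset.range n, f i = f 0 + ∑ i ∈ Finset.Icc 1 (n - 1), f i := by
    have : Finset.range n = insert 0 (Finset.Icc 1 (n - 1)) := by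
      ext i
      simp only [Finset.mem_range, Finset.mem_insert, Finset.mem_Icc]
      omega
    rw [this, Finset.sum_insert (by simp)]
  have h4 : Finset.Icc 1 (n - 1) = Finset.Icc 1 K ∪ Finset.Ioc K (n - 1) := by
    ext i
    simp only [Finset.mem_union, Finset.mem_Ioc, Finset.mem_Icc]
    omega
  have h5 : Disjoint (Finset.Icc 1 K) (Finset.Ioc K (n - 1)) := by
    rw [Finset.disjoint_left]
    intro i hi
    simp only [Finset.mem_Ioc, Finset.mem_Icc] at hi ⊢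
    omega
  rw [h3, h0, zero_add, h4, Finset.sum_union h5, add_sub_cancel_left]
  calc |∑ i ∈ Finset.Ioc K (n - 1), f i| ≤ ∑ i ∈ Finset.Ioc K (n - 1), C * (1 / (i : ℝ) ^ 2) := by
        refine (Finset.abs_sum_le_sum_abs _ _).trans (Finset.sum_le_sum ?_)
        intro i hi
        rw [Finset.mem_Ioc] at hi
        rw [mul_one_div]
        exact hf i (by omega)
    _ = C * ∑ i ∈ Finset.Ioc K (n - 1), 1 / (i : ℝ) ^ 2 := by rw [Finset.mul_sum]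
    _ ≤ C * (1 / (K : ℝ)) := by
        gcongr
        exact sum_inv_sq_Ioc K (n - 1) hK
    _ = _ := by ring

/-- one term of the Fourier expansion -/
noncomputable def Tkp (x H : ℝ) (k p : ℕ) : ℝ := 2 * (p : ℝ) / π ^ 2 / (k : ℝ) ^ 2 *
      ((Real.cos (π * k * x / (2 * p)) - Real.cos (π * k * (x + H) / (2 * p))) * xi p k)

/-- the difference of the integrated sums -/
noncomputable def DDp (x H : ℝ) (p : ℕ) : ℝ :=
  FS (fun l => (kro p l : ℝ)) (x + H) - FS (fun l => (kro p l : ℝ)) x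

theorem DDp_trunc {p : ℕ} (hp : p.Prime) (hp2 : p ≠ 2) {x H : ℝ} (hx : 0 ≤ x) (hH : 0 ≤ H) {K : ℕ}
    (hK : 1 ≤ K) : |DDp x H p - ∑ k ∈ Finset.Icc 1 K, Tkp x H k p| ≤
      16 * ((p : ℝ) * √(p : ℝ)) / π ^ 2 / K := by
  have hpi := Real.pi_pos
  have hp0 : (0 : ℝ) < p := by exact_mod_cast hp.pos
  apply hasSum_tail (FS_kro hp hp2 hx hH)
  · simp
  · positivity
  · intro k hk
    have hk0 : (0 : ℝ) < k := by exact_mod_cast hk
    rw [abs_mul, abs_mul, abs_of_nonneg (by positivity : 0 ≤ 2 * (p : ℝ) / π ^ 2 / (k : ℝ) ^ 2)]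
    have h1 := xi_abs hp hp2 k
    have h2 : |Real.cos (π * k * x / (2 * p)) - Real.cos (π * k * (x + H) / (2 * p))| ≤ 2 := by
      refine (abs_sub _ _).trans ?_
      have := Real.abs_cos_le_one (π * k * x / (2 * p))
      have := Real.abs_cos_le_one (π * k * (x + H) / (2 * p))
      linarith
    calc _ ≤ 2 * (p : ℝ) / π ^ 2 / (k : ℝ) ^ 2 * (2 * (4 * √(p : ℝ))) := by gcongr
      _ = _ := by ring
  · exact hK

/-- the density of the prime side -/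
noncomputable def vk (t : ℝ) (k : ℕ) (u : ℝ) : ℂ :=
  if IsSquare k then (u : ℂ) ^ (-((t : ℂ) * I)) else 0

theorem vk_cont (t : ℝ) (k : ℕ) {a b : ℝ} (ha : 0 < a) : ContinuousOn (vk t k) (Icc a b) := by
  unfold vk
  split_ifs
  · exact cpow_cont ha _
  · exact continuousOn_const

/-- the bounds on the prime side -/
structure PSide (Q t E : ℝ) (K : ℕ) : Prop where
  pos : ∀ k ∈ Finset.Icc 1 K, ∀ y ∈ Icc Q (2 * Q), ‖∑ p ∈ Finset.Ioc ⌊Q⌋₊ ⌊y⌋₊,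
    (lp p : ℂ) * (p : ℂ) ^ (-((t : ℂ) * I)) * ((jacobiSym (k : ℤ) p : ℤ) : ℂ) -
      ∫ u in Q..y, vk t k u‖ ≤ E
  neg : ∀ k ∈ Finset.Icc 1 K, ∀ y ∈ Icc Q (2 * Q), ‖∑ p ∈ Finset.Ioc ⌊Q⌋₊ ⌊y⌋₊,
    (lp p : ℂ) * (p : ℂ) ^ (-((t : ℂ) * I)) * ((jacobiSym (-(k : ℤ)) p : ℤ) : ℂ)‖ ≤ E

theorem ap_Tkp (r : ℂ) (x H : ℝ) {k p : ℕ} (hp : 0 < p) :
    ap r p * (Tkp x H k p : ℂ) = ((2 / (π ^ 2 * (k : ℝ) ^ 2) : ℝ) : ℂ) *
      (((Real.cos (π * k / 2) + Real.sin (π * k / 2) : ℝ) : ℂ) * ((wk r.re x H k p : ℂ) *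
        ((lp p : ℂ) * (p : ℂ) ^ (-((r.im : ℂ) * I)) * ((jacobiSym (k : ℤ) p : ℤ) : ℂ))) +
      ((Real.cos (π * k / 2) - Real.sin (π * k / 2) : ℝ) : ℂ) * ((wk r.re x H k p : ℂ) *
        ((lp p : ℂ) * (p : ℂ) ^ (-((r.im : ℂ) * I)) * ((jacobiSym (-(k : ℤ)) p : ℤ) : ℂ)))) := by
  have hp0 : (0 : ℝ) < p := by exact_mod_cast hp
  by_cases hpp : p.Prime ∧ p ≠ 2
  · rw [ap_eq r hp]
    have e1 : (p : ℝ) ^ (-(1 / 2 + r.re)) * Tkp x H k p = 2 / (π ^ 2 * (k : ℝ) ^ 2) *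
        ((Real.cos (π * k / 2) + Real.sin (π * k / 2)) * (wk r.re x H k p * (jacobiSym (k : ℤ) p : ℝ)) +
        (Real.cos (π * k / 2) - Real.sin (π * k / 2)) *
          (wk r.re x H k p * (jacobiSym (-(k : ℤ)) p : ℝ))) := by
      unfold Tkp wk
      rw [xi_eq hpp.1 hpp.2]
      have e2 : (p : ℝ) ^ (1 - r.re) = (p : ℝ) * ((p : ℝ) ^ (-(1 / 2 + r.re)) * √(p : ℝ)) := by
        have e4 : (p : ℝ) ^ (1 - r.re) = (p : ℝ) ^ (1 : ℝ) *
            ((p : ℝ) ^ (-(1 / 2 + r.re)) * (p : ℝ) ^ (1 / 2 : ℝ)) := by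
          rw [← Real.rpow_add hp0, ← Real.rpow_add hp0]
          congr 1
          ring
        rw [Real.sqrt_eq_rpow, e4, Real.rpow_one]
      rw [e2]
      ring
    have e3 : (((p : ℝ) ^ (-(1 / 2 + r.re)) : ℝ) : ℂ) * ((lp p : ℂ) * (p : ℂ) ^ (-((r.im : ℂ) * I))) *
        (Tkp x H k p : ℂ) = (((p : ℝ) ^ (-(1 / 2 + r.re)) * Tkp x H k p : ℝ) : ℂ) *
        ((lp p : ℂ) * (p : ℂ) ^ (-((r.im : ℂ) * I))) := by
      push_cast
      ring
    rw [e3, e1]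
    push_cast
    ring
  · have h0 : lp p = 0 := by
      unfold lp
      rw [if_neg hpp]
    unfold ap
    rw [h0]
    simp

theorem cos_pm (k : ℕ) : |Real.cos (π * k / 2) + Real.sin (π * k / 2)| ≤ 2 ∧
    |Real.cos (π * k / 2) - Real.sin (π * k / 2)| ≤ 2 := by
  have hc := Real.abs_cos_le_one (Real.pi * k / 2)
  have hs := Real.abs_sin_le_one (Real.pi * k / 2)
  exact ⟨(abs_add_le _ _).trans (by linarith), (abs_sub _ _).trans (by linarith)⟩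

/-- the main term at the frequency `k` -/
noncomputable def mk (r : ℂ) (Q x H : ℝ) (k : ℕ) : ℂ := ((2 / (π ^ 2 * (k : ℝ) ^ 2) : ℝ) : ℂ) *
  (((Real.cos (π * k / 2) + Real.sin (π * k / 2) : ℝ) : ℂ) *
    ∫ u in Q..(2 * Q), (wk r.re x H k u : ℂ) * vk r.im k u)

theorem freq_bound {r : ℂ} {Q x H E : ℝ} {K k : ℕ} (h : PSide Q r.im E K) (hk : k ∈ Finset.Icc 1 K)
    (hQ : 0 < Q) (hx : 0 ≤ x) (hH : 0 ≤ H) (hr : 0 ≤ r.re) (hr1 : r.re ≤ 1) :
    ‖∑ p ∈ Finset.Ioc ⌊Q⌋₊ ⌊2 * Q⌋₊, ap r p * (Tkp x H k p : ℂ) - mk r Q x H k‖ ≤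
      8 / π * E * (x + 2 * H) * Q ^ (-r.re) * (1 / (k : ℝ)) := by
  have hpi := Real.pi_pos
  have hk1 : (0 : ℝ) < k := by
    have := (Finset.mem_Icc.1 hk).1
    exact_mod_cast this
  have hE0 : 0 ≤ E := (norm_nonneg _).trans (h.neg k hk Q ⟨le_rfl, by linarith⟩)
  have hwd : ∀ y ∈ Icc Q (2 * Q), HasDerivAt (fun y : ℝ => (wk r.re x H k y : ℂ))
      (wkd r.re x H k y : ℂ) y := fun y hy =>
    (wk_hasDeriv r.re x H k (lt_of_lt_of_le hQ hy.1)).ofReal_comp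
  have hwc : ContinuousOn (fun y : ℝ => (wkd r.re x H k y : ℂ)) (Icc Q (2 * Q)) :=
    Complex.continuous_ofReal.comp_continuousOn (wkd_cont r.re x H k hQ)
  have h1 := abel_cmp hQ.le (by linarith) hwd hwc (vk_cont r.im k hQ) (h.pos k hk)
  have h2 := abel_cmp (v := fun _ => 0) hQ.le (by linarith) hwd hwc continuousOn_const (by
    simpa using h.neg k hk)
  simp only [mul_zero, intervalIntegral.integral_zero, sub_zero] at h2
  have hB := wk_total (σ := r.re) (k := k) hQ hx hH hr hr1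
  set B := ‖(wk r.re x H k (2 * Q) : ℂ)‖ + ∫ u in Q..(2 * Q), ‖(wkd r.re x H k u : ℂ)‖ with hBd
  have h1' := h1.trans (mul_le_mul_of_nonneg_left hB hE0)
  have h2' := h2.trans (mul_le_mul_of_nonneg_left hB hE0)
  have hsum : ∑ p ∈ Finset.Ioc ⌊Q⌋₊ ⌊2 * Q⌋₊, ap r p * (Tkp x H k p : ℂ) =
      ((2 / (π ^ 2 * (k : ℝ) ^ 2) : ℝ) : ℂ) *
      (((Real.cos (π * k / 2) + Real.sin (π * k / 2) : ℝ) : ℂ) *
        ∑ p ∈ Finset.Ioc ⌊Q⌋₊ ⌊2 * Q⌋₊, (wk r.re x H k p : ℂ) *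
        ((lp p : ℂ) * (p : ℂ) ^ (-((r.im : ℂ) * I)) * ((jacobiSym (k : ℤ) p : ℤ) : ℂ)) +
      ((Real.cos (π * k / 2) - Real.sin (π * k / 2) : ℝ) : ℂ) *
        ∑ p ∈ Finset.Ioc ⌊Q⌋₊ ⌊2 * Q⌋₊, (wk r.re x H k p : ℂ) *
        ((lp p : ℂ) * (p : ℂ) ^ (-((r.im : ℂ) * I)) * ((jacobiSym (-(k : ℤ)) p : ℤ) : ℂ))) := by
    rw [Finset.mul_sum, Finset.mul_sum, ← Finset.sum_add_distrib, Finset.mul_sum]
    apply Finset.sum_congr rfl
    intro p hp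
    rw [Finset.mem_Ioc] at hp
    exact ap_Tkp r x H (by omega)
  rw [hsum]
  unfold mk
  rw [← mul_sub, add_sub_right_comm, ← mul_sub, norm_mul, norm_real,
    Real.norm_of_nonneg (by positivity)]
  have h3 := cos_pm k
  have h4 : ‖((Real.cos (π * k / 2) + Real.sin (π * k / 2) : ℝ) : ℂ) *
        (∑ p ∈ Finset.Ioc ⌊Q⌋₊ ⌊2 * Q⌋₊, (wk r.re x H k p : ℂ) *
        ((lp p : ℂ) * (p : ℂ) ^ (-((r.im : ℂ) * I)) * ((jacobiSym (k : ℤ) p : ℤ) : ℂ)) -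
        ∫ u in Q..(2 * Q), (wk r.re x H k u : ℂ) * vk r.im k u)‖ ≤
        2 * (E * (π * k * (x + 2 * H) * Q ^ (-r.re))) := by
    rw [norm_mul, norm_real, Real.norm_eq_abs]
    exact mul_le_mul h3.1 h1' (norm_nonneg _) (by norm_num)
  have h5 : ‖((Real.cos (π * k / 2) - Real.sin (π * k / 2) : ℝ) : ℂ) *
        ∑ p ∈ Finset.Ioc ⌊Q⌋₊ ⌊2 * Q⌋₊, (wk r.re x H k p : ℂ) *
        ((lp p : ℂ) * (p : ℂ) ^ (-((r.im : ℂ) * I)) * ((jacobiSym (-(k : ℤ)) p : ℤ) : ℂ))‖ ≤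
        2 * (E * (π * k * (x + 2 * H) * Q ^ (-r.re))) := by
    rw [norm_mul, norm_real, Real.norm_eq_abs]
    exact mul_le_mul h3.2 h2' (norm_nonneg _) (by norm_num)
  calc _ ≤ 2 / (π ^ 2 * (k : ℝ) ^ 2) * (2 * (E * (π * k * (x + 2 * H) * Q ^ (-r.re))) +
        2 * (E * (π * k * (x + 2 * H) * Q ^ (-r.re)))) := by
        apply mul_le_mul_of_nonneg_left _ (by positivity)
        exact (norm_add_le _ _).trans (add_le_add h4 h5)
    _ = _ := by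
        field_simp
        ring

theorem sum_inv_le (K : ℕ) : ∑ k ∈ Finset.Icc 1 K, 1 / (k : ℝ) ≤ 1 + Real.log K := by
  have h := harmonic_le_one_add_log K
  rw [harmonic_eq_sum_Icc] at h
  push_cast at h
  simpa [one_div] using h

theorem cp_sq (j : ℕ) : Real.cos (π * ((j ^ 2 : ℕ) : ℝ) / 2) + Real.sin (π * ((j ^ 2 : ℕ) : ℝ) / 2) = 1 := by
  rcases Nat.even_or_odd' j with ⟨m, hm | hm⟩
  · have e : π * ((j ^ 2 : ℕ) : ℝ) / 2 = 0 + ((m ^ 2 : ℕ) : ℝ) * (2 * π) := by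
      rw [hm]
      push_cast
      ring
    rw [e, Real.cos_add_nat_mul_two_pi, Real.sin_add_nat_mul_two_pi]
    simp
  · obtain ⟨l, hl⟩ : ∃ l, m * (m + 1) = 2 * l := by
      have := Nat.even_mul_succ_self m
      obtain ⟨l, hl⟩ := this
      exact ⟨l, by rw [hl]; ring⟩
    have e : π * ((j ^ 2 : ℕ) : ℝ) / 2 = π / 2 + ((l + l : ℕ) : ℝ) * (2 * π) := by
      have h1 : j ^ 2 = 8 * l + 1 := by
        rw [hm]
        have : (2 * m + 1) ^ 2 = 4 * (m * (m + 1)) + 1 := by ring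
        rw [this, hl]
        ring
      rw [h1]
      push_cast
      ring
    rw [e, Real.cos_add_nat_mul_two_pi, Real.sin_add_nat_mul_two_pi, Real.cos_pi_div_two,
      Real.sin_pi_div_two]
    simp

/-- only the squares give main terms -/
theorem sum_mk (r : ℂ) (Q x H : ℝ) (J : ℕ) :
    ∑ k ∈ Finset.Icc 1 (J ^ 2), mk r Q x H k = ∑ j ∈ Finset.Icc 1 J, ((2 / (π ^ 2 * (j : ℝ) ^ 4) : ℝ) : ℂ) *
      ∫ u in Q..(2 * Q), (wk r.re x H (j ^ 2) u : ℂ) * (u : ℂ) ^ (-((r.im : ℂ) * I)) := by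
  have h1 : ∑ k ∈ Finset.Icc 1 (J ^ 2), mk r Q x H k =
      ∑ k ∈ (Finset.Icc 1 (J ^ 2)).filter (fun k => IsSquare k), mk r Q x H k := by
    rw [Finset.sum_filter]
    apply Finset.sum_congr rfl
    intro k _
    by_cases hk : IsSquare k
    · rw [if_pos hk]
    · rw [if_neg hk]
      unfold mk vk
      simp [if_neg hk]
  rw [h1]
  symm
  apply Finset.sum_nbij (fun j => j ^ 2)
  · intro j hj
    rw [Finset.mem_Icc] at hj
    rw [Finset.mem_filter, Finset.mem_Icc]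
    exact ⟨⟨Nat.one_le_pow _ _ hj.1, Nat.pow_le_pow_left hj.2 2⟩, ⟨j, sq j⟩⟩
  · intro a _ b _ hab
    exact Nat.pow_left_injective (by norm_num) hab
  · intro k hk
    rw [Finset.coe_filter, Set.mem_ofPred_eq, Finset.mem_Icc] at hk
    obtain ⟨l, hl⟩ := hk.2
    refine ⟨l, ?_, ?_⟩
    · rw [Finset.coe_Icc, Set.mem_Icc]
      constructor
      · rcases Nat.eq_zero_or_pos l with h | h
        · rw [h] at hl; omega
        · exact h
      · have h3 := hk.1.2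
        rw [hl, ← sq] at h3
        exact (Nat.pow_le_pow_iff_left (by norm_num)).1 h3
    · simp only
      rw [hl]; ring
  · intro j hj
    have hsq : IsSquare (j ^ 2) := ⟨j, sq j⟩
    unfold mk vk
    rw [cp_sq]
    simp only [if_pos hsq]
    push_cast
    rw [one_mul]
    congr 3
    ring

theorem int_MJ_eq (J : ℕ) {r : ℂ} {Q x H : ℝ} (hQ : 0 < Q) (hH : 0 ≤ H) :
    ∫ y in x..(x + H), MJ J r Q y = ∑ k ∈ Finset.Icc 1 (J ^ 2), mk r Q x H k -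
      ((((x + H) ^ (3 / 2 : ℝ) - x ^ (3 / 2 : ℝ)) / 3 : ℝ) : ℂ) *
        ∫ u in Q..(2 * Q), (u : ℂ) ^ (-(1 / 2 + r)) := by
  have hpi := Real.pi_pos
  rw [int_MJ J hQ hH, sum_mk, ← intervalIntegral.integral_const_mul]
  have hc1 : ∀ j ∈ Finset.Icc 1 J, ContinuousOn (fun u : ℝ => ((2 / (π ^ 2 * (j : ℝ) ^ 4) : ℝ) : ℂ) *
      ((wk r.re x H (j ^ 2) u : ℂ) * (u : ℂ) ^ (-((r.im : ℂ) * I)))) (Icc Q (2 * Q)) := by
    intro j _
    apply continuousOn_const.mul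
    apply ContinuousOn.mul _ (cpow_cont hQ _)
    intro y hy
    exact (wk_hasDeriv r.re x H _ (lt_of_lt_of_le hQ hy.1)).ofReal_comp.continuousAt.continuousWithinAt
  have hi1 : ∀ j ∈ Finset.Icc 1 J, IntervalIntegrable (fun u : ℝ => ((2 / (π ^ 2 * (j : ℝ) ^ 4) : ℝ) : ℂ) *
      ((wk r.re x H (j ^ 2) u : ℂ) * (u : ℂ) ^ (-((r.im : ℂ) * I)))) volume Q (2 * Q) := by
    intro j hj
    rw [intervalIntegrable_iff_integrableOn_Icc_of_le (by linarith)]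
    exact (hc1 j hj).integrableOn_Icc
  have h1 : ∑ j ∈ Finset.Icc 1 J, ((2 / (π ^ 2 * (j : ℝ) ^ 4) : ℝ) : ℂ) *
      ∫ u in Q..(2 * Q), (wk r.re x H (j ^ 2) u : ℂ) * (u : ℂ) ^ (-((r.im : ℂ) * I)) =
      ∫ u in Q..(2 * Q), ∑ j ∈ Finset.Icc 1 J, ((2 / (π ^ 2 * (j : ℝ) ^ 4) : ℝ) : ℂ) *
      ((wk r.re x H (j ^ 2) u : ℂ) * (u : ℂ) ^ (-((r.im : ℂ) * I))) := by
    rw [intervalIntegral.integral_finsetSum hi1]
    apply Finset.sum_congr rfl
    intro j _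
    rw [intervalIntegral.integral_const_mul]
  rw [h1, ← intervalIntegral.integral_sub]
  · apply intervalIntegral.integral_congr
    intro u hu
    rw [uIcc_of_le (by linarith)] at hu
    have hu0 : 0 < u := lt_of_lt_of_le hQ hu.1
    simp only
    have e1 : ∑ j ∈ Finset.Icc 1 J, ((2 / (π ^ 2 * (j : ℝ) ^ 4) : ℝ) : ℂ) *
      ((wk r.re x H (j ^ 2) u : ℂ) * (u : ℂ) ^ (-((r.im : ℂ) * I))) =
        (u : ℂ) ^ (-(1 / 2 + r)) * ((√u / π * ∑ j ∈ Finset.Icc 1 J, 2 * u / π / (j : ℝ) ^ 4 *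
      (Real.cos (π * (j : ℝ) ^ 2 * x / (2 * u)) - Real.cos (π * (j : ℝ) ^ 2 * (x + H) / (2 * u))) : ℝ) : ℂ) := by
      rw [Finset.mul_sum]
      push_cast
      rw [Finset.mul_sum]
      apply Finset.sum_congr rfl
      intro j hj
      have hj0 : (0 : ℝ) < j := by exact_mod_cast (Finset.mem_Icc.1 hj).1
      rw [cpow_split hu0]
      have e2 : wk r.re x H (j ^ 2) u = u ^ (-(1 / 2 + r.re)) * (u * √u) *
          (Real.cos (π * (j : ℝ) ^ 2 * x / (2 * u)) - Real.cos (π * (j : ℝ) ^ 2 * (x + H) / (2 * u))) := by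
        unfold wk
        push_cast
        congr 1
        have e4 : u ^ (1 - r.re) = u ^ (-(1 / 2 + r.re)) * (u ^ (1 : ℝ) * u ^ (1 / 2 : ℝ)) := by
          rw [← Real.rpow_add hu0, ← Real.rpow_add hu0]
          congr 1
          ring
        rw [Real.sqrt_eq_rpow, e4, Real.rpow_one]
      rw [e2]
      push_cast
      have hj0' : (j : ℂ) ≠ 0 := by exact_mod_cast hj0.ne'
      have hpi' : (π : ℂ) ≠ 0 := by exact_mod_cast hpi.ne'
      field_simp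
    rw [e1]
    push_cast
    ring
  · rw [intervalIntegrable_iff_integrableOn_Icc_of_le (by linarith)]
    exact (continuousOn_finsetSum _ hc1).integrableOn_Icc
  · rw [intervalIntegrable_iff_integrableOn_Icc_of_le (by linarith)]
    apply ContinuousOn.integrableOn_Icc
    exact continuousOn_const.mul (cpow_cont hQ _)

end Pool.Agent.Helper368_LD
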