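import Pool.Agent.Helper368_LD.CForm
import Pool.Agent.Helper368_LD.BlockA

/-!
# Summation of the main terms of the blocks
-/

set_option autoImplicit false

namespace Pool.Agent.Helper368_LD

open MeasureTheory Set Filter Topology Complex
open scoped Real

/-- the full density -/
noncomputable def gf (x u : ℝ) : ℝ := √u / π * Sf (x / (2 * u)) - √x / 2

theorem gf_eq {x u : ℝ} (hx : 0 < x) (hu : 0 < u) : gf x u = √x * (hf (x⁻¹ * u) - 1 / 2) := by
  unfold gf hf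
  have e1 : 1 / (2 * (x⁻¹ * u)) = x / (2 * u) := by
    field_simp
  have e2 : √u = √x * √(x⁻¹ * u) := by
    rw [← Real.sqrt_mul hx.le]
    congr 1
    field_simp
  rw [e1, e2]
  ring

theorem gJ_gf {J : ℕ} (hJ : 1 ≤ J) {x u : ℝ} : |gJ J x u - gf x u| ≤ √u / J := by
  unfold gJ gf
  have e1 : √u / π * SJ J (x / (2 * u)) - √x / 2 - (√u / π * Sf (x / (2 * u)) - √x / 2) =
      √u / π * (SJ J (x / (2 * u)) - Sf (x / (2 * u))) := by ring
  have h1 := SJ_Sf hJ (x / (2 * u))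
  have hpi := Real.pi_gt_three
  have hJ' : (0 : ℝ) < J := by exact_mod_cast hJ
  rw [e1, abs_mul, abs_of_nonneg (by positivity)]
  calc _ ≤ √u / π * (1 / J) := by gcongr
    _ ≤ √u / 1 * (1 / J) := by gcongr; linarith
    _ = _ := by ring

theorem gf_abs_small {x u : ℝ} : |gf x u| ≤ √u + √x / 2 := by
  unfold gf
  have h1 := Sf_abs (x / (2 * u))
  have hpi := Real.pi_gt_three
  refine (abs_sub _ _).trans ?_
  rw [abs_mul, abs_of_nonneg (by positivity : 0 ≤ √u / π), abs_of_nonneg (by positivity : 0 ≤ √x / 2)]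
  have h2 : √u / π * |Sf (x / (2 * u))| ≤ √u := by
    calc √u / π * |Sf (x / (2 * u))| ≤ √u / π * 2 := by gcongr
      _ = √u * (2 / π) := by ring
      _ ≤ √u * 1 := by
          gcongr
          rw [div_le_one (by positivity)]
          linarith
      _ = _ := mul_one _
  linarith

theorem gf_abs_large {x u : ℝ} (hx : 1 ≤ x) (hu : x ≤ u) : |gf x u| ≤ 7 * x * (1 + Real.log u) / √u := by
  have hx0 : 0 < x := by linarith
  have hu0 : 0 < u := by linarith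
  rw [gf_eq hx0 hu0, abs_mul, abs_of_nonneg (Real.sqrt_nonneg x)]
  have h1 : 1 ≤ x⁻¹ * u := by
    rw [inv_mul_eq_div, le_div_iff₀ hx0]
    linarith
  have h2 := hf_asymp h1
  rw [c0_eq] at h2
  have h3 : Real.log (x⁻¹ * u) ≤ Real.log u := by
    apply Real.log_le_log (by positivity)
    rw [inv_mul_eq_div]
    exact div_le_self hu0.le hx
  have h4 : √(x⁻¹ * u) = √u / √x := by
    rw [inv_mul_eq_div, Real.sqrt_div hu0.le]
  have hsx : 0 < √x := Real.sqrt_pos.2 hx0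
  have hsu : 0 < √u := Real.sqrt_pos.2 hu0
  calc _ ≤ √x * (7 * (1 + Real.log (x⁻¹ * u)) / √(x⁻¹ * u)) := by gcongr
    _ ≤ √x * (7 * (1 + Real.log u) / √(x⁻¹ * u)) := by gcongr
    _ = 7 * (√x * √x) * (1 + Real.log u) / √u := by
        rw [h4]
        field_simp
    _ = _ := by rw [Real.mul_self_sqrt hx0.le]

/-- the full integral -/
theorem gf_int {x : ℝ} (hx : 0 < x) {r : ℂ} (h1 : 0 < r.re) (h2 : r.re < 1 / 2) :
    IntegrableOn (fun u : ℝ => (u : ℂ) ^ (-(1 / 2 + r)) * (gf x u : ℂ)) (Ioi 0) ∧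
    ∫ u in Ioi (0 : ℝ), (u : ℂ) ^ (-(1 / 2 + r)) * (gf x u : ℂ) = (x : ℂ) ^ (1 - r) * Cr r := by
  have h3 : 0 < (1 / 2 - r).re := by simp only [sub_re]; norm_num; linarith
  have h4 : (1 / 2 - r).re < 1 / 2 := by simp only [sub_re]; norm_num; linarith
  have h5 := (mellin_right h3 h4).1
  rw [c0_eq] at h5
  set F : ℝ → ℂ := fun v : ℝ => ((hf v - 1 / 2 : ℝ) : ℂ) with hF
  have hxi : 0 < x⁻¹ := by positivity
  have e0 : ∀ u ∈ Ioi (0 : ℝ), (u : ℂ) ^ (-(1 / 2 + r)) * (gf x u : ℂ) =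
      ((√x : ℝ) : ℂ) * ((u : ℂ) ^ ((1 / 2 - r) - 1) • F (x⁻¹ * u)) := by
    intro u hu
    rw [gf_eq hx hu, hF, smul_eq_mul]
    have : -(1 / 2 + r) = (1 / 2 - r) - 1 := by ring
    rw [this]
    push_cast
    ring
  constructor
  · have h6 := ((MellinConvergent.comp_mul_left hxi).2 h5).const_mul ((√x : ℝ) : ℂ)
    refine IntegrableOn.congr_fun h6 ?_ measurableSet_Ioi
    intro u hu
    exact (e0 u hu).symm
  · rw [setIntegral_congr_fun measurableSet_Ioi e0, integral_const_mul]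
    have h7 : ∫ u in Ioi (0 : ℝ), (u : ℂ) ^ ((1 / 2 - r) - 1) • F (x⁻¹ * u) =
        mellin (fun t => F (x⁻¹ * t)) (1 / 2 - r) := rfl
    rw [h7, mellin_comp_mul_left F _ hxi, smul_eq_mul]
    unfold Cr
    rw [← mul_assoc]
    congr 1
    have hx' : (x : ℂ) ≠ 0 := by exact_mod_cast hx.ne'
    have e1 : ((x⁻¹ : ℝ) : ℂ) ^ (-(1 / 2 - r)) = (x : ℂ) ^ (1 / 2 - r) := by
      rw [Complex.ofReal_inv, Complex.inv_cpow _ _ (by
        rw [Complex.arg_ofReal_of_nonneg hx.le]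
        exact Real.pi_pos.ne), Complex.cpow_neg, inv_inv]
    have e2 : ((√x : ℝ) : ℂ) = (x : ℂ) ^ (1 / 2 : ℂ) := by
      rw [Real.sqrt_eq_rpow, Complex.ofReal_cpow hx.le]
      norm_num
    rw [e1, e2, ← Complex.cpow_add _ _ hx']
    congr 1
    ring

/-- the integral near zero -/
theorem gf_int_zero {x : ℝ} (hx : 1 ≤ x) {r : ℂ} (h1 : 0 < r.re) (h2 : r.re ≤ 2 / 5) :
    ‖∫ u in Ioc (0 : ℝ) 2, (u : ℂ) ^ (-(1 / 2 + r)) * (gf x u : ℂ)‖ ≤ 40 * √x := by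
  have hsx : 1 ≤ √x := by rw [Real.one_le_sqrt]; exact hx
  have hb : ∀ u ∈ Ioc (0 : ℝ) 2, ‖(u : ℂ) ^ (-(1 / 2 + r)) * (gf x u : ℂ)‖ ≤
      2 * √x * u ^ (-(1 / 2 + r.re)) := by
    intro u hu
    rw [norm_mul, norm_cpow_r hu.1, norm_real, Real.norm_eq_abs, mul_comm]
    apply mul_le_mul_of_nonneg_right _ (Real.rpow_nonneg hu.1.le _)
    refine gf_abs_small.trans ?_
    have h3 : √u ≤ 1.5 := Real.sqrt_le_iff.2 ⟨by norm_num, by linarith [hu.2]⟩
    linarith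
  have hi : IntegrableOn (fun u : ℝ => 2 * √x * u ^ (-(1 / 2 + r.re))) (Ioc 0 2) := by
    apply Integrable.const_mul
    rw [← IntegrableOn, ← intervalIntegrable_iff_integrableOn_Ioc_of_le (by norm_num)]
    exact intervalIntegral.intervalIntegrable_rpow' (by linarith)
  calc _ ≤ ∫ u in Ioc (0 : ℝ) 2, 2 * √x * u ^ (-(1 / 2 + r.re)) := by
        apply norm_integral_le_of_norm_le hi
        rw [ae_restrict_iff' measurableSet_Ioc]
        exact Eventually.of_forall hb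
    _ = 2 * √x * (2 ^ (1 / 2 - r.re) / (1 / 2 - r.re)) := by
        rw [integral_const_mul, ← intervalIntegral.integral_of_le (by norm_num),
          integral_rpow (Or.inl (by linarith))]
        have e1 : -(1 / 2 + r.re) + 1 = 1 / 2 - r.re := by ring
        rw [e1, Real.zero_rpow (by linarith), sub_zero]
    _ ≤ 2 * √x * 20 := by
        gcongr
        have h3 : (2 : ℝ) ^ (1 / 2 - r.re) ≤ 2 := by
          calc (2 : ℝ) ^ (1 / 2 - r.re) ≤ (2 : ℝ) ^ (1 : ℝ) :=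
                Real.rpow_le_rpow_of_exponent_le (by norm_num) (by linarith)
            _ = 2 := Real.rpow_one 2
        rw [div_le_iff₀ (by linarith)]
        linarith
    _ = _ := by ring

/-- the tail of the integral -/
theorem gf_tail {x P : ℝ} (hx : 1 ≤ x) (hP : x ≤ P) {r : ℂ} (h1 : 0 < r.re) :
    ‖∫ u in Ioi P, (u : ℂ) ^ (-(1 / 2 + r)) * (gf x u : ℂ)‖ ≤
      7 * x * (1 + Real.log P + 2 / r.re) * (2 / r.re) * P ^ (-r.re) := by
  set σ := r.re with hσ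
  have hP0 : 0 < P := by linarith
  have hlP : 0 ≤ Real.log P := Real.log_nonneg (by linarith)
  set K : ℝ := 7 * x * (1 + Real.log P + 2 / σ) * P ^ (-(σ / 2)) with hK
  have hb : ∀ u ∈ Ioi P, ‖(u : ℂ) ^ (-(1 / 2 + r)) * (gf x u : ℂ)‖ ≤ K * u ^ (-(1 + σ / 2)) := by
    intro u hu
    rw [mem_Ioi] at hu
    have hu0 : 0 < u := by linarith
    rw [norm_mul, norm_cpow_r hu0, norm_real, Real.norm_eq_abs, ← hσ]
    have h2 := gf_abs_large hx (by linarith : x ≤ u)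
    have h3 : Real.log (u / P) ≤ (u / P) ^ (σ / 2) / (σ / 2) :=
      Real.log_le_rpow_div (by positivity) (by linarith)
    have h4 : 1 ≤ (u / P) ^ (σ / 2) := by
      apply Real.one_le_rpow _ (by linarith)
      rw [le_div_iff₀ hP0]
      linarith
    have h5 : Real.log (u / P) = Real.log u - Real.log P := Real.log_div hu0.ne' hP0.ne'
    have h6 : 1 + Real.log u ≤ (1 + Real.log P + 2 / σ) * (u / P) ^ (σ / 2) := by
      have h7 : (u / P) ^ (σ / 2) / (σ / 2) = 2 / σ * (u / P) ^ (σ / 2) := by field_simp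
      rw [h7, h5] at h3
      nlinarith
    have h8 : 0 ≤ u ^ (-(1 / 2 + σ)) := Real.rpow_nonneg hu0.le _
    calc _ ≤ u ^ (-(1 / 2 + σ)) * (7 * x * (1 + Real.log u) / √u) := by gcongr
      _ ≤ u ^ (-(1 / 2 + σ)) * (7 * x * ((1 + Real.log P + 2 / σ) * (u / P) ^ (σ / 2)) / √u) := by
          gcongr
      _ = 7 * x * (1 + Real.log P + 2 / σ) * (u ^ (-(1 / 2 + σ)) * ((u / P) ^ (σ / 2) / √u)) := by ring
      _ = _ := by
          rw [hK, mul_assoc (7 * x * (1 + Real.log P + 2 / σ))]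
          congr 1
          have e5 : (√u)⁻¹ = u ^ (-(1 / 2) : ℝ) := by
            rw [Real.sqrt_eq_rpow, Real.rpow_neg hu0.le]
          have e6 : (u / P) ^ (σ / 2) / √u = u ^ (σ / 2) * ((P ^ (σ / 2))⁻¹ * u ^ (-(1 / 2) : ℝ)) := by
            rw [Real.div_rpow hu0.le hP0.le, ← e5]
            ring
          rw [e6, Real.rpow_neg hP0.le]
          have : u ^ (-(1 / 2 + σ)) * (u ^ (σ / 2) * ((P ^ (σ / 2))⁻¹ * u ^ (-(1 / 2) : ℝ))) =
              (P ^ (σ / 2))⁻¹ * (u ^ (-(1 / 2 + σ)) * u ^ (σ / 2) * u ^ (-(1 / 2) : ℝ)) := by ring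
          rw [this, ← Real.rpow_add hu0, ← Real.rpow_add hu0]
          congr 2
          ring
  have hi : IntegrableOn (fun u : ℝ => K * u ^ (-(1 + σ / 2))) (Ioi P) :=
    (integrableOn_Ioi_rpow_of_lt (by linarith) hP0).const_mul K
  calc _ ≤ ∫ u in Ioi P, K * u ^ (-(1 + σ / 2)) := by
        apply norm_integral_le_of_norm_le hi
        rw [ae_restrict_iff' measurableSet_Ioi]
        exact Eventually.of_forall hb
    _ = K * (2 / σ * P ^ (-(σ / 2))) := by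
        rw [integral_const_mul, integral_Ioi_rpow_of_lt (by linarith) hP0]
        congr 1
        have e1 : -(1 + σ / 2) + 1 = -(σ / 2) := by ring
        rw [e1]
        field_simp
    _ = _ := by
        rw [hK]
        have e2 : P ^ (-σ) = P ^ (-(σ / 2)) * P ^ (-(σ / 2)) := by
          rw [← Real.rpow_add hP0]
          congr 1
          ring
        rw [e2]
        ring

theorem gf_split {x P : ℝ} (hx : 0 < x) (hP : 2 ≤ P) {r : ℂ} (h1 : 0 < r.re) (h2 : r.re < 1 / 2) :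
    (x : ℂ) ^ (1 - r) * Cr r = (∫ u in Ioc (0 : ℝ) 2, (u : ℂ) ^ (-(1 / 2 + r)) * (gf x u : ℂ)) +
      (∫ u in (2 : ℝ)..P, (u : ℂ) ^ (-(1 / 2 + r)) * (gf x u : ℂ)) +
      ∫ u in Ioi P, (u : ℂ) ^ (-(1 / 2 + r)) * (gf x u : ℂ) := by
  obtain ⟨hi, he⟩ := gf_int hx h1 h2
  rw [← he, intervalIntegral.integral_of_le hP]
  have e1 : Ioi (0 : ℝ) = Ioc 0 P ∪ Ioi P := (Ioc_union_Ioi_eq_Ioi (by linarith)).symm
  have e2 : Ioc (0 : ℝ) P = Ioc 0 2 ∪ Ioc 2 P := (Ioc_union_Ioc_eq_Ioc (by norm_num) hP).symm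
  have d1 : Disjoint (Ioc (0 : ℝ) P) (Ioi P) := by
    rw [Set.disjoint_left]
    intro a ha hb
    exact absurd ha.2 (not_le.2 hb)
  have d2 : Disjoint (Ioc (0 : ℝ) 2) (Ioc 2 P) := by
    rw [Set.disjoint_left]
    intro a ha hb
    exact absurd ha.2 (not_le.2 hb.1)
  have s1 : Ioc (0 : ℝ) P ⊆ Ioi 0 := fun a ha => ha.1
  have s2 : Ioi P ⊆ Ioi (0 : ℝ) := Ioi_subset_Ioi (by linarith)
  rw [e1, setIntegral_union d1 measurableSet_Ioi (hi.mono_set s1) (hi.mono_set s2), e2,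
    setIntegral_union d2 measurableSet_Ioc (hi.mono_set (fun a ha => ha.1))
      (hi.mono_set (fun a ha => by have := ha.1; rw [mem_Ioi]; linarith))]

theorem Cr_abs {r : ℂ} (h1 : 0 < r.re) (h2 : r.re ≤ 2 / 5) : ‖Cr r‖ ≤ 50 / r.re ^ 2 := by
  have e1 := gf_split (x := 1) (P := 2) one_pos le_rfl h1 (by linarith)
  rw [ofReal_one, one_cpow, one_mul, intervalIntegral.integral_same, add_zero] at e1
  rw [e1]
  have a1 := gf_int_zero (x := 1) le_rfl h1 h2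
  have a2 := gf_tail (x := 1) (P := 2) le_rfl (by norm_num) h1
  rw [Real.sqrt_one] at a1
  set σ := r.re with hσ
  have hlog : Real.log 2 ≤ 0.7 := by
    have := Real.log_two_lt_d9; linarith
  have h3 : (2 : ℝ) ^ (-σ) ≤ 1 := Real.rpow_le_one_of_one_le_of_nonpos (by norm_num) (by linarith)
  have h4 : 0 ≤ (2 : ℝ) ^ (-σ) := by positivity
  have h5 : 0 ≤ Real.log 2 := Real.log_nonneg (by norm_num)
  have h6 : 7 * 1 * (1 + Real.log 2 + 2 / σ) * (2 / σ) * (2 : ℝ) ^ (-σ) ≤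
      7 * 1 * (1 + 0.7 + 2 / σ) * (2 / σ) * 1 := by gcongr
  refine (norm_add_le _ _).trans ((add_le_add a1 (a2.trans h6)).trans ?_)
  rw [le_div_iff₀ (by positivity)]
  have h7 : (40 * 1 + 7 * 1 * (1 + 0.7 + 2 / σ) * (2 / σ) * 1) * σ ^ 2 =
      40 * σ ^ 2 + 14 * (1.7 * σ + 2) := by
    field_simp
    ring
  rw [h7]
  nlinarith

theorem MJ_sum (J : ℕ) (r : ℂ) (x : ℝ) {n : ℕ} (hn : 1 ≤ n) :
    ∑ i ∈ Finset.Ico 1 n, MJ J r (2 ^ i) x =
      ∫ u in (2 : ℝ)..(2 ^ n), (u : ℂ) ^ (-(1 / 2 + r)) * (gJ J x u : ℂ) := by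
  have h := intervalIntegral.sum_integral_adjacent_intervals_Ico (a := fun i : ℕ => (2 : ℝ) ^ i)
    (μ := volume) (f := fun u : ℝ => (u : ℂ) ^ (-(1 / 2 + r)) * (gJ J x u : ℂ)) hn (by
      intro k _
      have := MJ_integrable J r (Q := (2 : ℝ) ^ k) (by positivity) x
      rw [pow_succ, mul_comm ((2 : ℝ) ^ k) 2]
      exact this)
  simp only [pow_one] at h
  rw [← h]
  apply Finset.sum_congr rfl
  intro i _
  unfold MJ
  rw [pow_succ, mul_comm ((2 : ℝ) ^ i) 2]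

/-- the sum of the main terms of the blocks -/
theorem MJ_total {J n : ℕ} (hn : 1 ≤ n) {x : ℝ} (hx : 1 ≤ x) (hxn : x ≤ 2 ^ n) (hJ : (2 : ℝ) ^ n ≤ J)
    {r : ℂ} (h1 : 0 < r.re) (h2 : r.re ≤ 2 / 5) :
    ‖∑ i ∈ Finset.Ico 1 n, MJ J r (2 ^ i) x - (x : ℂ) ^ (1 - r) * Cr r‖ ≤
      41 * √x + 7 * x * (1 + Real.log (2 ^ n) + 2 / r.re) * (2 / r.re) * ((2 : ℝ) ^ n) ^ (-r.re) := by
  have hn2 : (2 : ℝ) ≤ 2 ^ n := by
    calc (2 : ℝ) = 2 ^ 1 := (pow_one _).symm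
      _ ≤ 2 ^ n := pow_le_pow_right₀ (by norm_num) hn
  have hT0 : (0 : ℝ) < 2 ^ n := by positivity
  have hJ1 : 1 ≤ J := by
    have : (1 : ℝ) ≤ J := by linarith
    exact_mod_cast this
  have hJ0 : (0 : ℝ) < J := by exact_mod_cast hJ1
  have hx0 : 0 < x := by linarith
  rw [MJ_sum J r x hn, gf_split hx0 hn2 h1 (by linarith)]
  have a1 := gf_int_zero hx h1 h2
  have a2 := gf_tail hx hxn h1
  obtain ⟨hi, -⟩ := gf_int hx0 h1 (by linarith : r.re < 1 / 2)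
  have hgf : IntervalIntegrable (fun u : ℝ => (u : ℂ) ^ (-(1 / 2 + r)) * (gf x u : ℂ)) volume
      (2 : ℝ) (2 ^ n) := by
    rw [intervalIntegrable_iff_integrableOn_Ioc_of_le hn2]
    exact hi.mono_set (fun a ha => by have := ha.1; rw [mem_Ioi]; linarith)
  have hgJ : IntervalIntegrable (fun u : ℝ => (u : ℂ) ^ (-(1 / 2 + r)) * (gJ J x u : ℂ)) volume
      (2 : ℝ) (2 ^ n) := by
    rw [intervalIntegrable_iff_integrableOn_Icc_of_le hn2]
    apply ContinuousOn.integrableOn_Icc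
    exact (cpow_cont (by norm_num) _).mul
      (Complex.continuous_ofReal.comp_continuousOn (gJ_cont_u J x (by norm_num)))
  have a3 : ‖(∫ u in (2 : ℝ)..(2 ^ n), (u : ℂ) ^ (-(1 / 2 + r)) * (gJ J x u : ℂ)) -
      ∫ u in (2 : ℝ)..(2 ^ n), (u : ℂ) ^ (-(1 / 2 + r)) * (gf x u : ℂ)‖ ≤ √x := by
    rw [← intervalIntegral.integral_sub hgJ hgf]
    have hb : ∀ u ∈ Set.uIoc (2 : ℝ) (2 ^ n), ‖(u : ℂ) ^ (-(1 / 2 + r)) * (gJ J x u : ℂ) -
        (u : ℂ) ^ (-(1 / 2 + r)) * (gf x u : ℂ)‖ ≤ 1 / J := by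
      intro u hu
      rw [uIoc_of_le hn2] at hu
      have hu0 : 0 < u := by linarith [hu.1]
      have hu1 : 1 ≤ u := by linarith [hu.1]
      rw [← mul_sub, norm_mul, norm_cpow_r hu0, ← ofReal_sub, norm_real, Real.norm_eq_abs]
      calc u ^ (-(1 / 2 + r.re)) * |gJ J x u - gf x u| ≤ u ^ (-(1 / 2) : ℝ) * (√u / J) := by
            apply mul_le_mul _ (gJ_gf hJ1) (abs_nonneg _) (Real.rpow_nonneg hu0.le _)
            exact Real.rpow_le_rpow_of_exponent_le hu1 (by linarith)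
        _ = 1 / J := by
            rw [Real.rpow_neg hu0.le, Real.sqrt_eq_rpow]
            have : 0 < u ^ (1 / 2 : ℝ) := Real.rpow_pos_of_pos hu0 _
            field_simp
    refine (intervalIntegral.norm_integral_le_of_norm_le_const hb).trans ?_
    rw [abs_of_nonneg (by linarith)]
    have h5 : 1 ≤ √x := by rw [Real.one_le_sqrt]; exact hx
    calc 1 / (J : ℝ) * (2 ^ n - 2) ≤ 1 / (J : ℝ) * J := by
          gcongr
          linarith
      _ = 1 := by field_simp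
      _ ≤ _ := h5
  set A0 := ∫ u in Ioc (0 : ℝ) 2, (u : ℂ) ^ (-(1 / 2 + r)) * (gf x u : ℂ) with hA0
  set A2 := ∫ u in Ioi ((2 : ℝ) ^ n), (u : ℂ) ^ (-(1 / 2 + r)) * (gf x u : ℂ) with hA2
  set GJ := ∫ u in (2 : ℝ)..(2 ^ n), (u : ℂ) ^ (-(1 / 2 + r)) * (gJ J x u : ℂ) with hGJ
  set GF := ∫ u in (2 : ℝ)..(2 ^ n), (u : ℂ) ^ (-(1 / 2 + r)) * (gf x u : ℂ) with hGF
  have e1 : GJ - (A0 + GF + A2) = (GJ - GF) - (A0 + A2) := by ring
  rw [e1]
  calc _ ≤ ‖GJ - GF‖ + ‖A0 + A2‖ := norm_sub_le _ _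
    _ ≤ ‖GJ - GF‖ + (‖A0‖ + ‖A2‖) := by
        gcongr
        exact norm_add_le _ _
    _ ≤ _ := by linarith

end Pool.Agent.Helper368_LD
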