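import Pool.Agent.Helper368_LD.BlockFinal
import Pool.Agent.Helper368_LD.Tail

/-!
# Summation over all blocks
-/

set_option autoImplicit false

namespace Pool.Agent.Helper368_LD

open MeasureTheory Set Complex
open scoped Real ArithmeticFunction.vonMangoldt
open Pool.Agent.H491R3.J

/-- the sum over all primes up to `2 ^ n` -/
noncomputable def WT (r : ℂ) (n : ℕ) (x : ℝ) : ℂ := ∑ p ∈ Finset.Icc 1 (2 ^ n),
  ap r p * ((∑ l ∈ Finset.Icc 1 ⌊x⌋₊, fnp p l : ℝ) : ℂ)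

theorem WT_eq (r : ℂ) (x : ℝ) {n : ℕ} (hn : 1 ≤ n) : WT r n x = ∑ i ∈ Finset.Ico 1 n, WW r (2 ^ i) x := by
  induction n, hn using Nat.le_induction with
  | base =>
    rw [Finset.Ico_self, Finset.sum_empty]
    unfold WT
    apply Finset.sum_eq_zero
    intro p hp
    rw [Finset.mem_Icc] at hp
    have h1 : lp p = 0 := by
      unfold lp
      rw [if_neg]
      rintro ⟨hp1, hp2⟩
      have := hp1.two_le
      omega
    unfold ap
    rw [h1]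
    simp
  | succ n hn ih =>
    rw [Finset.sum_Ico_succ_top hn, ← ih]
    unfold WT WW
    have e1 : ⌊(2 : ℝ) ^ n⌋₊ = 2 ^ n := by
      have : ((2 : ℝ) ^ n) = ((2 ^ n : ℕ) : ℝ) := by push_cast; rfl
      rw [this, Nat.floor_natCast]
    have e2 : ⌊2 * (2 : ℝ) ^ n⌋₊ = 2 ^ (n + 1) := by
      have : (2 * (2 : ℝ) ^ n) = ((2 ^ (n + 1) : ℕ) : ℝ) := by push_cast; ring
      rw [this, Nat.floor_natCast]
    rw [e1, e2]
    have e3 : Finset.Icc 1 (2 ^ (n + 1)) = Finset.Icc 1 (2 ^ n) ∪ Finset.Ioc (2 ^ n) (2 ^ (n + 1)) := by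
      ext k
      simp only [Finset.mem_union, Finset.mem_Icc, Finset.mem_Ioc]
      have h1 : 1 ≤ 2 ^ n := Nat.one_le_two_pow
      have h2 : 2 ^ (n + 1) = 2 * 2 ^ n := by ring
      omega
    have e4 : Disjoint (Finset.Icc 1 (2 ^ n)) (Finset.Ioc (2 ^ n) (2 ^ (n + 1))) := by
      rw [Finset.disjoint_left]
      intro k hk hk2
      rw [Finset.mem_Icc] at hk
      rw [Finset.mem_Ioc] at hk2
      omega
    rw [e3, Finset.sum_union e4]

/-- all blocks together -/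
theorem WT_main (hG : GRHJ) {Θ : ℝ} (hR : RealHyp Θ) (hΘ : 1 / 2 ≤ Θ) (hΘ1 : Θ < 1) {B : ℕ}
    (hB : 8 / (1 - Θ) ≤ B) {Y : ℝ} (hY : 2 ≤ Y) {r : ℂ} (hr : 0 < r.re) (hr1 : r.re ≤ 2 / 5)
    {x : ℝ} (hx : 1 ≤ x) (hxY : 2 * x ≤ Y) {n : ℕ} (hn : x ^ (1 / Θ) < 2 ^ n) (hnY : (2 : ℝ) ^ n ≤ Y) :
    ‖WT r n x - (x : ℂ) ^ (1 - r) * Cr r‖ ≤
      (n * (300 * DY B Y r.im * lY B Y) +
        (41 + 7 * (1 + Real.log (2 ^ n) + 2 / r.re) * (2 / r.re))) *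
        x ^ (max (1 / 2) (1 - r.re / Θ)) := by
  obtain ⟨j1, j2, j3⟩ := JY_facts hY B
  have hD1 : 10 ^ 6 ≤ DY B Y r.im := DY_ge hY B r.im
  have hℓ1 : 7 ≤ lY B Y := lY_ge hY B
  have hY0 : 0 < Y := by linarith
  have hx0 : 0 < x := by linarith
  have hΘ0 : 0 < Θ := by linarith
  set σ := r.re with hσ
  set e := max (1 / 2) (1 - σ / Θ) with he
  set D := DY B Y r.im with hD
  set ℓ := lY B Y with hℓ
  have hD0 : 0 < D := by linarith
  have he1 : (1 / 2 : ℝ) ≤ e := le_max_left _ _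
  have he2 : 1 - σ / Θ ≤ e := le_max_right _ _
  set z := x ^ (1 / Θ) with hz
  have hz1 : 1 ≤ z := Real.one_le_rpow hx (by positivity)
  have hz0 : 0 < z := by linarith
  have hzΘ : z ^ Θ = x := by
    rw [hz, ← Real.rpow_mul hx0.le]
    have : 1 / Θ * Θ = 1 := by field_simp
    rw [this, Real.rpow_one]
  have hxz : x ≤ z := by
    calc x = x ^ (1 : ℝ) := (Real.rpow_one x).symm
      _ ≤ z := by
        apply Real.rpow_le_rpow_of_exponent_le hx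
        rw [le_div_iff₀ hΘ0]
        linarith
  have hxe1 : √x ≤ x ^ e := by
    rw [Real.sqrt_eq_rpow]
    exact Real.rpow_le_rpow_of_exponent_le hx he1
  have hxe2 : x * z ^ (-σ) ≤ x ^ e := by
    have h1 : x * z ^ (-σ) = x ^ (1 - σ / Θ) := by
      rw [hz, ← Real.rpow_mul hx0.le]
      nth_rewrite 1 [← Real.rpow_one x]
      rw [← Real.rpow_add hx0]
      congr 1
      ring
    rw [h1]
    exact Real.rpow_le_rpow_of_exponent_le hx he2
  obtain ⟨k, hk1, hk2⟩ := exists_nat_pow_near hz1 (by norm_num : (1 : ℝ) < 2)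
  have hkn : k + 1 ≤ n := by
    have h1 : (2 : ℝ) ^ k < 2 ^ n := lt_of_le_of_lt hk1 hn
    have := (pow_lt_pow_iff_right₀ (by norm_num : (1 : ℝ) < 2)).1 h1
    omega
  have hpow : ∀ i : ℕ, i ≤ n → (2 : ℝ) ^ i ≤ Y := fun i hi =>
    (pow_le_pow_right₀ (by norm_num) hi).trans hnY
  have hQ1 : ∀ i : ℕ, (1 : ℝ) ≤ 2 ^ i := fun i => one_le_pow₀ (by norm_num)
  have hYB : Y ≤ Y ^ (B + 1) := by
    calc Y = Y ^ 1 := (pow_one Y).symm
      _ ≤ Y ^ (B + 1) := pow_le_pow_right₀ (by linarith) (by omega)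
  have hYB2 : Y ≤ Y ^ (B + 2) := by
    calc Y = Y ^ 1 := (pow_one Y).symm
      _ ≤ Y ^ (B + 2) := pow_le_pow_right₀ (by linarith) (by omega)
  -- small blocks
  have hsmall : ∀ i ∈ Finset.Ico 1 (k + 1), ‖WW r (2 ^ i) x - MJ (JY B Y) r (2 ^ i) x‖ ≤
      300 * D * ℓ * x ^ e := by
    intro i hi
    rw [Finset.mem_Ico] at hi
    have hQ0 : (0 : ℝ) < 2 ^ i := by positivity
    have hQz : (2 : ℝ) ^ i ≤ z := (pow_le_pow_right₀ (by norm_num) (by omega)).trans hk1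
    have hQx : ((2 : ℝ) ^ i) ^ Θ ≤ x := by
      rw [← hzΘ]
      exact Real.rpow_le_rpow hQ0.le hQz hΘ0.le
    have h1 := MJ_WW_small hG hR hΘ hΘ1 hB hY hr.le (by linarith : r.re ≤ 1 / 2) (hQ1 i) hx hQx
      (hpow i (by omega)) hxY
    rw [norm_sub_rev]
    refine h1.trans ?_
    rw [← hD, ← hℓ, ← hσ, mul_assoc]
    apply mul_le_mul_of_nonneg_left _ (by positivity)
    rw [Real.sqrt_mul (Real.rpow_nonneg hQ0.le _)]
    have e1 : √(((2 : ℝ) ^ i) ^ Θ) = ((2 : ℝ) ^ i) ^ (Θ / 2) := by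
      rw [Real.sqrt_eq_rpow, ← Real.rpow_mul hQ0.le]
      congr 1
      ring
    rw [e1, mul_right_comm, ← Real.rpow_add hQ0]
    by_cases hc : σ ≤ Θ / 2
    · have h2 : ((2 : ℝ) ^ i) ^ (Θ / 2 + -σ) ≤ z ^ (Θ / 2 + -σ) :=
        Real.rpow_le_rpow hQ0.le hQz (by linarith)
      have h3 : z ^ (Θ / 2 + -σ) * √x = x * z ^ (-σ) := by
        rw [Real.rpow_add hz0]
        have h4 : z ^ (Θ / 2) = √x := by
          rw [← hzΘ, Real.sqrt_eq_rpow, ← Real.rpow_mul hz0.le]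
          congr 1
          ring
        rw [h4]
        calc √x * z ^ (-σ) * √x = (√x * √x) * z ^ (-σ) := by ring
          _ = _ := by rw [Real.mul_self_sqrt hx0.le]
      calc ((2 : ℝ) ^ i) ^ (Θ / 2 + -σ) * √x ≤ z ^ (Θ / 2 + -σ) * √x := by gcongr
        _ = x * z ^ (-σ) := h3
        _ ≤ x ^ e := hxe2
    · push Not at hc
      have h2 : ((2 : ℝ) ^ i) ^ (Θ / 2 + -σ) ≤ 1 :=
        Real.rpow_le_one_of_one_le_of_nonpos (hQ1 i) (by linarith)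
      calc ((2 : ℝ) ^ i) ^ (Θ / 2 + -σ) * √x ≤ 1 * √x := by gcongr
        _ ≤ x ^ e := by rw [one_mul]; exact hxe1
  -- large blocks
  have hlarge : ∀ i ∈ Finset.Ico (k + 1) n, ‖WW r (2 ^ i) x‖ ≤ 300 * D * ℓ * x ^ e := by
    intro i hi
    rw [Finset.mem_Ico] at hi
    have hQ0 : (0 : ℝ) < 2 ^ i := by positivity
    have hQz : z ≤ (2 : ℝ) ^ i := hk2.le.trans (pow_le_pow_right₀ (by norm_num) hi.1)
    have h1 := WW_le hG (L := x) (hQ1 i) hr.le hx0.le le_rfl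
    have h2 := Nb_le hY B r.im (hQ1 i) ((hpow i (by omega)).trans hYB) hx0.le
      (by linarith : x ≤ Y ^ (B + 2))
    rw [← hD] at h2
    rw [← hσ] at h1
    have h3 : ((2 : ℝ) ^ i) ^ (-σ) ≤ z ^ (-σ) := Real.rpow_le_rpow_of_nonpos hz0 hQz (by linarith)
    have h4 : 0 ≤ z ^ (-σ) := Real.rpow_nonneg hz0.le _
    calc _ ≤ x * (Nb x r.im (2 ^ i) * ((2 : ℝ) ^ i) ^ (-σ)) := h1
      _ ≤ x * (3 * D * z ^ (-σ)) := by gcongr
      _ = 3 * D * (x * z ^ (-σ)) := by ring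
      _ ≤ 3 * D * x ^ e := by gcongr
      _ ≤ _ := by
          have h5 : 0 ≤ x ^ e := Real.rpow_nonneg hx0.le _
          apply mul_le_mul_of_nonneg_right _ h5
          nlinarith
  have hsum : ‖WT r n x - ∑ i ∈ Finset.Ico 1 (k + 1), MJ (JY B Y) r (2 ^ i) x‖ ≤
      n * (300 * D * ℓ * x ^ e) := by
    rw [WT_eq r x (by omega), ← Finset.sum_Ico_consecutive _ (by omega : 1 ≤ k + 1) hkn]
    have e1 : (∑ i ∈ Finset.Ico 1 (k + 1), WW r (2 ^ i) x + ∑ i ∈ Finset.Ico (k + 1) n, WW r (2 ^ i) x) -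
        ∑ i ∈ Finset.Ico 1 (k + 1), MJ (JY B Y) r (2 ^ i) x =
        ∑ i ∈ Finset.Ico 1 (k + 1), (WW r (2 ^ i) x - MJ (JY B Y) r (2 ^ i) x) +
        ∑ i ∈ Finset.Ico (k + 1) n, WW r (2 ^ i) x := by
      rw [Finset.sum_sub_distrib]
      ring
    rw [e1]
    refine (norm_add_le _ _).trans ?_
    refine (add_le_add (norm_sum_le_of_le _ hsmall) (norm_sum_le_of_le _ hlarge)).trans ?_
    rw [Finset.sum_const, Finset.sum_const, Nat.card_Ico, Nat.card_Ico, nsmul_eq_mul, nsmul_eq_mul,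
      ← add_mul]
    apply mul_le_mul_of_nonneg_right
    · have : k + 1 - 1 + (n - (k + 1)) ≤ n := by omega
      exact_mod_cast this
    · positivity
  have hJ : (2 : ℝ) ^ (k + 1) ≤ JY B Y := by
    have h1 := hpow (k + 1) hkn
    linarith
  have hMJ := MJ_total (J := JY B Y) (n := k + 1) (by omega) hx (by linarith : x ≤ 2 ^ (k + 1)) hJ hr hr1
  rw [← hσ] at hMJ
  have hlog : Real.log (2 ^ (k + 1)) ≤ Real.log (2 ^ n) :=
    Real.log_le_log (by positivity) (pow_le_pow_right₀ (by norm_num) hkn)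
  have hlog0 : 0 ≤ Real.log ((2 : ℝ) ^ (k + 1)) := Real.log_nonneg (hQ1 _)
  have h5 : ((2 : ℝ) ^ (k + 1)) ^ (-σ) ≤ z ^ (-σ) := Real.rpow_le_rpow_of_nonpos hz0 hk2.le (by linarith)
  have h6 : 41 * √x + 7 * x * (1 + Real.log (2 ^ (k + 1)) + 2 / σ) * (2 / σ) *
      ((2 : ℝ) ^ (k + 1)) ^ (-σ) ≤ (41 + 7 * (1 + Real.log (2 ^ n) + 2 / σ) * (2 / σ)) * x ^ e := by
    have h7 : 0 ≤ 1 + Real.log (2 ^ n) + 2 / σ := by
      have : 0 ≤ 2 / σ := by positivity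
      linarith
    calc _ ≤ 41 * x ^ e + 7 * x * (1 + Real.log (2 ^ n) + 2 / σ) * (2 / σ) * z ^ (-σ) := by gcongr
      _ = 41 * x ^ e + 7 * (1 + Real.log (2 ^ n) + 2 / σ) * (2 / σ) * (x * z ^ (-σ)) := by ring
      _ ≤ 41 * x ^ e + 7 * (1 + Real.log (2 ^ n) + 2 / σ) * (2 / σ) * x ^ e := by
          gcongr
      _ = _ := by ring
  set M := ∑ i ∈ Finset.Ico 1 (k + 1), MJ (JY B Y) r (2 ^ i) x with hM
  have e2 : WT r n x - (x : ℂ) ^ (1 - r) * Cr r = (WT r n x - M) + (M - (x : ℂ) ^ (1 - r) * Cr r) := by ring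
  rw [e2]
  calc _ ≤ ‖WT r n x - M‖ + ‖M - (x : ℂ) ^ (1 - r) * Cr r‖ := norm_add_le _ _
    _ ≤ n * (300 * D * ℓ * x ^ e) + (41 + 7 * (1 + Real.log (2 ^ n) + 2 / σ) * (2 / σ)) * x ^ e :=
        add_le_add hsum (hMJ.trans h6)
    _ = _ := by ring

end Pool.Agent.Helper368_LD
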