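import Pool.Agent.Helper368_LD.Sieve

/-!
# Counting odd squarefree integers prime to a given prime
-/

set_option autoImplicit false

namespace Pool.Agent.Helper368_LD

open Complex Filter Topology
open scoped Real

theorem sum_rpow_tail {β : ℝ} (hβ : 1 < β) {D : ℕ} (hD : 1 ≤ D) (n : ℕ) :
    ∑ i ∈ Finset.range n, ((D + (i + 1) : ℕ) : ℝ) ^ (-β) ≤ (D : ℝ) ^ (1 - β) / (β - 1) := by
  have hD0 : (0 : ℝ) < D := by exact_mod_cast hD
  have hanti : AntitoneOn (fun x : ℝ => x ^ (-β)) (Set.Icc (D : ℝ) (D + n)) := by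
    intro x hx y _ hxy
    exact Real.rpow_le_rpow_of_nonpos (by linarith [hx.1]) hxy (by linarith)
  have h1 := hanti.sum_le_integral
  have h2 : ∑ i ∈ Finset.range n, ((D + (i + 1) : ℕ) : ℝ) ^ (-β) =
      ∑ i ∈ Finset.range n, ((D : ℝ) + ((i + 1 : ℕ) : ℝ)) ^ (-β) := by
    apply Finset.sum_congr rfl
    intro i _
    push_cast
    ring_nf
  rw [h2]
  refine h1.trans ?_
  rw [integral_rpow (Or.inr ⟨by linarith, by
    rw [Set.uIcc_of_le (by linarith [Nat.cast_nonneg (α := ℝ) n])]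
    intro h
    linarith [h.1]⟩)]
  have e : -β + 1 = -(β - 1) := by ring
  have h3 : 0 ≤ ((D : ℝ) + n) ^ (-β + 1) := Real.rpow_nonneg (by positivity) _
  have h4 : (((D : ℝ) + n) ^ (-β + 1) - (D : ℝ) ^ (-β + 1)) / (-β + 1) =
      ((D : ℝ) ^ (-β + 1) - ((D : ℝ) + n) ^ (-β + 1)) / (β - 1) := by
    rw [div_eq_div_iff (by linarith) (by linarith)]
    ring
  rw [h4, show (1 : ℝ) - β = -β + 1 by ring]
  apply div_le_div_of_nonneg_right _ (by linarith)
  linarith

theorem lseries_tail {f : ℕ → ℂ} (hf : ∀ n, ‖f n‖ ≤ 1) {s : ℂ} (hs : 1 < s.re) {D : ℕ}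
    (hD : 1 ≤ D) :
    ‖LSeries f s - ∑ d ∈ Finset.Icc 1 D, f d * (d : ℂ) ^ (-s)‖ ≤ (D : ℝ) ^ (1 - s.re) / (s.re - 1) := by
  have hsum : LSeriesSummable f s := LSeriesSummable_of_bounded_of_one_lt_re (m := 1)
    (fun n _ => hf n) hs
  unfold LSeries
  have hsplit := hsum.sum_add_tsum_nat_add (D + 1)
  have h0 : ∑ i ∈ Finset.range (D + 1), LSeries.term f s i =
      ∑ d ∈ Finset.Icc 1 D, f d * (d : ℂ) ^ (-s) := by
    rw [← Finset.sum_subset (s₁ := Finset.Icc 1 D) (s₂ := Finset.range (D + 1))]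
    · apply Finset.sum_congr rfl
      intro d hd
      rw [Finset.mem_Icc] at hd
      rw [LSeries.term_of_ne_zero (by omega), Complex.cpow_neg, div_eq_mul_inv]
    · intro d hd
      rw [Finset.mem_Icc] at hd
      rw [Finset.mem_range]
      omega
    · intro d hd hd2
      rw [Finset.mem_range] at hd
      rw [Finset.mem_Icc] at hd2
      have : d = 0 := by omega
      rw [this, LSeries.term_zero]
  rw [← hsplit, h0, add_sub_cancel_left]
  have hsn : Summable (fun i : ℕ => ‖LSeries.term f s (i + (D + 1))‖) :=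
    ((summable_nat_add_iff (D + 1)).2 hsum).norm
  refine (norm_tsum_le_tsum_norm hsn).trans ?_
  apply Real.tsum_le_of_sum_range_le (fun _ => norm_nonneg _)
  intro n
  refine le_trans (Finset.sum_le_sum ?_) (sum_rpow_tail hs hD n)
  intro i _
  rw [LSeries.term_of_ne_zero (by omega), norm_div, norm_natCast_cpow_of_pos (by omega),
    Real.rpow_neg (Nat.cast_nonneg _), show i + (D + 1) = D + (i + 1) by ring, div_eq_mul_inv]
  have h1 := hf (D + (i + 1))
  have h2 : 0 ≤ (((D + (i + 1) : ℕ) : ℝ) ^ s.re)⁻¹ := by positivity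
  nlinarith

/-- the Moebius function on integers prime to `M` -/
noncomputable def muc (M : ℕ) (d : ℕ) : ℂ := if Nat.Coprime d M then ((ArithmeticFunction.moebius d : ℤ) : ℂ) else 0

theorem muc_norm (M d : ℕ) : ‖muc M d‖ ≤ 1 := by
  unfold muc
  split_ifs
  · rcases ArithmeticFunction.moebius_eq_or d with h | h | h <;> rw [h] <;> simp
  · simp

theorem muc_LSeries (M : ℕ) [NeZero M] {s : ℂ} (hs : 1 < s.re) :
    LSeries (muc M) s * ((∏ p ∈ M.primeFactors, (1 - (p : ℂ) ^ (-s))) * riemannZeta s) = 1 := by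
  have h1 := DirichletCharacter.LSeries.mul_mu_eq_one (1 : DirichletCharacter ℂ M) hs
  have hs1 : s ≠ 1 := by
    intro h; rw [h] at hs; norm_num at hs
  have h2 := DirichletCharacter.LFunctionTrivChar_eq_mul_riemannZeta (N := M) hs1
  have h3 := DirichletCharacter.LFunction_eq_LSeries (1 : DirichletCharacter ℂ M) hs
  rw [← h2, mul_comm]
  change DirichletCharacter.LFunction 1 s * _ = 1
  rw [h3]
  convert h1 using 2
  apply congrArg (fun f => LSeries f s)
  funext d
  simp only [Pi.mul_apply]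
  unfold muc
  split_ifs with h
  · rw [MulChar.one_apply ((ZMod.isUnit_iff_coprime d M).2 h), one_mul]
  · rw [MulChar.map_nonunit _ (fun h5 => h ((ZMod.isUnit_iff_coprime d M).1 h5)), zero_mul]

theorem card_odd (N : ℕ) : ((Finset.Icc 1 N).filter (fun l => Odd l)).card = (N + 1) / 2 := by
  induction N with
  | zero => simp
  | succ n ih =>
    rw [← Finset.insert_Icc_right_eq_Icc_add_one (by omega), Finset.filter_insert]
    split_ifs with h
    · rw [Finset.card_insert_of_notMem (by simp), ih]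
      rw [Nat.odd_iff] at h
      omega
    · rw [ih]
      rw [Nat.not_odd_iff_even, Nat.even_iff] at h
      omega

theorem card_odd_bound {y : ℝ} (hy : 0 ≤ y) :
    |(((Finset.Icc 1 ⌊y⌋₊).filter (fun l => Odd l)).card : ℝ) - y / 2| ≤ 1 / 2 := by
  rw [card_odd]
  have h1 := Nat.floor_le hy
  have h2 := Nat.lt_floor_add_one y
  set N := ⌊y⌋₊
  rcases Nat.even_or_odd' N with ⟨k, hk | hk⟩
  · have h3 : (N + 1) / 2 = k := by omega
    rw [h3]
    have h4 : (N : ℝ) = 2 * k := by rw [hk]; push_cast; ring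
    rw [abs_le]
    constructor <;> linarith
  · have h3 : (N + 1) / 2 = k + 1 := by omega
    rw [h3]
    have h4 : (N : ℝ) = 2 * k + 1 := by rw [hk]; push_cast; ring
    push_cast
    rw [abs_le]
    constructor <;> linarith

/-- the density factor -/
noncomputable def cp (p : ℕ) : ℝ := if p = 2 then 1 / 2 else 1 / 2 * (1 - 1 / (p : ℝ))

theorem card_cop {p : ℕ} (hp : p.Prime) {y : ℝ} (hy : 0 ≤ y) :
    |(((Finset.Icc 1 ⌊y⌋₊).filter (fun l => Odd l ∧ ¬ p ∣ l)).card : ℝ) - cp p * y| ≤ 1 := by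
  unfold cp
  split_ifs with h2
  · have h3 : (Finset.Icc 1 ⌊y⌋₊).filter (fun l => Odd l ∧ ¬ p ∣ l) =
        (Finset.Icc 1 ⌊y⌋₊).filter (fun l => Odd l) := by
      ext l
      simp only [Finset.mem_filter, and_congr_right_iff, and_iff_left_iff_imp]
      intro _ ho hd
      rw [h2] at hd
      rw [Nat.odd_iff] at ho
      omega
    rw [h3]
    have := card_odd_bound hy
    rw [abs_le] at this ⊢
    constructor <;> linarith
  · have hp0 : (0 : ℝ) < p := by exact_mod_cast hp.pos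
    have hodd : Odd p := hp.odd_of_ne_two h2
    have h3 : ((Finset.Icc 1 ⌊y⌋₊).filter (fun l => Odd l)).card =
        ((Finset.Icc 1 ⌊y⌋₊).filter (fun l => Odd l ∧ ¬ p ∣ l)).card +
        ((Finset.Icc 1 ⌊y⌋₊).filter (fun l => Odd l ∧ p ∣ l)).card := by
      rw [← Finset.card_union_of_disjoint]
      · congr 1
        ext l
        simp only [Finset.mem_filter, Finset.mem_union]
        tauto
      · rw [Finset.disjoint_left]
        intro l hl hl2
        rw [Finset.mem_filter] at hl hl2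
        exact hl.2.2 hl2.2.2
    have h4 : ((Finset.Icc 1 ⌊y⌋₊).filter (fun l => Odd l ∧ p ∣ l)).card =
        ((Finset.Icc 1 ⌊y / p⌋₊).filter (fun l => Odd l)).card := by
      symm
      apply Finset.card_nbij (fun l => p * l)
      · intro l hl
        rw [Finset.coe_filter, Set.mem_ofPred_eq, Finset.mem_Icc, Nat.floor_div_natCast] at hl
        rw [Finset.coe_filter, Set.mem_ofPred_eq, Finset.mem_Icc]
        refine ⟨⟨?_, ?_⟩, ?_, dvd_mul_right _ _⟩
        · have := hl.1.1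
          have := hp.pos
          nlinarith
        · have := (Nat.le_div_iff_mul_le hp.pos).1 hl.1.2
          rwa [mul_comm] at this
        · exact hodd.mul hl.2
      · intro a _ b _ hab
        exact Nat.eq_of_mul_eq_mul_left hp.pos hab
      · intro l hl
        rw [Finset.coe_filter, Set.mem_ofPred_eq, Finset.mem_Icc] at hl
        obtain ⟨k, hk⟩ := hl.2.2
        refine ⟨k, ?_, hk.symm⟩
        rw [Finset.coe_filter, Set.mem_ofPred_eq, Finset.mem_Icc, Nat.floor_div_natCast]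
        refine ⟨⟨?_, ?_⟩, ?_⟩
        · rcases Nat.eq_zero_or_pos k with h | h
          · rw [h, mul_zero] at hk
            omega
          · exact h
        · rw [Nat.le_div_iff_mul_le hp.pos, mul_comm, ← hk]
          exact hl.1.2
        · have := hl.2.1
          rw [hk] at this
          exact Nat.Odd.of_mul_left (by rwa [mul_comm] at this)
    have h5 := card_odd_bound hy
    have h6 := card_odd_bound (y := y / p) (by positivity)
    rw [h4] at h3
    have h7 : (((Finset.Icc 1 ⌊y⌋₊).filter (fun l => Odd l)).card : ℝ) =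
        ((Finset.Icc 1 ⌊y⌋₊).filter (fun l => Odd l ∧ ¬ p ∣ l)).card +
        ((Finset.Icc 1 ⌊y / p⌋₊).filter (fun l => Odd l)).card := by exact_mod_cast h3
    have e : 1 / 2 * (1 - 1 / (p : ℝ)) * y = y / 2 - y / p / 2 := by ring
    rw [e]
    rw [abs_le] at h5 h6 ⊢
    constructor <;> linarith [h5.1, h5.2, h6.1, h6.2]

/-- the factor `p / (p + 1)` -/
noncomputable def wp (p : ℕ) : ℝ := if p = 2 then 1 else (p : ℝ) / (p + 1)

theorem cp_pos {p : ℕ} (hp : p.Prime) : 0 < cp p ∧ cp p ≤ 1 / 2 := by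
  unfold cp
  have hp2 : (2 : ℝ) ≤ p := by exact_mod_cast hp.two_le
  split_ifs
  · norm_num
  · have h1 : 1 / (p : ℝ) ≤ 1 / 2 := by
      apply div_le_div_of_nonneg_left <;> linarith
    have h2 : 0 < 1 / (p : ℝ) := by positivity
    constructor <;> linarith

theorem cp_muc {p : ℕ} (hp : p.Prime) :
    (cp p : ℂ) * LSeries (muc (2 * p)) 2 = ((4 / π ^ 2 * wp p : ℝ) : ℂ) := by
  have hne : NeZero (2 * p) := ⟨by have := hp.pos; omega⟩
  have h1 := muc_LSeries (2 * p) (s := 2) (by norm_num)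
  rw [riemannZeta_two] at h1
  have hpi : (π : ℂ) ≠ 0 := by exact_mod_cast Real.pi_ne_zero
  have hp0 : (p : ℂ) ≠ 0 := by exact_mod_cast hp.ne_zero
  unfold cp wp
  by_cases h2 : p = 2
  · rw [if_pos h2, if_pos h2]
    have h3 : (2 * p).primeFactors = {2} := by
      rw [h2]
      have : 2 * 2 = 2 ^ 2 := by norm_num
      rw [this, Nat.primeFactors_prime_pow two_ne_zero Nat.prime_two]
    rw [h3, Finset.prod_singleton] at h1
    have h4 : ((2 : ℕ) : ℂ) ^ (-(2 : ℂ)) = 1 / 4 := by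
      rw [Complex.cpow_neg]
      norm_num
    rw [h4] at h1
    set L := LSeries (muc (2 * p)) 2 with hL
    have h5 : L = 8 / (π : ℂ) ^ 2 := by
      field_simp at h1 ⊢
      linear_combination 1 / 3 * h1
    rw [h5]
    push_cast
    ring
  · rw [if_neg h2, if_neg h2]
    have h3 : (2 * p).primeFactors = {2, p} := by
      rw [Nat.primeFactors_mul two_ne_zero hp.ne_zero, Nat.Prime.primeFactors Nat.prime_two,
        Nat.Prime.primeFactors hp]
      rfl
    rw [h3, Finset.prod_pair (Ne.symm h2)] at h1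
    have h4 : ((2 : ℕ) : ℂ) ^ (-(2 : ℂ)) = 1 / 4 := by
      rw [Complex.cpow_neg]
      norm_num
    have h6 : ((p : ℕ) : ℂ) ^ (-(2 : ℂ)) = 1 / (p : ℂ) ^ 2 := by
      rw [Complex.cpow_neg, one_div]
      congr 1
      norm_cast
    rw [h4, h6] at h1
    set L := LSeries (muc (2 * p)) 2 with hL
    have hp1 : (p : ℂ) + 1 ≠ 0 := by
      have : ((p + 1 : ℕ) : ℂ) ≠ 0 := by exact_mod_cast (by omega : p + 1 ≠ 0)
      push_cast at this
      exact this
    have hpm : (p : ℂ) - 1 ≠ 0 := by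
      intro h0
      have h7 : (p : ℂ) = ((1 : ℕ) : ℂ) := by push_cast; linear_combination h0
      have h8 : p = 1 := by exact_mod_cast h7
      exact hp.one_lt.ne' h8
    have h5 : L * ((p : ℂ) - 1) = 8 * (p : ℂ) ^ 2 / ((π : ℂ) ^ 2 * ((p : ℂ) + 1)) := by
      field_simp at h1 ⊢
      linear_combination 1 / 3 * h1
    push_cast
    have h9 : (1 / 2 * (1 - 1 / (p : ℂ))) * L = (1 / (2 * (p : ℂ))) * (L * ((p : ℂ) - 1)) := by
      field_simp
    rw [h9, h5]
    field_simp
    norm_num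

theorem coprime_two_mul {p d : ℕ} (hp : p.Prime) : Nat.Coprime d (2 * p) ↔ Odd d ∧ ¬ p ∣ d := by
  rw [Nat.coprime_mul_iff_right, Nat.coprime_two_right]
  constructor
  · rintro ⟨h1, h2⟩
    exact ⟨h1, fun h => (hp.coprime_iff_not_dvd.1 h2.symm) h⟩
  · rintro ⟨h1, h2⟩
    exact ⟨h1, (hp.coprime_iff_not_dvd.2 h2).symm⟩

/-- the number of odd squarefree integers up to `X` prime to `p` -/
theorem sqf_cop_count {p : ℕ} (hp : p.Prime) {X : ℝ} (hX : 1 ≤ X) :
    ‖∑ n ∈ (Finset.Icc 1 ⌊X⌋₊).filter (fun n => Odd n ∧ Squarefree n), (if p ∣ n then 0 else 1 : ℂ) -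
      ((4 / π ^ 2 * wp p * X : ℝ) : ℂ)‖ ≤ 2 * √X := by
  have hX0 : 0 < X := by linarith
  set N := ⌊X⌋₊ with hN
  set D := ⌊√X⌋₊ with hD
  have hsX : 1 ≤ √X := by rw [Real.one_le_sqrt]; exact hX
  have hD1 : 1 ≤ D := Nat.le_floor (by simpa using hsX)
  have hDs : (D : ℝ) ≤ √X := Nat.floor_le (by positivity)
  have hDs2 : √X < D + 1 := Nat.lt_floor_add_one _
  have hD0 : (1 : ℝ) ≤ D := by exact_mod_cast hD1
  have hsq : √X ^ 2 = X := Real.sq_sqrt hX0.le
  have hDN : D ≤ N := by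
    apply Nat.floor_mono
    nlinarith
  -- step 1
  have h1 : ∑ n ∈ (Finset.Icc 1 N).filter (fun n => Odd n ∧ Squarefree n),
      (if p ∣ n then 0 else 1 : ℂ) = ∑ d ∈ Finset.Icc 1 D, muc (2 * p) d *
        ((((Finset.Icc 1 ⌊X / (d : ℝ) ^ 2⌋₊).filter (fun l => Odd l ∧ ¬ p ∣ l)).card : ℝ) : ℂ) := by
    rw [sqf_sum, Finset.sum_filter]
    rw [← Finset.sum_subset (s₁ := Finset.Icc 1 D) (s₂ := Finset.Icc 1 N)]
    · apply Finset.sum_congr rfl
      intro d hd
      rw [Finset.mem_Icc] at hd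
      have hfl : ⌊X / (d : ℝ) ^ 2⌋₊ = N / d ^ 2 := by
        have := Nat.floor_div_natCast X (d ^ 2)
        push_cast at this
        exact this
      unfold muc
      rw [hfl]
      by_cases ho : Odd d
      · rw [if_pos ho]
        by_cases hpd : p ∣ d
        · rw [if_neg (fun h => ((coprime_two_mul hp).1 h).2 hpd), zero_mul]
          apply mul_eq_zero_of_right
          apply Finset.sum_eq_zero
          intro l _
          rw [if_pos ((hpd.trans (dvd_pow_self d two_ne_zero)).mul_right l)]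
        · rw [if_pos ((coprime_two_mul hp).2 ⟨ho, hpd⟩)]
          congr 1
          rw [Finset.card_filter]
          push_cast
          rw [Finset.sum_filter]
          apply Finset.sum_congr rfl
          intro l _
          have h2 : p ∣ d ^ 2 * l ↔ p ∣ l := by
            rw [hp.dvd_mul]
            constructor
            · rintro (h | h)
              · exact absurd (hp.dvd_of_dvd_pow h) hpd
              · exact h
            · exact Or.inr
          by_cases hl : Odd l <;> by_cases hpl : p ∣ l <;> simp [hl, hpl, h2]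
      · rw [if_neg ho, if_neg (fun h => ho ((coprime_two_mul hp).1 h).1), zero_mul]
    · intro d hd
      rw [Finset.mem_Icc] at hd ⊢
      omega
    · intro d hd hd2
      rw [Finset.mem_Icc] at hd hd2
      have h3 : D < d := by omega
      have h4 : N / d ^ 2 = 0 := by
        rw [Nat.div_eq_zero_iff]
        right
        rw [hN, Nat.floor_lt hX0.le]
        have h5 : √X < d := (Nat.floor_lt (by positivity)).1 h3
        push_cast
        nlinarith
      rw [h4]
      simp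
  rw [h1]
  -- step 2
  have h2 := lseries_tail (f := muc (2 * p)) (muc_norm (2 * p)) (s := 2) (by norm_num) hD1
  have h3 : ((2 : ℂ)).re = 2 := by norm_num
  rw [h3] at h2
  have h4 : (D : ℝ) ^ ((1 : ℝ) - 2) / (2 - 1) = 1 / D := by
    norm_num
    rw [Real.rpow_neg_one]
  rw [h4] at h2
  have h5 : ‖∑ d ∈ Finset.Icc 1 D, muc (2 * p) d *
        ((((Finset.Icc 1 ⌊X / (d : ℝ) ^ 2⌋₊).filter (fun l => Odd l ∧ ¬ p ∣ l)).card : ℝ) : ℂ) -
      ((cp p * X : ℝ) : ℂ) * ∑ d ∈ Finset.Icc 1 D, muc (2 * p) d * (d : ℂ) ^ (-(2 : ℂ))‖ ≤ √X := by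
    rw [Finset.mul_sum, ← Finset.sum_sub_distrib]
    refine (norm_sum_le_of_le (n := fun _ => (1 : ℝ)) _ ?_).trans ?_
    · intro d hd
      rw [Finset.mem_Icc] at hd
      have hd0 : (0 : ℝ) < d := by exact_mod_cast hd.1
      have hdc : (d : ℂ) ≠ 0 := by exact_mod_cast hd0.ne'
      have h6 := card_cop hp (y := X / (d : ℝ) ^ 2) (by positivity)
      have h7 : muc (2 * p) d * ((((Finset.Icc 1 ⌊X / (d : ℝ) ^ 2⌋₊).filter
          (fun l => Odd l ∧ ¬ p ∣ l)).card : ℝ) : ℂ) -
          ((cp p * X : ℝ) : ℂ) * (muc (2 * p) d * (d : ℂ) ^ (-(2 : ℂ))) =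
          muc (2 * p) d * (((((Finset.Icc 1 ⌊X / (d : ℝ) ^ 2⌋₊).filter
          (fun l => Odd l ∧ ¬ p ∣ l)).card : ℝ) - cp p * (X / (d : ℝ) ^ 2) : ℝ) : ℂ) := by
        have h8 : (d : ℂ) ^ (-(2 : ℂ)) = ((1 / (d : ℝ) ^ 2 : ℝ) : ℂ) := by
          rw [Complex.cpow_neg]
          push_cast
          rw [one_div]
          congr 1
          norm_cast
        rw [h8]
        push_cast
        ring
      rw [h7, norm_mul, norm_real, Real.norm_eq_abs]
      have := muc_norm (2 * p) d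
      calc _ ≤ 1 * 1 := mul_le_mul this h6 (abs_nonneg _) (by norm_num)
        _ = 1 := by norm_num
    · rw [Finset.sum_const, Nat.card_Icc, nsmul_eq_mul, mul_one]
      have : D + 1 - 1 = D := by omega
      rw [this]
      exact hDs
  have h6 : ((cp p * X : ℝ) : ℂ) * LSeries (muc (2 * p)) 2 = ((4 / π ^ 2 * wp p * X : ℝ) : ℂ) := by
    have := cp_muc hp
    push_cast at this ⊢
    linear_combination (X : ℂ) * this
  rw [← h6]
  obtain ⟨hc1, hc2⟩ := cp_pos hp
  have h7 : ‖((cp p * X : ℝ) : ℂ) * (LSeries (muc (2 * p)) 2 -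
      ∑ d ∈ Finset.Icc 1 D, muc (2 * p) d * (d : ℂ) ^ (-(2 : ℂ)))‖ ≤ √X := by
    rw [norm_mul, norm_real, Real.norm_of_nonneg (by positivity)]
    calc cp p * X * _ ≤ (1 / 2 * X) * (1 / D) := by gcongr
      _ ≤ √X := by
        rw [mul_one_div, div_le_iff₀ (by linarith)]
        nlinarith
  calc _ = ‖(∑ d ∈ Finset.Icc 1 D, muc (2 * p) d *
        ((((Finset.Icc 1 ⌊X / (d : ℝ) ^ 2⌋₊).filter (fun l => Odd l ∧ ¬ p ∣ l)).card : ℝ) : ℂ) -
      ((cp p * X : ℝ) : ℂ) * ∑ d ∈ Finset.Icc 1 D, muc (2 * p) d * (d : ℂ) ^ (-(2 : ℂ))) -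
      ((cp p * X : ℝ) : ℂ) * (LSeries (muc (2 * p)) 2 -
      ∑ d ∈ Finset.Icc 1 D, muc (2 * p) d * (d : ℂ) ^ (-(2 : ℂ)))‖ := by
        congr 1; ring
    _ ≤ _ := norm_sub_le _ _
    _ ≤ 2 * √X := by linarith

end Pool.Agent.Helper368_LD
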