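import Pool.Agent.Helper368_LD.BlockA
import Pool.Agent.Helper368_LD.Count

/-!
# The block lemma
-/

set_option autoImplicit false

namespace Pool.Agent.Helper368_LD

open MeasureTheory Set Complex
open scoped Real ArithmeticFunction.vonMangoldt

theorem sum_lp_block {Q : ℝ} (hQ : 0 < Q) : ∑ p ∈ Finset.Ioc ⌊Q⌋₊ ⌊2 * Q⌋₊, lp p ≤ 12 * Q := by
  have h1 : ∑ p ∈ Finset.Ioc ⌊Q⌋₊ ⌊2 * Q⌋₊, lp p ≤ Chebyshev.psi (2 * Q) := by
    unfold Chebyshev.psi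
    calc _ ≤ ∑ p ∈ Finset.Ioc ⌊Q⌋₊ ⌊2 * Q⌋₊, Λ p := Finset.sum_le_sum fun p _ => lp_le_vM p
      _ ≤ _ := Finset.sum_le_sum_of_subset_of_nonneg (Finset.Ioc_subset_Ioc_left (Nat.zero_le _))
          (fun _ _ _ => ArithmeticFunction.vonMangoldt_nonneg)
  have h2 := Chebyshev.psi_le_const_mul_self (x := 2 * Q) (by linarith)
  have h3 : Real.log 4 ≤ 2 := by
    have : Real.log 4 = 2 * Real.log 2 := by
      rw [show (4 : ℝ) = 2 ^ 2 by norm_num, Real.log_pow]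
      push_cast
      ring
    rw [this]
    have := Real.log_two_lt_d9
    linarith
  nlinarith

theorem mem_block {Q : ℝ} (hQ : 0 < Q) {p : ℕ} (hp : p ∈ Finset.Ioc ⌊Q⌋₊ ⌊2 * Q⌋₊) :
    0 < p ∧ Q ≤ p ∧ (p : ℝ) ≤ 2 * Q := by
  rw [Finset.mem_Ioc] at hp
  refine ⟨by omega, ?_, ?_⟩
  · exact (Nat.lt_of_floor_lt hp.1).le
  · exact (Nat.le_floor_iff (by linarith)).1 hp.2

theorem xi_part {r : ℂ} {Q x H E : ℝ} {J : ℕ} (hJ : 1 ≤ J) (h : PSide Q r.im E (J ^ 2))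
    (hQ : 0 < Q) (hx : 0 ≤ x) (hH : 0 ≤ H) (hr : 0 ≤ r.re) (hr1 : r.re ≤ 1) :
    ‖∑ p ∈ Finset.Ioc ⌊Q⌋₊ ⌊2 * Q⌋₊, ap r p * (DDp x H p : ℂ) -
      ∑ k ∈ Finset.Icc 1 (J ^ 2), mk r Q x H k‖ ≤
      8 / π * E * (x + 2 * H) * Q ^ (-r.re) * (1 + Real.log ((J ^ 2 : ℕ) : ℝ)) +
        40 * (Q ^ 2 * Q ^ (-r.re)) / ((J ^ 2 : ℕ) : ℝ) := by
  have hpi := Real.pi_pos
  have hJ2 : 1 ≤ J ^ 2 := Nat.one_le_pow _ _ hJ
  have hJ2' : (0 : ℝ) < ((J ^ 2 : ℕ) : ℝ) := by exact_mod_cast hJ2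
  set K := J ^ 2 with hK
  have hE0 : 0 ≤ E := (norm_nonneg _).trans
    (h.neg 1 (Finset.mem_Icc.2 ⟨le_rfl, hJ2⟩) Q ⟨le_rfl, by linarith⟩)
  have hQs : 0 < Q ^ (-r.re) := Real.rpow_pos_of_pos hQ _
  have h1 : ∑ p ∈ Finset.Ioc ⌊Q⌋₊ ⌊2 * Q⌋₊, ap r p * (DDp x H p : ℂ) -
      ∑ k ∈ Finset.Icc 1 K, mk r Q x H k =
      ∑ p ∈ Finset.Ioc ⌊Q⌋₊ ⌊2 * Q⌋₊, ap r p * ((DDp x H p - ∑ k ∈ Finset.Icc 1 K, Tkp x H k p : ℝ) : ℂ) +
      ∑ k ∈ Finset.Icc 1 K, (∑ p ∈ Finset.Ioc ⌊Q⌋₊ ⌊2 * Q⌋₊, ap r p * (Tkp x H k p : ℂ) - mk r Q x H k) := by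
    rw [Finset.sum_sub_distrib, Finset.sum_comm (s := Finset.Icc 1 K)]
    rw [add_sub_assoc', ← Finset.sum_add_distrib]
    congr 1
    apply Finset.sum_congr rfl
    intro p _
    rw [← Finset.mul_sum]
    push_cast
    ring
  rw [h1, add_comm]
  refine (norm_add_le _ _).trans (add_le_add ?_ ?_)
  · refine (norm_sum_le_of_le _ (fun k hk => freq_bound h hk hQ hx hH hr hr1)).trans ?_
    rw [← Finset.mul_sum]
    apply mul_le_mul_of_nonneg_left (sum_inv_le K) (by positivity)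
  · have hterm : ∀ p ∈ Finset.Ioc ⌊Q⌋₊ ⌊2 * Q⌋₊,
        ‖ap r p * ((DDp x H p - ∑ k ∈ Finset.Icc 1 K, Tkp x H k p : ℝ) : ℂ)‖ ≤
        lp p * (2 * Q * Q ^ (-r.re) * (16 / π ^ 2 / K)) := by
      intro p hp
      obtain ⟨hp0, hpQ, hp2Q⟩ := mem_block hQ hp
      have hp0' : (0 : ℝ) < p := by exact_mod_cast hp0
      by_cases hpp : p.Prime ∧ p ≠ 2
      · have h2 := DDp_trunc hpp.1 hpp.2 hx hH (K := K) hJ2
        rw [norm_mul, ap_norm r hp0, norm_real, Real.norm_eq_abs]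
        have h3 : (p : ℝ) ^ (-(1 / 2 + r.re)) * (p * √(p : ℝ)) = p * (p : ℝ) ^ (-r.re) := by
          rw [Real.sqrt_eq_rpow]
          have e4 : (p : ℝ) ^ (-r.re) = (p : ℝ) ^ (-(1 / 2 + r.re)) * (p : ℝ) ^ (1 / 2 : ℝ) := by
            rw [← Real.rpow_add hp0']
            congr 1
            ring
          rw [e4]
          ring
        have h4 : (p : ℝ) ^ (-r.re) ≤ Q ^ (-r.re) :=
          Real.rpow_le_rpow_of_nonpos hQ hpQ (by linarith)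
        have h5 : 0 ≤ (p : ℝ) ^ (-r.re) := Real.rpow_nonneg hp0'.le _
        have h6 : 0 ≤ (p : ℝ) ^ (-(1 / 2 + r.re)) := Real.rpow_nonneg hp0'.le _
        have h7 := lp_nonneg p
        calc _ ≤ lp p * (p : ℝ) ^ (-(1 / 2 + r.re)) * (16 * ((p : ℝ) * √(p : ℝ)) / π ^ 2 / K) := by
              gcongr
          _ = lp p * (((p : ℝ) ^ (-(1 / 2 + r.re)) * (p * √(p : ℝ))) * (16 / π ^ 2 / K)) := by ring
          _ = lp p * ((p * (p : ℝ) ^ (-r.re)) * (16 / π ^ 2 / K)) := by rw [h3]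
          _ ≤ _ := by gcongr
      · have h0 : lp p = 0 := by
          unfold lp
          rw [if_neg hpp]
        unfold ap
        rw [h0]
        simp
    refine (norm_sum_le_of_le _ hterm).trans ?_
    rw [← Finset.sum_mul]
    have h8 := sum_lp_block hQ
    calc _ ≤ 12 * Q * (2 * Q * Q ^ (-r.re) * (16 / π ^ 2 / K)) := by gcongr
      _ = 384 / π ^ 2 * (Q ^ 2 * Q ^ (-r.re)) / K := by ring
      _ ≤ 40 * (Q ^ 2 * Q ^ (-r.re)) / K := by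
          have : 384 / π ^ 2 ≤ 40 := by
            rw [div_le_iff₀ (by positivity)]
            have := Real.pi_gt_d2
            nlinarith
          gcongr

/-- the odd squares -/
noncomputable def osq (l : ℕ) : ℝ := if IsSquare l ∧ Odd l then 1 else 0

/-- the squares divisible by `p` -/
noncomputable def psq (p l : ℕ) : ℝ := if IsSquare l ∧ Odd l ∧ p ∣ l then 1 else 0

/-- the nonsquares -/
noncomputable def fnp (p l : ℕ) : ℝ := if IsSquare l then 0 else (kro p l : ℝ)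

theorem fnp_eq {p : ℕ} (hp : p.Prime) (l : ℕ) : fnp p l = (kro p l : ℝ) - osq l + psq p l := by
  unfold fnp osq psq kro
  by_cases hs : IsSquare l
  · by_cases ho : Odd l
    · obtain ⟨j, hj⟩ := hs
      have hj0 : NeZero j := ⟨by rintro rfl; rw [hj] at ho; exact absurd ho (by decide)⟩
      rw [if_pos ⟨j, hj⟩, if_pos ho, if_pos ⟨⟨j, hj⟩, ho⟩]
      have e1 : jacobiSym (p : ℤ) l = jacobiSym (p : ℤ) j ^ 2 := by
        rw [hj, jacobiSym.mul_right, sq]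
      by_cases hd : p ∣ l
      · rw [if_pos ⟨⟨j, hj⟩, ho, hd⟩]
        have h2 : p ∣ j := by
          rw [hj] at hd
          rcases (Nat.Prime.dvd_mul hp).1 hd with h | h <;> exact h
        have e2 : jacobiSym (p : ℤ) j = 0 := by
          rw [jacobiSym.eq_zero_iff_not_coprime, Int.gcd_natCast_natCast]
          intro h3
          have h4 := Nat.Coprime.eq_one_of_dvd h3 h2
          exact hp.one_lt.ne' h4
        rw [e1, e2]
        simp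
      · rw [if_neg (fun h => hd h.2.2)]
        have h2 : ¬ p ∣ j := fun h => hd (by rw [hj]; exact dvd_mul_of_dvd_left h j)
        have e2 : jacobiSym (p : ℤ) j ^ 2 = 1 := by
          apply jacobiSym.sq_one
          rw [Int.gcd_natCast_natCast]
          exact (Nat.Prime.coprime_iff_not_dvd hp).2 h2
        rw [e1, e2]
        simp
    · rw [if_pos hs, if_neg ho, if_neg (fun h => ho h.2), if_neg (fun h => ho h.2.1)]
      simp
  · simp [hs]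

theorem FS_lin (f g h : ℕ → ℝ) (x : ℝ) :
    FS (fun l => f l - g l + h l) x = FS f x - FS g x + FS h x := by
  unfold FS
  rw [← Finset.sum_sub_distrib, ← Finset.sum_add_distrib]
  apply Finset.sum_congr rfl
  intro l _
  ring

theorem FS_diff_nonneg {g : ℕ → ℝ} (hg : ∀ l, 0 ≤ g l) {x H : ℝ} (hx : 0 ≤ x) (hH : 0 ≤ H) :
    0 ≤ FS g (x + H) - FS g x ∧ FS g (x + H) - FS g x ≤ H * ∑ l ∈ Finset.Icc 1 ⌊x + H⌋₊, g l := by
  rw [FS_diff g hH]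
  have h1 : ⌊x⌋₊ ≤ ⌊x + H⌋₊ := Nat.floor_mono (by linarith)
  have h2 : Finset.Icc 1 ⌊x + H⌋₊ = Finset.Icc 1 ⌊x⌋₊ ∪ Finset.Ioc ⌊x⌋₊ ⌊x + H⌋₊ := by
    ext k
    simp only [Finset.mem_union, Finset.mem_Icc, Finset.mem_Ioc]
    omega
  have h3 : Disjoint (Finset.Icc 1 ⌊x⌋₊) (Finset.Ioc ⌊x⌋₊ ⌊x + H⌋₊) := by
    rw [Finset.disjoint_left]
    intro k hk
    simp only [Finset.mem_Icc, Finset.mem_Ioc] at hk ⊢
    omega
  have h4 : ∀ l ∈ Finset.Ioc ⌊x⌋₊ ⌊x + H⌋₊, 0 ≤ g l * (x + H - l) ∧ g l * (x + H - l) ≤ H * g l := by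
    intro l hl
    rw [Finset.mem_Ioc] at hl
    have h5 : x < l := Nat.lt_of_floor_lt hl.1
    have h6 : (l : ℝ) ≤ x + H := (Nat.le_floor_iff (by linarith)).1 hl.2
    have h7 := hg l
    constructor
    · exact mul_nonneg h7 (by linarith)
    · rw [mul_comm H]
      exact mul_le_mul_of_nonneg_left (by linarith) h7
  constructor
  · apply add_nonneg
    · exact mul_nonneg hH (Finset.sum_nonneg fun l _ => hg l)
    · exact Finset.sum_nonneg fun l hl => (h4 l hl).1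
  · rw [h2, Finset.sum_union h3, mul_add, Finset.mul_sum (s := Finset.Ioc _ _)]
    have := Finset.sum_le_sum fun l hl => (h4 l hl).2
    linarith

theorem psq_sum {p : ℕ} (hp : p.Prime) {y : ℝ} (hy : 0 ≤ y) :
    ∑ l ∈ Finset.Icc 1 ⌊y⌋₊, psq p l ≤ √y / p := by
  have hp0 : (0 : ℝ) < p := by exact_mod_cast hp.pos
  unfold psq
  rw [← Finset.sum_filter, Finset.sum_const, nsmul_eq_mul, mul_one]
  have hsub : (Finset.Icc 1 ⌊y⌋₊).filter (fun l => IsSquare l ∧ Odd l ∧ p ∣ l) ⊆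
      (Finset.Icc 1 ⌊√y / p⌋₊).image (fun i => (p * i) ^ 2) := by
    intro l hl
    rw [Finset.mem_filter, Finset.mem_Icc] at hl
    obtain ⟨⟨hl1, hl2⟩, ⟨j, hj⟩, _, hd⟩ := hl
    have h2 : p ∣ j := by
      rw [hj] at hd
      rcases (Nat.Prime.dvd_mul hp).1 hd with h | h <;> exact h
    obtain ⟨i, hi⟩ := h2
    rw [Finset.mem_image]
    refine ⟨i, ?_, by rw [hj, hi]; ring⟩
    rw [Finset.mem_Icc]
    constructor
    · rcases Nat.eq_zero_or_pos i with h | h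
      · rw [hj, hi, h] at hl1
        omega
      · exact h
    · apply Nat.le_floor
      rw [le_div_iff₀ hp0]
      apply Real.le_sqrt_of_sq_le
      have h3 : (l : ℝ) ≤ y := (Nat.le_floor_iff hy).1 hl2
      have h4 : ((i : ℝ) * p) ^ 2 = l := by
        rw [hj, hi]
        push_cast
        ring
      linarith
  have h1 := Finset.card_le_card hsub
  have h2 := h1.trans Finset.card_image_le
  rw [Nat.card_Icc, Nat.add_sub_cancel] at h2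
  have h3 : (⌊√y / p⌋₊ : ℝ) ≤ √y / p := Nat.floor_le (by positivity)
  exact (by exact_mod_cast h2 : (((Finset.Icc 1 ⌊y⌋₊).filter
    (fun l => IsSquare l ∧ Odd l ∧ p ∣ l)).card : ℝ) ≤ ⌊√y / p⌋₊).trans h3

theorem osq_sum_eq {y : ℝ} (hy : 0 ≤ y) : ∑ l ∈ Finset.Icc 1 ⌊y⌋₊, osq l =
    (((Finset.Icc 1 ⌊√y⌋₊).filter (fun j => Odd j)).card : ℝ) := by
  unfold osq
  rw [← Finset.sum_filter, Finset.sum_const, nsmul_eq_mul, mul_one]
  congr 1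
  symm
  apply Finset.card_nbij (fun j => j ^ 2)
  · intro j hj
    rw [Finset.coe_filter, Set.mem_ofPred_eq, Finset.mem_Icc] at hj
    rw [Finset.coe_filter, Set.mem_ofPred_eq, Finset.mem_Icc]
    refine ⟨⟨Nat.one_le_pow _ _ hj.1.1, ?_⟩, ⟨j, sq j⟩, hj.2.pow⟩
    apply Nat.le_floor
    have h1 : (j : ℝ) ≤ √y := (Nat.le_floor_iff (Real.sqrt_nonneg y)).1 hj.1.2
    have h2 := Real.sq_sqrt hy
    push_cast
    have h3 : (0 : ℝ) ≤ j := Nat.cast_nonneg j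
    nlinarith
  · intro a _ b _ hab
    exact Nat.pow_left_injective (by norm_num) hab
  · intro l hl
    rw [Finset.coe_filter, Set.mem_ofPred_eq, Finset.mem_Icc] at hl
    obtain ⟨⟨hl1, hl2⟩, ⟨j, hj⟩, ho⟩ := hl
    refine ⟨j, ?_, by simp only; rw [hj]; ring⟩
    rw [Finset.coe_filter, Set.mem_ofPred_eq, Finset.mem_Icc]
    refine ⟨⟨?_, ?_⟩, ?_⟩
    · rcases Nat.eq_zero_or_pos j with h | h
      · rw [hj, h] at hl1; omega
      · exact h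
    · apply Nat.le_floor
      apply Real.le_sqrt_of_sq_le
      have h3 : (l : ℝ) ≤ y := (Nat.le_floor_iff hy).1 hl2
      rw [hj] at h3
      push_cast at h3
      linarith
    · rw [hj] at ho
      exact Nat.Odd.of_mul_left ho

theorem osq_bound {y : ℝ} (hy : 0 ≤ y) : |∑ l ∈ Finset.Icc 1 ⌊y⌋₊, osq l - √y / 2| ≤ 1 / 2 := by
  rw [osq_sum_eq hy]
  exact card_odd_bound (Real.sqrt_nonneg y)

theorem osq_le {y : ℝ} (hy : 0 ≤ y) : ∑ l ∈ Finset.Icc 1 ⌊y⌋₊, osq l ≤ √y := by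
  rw [osq_sum_eq hy]
  have h1 : ((Finset.Icc 1 ⌊√y⌋₊).filter (fun j => Odd j)).card ≤ ⌊√y⌋₊ := by
    have := Finset.card_filter_le (Finset.Icc 1 ⌊√y⌋₊) (fun j => Odd j)
    simpa using this
  exact (by exact_mod_cast h1 : (((Finset.Icc 1 ⌊√y⌋₊).filter (fun j => Odd j)).card : ℝ) ≤
    ⌊√y⌋₊).trans (Nat.floor_le (Real.sqrt_nonneg y))

theorem osq_nonneg (l : ℕ) : 0 ≤ osq l := by
  unfold osq
  split_ifs <;> norm_num

theorem psq_nonneg (p l : ℕ) : 0 ≤ psq p l := by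
  unfold psq
  split_ifs <;> norm_num

theorem osq_int {x H : ℝ} (hx : 0 ≤ x) (hH : 0 ≤ H) :
    |FS osq (x + H) - FS osq x - ((x + H) ^ (3 / 2 : ℝ) - x ^ (3 / 2 : ℝ)) / 3| ≤ H := by
  have hmono : MonotoneOn (fun t : ℝ => ∑ l ∈ Finset.Icc 1 ⌊t⌋₊, osq l) univ := by
    intro a _ b _ hab
    apply Finset.sum_le_sum_of_subset_of_nonneg
    · exact Finset.Icc_subset_Icc_right (Nat.floor_mono hab)
    · intro l _ _
      exact osq_nonneg l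
  have hi : ∀ a b : ℝ, IntervalIntegrable (fun t : ℝ => ∑ l ∈ Finset.Icc 1 ⌊t⌋₊, osq l) volume a b :=
    fun a b => (hmono.mono (subset_univ _)).intervalIntegrable
  rw [FS_integral osq (by linarith), FS_integral osq hx,
    intervalIntegral.integral_interval_sub_left (hi _ _) (hi _ _)]
  have h1 : ((x + H) ^ (3 / 2 : ℝ) - x ^ (3 / 2 : ℝ)) / 3 = ∫ t in x..(x + H), √t / 2 := by
    have e3 : ∀ y : ℝ, √y / 2 = (1 / 2) * y ^ (1 / 2 : ℝ) := by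
      intro y
      rw [Real.sqrt_eq_rpow]
      ring
    simp_rw [e3]
    rw [intervalIntegral.integral_const_mul, integral_rpow (Or.inl (by norm_num))]
    norm_num
    ring
  have h2 : IntervalIntegrable (fun t : ℝ => √t / 2) volume x (x + H) := by
    apply Continuous.intervalIntegrable
    fun_prop
  rw [h1, ← intervalIntegral.integral_sub (hi _ _) h2, ← Real.norm_eq_abs]
  have h3 : ‖∫ t in x..(x + H), (∑ l ∈ Finset.Icc 1 ⌊t⌋₊, osq l - √t / 2)‖ ≤ 1 * |x + H - x| := by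
    apply intervalIntegral.norm_integral_le_of_norm_le_const
    intro t ht
    rw [uIoc_of_le (by linarith)] at ht
    rw [Real.norm_eq_abs]
    have := osq_bound (y := t) (by linarith [ht.1])
    linarith
  rwa [add_sub_cancel_left, abs_of_nonneg hH, one_mul] at h3

theorem ap_sum {r : ℂ} {Q E : ℝ} {K : ℕ} (hK : 1 ≤ K) (h : PSide Q r.im E K) (hQ : 0 < Q)
    (hr : 0 ≤ r.re) :
    ‖∑ p ∈ Finset.Ioc ⌊Q⌋₊ ⌊2 * Q⌋₊, ap r p - ∫ u in Q..(2 * Q), (u : ℂ) ^ (-(1 / 2 + r))‖ ≤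
      E * Q ^ (-(1 / 2 + r.re)) := by
  have h1K : 1 ∈ Finset.Icc 1 K := Finset.mem_Icc.2 ⟨le_rfl, hK⟩
  have hE0 : 0 ≤ E := (norm_nonneg _).trans (h.neg 1 h1K Q ⟨le_rfl, by linarith⟩)
  have hwd : ∀ y ∈ Icc Q (2 * Q), HasDerivAt (fun y : ℝ => ((y ^ (-(1 / 2 + r.re)) : ℝ) : ℂ))
      ((-(1 / 2 + r.re) * y ^ (-(1 / 2 + r.re) - 1) : ℝ) : ℂ) y := fun y hy =>
    (Real.hasDerivAt_rpow_const (Or.inl (lt_of_lt_of_le hQ hy.1).ne')).ofReal_comp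
  have hwc : ContinuousOn (fun y : ℝ => ((-(1 / 2 + r.re) * y ^ (-(1 / 2 + r.re) - 1) : ℝ) : ℂ))
      (Icc Q (2 * Q)) := by
    apply Complex.continuous_ofReal.comp_continuousOn
    apply continuousOn_const.mul
    intro u hu
    exact (Real.continuousAt_rpow_const _ _ (Or.inl (lt_of_lt_of_le hQ hu.1).ne')).continuousWithinAt
  have h1 := abel_cmp hQ.le (by linarith) hwd hwc (vk_cont r.im 1 hQ) (h.pos 1 h1K)
  have h2 := pw_total (σ := r.re) hQ hr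
  refine le_trans (le_of_eq ?_) (h1.trans (mul_le_mul_of_nonneg_left h2 hE0))
  congr 1
  congr 1
  · apply Finset.sum_congr rfl
    intro p hp
    rw [ap_eq r (mem_block hQ hp).1, Nat.cast_one, jacobiSym.one_left]
    push_cast
    ring
  · apply intervalIntegral.integral_congr
    intro u hu
    rw [uIcc_of_le (by linarith)] at hu
    simp only
    rw [cpow_split (lt_of_lt_of_le hQ hu.1)]
    unfold vk
    rw [if_pos (by decide)]

/-- the averaged sum -/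
noncomputable def AWH (r : ℂ) (Q x H : ℝ) : ℂ := ∑ p ∈ Finset.Ioc ⌊Q⌋₊ ⌊2 * Q⌋₊,
  ap r p * ((FS (fnp p) (x + H) - FS (fnp p) x : ℝ) : ℂ)

theorem norm_ap_sum_le {r : ℂ} {Q B : ℝ} (hQ : 0 < Q) (hr : 0 ≤ r.re) (hB : 0 ≤ B) {f : ℕ → ℂ}
    (hf : ∀ p ∈ Finset.Ioc ⌊Q⌋₊ ⌊2 * Q⌋₊, p.Prime → p ≠ 2 → ‖f p‖ ≤ B) :
    ‖∑ p ∈ Finset.Ioc ⌊Q⌋₊ ⌊2 * Q⌋₊, ap r p * f p‖ ≤ 12 * Q * (Q ^ (-(1 / 2 + r.re)) * B) := by
  have hterm : ∀ p ∈ Finset.Ioc ⌊Q⌋₊ ⌊2 * Q⌋₊, ‖ap r p * f p‖ ≤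
      lp p * (Q ^ (-(1 / 2 + r.re)) * B) := by
    intro p hp
    obtain ⟨hp0, hpQ, hp2Q⟩ := mem_block hQ hp
    by_cases hpp : p.Prime ∧ p ≠ 2
    · rw [norm_mul, ap_norm r hp0]
      have h4 : (p : ℝ) ^ (-(1 / 2 + r.re)) ≤ Q ^ (-(1 / 2 + r.re)) :=
        Real.rpow_le_rpow_of_nonpos hQ hpQ (by linarith)
      have h6 : 0 ≤ (p : ℝ) ^ (-(1 / 2 + r.re)) := Real.rpow_nonneg (Nat.cast_nonneg p) _
      have h7 := lp_nonneg p
      have h8 := hf p hp hpp.1 hpp.2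
      rw [mul_assoc]
      gcongr
    · have h0 : lp p = 0 := by
        unfold lp
        rw [if_neg hpp]
      unfold ap
      rw [h0]
      simp
  refine (norm_sum_le_of_le _ hterm).trans ?_
  rw [← Finset.sum_mul]
  apply mul_le_mul_of_nonneg_right (sum_lp_block hQ)
  positivity

/-- **The block lemma.** -/
theorem block_lemma {r : ℂ} {Q x H E : ℝ} {J : ℕ} (hJ : 1 ≤ J) (h : PSide Q r.im E (J ^ 2))
    (hQ : 0 < Q) (hx : 0 ≤ x) (hH : 0 ≤ H) (hr : 0 ≤ r.re) (hr1 : r.re ≤ 1) :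
    ‖AWH r Q x H - ∫ y in x..(x + H), MJ J r Q y‖ ≤
      8 / π * E * (x + 2 * H) * Q ^ (-r.re) * (1 + Real.log ((J ^ 2 : ℕ) : ℝ)) +
        40 * (Q ^ 2 * Q ^ (-r.re)) / ((J ^ 2 : ℕ) : ℝ) +
        H * √(x + H) * (E + 12) * Q ^ (-(1 / 2 + r.re)) + H * Q ^ (1 / 2 - r.re) := by
  have hJ2 : 1 ≤ J ^ 2 := Nat.one_le_pow _ _ hJ
  have h1 := xi_part hJ h hQ hx hH hr hr1
  have h2 := ap_sum hJ2 h hQ hr
  have hE0 : 0 ≤ E := (norm_nonneg _).trans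
    (h.neg 1 (Finset.mem_Icc.2 ⟨le_rfl, hJ2⟩) Q ⟨le_rfl, by linarith⟩)
  set C1 : ℝ := ((x + H) ^ (3 / 2 : ℝ) - x ^ (3 / 2 : ℝ)) / 3 with hC1
  set I1 : ℂ := ∫ u in Q..(2 * Q), (u : ℂ) ^ (-(1 / 2 + r)) with hI1
  set Ds : ℝ := FS osq (x + H) - FS osq x with hDs
  have hDs1 := FS_diff_nonneg osq_nonneg hx hH
  rw [← hDs] at hDs1
  have hDs2 : Ds ≤ H * √(x + H) := hDs1.2.trans (mul_le_mul_of_nonneg_left (osq_le (by linarith)) hH)
  have hDs3 : |Ds - C1| ≤ H := osq_int hx hH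
  have hI2 : ‖I1‖ ≤ Q ^ (1 / 2 - r.re) := by
    have := int_bound (r := r) (σ := r.re) (B := 1) rfl hQ hr zero_le_one (f := fun _ => 1)
      (fun u _ => by simp)
    simp only [mul_one, one_mul] at this
    exact this
  have hdec : AWH r Q x H = ∑ p ∈ Finset.Ioc ⌊Q⌋₊ ⌊2 * Q⌋₊, ap r p * (DDp x H p : ℂ) -
      (Ds : ℂ) * ∑ p ∈ Finset.Ioc ⌊Q⌋₊ ⌊2 * Q⌋₊, ap r p +
      ∑ p ∈ Finset.Ioc ⌊Q⌋₊ ⌊2 * Q⌋₊, ap r p * ((FS (psq p) (x + H) - FS (psq p) x : ℝ) : ℂ) := by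
    unfold AWH
    rw [Finset.mul_sum, ← Finset.sum_sub_distrib, ← Finset.sum_add_distrib]
    apply Finset.sum_congr rfl
    intro p _
    by_cases hp : p.Prime
    · have e1 : fnp p = fun l => (kro p l : ℝ) - osq l + psq p l := funext fun l => fnp_eq hp l
      rw [e1, FS_lin, FS_lin]
      unfold DDp
      rw [hDs]
      push_cast
      ring
    · have h0 : ap r p = 0 := by
        unfold ap lp
        rw [if_neg (fun h => hp h.1)]
        simp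
      rw [h0]
      ring
  rw [hdec, int_MJ_eq J hQ hH]
  have h3 : ‖∑ p ∈ Finset.Ioc ⌊Q⌋₊ ⌊2 * Q⌋₊, ap r p * ((FS (psq p) (x + H) - FS (psq p) x : ℝ) : ℂ)‖ ≤
      12 * Q * (Q ^ (-(1 / 2 + r.re)) * (H * (√(x + H) / Q))) := by
    apply norm_ap_sum_le hQ hr (by positivity)
    intro p hp hpp _
    obtain ⟨hp0, hpQ, hp2Q⟩ := mem_block hQ hp
    have h4 := FS_diff_nonneg (psq_nonneg p) hx hH
    rw [norm_real, Real.norm_of_nonneg h4.1]
    refine h4.2.trans (mul_le_mul_of_nonneg_left ((psq_sum hpp (by linarith)).trans ?_) hH)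
    gcongr
  set Sd := ∑ p ∈ Finset.Ioc ⌊Q⌋₊ ⌊2 * Q⌋₊, ap r p * (DDp x H p : ℂ) with hSd
  set Sa := ∑ p ∈ Finset.Ioc ⌊Q⌋₊ ⌊2 * Q⌋₊, ap r p with hSa
  set Sp := ∑ p ∈ Finset.Ioc ⌊Q⌋₊ ⌊2 * Q⌋₊, ap r p * ((FS (psq p) (x + H) - FS (psq p) x : ℝ) : ℂ) with hSp
  set Sm := ∑ k ∈ Finset.Icc 1 (J ^ 2), mk r Q x H k with hSm
  have e2 : Sd - (Ds : ℂ) * Sa + Sp - (Sm - (C1 : ℂ) * I1) =
      (Sd - Sm) - (Ds : ℂ) * (Sa - I1) - ((Ds - C1 : ℝ) : ℂ) * I1 + Sp := by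
    push_cast
    ring
  rw [e2]
  have hQp : 0 < Q ^ (-(1 / 2 + r.re)) := Real.rpow_pos_of_pos hQ _
  have hQp2 : 0 < Q ^ (1 / 2 - r.re) := Real.rpow_pos_of_pos hQ _
  have h5 : ‖(Ds : ℂ) * (Sa - I1)‖ ≤ H * √(x + H) * (E * Q ^ (-(1 / 2 + r.re))) := by
    rw [norm_mul, norm_real, Real.norm_of_nonneg hDs1.1]
    gcongr
  have h6 : ‖((Ds - C1 : ℝ) : ℂ) * I1‖ ≤ H * Q ^ (1 / 2 - r.re) := by
    rw [norm_mul, norm_real, Real.norm_eq_abs]
    gcongr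
  have h7 : 12 * Q * (Q ^ (-(1 / 2 + r.re)) * (H * (√(x + H) / Q))) =
      12 * H * √(x + H) * Q ^ (-(1 / 2 + r.re)) := by
    field_simp
  rw [h7] at h3
  calc _ ≤ ‖Sd - Sm‖ + ‖(Ds : ℂ) * (Sa - I1)‖ + ‖((Ds - C1 : ℝ) : ℂ) * I1‖ + ‖Sp‖ := by
        refine (norm_add_le _ _).trans (add_le_add_left ?_ _)
        refine (norm_sub_le _ _).trans (add_le_add_left ?_ _)
        exact norm_sub_le _ _
    _ ≤ _ := by
        have := add_le_add (add_le_add (add_le_add h1 h5) h6) h3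
        refine this.trans (le_of_eq ?_)
        ring

end Pool.Agent.Helper368_LD
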