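import Pool.Agent.Helper368_LD.Unsmooth

/-!
# The block bound
-/

set_option autoImplicit false

namespace Pool.Agent.Helper368_LD

open MeasureTheory Set Complex
open scoped Real ArithmeticFunction.vonMangoldt
open Pool.Agent.H491R3.J

theorem MJ_WW_small (hG : GRHJ) {Θ : ℝ} (hR : RealHyp Θ) (hΘ : 1 / 2 ≤ Θ) (hΘ1 : Θ < 1) {B : ℕ}
    (hB : 8 / (1 - Θ) ≤ B) {Y : ℝ} (hY : 2 ≤ Y) {r : ℂ} (hr : 0 ≤ r.re) (hr1 : r.re ≤ 1 / 2)
    {Q x : ℝ} (hQ : 1 ≤ Q) (hx : 1 ≤ x) (hQx : Q ^ Θ ≤ x) (hQY : Q ≤ Y) (hxY : 2 * x ≤ Y) :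
    ‖MJ (JY B Y) r Q x - WW r Q x‖ ≤
      300 * DY B Y r.im * lY B Y * √(Q ^ Θ * x) * Q ^ (-r.re) := by
  obtain ⟨j1, j2, j3⟩ := JY_facts hY B
  have hD1 : 10 ^ 6 ≤ DY B Y r.im := DY_ge hY B r.im
  have hℓ1 : 7 ≤ lY B Y := lY_ge hY B
  have hY0 : 0 < Y := by linarith
  have hQ0 : 0 < Q := by linarith
  have hx0 : 0 < x := by linarith
  have hQT : 0 < Q ^ Θ := Real.rpow_pos_of_pos hQ0 _
  have hQT1 : 1 ≤ Q ^ Θ := Real.one_le_rpow hQ (by linarith)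
  set H := √(Q ^ Θ * x) with hH
  have hH2 : H ^ 2 = Q ^ Θ * x := Real.sq_sqrt (by positivity)
  have hH1 : 1 ≤ H := by
    rw [hH, Real.one_le_sqrt]
    exact one_le_mul_of_one_le_of_one_le hQT1 hx
  have hHx : H ≤ x := by
    rw [hH]
    apply Real.sqrt_le_iff.2
    exact ⟨hx0.le, by nlinarith⟩
  have hH0 : 0 < H := by linarith
  have hYB : Y ≤ Y ^ (B + 1) := by
    calc Y = Y ^ 1 := (pow_one Y).symm
      _ ≤ Y ^ (B + 1) := pow_le_pow_right₀ (by linarith) (by omega)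
  have hq2 : Q ≤ Y ^ (B + 1) := hQY.trans hYB
  have hYB2 : Y ≤ Y ^ (B + 2) := by
    calc Y = Y ^ 1 := (pow_one Y).symm
      _ ≤ Y ^ (B + 2) := pow_le_pow_right₀ (by linarith) (by omega)
  have hL0 : 0 ≤ Y ^ (B + 2) := by positivity
  have hN := Nb_le hY B r.im hQ hq2 hL0 le_rfl
  have hN0 : 0 ≤ Nb (Y ^ (B + 2)) r.im Q := Nb_nonneg hQ hL0
  have hE := Eb_le (Θ := Θ) hΘ1.le hY B r.im hQ hq2
  have hE0 : 0 ≤ Eb Θ (JY B Y ^ 2) r.im Q := Eb_nonneg hQ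
  set D := DY B Y r.im with hD
  set ℓ := lY B Y with hℓ
  set J := JY B Y with hJ
  set N := Nb (Y ^ (B + 2)) r.im Q with hNd
  set E := Eb Θ (J ^ 2) r.im Q with hEd
  have hD0 : 0 < D := by linarith
  have hB' : ∀ h ∈ Icc 0 H, ‖MJ J r Q (x + h) - MJ J r Q x‖ ≤ (200 * D * ℓ * H) * Q ^ (-r.re) := by
    intro h hh
    have h1 := MJ_lip hG hR hΘ hΘ1 hB hY hr hr1 hQ hQY hx0.le hh.1 (by linarith [hh.2] : x + h ≤ Y)
    rw [← hD, ← hℓ, ← hJ] at h1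
    refine h1.trans ?_
    apply mul_le_mul_of_nonneg_right _ (Real.rpow_nonneg hQ0.le _)
    have h2 : h + 1 ≤ 2 * H := by linarith [hh.2]
    calc (h + 1) * (100 * D * ℓ) ≤ 2 * H * (100 * D * ℓ) := by gcongr
      _ = _ := by ring
  have hps := pside hG hR hΘ hΘ1.le hQ r.im (J ^ 2)
  rw [← hEd] at hps
  have hmain := MJ_WW hG (L := Y ^ (B + 2)) j1 hps hQ hx0.le hH0 hr (by linarith)
    (by linarith : x + H ≤ Y ^ (B + 2)) hB'
  rw [← hNd] at hmain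
  refine hmain.trans ?_
  apply mul_le_mul_of_nonneg_right _ (Real.rpow_nonneg hQ0.le _)
  have hpi : 8 / π ≤ 3 := by
    rw [div_le_iff₀ Real.pi_pos]
    have := Real.pi_gt_three
    linarith
  have t2 : 8 / π * E * (x / H + 2) * (1 + Real.log ((J ^ 2 : ℕ) : ℝ)) ≤ 36 * D * ℓ * H := by
    have h1 : x / H + 2 ≤ 3 * (x / H) := by
      have : 1 ≤ x / H := by rw [le_div_iff₀ hH0]; linarith
      linarith
    have h2 : E * (x / H) ≤ 4 * D * H := by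
      calc E * (x / H) ≤ 4 * D * Q ^ Θ * (x / H) := by gcongr
        _ = 4 * D * (Q ^ Θ * x) / H := by ring
        _ = 4 * D * H := by rw [← hH2]; field_simp
    have h7 : 1 + Real.log ((J ^ 2 : ℕ) : ℝ) ≤ ℓ := log_J2 hY B
    have h9 : 0 ≤ 1 + Real.log ((J ^ 2 : ℕ) : ℝ) := by
      have : 0 ≤ Real.log ((J ^ 2 : ℕ) : ℝ) := Real.log_natCast_nonneg _
      linarith
    calc _ ≤ 8 / π * E * (3 * (x / H)) * (1 + Real.log ((J ^ 2 : ℕ) : ℝ)) := by gcongr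
      _ = 8 / π * (3 * (E * (x / H))) * (1 + Real.log ((J ^ 2 : ℕ) : ℝ)) := by ring
      _ ≤ 3 * (3 * (4 * D * H)) * ℓ := by gcongr
      _ = _ := by ring
  have t3 : 40 * Q ^ 2 / (H * ((J ^ 2 : ℕ) : ℝ)) ≤ 40 * H := by
    have h1 : Q ^ 2 ≤ ((J ^ 2 : ℕ) : ℝ) := by
      push_cast
      have := hq2.trans j2
      gcongr
    have hJp : 0 < ((J ^ 2 : ℕ) : ℝ) := by
      have : 0 < Q ^ 2 := by positivity
      linarith
    rw [div_le_iff₀ (by positivity)]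
    have h2 : 1 ≤ H * H := one_le_mul_of_one_le_of_one_le hH1 hH1
    calc 40 * Q ^ 2 ≤ 40 * ((J ^ 2 : ℕ) : ℝ) := by linarith
      _ ≤ 40 * ((J ^ 2 : ℕ) : ℝ) * (H * H) := le_mul_of_one_le_right (by positivity) h2
      _ = _ := by ring
  have hsQ : 1 ≤ √Q := by rw [Real.one_le_sqrt]; exact hQ
  have hsx : √(x + H) ≤ 1.5 * √x := by
    have h1 : √(x + H) ≤ √(2 * x) := Real.sqrt_le_sqrt (by linarith)
    have h2 : √(2 * x) = √2 * √x := Real.sqrt_mul (by norm_num) _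
    have h5 : √2 ≤ 1.5 := Real.sqrt_le_iff.2 ⟨by norm_num, by norm_num⟩
    rw [h2] at h1
    refine h1.trans ?_
    gcongr
  have hsH : √x * Q ^ Θ / √Q ≤ H := by
    -- `√x Q^(Θ - 1/2) ≤ √x Q^(Θ/2)`
    have e1 : H = √(Q ^ Θ) * √x := by rw [hH, Real.sqrt_mul hQT.le]
    rw [div_le_iff₀ (by positivity), e1]
    have e2 : √x * Q ^ Θ = √x * (√(Q ^ Θ) * √(Q ^ Θ)) := by rw [Real.mul_self_sqrt hQT.le]
    rw [e2]
    have e3 : √(Q ^ Θ) ≤ √Q := by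
      apply Real.sqrt_le_sqrt
      have := Real.rpow_le_rpow_of_exponent_le hQ hΘ1.le
      rwa [Real.rpow_one] at this
    calc √x * (√(Q ^ Θ) * √(Q ^ Θ)) ≤ √x * (√(Q ^ Θ) * √Q) := by gcongr
      _ = _ := by ring
  have hsx2 : √x ≤ H := by
    rw [hH]
    apply Real.sqrt_le_sqrt
    nlinarith
  have t4 : √(x + H) * (E + 12) / √Q ≤ (6 * D + 18) * H := by
    calc √(x + H) * (E + 12) / √Q ≤ 1.5 * √x * (4 * D * Q ^ Θ + 12) / √Q := by gcongr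
      _ = 6 * D * (√x * Q ^ Θ / √Q) + 18 * (√x / √Q) := by ring
      _ ≤ 6 * D * H + 18 * H := by
          have : √x / √Q ≤ √x := div_le_self (Real.sqrt_nonneg _) hsQ
          have h2 : √x / √Q ≤ H := this.trans hsx2
          gcongr
      _ = _ := by ring
  have t5 : √Q ≤ H := by
    rw [hH]
    apply Real.sqrt_le_sqrt
    have h1 : Q ^ (1 - Θ) ≤ Q ^ Θ := Real.rpow_le_rpow_of_exponent_le hQ (by linarith)
    have h2 : Q = Q ^ Θ * Q ^ (1 - Θ) := by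
      rw [← Real.rpow_add hQ0]
      have : Θ + (1 - Θ) = 1 := by ring
      rw [this, Real.rpow_one]
    calc Q = Q ^ Θ * Q ^ (1 - Θ) := h2
      _ ≤ Q ^ Θ * x := by
          have := h1.trans hQx
          gcongr
  have t6 : (H + 1) * N ≤ 6 * D * H := by
    calc (H + 1) * N ≤ (H + H) * (3 * D) := by gcongr
      _ = _ := by ring
  have hDl : 7 * D ≤ D * ℓ := by nlinarith
  calc _ ≤ 200 * D * ℓ * H + 36 * D * ℓ * H + 40 * H + (6 * D + 18) * H + H + 6 * D * H := by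
        gcongr
    _ = (59 + 12 * D + 236 * (D * ℓ)) * H := by ring
    _ ≤ (300 * (D * ℓ)) * H := by
        have : 59 + 12 * D + 236 * (D * ℓ) ≤ 300 * (D * ℓ) := by nlinarith
        gcongr
    _ = _ := by ring

end Pool.Agent.Helper368_LD
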