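import Pool.Agent.H370R2.DirGood

/-!
# Bounds for logarithmic derivatives in zero free regions
-/

set_option autoImplicit false

namespace Pool.Agent.Helper368_LD

open Complex MeasureTheory Set Metric

/-- the logarithmic derivative of a non-vanishing function on a disc -/
theorem logder_disc {f : ℂ → ℂ} {R M ρ : ℝ} (hM : 1 < M) (hρ : 0 ≤ ρ) (hρR : ρ < R)
    (hf : DifferentiableOn ℂ f (ball 0 R)) (h0 : ∀ z ∈ ball (0 : ℂ) R, f z ≠ 0)
    (hb : ∀ z ∈ ball (0 : ℂ) R, ‖f z‖ ≤ M * ‖f 0‖) {z : ℂ} (hz : ‖z‖ ≤ ρ) :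
    ‖deriv f z / f z‖ ≤ 8 * R * Real.log M / (R - ρ) ^ 2 := by
  have hR : 0 < R := lt_of_le_of_lt hρ hρR
  have hopen : IsOpen (ball (0 : ℂ) R) := isOpen_ball
  have hz0 : (0 : ℂ) ∈ ball (0 : ℂ) R := mem_ball_self hR
  have hfd : DifferentiableOn ℂ (fun z => deriv f z / f z) (ball 0 R) :=
    (hf.deriv hopen).div hf h0
  obtain ⟨g, hg0, hg⟩ := (hfd.isExactOn_ball).with_val_at 0 0
  have hgd : DifferentiableOn ℂ g (ball 0 R) := fun z hz =>
    (hg z hz).differentiableAt.differentiableWithinAt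
  have hconst : ∀ z ∈ ball (0 : ℂ) R, f z * exp (-g z) = f 0 := by
    intro z hz
    have hd : ∀ w ∈ ball (0 : ℂ) R, HasDerivWithinAt (fun w => f w * exp (-g w)) 0 (ball 0 R) w := by
      intro w hw
      have h1 : HasDerivAt f (deriv f w) w :=
        (hf.differentiableAt (hopen.mem_nhds hw)).hasDerivAt
      have h2 : HasDerivAt (fun w => exp (-g w)) (exp (-g w) * -(deriv f w / f w)) w :=
        ((hg w hw).neg).cexp
      have h3 := h1.mul h2
      have e : deriv f w * exp (-g w) + f w * (exp (-g w) * -(deriv f w / f w)) = 0 := by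
        have := h0 w hw
        field_simp
        ring
      rw [e] at h3
      exact h3.hasDerivWithinAt
    have := (convex_ball (0 : ℂ) R).norm_image_sub_le_of_norm_hasDerivWithin_le
      (C := 0) hd (by simp) hz0 hz
    rw [zero_mul] at this
    have h4 := norm_le_zero_iff.1 this
    rw [sub_eq_zero] at h4
    simpa [hg0] using h4
  have hfe : ∀ z ∈ ball (0 : ℂ) R, f z = f 0 * exp (g z) := by
    intro z hz
    rw [← hconst z hz, mul_assoc, ← exp_add, neg_add_cancel, exp_zero, mul_one]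
  have hf0 : 0 < ‖f 0‖ := norm_pos_iff.2 (h0 0 hz0)
  have hlogM : 0 < Real.log M := Real.log_pos hM
  have hmaps : MapsTo g (ball 0 R) {z | z.re ≤ Real.log M} := by
    intro w hw
    have h1 := hb w hw
    rw [hfe w hw, norm_mul, Complex.norm_exp, mul_comm] at h1
    have h2 : Real.exp (g w).re ≤ M := le_of_mul_le_mul_right h1 hf0
    exact (Real.le_log_iff_exp_le (by linarith)).2 h2
  have hBC : ∀ w ∈ ball (0 : ℂ) R, ‖g w‖ ≤ 2 * Real.log M * ‖w‖ / (R - ‖w‖) := fun w hw =>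
    Complex.borelCaratheodory_zero hlogM hgd hmaps hR hw hg0
  set r' := (R - ρ) / 2 with hr'
  have hr0 : 0 < r' := by rw [hr']; linarith
  have hzR : z ∈ ball (0 : ℂ) R := by
    rw [mem_ball_zero_iff]; linarith
  have hcl : closedBall z r' ⊆ ball (0 : ℂ) R := by
    intro w hw
    rw [mem_closedBall, dist_eq_norm] at hw
    rw [mem_ball_zero_iff]
    have : ‖w‖ ≤ ‖w - z‖ + ‖z‖ := by
      have := norm_add_le (w - z) z
      rwa [sub_add_cancel] at this
    rw [hr'] at hw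
    linarith
  have hdc : DiffContOnCl ℂ g (ball z r') := by
    apply DifferentiableOn.diffContOnCl
    apply hgd.mono
    exact closure_ball_subset_closedBall.trans hcl
  have hsph : ∀ w ∈ sphere z r', ‖g w‖ ≤ 4 * R * Real.log M / (R - ρ) := by
    intro w hw
    have hw2 : w ∈ ball (0 : ℂ) R := hcl (sphere_subset_closedBall hw)
    have h1 := hBC w hw2
    rw [mem_sphere, dist_eq_norm] at hw
    have hwn : ‖w‖ ≤ (R + ρ) / 2 := by
      have := norm_add_le (w - z) z
      rw [sub_add_cancel, hw, hr'] at this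
      linarith
    refine h1.trans ?_
    have h2 : 0 < R - ρ := by linarith
    have h3 : (R - ρ) / 2 ≤ R - ‖w‖ := by linarith
    calc 2 * Real.log M * ‖w‖ / (R - ‖w‖) ≤ 2 * Real.log M * R / ((R - ρ) / 2) := by
          apply div_le_div₀ (by positivity) _ (by linarith) h3
          have : ‖w‖ ≤ R := by linarith
          gcongr
      _ = 4 * R * Real.log M / (R - ρ) := by field_simp; ring
  have hder := Complex.norm_deriv_le_of_forall_mem_sphere_norm_le hr0 hdc hsph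
  have hdg : deriv g z = deriv f z / f z := (hg z hzR).deriv
  rw [hdg] at hder
  refine hder.trans (le_of_eq ?_)
  have h2 : R - ρ ≠ 0 := by linarith
  rw [hr']
  field_simp
  ring

variable {q : ℕ} [NeZero q] {χ : DirichletCharacter ℂ q}

/-- growth of `L(s, χ)` -/
theorem L_growth (hχ : χ ≠ 1) {s : ℂ} (hs : 0 < s.re) :
    ‖DirichletCharacter.LFunction χ s‖ ≤ ‖s‖ * (((q : ℝ) + 1) / s.re) := by
  have hA : ∀ u : ℝ, ‖∑ k ∈ Finset.Icc 1 ⌊u⌋₊, χ (k : ZMod q)‖ ≤ ((q : ℝ) + 1 : ℝ) :=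
    fun u => H370.DL.norm_sum_Icc_le hχ _
  rw [H370.DL.L_integral hχ hs, norm_mul]
  have h4 := H370.DL.J_bound hA hs
  exact mul_le_mul_of_nonneg_left h4 (norm_nonneg s)

/-- lower bound at `Re s = 2` -/
theorem L_lower_two (χ : DirichletCharacter ℂ q) {s : ℂ} (hs : s.re = 2) :
    1 / 4 ≤ ‖DirichletCharacter.LFunction χ s‖ := by
  have hre : 1 < s.re := by linarith
  rw [DirichletCharacter.LFunction_eq_LSeries _ hre]
  have hsum : LSeriesSummable (fun n : ℕ => χ (n : ZMod q)) s :=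
    DirichletCharacter.LSeriesSummable_of_one_lt_re _ hre
  unfold LSeries
  have h0 : LSeries.term (fun n : ℕ => χ (n : ZMod q)) s 0 = 0 := by
    simp
  have h1 : LSeries.term (fun n : ℕ => χ (n : ZMod q)) s 1 = 1 := by
    rw [LSeries.term_of_ne_zero one_ne_zero]
    simp
  have hsplit := hsum.sum_add_tsum_nat_add 2
  rw [Finset.sum_range_succ, Finset.sum_range_one, h0, h1, zero_add] at hsplit
  have hZ : HasSum (fun n : ℕ => 1 / ((n : ℝ)) ^ 2) (Real.pi ^ 2 / 6) := hasSum_zeta_two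
  have hZ2 := (hasSum_nat_add_iff' 2).2 hZ
  have e : Real.pi ^ 2 / 6 - ∑ i ∈ Finset.range 2, 1 / ((i : ℝ)) ^ 2 = Real.pi ^ 2 / 6 - 1 := by
    rw [Finset.sum_range_succ, Finset.sum_range_one]; norm_num
  rw [e] at hZ2
  have hb : ‖∑' n : ℕ, LSeries.term (fun n : ℕ => χ (n : ZMod q)) s (n + 2)‖ ≤
      (Real.pi ^ 2 / 6 - 1) := by
    apply tsum_of_norm_bounded hZ2
    intro n
    rw [LSeries.term_of_ne_zero (by omega), norm_div, norm_natCast_cpow_of_pos (by omega), hs]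
    have h5 : ‖χ ((n + 2 : ℕ) : ZMod q)‖ ≤ 1 := DirichletCharacter.norm_le_one _ _
    have h6 : ((n + 2 : ℕ) : ℝ) ^ (2 : ℝ) = ((n + 2 : ℕ) : ℝ) ^ 2 := by
      rw [← Real.rpow_natCast]; norm_num
    rw [h6]
    gcongr
  rw [← hsplit]
  have : Real.pi < 3.15 := Real.pi_lt_d2
  have h0 := Real.pi_pos
  have h7 := norm_sub_norm_le (1 : ℂ) (-∑' n : ℕ, LSeries.term (fun n : ℕ => χ (n : ZMod q)) s (n + 2))
  rw [sub_neg_eq_add, norm_neg, norm_one] at h7
  nlinarith

/-- **Logarithmic derivative of `L(s, χ)`, `χ` nonprincipal, in a zero free half plane.** -/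
theorem L_logder (hχ : χ ≠ 1) {θ δ : ℝ} (hθ : 1 / 2 ≤ θ) (hθ1 : θ ≤ 1) (hδ : 0 < δ) (hδ1 : δ ≤ 1)
    (hz : ∀ s : ℂ, θ < s.re → DirichletCharacter.LFunction χ s ≠ 0) {s : ℂ}
    (h1 : θ + δ ≤ s.re) (h2 : s.re ≤ 2) :
    ‖deriv (DirichletCharacter.LFunction χ) s / DirichletCharacter.LFunction χ s‖ ≤
      16 / δ ^ 2 * Real.log (16 * ((q : ℝ) + 1) * (|s.im| + 5)) := by
  have hq : (1 : ℝ) ≤ q := by exact_mod_cast Nat.one_le_iff_ne_zero.2 (NeZero.ne q)
  have him : 0 ≤ |s.im| := abs_nonneg _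
  set z0 : ℂ := 2 + s.im * I with hz0
  set f : ℂ → ℂ := fun z => DirichletCharacter.LFunction χ (z0 + z) with hf
  set R : ℝ := 2 - θ with hR
  set ρ : ℝ := 2 - θ - δ with hρ
  set M : ℝ := 16 * ((q : ℝ) + 1) * (|s.im| + 5) with hM
  have hM1 : 1 < M := by rw [hM]; nlinarith
  have hf0 : 1 / 4 ≤ ‖f 0‖ := by
    simp only [hf, add_zero]
    exact L_lower_two χ (by simp [hz0])
  have hre : ∀ z ∈ ball (0 : ℂ) R, θ < (z0 + z).re ∧ ‖z0 + z‖ ≤ |s.im| + 5 := by
    intro z hz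
    rw [mem_ball_zero_iff] at hz
    constructor
    · have : |z.re| ≤ ‖z‖ := abs_re_le_norm z
      have := (abs_le.1 this).1
      simp [hz0]
      linarith
    · calc ‖z0 + z‖ ≤ ‖z0‖ + ‖z‖ := norm_add_le _ _
        _ ≤ (2 + |s.im|) + 3 / 2 := by
          gcongr
          · calc ‖z0‖ ≤ ‖(2 : ℂ)‖ + ‖(s.im : ℂ) * I‖ := norm_add_le _ _
              _ = 2 + |s.im| := by simp
          · linarith
        _ ≤ _ := by linarith
  have hdiffL : Differentiable ℂ (DirichletCharacter.LFunction χ) :=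
    DirichletCharacter.differentiable_LFunction hχ
  have hdiff : DifferentiableOn ℂ f (ball 0 R) := by
    intro z _
    exact (hdiffL.comp (differentiable_const z0 |>.add
      differentiable_id)).differentiableAt.differentiableWithinAt
  have hnv : ∀ z ∈ ball (0 : ℂ) R, f z ≠ 0 := fun z hz' => hz _ (hre z hz').1
  have hbd : ∀ z ∈ ball (0 : ℂ) R, ‖f z‖ ≤ M * ‖f 0‖ := by
    intro z hz'
    obtain ⟨h3, h4⟩ := hre z hz'
    have h5 := L_growth hχ (s := z0 + z) (by linarith)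
    have h6 : ((q : ℝ) + 1) / (z0 + z).re ≤ 4 * ((q : ℝ) + 1) := by
      rw [div_le_iff₀ (by linarith)]
      nlinarith
    calc ‖f z‖ ≤ ‖z0 + z‖ * (((q : ℝ) + 1) / (z0 + z).re) := h5
      _ ≤ (|s.im| + 5) * (4 * ((q : ℝ) + 1)) := mul_le_mul h4 h6 (by
          apply div_nonneg <;> linarith) (by linarith)
      _ = M * (1 / 4) := by rw [hM]; ring
      _ ≤ M * ‖f 0‖ := mul_le_mul_of_nonneg_left hf0 (by linarith)
  have hzs : ‖((s.re - 2 : ℝ) : ℂ)‖ ≤ ρ := by
    rw [norm_real, Real.norm_eq_abs, abs_le]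
    constructor <;> linarith
  have key := logder_disc hM1 (by rw [hρ]; linarith) (by rw [hρ, hR]; linarith) hdiff hnv hbd hzs
  have hpt : z0 + ((s.re - 2 : ℝ) : ℂ) = s := by
    apply Complex.ext <;> simp [hz0]
  have hd : deriv f ((s.re - 2 : ℝ) : ℂ) = deriv (DirichletCharacter.LFunction χ) s := by
    simp only [hf]
    rw [deriv_comp_const_add, hpt]
  have hfv : f ((s.re - 2 : ℝ) : ℂ) = DirichletCharacter.LFunction χ s := by
    simp only [hf]; rw [hpt]
  rw [hd, hfv] at key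
  refine key.trans ?_
  have hRρ : R - ρ = δ := by rw [hR, hρ]; ring
  rw [hRρ]
  have hlog : 0 < Real.log M := Real.log_pos hM1
  rw [div_mul_eq_mul_div]
  gcongr
  linarith

end Pool.Agent.Helper368_LD
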