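import Pool.Agent.Helper368_LD.Pnt
import Pool.Agent.Helper368_LD.LogDer
import Pool.Agent.Helper240.ZU.A1

/-!
# The hypotheses for Dirichlet L-functions and for the zeta function
-/

set_option autoImplicit false

namespace Pool.Agent.Helper368_LD

open Complex MeasureTheory Set Metric

variable {q : ℕ} [NeZero q] {χ : DirichletCharacter ℂ q}

/-- the coefficients of `-L'/L` -/
noncomputable def gch (χ : DirichletCharacter ℂ q) (m : ℕ) : ℂ :=
  χ (m : ZMod q) * ((ArithmeticFunction.vonMangoldt m : ℝ) : ℂ)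

theorem gch_norm (χ : DirichletCharacter ℂ q) (m : ℕ) :
    ‖gch χ m‖ ≤ ArithmeticFunction.vonMangoldt m := by
  unfold gch
  rw [norm_mul, norm_real, Real.norm_of_nonneg ArithmeticFunction.vonMangoldt_nonneg]
  have h := DirichletCharacter.norm_le_one χ (m : ZMod q)
  have h2 : 0 ≤ ArithmeticFunction.vonMangoldt m := ArithmeticFunction.vonMangoldt_nonneg
  nlinarith

theorem log_five_le (t : ℝ) : 1 ≤ Real.log (|t| + 5) := by
  rw [Real.le_log_iff_exp_le (by positivity)]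
  have := Real.exp_one_lt_d9
  have := abs_nonneg t
  linarith

theorem log_q_le {q : ℝ} (hq : 0 ≤ q) : 1 ≤ Real.log (16 * (q + 1)) := by
  rw [Real.le_log_iff_exp_le (by positivity)]
  have := Real.exp_one_lt_d9
  nlinarith

theorem gch_LSeries {s : ℂ} (hs : 1 < s.re) : LSeries (gch χ) s =
    -deriv (DirichletCharacter.LFunction χ) s / DirichletCharacter.LFunction χ s := by
  have h1 := DirichletCharacter.LSeries_twist_vonMangoldt_eq χ hs
  have h2 : LSeries (gch χ) s = LSeries ((fun n : ℕ => χ (n : ZMod q)) *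
      fun n : ℕ => ((ArithmeticFunction.vonMangoldt n : ℝ) : ℂ)) s := by
    rfl
  rw [h2, h1]
  have h3 := DirichletCharacter.deriv_LFunction_eq_deriv_LSeries χ hs
  have h4 := DirichletCharacter.LFunction_eq_LSeries χ hs
  rw [h3, h4]

/-- the hypotheses for a nonprincipal Dirichlet character -/
theorem hyp_char (hχ : χ ≠ 1) {θ : ℝ} (hθ : 1 / 2 ≤ θ) (hθ1 : θ ≤ 1)
    (hz : ∀ s : ℂ, θ < s.re → DirichletCharacter.LFunction χ s ≠ 0) :
    Hyp (gch χ) 0 (fun s => -deriv (DirichletCharacter.LFunction χ) s /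
      DirichletCharacter.LFunction χ s) θ (32 * Real.log (16 * ((q : ℝ) + 1))) where
  hθ := hθ
  hθ1 := hθ1
  hB0 := by
    have := log_q_le (q := q) (Nat.cast_nonneg q)
    linarith
  hg := gch_norm χ
  hκ := by simp
  hG := by
    intro s hs
    rw [zero_div, zero_add, gch_LSeries hs]
  hGd := by
    intro s hs
    have h1 : Differentiable ℂ (DirichletCharacter.LFunction χ) :=
      DirichletCharacter.differentiable_LFunction hχ
    have h2 : DifferentiableAt ℂ (deriv (DirichletCharacter.LFunction χ)) s :=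
      (h1.analyticAt s).deriv.differentiableAt
    exact h2.neg.div (h1 s) (hz s hs)
  hB := by
    intro δ hδ hδ1 s h1 h2
    rw [neg_div, norm_neg]
    refine (L_logder hχ hθ hθ1 hδ hδ1 hz h1 h2).trans ?_
    have h3 := log_five_le s.im
    have h4 := log_q_le (q := q) (Nat.cast_nonneg q)
    have h5 : (0 : ℝ) ≤ q := Nat.cast_nonneg q
    have h6 : 0 ≤ |s.im| := abs_nonneg _
    rw [Real.log_mul (by positivity) (by positivity)]
    have h7 : Real.log (16 * ((q : ℝ) + 1)) + Real.log (|s.im| + 5) ≤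
        2 * (Real.log (16 * ((q : ℝ) + 1)) * Real.log (|s.im| + 5)) := by nlinarith
    calc 16 / δ ^ 2 * (Real.log (16 * ((q : ℝ) + 1)) + Real.log (|s.im| + 5))
        ≤ 16 / δ ^ 2 * (2 * (Real.log (16 * ((q : ℝ) + 1)) * Real.log (|s.im| + 5))) := by gcongr
      _ = _ := by ring

/-! ### the zeta function -/

/-- the Mellin integral of the fractional part -/
noncomputable def Jf (s : ℂ) : ℂ :=
  ∫ u in Ioi (1 : ℝ), ((Int.fract u : ℝ) : ℂ) * (u : ℂ) ^ (-s - 1)

/-- `(s - 1) ζ(s)` -/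
noncomputable def zf (s : ℂ) : ℂ := s - (s - 1) * s * Jf s

theorem zf_eq {s : ℂ} (hs : 0 < s.re) : zf s = if s = 1 then 1 else (s - 1) * riemannZeta s := by
  split_ifs with h
  · unfold zf; rw [h]; ring
  · rw [ZU.J_a1.zf_one s hs h]
    unfold zf Jf
    have : s - 1 ≠ 0 := sub_ne_zero.2 h
    field_simp
    ring

theorem zf_differentiableAt {s : ℂ} (hs : 0 < s.re) : DifferentiableAt ℂ zf s := by
  have h1 : DifferentiableAt ℂ Jf s := by
    have hopen : IsOpen {s : ℂ | 0 < s.re} := isOpen_lt continuous_const Complex.continuous_re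
    exact ZU.J_a1.zf_diff.differentiableAt (hopen.mem_nhds hs)
  unfold zf
  fun_prop

theorem zf_growth {s : ℂ} (hs : 1 / 2 ≤ s.re) : ‖zf s‖ ≤ ‖s‖ * (1 + 2 * ‖s - 1‖) := by
  have hA : ∀ u : ℝ, ‖((Int.fract u : ℝ) : ℂ)‖ ≤ 1 := by
    intro u
    rw [Complex.norm_real, Real.norm_eq_abs, Int.abs_fract]
    exact (Int.fract_lt_one u).le
  have h4 := H370.DL.J_bound hA (s := s) (by linarith)
  have h5 : (1 : ℝ) / s.re ≤ 2 := by
    rw [div_le_iff₀ (by linarith)]
    linarith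
  unfold zf Jf
  calc _ ≤ ‖s‖ + ‖(s - 1) * s * ∫ u in Ioi (1 : ℝ), ((Int.fract u : ℝ) : ℂ) * (u : ℂ) ^ (-s - 1)‖ :=
        norm_sub_le _ _
    _ = ‖s‖ + ‖s - 1‖ * ‖s‖ * ‖∫ u in Ioi (1 : ℝ), ((Int.fract u : ℝ) : ℂ) * (u : ℂ) ^ (-s - 1)‖ := by
        rw [norm_mul, norm_mul]
    _ ≤ ‖s‖ + ‖s - 1‖ * ‖s‖ * 2 := by gcongr; exact h4.trans h5
    _ = _ := by ring

theorem zf_lower {s : ℂ} (hs : s.re = 2) : 1 / 4 ≤ ‖zf s‖ := by
  have hne : s ≠ 1 := by
    intro h; rw [h] at hs; norm_num at hs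
  rw [zf_eq (by linarith), if_neg hne, norm_mul]
  have h1 : 1 / 4 ≤ ‖riemannZeta s‖ := by
    have := L_lower_two (1 : DirichletCharacter ℂ 1) hs
    rwa [DirichletCharacter.LFunction_modOne_eq] at this
  have h2 : 1 ≤ ‖s - 1‖ := by
    have := Complex.abs_re_le_norm (s - 1)
    have h3 : (s - 1).re = 1 := by simp [hs]; norm_num
    rw [h3] at this
    simpa using this
  nlinarith [norm_nonneg (riemannZeta s)]

theorem zf_logder {θ δ : ℝ} (hθ : 1 / 2 ≤ θ) (hθ1 : θ ≤ 1) (hδ : 0 < δ) (hδ1 : δ ≤ 1)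
    (hz : ∀ s : ℂ, θ < s.re → zf s ≠ 0) {s : ℂ}
    (h1 : θ + δ ≤ s.re) (h2 : s.re ≤ 2) :
    ‖deriv zf s / zf s‖ ≤ 80 / δ ^ 2 * Real.log (|s.im| + 5) := by
  have him : 0 ≤ |s.im| := abs_nonneg _
  set z0 : ℂ := 2 + s.im * I with hz0
  set f : ℂ → ℂ := fun z => zf (z0 + z) with hf
  set R : ℝ := 2 - θ with hR
  set ρ : ℝ := 2 - θ - δ with hρ
  set M : ℝ := 12 * (|s.im| + 5) ^ 2 with hM
  have hM1 : 1 < M := by rw [hM]; nlinarith
  have hf0 : 1 / 4 ≤ ‖f 0‖ := by
    simp only [hf, add_zero]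
    exact zf_lower (by simp [hz0])
  have hre : ∀ z ∈ ball (0 : ℂ) R, θ < (z0 + z).re ∧ ‖z0 + z‖ ≤ |s.im| + 4 := by
    intro z hz
    rw [mem_ball_zero_iff] at hz
    constructor
    · have : |z.re| ≤ ‖z‖ := abs_re_le_norm z
      have := (abs_le.1 this).1
      simp [hz0]
      linarith
    · calc ‖z0 + z‖ ≤ ‖z0‖ + ‖z‖ := norm_add_le _ _
        _ ≤ (2 + |s.im|) + 3 / 2 := by
          gcongr
          · calc ‖z0‖ ≤ ‖(2 : ℂ)‖ + ‖(s.im : ℂ) * I‖ := norm_add_le _ _
              _ = 2 + |s.im| := by simp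
          · linarith
        _ ≤ _ := by linarith
  have hdiff : DifferentiableOn ℂ f (ball 0 R) := by
    intro z hz'
    obtain ⟨h3, h4⟩ := hre z hz'
    have h5 : DifferentiableAt ℂ zf (z0 + z) := zf_differentiableAt (by linarith)
    exact (h5.comp z (differentiableAt_id.const_add z0)).differentiableWithinAt
  have hnv : ∀ z ∈ ball (0 : ℂ) R, f z ≠ 0 := fun z hz' => hz _ (hre z hz').1
  have hbd : ∀ z ∈ ball (0 : ℂ) R, ‖f z‖ ≤ M * ‖f 0‖ := by
    intro z hz'
    obtain ⟨h3, h4⟩ := hre z hz'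
    have h5 := zf_growth (s := z0 + z) (by linarith)
    have h6 : ‖z0 + z - 1‖ ≤ |s.im| + 5 := by
      have := norm_sub_le (z0 + z) 1
      rw [norm_one] at this
      linarith
    calc ‖f z‖ ≤ ‖z0 + z‖ * (1 + 2 * ‖z0 + z - 1‖) := h5
      _ ≤ (|s.im| + 5) * (1 + 2 * (|s.im| + 5)) := by gcongr; linarith
      _ ≤ M * (1 / 4) := by rw [hM]; nlinarith
      _ ≤ M * ‖f 0‖ := mul_le_mul_of_nonneg_left hf0 (by linarith)
  have hzs : ‖((s.re - 2 : ℝ) : ℂ)‖ ≤ ρ := by
    rw [norm_real, Real.norm_eq_abs, abs_le]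
    constructor <;> linarith
  have key := logder_disc hM1 (by rw [hρ]; linarith) (by rw [hρ, hR]; linarith) hdiff hnv hbd hzs
  have hpt : z0 + ((s.re - 2 : ℝ) : ℂ) = s := by
    apply Complex.ext <;> simp [hz0]
  have hd : deriv f ((s.re - 2 : ℝ) : ℂ) = deriv zf s := by
    simp only [hf]
    rw [deriv_comp_const_add, hpt]
  have hfv : f ((s.re - 2 : ℝ) : ℂ) = zf s := by
    simp only [hf]; rw [hpt]
  rw [hd, hfv] at key
  refine key.trans ?_
  have hRρ : R - ρ = δ := by rw [hR, hρ]; ring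
  rw [hRρ]
  have hlog : 0 < Real.log M := Real.log_pos hM1
  have hlog2 : Real.log M ≤ 5 * Real.log (|s.im| + 5) := by
    rw [hM, Real.log_mul (by norm_num) (by positivity), Real.log_pow]
    have h3 := log_five_le s.im
    have h4 : Real.log 12 ≤ 3 := by
      rw [Real.log_le_iff_le_exp (by norm_num)]
      have h5 : Real.exp 3 = Real.exp 1 * Real.exp 1 * Real.exp 1 := by
        rw [← Real.exp_add, ← Real.exp_add]; norm_num
      have h6 := Real.exp_one_gt_d9
      have h7 : (2.7 : ℝ) * 2.7 ≤ Real.exp 1 * Real.exp 1 := by nlinarith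
      nlinarith
    push_cast
    linarith
  rw [div_mul_eq_mul_div]
  have : 8 * R * Real.log M ≤ 80 * Real.log (|s.im| + 5) := by
    have hR2 : R ≤ 2 := by rw [hR]; linarith
    nlinarith
  gcongr

theorem zf_ne_zero {θ : ℝ} (hθ : 1 / 2 ≤ θ)
    (hz : ∀ s : ℂ, θ < s.re → s.re < 1 → riemannZeta s ≠ 0) {s : ℂ} (hs : θ < s.re) : zf s ≠ 0 := by
  rw [zf_eq (by linarith)]
  split_ifs with h
  · exact one_ne_zero
  · apply mul_ne_zero (sub_ne_zero.2 h)
    rcases lt_or_ge s.re 1 with h1 | h1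
    · exact hz s hs h1
    · exact riemannZeta_ne_zero_of_one_le_re h1

theorem zf_deriv {s : ℂ} (hs : 0 < s.re) (h1 : s ≠ 1) (hz : riemannZeta s ≠ 0) :
    deriv zf s / zf s = 1 / (s - 1) + deriv riemannZeta s / riemannZeta s := by
  have hev : zf =ᶠ[nhds s] fun s => (s - 1) * riemannZeta s := by
    have hopen : IsOpen {s : ℂ | 0 < s.re} := isOpen_lt continuous_const Complex.continuous_re
    filter_upwards [hopen.mem_nhds hs, isOpen_ne.mem_nhds h1] with z hz1 hz2
    rw [zf_eq hz1, if_neg hz2]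
  rw [hev.deriv_eq, zf_eq hs, if_neg h1]
  have hd : HasDerivAt riemannZeta (deriv riemannZeta s) s :=
    (differentiableAt_riemannZeta h1).hasDerivAt
  have h2 : HasDerivAt (fun s : ℂ => s - 1) 1 s := (hasDerivAt_id s).sub_const 1
  have h3 := (h2.mul hd).deriv
  have h4 : deriv (fun s : ℂ => (s - 1) * riemannZeta s) s =
      1 * riemannZeta s + (s - 1) * deriv riemannZeta s := h3
  rw [h4]
  have h5 : s - 1 ≠ 0 := sub_ne_zero.2 h1
  field_simp

/-- the hypotheses for the zeta function -/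
theorem hyp_zeta {θ : ℝ} (hθ : 1 / 2 ≤ θ) (hθ1 : θ ≤ 1)
    (hz : ∀ s : ℂ, θ < s.re → s.re < 1 → riemannZeta s ≠ 0) :
    Hyp (fun m => ((ArithmeticFunction.vonMangoldt m : ℝ) : ℂ)) 1
      (fun s => -(deriv zf s / zf s)) θ 80 where
  hθ := hθ
  hθ1 := hθ1
  hB0 := by norm_num
  hg := by
    intro m
    rw [norm_real, Real.norm_of_nonneg ArithmeticFunction.vonMangoldt_nonneg]
  hκ := by simp
  hG := by
    intro s hs
    have h1 : s ≠ 1 := by
      intro h; rw [h] at hs; norm_num at hs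
    rw [zf_deriv (by linarith) h1 (riemannZeta_ne_zero_of_one_lt_re hs),
      ArithmeticFunction.LSeries_vonMangoldt_eq_deriv_riemannZeta_div hs]
    ring
  hGd := by
    intro s hs
    have hopen : IsOpen {s : ℂ | 0 < s.re} := isOpen_lt continuous_const Complex.continuous_re
    have h0 : 0 < s.re := by linarith
    have h1 : DifferentiableOn ℂ zf {s : ℂ | 0 < s.re} := fun z hz =>
      (zf_differentiableAt hz).differentiableWithinAt
    have h2 : DifferentiableAt ℂ (deriv zf) s :=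
      (h1.deriv hopen).differentiableAt (hopen.mem_nhds h0)
    exact (h2.div (zf_differentiableAt h0) (zf_ne_zero hθ hz hs)).neg
  hB := by
    intro δ hδ hδ1 s h1 h2
    rw [norm_neg]
    exact zf_logder hθ hθ1 hδ hδ1 (fun s hs => zf_ne_zero hθ hz hs) h1 h2

end Pool.Agent.Helper368_LD
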