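import Pool.Agent.Helper368_LD.Decomp
import Pool.Agent.H491R3.Gam

/-!
# The second main term
-/

set_option autoImplicit false

namespace Pool.Agent.Helper368_LD

open Complex Filter Topology MeasureTheory Set
open scoped Real
open Pool.Agent.H491R3.J

/-- the second main term -/
noncomputable def Main2 (X : ℝ) (r : ℂ) : ℂ :=
  (π : ℂ) ^ r * (X : ℂ) ^ (1 - r) * riemannZeta (1 - 2 * r) * (Ge r + Go r) * PD (-r) r /
    (3 * (1 - r) * riemannZeta 2)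

theorem PD_eq {r : ℂ} (hr : r.re < 1 / 2) :
    PD (-r) r = 3 * riemannZeta 2 / 4 * LSeries (muc 2) (2 - 2 * r) := by
  set s : ℂ := 2 - 2 * r with hs
  have hsre : 1 < s.re := by simp [hs]; linarith
  have h2re : 1 < (2 : ℂ).re := by norm_num
  have hζs := riemannZeta_ne_zero_of_one_lt_re hsre
  have hE2 := riemannZeta_eulerProduct_hasProd h2re
  have hEs := (riemannZeta_eulerProduct_hasProd hsre).inv₀ hζs
  have hfac : ∀ p : Nat.Primes, ∀ z : ℂ, 1 < z.re → (1 : ℂ) - ((p : ℕ) : ℂ) ^ (-z) ≠ 0 := by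
    intro p z hz h0
    rw [sub_eq_zero] at h0
    have h1 : ‖((p : ℕ) : ℂ) ^ (-z)‖ < 1 := by
      rw [norm_natCast_cpow_of_pos p.2.pos]
      apply Real.rpow_lt_one_of_one_lt_of_neg
      · exact_mod_cast p.2.one_lt
      · simp only [neg_re]; linarith
    rw [← h0, norm_one] at h1
    exact lt_irrefl _ h1
  set two : Nat.Primes := ⟨2, Nat.prime_two⟩ with htwo
  set c : ℂ := (1 - ((2 : ℕ) : ℂ) ^ (-s)) / (1 - ((2 : ℕ) : ℂ) ^ (-(2 : ℂ))) with hc
  have hc0 : c ≠ 0 := div_ne_zero (hfac two s hsre) (hfac two 2 h2re)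
  have hI : HasProd (fun p : Nat.Primes => if p = two then c⁻¹ else 1) c⁻¹ := hasProd_ite_eq two c⁻¹
  have hP := (hE2.mul hEs).mul hI
  have hPD : PD (-r) r = ∏' p : Nat.Primes, ((1 - ((p : ℕ) : ℂ) ^ (-(2 : ℂ)))⁻¹ *
      ((1 - ((p : ℕ) : ℂ) ^ (-s))⁻¹)⁻¹ * (if p = two then c⁻¹ else 1)) := by
    unfold PD
    apply tprod_congr
    intro p
    have hp0 : ((p : ℕ) : ℂ) ≠ 0 := by exact_mod_cast p.2.ne_zero
    by_cases hp : (p : ℕ) = 2
    · have hp' : p = two := Subtype.ext hp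
      rw [if_pos hp, if_pos hp', hp, hc, inv_inv]
      have h1 := hfac two s hsre
      have h2 := hfac two 2 h2re
      change (1 : ℂ) - ((2 : ℕ) : ℂ) ^ (-s) ≠ 0 at h1
      change (1 : ℂ) - ((2 : ℕ) : ℂ) ^ (-(2 : ℂ)) ≠ 0 at h2
      field_simp
    · have hp' : p ≠ two := fun h => hp (by rw [h])
      rw [if_neg hp, if_neg hp', mul_one, inv_inv]
      have e1 : r - -r = 2 * r := by ring
      have e2 : 1 + -r + r = 1 := by ring
      rw [e1, e2, cpow_one]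
      have h2 : ((p : ℕ) : ℂ) ^ (-(2 : ℂ)) = 1 / ((p : ℕ) : ℂ) ^ 2 := by
        rw [Complex.cpow_neg, one_div]
        congr 1
        norm_cast
      have h3 : ((p : ℕ) : ℂ) ^ (-s) = ((p : ℕ) : ℂ) ^ (2 * r) / ((p : ℕ) : ℂ) ^ 2 := by
        have e3 : -s = 2 * r - (2 : ℕ) := by rw [hs]; push_cast; ring
        rw [e3, Complex.cpow_sub _ _ hp0, Complex.cpow_natCast]
      have h4 := hfac p 2 h2re
      rw [h2] at h4
      rw [h2, h3]
      have hpp : (1 : ℝ) < ((p : ℕ) : ℝ) := by exact_mod_cast p.2.one_lt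
      have h5 : ((p : ℕ) : ℂ) + 1 ≠ 0 := by
        have : (((p : ℕ) + 1 : ℕ) : ℂ) ≠ 0 := by exact_mod_cast (by omega : (p : ℕ) + 1 ≠ 0)
        push_cast at this
        exact this
      have h6 : ((p : ℕ) : ℂ) - 1 ≠ 0 := by
        intro h0
        have h7 : ((p : ℕ) : ℂ) = ((1 : ℕ) : ℂ) := by push_cast; linear_combination h0
        have h8 : (p : ℕ) = 1 := by exact_mod_cast h7
        exact p.2.one_lt.ne' h8
      have h9 : ((p : ℕ) : ℂ) ^ 2 - 1 ≠ 0 := by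
        have : ((p : ℕ) : ℂ) ^ 2 - 1 = (((p : ℕ) : ℂ) + 1) * (((p : ℕ) : ℂ) - 1) := by ring
        rw [this]
        exact mul_ne_zero h5 h6
      have h10 : (1 - 1 / ((p : ℕ) : ℂ) ^ 2)⁻¹ = ((p : ℕ) : ℂ) ^ 2 / (((p : ℕ) : ℂ) ^ 2 - 1) := by
        field_simp
      rw [h10]
      have h11 : (((p : ℕ) : ℂ) + 1) * (((p : ℕ) : ℂ) - 1) = ((p : ℕ) : ℂ) ^ 2 - 1 := by ring
      rw [h11]
      field_simp
      ring
  rw [hPD, hP.tprod_eq]
  have h1 := muc_LSeries 2 hsre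
  rw [Nat.Prime.primeFactors Nat.prime_two, Finset.prod_singleton] at h1
  have h2 := hfac two s hsre
  change (1 : ℂ) - ((2 : ℕ) : ℂ) ^ (-s) ≠ 0 at h2
  have h3 : LSeries (muc 2) s = ((1 - ((2 : ℕ) : ℂ) ^ (-s)) * riemannZeta s)⁻¹ :=
    eq_inv_of_mul_eq_one_left h1
  rw [h3, hc]
  have h4 : ((2 : ℕ) : ℂ) ^ (-(2 : ℂ)) = 1 / 4 := by
    rw [Complex.cpow_neg]
    norm_num
  rw [h4]
  field_simp
  norm_num

theorem muc_LSeries_bound (M : ℕ) {s : ℂ} (hs : 1 < s.re) :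
    ‖LSeries (muc M) s‖ ≤ 1 + 1 / (s.re - 1) := by
  have h := lseries_tail (muc_norm M) hs (le_refl 1)
  rw [Finset.Icc_self, Finset.sum_singleton] at h
  simp only [Nat.cast_one, one_cpow, mul_one, Real.one_rpow] at h
  have h2 := muc_norm M 1
  calc ‖LSeries (muc M) s‖ = ‖(LSeries (muc M) s - muc M 1) + muc M 1‖ := by congr 1; ring
    _ ≤ _ := norm_add_le _ _
    _ ≤ _ := by linarith

theorem sum_inv_sqrt_le (N : ℕ) : ∑ n ∈ Finset.Icc 1 N, (n : ℝ) ^ (-(1 / 2) : ℝ) ≤ 2 * √(N : ℝ) := by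
  induction N with
  | zero => simp
  | succ n ih =>
    rw [Finset.sum_Icc_succ_top (by omega)]
    have h1 : (((n + 1 : ℕ) : ℝ)) ^ (-(1 / 2) : ℝ) = 1 / √((n + 1 : ℕ) : ℝ) := by
      rw [Real.rpow_neg (by positivity), Real.sqrt_eq_rpow]
      exact (one_div _).symm
    rw [h1]
    have h2 : 0 < √((n + 1 : ℕ) : ℝ) := Real.sqrt_pos.2 (by positivity)
    have h3 : √((n + 1 : ℕ) : ℝ) ^ 2 = n + 1 := by
      rw [Real.sq_sqrt (by positivity)]; push_cast; ring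
    have h4 : √(n : ℝ) ^ 2 = n := Real.sq_sqrt (by positivity)
    have h5 : 0 ≤ √(n : ℝ) := Real.sqrt_nonneg _
    have h6 : 1 / √((n + 1 : ℕ) : ℝ) ≤ 2 * (√((n + 1 : ℕ) : ℝ) - √(n : ℝ)) := by
      rw [div_le_iff₀ h2]
      nlinarith [sq_nonneg (√((n + 1 : ℕ) : ℝ) - √(n : ℝ))]
    linarith

/-- a simple bound for the zeta function to the right of the critical line -/
theorem zeta_bound {s : ℂ} (h1 : 1 / 2 ≤ s.re) (h2 : s.re < 1) :
    ‖riemannZeta s‖ ≤ √(|s.im| + 1) * (6 + 1 / ‖s - 1‖) := by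
  have hs1 : s ≠ 1 := by
    intro h; rw [h] at h2; norm_num at h2
  set N : ℕ := ⌊|s.im|⌋₊ + 1 with hN
  have hN1 : 1 ≤ N := by omega
  have hN0 : (0 : ℝ) < N := by exact_mod_cast hN1
  have hNle : (N : ℝ) ≤ |s.im| + 1 := by
    rw [hN]; push_cast
    have := Nat.floor_le (abs_nonneg s.im)
    linarith
  have hNge : |s.im| ≤ N := by
    rw [hN]; push_cast
    exact (Nat.lt_floor_add_one _).le
  rw [ZU.J_a1.zeta_formula N hN1 s (by linarith) hs1]
  have hN1' : (1 : ℝ) ≤ N := by exact_mod_cast hN1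
  have hsN : √(N : ℝ) ≤ √(|s.im| + 1) := Real.sqrt_le_sqrt hNle
  have a1 : ‖ZU.DN N s‖ ≤ 2 * √(N : ℝ) := by
    unfold ZU.DN
    refine le_trans ?_ (sum_inv_sqrt_le N)
    apply norm_sum_le_of_le
    intro n hn
    rw [Finset.mem_Icc] at hn
    rw [norm_natCast_cpow_of_pos (by omega), neg_re]
    apply Real.rpow_le_rpow_of_exponent_le
    · exact_mod_cast hn.1
    · linarith
  have a2 : ‖(N : ℂ) ^ (1 - s) / (s - 1)‖ ≤ √(N : ℝ) * (1 / ‖s - 1‖) := by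
    rw [norm_div, norm_natCast_cpow_of_pos (by omega), div_eq_mul_one_div]
    apply mul_le_mul_of_nonneg_right _ (by positivity)
    rw [Real.sqrt_eq_rpow]
    apply Real.rpow_le_rpow_of_exponent_le hN1'
    simp only [sub_re, one_re]
    linarith
  have a3 : ‖s * ∫ u in Ioi (N : ℝ), ((Int.fract u : ℝ) : ℂ) * (u : ℂ) ^ (-s - 1)‖ ≤ 4 * √(N : ℝ) := by
    have hint : IntegrableOn (fun u : ℝ => u ^ (-s.re - 1)) (Ioi (N : ℝ)) :=
      integrableOn_Ioi_rpow_of_lt (by linarith) hN0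
    have hb : ‖∫ u in Ioi (N : ℝ), ((Int.fract u : ℝ) : ℂ) * (u : ℂ) ^ (-s - 1)‖ ≤
        ∫ u in Ioi (N : ℝ), u ^ (-s.re - 1) := by
      refine norm_integral_le_of_norm_le hint ?_
      refine (ae_restrict_iff' measurableSet_Ioi).mpr (Filter.Eventually.of_forall fun u hu => ?_)
      have hu0 : (0 : ℝ) < u := lt_trans hN0 hu
      rw [norm_mul, norm_cpow_eq_rpow_re_of_pos hu0, norm_real, Real.norm_eq_abs, Int.abs_fract]
      have h4 : (-s - 1).re = -s.re - 1 := by simp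
      rw [h4]
      have h5 : 0 ≤ u ^ (-s.re - 1) := Real.rpow_nonneg hu0.le _
      have h6 := (Int.fract_lt_one u).le
      nlinarith
    rw [integral_Ioi_rpow_of_lt (by linarith) hN0] at hb
    have e1 : -(N : ℝ) ^ (-s.re - 1 + 1) / (-s.re - 1 + 1) = (N : ℝ) ^ (-s.re) / s.re := by
      have : -s.re - 1 + 1 = -s.re := by ring
      rw [this, neg_div_neg_eq]
    rw [e1] at hb
    have h7 : (N : ℝ) ^ (-s.re) ≤ (N : ℝ) ^ (-(1 / 2) : ℝ) :=
      Real.rpow_le_rpow_of_exponent_le hN1' (by linarith)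
    have h8 : (N : ℝ) ^ (-s.re) / s.re ≤ 2 * (N : ℝ) ^ (-(1 / 2) : ℝ) := by
      rw [div_le_iff₀ (by linarith)]
      have : 0 ≤ (N : ℝ) ^ (-(1 / 2) : ℝ) := by positivity
      nlinarith
    have h9 : ‖s‖ ≤ 2 * N := by
      have := Complex.norm_le_abs_re_add_abs_im s
      have h10 : |s.re| ≤ 1 := by rw [abs_le]; constructor <;> linarith
      linarith
    have h11 : (N : ℝ) * (N : ℝ) ^ (-(1 / 2) : ℝ) = √(N : ℝ) := by
      rw [Real.sqrt_eq_rpow]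
      nth_rewrite 1 [← Real.rpow_one (N : ℝ)]
      rw [← Real.rpow_add hN0]
      norm_num
    rw [norm_mul]
    calc ‖s‖ * _ ≤ (2 * N) * (2 * (N : ℝ) ^ (-(1 / 2) : ℝ)) :=
          mul_le_mul h9 (hb.trans h8) (norm_nonneg _) (by positivity)
      _ = 4 * ((N : ℝ) * (N : ℝ) ^ (-(1 / 2) : ℝ)) := by ring
      _ = _ := by rw [h11]
  calc _ ≤ ‖ZU.DN N s + (N : ℂ) ^ (1 - s) / (s - 1)‖ +
        ‖s * ∫ u in Ioi (N : ℝ), ((Int.fract u : ℝ) : ℂ) * (u : ℂ) ^ (-s - 1)‖ := norm_sub_le _ _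
    _ ≤ (‖ZU.DN N s‖ + ‖(N : ℂ) ^ (1 - s) / (s - 1)‖) + 4 * √(N : ℝ) :=
        add_le_add (norm_add_le _ _) a3
    _ ≤ (2 * √(N : ℝ) + √(N : ℝ) * (1 / ‖s - 1‖)) + 4 * √(N : ℝ) := by gcongr
    _ = √(N : ℝ) * (6 + 1 / ‖s - 1‖) := by ring
    _ ≤ _ := by gcongr

theorem gamma_ratio {a : ℝ} (ha : 1 / 4 ≤ a) : ∃ C : ℝ, 0 ≤ C ∧ ∀ σ t : ℝ, 0 ≤ σ → σ ≤ 1 / 4 →
    ‖Gamma ((a : ℂ) - ((σ : ℂ) + t * I) / 2) / Gamma ((a : ℂ) + ((σ : ℂ) + t * I) / 2)‖ ≤ C := by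
  have hcont : ContinuousOn (fun σ : ℝ => Real.Gamma (a - σ / 2) / Real.Gamma (a + σ / 2))
      (Icc 0 (1 / 4)) := by
    intro σ hσ
    have h1 : 0 < a - σ / 2 := by linarith [hσ.2]
    have h2 : 0 < a + σ / 2 := by linarith [hσ.1]
    have hne : ∀ x : ℝ, 0 < x → ∀ m : ℕ, x ≠ -m := by
      intro x hx m h
      have : (0 : ℝ) ≤ m := Nat.cast_nonneg m
      linarith
    have c1 : ContinuousAt (fun σ : ℝ => Real.Gamma (a - σ / 2)) σ := by
      have h3 := (Real.differentiableAt_Gamma (hne _ h1)).continuousAt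
      exact ContinuousAt.comp (g := Real.Gamma) (f := fun σ : ℝ => a - σ / 2) h3 (by fun_prop)
    have c2 : ContinuousAt (fun σ : ℝ => Real.Gamma (a + σ / 2)) σ := by
      have h3 := (Real.differentiableAt_Gamma (hne _ h2)).continuousAt
      exact ContinuousAt.comp (g := Real.Gamma) (f := fun σ : ℝ => a + σ / 2) h3 (by fun_prop)
    exact (c1.div c2 (Real.Gamma_pos_of_pos h2).ne').continuousWithinAt
  obtain ⟨C, hC⟩ := isCompact_Icc.exists_bound_of_continuousOn hcont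
  refine ⟨max C 0, le_max_right _ _, ?_⟩
  intro σ t h0 h1
  have hx : 0 < a - σ / 2 := by linarith
  have hy : 0 < a + σ / 2 := by linarith
  have hm := Pool.Agent.H491R3.gamma_mono (x := a - σ / 2) (y := a + σ / 2) (t := t / 2) hx (by linarith)
  have e1 : (a : ℂ) - ((σ : ℂ) + t * I) / 2 = (starRingEnd ℂ) (((a - σ / 2 : ℝ) : ℂ) +
      ((t / 2 : ℝ) : ℂ) * I) := by
    rw [map_add, map_mul, conj_ofReal, conj_ofReal, conj_I]
    push_cast
    ring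
  have e2 : (a : ℂ) + ((σ : ℂ) + t * I) / 2 = ((a + σ / 2 : ℝ) : ℂ) + ((t / 2 : ℝ) : ℂ) * I := by
    push_cast; ring
  rw [e1, e2, Gamma_conj, norm_div, RCLike.norm_conj]
  have hGx := Real.Gamma_pos_of_pos hx
  have hGy := Real.Gamma_pos_of_pos hy
  have hGy2 : 0 < ‖Gamma (((a + σ / 2 : ℝ) : ℂ) + ((t / 2 : ℝ) : ℂ) * I)‖ := by
    rw [norm_pos_iff]
    apply Gamma_ne_zero_of_re_pos
    simp
    linarith
  have h3 := hC σ ⟨h0, h1⟩
  rw [Real.norm_of_nonneg (by positivity)] at h3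
  refine le_trans ?_ (le_max_left C 0)
  refine le_trans ?_ h3
  rw [div_le_div_iff₀ hGy2 hGy]
  linarith

theorem Main2_bound : ∃ K : ℝ, 0 ≤ K ∧ ∀ X σ t : ℝ, 1 ≤ X → 0 < σ → σ ≤ 1 / 4 →
    ‖Main2 X ((σ : ℂ) + t * I)‖ ≤ K * X * (1 / σ) * (√(1 + |t|))⁻¹ := by
  obtain ⟨C1, hC1, hG1⟩ := gamma_ratio (a := 1 / 4) le_rfl
  obtain ⟨C2, hC2, hG2⟩ := gamma_ratio (a := 3 / 4) (by norm_num)
  refine ⟨4 * (C1 + C2) * 3 * 100, by positivity, ?_⟩
  intro X σ t hX hσ hσ1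
  set r : ℂ := (σ : ℂ) + t * I with hr
  have hrre : r.re = σ := by simp [hr]
  have hrim : r.im = t := by simp [hr]
  have hX0 : 0 < X := by linarith
  have ht0 := abs_nonneg t
  have b1 : ‖(π : ℂ) ^ r‖ ≤ 4 := by
    rw [norm_cpow_eq_rpow_re_of_pos Real.pi_pos, hrre]
    calc π ^ σ ≤ π ^ (1 : ℝ) := Real.rpow_le_rpow_of_exponent_le (by linarith [Real.pi_gt_three]) (by linarith)
      _ ≤ 4 := by rw [Real.rpow_one]; exact Real.pi_le_four
  have b2 : ‖(X : ℂ) ^ (1 - r)‖ ≤ X := by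
    rw [norm_cpow_eq_rpow_re_of_pos hX0]
    calc X ^ (1 - r).re ≤ X ^ (1 : ℝ) := Real.rpow_le_rpow_of_exponent_le hX (by simp [hrre]; linarith)
      _ = X := Real.rpow_one X
  have b3 : ‖Ge r + Go r‖ ≤ C1 + C2 := by
    refine (norm_add_le _ _).trans (add_le_add ?_ ?_)
    · have := hG1 σ t hσ.le hσ1
      unfold Ge
      push_cast at this
      exact this
    · have := hG2 σ t hσ.le hσ1
      unfold Go
      push_cast at this
      exact this
  have b4 : ‖riemannZeta (1 - 2 * r)‖ ≤ √(2 * |t| + 1) * (7 * (1 / σ)) := by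
    have h1 : (1 - 2 * r).re = 1 - 2 * σ := by simp [hrre]
    have h2 : (1 - 2 * r).im = -(2 * t) := by simp [hrim]
    have h3 := zeta_bound (s := 1 - 2 * r) (by rw [h1]; linarith) (by rw [h1]; linarith)
    rw [h2, abs_neg, abs_mul, abs_two] at h3
    refine h3.trans ?_
    apply mul_le_mul_of_nonneg_left _ (Real.sqrt_nonneg _)
    have h4 : 2 * σ ≤ ‖1 - 2 * r - 1‖ := by
      have := Complex.abs_re_le_norm (1 - 2 * r - 1)
      have h5 : (1 - 2 * r - 1).re = -(2 * σ) := by simp [hrre]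
      rw [h5, abs_neg, abs_of_pos (by linarith)] at this
      exact this
    have h5 : 1 / ‖1 - 2 * r - 1‖ ≤ 1 / (2 * σ) := one_div_le_one_div_of_le (by linarith) h4
    have h6 : 1 / (2 * σ) = 1 / 2 * (1 / σ) := by field_simp
    have h7 : 4 ≤ 1 / σ := by rw [le_div_iff₀ hσ]; linarith
    linarith
  have b5 : ‖PD (-r) r‖ ≤ ‖riemannZeta 2‖ * 3 := by
    rw [PD_eq (by rw [hrre]; linarith), norm_mul]
    have h1 := muc_LSeries_bound 2 (s := 2 - 2 * r) (by simp [hrre]; linarith)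
    have h2 : (2 - 2 * r).re - 1 = 1 - 2 * σ := by simp [hrre]; ring
    rw [h2] at h1
    have h3 : 1 / (1 - 2 * σ) ≤ 2 := by
      rw [div_le_iff₀ (by linarith)]; linarith
    have h4 : ‖3 * riemannZeta 2 / 4‖ = 3 / 4 * ‖riemannZeta 2‖ := by
      rw [norm_div, norm_mul]; norm_num; ring
    rw [h4]
    have h5 := norm_nonneg (riemannZeta 2)
    nlinarith [norm_nonneg (LSeries (muc 2) (2 - 2 * r))]
  have b6 : (1 + |t|) / 3 ≤ ‖1 - r‖ := by
    have h1 := Complex.abs_re_le_norm (1 - r)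
    have h2 := Complex.abs_im_le_norm (1 - r)
    have h3 : (1 - r).re = 1 - σ := by simp [hrre]
    have h4 : (1 - r).im = -t := by simp [hrim]
    rw [h3, abs_of_pos (by linarith)] at h1
    rw [h4, abs_neg] at h2
    linarith
  have hz2 : 0 < ‖riemannZeta 2‖ := norm_pos_iff.2 (riemannZeta_ne_zero_of_one_lt_re (by norm_num))
  have hs1 : √(2 * |t| + 1) ≤ 2 * √(1 + |t|) := by
    rw [show (2 : ℝ) * √(1 + |t|) = √(4 * (1 + |t|)) by
      rw [Real.sqrt_mul (by norm_num), show (4 : ℝ) = 2 ^ 2 by norm_num, Real.sqrt_sq (by norm_num)]]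
    apply Real.sqrt_le_sqrt
    linarith
  have hs2 : 0 < √(1 + |t|) := Real.sqrt_pos.2 (by linarith)
  have hs3 : √(1 + |t|) * √(1 + |t|) = 1 + |t| := Real.mul_self_sqrt (by linarith)
  unfold Main2
  rw [norm_div, norm_mul, norm_mul, norm_mul, norm_mul, norm_mul, norm_mul]
  have h3n : ‖(3 : ℂ)‖ = 3 := by norm_num
  rw [h3n]
  have hden : 0 < 3 * ((1 + |t|) / 3) * ‖riemannZeta 2‖ := by positivity
  calc ‖(π : ℂ) ^ r‖ * ‖(X : ℂ) ^ (1 - r)‖ * ‖riemannZeta (1 - 2 * r)‖ * ‖Ge r + Go r‖ *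
        ‖PD (-r) r‖ / (3 * ‖1 - r‖ * ‖riemannZeta 2‖)
      ≤ (4 * X * (√(2 * |t| + 1) * (7 * (1 / σ))) * (C1 + C2) * (‖riemannZeta 2‖ * 3)) /
        (3 * ((1 + |t|) / 3) * ‖riemannZeta 2‖) := by
        apply div_le_div₀ (by positivity) _ hden
        · gcongr
        · gcongr
    _ = (84 * X * (1 / σ) * (C1 + C2)) * (√(2 * |t| + 1) / (1 + |t|)) := by
        field_simp
        ring
    _ ≤ (84 * X * (1 / σ) * (C1 + C2)) * (2 * (√(1 + |t|))⁻¹) := by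
        apply mul_le_mul_of_nonneg_left _ (by positivity)
        rw [div_le_iff₀ (by linarith)]
        calc √(2 * |t| + 1) ≤ 2 * √(1 + |t|) := hs1
          _ = 2 * (√(1 + |t|))⁻¹ * (√(1 + |t|) * √(1 + |t|)) := by field_simp
          _ = _ := by rw [hs3]
    _ = 168 * (C1 + C2) * X * (1 / σ) * (√(1 + |t|))⁻¹ := by ring
    _ ≤ _ := by
        have : 0 ≤ (C1 + C2) * X * (1 / σ) * (√(1 + |t|))⁻¹ := by positivity
        nlinarith

end Pool.Agent.Helper368_LD
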