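import Pool.Agent.Helper368_LD.HMellin
import Pool.Agent.Helper368_LD.MainTwo
import Pool.Agent.Helper368_LD.Inst

/-!
# The closed form of the constant in the second main term
-/

set_option autoImplicit false

namespace Pool.Agent.Helper368_LD

open MeasureTheory Set Filter Topology Complex Asymptotics
open scoped Real
open Pool.Agent.H491R3.J (Ge Go)

/-- the function with its limit removed near infinity -/
noncomputable def f1 (v : ℝ) : ℂ := ((hf v : ℝ) : ℂ) - (Ioi (1 : ℝ)).indicator (fun _ => (c0 : ℂ)) v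

theorem f1_locInt : LocallyIntegrableOn f1 (Ioi 0) := by
  unfold f1
  apply LocallyIntegrableOn.sub
  · apply ContinuousOn.locallyIntegrableOn _ measurableSet_Ioi
    exact Complex.continuous_ofReal.comp_continuousOn hf_contOn
  · apply LocallyIntegrable.locallyIntegrableOn
    exact (locallyIntegrable_const (c0 : ℂ)).indicator measurableSet_Ioi

theorem one_add_log_le {δ u : ℝ} (hδ : 0 < δ) (hu : 1 ≤ u) : 1 + Real.log u ≤ (1 + 1 / δ) * u ^ δ := by
  have h1 : 1 ≤ u ^ δ := Real.one_le_rpow hu hδ.le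
  have h2 : Real.log u ≤ u ^ δ / δ := Real.log_le_rpow_div (by linarith) hδ
  have h3 : (1 + 1 / δ) * u ^ δ = u ^ δ + u ^ δ / δ := by ring
  linarith

theorem f1_top {δ : ℝ} (hδ : 0 < δ) : f1 =O[atTop] (fun x : ℝ => x ^ (-(1 / 2 - δ))) := by
  apply IsBigO.of_bound (7 * (1 + 1 / δ))
  filter_upwards [eventually_gt_atTop 1] with u hu
  have hu0 : 0 < u := by linarith
  unfold f1
  rw [indicator_of_mem (show u ∈ Ioi (1 : ℝ) from hu), ← Complex.ofReal_sub, norm_real,
    Real.norm_eq_abs, Real.norm_of_nonneg (Real.rpow_nonneg hu0.le _)]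
  refine (hf_asymp hu.le).trans ?_
  have h1 := one_add_log_le hδ hu.le
  have h2 : u ^ (-(1 / 2 - δ)) = u ^ δ / √u := by
    rw [Real.sqrt_eq_rpow, ← Real.rpow_sub hu0]
    congr 1
    ring
  rw [h2]
  calc 7 * (1 + Real.log u) / √u ≤ 7 * ((1 + 1 / δ) * u ^ δ) / √u := by gcongr
    _ = _ := by ring

theorem f1_bot : f1 =O[𝓝[>] 0] (fun x : ℝ => x ^ (-(-1 / 2 : ℝ))) := by
  apply IsBigO.of_bound 1
  have h1 : ∀ᶠ u : ℝ in 𝓝[>] 0, u < 1 :=
    nhdsWithin_le_nhds (Iio_mem_nhds (by norm_num))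
  filter_upwards [self_mem_nhdsWithin, h1] with u hu hu1
  have hu0 : (0 : ℝ) < u := hu
  unfold f1
  rw [indicator_of_notMem (by simp; linarith), sub_zero, norm_real, Real.norm_eq_abs,
    Real.norm_of_nonneg (Real.rpow_nonneg hu0.le _), one_mul]
  have : (-(-1 / 2 : ℝ)) = 1 / 2 := by ring
  rw [this, ← Real.sqrt_eq_rpow]
  exact hf_abs

theorem f1_conv {s : ℂ} (h1 : -1 / 2 < s.re) (h2 : s.re < 1 / 2) : MellinConvergent f1 s := by
  have hδ : 0 < (1 / 2 - s.re) / 2 := by linarith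
  exact mellinConvergent_of_isBigO_rpow f1_locInt (f1_top hδ) (by linarith) f1_bot (by linarith)

theorem f1_diff {s : ℂ} (h1 : -1 / 2 < s.re) (h2 : s.re < 1 / 2) : DifferentiableAt ℂ (mellin f1) s := by
  have hδ : 0 < (1 / 2 - s.re) / 2 := by linarith
  exact mellin_differentiableAt_of_isBigO_rpow f1_locInt (f1_top hδ) (by linarith) f1_bot (by linarith)

/-- the Mellin transform of the indicator at infinity -/
theorem mellin_ind {s : ℂ} (hs : s.re < 0) (c : ℂ) :
    MellinConvergent ((Ioi (1 : ℝ)).indicator (fun _ => c)) s ∧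
    mellin ((Ioi (1 : ℝ)).indicator (fun _ => c)) s = -c / s := by
  have hs0 : s ≠ 0 := by rintro rfl; simp at hs
  have e1 : ∀ t : ℝ, (t : ℂ) ^ (s - 1) • (Ioi (1 : ℝ)).indicator (fun _ => c) t =
      (Ioi (1 : ℝ)).indicator (fun t : ℝ => (t : ℂ) ^ (s - 1) * c) t := by
    intro t
    by_cases ht : t ∈ Ioi (1 : ℝ)
    · rw [indicator_of_mem ht, indicator_of_mem ht, smul_eq_mul]
    · rw [indicator_of_notMem ht, indicator_of_notMem ht, smul_zero]
  have hint : IntegrableOn (fun t : ℝ => (t : ℂ) ^ (s - 1) * c) (Ioi 1) := by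
    apply Integrable.mul_const
    exact integrableOn_Ioi_cpow_of_lt (by simp; linarith) zero_lt_one
  constructor
  · unfold MellinConvergent
    simp_rw [e1]
    rw [IntegrableOn, integrable_indicator_iff measurableSet_Ioi, IntegrableOn,
      Measure.restrict_restrict measurableSet_Ioi]
    have : Ioi (1 : ℝ) ∩ Ioi 0 = Ioi 1 := by
      rw [Ioi_inter_Ioi]
      norm_num
    rw [this]
    exact hint
  · unfold mellin
    simp_rw [e1]
    rw [setIntegral_indicator measurableSet_Ioi]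
    have : Ioi (0 : ℝ) ∩ Ioi 1 = Ioi 1 := by
      rw [Ioi_inter_Ioi]
      norm_num
    rw [this, integral_mul_const, integral_Ioi_cpow_of_lt (by simp; linarith) zero_lt_one]
    have : s - 1 + 1 = s := by ring
    rw [this]
    simp only [ofReal_one, one_cpow]
    field_simp

theorem mellin_ind2 {s : ℂ} (hs : 0 < s.re) (c : ℂ) :
    MellinConvergent ((Ioc (0 : ℝ) 1).indicator (fun _ => c)) s ∧
    mellin ((Ioc (0 : ℝ) 1).indicator (fun _ => c)) s = c / s := by
  have h := hasMellin_one_Ioc hs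
  have e1 : (Ioc (0 : ℝ) 1).indicator (fun _ => c) =
      fun t => c • (indicator (Ioc 0 1) (fun _ => 1 : ℝ → ℂ)) t := by
    funext t
    by_cases ht : t ∈ Ioc (0 : ℝ) 1
    · rw [indicator_of_mem ht, indicator_of_mem ht]; simp
    · rw [indicator_of_notMem ht, indicator_of_notMem ht]; simp
  rw [e1]
  have h2 := hasMellin_const_smul h.1 c
  refine ⟨h2.1, ?_⟩
  rw [h2.2, h.2, smul_eq_mul]
  ring

theorem mellin_left {s : ℂ} (h1 : -1 / 2 < s.re) (h2 : s.re < 0) :
    mellin (fun v : ℝ => ((hf v : ℝ) : ℂ)) s = mellin f1 s - c0 / s := by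
  have h3 := mellin_ind h2 (c0 : ℂ)
  have h4 := hasMellin_add (f1_conv h1 (by linarith)) h3.1
  have e : (fun v : ℝ => ((hf v : ℝ) : ℂ)) = fun t => f1 t + (Ioi (1 : ℝ)).indicator (fun _ => (c0 : ℂ)) t := by
    funext t
    unfold f1
    ring
  rw [e, h4.2, h3.2]
  ring

theorem mellin_right {s : ℂ} (h1 : 0 < s.re) (h2 : s.re < 1 / 2) :
    MellinConvergent (fun v : ℝ => ((hf v - c0 : ℝ) : ℂ)) s ∧
    mellin (fun v : ℝ => ((hf v - c0 : ℝ) : ℂ)) s = mellin f1 s - c0 / s := by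
  have h3 := mellin_ind2 h1 (c0 : ℂ)
  have h4 := hasMellin_sub (f1_conv (by linarith) h2) h3.1
  have e : ∀ t ∈ Ioi (0 : ℝ), (fun v : ℝ => ((hf v - c0 : ℝ) : ℂ)) t =
      f1 t - (Ioc (0 : ℝ) 1).indicator (fun _ => (c0 : ℂ)) t := by
    intro t ht
    have ht0 : (0 : ℝ) < t := ht
    unfold f1
    by_cases h : t ≤ 1
    · rw [indicator_of_mem (show t ∈ Ioc (0 : ℝ) 1 from ⟨ht0, h⟩), indicator_of_notMem (by simpa using h)]
      push_cast
      ring
    · rw [indicator_of_notMem (show t ∉ Ioc (0 : ℝ) 1 from fun h5 => h h5.2),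
        indicator_of_mem (by simpa using h)]
      push_cast
      ring
  constructor
  · have h5 := h4.1
    unfold MellinConvergent at h5 ⊢
    refine IntegrableOn.congr_fun h5 ?_ measurableSet_Ioi
    intro t ht
    exact congrArg (fun z => (t : ℂ) ^ (s - 1) • z) (e t ht).symm
  · rw [← h3.2, ← h4.2]
    unfold mellin
    apply setIntegral_congr_fun measurableSet_Ioi
    intro t ht
    exact congrArg (fun z => (t : ℂ) ^ (s - 1) • z) (e t ht)

/-- the two sides of the identity theorem -/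
noncomputable def LHS (r : ℂ) : ℂ := (r - 1 / 2) * mellin f1 (1 / 2 - r) + c0

/-- the two sides of the identity theorem -/
noncomputable def RHS (r : ℂ) : ℂ := (1 / π * ((π / 2 : ℝ) : ℂ) ^ (1 - r) *
      (Gamma (r - 1) * sin (π * (r - 1) / 2))) * (zf (2 * r) / 2)

theorem LHS_diff {r : ℂ} (h1 : 0 < r.re) (h2 : r.re < 1) : DifferentiableAt ℂ LHS r := by
  unfold LHS
  have h3 : DifferentiableAt ℂ (mellin f1) (1 / 2 - r) := by
    apply f1_diff
    · simp only [sub_re]; norm_num; linarith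
    · simp only [sub_re]; norm_num; linarith
  have h4 : DifferentiableAt ℂ (fun r : ℂ => 1 / 2 - r) r := by fun_prop
  have h5 : DifferentiableAt ℂ ((mellin f1) ∘ (fun r : ℂ => 1 / 2 - r)) r := h3.comp r h4
  exact ((differentiableAt_id.sub_const _).mul h5).add_const _

theorem RHS_diff {r : ℂ} (h1 : 0 < r.re) (h2 : r.re < 1) : DifferentiableAt ℂ RHS r := by
  unfold RHS
  have h3 : DifferentiableAt ℂ (fun r : ℂ => Gamma (r - 1)) r := by
    have h4 : DifferentiableAt ℂ Gamma (r - 1) := by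
      apply differentiableAt_Gamma
      intro m hm
      have h5 := congrArg Complex.re hm
      simp only [sub_re, one_re, neg_re, natCast_re] at h5
      rcases Nat.eq_zero_or_pos m with h | h
      · rw [h] at h5
        simp at h5
        linarith
      · have : (1 : ℝ) ≤ m := by exact_mod_cast h
        linarith
    exact DifferentiableAt.comp r h4 (by fun_prop)
  have h6 : DifferentiableAt ℂ (fun r : ℂ => zf (2 * r)) r := by
    have h7 : DifferentiableAt ℂ zf (2 * r) := zf_differentiableAt (by simp; exact h1)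
    exact DifferentiableAt.comp r h7 (by fun_prop)
  have h8 : DifferentiableAt ℂ (fun r : ℂ => ((π / 2 : ℝ) : ℂ) ^ (1 - r)) r := by
    have h9 : DifferentiableAt ℂ (fun r : ℂ => (1 : ℂ) - r) r := by fun_prop
    apply h9.const_cpow
    left
    have := Real.pi_pos
    have h10 : (π / 2 : ℝ) ≠ 0 := by positivity
    exact_mod_cast h10
  have h11 : DifferentiableAt ℂ (fun r : ℂ => sin (π * (r - 1) / 2)) r := by fun_prop
  exact (((h8.const_mul _)).mul (h3.mul h11)).mul (h6.div_const 2)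

theorem LHS_eq_RHS_right {r : ℂ} (h1 : 1 / 2 < r.re) (h2 : r.re < 1) : LHS r = RHS r := by
  have h3 : -1 / 2 < (1 / 2 - r).re := by simp only [sub_re]; norm_num; linarith
  have h4 : (1 / 2 - r).re < 0 := by simp only [sub_re]; norm_num; linarith
  have h5 := mellin_left h3 h4
  rw [hf_mellin h3 h4] at h5
  have hne : r - 1 / 2 ≠ 0 := by
    intro h
    have := congrArg Complex.re h
    simp only [sub_re] at this
    norm_num at this
    linarith
  have hne2 : (1 : ℂ) / 2 - r ≠ 0 := by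
    intro h
    apply hne
    linear_combination -h
  have e1 : mellin f1 (1 / 2 - r) = (1 / π * ((π / 2 : ℝ) : ℂ) ^ (1 - r) *
      (Gamma (r - 1) * sin (π * (r - 1) / 2))) * riemannZeta (2 * r) + c0 / (1 / 2 - r) := by
    have a1 : (1 : ℂ) / 2 - r + 1 / 2 = 1 - r := by ring
    have a2 : -((1 : ℂ) / 2 - r + 1 / 2) = r - 1 := by ring
    have a3 : (1 : ℂ) - 2 * (1 / 2 - r) = 2 * r := by ring
    rw [a2, a1, a3] at h5
    rw [h5]
    ring
  have e3 : (c0 : ℂ) / (1 / 2 - r) = -(c0 / (r - 1 / 2)) := by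
    rw [show (1 : ℂ) / 2 - r = -(r - 1 / 2) by ring, div_neg]
  have e4 : (r - 1 / 2) * ((c0 : ℂ) / (r - 1 / 2)) = c0 := mul_div_cancel₀ _ hne
  unfold LHS RHS
  rw [e1, e3]
  have hre : 0 < (2 * r).re := by simp; linarith
  rw [zf_eq hre, if_neg (by
    intro h
    apply hne
    linear_combination h / 2)]
  linear_combination -e4

theorem LHS_eq_RHS {r : ℂ} (h1 : 0 < r.re) (h2 : r.re < 1) : LHS r = RHS r := by
  set U : Set ℂ := {z | 0 < z.re ∧ z.re < 1} with hU
  have hUo : IsOpen U := (isOpen_lt continuous_const Complex.continuous_re).inter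
    (isOpen_lt Complex.continuous_re continuous_const)
  have hUc : IsPreconnected U := by
    apply Convex.isPreconnected
    exact (convex_halfSpace_re_gt 0).inter (convex_halfSpace_re_lt 1)
  have hL : AnalyticOnNhd ℂ LHS U := by
    apply DifferentiableOn.analyticOnNhd _ hUo
    exact fun z hz => (LHS_diff hz.1 hz.2).differentiableWithinAt
  have hR : AnalyticOnNhd ℂ RHS U := by
    apply DifferentiableOn.analyticOnNhd _ hUo
    exact fun z hz => (RHS_diff hz.1 hz.2).differentiableWithinAt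
  have hz0 : ((3 / 4 : ℝ) : ℂ) ∈ U := by
    rw [hU]
    simp only [mem_ofPred_eq, ofReal_re]
    norm_num
  have hev : LHS =ᶠ[𝓝 ((3 / 4 : ℝ) : ℂ)] RHS := by
    have hopen : IsOpen {z : ℂ | 1 / 2 < z.re ∧ z.re < 1} :=
      (isOpen_lt continuous_const Complex.continuous_re).inter
        (isOpen_lt Complex.continuous_re continuous_const)
    filter_upwards [hopen.mem_nhds (by simp only [mem_ofPred_eq, ofReal_re]; norm_num)] with z hz
    exact LHS_eq_RHS_right hz.1 hz.2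
  exact hL.eqOn_of_preconnected_of_eventuallyEq hR hUc hz0 hev ⟨h1, h2⟩

/-- the value of the constant -/
theorem c0_eq : c0 = 1 / 2 := by
  have h := LHS_eq_RHS (r := 1 / 2) (by norm_num) (by norm_num)
  unfold LHS RHS at h
  have hzf : zf (2 * (1 / 2)) = 1 := by
    have e : (2 : ℂ) * (1 / 2) = 1 := by norm_num
    rw [e, zf_eq (by simp), if_pos rfl]
  rw [hzf, sub_self, zero_mul, zero_add] at h
  have hG : Gamma (1 / 2 - 1) = -2 * (√π : ℂ) := by
    have h1 : Gamma ((1 / 2 - 1 : ℂ) + 1) = (1 / 2 - 1) * Gamma (1 / 2 - 1) :=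
      Gamma_add_one _ (by norm_num)
    have e : (1 / 2 - 1 : ℂ) + 1 = 1 / 2 := by norm_num
    rw [e, Gamma_one_half_eq] at h1
    have h2 : ((π : ℂ)) ^ (1 / 2 : ℂ) = (√π : ℂ) := by
      rw [Real.sqrt_eq_rpow, Complex.ofReal_cpow Real.pi_pos.le]
      norm_num
    rw [h2] at h1
    rw [h1]
    ring
  have hS : sin ((π : ℂ) * (1 / 2 - 1) / 2) = -((√2 / 2 : ℝ) : ℂ) := by
    have e : (π : ℂ) * (1 / 2 - 1) / 2 = -((π / 4 : ℝ) : ℂ) := by push_cast; ring
    rw [e, sin_neg, ← Complex.ofReal_sin, Real.sin_pi_div_four]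
  have hP : ((π / 2 : ℝ) : ℂ) ^ (1 - 1 / 2 : ℂ) = ((√π / √2 : ℝ) : ℂ) := by
    have e : (1 - 1 / 2 : ℂ) = ((1 / 2 : ℝ) : ℂ) := by push_cast; norm_num
    rw [e, ← Complex.ofReal_cpow (by have := Real.pi_pos; positivity), ← Real.sqrt_eq_rpow,
      Real.sqrt_div Real.pi_pos.le]
  rw [hG, hS, hP] at h
  have h3 : (c0 : ℂ) = (((1 / π * (√π / √2) * (-2 * √π * -(√2 / 2))) * (1 / 2) : ℝ) : ℂ) := by
    rw [h]
    push_cast
    ring
  have h4 : c0 = (1 / π * (√π / √2) * (-2 * √π * -(√2 / 2))) * (1 / 2) := by exact_mod_cast h3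
  rw [h4]
  have h5 : √π * √π = π := Real.mul_self_sqrt Real.pi_pos.le
  have h6 : √2 ≠ 0 := by positivity
  have hpi : π ≠ 0 := Real.pi_ne_zero
  field_simp
  nlinarith [h5]

/-- the constant in the second main term -/
noncomputable def Cr (r : ℂ) : ℂ := mellin (fun v : ℝ => ((hf v - 1 / 2 : ℝ) : ℂ)) (1 / 2 - r)

theorem gamma_id {r : ℂ} (h1 : 0 < r.re) (h2 : r.re < 1 / 2) :
    Ge r + Go r = 2 ^ (1 + r) * (π : ℂ) ^ (-(1 / 2) : ℂ) * Gamma (1 / 2 - r) * cos (π * r / 2) := by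
  have hpi : (π : ℂ) ≠ 0 := by exact_mod_cast Real.pi_ne_zero
  unfold Ge Go
  -- reflection
  have r1 := Complex.Gamma_mul_Gamma_one_sub (1 / 4 + r / 2)
  have r2 := Complex.Gamma_mul_Gamma_one_sub (3 / 4 + r / 2)
  have a1 : (1 : ℂ) - (1 / 4 + r / 2) = 3 / 4 - r / 2 := by ring
  have a2 : (1 : ℂ) - (3 / 4 + r / 2) = 1 / 4 - r / 2 := by ring
  rw [a1] at r1
  rw [a2] at r2
  have g1 : Gamma (1 / 4 + r / 2) ≠ 0 := Gamma_ne_zero_of_re_pos (by
    simp only [add_re, div_ofNat_re, one_re]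
    linarith)
  have g2 : Gamma (3 / 4 + r / 2) ≠ 0 := Gamma_ne_zero_of_re_pos (by
    simp only [add_re, div_ofNat_re]
    norm_num
    linarith)
  have g3 : Gamma (3 / 4 - r / 2) ≠ 0 := Gamma_ne_zero_of_re_pos (by
    simp only [sub_re, div_ofNat_re]
    norm_num
    linarith)
  have g4 : Gamma (1 / 4 - r / 2) ≠ 0 := Gamma_ne_zero_of_re_pos (by
    simp only [sub_re, div_ofNat_re, one_re]
    linarith)
  have s1 : sin (π * (1 / 4 + r / 2)) ≠ 0 := by
    intro h
    rw [h, div_zero] at r1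
    exact mul_ne_zero g1 g3 r1
  have s2 : sin (π * (3 / 4 + r / 2)) ≠ 0 := by
    intro h
    rw [h, div_zero] at r2
    exact mul_ne_zero g2 g4 r2
  have i1 : Gamma (1 / 4 - r / 2) / Gamma (1 / 4 + r / 2) =
      Gamma (1 / 4 - r / 2) * Gamma (3 / 4 - r / 2) * sin (π * (1 / 4 + r / 2)) / π := by
    rw [div_eq_div_iff g1 hpi]
    have : Gamma (1 / 4 + r / 2) * Gamma (3 / 4 - r / 2) * sin (π * (1 / 4 + r / 2)) = π := by
      rw [r1]
      exact div_mul_cancel₀ _ s1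
    linear_combination -Gamma (1 / 4 - r / 2) * this
  have i2 : Gamma (3 / 4 - r / 2) / Gamma (3 / 4 + r / 2) =
      Gamma (1 / 4 - r / 2) * Gamma (3 / 4 - r / 2) * sin (π * (3 / 4 + r / 2)) / π := by
    rw [div_eq_div_iff g2 hpi]
    have : Gamma (3 / 4 + r / 2) * Gamma (1 / 4 - r / 2) * sin (π * (3 / 4 + r / 2)) = π := by
      rw [r2]
      exact div_mul_cancel₀ _ s2
    linear_combination -Gamma (3 / 4 - r / 2) * this
  rw [i1, i2]
  -- the sum of the sines
  have ss : sin ((π : ℂ) * (1 / 4 + r / 2)) + sin (π * (3 / 4 + r / 2)) =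
      ((√2 : ℝ) : ℂ) * cos (π * r / 2) := by
    have e1 : (π : ℂ) * (1 / 4 + r / 2) = ((π / 4 : ℝ) : ℂ) + π * r / 2 := by push_cast; ring
    have e2 : (π : ℂ) * (3 / 4 + r / 2) = π - (((π / 4 : ℝ) : ℂ) - π * r / 2) := by push_cast; ring
    rw [e1, e2, Complex.sin_pi_sub, Complex.sin_add, Complex.sin_sub, ← Complex.ofReal_sin,
      Real.sin_pi_div_four]
    push_cast
    ring
  -- duplication
  have dd := Complex.Gamma_mul_Gamma_add_half (1 / 4 - r / 2)
  have a3 : (1 : ℂ) / 4 - r / 2 + 1 / 2 = 3 / 4 - r / 2 := by ring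
  have a4 : (2 : ℂ) * (1 / 4 - r / 2) = 1 / 2 - r := by ring
  rw [a3, a4] at dd
  have hsum : Gamma (1 / 4 - r / 2) * Gamma (3 / 4 - r / 2) * sin (π * (1 / 4 + r / 2)) / π +
      Gamma (1 / 4 - r / 2) * Gamma (3 / 4 - r / 2) * sin (π * (3 / 4 + r / 2)) / π =
      Gamma (1 / 4 - r / 2) * Gamma (3 / 4 - r / 2) *
        (sin (π * (1 / 4 + r / 2)) + sin (π * (3 / 4 + r / 2))) / π := by ring
  rw [hsum, ss, dd]
  have hp1 : (2 : ℂ) ^ (1 - (1 / 2 - r)) * ((√2 : ℝ) : ℂ) = 2 ^ (1 + r) := by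
    have : ((√2 : ℝ) : ℂ) = (2 : ℂ) ^ (1 / 2 : ℂ) := by
      rw [Real.sqrt_eq_rpow, Complex.ofReal_cpow (by norm_num)]
      norm_num
    rw [this, ← Complex.cpow_add _ _ (by norm_num)]
    congr 1
    ring
  have hp2 : (π : ℂ) ^ (-(1 / 2) : ℂ) = ((√π : ℝ) : ℂ) / π := by
    have h3 : ((√π : ℝ) : ℂ) = (π : ℂ) ^ (1 / 2 : ℂ) := by
      rw [Real.sqrt_eq_rpow, Complex.ofReal_cpow Real.pi_pos.le]
      norm_num
    have h4 : (-(1 / 2) : ℂ) = 1 / 2 - 1 := by norm_num
    rw [h4, Complex.cpow_sub _ _ hpi, Complex.cpow_one, h3]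
  rw [hp2, ← hp1]
  ring

theorem alg_id {A T G g c C Z s p r : ℂ} (hA : A ≠ 0) (hT : T ≠ 0) (hg : g ≠ 0) (hC : C ≠ 0)
    (hs : s ≠ 0) (hp : p ≠ 0) (hr : 1 - r ≠ 0) :
    1 / p * (p / A * (T / 2)) * (G * -c) * Z =
      A * (2 * (1 / (T ^ 2 * A ^ 2)) * ((r - 1) * G * g / (2 / T ^ 2 * s)) * C * Z) *
        (2 * T * (s / p) * (p / C / g) * c) / (4 * (1 - r)) := by
  field_simp
  ring

/-- **The closed form.** -/
theorem Cr_eq {r : ℂ} (h1 : 0 < r.re) (h2 : r.re < 1 / 2) :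
    Cr r = (π : ℂ) ^ r * riemannZeta (1 - 2 * r) * (Ge r + Go r) / (4 * (1 - r)) := by
  have hpi : (π : ℂ) ≠ 0 := by exact_mod_cast Real.pi_ne_zero
  have h3 : 0 < (1 / 2 - r).re := by simp only [sub_re]; norm_num; linarith
  have h4 : (1 / 2 - r).re < 1 / 2 := by simp only [sub_re]; norm_num; linarith
  have h5 := (mellin_right h3 h4).2
  rw [c0_eq] at h5
  have hne : r - 1 / 2 ≠ 0 := by
    intro h
    have := congrArg Complex.re h
    simp only [sub_re] at this
    norm_num at this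
    linarith
  have hne2 : (1 : ℂ) / 2 - r ≠ 0 := by
    intro h
    apply hne
    linear_combination -h
  have hLR := LHS_eq_RHS h1 (by linarith : r.re < 1)
  unfold LHS RHS at hLR
  rw [c0_eq] at hLR
  have hre : 0 < (2 * r).re := by simp; linarith
  rw [zf_eq hre, if_neg (by
    intro h
    apply hne
    linear_combination h / 2)] at hLR
  have hC : Cr r = (1 / π * ((π / 2 : ℝ) : ℂ) ^ (1 - r) *
      (Gamma (r - 1) * sin (π * (r - 1) / 2))) * riemannZeta (2 * r) := by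
    have e1 : (r - 1 / 2) * Cr r = (r - 1 / 2) * ((1 / π * ((π / 2 : ℝ) : ℂ) ^ (1 - r) *
      (Gamma (r - 1) * sin (π * (r - 1) / 2))) * riemannZeta (2 * r)) := by
      unfold Cr
      rw [h5]
      have e2 : (r - 1 / 2) * (mellin f1 (1 / 2 - r) - ((1 / 2 : ℝ) : ℂ) / (1 / 2 - r)) =
          (r - 1 / 2) * mellin f1 (1 / 2 - r) + ((1 / 2 : ℝ) : ℂ) := by
        have e3 : ((1 / 2 : ℝ) : ℂ) / (1 / 2 - r) = -(((1 / 2 : ℝ) : ℂ) / (r - 1 / 2)) := by
          rw [show (1 : ℂ) / 2 - r = -(r - 1 / 2) by ring, div_neg]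
        have e4 : (r - 1 / 2) * (((1 / 2 : ℝ) : ℂ) / (r - 1 / 2)) = ((1 / 2 : ℝ) : ℂ) :=
          mul_div_cancel₀ _ hne
        rw [e3]
        linear_combination e4
      rw [e2, hLR]
      ring
    exact mul_left_cancel₀ hne e1
  rw [hC, gamma_id h1 h2]
  -- the functional equation
  have hfe := riemannZeta_one_sub (s := 2 * r) (by
    intro n hn
    have := congrArg Complex.re hn
    simp only [neg_re, natCast_re] at this
    have h6 : (0 : ℝ) ≤ n := Nat.cast_nonneg n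
    linarith) (by
    intro h
    apply hne
    linear_combination h / 2)
  rw [hfe]
  have a1 : (π : ℂ) * (2 * r) / 2 = π * r := by ring
  rw [a1]
  -- duplication and reflection
  have dd := Complex.Gamma_mul_Gamma_add_half r
  have rr := Complex.Gamma_mul_Gamma_one_sub (1 / 2 + r)
  have a2 : (1 : ℂ) - (1 / 2 + r) = 1 / 2 - r := by ring
  have a3 : sin ((π : ℂ) * (1 / 2 + r)) = cos (π * r) := by
    have : (π : ℂ) * (1 / 2 + r) = π * r + π / 2 := by ring
    rw [this, Complex.sin_add_pi_div_two]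
  rw [a2, a3] at rr
  have g1 : Gamma (1 / 2 + r) ≠ 0 := Gamma_ne_zero_of_re_pos (by
    simp only [add_re, div_ofNat_re, one_re]
    linarith)
  have g2 : Gamma (1 / 2 - r) ≠ 0 := Gamma_ne_zero_of_re_pos h3
  have hcos : cos ((π : ℂ) * r) ≠ 0 := by
    intro h
    rw [h, div_zero] at rr
    exact mul_ne_zero g1 g2 rr
  have hr1 : (1 : ℂ) - r ≠ 0 := by
    intro h
    have := congrArg Complex.re h
    simp only [sub_re, one_re, zero_re] at this
    linarith
  have hr1' : r - 1 ≠ 0 := by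
    intro h
    apply hr1
    linear_combination -h
  have hG : Gamma r = (r - 1) * Gamma (r - 1) := by
    have := Gamma_add_one (r - 1) hr1'
    rwa [sub_add_cancel] at this
  have hsin : sin ((π : ℂ) * (r - 1) / 2) = -cos (π * r / 2) := by
    have : (π : ℂ) * (r - 1) / 2 = π * r / 2 - π / 2 := by ring
    rw [this, Complex.sin_sub_pi_div_two]
  have k1 : Gamma (2 * r) = Gamma r * Gamma (r + 1 / 2) / (2 ^ (1 - 2 * r) * ((√π : ℝ) : ℂ)) := by
    rw [dd]
    have h6 : (2 : ℂ) ^ (1 - 2 * r) ≠ 0 := by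
      rw [Complex.cpow_def_of_ne_zero (by norm_num)]; exact exp_ne_zero _
    have h7 : ((√π : ℝ) : ℂ) ≠ 0 := by
      have : √π ≠ 0 := by have := Real.pi_pos; positivity
      exact_mod_cast this
    field_simp
  have k2 : Gamma (1 / 2 - r) = π / cos (π * r) / Gamma (1 / 2 + r) := by
    rw [eq_div_iff g1, mul_comm]
    exact rr
  have a4 : r + 1 / 2 = 1 / 2 + r := by ring
  rw [a4] at k1
  rw [k1, k2, hsin, hG]
  -- powers
  have h2c : (2 : ℂ) ≠ 0 := by norm_num
  have p1 : ((π / 2 : ℝ) : ℂ) ^ (1 - r) = ((π : ℂ) / (π : ℂ) ^ r) * ((2 : ℂ) ^ r / 2) := by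
    have e1 : ((π / 2 : ℝ) : ℂ) = ((π : ℝ) : ℂ) * ((1 / 2 : ℝ) : ℂ) := by push_cast; ring
    have e2 : ((1 / 2 : ℝ) : ℂ) ^ (1 - r) = (2 : ℂ) ^ r / 2 := by
      have e3 : ((1 / 2 : ℝ) : ℂ) = ((2 : ℝ) : ℂ)⁻¹ := by push_cast; norm_num
      rw [e3, Complex.inv_cpow _ _ (by
        rw [Complex.arg_ofReal_of_nonneg (by norm_num)]
        exact Real.pi_pos.ne), ← Complex.cpow_neg]
      have e4 : -((1 : ℂ) - r) = r - 1 := by ring
      rw [e4, Complex.cpow_sub _ _ (by norm_num), Complex.cpow_one]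
      norm_num
    rw [e1, Complex.mul_cpow_ofReal_nonneg Real.pi_pos.le (by norm_num), e2,
      Complex.cpow_sub _ _ hpi, Complex.cpow_one]
  have p2 : (2 * (π : ℂ)) ^ (-(2 * r)) = 1 / (((2 : ℂ) ^ r) ^ 2 * ((π : ℂ) ^ r) ^ 2) := by
    have e1 : (2 * (π : ℂ)) = ((2 : ℝ) : ℂ) * ((π : ℝ) : ℂ) := by push_cast; rfl
    rw [e1, Complex.mul_cpow_ofReal_nonneg (by norm_num) Real.pi_pos.le, Complex.cpow_neg,
      Complex.cpow_neg]
    have e2 : ((2 : ℝ) : ℂ) ^ (2 * r) = ((2 : ℂ) ^ r) ^ 2 := by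
      push_cast
      rw [two_mul, Complex.cpow_add _ _ h2c]
      ring
    have e3 : (π : ℂ) ^ (2 * r) = ((π : ℂ) ^ r) ^ 2 := by
      rw [two_mul, Complex.cpow_add _ _ hpi]
      ring
    rw [e2, e3]
    rw [one_div, mul_inv]
  have p3 : (2 : ℂ) ^ (1 + r) = 2 * (2 : ℂ) ^ r := by
    rw [Complex.cpow_add _ _ h2c, Complex.cpow_one]
  have p4 : (π : ℂ) ^ (-(1 / 2) : ℂ) = ((√π : ℝ) : ℂ) / π := by
    have h3 : ((√π : ℝ) : ℂ) = (π : ℂ) ^ (1 / 2 : ℂ) := by
      rw [Real.sqrt_eq_rpow, Complex.ofReal_cpow Real.pi_pos.le]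
      norm_num
    have h4 : (-(1 / 2) : ℂ) = 1 / 2 - 1 := by norm_num
    rw [h4, Complex.cpow_sub _ _ hpi, Complex.cpow_one, h3]
  have p5 : (2 : ℂ) ^ (1 - 2 * r) = 2 / ((2 : ℂ) ^ r) ^ 2 := by
    rw [Complex.cpow_sub _ _ h2c, Complex.cpow_one, two_mul, Complex.cpow_add _ _ h2c]
    ring
  rw [p1, p2, p3, p4, p5]
  have hA : (π : ℂ) ^ r ≠ 0 := by
    rw [Complex.cpow_def_of_ne_zero hpi]; exact exp_ne_zero _
  have hT : (2 : ℂ) ^ r ≠ 0 := by
    rw [Complex.cpow_def_of_ne_zero h2c]; exact exp_ne_zero _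
  have hs : ((√π : ℝ) : ℂ) ≠ 0 := by
    have : √π ≠ 0 := by have := Real.pi_pos; positivity
    exact_mod_cast this
  exact alg_id hA hT g1 hcos hs hpi hr1

end Pool.Agent.Helper368_LD
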