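import Pool.Agent.Helper368_LD.PrimeSide

/-!
# Real Dirichlet characters are Kronecker symbols
-/

set_option autoImplicit false

namespace Pool.Agent.Helper368_LD

open Complex

theorem sq_two_pow (a : ℤ) (ha : (8 : ℤ) ∣ a - 1) (e : ℕ) :
    ∃ x : ℤ, Odd x ∧ (2 : ℤ) ^ (e + 3) ∣ x ^ 2 - a := by
  induction e with
  | zero =>
    refine ⟨1, odd_one, ?_⟩
    have h1 : (1 : ℤ) ^ 2 - a = -(a - 1) := by ring
    rw [h1, dvd_neg]
    norm_num
    exact ha
  | succ e ih =>
    obtain ⟨x, hx, t, ht⟩ := ih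
    rcases Int.even_or_odd t with h | h
    · obtain ⟨s, hs⟩ := h
      refine ⟨x, hx, s, ?_⟩
      rw [ht, hs]
      ring
    · obtain ⟨s, hs⟩ := h.add_odd hx
      refine ⟨x + 2 ^ (e + 2), ?_, s + 2 ^ e, ?_⟩
      · apply hx.add_even
        exact ⟨2 ^ (e + 1), by ring⟩
      · have h1 : (x + 2 ^ (e + 2)) ^ 2 - a = (x ^ 2 - a) + 2 ^ (e + 3) * x + 2 ^ (e + 4) * 2 ^ e := by
          ring
        rw [h1, ht]
        have h2 : (2 : ℤ) ^ (e + 3) * t + 2 ^ (e + 3) * x = 2 ^ (e + 3) * (t + x) := by ring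
        rw [h2, hs]
        ring

theorem sq_odd_pow {p : ℕ} (hp : p.Prime) (hp2 : p ≠ 2) {a : ℤ} (hpa : ¬ (p : ℤ) ∣ a)
    (hx : ∃ x : ℤ, (p : ℤ) ∣ x ^ 2 - a) (e : ℕ) : ∃ x : ℤ, (p : ℤ) ^ (e + 1) ∣ x ^ 2 - a := by
  induction e with
  | zero =>
    obtain ⟨x, hx⟩ := hx
    exact ⟨x, by simpa using hx⟩
  | succ e ih =>
    obtain ⟨x, t, ht⟩ := ih
    have hpp : Prime (p : ℤ) := Nat.prime_iff_prime_int.1 hp
    have hpx : ¬ (p : ℤ) ∣ 2 * x := by
      intro h
      rcases hpp.dvd_or_dvd h with h2 | h2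
      · have h3 : p ∣ 2 := by exact_mod_cast h2
        exact hp2 ((Nat.prime_dvd_prime_iff_eq hp Nat.prime_two).1 h3)
      · apply hpa
        have h3 : (p : ℤ) ∣ x ^ 2 - a := by
          rw [ht, pow_succ]
          exact Dvd.dvd.mul_right (Dvd.intro_left _ rfl) t
        have h4 : (p : ℤ) ∣ x ^ 2 := dvd_pow h2 two_ne_zero
        have h5 := dvd_sub h4 h3
        simpa using h5
    have hcop : IsCoprime (2 * x) (p : ℤ) := by
      have := (hpp.irreducible.coprime_iff_not_dvd).2 hpx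
      exact (isCoprime_comm).1 this
    obtain ⟨u, v, huv⟩ := hcop
    refine ⟨x + p ^ (e + 1) * (-t * u), t * v + p ^ e * (-t * u) ^ 2, ?_⟩
    have h1 : (x + (p : ℤ) ^ (e + 1) * (-t * u)) ^ 2 - a = (x ^ 2 - a) +
        p ^ (e + 1) * (2 * x * (-t * u)) + p ^ (e + 2) * (p ^ e * (-t * u) ^ 2) := by ring
    rw [h1, ht]
    have h2 : (p : ℤ) ^ (e + 1) * t + p ^ (e + 1) * (2 * x * (-t * u)) =
        p ^ (e + 1) * (t * (1 - u * (2 * x))) := by ring
    have h3 : 1 - u * (2 * x) = v * p := by linear_combination (-1 : ℤ) * huv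
    rw [h2, h3]
    ring

theorem sq_modulus (a : ℤ) (ha : (8 : ℤ) ∣ a - 1) (N : ℕ) : N ≠ 0 →
    (∀ q : ℕ, q.Prime → q ∣ N → q ≠ 2 → ¬ (q : ℤ) ∣ a ∧ ∃ x : ℤ, (q : ℤ) ∣ x ^ 2 - a) →
    ∃ x : ℤ, (N : ℤ) ∣ x ^ 2 - a := by
  induction N using Nat.recOnPosPrimePosCoprime with
  | prime_pow p n hp hn =>
    intro _ hq
    by_cases hp2 : p = 2
    · subst hp2
      obtain ⟨x, _, hx⟩ := sq_two_pow a ha n
      refine ⟨x, dvd_trans ?_ hx⟩
      push_cast
      exact pow_dvd_pow 2 (by omega)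
    · obtain ⟨h1, h2⟩ := hq p hp (dvd_pow_self p (by omega)) hp2
      obtain ⟨x, hx⟩ := sq_odd_pow hp hp2 h1 h2 n
      refine ⟨x, dvd_trans ?_ hx⟩
      push_cast
      exact pow_dvd_pow _ (by omega)
  | zero =>
    intro h
    exact absurd rfl h
  | one =>
    intro _ _
    exact ⟨0, by simp⟩
  | coprime u v _ _ huv hu hv =>
    intro h0 hq
    obtain ⟨x1, h1⟩ := hu (left_ne_zero_of_mul h0) (fun q hp hd => hq q hp (hd.mul_right v))
    obtain ⟨x2, h2⟩ := hv (right_ne_zero_of_mul h0) (fun q hp hd => hq q hp (hd.mul_left u))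
    obtain ⟨r, s, hrs⟩ := Nat.isCoprime_iff_coprime.2 huv
    refine ⟨x1 * (s * v) + x2 * (r * u), ?_⟩
    push_cast
    apply IsCoprime.mul_dvd (Nat.isCoprime_iff_coprime.2 huv)
    · obtain ⟨w, hw⟩ := h1
      refine ⟨w + r * (x2 - x1) * (2 * x1 + u * (r * (x2 - x1))), ?_⟩
      have e1 : x1 * (s * v) + x2 * (r * u) = x1 + u * (r * (x2 - x1)) := by
        linear_combination x1 * hrs
      rw [e1]
      linear_combination hw
    · obtain ⟨w, hw⟩ := h2
      refine ⟨w + s * (x1 - x2) * (2 * x2 + v * (s * (x1 - x2))), ?_⟩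
      have e1 : x1 * (s * v) + x2 * (r * u) = x2 + v * (s * (x1 - x2)) := by
        linear_combination x2 * hrs
      rw [e1]
      linear_combination hw

/-- a real character is trivial on integers at which all the basic symbols are trivial -/
theorem real_char_one {N : ℕ} [NeZero N] {ψ : DirichletCharacter ℂ N} (hψ : ψ ^ 2 = 1) {a : ℕ}
    (ha : a.Coprime (8 * N)) (h1 : jacobiSym (-1) a = 1)
    (h2 : ∀ q ∈ (2 * N).primeFactors, jacobiSym (q : ℤ) a = 1) : ψ (a : ZMod N) = 1 := by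
  have haN : a.Coprime N := Nat.Coprime.coprime_mul_left_right ha
  have ha8 : a.Coprime 8 := Nat.Coprime.coprime_mul_right_right ha
  have hodd : Odd a := by
    have : a.Coprime 2 := Nat.Coprime.coprime_dvd_right (by norm_num) ha8
    exact (Nat.coprime_two_right).1 this
  have ho2 := Nat.odd_iff.1 hodd
  have hN0 : N ≠ 0 := NeZero.ne N
  have hmod4 : a % 4 = 1 := by
    rw [jacobiSym.at_neg_one hodd, ZMod.χ₄_nat_eq_if_mod_four] at h1
    rw [if_neg (by omega)] at h1
    by_contra h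
    rw [if_neg h] at h1
    norm_num at h1
  have hmod8 : a % 8 = 1 := by
    have h3 := h2 2 (Nat.mem_primeFactors.2 ⟨Nat.prime_two, dvd_mul_right 2 N, by omega⟩)
    have h4 : jacobiSym 2 a = 1 := by exact_mod_cast h3
    rw [jacobiSym.at_two hodd, ZMod.χ₈_nat_eq_if_mod_eight] at h4
    rw [if_neg (by omega)] at h4
    by_contra h
    rw [if_neg (by omega)] at h4
    norm_num at h4
  obtain ⟨x, hx⟩ := sq_modulus (a : ℤ) (by omega) N hN0 (by
    intro q hq hqN hq2
    have hqa : ¬ (q : ℤ) ∣ (a : ℤ) := by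
      intro h
      have h3 : q ∣ a := by exact_mod_cast h
      have h4 := Nat.dvd_gcd h3 hqN
      rw [haN] at h4
      exact hq.one_lt.ne' (Nat.dvd_one.1 h4)
    refine ⟨hqa, ?_⟩
    have h3 := h2 q (Nat.mem_primeFactors.2 ⟨hq, hqN.mul_left 2, by omega⟩)
    have hqo : Odd q := hq.odd_of_ne_two hq2
    have h4 : jacobiSym (a : ℤ) q = 1 := by
      rw [jacobiSym.quadratic_reciprocity_one_mod_four hmod4 hqo]
      exact h3
    have hfact : Fact q.Prime := ⟨hq⟩
    rw [← jacobiSym.legendreSym.to_jacobiSym] at h4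
    have h5 : ((a : ℤ) : ZMod q) ≠ 0 := by
      intro h
      exact hqa ((ZMod.intCast_zmod_eq_zero_iff_dvd _ _).1 h)
    obtain ⟨y, hy⟩ := (legendreSym.eq_one_iff q h5).1 h4
    refine ⟨(y.val : ℤ), ?_⟩
    rw [← ZMod.intCast_zmod_eq_zero_iff_dvd]
    push_cast
    rw [ZMod.natCast_zmod_val]
    have h6 : ((a : ℤ) : ZMod q) = (a : ZMod q) := by push_cast; rfl
    rw [← h6, hy]
    ring)
  have h3 : (a : ZMod N) = ((x : ℤ) : ZMod N) ^ 2 := by
    have h4 : ((x ^ 2 - (a : ℤ) : ℤ) : ZMod N) = 0 := (ZMod.intCast_zmod_eq_zero_iff_dvd _ _).2 hx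
    push_cast at h4
    exact (sub_eq_zero.1 h4).symm
  have hu : IsUnit (a : ZMod N) := (ZMod.isUnit_iff_coprime a N).2 haN
  have hux : IsUnit ((x : ℤ) : ZMod N) := by
    rw [h3] at hu
    exact (isUnit_pow_iff two_ne_zero).1 hu
  rw [h3, map_pow]
  have h5 : (ψ ^ 2) ((x : ℤ) : ZMod N) = 1 := by
    rw [hψ, MulChar.one_apply hux]
  rwa [MulChar.pow_apply' ψ two_ne_zero] at h5

theorem dvd_two_mul_of_subset {N : ℕ} {P : Finset ℕ} (hP : P ⊆ (2 * N).primeFactors) :
    ∏ q ∈ P, q ∣ 2 * N :=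
  (Finset.prod_dvd_prod_of_subset _ _ _ hP).trans (Nat.prod_primeFactors_dvd _)

theorem squarefree_prod_primes {P : Finset ℕ} (hP : ∀ q ∈ P, q.Prime) :
    Squarefree (∏ q ∈ P, q) := by
  apply Finset.squarefree_prod_of_pairwise_isCoprime
  · intro x hx y hy hxy
    apply Nat.coprime_iff_isRelPrime.1
    exact (Nat.coprime_primes (hP x hx) (hP y hy)).2 hxy
  · intro q hq
    exact (hP q hq).prime.squarefree

/-- the Kronecker symbol of `D` modulo `8 N` -/
noncomputable def kq (N : ℕ) (D : ℤ) : DirichletCharacter ℂ (8 * N) :=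
  if h : D ≠ 0 ∧ 4 * D.natAbs ∣ 8 * N then
    haveI : NeZero (4 * D.natAbs) := ⟨by have := Int.natAbs_ne_zero.2 h.1; omega⟩
    DirichletCharacter.changeLevel h.2 (zchi D)
  else 1

theorem kq_apply {N : ℕ} {D : ℤ} (hD : D ≠ 0) (hdvd : 4 * D.natAbs ∣ 8 * N) {a : ℕ}
    (ha : a.Coprime (8 * N)) : kq N D (a : ZMod (8 * N)) = ((jacobiSym D a : ℤ) : ℂ) := by
  unfold kq
  rw [dif_pos ⟨hD, hdvd⟩]
  have : NeZero (4 * D.natAbs) := ⟨by have := Int.natAbs_ne_zero.2 hD; omega⟩
  have hu : IsUnit (a : ZMod (8 * N)) := (ZMod.isUnit_iff_coprime a (8 * N)).2 ha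
  obtain ⟨u, hu⟩ := hu
  rw [← hu, DirichletCharacter.changeLevel_eq_cast_of_dvd _ hdvd, hu, ZMod.cast_natCast hdvd,
    zchi_natCast]
  have hodd : Odd a := by
    have : a.Coprime 2 := Nat.Coprime.coprime_dvd_right ⟨4 * N, by ring⟩ ha
    exact (Nat.coprime_two_right).1 this
  unfold zro
  rw [if_pos hodd]

theorem jac_prod {P : Finset ℕ} {a : ℕ} : jacobiSym ((∏ q ∈ P, q : ℕ) : ℤ) a =
    ∏ q ∈ P, jacobiSym (q : ℤ) a := by
  induction P using Finset.induction_on with
  | empty => simp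
  | insert q P hq ih =>
    rw [Finset.prod_insert hq, Finset.prod_insert hq]
    push_cast
    rw [jacobiSym.mul_left]
    push_cast at ih
    rw [ih]

/-- **Real Dirichlet characters are Kronecker symbols.** -/
theorem real_char_kronecker {N : ℕ} [NeZero N] {ψ : DirichletCharacter ℂ N} (hψ : ψ ^ 2 = 1)
    (hψ1 : ψ ≠ 1) : ∃ D : ℤ, Squarefree D ∧ D ≠ 1 ∧ 4 * D.natAbs ∣ 8 * N ∧
      ∀ a : ℕ, a.Coprime (8 * N) → ψ (a : ZMod N) = ((jacobiSym D a : ℤ) : ℂ) := by
  have hN0 : N ≠ 0 := NeZero.ne N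
  have : NeZero (8 * N) := ⟨by omega⟩
  set PP := (2 * N).primeFactors with hPP
  have hdvd : N ∣ 8 * N := dvd_mul_left N 8
  set ψQ := DirichletCharacter.changeLevel hdvd ψ with hψQ
  have hψQa : ∀ a : ℕ, a.Coprime (8 * N) → ψQ (a : ZMod (8 * N)) = ψ (a : ZMod N) := by
    intro a ha
    have hu : IsUnit (a : ZMod (8 * N)) := (ZMod.isUnit_iff_coprime a (8 * N)).2 ha
    obtain ⟨u, hu⟩ := hu
    rw [← hu, hψQ, DirichletCharacter.changeLevel_eq_cast_of_dvd _ hdvd, hu, ZMod.cast_natCast hdvd]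
  have hreal : ∀ a : ℕ, a.Coprime (8 * N) → ψ (a : ZMod N) ^ 2 = 1 := by
    intro a ha
    have hu : IsUnit (a : ZMod N) :=
      (ZMod.isUnit_iff_coprime a N).2 (Nat.Coprime.coprime_mul_left_right ha)
    rw [← MulChar.pow_apply' ψ two_ne_zero, hψ, MulChar.one_apply hu]
  have hprime : ∀ P ⊆ PP, ∀ q ∈ P, q.Prime := fun P hP q hq => Nat.prime_of_mem_primeFactors (hP hq)
  have hnz : ∀ P ⊆ PP, ((∏ q ∈ P, q : ℕ) : ℤ) ≠ 0 := by
    intro P hP
    have : ∏ q ∈ P, q ≠ 0 := Finset.prod_ne_zero_iff.2 fun q hq => (hprime P hP q hq).ne_zero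
    exact_mod_cast this
  have hdv1 : ∀ P ⊆ PP, 4 * ((∏ q ∈ P, q : ℕ) : ℤ).natAbs ∣ 8 * N := by
    intro P hP
    rw [Int.natAbs_natCast]
    have h1 := dvd_two_mul_of_subset hP
    have h2 : 8 * N = 4 * (2 * N) := by ring
    rw [h2]
    exact Nat.mul_dvd_mul_left 4 h1
  have hdv2 : ∀ P ⊆ PP, 4 * (-((∏ q ∈ P, q : ℕ) : ℤ)).natAbs ∣ 8 * N := by
    intro P hP
    rw [Int.natAbs_neg]
    exact hdv1 P hP
  -- the sum over the residue classes
  set T : ZMod (8 * N) → ℂ := fun a => ∑ P ∈ PP.powerset,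
    ((ψQ * kq N ((∏ q ∈ P, q : ℕ) : ℤ)) a + (ψQ * kq N (-((∏ q ∈ P, q : ℕ) : ℤ))) a) with hT
  set t : ZMod (8 * N) → ℝ := fun a => if IsUnit a then (1 + (jacobiSym (-1) a.val : ℝ)) *
    ∏ q ∈ PP, (1 + (jacobiSym (q : ℤ) a.val : ℝ)) else 0 with ht
  have hTt : ∀ a, T a = ((t a : ℝ) : ℂ) := by
    intro a
    simp only [hT, ht]
    by_cases hu : IsUnit a
    · rw [if_pos hu]
      have ha : (a.val).Coprime (8 * N) := by
        rw [← ZMod.isUnit_iff_coprime, ZMod.natCast_zmod_val]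
        exact hu
      have hav : ((a.val : ℕ) : ZMod (8 * N)) = a := ZMod.natCast_zmod_val a
      have hodd : Odd a.val := by
        have : (a.val).Coprime 2 := Nat.Coprime.coprime_dvd_right ⟨4 * N, by ring⟩ ha
        exact (Nat.coprime_two_right).1 this
      have e1 : ∀ P ∈ PP.powerset, (ψQ * kq N ((∏ q ∈ P, q : ℕ) : ℤ)) a +
          (ψQ * kq N (-((∏ q ∈ P, q : ℕ) : ℤ))) a = ψ (a.val : ZMod N) *
            ((1 + ((jacobiSym (-1) a.val : ℤ) : ℂ)) * ∏ q ∈ P, ((jacobiSym (q : ℤ) a.val : ℤ) : ℂ)) := by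
        intro P hP
        rw [Finset.mem_powerset] at hP
        rw [MulChar.mul_apply, MulChar.mul_apply]
        have e2 := kq_apply (hnz P hP) (hdv1 P hP) ha
        have e3 := kq_apply (neg_ne_zero.2 (hnz P hP)) (hdv2 P hP) ha
        have e4 := hψQa a.val ha
        rw [hav] at e2 e3 e4
        rw [e2, e3, e4]
        have e5 : -((∏ q ∈ P, q : ℕ) : ℤ) = (-1) * ((∏ q ∈ P, q : ℕ) : ℤ) := by ring
        rw [e5, jacobiSym.mul_left, jac_prod]
        push_cast
        ring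
      rw [Finset.sum_congr rfl e1, ← Finset.mul_sum, ← Finset.mul_sum, ← Finset.prod_one_add]
      by_cases hall : jacobiSym (-1) a.val = 1 ∧ ∀ q ∈ PP, jacobiSym (q : ℤ) a.val = 1
      · rw [real_char_one hψ ha hall.1 hall.2]
        push_cast
        ring
      · have hz : (1 + ((jacobiSym (-1) a.val : ℤ) : ℂ)) *
            ∏ q ∈ PP, (1 + ((jacobiSym (q : ℤ) a.val : ℤ) : ℂ)) = 0 := by
          rw [not_and_or] at hall
          rcases hall with h | h
          · have h1 : jacobiSym (-1) a.val = -1 := by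
              rcases jacobiSym.trichotomy (-1) a.val with h2 | h2 | h2
              · exfalso
                rw [jacobiSym.at_neg_one hodd, ZMod.χ₄_nat_eq_if_mod_four] at h2
                have := Nat.odd_iff.1 hodd
                rw [if_neg (by omega)] at h2
                split_ifs at h2
                norm_num at h2
              · exact absurd h2 h
              · exact h2
            rw [h1]
            push_cast
            ring
          · simp only [not_forall] at h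
            obtain ⟨q, hq, h⟩ := h
            have h1 : jacobiSym (q : ℤ) a.val = -1 := by
              rcases jacobiSym.trichotomy (q : ℤ) a.val with h2 | h2 | h2
              · exfalso
                have : NeZero a.val := ⟨by rintro h; rw [h] at hodd; exact absurd hodd (by decide)⟩
                rw [jacobiSym.eq_zero_iff_not_coprime, Int.gcd_natCast_natCast] at h2
                apply h2
                have hq2 : q ∣ 8 * N := by
                  have h3 := Nat.dvd_of_mem_primeFactors hq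
                  exact h3.trans ⟨4, by ring⟩
                exact (Nat.Coprime.coprime_dvd_right hq2 ha).symm
              · exact absurd h2 h
              · exact h2
            rw [Finset.prod_eq_zero hq]
            · rw [mul_zero]
            · rw [h1]
              push_cast
              ring
        rw [hz, mul_zero]
        have hz' : ((((1 + (jacobiSym (-1) a.val : ℝ)) *
            ∏ q ∈ PP, (1 + (jacobiSym (q : ℤ) a.val : ℝ)) : ℝ)) : ℂ) = 0 := by
          rw [← hz]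
          push_cast
          rfl
        rw [hz']
    · rw [if_neg hu]
      rw [Finset.sum_eq_zero]
      · simp
      · intro P _
        rw [MulChar.map_nonunit _ hu, MulChar.map_nonunit _ hu, add_zero]
  have ht0 : ∀ a, 0 ≤ t a := by
    intro a
    simp only [ht]
    have hj : ∀ s : ℤ, 0 ≤ 1 + (jacobiSym s a.val : ℝ) := by
      intro s
      rcases jacobiSym.trichotomy s a.val with h | h | h <;> rw [h] <;> norm_num
    split_ifs
    · exact mul_nonneg (hj _) (Finset.prod_nonneg fun q _ => hj _)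
    · exact le_rfl
  have ht1 : 0 < t 1 := by
    simp only [ht]
    rw [if_pos isUnit_one]
    have h1 : (1 : ZMod (8 * N)).val = 1 := by
      rw [ZMod.val_one_eq_one_mod]
      apply Nat.mod_eq_of_lt
      have := Nat.pos_of_ne_zero hN0
      omega
    rw [h1]
    simp only [jacobiSym.one_right]
    push_cast
    apply mul_pos (by norm_num)
    exact Finset.prod_pos fun q _ => by norm_num
  have hsum : ∑ a, T a ≠ 0 := by
    rw [Finset.sum_congr rfl (fun a _ => hTt a), ← ofReal_sum]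
    have h1 : 0 < ∑ a, t a := Finset.sum_pos' (fun a _ => ht0 a) ⟨1, Finset.mem_univ _, ht1⟩
    exact_mod_cast h1.ne'
  simp only [hT] at hsum
  rw [Finset.sum_comm] at hsum
  obtain ⟨P, hP, hP2⟩ := Finset.exists_ne_zero_of_sum_ne_zero hsum
  rw [Finset.mem_powerset] at hP
  rw [Finset.sum_add_distrib] at hP2
  -- one of the two is trivial
  have hfin : ∀ D : ℤ, D ≠ 0 → 4 * D.natAbs ∣ 8 * N → Squarefree D →
      ∑ a, (ψQ * kq N D) a ≠ 0 → ∃ D : ℤ, Squarefree D ∧ D ≠ 1 ∧ 4 * D.natAbs ∣ 8 * N ∧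
      ∀ a : ℕ, a.Coprime (8 * N) → ψ (a : ZMod N) = ((jacobiSym D a : ℤ) : ℂ) := by
    intro D hD0 hDd hDs hne
    have h1 : ψQ * kq N D = 1 := by
      by_contra h
      exact hne (MulChar.sum_eq_zero_of_ne_one h)
    have h2 : ∀ a : ℕ, a.Coprime (8 * N) → ψ (a : ZMod N) = ((jacobiSym D a : ℤ) : ℂ) := by
      intro a ha
      have h3 := hψQa a ha
      have h4 := kq_apply hD0 hDd ha
      have h5 : (ψQ * kq N D) (a : ZMod (8 * N)) = 1 := by
        rw [h1, MulChar.one_apply ((ZMod.isUnit_iff_coprime a (8 * N)).2 ha)]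
      rw [MulChar.mul_apply, h3, h4] at h5
      have h6 := hreal a ha
      calc ψ (a : ZMod N) = ψ (a : ZMod N) * (ψ (a : ZMod N) * ((jacobiSym D a : ℤ) : ℂ)) := by
            rw [h5, mul_one]
        _ = ψ (a : ZMod N) ^ 2 * ((jacobiSym D a : ℤ) : ℂ) := by ring
        _ = _ := by rw [h6, one_mul]
    refine ⟨D, hDs, ?_, hDd, h2⟩
    rintro rfl
    apply hψ1
    have h3 : ψQ = 1 := by
      ext u
      have h4 : ((u : ZMod (8 * N)).val).Coprime (8 * N) := ZMod.val_coe_unit_coprime u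
      have h5 : (((u : ZMod (8 * N)).val : ℕ) : ZMod (8 * N)) = u := ZMod.natCast_zmod_val _
      rw [← h5, hψQa _ h4, h2 _ h4, jacobiSym.one_left, h5, MulChar.one_apply_coe]
      simp
    exact (DirichletCharacter.changeLevel_eq_one_iff hdvd).1 h3
  have hsq := squarefree_prod_primes (hprime P hP)
  have hsqi : Squarefree ((∏ q ∈ P, q : ℕ) : ℤ) := Int.squarefree_natCast.2 hsq
  by_cases h1 : ∑ a, (ψQ * kq N ((∏ q ∈ P, q : ℕ) : ℤ)) a = 0
  · rw [h1, zero_add] at hP2
    refine hfin _ (neg_ne_zero.2 (hnz P hP)) (hdv2 P hP) ?_ hP2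
    rw [← Int.squarefree_natAbs, Int.natAbs_neg, Int.squarefree_natAbs]
    exact hsqi
  · exact hfin _ (hnz P hP) (hdv1 P hP) hsqi h1

end Pool.Agent.Helper368_LD
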