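import Pool.Agent.Helper368_LD.NSMean

/-!
# Continuity of the three functions on vertical lines
-/

set_option autoImplicit false

namespace Pool.Agent.Helper368_LD

open Complex Filter Topology MeasureTheory Set
open scoped Real ArithmeticFunction.vonMangoldt
open Pool.Agent.H491R3.J

theorem contAt_line {f : ℂ → ℂ} {σ t : ℝ} (h : ContinuousAt f ((σ : ℂ) + t * I)) :
    ContinuousAt (fun t : ℝ => f ((σ : ℂ) + t * I)) t :=
  ContinuousAt.comp (g := f) (f := fun t : ℝ => ((σ : ℂ) + t * I)) h (by fun_prop)

theorem DS_continuousAt (hG : GRHJ) (X : ℝ) {r : ℂ} (h0 : 0 < r.re) (h1 : r.re < 1 / 2) :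
    ContinuousAt (DS X) r := by
  unfold DS
  apply tendsto_finsetSum
  intro n hn
  rw [Finset.mem_filter, Finset.mem_Icc] at hn
  have hsre : (1 / 2 + r).re = 1 / 2 + r.re := by simp
  have hc : ContinuousAt (fun r : ℂ => 1 / 2 + r) r := by fun_prop
  by_cases hn1 : n = 1
  · have e : LJ n = riemannZeta := by rw [hn1]; exact funext LJ_one
    rw [e]
    have hne : (1 / 2 + r : ℂ) ≠ 1 := by
      intro h
      have := congrArg Complex.re h
      rw [hsre] at this
      simp at this
      linarith
    have han : DifferentiableOn ℂ riemannZeta {1}ᶜ := fun z hz =>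
      (differentiableAt_riemannZeta hz).differentiableWithinAt
    have hopen : IsOpen ({1}ᶜ : Set ℂ) := isOpen_compl_singleton
    have hd : ContinuousAt (deriv riemannZeta) (1 / 2 + r) :=
      ((han.deriv hopen).differentiableAt (hopen.mem_nhds hne)).continuousAt
    have hz : ContinuousAt riemannZeta (1 / 2 + r) := (differentiableAt_riemannZeta hne).continuousAt
    have hq := hd.div hz (zeta_ne_zero_of_GRHJ hG (by rw [hsre]; linarith) (by rw [hsre]; linarith))
    exact ContinuousAt.comp (g := fun s => deriv riemannZeta s / riemannZeta s)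
      (f := fun r : ℂ => 1 / 2 + r) hq hc
  · have hne : NeZero n := ⟨by omega⟩
    have hmem : n ∈ SS X := mem_SS.2 ⟨hn1, hn.1, hn.2⟩
    have hsq := not_isSquare_of_SS hmem
    rw [LJ_fun_eq]
    have hL : Differentiable ℂ (DirichletCharacter.LFunction (jchi n)) :=
      DirichletCharacter.differentiable_LFunction (jchi_ne_one hn.2.1 hsq)
    have hd : ContinuousAt (deriv (DirichletCharacter.LFunction (jchi n))) (1 / 2 + r) :=
      (hL.analyticAt _).deriv.continuousAt
    have hq := hd.div (hL _).continuousAt (jchi_ne_zero hG hn.2.1 hsq (s := 1 / 2 + r)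
      (by rw [hsre]; linarith))
    exact ContinuousAt.comp (g := fun s => deriv (DirichletCharacter.LFunction (jchi n)) s /
      DirichletCharacter.LFunction (jchi n) s) (f := fun r : ℂ => 1 / 2 + r) hq hc

theorem LSeries_contAt {f : ℕ → ℂ} (hf : ∀ s : ℂ, 1 < s.re → LSeriesSummable f s) {z : ℂ}
    (hz : 1 < z.re) : ContinuousAt (LSeries f) z := by
  have h1 : LSeries.abscissaOfAbsConv f ≤ ((1 : ℝ) : EReal) := by
    apply LSeries.abscissaOfAbsConv_le_of_forall_lt_LSeriesSummable
    intro y hy
    exact hf _ (by simpa using hy)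
  have h2 : LSeries.abscissaOfAbsConv f < z.re := lt_of_le_of_lt h1 (by exact_mod_cast hz)
  exact (LSeries_hasDerivAt h2).continuousAt

theorem Main1_continuousAt (X : ℝ) {r : ℂ} (h0 : 0 < r.re) : ContinuousAt (Main1 X) r := by
  have hre : 1 < (1 + 2 * r).re := by simp; linarith
  have h1 : ContinuousAt (LSeries gw) (1 + 2 * r) :=
    LSeries_contAt (fun s hs => summable_of_le_vM gw_norm hs) hre
  have hc : ContinuousAt (fun r : ℂ => 1 + 2 * r) r := by fun_prop
  have h2 : ContinuousAt (fun r : ℂ => 2 * X / (3 * riemannZeta 2) * (-LSeries gw (1 + 2 * r))) r :=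
    continuousAt_const.mul (ContinuousAt.comp (g := LSeries gw) (f := fun r : ℂ => 1 + 2 * r) h1 hc).neg
  apply h2.congr
  have hopen : IsOpen {r : ℂ | 0 < r.re} := isOpen_lt continuous_const Complex.continuous_re
  filter_upwards [hopen.mem_nhds h0] with w hw
  have hw' : 0 < w.re := hw
  unfold Main1
  rw [gw_LSeries (by simp; linarith), neg_neg]

theorem Main2_continuousAt {X : ℝ} (hX : 0 < X) {r : ℂ} (h0 : 0 < r.re) (h1 : r.re < 1 / 2) :
    ContinuousAt (Main2 X) r := by
  have hXc : (X : ℂ) ≠ 0 := by exact_mod_cast hX.ne'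
  have hpi : (π : ℂ) ≠ 0 := by exact_mod_cast Real.pi_ne_zero
  have c1 : ContinuousAt (fun r : ℂ => (π : ℂ) ^ r) r :=
    continuousAt_const_cpow hpi
  have c2 : ContinuousAt (fun r : ℂ => (X : ℂ) ^ (1 - r)) r :=
    ContinuousAt.comp (g := fun w : ℂ => (X : ℂ) ^ w) (f := fun r : ℂ => 1 - r)
      (continuousAt_const_cpow hXc) (by fun_prop)
  have c3 : ContinuousAt (fun r : ℂ => riemannZeta (1 - 2 * r)) r := by
    have hne : (1 - 2 * r : ℂ) ≠ 1 := by
      intro h
      have := congrArg Complex.re h
      simp at this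
      linarith
    exact ContinuousAt.comp (g := riemannZeta) (f := fun r : ℂ => 1 - 2 * r)
      (differentiableAt_riemannZeta hne).continuousAt (by fun_prop)
  have hGam : ∀ s : ℂ, 0 < s.re → ContinuousAt Gamma s := by
    intro s hs
    apply (differentiableAt_Gamma s _).continuousAt
    intro m h
    have := congrArg Complex.re h
    simp at this
    have : (0 : ℝ) ≤ m := Nat.cast_nonneg m
    linarith
  have c4 : ∀ a : ℝ, 1 / 4 ≤ a → ContinuousAt (fun r : ℂ => Gamma ((a : ℂ) - r / 2) /
      Gamma ((a : ℂ) + r / 2)) r := by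
    intro a ha
    have p1 : 0 < ((a : ℂ) - r / 2).re := by
      have : ((a : ℂ) - r / 2).re = a - r.re / 2 := by simp
      rw [this]; linarith
    have p2 : 0 < ((a : ℂ) + r / 2).re := by
      have : ((a : ℂ) + r / 2).re = a + r.re / 2 := by simp
      rw [this]; linarith
    apply ContinuousAt.div
    · exact ContinuousAt.comp (g := Gamma) (f := fun r : ℂ => (a : ℂ) - r / 2) (hGam _ p1) (by fun_prop)
    · exact ContinuousAt.comp (g := Gamma) (f := fun r : ℂ => (a : ℂ) + r / 2) (hGam _ p2) (by fun_prop)
    · exact Gamma_ne_zero_of_re_pos p2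
  have c5 : ContinuousAt (fun r : ℂ => Ge r + Go r) r := by
    have g1 := c4 (1 / 4) le_rfl
    have g2 := c4 (3 / 4) (by norm_num)
    have g3 := g1.add g2
    apply g3.congr
    apply Filter.Eventually.of_forall
    intro w
    simp only
    unfold Ge Go
    push_cast
    rfl
  have c6 : ContinuousAt (fun r : ℂ => PD (-r) r) r := by
    have hre : 1 < (2 - 2 * r).re := by simp; linarith
    have h2 : ContinuousAt (LSeries (muc 2)) (2 - 2 * r) :=
      LSeries_contAt (fun s hs => LSeriesSummable_of_bounded_of_one_lt_re (m := 1)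
        (fun n _ => muc_norm 2 n) hs) hre
    have h3 : ContinuousAt (fun r : ℂ => 3 * riemannZeta 2 / 4 * LSeries (muc 2) (2 - 2 * r)) r :=
      continuousAt_const.mul (ContinuousAt.comp (g := LSeries (muc 2))
        (f := fun r : ℂ => 2 - 2 * r) h2 (by fun_prop))
    apply h3.congr
    have hopen : IsOpen {r : ℂ | r.re < 1 / 2} := isOpen_lt Complex.continuous_re continuous_const
    filter_upwards [hopen.mem_nhds h1] with w hw
    exact (PD_eq hw).symm
  have hden : 3 * (1 - r) * riemannZeta 2 ≠ 0 := by
    apply mul_ne_zero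
    · apply mul_ne_zero (by norm_num)
      intro h
      have := congrArg Complex.re h
      simp at this
      linarith
    · exact riemannZeta_ne_zero_of_one_lt_re (by norm_num)
  have c7 : ContinuousAt (fun r : ℂ => 3 * (1 - r) * riemannZeta 2) r := by fun_prop
  exact ((((c1.mul c2).mul c3).mul c5).mul c6).div c7 hden

/-- the difference in the formula -/
theorem diff_continuous (hG : GRHJ) {X : ℝ} (hX : 0 < X) {σ : ℝ} (h0 : 0 < σ) (h1 : σ < 1 / 2) :
    Continuous (fun t : ℝ => DS X ((σ : ℂ) + t * I) -
      (Main1 X ((σ : ℂ) + t * I) - Main2 X ((σ : ℂ) + t * I))) := by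
  rw [continuous_iff_continuousAt]
  intro t
  have hre : ((σ : ℂ) + t * I).re = σ := by simp
  have a1 := contAt_line (f := DS X) (σ := σ) (t := t) (DS_continuousAt hG X (by rw [hre]; exact h0)
    (by rw [hre]; exact h1))
  have a2 := contAt_line (f := Main1 X) (σ := σ) (t := t) (Main1_continuousAt X (by rw [hre]; exact h0))
  have a3 := contAt_line (f := Main2 X) (σ := σ) (t := t) (Main2_continuousAt hX (by rw [hre]; exact h0)
    (by rw [hre]; exact h1))
  exact a1.sub (a2.sub a3)

end Pool.Agent.Helper368_LD
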