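import Pool.Agent.Helper368_LD.Squares

/-!
# The decomposition of the sum of the logarithmic derivatives
-/

set_option autoImplicit false

namespace Pool.Agent.Helper368_LD

open Complex Filter Topology
open scoped Real ArithmeticFunction.vonMangoldt
open Pool.Agent.H491R3.J

/-- the sum of `L'/L(1/2 + r, χ_n)` over the odd squarefree `n ≤ X` -/
noncomputable def DS (X : ℝ) (r : ℂ) : ℂ :=
  ∑ n ∈ (Finset.Icc 1 ⌊X⌋₊).filter (fun n => Odd n ∧ Squarefree n),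
    deriv (LJ n) (1 / 2 + r) / LJ n (1 / 2 + r)

theorem not_isSquare_of_SS {X : ℝ} {n : ℕ} (hn : n ∈ SS X) : ¬ IsSquare n := by
  rw [mem_SS] at hn
  rintro ⟨a, ha⟩
  have h3 : a = 1 := by
    have h2 := hn.2.2.2 a ⟨1, by rw [ha]; ring⟩
    exact Nat.isUnit_iff.1 h2
  apply hn.1
  rw [ha, h3]

/-- the error of the truncation -/
noncomputable def TE (X P σ t : ℝ) : ℝ :=
  50000 * (32 * Real.log (16 * (X + 1)) + 1) * Real.log (|t| + 5) *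
        ((Real.log (9 * P) + 8 / σ) ^ 4 * P ^ (-σ) / σ)

theorem DS_decomp (hG : GRHJ) {X P σ t : ℝ} (hX : 1 ≤ X) (hP : 1 ≤ P) (hσ : 0 < σ) (hσ1 : σ ≤ 1) :
    ‖DS X ((σ : ℂ) + t * I) - deriv riemannZeta (1 / 2 + ((σ : ℂ) + t * I)) /
        riemannZeta (1 / 2 + ((σ : ℂ) + t * I)) +
      ∑ m ∈ Finset.Icc 1 ⌊P⌋₊, ((Λ m : ℝ) : ℂ) * (m : ℂ) ^ (-(1 / 2 + ((σ : ℂ) + t * I))) *
        AX X m‖ ≤ X * TE X P σ t := by
  set s : ℂ := 1 / 2 + ((σ : ℂ) + t * I) with hs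
  have hs' : ((1 / 2 + σ : ℝ) : ℂ) + t * I = s := by rw [hs]; push_cast; ring
  have hX0 : 0 < X := by linarith
  have h1 : DS X ((σ : ℂ) + t * I) = deriv riemannZeta s / riemannZeta s +
      ∑ n ∈ SS X, deriv (LJ n) s / LJ n s := by
    unfold DS SS
    rw [Finset.sum_erase_eq_sub]
    · have : LJ 1 = riemannZeta := funext LJ_one
      rw [this]
      ring
    · rw [Finset.mem_filter, Finset.mem_Icc]
      exact ⟨⟨le_rfl, Nat.le_floor (by simpa using hX)⟩, odd_one, squarefree_one⟩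
  have h2 : ∑ m ∈ Finset.Icc 1 ⌊P⌋₊, ((Λ m : ℝ) : ℂ) * (m : ℂ) ^ (-s) * AX X m =
      ∑ n ∈ SS X, ∑ m ∈ Finset.Icc 1 ⌊P⌋₊, ((Λ m : ℝ) : ℂ) * (m : ℂ) ^ (-s) *
        ((jacobiSym (m : ℤ) n : ℤ) : ℂ) := by
    unfold AX
    rw [Finset.sum_comm]
    apply Finset.sum_congr rfl
    intro m _
    rw [Finset.mul_sum]
  rw [h1, h2]
  have h3 : deriv riemannZeta s / riemannZeta s + ∑ n ∈ SS X, deriv (LJ n) s / LJ n s -
      deriv riemannZeta s / riemannZeta s + ∑ n ∈ SS X, ∑ m ∈ Finset.Icc 1 ⌊P⌋₊,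
        ((Λ m : ℝ) : ℂ) * (m : ℂ) ^ (-s) * ((jacobiSym (m : ℤ) n : ℤ) : ℂ) =
      ∑ n ∈ SS X, -(-deriv (LJ n) s / LJ n s - ∑ m ∈ Finset.Icc 1 ⌊P⌋₊,
        ((Λ m : ℝ) : ℂ) * (m : ℂ) ^ (-s) * ((jacobiSym (m : ℤ) n : ℤ) : ℂ)) := by
    rw [← sub_eq_zero, add_sub_cancel_left, ← Finset.sum_add_distrib, ← Finset.sum_sub_distrib]
    apply Finset.sum_eq_zero
    intro n _
    ring
  rw [h3]
  have h4 : ∀ n ∈ SS X, ‖-(-deriv (LJ n) s / LJ n s - ∑ m ∈ Finset.Icc 1 ⌊P⌋₊,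
        ((Λ m : ℝ) : ℂ) * (m : ℂ) ^ (-s) * ((jacobiSym (m : ℤ) n : ℤ) : ℂ))‖ ≤ TE X P σ t := by
    intro n hn
    have hnsq := not_isSquare_of_SS hn
    rw [mem_SS] at hn
    have hne : NeZero n := ⟨by omega⟩
    have h5 := trunc_bound (jchi_hyp hG hn.2.2.1 hnsq) t hσ hσ1 hP
    rw [hs'] at h5
    rw [norm_neg]
    have h6 : ∑ m ∈ Finset.Icc 1 ⌊P⌋₊, gch (jchi n) m * (m : ℂ) ^ (-s) =
        ∑ m ∈ Finset.Icc 1 ⌊P⌋₊, ((Λ m : ℝ) : ℂ) * (m : ℂ) ^ (-s) *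
          ((jacobiSym (m : ℤ) n : ℤ) : ℂ) := by
      apply Finset.sum_congr rfl
      intro m _
      unfold gch
      rw [jchi_natCast]
      ring
    rw [h6] at h5
    rw [LJ_fun_eq]
    refine h5.trans ?_
    unfold TE
    have hnX : (n : ℝ) ≤ X := (by exact_mod_cast hn.2.1.2 : (n : ℝ) ≤ (⌊X⌋₊ : ℝ)).trans
      (Nat.floor_le hX0.le)
    have hn0 : (0 : ℝ) ≤ n := Nat.cast_nonneg n
    have hlogt := log_five_le t
    have hPσ : 0 ≤ P ^ (-σ) := Real.rpow_nonneg (by linarith) _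
    have hlP : 0 ≤ Real.log (9 * P) := Real.log_nonneg (by linarith)
    gcongr
  refine (norm_sum_le_of_le _ h4).trans ?_
  rw [Finset.sum_const, nsmul_eq_mul]
  have hTE : 0 ≤ TE X P σ t := by
    unfold TE
    have hlogt := log_five_le t
    have hlX := log_q_le (q := X) hX0.le
    have hlP : 0 ≤ Real.log (9 * P) := Real.log_nonneg (by linarith)
    have hPσ : 0 ≤ P ^ (-σ) := Real.rpow_nonneg (by linarith) _
    positivity
  exact mul_le_mul_of_nonneg_right (card_SS_le hX0.le) hTE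

/-- squares and non-squares -/
theorem split_squares {T : ℝ} (hT : 1 ≤ T) (X : ℝ) (s : ℂ) :
    ∑ m ∈ Finset.Icc 1 ⌊T ^ 2⌋₊, ((Λ m : ℝ) : ℂ) * (m : ℂ) ^ (-s) * AX X m =
      ∑ l ∈ Finset.Icc 1 ⌊T⌋₊, ((Λ l : ℝ) : ℂ) * (l : ℂ) ^ (-(2 * s)) * AX X (l ^ 2) +
      ∑ m ∈ (Finset.Icc 1 ⌊T ^ 2⌋₊).filter (fun m => ¬ IsSquare m),
        ((Λ m : ℝ) : ℂ) * (m : ℂ) ^ (-s) * AX X m := by
  have hT0 : 0 < T := by linarith
  rw [← Finset.sum_filter_add_sum_filter_not (Finset.Icc 1 ⌊T ^ 2⌋₊) (fun m => IsSquare m)]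
  congr 1
  symm
  apply Finset.sum_nbij (fun l => l ^ 2)
  · intro l hl
    rw [Finset.mem_Icc] at hl
    rw [Finset.mem_filter, Finset.mem_Icc]
    refine ⟨⟨Nat.one_le_pow _ _ hl.1, ?_⟩, ⟨l, sq l⟩⟩
    apply Nat.le_floor
    push_cast
    have h1 : (l : ℝ) ≤ T := (by exact_mod_cast hl.2 : (l : ℝ) ≤ (⌊T⌋₊ : ℝ)).trans
      (Nat.floor_le hT0.le)
    gcongr
  · intro a _ b _ hab
    exact Nat.pow_left_injective (by norm_num) hab
  · intro m hm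
    rw [Finset.coe_filter, Set.mem_ofPred_eq, Finset.mem_Icc] at hm
    obtain ⟨l, hl⟩ := hm.2
    refine ⟨l, ?_, ?_⟩
    · rw [Finset.coe_Icc, Set.mem_Icc]
      constructor
      · rcases Nat.eq_zero_or_pos l with h | h
        · rw [h] at hl; omega
        · exact h
      · apply Nat.le_floor
        have h1 : (m : ℝ) ≤ T ^ 2 := (by exact_mod_cast hm.1.2 : (m : ℝ) ≤ (⌊T ^ 2⌋₊ : ℝ)).trans
          (Nat.floor_le (by positivity))
        rw [hl] at h1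
        push_cast at h1
        have h2 : (0 : ℝ) ≤ l := Nat.cast_nonneg l
        nlinarith
    · simp only
      rw [hl]; ring
  · intro l hl
    rw [Finset.mem_Icc] at hl
    have h3 : Λ (l ^ 2) = Λ l := ArithmeticFunction.vonMangoldt_apply_pow two_ne_zero
    rw [h3, natCast_pow_cpow]
    congr 2
    have hl0 : (l : ℂ) ≠ 0 := by exact_mod_cast (by omega : l ≠ 0)
    rw [sq, ← Complex.cpow_add _ _ hl0]
    congr 1
    ring

end Pool.Agent.Helper368_LD
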