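import Pool.Agent.Helper368_LD.RealZero

/-!
# The error term for all positive values of the length
-/

set_option autoImplicit false

namespace Pool.Agent.Helper368_LD

open Complex MeasureTheory Set Filter Topology
open scoped ContDiff Real ArithmeticFunction.vonMangoldt
open Pool.Agent.H491R3.J

/-- the contribution of the zeta function -/
noncomputable def Z1 (r : ℂ) : ℂ := deriv riemannZeta (1 / 2 + r) / riemannZeta (1 / 2 + r)

theorem DS_A1 {X : ℝ} (hX : 1 ≤ X) (r : ℂ) : DS X r = Z1 r + A1 X r := by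
  unfold DS A1 SS
  rw [Finset.sum_erase_eq_sub]
  · have : LJ 1 = riemannZeta := funext LJ_one
    rw [this]
    unfold Z1
    ring
  · rw [Finset.mem_filter, Finset.mem_Icc]
    exact ⟨⟨le_rfl, Nat.le_floor (by simpa using hX)⟩, odd_one, squarefree_one⟩

theorem A1_zero {x : ℝ} (hx : x < 3) (r : ℂ) : A1 x r = 0 := by
  unfold A1
  apply Finset.sum_eq_zero
  intro l hl
  exfalso
  rw [mem_SS] at hl
  have h1 : l < 3 := by
    have h2 : ⌊x⌋₊ < 3 := by
      rw [Nat.floor_lt' (by norm_num)]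
      exact_mod_cast hx
    omega
  have h3 : l = 2 := by omega
  rw [h3] at hl
  exact absurd hl.2.2.1 (by decide)

theorem Z1_bound (hG : GRHJ) {σ : ℝ} (hσ0 : 0 < σ) (hσ1 : σ < 1 / 2) :
    ∃ C : ℝ, 0 ≤ C ∧ ∀ t : ℝ, ‖Z1 ((σ : ℂ) + t * I)‖ ≤ C * (1 + |t|) := by
  have hyp := hyp_zeta (θ := 1 / 2) le_rfl (by norm_num) (fun s h1 h2 => zeta_ne_zero_of_GRHJ hG h1 h2)
  refine ⟨80 / σ ^ 2 * 4 + 1 / (1 / 2 - σ), ?_, ?_⟩
  · have : 0 < 1 / 2 - σ := by linarith
    positivity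
  · intro t
    set s : ℂ := 1 / 2 + ((σ : ℂ) + t * I) with hs
    have hre : s.re = 1 / 2 + σ := by rw [hs]; simp
    have him : s.im = t := by rw [hs]; simp
    have hs1 : s ≠ 1 := by
      intro h
      rw [h] at hre
      simp at hre
      linarith
    have hz : riemannZeta s ≠ 0 := zeta_ne_zero_of_GRHJ hG (by rw [hre]; linarith)
      (by rw [hre]; linarith)
    have h1 := zf_deriv (by rw [hre]; linarith : 0 < s.re) hs1 hz
    have h2 := hyp.hB σ hσ0 (by linarith) s (by rw [hre]) (by rw [hre]; linarith)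
    simp only [norm_neg] at h2
    rw [him] at h2
    have h3 : Z1 ((σ : ℂ) + t * I) = deriv zf s / zf s - 1 / (s - 1) := by
      unfold Z1
      rw [h1]
      ring
    have h4 : ‖1 / (s - 1)‖ ≤ 1 / (1 / 2 - σ) := by
      rw [norm_div, norm_one]
      apply one_div_le_one_div_of_le (by linarith)
      have h5 := Complex.abs_re_le_norm (s - 1)
      have h6 : (s - 1).re = σ - 1 / 2 := by rw [sub_re, hre, one_re]; ring
      rw [h6, abs_of_neg (by linarith)] at h5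
      linarith
    have h7 := log_five_lin t
    have h8 : 0 ≤ |t| := abs_nonneg t
    have h9 : 0 < 1 / (1 / 2 - σ) := by
      have : 0 < 1 / 2 - σ := by linarith
      positivity
    rw [h3]
    calc _ ≤ ‖deriv zf s / zf s‖ + ‖1 / (s - 1)‖ := norm_sub_le _ _
      _ ≤ 80 / σ ^ 2 * (4 * (1 + |t|)) + 1 / (1 / 2 - σ) := by
          apply add_le_add _ h4
          refine h2.trans ?_
          gcongr
      _ ≤ _ := by nlinarith

/-- power saving on a line: hypothesis on the error term -/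
def PowSave (σ δ : ℝ) : Prop := ∃ K C : ℝ, ∀ X t : ℝ, 2 ≤ X →
  ‖DS X ((σ : ℂ) + t * I) - (Main1 X ((σ : ℂ) + t * I) - Main2 X ((σ : ℂ) + t * I))‖ ≤
    K * (1 + |t|) ^ C * X ^ (1 - σ - δ)

theorem err_all (hG : GRHJ) {σ δ : ℝ} (hσ0 : 0 < σ) (hσ1 : σ < 1 / 2) (hδ : 0 < δ)
    (hσδ : σ + δ ≤ 1 / 2) (H : PowSave σ δ) : ∃ (E : ℝ) (n : ℕ), 0 ≤ E ∧ ∀ x t : ℝ, 0 < x →
      ‖A1 x ((σ : ℂ) + t * I) - (Main1 x ((σ : ℂ) + t * I) - Main2 x ((σ : ℂ) + t * I))‖ ≤
        E * (1 + |t|) ^ n * x ^ (1 - σ - δ) := by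
  obtain ⟨K, C, hK⟩ := H
  obtain ⟨CZ, hCZ0, hCZ⟩ := Z1_bound hG hσ0 hσ1
  set n : ℕ := max ⌈C⌉₊ 1 with hn
  set e : ℝ := 1 - σ - δ with he
  have he0 : 1 / 2 ≤ e := by rw [he]; linarith
  have he1 : e ≤ 1 := by rw [he]; linarith
  have hn1 : 1 ≤ n := le_max_right _ _
  set B : ℝ := |K| + CZ with hB
  have hB0 : 0 ≤ B := by positivity
  have hpt : ∀ t : ℝ, 1 ≤ 1 + |t| := fun t => by linarith [abs_nonneg t]
  -- bound of `A1` for `x ≥ 2`
  have big : ∀ x t : ℝ, 2 ≤ x →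
      ‖A1 x ((σ : ℂ) + t * I) - (Main1 x ((σ : ℂ) + t * I) - Main2 x ((σ : ℂ) + t * I))‖ ≤
        B * (1 + |t|) ^ n * x ^ e := by
    intro x t hx
    have h1 := hK x t hx
    have h2 := hCZ t
    rw [DS_A1 (by linarith)] at h1
    set r : ℂ := (σ : ℂ) + t * I with hr
    have hx1 : 1 ≤ x ^ e := Real.one_le_rpow (by linarith) (by linarith)
    have hT : (1 + |t|) ^ C ≤ (1 + |t|) ^ n := by
      rw [← Real.rpow_natCast]
      apply Real.rpow_le_rpow_of_exponent_le (hpt t)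
      refine (Nat.le_ceil C).trans ?_
      exact_mod_cast le_max_left _ _
    have hT1 : 1 + |t| ≤ (1 + |t|) ^ n := by
      calc 1 + |t| = (1 + |t|) ^ 1 := (pow_one _).symm
        _ ≤ _ := pow_le_pow_right₀ (hpt t) hn1
    have hT0 : 0 ≤ (1 + |t|) ^ n := by positivity
    have hx0 : 0 ≤ x ^ e := by linarith
    have e1 : A1 x r - (Main1 x r - Main2 x r) = (Z1 r + A1 x r - (Main1 x r - Main2 x r)) - Z1 r := by
      ring
    rw [e1]
    calc _ ≤ ‖Z1 r + A1 x r - (Main1 x r - Main2 x r)‖ + ‖Z1 r‖ := norm_sub_le _ _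
      _ ≤ K * (1 + |t|) ^ C * x ^ e + CZ * (1 + |t|) := add_le_add h1 h2
      _ ≤ |K| * (1 + |t|) ^ n * x ^ e + CZ * ((1 + |t|) ^ n * x ^ e) := by
          apply add_le_add
          · have h3 : 0 ≤ (1 + |t|) ^ C := Real.rpow_nonneg (by linarith [hpt t]) _
            have h4 : K ≤ |K| := le_abs_self K
            have h5 : 0 ≤ |K| := abs_nonneg K
            calc K * (1 + |t|) ^ C * x ^ e ≤ |K| * (1 + |t|) ^ C * x ^ e := by gcongr
              _ ≤ _ := by gcongr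
          · apply mul_le_mul_of_nonneg_left _ hCZ0
            nlinarith
      _ = _ := by rw [hB]; ring
  -- the coefficients of the main terms
  set c0 : ℝ := 2 ^ (-σ) - (5 / 2) ^ (-σ) with hc0
  have hc00 : 0 < c0 := by
    rw [hc0, sub_pos]
    exact Real.rpow_lt_rpow_of_neg (by norm_num) (by norm_num) (by linarith)
  have small : ∀ t : ℝ, ‖Main1 1 ((σ : ℂ) + t * I)‖ ≤ 3 * B * (1 + 1 / c0) * (1 + |t|) ^ n ∧
      ‖Main2 1 ((σ : ℂ) + t * I)‖ ≤ 3 * B * (1 + 1 / c0) * (1 + |t|) ^ n := by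
    intro t
    set r : ℂ := (σ : ℂ) + t * I with hr
    have hrre : r.re = σ := by rw [hr]; simp
    set α := Main1 1 r with hα
    set β := Main2 1 r with hβ
    set T : ℝ := (1 + |t|) ^ n with hT
    have hT0 : 0 ≤ T := by positivity
    have u1 := big 2 t le_rfl
    have u2 := big (5 / 2) t (by norm_num)
    rw [A1_zero (by norm_num), zero_sub, norm_neg, Main1_lin, Main2_lin] at u1 u2
    rw [← hr, ← hα, ← hβ] at u1 u2
    have v1 : (2 : ℝ) ^ e ≤ 3 := by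
      calc (2 : ℝ) ^ e ≤ 2 ^ (1 : ℝ) := Real.rpow_le_rpow_of_exponent_le (by norm_num) he1
        _ ≤ 3 := by norm_num
    have v2 : (5 / 2 : ℝ) ^ e ≤ 3 := by
      calc (5 / 2 : ℝ) ^ e ≤ (5 / 2) ^ (1 : ℝ) := Real.rpow_le_rpow_of_exponent_le (by norm_num) he1
        _ ≤ 3 := by norm_num
    have w1 : ‖((2 : ℝ) : ℂ) * α - ((2 : ℝ) : ℂ) ^ (1 - r) * β‖ ≤ 3 * B * T := by
      refine u1.trans ?_
      have : 0 ≤ B * T := by positivity
      nlinarith
    have w2 : ‖((5 / 2 : ℝ) : ℂ) * α - ((5 / 2 : ℝ) : ℂ) ^ (1 - r) * β‖ ≤ 3 * B * T := by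
      refine u2.trans ?_
      have : 0 ≤ B * T := by positivity
      nlinarith
    have h2c : (((2 : ℝ) : ℝ) : ℂ) ≠ 0 := by norm_num
    have h5c : (((5 / 2 : ℝ)) : ℂ) ≠ 0 := by norm_num
    have e2 : ((2 : ℝ) : ℂ) ^ (1 - r) = ((2 : ℝ) : ℂ) * ((2 : ℝ) : ℂ) ^ (-r) := by
      rw [sub_eq_add_neg, Complex.cpow_add _ _ h2c, Complex.cpow_one]
    have e5 : ((5 / 2 : ℝ) : ℂ) ^ (1 - r) = ((5 / 2 : ℝ) : ℂ) * ((5 / 2 : ℝ) : ℂ) ^ (-r) := by
      rw [sub_eq_add_neg, Complex.cpow_add _ _ h5c, Complex.cpow_one]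
    have n2 : ‖((2 : ℝ) : ℂ) ^ (-r)‖ = 2 ^ (-σ) := by
      rw [norm_cpow_eq_rpow_re_of_pos (by norm_num)]
      rw [neg_re, hrre]
    have n5 : ‖((5 / 2 : ℝ) : ℂ) ^ (-r)‖ = (5 / 2) ^ (-σ) := by
      rw [norm_cpow_eq_rpow_re_of_pos (by norm_num)]
      rw [neg_re, hrre]
    set p := ((2 : ℝ) : ℂ) ^ (-r) with hp
    set q := ((5 / 2 : ℝ) : ℂ) ^ (-r) with hq
    rw [e2] at w1
    rw [e5] at w2
    have hpq : c0 ≤ ‖q - p‖ := by
      have := norm_sub_norm_le p q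
      rw [n2, n5, norm_sub_rev] at this
      exact this
    have key : ((5 / 2 : ℝ) : ℂ) * (q - p) * β = ((5 / 4 : ℝ) : ℂ) * (((2 : ℝ) : ℂ) * α -
        ((2 : ℝ) : ℂ) * p * β) - (((5 / 2 : ℝ) : ℂ) * α - ((5 / 2 : ℝ) : ℂ) * q * β) := by
      push_cast
      ring
    have k1 : 5 / 2 * ‖q - p‖ * ‖β‖ ≤ 5 / 4 * (3 * B * T) + 3 * B * T := by
      have h1 : ‖((5 / 2 : ℝ) : ℂ) * (q - p) * β‖ = 5 / 2 * ‖q - p‖ * ‖β‖ := by
        rw [norm_mul, norm_mul, norm_real]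
        norm_num
      rw [← h1, key]
      refine (norm_sub_le _ _).trans (add_le_add ?_ w2)
      rw [norm_mul, norm_real]
      have : ‖(5 / 4 : ℝ)‖ = 5 / 4 := by norm_num
      rw [this]
      exact mul_le_mul_of_nonneg_left w1 (by norm_num)
    have hβb : ‖β‖ ≤ 3 * B * T / c0 := by
      rw [le_div_iff₀ hc00]
      have h1 : c0 * ‖β‖ ≤ ‖q - p‖ * ‖β‖ := mul_le_mul_of_nonneg_right hpq (norm_nonneg _)
      nlinarith
    have hp1 : ‖p‖ ≤ 1 := by
      rw [n2]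
      exact Real.rpow_le_one_of_one_le_of_nonpos (by norm_num) (by linarith)
    have hαb : ‖α‖ ≤ 3 * B * T + 3 * B * T / c0 := by
      have h1 : α = (1 / 2 : ℂ) * (((2 : ℝ) : ℂ) * α - ((2 : ℝ) : ℂ) * p * β) + p * β := by
        push_cast
        ring
      rw [h1]
      refine (norm_add_le _ _).trans (add_le_add ?_ ?_)
      · rw [norm_mul]
        have h2 : ‖(1 / 2 : ℂ)‖ = 1 / 2 := by norm_num
        rw [h2]
        have : 0 ≤ B * T := by positivity
        linarith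
      · rw [norm_mul]
        have h3 := norm_nonneg β
        nlinarith [norm_nonneg p]
    have hBT : 0 ≤ 3 * B * T := by positivity
    constructor
    · refine hαb.trans (le_of_eq ?_)
      field_simp
    · refine hβb.trans ?_
      have : 3 * B * (1 + 1 / c0) * T = 3 * B * T + 3 * B * T / c0 := by field_simp
      rw [this]
      linarith
  refine ⟨B + 12 * B * (1 + 1 / c0), n, by positivity, ?_⟩
  intro x t hx
  have hT0 : 0 ≤ (1 + |t|) ^ n := by positivity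
  have hxe : 0 ≤ x ^ e := Real.rpow_nonneg hx.le _
  rcases le_or_gt 2 x with h2 | h2
  · refine (big x t h2).trans ?_
    have : 0 ≤ 12 * B * (1 + 1 / c0) := by positivity
    gcongr
    linarith
  · obtain ⟨s1, s2⟩ := small t
    set r : ℂ := (σ : ℂ) + t * I with hr
    have hrre : r.re = σ := by rw [hr]; simp
    rw [A1_zero (by linarith), zero_sub, norm_neg, Main1_lin, Main2_lin]
    have hx1 : x ≤ 2 * x ^ e := by
      have h3 : x = x ^ e * x ^ (1 - e) := by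
        rw [← Real.rpow_add hx]
        have : e + (1 - e) = 1 := by ring
        rw [this, Real.rpow_one]
      have h4 : x ^ (1 - e) ≤ 2 := by
        calc x ^ (1 - e) ≤ 2 ^ (1 - e) := Real.rpow_le_rpow hx.le h2.le (by linarith)
          _ ≤ 2 ^ (1 : ℝ) := Real.rpow_le_rpow_of_exponent_le (by norm_num) (by linarith)
          _ = 2 := Real.rpow_one 2
      calc x = x ^ e * x ^ (1 - e) := h3
        _ ≤ x ^ e * 2 := by gcongr
        _ = _ := by ring
    have hx2 : x ^ (1 - σ) ≤ 2 * x ^ e := by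
      have h3 : x ^ (1 - σ) = x ^ e * x ^ δ := by
        rw [← Real.rpow_add hx]
        congr 1
        rw [he]; ring
      have h4 : x ^ δ ≤ 2 := by
        calc x ^ δ ≤ 2 ^ δ := Real.rpow_le_rpow hx.le h2.le hδ.le
          _ ≤ 2 ^ (1 : ℝ) := Real.rpow_le_rpow_of_exponent_le (by norm_num) (by linarith)
          _ = 2 := Real.rpow_one 2
      rw [h3]
      calc x ^ e * x ^ δ ≤ x ^ e * 2 := by gcongr
        _ = _ := by ring
    have hn2 : ‖(x : ℂ) ^ (1 - r)‖ = x ^ (1 - σ) := by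
      rw [norm_cpow_eq_rpow_re_of_pos hx]
      congr 1
      rw [sub_re, one_re, hrre]
    set W : ℝ := 3 * B * (1 + 1 / c0) * (1 + |t|) ^ n with hW
    have hW0 : 0 ≤ W := by positivity
    calc ‖(x : ℂ) * Main1 1 r - (x : ℂ) ^ (1 - r) * Main2 1 r‖
        ≤ ‖(x : ℂ) * Main1 1 r‖ + ‖(x : ℂ) ^ (1 - r) * Main2 1 r‖ := norm_sub_le _ _
      _ = x * ‖Main1 1 r‖ + x ^ (1 - σ) * ‖Main2 1 r‖ := by
          rw [norm_mul, norm_mul, hn2, norm_real, Real.norm_of_nonneg hx.le]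
      _ ≤ (2 * x ^ e) * W + (2 * x ^ e) * W := by gcongr
      _ = 12 * B * (1 + 1 / c0) * (1 + |t|) ^ n * x ^ e := by rw [hW]; ring
      _ ≤ _ := by
          have : 0 ≤ B * (1 + |t|) ^ n * x ^ e := by positivity
          nlinarith

/-- **Power saving implies a zero free half plane for all real characters.** -/
theorem realHyp_of_powSave (hG : GRHJ) {σ δ : ℝ} (hσ0 : 0 < σ) (hσ1 : σ < 1 / 2) (hδ : 0 < δ)
    (hσδ : σ + δ ≤ 1 / 2) (H : PowSave σ δ) : RealHyp (1 - δ) := by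
  obtain ⟨E, n, hE0, hE⟩ := err_all hG hσ0 hσ1 hδ hσδ H
  have h1 := realHyp_of_error hG hσ0 (by linarith) hE0 (by linarith : 1 / 2 ≤ 1 - σ - δ) hE
  have h2 : σ + (1 - σ - δ) = 1 - δ := by ring
  rwa [h2] at h1

end Pool.Agent.Helper368_LD
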