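import Pool.Agent.Helper368_LD.MeanSq

/-!
# The mean square of the non-square part: final bound
-/

set_option autoImplicit false

namespace Pool.Agent.Helper368_LD

open Complex Filter Topology MeasureTheory Set
open scoped Real ArithmeticFunction.vonMangoldt
open Pool.Agent.H491R3.J
open Pool.Agent.TH705.DL (ph DP)

theorem logX_ge {X : ℝ} (hX : 2 ≤ X) : 0.69 ≤ Real.log X := by
  have h1 : Real.log 2 ≤ Real.log X := Real.log_le_log (by norm_num) hX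
  have h2 := Real.log_two_gt_d9
  linarith

theorem log_eighteen : Real.log 18 ≤ 3 := by
  rw [Real.log_le_iff_le_exp (by norm_num)]
  have h5 : Real.exp 3 = Real.exp 1 * Real.exp 1 * Real.exp 1 := by
    rw [← Real.exp_add, ← Real.exp_add]; norm_num
  have h6 := Real.exp_one_gt_d9
  have h7 : (2.7 : ℝ) * 2.7 ≤ Real.exp 1 * Real.exp 1 := by nlinarith
  nlinarith

theorem log_twenty : Real.log 20 ≤ 3 := by
  rw [Real.log_le_iff_le_exp (by norm_num)]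
  have h5 : Real.exp 3 = Real.exp 1 * Real.exp 1 * Real.exp 1 := by
    rw [← Real.exp_add, ← Real.exp_add]; norm_num
  have h6 := Real.exp_one_gt_d9
  have h7 : (2.718 : ℝ) * 2.718 ≤ Real.exp 1 * Real.exp 1 := by nlinarith
  rw [h5]
  nlinarith

theorem log_cX {X u c : ℝ} (hX : 2 ≤ X) (hu : 1 ≤ u) (huX : u ≤ X ^ 2) (hc : 1 ≤ c)
    (hc2 : c ≤ 8) : 1 + Real.log (c * u) ≤ 7 * Real.log X := by
  have hL := logX_ge hX
  have h1 : Real.log (c * u) ≤ Real.log (8 * X ^ 2) := by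
    apply Real.log_le_log (by positivity)
    have : 0 ≤ u := by linarith
    nlinarith [mul_le_mul hc2 huX this (by norm_num)]
  have h2 : Real.log (8 * X ^ 2) = 3 * Real.log 2 + 2 * Real.log X := by
    rw [Real.log_mul (by norm_num) (by positivity), Real.log_pow,
      show (8 : ℝ) = 2 ^ 3 by norm_num, Real.log_pow]
    push_cast
    ring
  have h3 : Real.log 2 ≤ Real.log X := Real.log_le_log (by norm_num) hX
  linarith

theorem log_18u {X u : ℝ} (hX : 2 ≤ X) (hu : 1 ≤ u) (huX : u ≤ X ^ 2) :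
    Real.log (18 * u) ≤ 7 * Real.log X := by
  have hL := logX_ge hX
  have h1 : Real.log (18 * u) ≤ Real.log (18 * X ^ 2) := by
    apply Real.log_le_log (by positivity)
    linarith
  have h2 : Real.log (18 * X ^ 2) = Real.log 18 + 2 * Real.log X := by
    rw [Real.log_mul (by norm_num) (by positivity), Real.log_pow]
    push_cast
    ring
  have h3 := log_eighteen
  linarith

theorem log_16X {X : ℝ} (hX : 2 ≤ X) : Real.log (16 * (X ^ 2 + 1)) ≤ 7 * Real.log X := by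
  have hL := logX_ge hX
  have h1 : Real.log (16 * (X ^ 2 + 1)) ≤ Real.log (20 * X ^ 2) := by
    apply Real.log_le_log (by positivity)
    nlinarith
  have h2 : Real.log (20 * X ^ 2) = Real.log 20 + 2 * Real.log X := by
    rw [Real.log_mul (by norm_num) (by positivity), Real.log_pow]
    push_cast
    ring
  have h3 := log_twenty
  linarith

theorem blocks_card {X T : ℝ} (hX : 2 ≤ X) (hT : 1 ≤ T) (hTX : T ≤ X) :
    ((Nat.log 2 ⌊T ^ 2⌋₊ + 1 : ℕ) : ℝ) ≤ 7 * Real.log X := by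
  have hL := logX_ge hX
  have hT2 : 1 ≤ T ^ 2 := by nlinarith
  have hP : ⌊T ^ 2⌋₊ ≠ 0 := by
    have : 1 ≤ ⌊T ^ 2⌋₊ := Nat.le_floor (by simpa using hT2)
    omega
  have h1 := Nat.pow_log_le_self 2 hP
  have h2 : (2 : ℝ) ^ (Nat.log 2 ⌊T ^ 2⌋₊) ≤ X ^ 2 := by
    calc (2 : ℝ) ^ (Nat.log 2 ⌊T ^ 2⌋₊) ≤ (⌊T ^ 2⌋₊ : ℝ) := by exact_mod_cast h1
      _ ≤ T ^ 2 := Nat.floor_le (by positivity)
      _ ≤ X ^ 2 := by gcongr
  have h3 := Real.log_le_log (by positivity) h2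
  rw [Real.log_pow, Real.log_pow] at h3
  have h4 := Real.log_two_gt_d9
  push_cast at h3 ⊢
  have h5 : (0 : ℝ) ≤ (Nat.log 2 ⌊T ^ 2⌋₊ : ℝ) := Nat.cast_nonneg _
  nlinarith

theorem block_final {X T σ : ℝ} (hG : GRHJ) (hX : 2 ≤ X) (hT : 1 ≤ T) (hTX : T ≤ X) (hσ : 0 < σ)
    (hσ1 : σ ≤ 1 / 4) {j : ℕ} (hj : (2 : ℝ) ^ j ≤ T ^ 2) :
    (2 * T + 8 * 2 ^ j * (1 + Real.log (2 * 2 ^ j))) *
      ∑ m ∈ (Finset.Icc 1 ⌊T ^ 2⌋₊).filter (fun m => Nat.log 2 m = j), ‖cf X σ m‖ ^ 2 ≤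
      10 ^ 8 * (7 * Real.log X) ^ 7 * (X ^ 2 * T ^ (1 - 4 * σ)) := by
  set ℓ : ℝ := 7 * Real.log X with hℓ
  have hL := logX_ge hX
  have hℓ1 : 1 ≤ ℓ := by rw [hℓ]; linarith
  set q : ℝ := (2 : ℝ) ^ j with hq
  have hq0 : 0 < q := by positivity
  have hq1 : 1 ≤ q := one_le_pow₀ (by norm_num)
  have hT0 : 0 < T := by linarith
  have hX0 : 0 < X := by linarith
  have hqX : q ≤ X ^ 2 := hj.trans (by gcongr)
  have l1 : 1 + Real.log (2 * q) ≤ ℓ := log_cX hX hq1 hqX (by norm_num) (by norm_num)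
  have l2 : 1 + Real.log (8 * q) ≤ ℓ := log_cX hX hq1 hqX (by norm_num) (by norm_num)
  have l3 : Real.log (18 * q) ≤ ℓ := log_18u hX hq1 hqX
  have l4 : Real.log (16 * (X ^ 2 + 1)) ≤ ℓ := log_16X hX
  have l5 : 0 ≤ Real.log (2 * q) := Real.log_nonneg (by linarith)
  have l6 : 0 ≤ Real.log (8 * q) := Real.log_nonneg (by linarith)
  have l7 : 0 ≤ Real.log (18 * q) := Real.log_nonneg (by linarith)
  have hTp : 0 < T ^ (1 - 4 * σ) := Real.rpow_pos_of_pos hT0 _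
  set E := ∑ m ∈ (Finset.Icc 1 ⌊T ^ 2⌋₊).filter (fun m => Nat.log 2 m = j), ‖cf X σ m‖ ^ 2 with hE
  have hE0 : 0 ≤ E := Finset.sum_nonneg fun m _ => by positivity
  have hM0 : 0 < X ^ 2 * T ^ (1 - 4 * σ) := by positivity
  rcases le_or_gt q T with hqT | hqT
  · have h1 := block_one (X := X) (by linarith) hσ ⌊T ^ 2⌋₊ j
    rw [← hE, ← hq] at h1
    have h2 : q ^ (1 / 2 - 2 * σ) ≤ T ^ (1 / 2 - 2 * σ) :=
      Real.rpow_le_rpow hq0.le hqT (by linarith)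
    have h3 : T * T ^ (1 / 2 - 2 * σ) ≤ X * T ^ (1 - 4 * σ) := by
      have h4 : T * T ^ (1 / 2 - 2 * σ) = T ^ (1 / 2 + 2 * σ) * T ^ (1 - 4 * σ) := by
        nth_rewrite 1 [← Real.rpow_one T]
        rw [← Real.rpow_add hT0, ← Real.rpow_add hT0]
        congr 1
        ring
      rw [h4]
      apply mul_le_mul_of_nonneg_right _ hTp.le
      calc T ^ (1 / 2 + 2 * σ) ≤ T ^ (1 : ℝ) := Real.rpow_le_rpow_of_exponent_le hT (by linarith)
        _ = T := Real.rpow_one T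
        _ ≤ X := hTX
    have h5 : E ≤ ℓ * ℓ * (2304 * X * T ^ (1 / 2 - 2 * σ)) := by
      refine h1.trans ?_
      have : 0 ≤ q ^ (1 / 2 - 2 * σ) := Real.rpow_nonneg hq0.le _
      have : Real.log (2 * q) ≤ ℓ := by linarith
      gcongr
    have h6 : 2 * T + 8 * q * (1 + Real.log (2 * q)) ≤ 10 * T * ℓ := by
      have : 8 * q * (1 + Real.log (2 * q)) ≤ 8 * T * ℓ := by gcongr
      nlinarith
    calc _ ≤ (10 * T * ℓ) * (ℓ * ℓ * (2304 * X * T ^ (1 / 2 - 2 * σ))) := by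
          apply mul_le_mul h6 h5 hE0 (by positivity)
      _ = 23040 * ℓ ^ 3 * X * (T * T ^ (1 / 2 - 2 * σ)) := by ring
      _ ≤ 23040 * ℓ ^ 3 * X * (X * T ^ (1 - 4 * σ)) := by gcongr
      _ = 23040 * ℓ ^ 3 * (X ^ 2 * T ^ (1 - 4 * σ)) := by ring
      _ ≤ 10 ^ 8 * ℓ ^ 7 * (X ^ 2 * T ^ (1 - 4 * σ)) := by
          apply mul_le_mul_of_nonneg_right _ hM0.le
          have : ℓ ^ 3 ≤ ℓ ^ 7 := pow_le_pow_right₀ hℓ1 (by norm_num)
          have : 0 ≤ ℓ ^ 3 := by positivity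
          nlinarith
  · have hj1 : 1 ≤ j := by
      rcases Nat.eq_zero_or_pos j with h | h
      · rw [hq, h, pow_zero] at hqT
        linarith
      · exact h
    have h1 := block_two (X := X) hG (by linarith) hσ ⌊T ^ 2⌋₊ hj1
    rw [← hE, ← hq] at h1
    have hs0 : 0 ≤ √q := Real.sqrt_nonneg _
    have hqp : 0 ≤ q ^ (-(1 + 2 * σ)) := Real.rpow_nonneg hq0.le _
    have h2 : E ≤ ℓ * q ^ (-(1 + 2 * σ)) * (12 * q * X + X ^ 2 * (60000 * (33 * ℓ) * (√q * ℓ ^ 4))) := by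
      refine h1.trans ?_
      have hl2 : Real.log (2 * q) ≤ ℓ := by linarith
      have h33 : 32 * Real.log (16 * (X ^ 2 + 1)) + 1 ≤ 33 * ℓ := by linarith
      have h33' : 0 ≤ 32 * Real.log (16 * (X ^ 2 + 1)) + 1 := by
        have := log_q_le (q := X ^ 2) (by positivity)
        linarith
      generalize 32 * Real.log (16 * (X ^ 2 + 1)) + 1 = B16 at h33 h33' ⊢
      generalize Real.log (18 * q) = l18 at l3 l7 ⊢
      generalize Real.log (2 * q) = l2q at hl2 l5 ⊢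
      gcongr
    have h6 : 2 * T + 8 * q * (1 + Real.log (2 * q)) ≤ 10 * q * ℓ := by
      have : 8 * q * (1 + Real.log (2 * q)) ≤ 8 * q * ℓ := by gcongr
      nlinarith
    have e1 : q * q ^ (-(1 + 2 * σ)) * q = q ^ (1 - 2 * σ) := by
      have : q * q ^ (-(1 + 2 * σ)) * q = q ^ (1 : ℝ) * q ^ (-(1 + 2 * σ)) * q ^ (1 : ℝ) := by
        rw [Real.rpow_one]
      rw [this, ← Real.rpow_add hq0, ← Real.rpow_add hq0]
      congr 1
      ring
    have e2 : q * q ^ (-(1 + 2 * σ)) * √q = q ^ (1 / 2 - 2 * σ) := by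
      have : q * q ^ (-(1 + 2 * σ)) * √q = q ^ (1 : ℝ) * q ^ (-(1 + 2 * σ)) * q ^ (1 / 2 : ℝ) := by
        rw [Real.rpow_one, Real.sqrt_eq_rpow]
      rw [this, ← Real.rpow_add hq0, ← Real.rpow_add hq0]
      congr 1
      ring
    have h7 : q ^ (1 - 2 * σ) ≤ X * T ^ (1 - 4 * σ) := by
      calc q ^ (1 - 2 * σ) ≤ (T ^ 2) ^ (1 - 2 * σ) := Real.rpow_le_rpow hq0.le hj (by linarith)
        _ = T ^ (1 : ℝ) * T ^ (1 - 4 * σ) := by
            rw [← Real.rpow_natCast, ← Real.rpow_mul hT0.le, ← Real.rpow_add hT0]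
            congr 1
            push_cast
            ring
        _ ≤ X * T ^ (1 - 4 * σ) := by
            rw [Real.rpow_one]
            gcongr
    have h8 : q ^ (1 / 2 - 2 * σ) ≤ T ^ (1 - 4 * σ) := by
      calc q ^ (1 / 2 - 2 * σ) ≤ (T ^ 2) ^ (1 / 2 - 2 * σ) :=
            Real.rpow_le_rpow hq0.le hj (by linarith)
        _ = T ^ (1 - 4 * σ) := by
            rw [← Real.rpow_natCast, ← Real.rpow_mul hT0.le]
            congr 1
            push_cast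
            ring
    calc _ ≤ (10 * q * ℓ) * (ℓ * q ^ (-(1 + 2 * σ)) *
          (12 * q * X + X ^ 2 * (60000 * (33 * ℓ) * (√q * ℓ ^ 4)))) := by
          apply mul_le_mul h6 h2 hE0 (by positivity)
      _ = 120 * ℓ ^ 2 * X * (q * q ^ (-(1 + 2 * σ)) * q) +
          19800000 * ℓ ^ 7 * X ^ 2 * (q * q ^ (-(1 + 2 * σ)) * √q) := by ring
      _ = 120 * ℓ ^ 2 * X * q ^ (1 - 2 * σ) + 19800000 * ℓ ^ 7 * X ^ 2 * q ^ (1 / 2 - 2 * σ) := by
          rw [e1, e2]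
      _ ≤ 120 * ℓ ^ 2 * X * (X * T ^ (1 - 4 * σ)) + 19800000 * ℓ ^ 7 * X ^ 2 * T ^ (1 - 4 * σ) := by
          gcongr
      _ = (120 * ℓ ^ 2 + 19800000 * ℓ ^ 7) * (X ^ 2 * T ^ (1 - 4 * σ)) := by ring
      _ ≤ 10 ^ 8 * ℓ ^ 7 * (X ^ 2 * T ^ (1 - 4 * σ)) := by
          apply mul_le_mul_of_nonneg_right _ hM0.le
          have : ℓ ^ 2 ≤ ℓ ^ 7 := pow_le_pow_right₀ hℓ1 (by norm_num)
          have : 0 ≤ ℓ ^ 2 := by positivity
          nlinarith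

/-- the non-square part -/
noncomputable def NS (X T : ℝ) (r : ℂ) : ℂ :=
  ∑ m ∈ (Finset.Icc 1 ⌊T ^ 2⌋₊).filter (fun m => ¬ IsSquare m),
    ((Λ m : ℝ) : ℂ) * (m : ℂ) ^ (-(1 / 2 + r)) * AX X m

theorem NS_eq (X T σ t : ℝ) : NS X T ((σ : ℂ) + t * I) =
    ∑ m ∈ Finset.Icc 1 ⌊T ^ 2⌋₊, cf X σ m * ph (-t) m := by
  unfold NS
  rw [Finset.sum_filter]
  apply Finset.sum_congr rfl
  intro m hm
  rw [Finset.mem_Icc] at hm
  unfold cf
  split_ifs with h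
  · simp
  · rw [cpow_ph hm.1]
    ring

theorem NS_mean {X T σ : ℝ} (hG : GRHJ) (hX : 2 ≤ X) (hT : 1 ≤ T) (hTX : T ≤ X) (hσ : 0 < σ)
    (hσ1 : σ ≤ 1 / 4) :
    ∫ t in (-T)..T, ‖NS X T ((σ : ℂ) + t * I)‖ ^ 2 ≤
      10 ^ 8 * (7 * Real.log X) ^ 9 * (X ^ 2 * T ^ (1 - 4 * σ)) := by
  simp_rw [NS_eq]
  have hL := logX_ge hX
  set ℓ : ℝ := 7 * Real.log X with hℓ
  have hℓ1 : 1 ≤ ℓ := by rw [hℓ]; linarith
  have hT0 : 0 < T := by linarith
  have hX0 : 0 < X := by linarith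
  have hTp : 0 < T ^ (1 - 4 * σ) := Real.rpow_pos_of_pos hT0 _
  have hM0 : 0 < X ^ 2 * T ^ (1 - 4 * σ) := by positivity
  have hT2 : 1 ≤ T ^ 2 := by nlinarith
  have hP : ⌊T ^ 2⌋₊ ≠ 0 := by
    have : 1 ≤ ⌊T ^ 2⌋₊ := Nat.le_floor (by simpa using hT2)
    omega
  refine (dyadic_mean ⌊T ^ 2⌋₊ (cf X σ) hT0.le).trans ?_
  have hcard := blocks_card hX hT hTX
  rw [← hℓ] at hcard
  have hsum : ∑ j ∈ Finset.range (Nat.log 2 ⌊T ^ 2⌋₊ + 1),
        (2 * T + 8 * 2 ^ j * (1 + Real.log (2 * 2 ^ j))) *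
          ∑ m ∈ (Finset.Icc 1 ⌊T ^ 2⌋₊).filter (fun m => Nat.log 2 m = j), ‖cf X σ m‖ ^ 2 ≤
      ℓ * (10 ^ 8 * ℓ ^ 7 * (X ^ 2 * T ^ (1 - 4 * σ))) := by
    have h1 : ∀ j ∈ Finset.range (Nat.log 2 ⌊T ^ 2⌋₊ + 1),
        (2 * T + 8 * 2 ^ j * (1 + Real.log (2 * 2 ^ j))) *
          ∑ m ∈ (Finset.Icc 1 ⌊T ^ 2⌋₊).filter (fun m => Nat.log 2 m = j), ‖cf X σ m‖ ^ 2 ≤
        10 ^ 8 * ℓ ^ 7 * (X ^ 2 * T ^ (1 - 4 * σ)) := by
      intro j hj
      rw [Finset.mem_range, Nat.lt_succ_iff] at hj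
      apply block_final hG hX hT hTX hσ hσ1
      have h2 : 2 ^ j ≤ ⌊T ^ 2⌋₊ :=
        (Nat.pow_le_pow_right (by norm_num) hj).trans (Nat.pow_log_le_self 2 hP)
      calc (2 : ℝ) ^ j ≤ (⌊T ^ 2⌋₊ : ℝ) := by exact_mod_cast h2
        _ ≤ T ^ 2 := Nat.floor_le (by positivity)
    refine (Finset.sum_le_sum h1).trans ?_
    rw [Finset.sum_const, Finset.card_range, nsmul_eq_mul]
    exact mul_le_mul_of_nonneg_right hcard (by positivity)
  calc _ ≤ ℓ * (ℓ * (10 ^ 8 * ℓ ^ 7 * (X ^ 2 * T ^ (1 - 4 * σ)))) := by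
        apply mul_le_mul hcard hsum _ (by linarith)
        apply Finset.sum_nonneg
        intro j _
        have : 0 ≤ Real.log (2 * (2 : ℝ) ^ j) := by
          apply Real.log_nonneg
          have : (1 : ℝ) ≤ 2 ^ j := one_le_pow₀ (by norm_num)
          linarith
        have : 0 ≤ ∑ m ∈ (Finset.Icc 1 ⌊T ^ 2⌋₊).filter (fun m => Nat.log 2 m = j), ‖cf X σ m‖ ^ 2 :=
          Finset.sum_nonneg fun m _ => by positivity
        positivity
    _ = _ := by ring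

end Pool.Agent.Helper368_LD
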