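import Pool.Agent.Helper368_LD.FMid
import Pool.Agent.Helper368_LD.NSMean

/-!
# All blocks without a hypothesis on the twists
-/

set_option autoImplicit false

namespace Pool.Agent.Helper368_LD

open MeasureTheory Set Complex
open scoped Real ArithmeticFunction.vonMangoldt
open Pool.Agent.H491R3.J

theorem ev_pow (N : ℕ) : ∃ X0 : ℝ, 2 ≤ X0 ∧ ∀ X : ℝ, X0 ≤ X → (7 * Real.log X) ^ N ≤ X ^ (1 / 20 : ℝ) := by
  have h := (isLittleO_log_rpow_rpow_atTop (N : ℝ) (s := 1 / 20) (by norm_num)).bound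
    (c := 1 / 7 ^ N) (by positivity)
  obtain ⟨X1, hX1⟩ := Filter.eventually_atTop.1 h
  refine ⟨max X1 2, le_max_right _ _, fun X hX => ?_⟩
  have hX2 : 2 ≤ X := (le_max_right _ _).trans hX
  have h1 := hX1 X ((le_max_left _ _).trans hX)
  have hl : 0 ≤ Real.log X := Real.log_nonneg (by linarith)
  rw [Real.rpow_natCast, Real.norm_of_nonneg (by positivity), Real.norm_of_nonneg (by positivity)] at h1
  rw [mul_pow]
  calc (7 : ℝ) ^ N * Real.log X ^ N ≤ 7 ^ N * (1 / 7 ^ N * X ^ (1 / 20 : ℝ)) := by gcongr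
    _ = _ := by field_simp

/-- the logarithms -/
theorem logs_F {X : ℝ} (hX : 2 ≤ X) (b1 n : ℕ) (hn : (2 : ℝ) ^ n ≤ 4 * (X * (7 * Real.log X) ^ b1)) :
    (∀ Q : ℝ, 1 ≤ Q → Q ≤ 2 ^ n → Real.log (18 * Q) ≤ (b1 + 6) * (7 * Real.log X)) ∧
    (n : ℝ) ≤ 2 * (b1 + 6) * (7 * Real.log X) := by
  have hL := logX_ge hX
  set ℓ := 7 * Real.log X with hℓ
  have hℓ4 : 4.83 ≤ ℓ := by rw [hℓ]; linarith
  have hℓ0 : 0 < ℓ := by linarith
  have hX0 : 0 < X := by linarith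
  have h1 : Real.log (18 * (4 * (X * ℓ ^ b1))) ≤ (b1 + 6) * ℓ := by
    rw [Real.log_mul (by norm_num) (by positivity), Real.log_mul (by norm_num) (by positivity),
      Real.log_mul hX0.ne' (by positivity), Real.log_pow]
    have h2 : Real.log ℓ ≤ ℓ := by
      have := Real.log_le_sub_one_of_pos hℓ0
      linarith
    have h3 := log_eighteen
    have h4 : Real.log 4 ≤ 3 := by
      have := Real.log_le_sub_one_of_pos (show (0 : ℝ) < 4 by norm_num)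
      linarith
    have h5 : Real.log X ≤ ℓ := by rw [hℓ]; linarith
    have h6 : (b1 : ℝ) * Real.log ℓ ≤ b1 * ℓ := by gcongr
    linarith
  have h7 : ∀ Q : ℝ, 1 ≤ Q → Q ≤ 2 ^ n → Real.log (18 * Q) ≤ (b1 + 6) * ℓ := by
    intro Q hQ hQn
    refine (Real.log_le_log (by positivity) ?_).trans h1
    have := hQn.trans hn
    linarith
  refine ⟨h7, ?_⟩
  have h8 := h7 (2 ^ n) (one_le_pow₀ (by norm_num)) le_rfl
  have h9 : Real.log ((2 : ℝ) ^ n) ≤ Real.log (18 * 2 ^ n) := by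
    apply Real.log_le_log (by positivity)
    have : (0 : ℝ) < 2 ^ n := by positivity
    linarith
  rw [Real.log_pow] at h9
  have h10 := Real.log_two_gt_d9
  have h11 : (0 : ℝ) ≤ n := Nat.cast_nonneg n
  nlinarith

theorem WT_trivial (hG : GRHJ) {c : ℝ} (hc : 0 < c) (b1 : ℕ) : ∃ C : ℝ, 0 ≤ C ∧
    ∀ (X : ℝ) (n : ℕ) (r : ℂ), 2 ≤ X → 1 ≤ n → (2 : ℝ) ^ n ≤ 4 * (X * (7 * Real.log X) ^ b1) →
    c ≤ r.re → r.re ≤ 2 / 5 → ∀ x : ℝ, 1 ≤ x → x ≤ X →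
    ‖WT r n x - (x : ℂ) ^ (1 - r) * Cr r‖ ≤ C * (1 + |r.im|) * (7 * Real.log X) ^ 6 * x ^ (1 - r.re) := by
  set κ : ℝ := b1 + 6 with hκ
  have hκ1 : 1 ≤ κ := by
    have : (0 : ℝ) ≤ b1 := Nat.cast_nonneg b1
    rw [hκ]; linarith
  have hκ0 : 0 < κ := by linarith
  refine ⟨2 * κ * (12 * 10 ^ 6 * κ ^ 5) + 50 / c ^ 2, by positivity, ?_⟩
  intro X n r hX hn1 hn hrc hr x hx hxX
  obtain ⟨hlog, hnℓ⟩ := logs_F hX b1 n hn
  have hL := logX_ge hX
  rw [← hκ] at hlog hnℓ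
  set ℓ := 7 * Real.log X with hℓ
  have hℓ4 : 4.83 ≤ ℓ := by rw [hℓ]; linarith
  have hℓ1 : 1 ≤ ℓ := by linarith
  have hℓ0 : 0 < ℓ := by linarith
  have hX0 : 0 < X := by linarith
  have hx0 : 0 < x := by linarith
  set σ := r.re with hσ
  set t := r.im with ht
  have htt : 0 ≤ |t| := abs_nonneg t
  have hσ0 : 0 < σ := by linarith
  have hxσ : 0 < x ^ (1 - σ) := Real.rpow_pos_of_pos hx0 _
  have hκℓ : 1 ≤ κ * ℓ := one_le_mul_of_one_le_of_one_le hκ1 hℓ1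
  have hlx : Real.log (16 * (x + 1)) ≤ κ * ℓ := by
    refine (Real.log_le_log (by positivity) ?_).trans ((log_16X hX).trans ?_)
    · nlinarith
    · exact le_mul_of_one_le_left hℓ0.le hκ1
  have hlx0 : 0 ≤ Real.log (16 * (x + 1)) := Real.log_nonneg (by linarith)
  have hblock : ∀ i ∈ Finset.Ico 1 n, ‖WW r (2 ^ i) x‖ ≤
      12 * 10 ^ 6 * κ ^ 5 * ((1 + |t|) * ℓ ^ 5 * x ^ (1 - σ)) := by
    intro i hi
    rw [Finset.mem_Ico] at hi
    set Q : ℝ := 2 ^ i with hQ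
    have hQ0 : 0 < Q := by positivity
    have hQ1 : 1 ≤ Q := one_le_pow₀ (by norm_num)
    have hQn : Q ≤ 2 ^ n := pow_le_pow_right₀ (by norm_num) hi.2.le
    have hlQ := hlog Q hQ1 hQn
    have hlQ0 : 0 ≤ Real.log (18 * Q) := Real.log_nonneg (by linarith)
    rcases le_or_gt Q x with hc1 | hc1
    · have h1 := WW_small (r := r) hQ1 hc1 (by rw [← hσ]; linarith)
      rw [← hσ] at h1
      have h2 : Real.log (8 * Q) ≤ κ * ℓ :=
        (Real.log_le_log (by positivity) (by linarith)).trans hlQ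
      have h3 : √x * Q ^ (1 / 2 - σ) ≤ x ^ (1 - σ) := by
        calc √x * Q ^ (1 / 2 - σ) ≤ √x * x ^ (1 / 2 - σ) := by
              gcongr
              linarith
          _ = x ^ (1 - σ) := by
              rw [Real.sqrt_eq_rpow, ← Real.rpow_add hx0]
              congr 1
              ring
      have h4 : κ * ℓ ≤ κ ^ 5 * ℓ ^ 5 := by
        rw [← mul_pow]
        calc κ * ℓ = (κ * ℓ) ^ 1 := (pow_one _).symm
          _ ≤ (κ * ℓ) ^ 5 := pow_le_pow_right₀ hκℓ (by norm_num)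
      have hlQ8 : 0 ≤ Real.log (8 * Q) := Real.log_nonneg (by linarith)
      calc _ ≤ 156 * (1 + Real.log (8 * Q)) * (√x * Q ^ (1 / 2 - σ)) := h1
        _ ≤ 156 * (κ * ℓ + κ * ℓ) * x ^ (1 - σ) := by gcongr
        _ = 312 * (κ * ℓ) * 1 * x ^ (1 - σ) := by ring
        _ ≤ 12 * 10 ^ 6 * (κ ^ 5 * ℓ ^ 5) * (1 + |t|) * x ^ (1 - σ) := by
            gcongr
            · norm_num
            · linarith
        _ = _ := by ring
    · have h1 := WW_le hG (r := r) (L := x) hQ1 (by rw [← hσ]; linarith) hx0.le le_rfl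
      rw [← hσ, ← ht] at h1
      have h2 : Q ^ (-σ) ≤ x ^ (-σ) := Real.rpow_le_rpow_of_nonpos hx0 hc1.le (by linarith)
      have h3 := log_five_le' t
      have h3' := log_five_le t
      have h4 : x * x ^ (-σ) = x ^ (1 - σ) := by
        nth_rewrite 1 [← Real.rpow_one x]
        rw [← Real.rpow_add hx0]
        congr 1
      unfold Nb at h1
      have h5 : 0 ≤ x ^ (-σ) := Real.rpow_nonneg hx0.le _
      have h6 : 0 ≤ Q ^ (-σ) := Real.rpow_nonneg hQ0.le _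
      calc _ ≤ _ := h1
        _ ≤ x * (3 * 10 ^ 6 * (κ * ℓ) * (4 * (1 + |t|)) * (κ * ℓ) ^ 4 * x ^ (-σ)) := by gcongr
        _ = 12 * 10 ^ 6 * κ ^ 5 * ((1 + |t|) * ℓ ^ 5 * (x * x ^ (-σ))) := by ring
        _ = _ := by rw [h4]
  have hsum : ‖WT r n x‖ ≤ 2 * κ * (12 * 10 ^ 6 * κ ^ 5) * (1 + |t|) * ℓ ^ 6 * x ^ (1 - σ) := by
    rw [WT_eq r x hn1]
    refine (norm_sum_le_of_le _ hblock).trans ?_
    rw [Finset.sum_const, nsmul_eq_mul, Nat.card_Ico]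
    have h1 : ((n - 1 : ℕ) : ℝ) ≤ 2 * κ * ℓ := by
      refine le_trans ?_ hnℓ
      exact_mod_cast Nat.sub_le n 1
    calc _ ≤ 2 * κ * ℓ * (12 * 10 ^ 6 * κ ^ 5 * ((1 + |t|) * ℓ ^ 5 * x ^ (1 - σ))) := by gcongr
      _ = _ := by ring
  have hCr : ‖(x : ℂ) ^ (1 - r) * Cr r‖ ≤ 50 / c ^ 2 * (1 + |t|) * ℓ ^ 6 * x ^ (1 - σ) := by
    rw [norm_mul, norm_cpow_eq_rpow_re_of_pos hx0]
    have e1 : (1 - r).re = 1 - σ := by simp [hσ]
    rw [e1]
    have h1 := Cr_abs (r := r) (by rw [← hσ]; exact hσ0) (by rw [← hσ]; exact hr)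
    rw [← hσ] at h1
    have h2 : 50 / σ ^ 2 ≤ 50 / c ^ 2 := by gcongr
    have h3 : 1 ≤ (1 + |t|) * ℓ ^ 6 :=
      one_le_mul_of_one_le_of_one_le (by linarith) (one_le_pow₀ hℓ1)
    calc x ^ (1 - σ) * ‖Cr r‖ ≤ x ^ (1 - σ) * (50 / c ^ 2) := by
          gcongr
          exact h1.trans h2
      _ = (50 / c ^ 2) * 1 * x ^ (1 - σ) := by ring
      _ ≤ (50 / c ^ 2) * ((1 + |t|) * ℓ ^ 6) * x ^ (1 - σ) := by gcongr
      _ = _ := by ring
  calc _ ≤ ‖WT r n x‖ + ‖(x : ℂ) ^ (1 - r) * Cr r‖ := norm_sub_le _ _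
    _ ≤ _ := add_le_add hsum hCr
    _ = _ := by ring

end Pool.Agent.Helper368_LD
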