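import Pool.Agent.Helper368_LD.FAll

/-!
# All blocks without a hypothesis on the twists, long sums
-/

set_option autoImplicit false

namespace Pool.Agent.Helper368_LD

open MeasureTheory Set Complex
open scoped Real ArithmeticFunction.vonMangoldt
open Pool.Agent.H491R3.J

/-- the loss in the powers of the logarithm -/
theorem rpow_loss {x ℓ σ : ℝ} (hx : 0 < x) (hℓ : 1 ≤ ℓ) {b1 M : ℕ} (hb : (M : ℝ) ≤ b1 * σ) :
    x * (x * ℓ ^ b1) ^ (-σ) ≤ x ^ (1 - σ) / ℓ ^ M := by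
  have hℓ0 : 0 < ℓ := by linarith
  rw [Real.mul_rpow hx.le (by positivity), ← Real.rpow_natCast, ← Real.rpow_mul hℓ0.le]
  have e1 : x * (x ^ (-σ) * ℓ ^ ((b1 : ℝ) * -σ)) = x ^ (1 - σ) * ℓ ^ (-((b1 : ℝ) * σ)) := by
    have e2 : x ^ (1 - σ) = x * x ^ (-σ) := by
      nth_rewrite 2 [← Real.rpow_one x]
      rw [← Real.rpow_add hx]
      congr 1
    rw [e2]
    have e3 : (b1 : ℝ) * -σ = -((b1 : ℝ) * σ) := by ring
    rw [e3]
    ring
  rw [e1, div_eq_mul_inv]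
  apply mul_le_mul_of_nonneg_left _ (Real.rpow_nonneg hx.le _)
  rw [← Real.rpow_natCast, ← Real.rpow_neg hℓ0.le]
  exact Real.rpow_le_rpow_of_exponent_le hℓ (by linarith)

theorem WT_fine (hG : GRHJ) {c : ℝ} (hc : 0 < c) (M b1 : ℕ) (hb1 : ((M + 8 : ℕ) : ℝ) ≤ b1 * c) :
    ∃ C X0 : ℝ, 0 ≤ C ∧ ∀ (X : ℝ) (n : ℕ) (r : ℂ), 2 ≤ X → X0 ≤ X →
    X * (7 * Real.log X) ^ b1 < 2 ^ n → (2 : ℝ) ^ n ≤ 4 * (X * (7 * Real.log X) ^ b1) →
    c ≤ r.re → r.re ≤ 2 / 5 → ∀ x : ℝ, √X ≤ x → x ≤ X →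
    ‖WT r n x - (x : ℂ) ^ (1 - r) * Cr r‖ ≤
      C * (1 + |r.im|) * (x ^ (1 - r.re) / (7 * Real.log X) ^ M) := by
  set κ : ℝ := b1 + 6 with hκ
  have hκ1 : 1 ≤ κ := by
    have : (0 : ℝ) ≤ b1 := Nat.cast_nonneg b1
    rw [hκ]; linarith
  have hκ0 : 0 < κ := by linarith
  set b2 : ℕ := 10 * (M + 3) with hb2
  set m : ℕ := M + 2 + b2 with hm
  obtain ⟨C1, Q0, hC1, hmid⟩ := mid_block hG b1 b2 m hκ1
  obtain ⟨X1, hX1, hev⟩ := ev_pow (aH b1 b2 m + b2 + M)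
  refine ⟨2 * κ * (320 * κ + C1 + 12 * 10 ^ 6 * κ ^ 5) + (44 + 14 * (2 * κ + 2 / c) / c), max X1 (|Q0| ^ 4),
    by positivity, ?_⟩
  intro X n r hX hXX0 hn1 hn2 hrc hr x hxX1 hxX2
  have hXX1 : X1 ≤ X := (le_max_left _ _).trans hXX0
  have hXQ0 : |Q0| ^ 4 ≤ X := (le_max_right _ _).trans hXX0
  obtain ⟨hlog, hnℓ⟩ := logs_F hX b1 n hn2
  have hL := logX_ge hX
  have hpow := hev X hXX1
  rw [← hκ] at hlog hnℓ
  set ℓ := 7 * Real.log X with hℓ
  have hℓ4 : 4.83 ≤ ℓ := by rw [hℓ]; linarith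
  have hℓ1 : 1 ≤ ℓ := by linarith
  have hℓ0 : 0 < ℓ := by linarith
  have hX0 : 0 < X := by linarith
  have hX1' : 1 ≤ X := by linarith
  have hsX : 1 ≤ √X := by rw [Real.one_le_sqrt]; exact hX1'
  have hx1 : 1 ≤ x := hsX.trans hxX1
  have hx0 : 0 < x := by linarith
  set σ := r.re with hσ
  set t := r.im with ht
  have htt : 0 ≤ |t| := abs_nonneg t
  have hσ0 : 0 < σ := by linarith
  have hxσ : 0 < x ^ (1 - σ) := Real.rpow_pos_of_pos hx0 _
  have hκℓ : 1 ≤ κ * ℓ := one_le_mul_of_one_le_of_one_le hκ1 hℓ1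
  -- small powers of `ℓ`
  have hX20 : X ^ (1 / 20 : ℝ) ≤ √X := by
    rw [Real.sqrt_eq_rpow]
    exact Real.rpow_le_rpow_of_exponent_le hX1' (by norm_num)
  have hpN : ∀ j : ℕ, j ≤ aH b1 b2 m + b2 + M → ℓ ^ j ≤ X ^ (1 / 20 : ℝ) := fun j hj =>
    (pow_le_pow_right₀ hℓ1 hj).trans hpow
  have hax : ℓ ^ (aH b1 b2 m) ≤ x := (hpN _ (by omega)).trans (hX20.trans hxX1)
  have hlx : Real.log (16 * (2 * x + 1)) ≤ κ * ℓ := by
    refine (Real.log_le_log (by positivity) ?_).trans ((log_16X hX).trans ?_)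
    · nlinarith only [hX, hxX2]
    · exact le_mul_of_one_le_left hℓ0.le hκ1
  set z := x * ℓ ^ b1 with hz
  have hzx : x ≤ z := le_mul_of_one_le_right hx0.le (one_le_pow₀ hℓ1)
  have hz1 : 1 ≤ z := hx1.trans hzx
  have hz0 : 0 < z := by linarith
  have hzn : z < 2 ^ n := by
    refine lt_of_le_of_lt ?_ hn1
    rw [hz]
    gcongr
  obtain ⟨k, hk1, hk2⟩ := exists_nat_pow_near hz1 (by norm_num : (1 : ℝ) < 2)
  have hkn : k + 1 ≤ n := by
    have h1 : (2 : ℝ) ^ k < 2 ^ n := lt_of_le_of_lt hk1 hzn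
    have := (pow_lt_pow_iff_right₀ (by norm_num : (1 : ℝ) < 2)).1 h1
    omega
  have hzσ : x * z ^ (-σ) ≤ x ^ (1 - σ) / ℓ ^ (M + 8) := by
    apply rpow_loss hx0 hℓ1
    refine hb1.trans ?_
    have : (0 : ℝ) ≤ b1 := Nat.cast_nonneg b1
    gcongr
  -- small blocks
  set V := x ^ (1 - σ) / ℓ ^ (M + 2) with hV
  have hV0 : 0 < V := by positivity
  have hsmall : ∀ i ∈ Finset.Ico 1 (k + 1), ‖WW r (2 ^ i) x - MJ (JF b1 b2 m ℓ) r (2 ^ i) x‖ ≤
      (320 * κ + C1) * (1 + |t|) * V := by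
    intro i hi
    rw [Finset.mem_Ico] at hi
    set Q : ℝ := 2 ^ i with hQ
    have hQ0' : 0 < Q := by positivity
    have hQ1 : 1 ≤ Q := one_le_pow₀ (by norm_num)
    have hQn : Q ≤ 2 ^ n := pow_le_pow_right₀ (by norm_num) (by omega)
    have hQz : Q ≤ z := (pow_le_pow_right₀ (by norm_num) (by omega)).trans hk1
    have hlQ := hlog Q hQ1 hQn
    rcases le_or_gt Q (x / ℓ ^ b2) with hc1 | hc1
    · have hQx : Q ≤ x := hc1.trans (div_le_self hx0.le (one_le_pow₀ hℓ1))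
      have h1 := WW_small (r := r) hQ1 hQx (by rw [← hσ]; linarith)
      have h2 := MJ_small (J := JF b1 b2 m ℓ) (JF_facts b1 b2 m hℓ1).1 (r := r) hQ1 hQx
        (by rw [← hσ]; linarith)
      rw [← hσ] at h1 h2
      have h3 : √x * Q ^ (1 / 2 - σ) ≤ x ^ (1 - σ) / ℓ ^ (M + 3) := by
        have h4 : Q ^ (1 / 2 - σ) ≤ (x / ℓ ^ b2) ^ (1 / 2 - σ) := by
          apply Real.rpow_le_rpow hQ0'.le hc1
          linarith
        have h5 : (x / ℓ ^ b2) ^ (1 / 2 - σ) ≤ x ^ (1 / 2 - σ) / ℓ ^ (M + 3) := by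
          rw [Real.div_rpow hx0.le (by positivity)]
          apply div_le_div_of_nonneg_left (by positivity) (by positivity)
          rw [← Real.rpow_natCast ℓ b2, ← Real.rpow_mul hℓ0.le, ← Real.rpow_natCast ℓ (M + 3)]
          apply Real.rpow_le_rpow_of_exponent_le hℓ1
          rw [hb2]
          push_cast
          have : (0 : ℝ) ≤ M := Nat.cast_nonneg M
          nlinarith
        calc √x * Q ^ (1 / 2 - σ) ≤ √x * (x ^ (1 / 2 - σ) / ℓ ^ (M + 3)) := by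
              gcongr
              exact h4.trans h5
          _ = (√x * x ^ (1 / 2 - σ)) / ℓ ^ (M + 3) := by ring
          _ = _ := by
              rw [Real.sqrt_eq_rpow, ← Real.rpow_add hx0]
              congr 2
              ring
      have h6 : Real.log (8 * Q) ≤ κ * ℓ :=
        (Real.log_le_log (by positivity) (by linarith)).trans hlQ
      have h7 : x ^ (1 - σ) / ℓ ^ (M + 3) = V / ℓ := by
        rw [hV]
        field_simp
        ring
      have h8 : 0 ≤ √x * Q ^ (1 / 2 - σ) := by positivity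
      rw [h7] at h3
      calc _ ≤ ‖WW r Q x‖ + ‖MJ (JF b1 b2 m ℓ) r Q x‖ := norm_sub_le _ _
        _ ≤ 156 * (1 + Real.log (8 * Q)) * (√x * Q ^ (1 / 2 - σ)) + 4 * (√x * Q ^ (1 / 2 - σ)) :=
            add_le_add h1 h2
        _ = (160 + 156 * Real.log (8 * Q)) * (√x * Q ^ (1 / 2 - σ)) := by ring
        _ ≤ (160 * (κ * ℓ) + 156 * (κ * ℓ)) * (V / ℓ) := by
            gcongr
            linarith
        _ = 316 * κ * V := by field_simp; ring
        _ = 316 * κ * 1 * V := by ring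
        _ ≤ (320 * κ + C1) * (1 + |t|) * V := by
            gcongr
            · nlinarith
            · linarith
    · have hQx' : x ≤ Q * ℓ ^ b2 := by
        rw [div_lt_iff₀ (by positivity)] at hc1
        exact hc1.le
      -- the size of `Q`
      have hQ4 : X ^ (1 / 4 : ℝ) ≤ Q := by
        have h1 : √X / X ^ (1 / 20 : ℝ) ≤ Q := by
          calc √X / X ^ (1 / 20 : ℝ) ≤ x / ℓ ^ b2 := by
                have := hpN b2 (by omega)
                gcongr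
            _ ≤ Q := hc1.le
        refine le_trans ?_ h1
        rw [le_div_iff₀ (by positivity), ← Real.rpow_add hX0, Real.sqrt_eq_rpow]
        exact Real.rpow_le_rpow_of_exponent_le hX1' (by norm_num)
      have hQQ0 : Q0 ≤ Q := by
        refine le_trans ?_ hQ4
        calc Q0 ≤ |Q0| := le_abs_self _
          _ = (|Q0| ^ 4) ^ (1 / 4 : ℝ) := by
              rw [← Real.rpow_natCast, ← Real.rpow_mul (abs_nonneg _)]
              norm_num
          _ ≤ _ := Real.rpow_le_rpow (by positivity) hXQ0 (by norm_num)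
      have hℓQ : ℓ ≤ 28 * Real.log Q := by
        have h1 : Real.log (X ^ (1 / 4 : ℝ)) ≤ Real.log Q := Real.log_le_log (by positivity) hQ4
        rw [Real.log_rpow hX0] at h1
        rw [hℓ]
        linarith
      have h1 := hmid ℓ x Q r hℓ1 hQQ0 hℓQ hQz hQx' hax hlx hlQ (by rw [← hσ]; linarith)
        (by rw [← hσ]; linarith)
      rw [← ht, ← hσ] at h1
      have h2 : (x / ℓ ^ m) * Q ^ (-σ) ≤ V := by
        have h3 : Q ^ (-σ) ≤ (x / ℓ ^ b2) ^ (-σ) :=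
          Real.rpow_le_rpow_of_nonpos (by positivity) hc1.le (by linarith)
        have h4 : (x / ℓ ^ b2) ^ (-σ) ≤ x ^ (-σ) * ℓ ^ b2 := by
          rw [Real.div_rpow hx0.le (by positivity), div_eq_mul_inv, ← Real.rpow_neg (by positivity), neg_neg]
          apply mul_le_mul_of_nonneg_left _ (Real.rpow_nonneg hx0.le _)
          calc (ℓ ^ b2) ^ σ ≤ (ℓ ^ b2) ^ (1 : ℝ) :=
                Real.rpow_le_rpow_of_exponent_le (one_le_pow₀ hℓ1) (by linarith)
            _ = ℓ ^ b2 := Real.rpow_one _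
        have h5 : x * x ^ (-σ) = x ^ (1 - σ) := by
          nth_rewrite 1 [← Real.rpow_one x]
          rw [← Real.rpow_add hx0]
          congr 1
        calc (x / ℓ ^ m) * Q ^ (-σ) ≤ (x / ℓ ^ m) * (x ^ (-σ) * ℓ ^ b2) := by
              gcongr
              exact h3.trans h4
          _ = (x * x ^ (-σ)) * (ℓ ^ b2 / ℓ ^ m) := by ring
          _ = V := by
              rw [h5, hV, hm, pow_add]
              field_simp
      rw [norm_sub_rev]
      calc _ ≤ C1 * (1 + |t|) * (x / ℓ ^ m) * Q ^ (-σ) := h1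
        _ = C1 * (1 + |t|) * ((x / ℓ ^ m) * Q ^ (-σ)) := by ring
        _ ≤ C1 * (1 + |t|) * V := by gcongr
        _ ≤ (320 * κ + C1) * (1 + |t|) * V := by
            gcongr
            linarith
  -- large blocks
  have hlarge : ∀ i ∈ Finset.Ico (k + 1) n, ‖WW r (2 ^ i) x‖ ≤
      (12 * 10 ^ 6 * κ ^ 5) * (1 + |t|) * V := by
    intro i hi
    rw [Finset.mem_Ico] at hi
    set Q : ℝ := 2 ^ i with hQ
    have hQ0' : 0 < Q := by positivity
    have hQ1 : 1 ≤ Q := one_le_pow₀ (by norm_num)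
    have hQn : Q ≤ 2 ^ n := pow_le_pow_right₀ (by norm_num) hi.2.le
    have hQz : z ≤ Q := hk2.le.trans (pow_le_pow_right₀ (by norm_num) hi.1)
    have hlQ := hlog Q hQ1 hQn
    have hlQ0 : 0 ≤ Real.log (18 * Q) := Real.log_nonneg (by linarith)
    have h1 := WW_le hG (r := r) (L := x) hQ1 (by rw [← hσ]; linarith) hx0.le le_rfl
    rw [← hσ, ← ht] at h1
    have h2 : Q ^ (-σ) ≤ z ^ (-σ) := Real.rpow_le_rpow_of_nonpos hz0 hQz (by linarith)
    have h3 := log_five_le' t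
    have h3' := log_five_le t
    have hlx' : Real.log (16 * (x + 1)) ≤ κ * ℓ :=
      (Real.log_le_log (by positivity) (by linarith)).trans hlx
    have hlx0 : 0 ≤ Real.log (16 * (x + 1)) := Real.log_nonneg (by linarith)
    unfold Nb at h1
    have h5 : 0 ≤ z ^ (-σ) := Real.rpow_nonneg hz0.le _
    have h6 : 0 ≤ Q ^ (-σ) := Real.rpow_nonneg hQ0'.le _
    have h7 : ℓ ^ 5 * (x * z ^ (-σ)) ≤ V := by
      calc ℓ ^ 5 * (x * z ^ (-σ)) ≤ ℓ ^ 5 * (x ^ (1 - σ) / ℓ ^ (M + 8)) := by gcongr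
        _ = V / ℓ := by
            rw [hV]
            field_simp
            ring
        _ ≤ V := div_le_self hV0.le hℓ1
    calc _ ≤ _ := h1
      _ ≤ x * (3 * 10 ^ 6 * (κ * ℓ) * (4 * (1 + |t|)) * (κ * ℓ) ^ 4 * z ^ (-σ)) := by gcongr
      _ = 12 * 10 ^ 6 * κ ^ 5 * (1 + |t|) * (ℓ ^ 5 * (x * z ^ (-σ))) := by ring
      _ ≤ _ := by gcongr
  have hsum : ‖WT r n x - ∑ i ∈ Finset.Ico 1 (k + 1), MJ (JF b1 b2 m ℓ) r (2 ^ i) x‖ ≤
      n * ((320 * κ + C1 + 12 * 10 ^ 6 * κ ^ 5) * (1 + |t|) * V) := by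
    rw [WT_eq r x (by omega), ← Finset.sum_Ico_consecutive _ (by omega : 1 ≤ k + 1) hkn]
    have e1 : (∑ i ∈ Finset.Ico 1 (k + 1), WW r (2 ^ i) x + ∑ i ∈ Finset.Ico (k + 1) n, WW r (2 ^ i) x) -
        ∑ i ∈ Finset.Ico 1 (k + 1), MJ (JF b1 b2 m ℓ) r (2 ^ i) x =
        ∑ i ∈ Finset.Ico 1 (k + 1), (WW r (2 ^ i) x - MJ (JF b1 b2 m ℓ) r (2 ^ i) x) +
        ∑ i ∈ Finset.Ico (k + 1) n, WW r (2 ^ i) x := by
      rw [Finset.sum_sub_distrib]
      ring
    rw [e1]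
    set S := (320 * κ + C1 + 12 * 10 ^ 6 * κ ^ 5) * (1 + |t|) * V with hS
    have hsm : ∀ i ∈ Finset.Ico 1 (k + 1), ‖WW r (2 ^ i) x - MJ (JF b1 b2 m ℓ) r (2 ^ i) x‖ ≤ S := by
      intro i hi
      refine (hsmall i hi).trans ?_
      rw [hS]
      have h0 : 0 < κ ^ 5 := by positivity
      have h1 : 320 * κ + C1 ≤ 320 * κ + C1 + 12 * 10 ^ 6 * κ ^ 5 := by linarith only [h0]
      exact mul_le_mul_of_nonneg_right (mul_le_mul_of_nonneg_right h1 (by positivity)) hV0.le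
    have hlg : ∀ i ∈ Finset.Ico (k + 1) n, ‖WW r (2 ^ i) x‖ ≤ S := by
      intro i hi
      refine (hlarge i hi).trans ?_
      rw [hS]
      have h1 : 12 * 10 ^ 6 * κ ^ 5 ≤ 320 * κ + C1 + 12 * 10 ^ 6 * κ ^ 5 := by
        linarith only [hκ0, hC1]
      exact mul_le_mul_of_nonneg_right (mul_le_mul_of_nonneg_right h1 (by positivity)) hV0.le
    refine (norm_add_le _ _).trans ?_
    refine (add_le_add (norm_sum_le_of_le _ hsm) (norm_sum_le_of_le _ hlg)).trans ?_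
    rw [Finset.sum_const, Finset.sum_const, Nat.card_Ico, Nat.card_Ico, nsmul_eq_mul, nsmul_eq_mul,
      ← add_mul]
    apply mul_le_mul_of_nonneg_right
    · have : k + 1 - 1 + (n - (k + 1)) ≤ n := by omega
      exact_mod_cast this
    · rw [hS]; positivity
  -- the main terms
  obtain ⟨j1, j2, j3⟩ := JF_facts b1 b2 m hℓ1
  set J := JF b1 b2 m ℓ with hJ
  have hJ0 : (0 : ℝ) < J := by exact_mod_cast j1
  have hMJ := MJ_total' (J := J) (n := k + 1) (by omega) hx1 (by linarith : x ≤ 2 ^ (k + 1)) j1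
    (r := r) (by rw [← hσ]; exact hσ0) (by rw [← hσ]; exact hr)
  rw [← hσ] at hMJ
  set T : ℝ := 2 ^ (k + 1) with hT
  have hT0 : 0 < T := by positivity
  have hTz : T ≤ 2 * z := by
    rw [hT, pow_succ]
    linarith
  have hT1 : 1 ≤ T := one_le_pow₀ (by norm_num)
  have hlogT : Real.log T ≤ κ * ℓ := by
    have h1 : Real.log T ≤ Real.log (18 * 2 ^ n) := by
      apply Real.log_le_log hT0
      have : T ≤ 2 ^ n := pow_le_pow_right₀ (by norm_num) hkn
      have : (0 : ℝ) < 2 ^ n := by positivity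
      linarith
    exact h1.trans (hlog (2 ^ n) (one_le_pow₀ (by norm_num)) le_rfl)
  have hlogT0 : 0 ≤ Real.log T := Real.log_nonneg hT1
  set W := x ^ (1 - σ) / ℓ ^ M with hW
  have hW0 : 0 < W := by positivity
  have m1 : 40 * √x ≤ 40 * W := by
    have h1 : √x ≤ W := by
      rw [hW, le_div_iff₀ (by positivity)]
      have h2 : ℓ ^ M ≤ x ^ (1 / 10 : ℝ) := by
        calc ℓ ^ M ≤ X ^ (1 / 20 : ℝ) := hpN M (by omega)
          _ = (√X) ^ (1 / 10 : ℝ) := by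
              rw [Real.sqrt_eq_rpow, ← Real.rpow_mul hX0.le]
              norm_num
          _ ≤ x ^ (1 / 10 : ℝ) := Real.rpow_le_rpow (Real.sqrt_nonneg _) hxX1 (by norm_num)
      calc √x * ℓ ^ M ≤ √x * x ^ (1 / 10 : ℝ) := by gcongr
        _ = x ^ (1 / 2 + 1 / 10 : ℝ) := by rw [Real.sqrt_eq_rpow, ← Real.rpow_add hx0]
        _ ≤ x ^ (1 - σ) := Real.rpow_le_rpow_of_exponent_le hx1 (by linarith)
    linarith
  have m2 : 2 * T ^ (1 - σ) / J ≤ 4 * W := by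
    have h1 : T ^ (1 - σ) ≤ 2 * (x ^ (1 - σ) * ℓ ^ b1) := by
      calc T ^ (1 - σ) ≤ (2 * z) ^ (1 - σ) := Real.rpow_le_rpow hT0.le hTz (by linarith)
        _ = 2 ^ (1 - σ) * (x ^ (1 - σ) * (ℓ ^ b1) ^ (1 - σ)) := by
            rw [hz, Real.mul_rpow (by norm_num) (by positivity), Real.mul_rpow hx0.le (by positivity)]
        _ ≤ 2 * (x ^ (1 - σ) * ℓ ^ b1) := by
            have h2 : (2 : ℝ) ^ (1 - σ) ≤ 2 := by
              calc (2 : ℝ) ^ (1 - σ) ≤ 2 ^ (1 : ℝ) :=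
                    Real.rpow_le_rpow_of_exponent_le (by norm_num) (by linarith)
                _ = 2 := Real.rpow_one 2
            have h3 : (ℓ ^ b1) ^ (1 - σ) ≤ ℓ ^ b1 := by
              calc (ℓ ^ b1) ^ (1 - σ) ≤ (ℓ ^ b1) ^ (1 : ℝ) :=
                    Real.rpow_le_rpow_of_exponent_le (one_le_pow₀ hℓ1) (by linarith)
                _ = _ := Real.rpow_one _
            gcongr
    have h4 : ℓ ^ (b1 + M) ≤ J := by
      refine le_trans (pow_le_pow_right₀ hℓ1 ?_) j2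
      unfold bJ
      omega
    rw [div_le_iff₀ hJ0]
    calc 2 * T ^ (1 - σ) ≤ 2 * (2 * (x ^ (1 - σ) * ℓ ^ b1)) := by gcongr
      _ = 4 * W * ℓ ^ (b1 + M) := by
          rw [hW, pow_add]
          field_simp
          ring
      _ ≤ 4 * W * J := by gcongr
  have m3 : 7 * x * (1 + Real.log T + 2 / σ) * (2 / σ) * T ^ (-σ) ≤ 14 * (2 * κ + 2 / c) / c * W := by
    have h1 : T ^ (-σ) ≤ z ^ (-σ) := Real.rpow_le_rpow_of_nonpos hz0 hk2.le (by linarith)
    have h2 : 2 / σ ≤ 2 / c := by gcongr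
    have h3 : ℓ * (x * z ^ (-σ)) ≤ W := by
      calc ℓ * (x * z ^ (-σ)) ≤ ℓ * (x ^ (1 - σ) / ℓ ^ (M + 8)) := by gcongr
        _ = W / ℓ ^ 7 := by
            rw [hW]
            field_simp
            ring
        _ ≤ W := div_le_self hW0.le (one_le_pow₀ hℓ1)
    have h4 : 1 + Real.log T + 2 / σ ≤ (2 * κ + 2 / c) * ℓ := by
      have h5 : 2 / c ≤ 2 / c * ℓ := le_mul_of_one_le_right (by positivity) hℓ1
      linarith
    have h6 : 0 ≤ 1 + Real.log T + 2 / σ := by positivity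
    have h7 : 0 ≤ z ^ (-σ) := Real.rpow_nonneg hz0.le _
    calc _ ≤ 7 * x * ((2 * κ + 2 / c) * ℓ) * (2 / c) * z ^ (-σ) := by gcongr
      _ = 14 * (2 * κ + 2 / c) / c * (ℓ * (x * z ^ (-σ))) := by ring
      _ ≤ _ := by gcongr
  have hnV : (n : ℝ) * V ≤ 2 * κ * W := by
    calc (n : ℝ) * V ≤ 2 * κ * ℓ * V := by gcongr
      _ = 2 * κ * (W / ℓ) := by
          rw [hV, hW]
          field_simp
          ring
      _ ≤ 2 * κ * W := by
          have := div_le_self hW0.le hℓ1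
          gcongr
  set Mn := ∑ i ∈ Finset.Ico 1 (k + 1), MJ J r (2 ^ i) x with hMn
  have e2 : WT r n x - (x : ℂ) ^ (1 - r) * Cr r = (WT r n x - Mn) + (Mn - (x : ℂ) ^ (1 - r) * Cr r) := by ring
  rw [e2]
  have f1 : ‖WT r n x - Mn‖ ≤ 2 * κ * (320 * κ + C1 + 12 * 10 ^ 6 * κ ^ 5) * (1 + |t|) * W := by
    refine hsum.trans ?_
    calc n * ((320 * κ + C1 + 12 * 10 ^ 6 * κ ^ 5) * (1 + |t|) * V) =
          (320 * κ + C1 + 12 * 10 ^ 6 * κ ^ 5) * (1 + |t|) * (n * V) := by ring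
      _ ≤ (320 * κ + C1 + 12 * 10 ^ 6 * κ ^ 5) * (1 + |t|) * (2 * κ * W) := by gcongr
      _ = _ := by ring
  have f2 : ‖Mn - (x : ℂ) ^ (1 - r) * Cr r‖ ≤ (44 + 14 * (2 * κ + 2 / c) / c) * (1 + |t|) * W := by
    refine hMJ.trans ?_
    have h1 : 40 * W + 4 * W + 14 * (2 * κ + 2 / c) / c * W =
        (44 + 14 * (2 * κ + 2 / c) / c) * 1 * W := by ring
    have h2 : (44 + 14 * (2 * κ + 2 / c) / c) * 1 * W ≤ (44 + 14 * (2 * κ + 2 / c) / c) * (1 + |t|) * W := by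
      have h3 : 0 ≤ 14 * (2 * κ + 2 / c) / c := by positivity
      gcongr
      linarith
    linarith only [m1, m2, m3, h1, h2]
  calc _ ≤ ‖WT r n x - Mn‖ + ‖Mn - (x : ℂ) ^ (1 - r) * Cr r‖ := norm_add_le _ _
    _ ≤ _ := add_le_add f1 f2
    _ = _ := by ring

end Pool.Agent.Helper368_LD
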