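import Pool.Agent.Helper368_LD.AllBlocks

/-!
# The sum over the squarefree moduli
-/

set_option autoImplicit false

namespace Pool.Agent.Helper368_LD

open MeasureTheory Set Complex
open scoped Real ArithmeticFunction.vonMangoldt
open Pool.Agent.H491R3.J
open ArithmeticFunction (moebius)

/-- the character sum without the squares -/
noncomputable def Fp (p : ℕ) (y : ℝ) : ℝ := ∑ l ∈ Finset.Icc 1 ⌊y⌋₊, fnp p l

theorem isSquare_sq_mul {d l : ℕ} (hd : d ≠ 0) : IsSquare (d ^ 2 * l) ↔ IsSquare l := by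
  constructor
  · rintro ⟨c, hc⟩
    have h1 : d ^ 2 ∣ c ^ 2 := ⟨l, by rw [sq c, ← hc]⟩
    have h2 : d ∣ c := (Nat.pow_dvd_pow_iff two_ne_zero).1 h1
    obtain ⟨e, he⟩ := h2
    refine ⟨e, ?_⟩
    have h3 : d ^ 2 * l = d ^ 2 * (e * e) := by rw [hc, he]; ring
    exact Nat.eq_of_mul_eq_mul_left (by positivity) h3
  · rintro ⟨c, hc⟩
    exact ⟨d * c, by rw [hc]; ring⟩

theorem kro_sq {p d : ℕ} (hp : p.Prime) (hd : Odd d) : kro p d ^ 2 = if p ∣ d then 0 else 1 := by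
  have hne : NeZero d := ⟨by rintro rfl; exact absurd hd (by decide)⟩
  unfold kro
  rw [if_pos hd]
  split_ifs with h
  · have : jacobiSym (p : ℤ) d = 0 := by
      rw [jacobiSym.eq_zero_iff_not_coprime, Int.gcd_natCast_natCast]
      intro h2
      have h3 : Nat.Coprime p d := h2
      exact hp.one_lt.ne' (Nat.Coprime.eq_one_of_dvd h3 h)
    rw [this]
    rfl
  · apply jacobiSym.sq_one
    rw [Int.gcd_natCast_natCast]
    exact (Nat.Prime.coprime_iff_not_dvd hp).2 h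

theorem fnp_sq_mul {p d : ℕ} (hp : p.Prime) (hd : Odd d) (l : ℕ) :
    fnp p (d ^ 2 * l) = if p ∣ d then 0 else fnp p l := by
  have hd0 : d ≠ 0 := by rintro rfl; exact absurd hd (by decide)
  have h1 : kro p (d ^ 2 * l) = if p ∣ d then 0 else kro p l := by
    rw [kro_mul, sq, kro_mul, ← sq, kro_sq hp hd]
    split_ifs <;> simp
  unfold fnp
  rw [h1]
  by_cases hs : IsSquare l
  · rw [if_pos ((isSquare_sq_mul hd0).2 hs), if_pos hs]
    split_ifs <;> rfl
  · rw [if_neg (fun h => hs ((isSquare_sq_mul hd0).1 h)), if_neg hs]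
    split_ifs <;> simp

theorem fnp_even {p l : ℕ} (h : ¬ Odd l) : fnp p l = 0 := by
  unfold fnp kro
  rw [if_neg h]
  split_ifs <;> simp

theorem AX_fnp {X : ℝ} (p : ℕ) : AX X p =
    ∑ n ∈ (Finset.Icc 1 ⌊X⌋₊).filter (fun n => Odd n ∧ Squarefree n), (fnp p n : ℂ) := by
  have h1 : ∀ n ∈ SS X, ((jacobiSym (p : ℤ) n : ℤ) : ℂ) = (fnp p n : ℂ) := by
    intro n hn
    have hsq := not_isSquare_of_SS hn
    rw [mem_SS] at hn
    unfold fnp kro
    rw [if_neg hsq, if_pos hn.2.2.1]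
    push_cast
    rfl
  unfold AX
  rw [Finset.sum_congr rfl h1]
  unfold SS
  apply Finset.sum_erase
  unfold fnp
  rw [if_pos ⟨1, rfl⟩]
  simp

theorem AX_prime {X : ℝ} (hX : 1 ≤ X) {p : ℕ} (hp : p.Prime) : AX X p =
    ∑ d ∈ (Finset.Icc 1 ⌊√X⌋₊).filter (fun d => Odd d), ((moebius d : ℤ) : ℂ) *
      (if p ∣ d then 0 else (Fp p (X / (d : ℝ) ^ 2) : ℂ)) := by
  have hX0 : 0 < X := by linarith
  rw [AX_fnp, sqf_sum]
  have hsub : (Finset.Icc 1 ⌊√X⌋₊).filter (fun d => Odd d) ⊆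
      (Finset.Icc 1 ⌊X⌋₊).filter (fun d => Odd d) := by
    apply Finset.filter_subset_filter
    apply Finset.Icc_subset_Icc_right
    apply Nat.floor_mono
    rw [Real.sqrt_le_left hX0.le]
    nlinarith
  have hfl : ∀ d : ℕ, ⌊X / (d : ℝ) ^ 2⌋₊ = ⌊X⌋₊ / d ^ 2 := by
    intro d
    have := Nat.floor_div_natCast X (d ^ 2)
    push_cast at this
    exact this
  rw [← Finset.sum_subset hsub]
  · apply Finset.sum_congr rfl
    intro d hd
    rw [Finset.mem_filter] at hd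
    congr 1
    simp_rw [fnp_sq_mul hp hd.2]
    by_cases h : p ∣ d
    · simp [h]
    · simp only [if_neg h]
      unfold Fp
      rw [hfl, Complex.ofReal_sum, Finset.sum_filter]
      apply Finset.sum_congr rfl
      intro l _
      by_cases ho : Odd l
      · rw [if_pos ho]
      · rw [if_neg ho, fnp_even ho, Complex.ofReal_zero]
  · intro d hd hd2
    rw [Finset.mem_filter, Finset.mem_Icc] at hd hd2
    have h1 : ⌊√X⌋₊ < d := by
      by_contra h
      push Not at h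
      exact hd2 ⟨⟨hd.1.1, h⟩, hd.2⟩
    have h2 : √X < d := (Nat.floor_lt (Real.sqrt_nonneg X)).1 h1
    have h3 : ⌊X⌋₊ / d ^ 2 = 0 := by
      apply Nat.div_eq_of_lt
      have h4 : X < ((d ^ 2 : ℕ) : ℝ) := by
        push_cast
        have h5 := Real.sq_sqrt hX0.le
        have h6 := Real.sqrt_nonneg X
        nlinarith
      exact (Nat.floor_lt hX0.le).2 h4
    rw [h3]
    simp

theorem ap_zero {p : ℕ} (hp : ¬ (p.Prime ∧ p ≠ 2)) (r : ℂ) : ap r p = 0 := by
  unfold ap lp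
  rw [if_neg hp]
  simp

theorem sum_ap_AX {X : ℝ} (hX : 1 ≤ X) (r : ℂ) (n : ℕ) :
    ∑ p ∈ Finset.Icc 1 (2 ^ n), ap r p * AX X p =
      ∑ d ∈ (Finset.Icc 1 ⌊√X⌋₊).filter (fun d => Odd d), ((moebius d : ℤ) : ℂ) *
        WT r n (X / (d : ℝ) ^ 2) -
      ∑ d ∈ (Finset.Icc 1 ⌊√X⌋₊).filter (fun d => Odd d), ∑ p ∈ Finset.Icc 1 (2 ^ n),
        (if p ∣ d then ap r p * (((moebius d : ℤ) : ℂ) * (Fp p (X / (d : ℝ) ^ 2) : ℂ)) else 0) := by
  have h1 : ∀ p ∈ Finset.Icc 1 (2 ^ n), ap r p * AX X p =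
      ∑ d ∈ (Finset.Icc 1 ⌊√X⌋₊).filter (fun d => Odd d), ap r p * (((moebius d : ℤ) : ℂ) *
      (if p ∣ d then 0 else (Fp p (X / (d : ℝ) ^ 2) : ℂ))) := by
    intro p _
    by_cases hp : p.Prime ∧ p ≠ 2
    · rw [AX_prime hX hp.1, Finset.mul_sum]
    · rw [ap_zero hp]
      simp
  rw [Finset.sum_congr rfl h1, Finset.sum_comm, ← Finset.sum_sub_distrib]
  apply Finset.sum_congr rfl
  intro d _
  unfold WT
  rw [Finset.mul_sum, ← Finset.sum_sub_distrib]
  apply Finset.sum_congr rfl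
  intro p _
  have e1 : ((∑ l ∈ Finset.Icc 1 ⌊X / (d : ℝ) ^ 2⌋₊, fnp p l : ℝ) : ℂ) = (Fp p (X / (d : ℝ) ^ 2) : ℂ) := rfl
  rw [e1]
  by_cases h : p ∣ d
  · rw [if_pos h, if_pos h]; ring
  · rw [if_neg h, if_neg h]; ring

theorem Fp_abs {p : ℕ} (hp : p.Prime) {y : ℝ} (hy : 0 ≤ y) : |Fp p y| ≤ Bm p + √y := by
  have hns : ¬ IsSquare p := fun h => by
    obtain ⟨a, ha⟩ := h
    have h1 : a = 1 ∨ a = p := (Nat.dvd_prime hp).1 ⟨a, ha⟩
    have h2 := hp.one_lt
    rcases h1 with h | h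
    · rw [h] at ha; omega
    · rw [h] at ha
      nlinarith
  have h1 := kro_sum_le hp.ne_zero hns ⌊y⌋₊
  have h2 : ∑ l ∈ (Finset.Icc 1 ⌊y⌋₊).filter (fun l => Odd l), ((jacobiSym (p : ℤ) l : ℤ) : ℂ) =
      ((∑ l ∈ Finset.Icc 1 ⌊y⌋₊, (kro p l : ℝ) : ℝ) : ℂ) := by
    rw [Complex.ofReal_sum, Finset.sum_filter]
    apply Finset.sum_congr rfl
    intro l _
    unfold kro
    split_ifs <;> simp
  rw [h2, norm_real, Real.norm_eq_abs] at h1
  have h3 : Fp p y = ∑ l ∈ Finset.Icc 1 ⌊y⌋₊, (kro p l : ℝ) -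
      ∑ l ∈ Finset.Icc 1 ⌊y⌋₊, (osq l - psq p l) := by
    unfold Fp
    rw [← Finset.sum_sub_distrib]
    apply Finset.sum_congr rfl
    intro l _
    rw [fnp_eq hp]
    ring
  have h4 : ∀ l, 0 ≤ osq l - psq p l := by
    intro l
    unfold osq psq
    by_cases a : IsSquare l ∧ Odd l
    · rw [if_pos a]
      split_ifs <;> norm_num
    · rw [if_neg a, if_neg (fun h => a ⟨h.1, h.2.1⟩)]
      norm_num
  have h5 : |∑ l ∈ Finset.Icc 1 ⌊y⌋₊, (osq l - psq p l)| ≤ √y := by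
    rw [abs_of_nonneg (Finset.sum_nonneg fun l _ => h4 l)]
    refine le_trans (Finset.sum_le_sum fun l _ => ?_) (osq_le hy)
    have := psq_nonneg p l
    linarith
  rw [h3]
  unfold Bm
  exact (abs_sub _ _).trans (add_le_add h1 h5)

theorem corr_bound {X : ℝ} (hX : 1 ≤ X) {r : ℂ} (hr : 0 ≤ r.re) (n : ℕ) :
    ‖∑ d ∈ (Finset.Icc 1 ⌊√X⌋₊).filter (fun d => Odd d), ∑ p ∈ Finset.Icc 1 (2 ^ n),
        (if p ∣ d then ap r p * (((moebius d : ℤ) : ℂ) * (Fp p (X / (d : ℝ) ^ 2) : ℂ)) else 0)‖ ≤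
      10 * √X * (1 + Real.log (4 * X)) ^ 2 := by
  have hX0 : 0 < X := by linarith
  have hlX : 0 ≤ Real.log (4 * X) := Real.log_nonneg (by linarith)
  have hsX1 : 1 ≤ √X := by rw [Real.one_le_sqrt]; exact hX
  have hsX : √X ≤ X := by
    rw [Real.sqrt_le_left hX0.le]
    nlinarith
  have h1 : ∀ d ∈ (Finset.Icc 1 ⌊√X⌋₊).filter (fun d => Odd d), ‖∑ p ∈ Finset.Icc 1 (2 ^ n),
        (if p ∣ d then ap r p * (((moebius d : ℤ) : ℂ) * (Fp p (X / (d : ℝ) ^ 2) : ℂ)) else 0)‖ ≤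
      Real.log (4 * X) * (8 * (1 + Real.log (4 * X)) + √X / d) := by
    intro d hd
    rw [Finset.mem_filter, Finset.mem_Icc] at hd
    have hd1 : (1 : ℝ) ≤ d := by exact_mod_cast hd.1.1
    have hd0 : (0 : ℝ) < d := by linarith
    have hdX : (d : ℝ) ≤ √X := (Nat.le_floor_iff (Real.sqrt_nonneg X)).1 hd.1.2
    have h2 : ∀ p ∈ Finset.Icc 1 (2 ^ n),
        ‖(if p ∣ d then ap r p * (((moebius d : ℤ) : ℂ) * (Fp p (X / (d : ℝ) ^ 2) : ℂ)) else 0)‖ ≤
        (if p.Prime ∧ p ∣ d then Real.log p else 0) * (8 * (1 + Real.log (4 * X)) + √X / d) := by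
      intro p hp
      rw [Finset.mem_Icc] at hp
      have hp0 : (0 : ℝ) < p := by exact_mod_cast hp.1
      have hp1 : (1 : ℝ) ≤ p := by exact_mod_cast hp.1
      by_cases hpd : p ∣ d
      · rw [if_pos hpd]
        by_cases hpp : p.Prime ∧ p ≠ 2
        · rw [if_pos ⟨hpp.1, hpd⟩, norm_mul, norm_mul, norm_real, Real.norm_eq_abs, ap_norm r hp.1]
          have a1 : ‖((moebius d : ℤ) : ℂ)‖ ≤ 1 := by
            rw [Complex.norm_intCast]
            exact_mod_cast ArithmeticFunction.abs_moebius_le_one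
          have a2 := Fp_abs hpp.1 (y := X / (d : ℝ) ^ 2) (by positivity)
          have a3 : √(X / (d : ℝ) ^ 2) = √X / d := by
            rw [Real.sqrt_div hX0.le, Real.sqrt_sq hd0.le]
          rw [a3] at a2
          have a4 : lp p = Real.log p := by
            unfold lp
            rw [if_pos hpp]
          have a5 : (p : ℝ) ^ (-(1 / 2 + r.re)) ≤ (√(p : ℝ))⁻¹ := by
            rw [Real.sqrt_eq_rpow, ← Real.rpow_neg hp0.le]
            exact Real.rpow_le_rpow_of_exponent_le hp1 (by linarith)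
          have hsp : 1 ≤ √(p : ℝ) := by rw [Real.one_le_sqrt]; exact hp1
          have hlp : 0 ≤ Real.log p := Real.log_nonneg hp1
          have a6 : Real.log (4 * (p : ℝ)) ≤ Real.log (4 * X) := by
            apply Real.log_le_log (by positivity)
            have : (p : ℝ) ≤ d := by exact_mod_cast Nat.le_of_dvd hd.1.1 hpd
            linarith
          rw [a4]
          have a7 : Bm p + √X / d ≤ √(p : ℝ) * (8 * (1 + Real.log (4 * X)) + √X / d) := by
            unfold Bm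
            have b1 : √X / d ≤ √(p : ℝ) * (√X / d) := le_mul_of_one_le_left (by positivity) hsp
            have b2 : 8 * √(p : ℝ) * (1 + Real.log (4 * p)) ≤ 8 * √(p : ℝ) * (1 + Real.log (4 * X)) := by
              gcongr
            linarith
          calc Real.log p * (p : ℝ) ^ (-(1 / 2 + r.re)) * (‖((moebius d : ℤ) : ℂ)‖ *
                |Fp p (X / (d : ℝ) ^ 2)|) ≤ Real.log p * (√(p : ℝ))⁻¹ *
                  (1 * (√(p : ℝ) * (8 * (1 + Real.log (4 * X)) + √X / d))) := by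
                gcongr
                exact a2.trans a7
            _ = _ := by field_simp
        · rw [ap_zero hpp, zero_mul, norm_zero]
          split_ifs
          · have : 0 ≤ Real.log (p : ℝ) := Real.log_nonneg hp1
            positivity
          · simp
      · rw [if_neg hpd, norm_zero]
        split_ifs
        · have : 0 ≤ Real.log (p : ℝ) := Real.log_nonneg hp1
          positivity
        · simp
    refine (norm_sum_le_of_le _ h2).trans ?_
    rw [← Finset.sum_mul, ← Finset.sum_filter]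
    apply mul_le_mul_of_nonneg_right _ (by positivity)
    refine (sum_log_primeFactors_le (by omega) (2 ^ n)).trans ?_
    apply Real.log_le_log hd0
    linarith
  refine (norm_sum_le_of_le _ h1).trans ?_
  have h3 : ∑ d ∈ (Finset.Icc 1 ⌊√X⌋₊).filter (fun d => Odd d),
      Real.log (4 * X) * (8 * (1 + Real.log (4 * X)) + √X / d) ≤
      ∑ d ∈ Finset.Icc 1 ⌊√X⌋₊, Real.log (4 * X) * (8 * (1 + Real.log (4 * X)) + √X / d) := by
    apply Finset.sum_le_sum_of_subset_of_nonneg (Finset.filter_subset _ _)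
    intro d _ _
    positivity
  refine h3.trans ?_
  rw [← Finset.mul_sum, Finset.sum_add_distrib, Finset.sum_const, nsmul_eq_mul, Nat.card_Icc,
    Nat.add_sub_cancel]
  have h4 : ∑ d ∈ Finset.Icc 1 ⌊√X⌋₊, √X / (d : ℝ) ≤ √X * (1 + Real.log (4 * X)) := by
    have h5 := sum_inv_le ⌊√X⌋₊
    have h6 : Real.log (⌊√X⌋₊ : ℝ) ≤ Real.log (4 * X) := by
      apply Real.log_le_log
      · exact_mod_cast Nat.floor_pos.2 hsX1
      · have := Nat.floor_le (Real.sqrt_nonneg X)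
        linarith
    calc ∑ d ∈ Finset.Icc 1 ⌊√X⌋₊, √X / (d : ℝ) = √X * ∑ d ∈ Finset.Icc 1 ⌊√X⌋₊, 1 / (d : ℝ) := by
          rw [Finset.mul_sum]
          apply Finset.sum_congr rfl
          intro d _
          ring
      _ ≤ √X * (1 + Real.log ⌊√X⌋₊) := by gcongr
      _ ≤ _ := by gcongr
  have h7 : (⌊√X⌋₊ : ℝ) ≤ √X := Nat.floor_le (Real.sqrt_nonneg X)
  set L := 1 + Real.log (4 * X) with hL
  have hL0 : 0 ≤ L := by positivity
  calc Real.log (4 * X) * ((⌊√X⌋₊ : ℝ) * (8 * L) + ∑ d ∈ Finset.Icc 1 ⌊√X⌋₊, √X / (d : ℝ))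
      ≤ L * (√X * (8 * L) + √X * L) := by
        gcongr
        linarith
    _ = 9 * √X * L ^ 2 := by ring
    _ ≤ _ := by gcongr; norm_num

end Pool.Agent.Helper368_LD
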