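import Pool.Agent.Helper368_LD.SWb
import Pool.Agent.Helper368_LD.Tail
import Pool.Agent.Helper368_LD.SieveP

/-!
# The blocks without a hypothesis on the twists
-/

set_option autoImplicit false

namespace Pool.Agent.Helper368_LD

open MeasureTheory Set Complex
open scoped Real ArithmeticFunction.vonMangoldt
open Pool.Agent.H491R3.J

theorem MJ_total' {J n : ℕ} (hn : 1 ≤ n) {x : ℝ} (hx : 1 ≤ x) (hxn : x ≤ 2 ^ n) (hJ1 : 1 ≤ J)
    {r : ℂ} (h1 : 0 < r.re) (h2 : r.re ≤ 2 / 5) :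
    ‖∑ i ∈ Finset.Ico 1 n, MJ J r (2 ^ i) x - (x : ℂ) ^ (1 - r) * Cr r‖ ≤
      40 * √x + 2 * ((2 : ℝ) ^ n) ^ (1 - r.re) / J +
      7 * x * (1 + Real.log (2 ^ n) + 2 / r.re) * (2 / r.re) * ((2 : ℝ) ^ n) ^ (-r.re) := by
  have hn2 : (2 : ℝ) ≤ 2 ^ n := by
    calc (2 : ℝ) = 2 ^ 1 := (pow_one _).symm
      _ ≤ 2 ^ n := pow_le_pow_right₀ (by norm_num) hn
  have hT0 : (0 : ℝ) < 2 ^ n := by positivity
  have hJ0 : (0 : ℝ) < J := by exact_mod_cast hJ1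
  have hx0 : 0 < x := by linarith
  rw [MJ_sum J r x hn, gf_split hx0 hn2 h1 (by linarith)]
  have a1 := gf_int_zero hx h1 h2
  have a2 := gf_tail hx hxn h1
  obtain ⟨hi, -⟩ := gf_int hx0 h1 (by linarith : r.re < 1 / 2)
  have hgf : IntervalIntegrable (fun u : ℝ => (u : ℂ) ^ (-(1 / 2 + r)) * (gf x u : ℂ)) volume
      (2 : ℝ) (2 ^ n) := by
    rw [intervalIntegrable_iff_integrableOn_Ioc_of_le hn2]
    exact hi.mono_set (fun a ha => by have := ha.1; rw [mem_Ioi]; linarith)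
  have hgJ : IntervalIntegrable (fun u : ℝ => (u : ℂ) ^ (-(1 / 2 + r)) * (gJ J x u : ℂ)) volume
      (2 : ℝ) (2 ^ n) := by
    rw [intervalIntegrable_iff_integrableOn_Icc_of_le hn2]
    apply ContinuousOn.integrableOn_Icc
    exact (cpow_cont (by norm_num) _).mul
      (Complex.continuous_ofReal.comp_continuousOn (gJ_cont_u J x (by norm_num)))
  have a3 : ‖(∫ u in (2 : ℝ)..(2 ^ n), (u : ℂ) ^ (-(1 / 2 + r)) * (gJ J x u : ℂ)) -
      ∫ u in (2 : ℝ)..(2 ^ n), (u : ℂ) ^ (-(1 / 2 + r)) * (gf x u : ℂ)‖ ≤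
      2 * ((2 : ℝ) ^ n) ^ (1 - r.re) / J := by
    rw [← intervalIntegral.integral_sub hgJ hgf]
    have hb : ∀ u ∈ Set.Ioc (2 : ℝ) (2 ^ n), ‖(u : ℂ) ^ (-(1 / 2 + r)) * (gJ J x u : ℂ) -
        (u : ℂ) ^ (-(1 / 2 + r)) * (gf x u : ℂ)‖ ≤ (J : ℝ)⁻¹ * u ^ (-r.re) := by
      intro u hu
      have hu0 : 0 < u := by linarith [hu.1]
      rw [← mul_sub, norm_mul, norm_cpow_r hu0, ← ofReal_sub, norm_real, Real.norm_eq_abs]
      calc u ^ (-(1 / 2 + r.re)) * |gJ J x u - gf x u| ≤ u ^ (-(1 / 2 + r.re)) * (√u / J) := by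
            apply mul_le_mul_of_nonneg_left (gJ_gf hJ1) (Real.rpow_nonneg hu0.le _)
        _ = (J : ℝ)⁻¹ * (u ^ (-(1 / 2 + r.re)) * u ^ (1 / 2 : ℝ)) := by
            rw [Real.sqrt_eq_rpow]
            ring
        _ = _ := by
            rw [← Real.rpow_add hu0]
            congr 2
            ring
    have hgi : IntervalIntegrable (fun u : ℝ => (J : ℝ)⁻¹ * u ^ (-r.re)) volume 2 (2 ^ n) :=
      (intervalIntegral.intervalIntegrable_rpow' (by linarith)).const_mul _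
    refine (intervalIntegral.norm_integral_le_of_norm_le hn2
      (Filter.Eventually.of_forall hb) hgi).trans ?_
    rw [intervalIntegral.integral_const_mul, integral_rpow (Or.inl (by linarith))]
    have e1 : -r.re + 1 = 1 - r.re := by ring
    rw [e1]
    have h5 : 0 ≤ (2 : ℝ) ^ (1 - r.re) := by positivity
    have h6 : 0 < ((2 : ℝ) ^ n) ^ (1 - r.re) := by positivity
    calc (J : ℝ)⁻¹ * ((((2 : ℝ) ^ n) ^ (1 - r.re) - 2 ^ (1 - r.re)) / (1 - r.re)) ≤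
          (J : ℝ)⁻¹ * (2 * ((2 : ℝ) ^ n) ^ (1 - r.re)) := by
          apply mul_le_mul_of_nonneg_left _ (by positivity)
          rw [div_le_iff₀ (by linarith)]
          nlinarith
      _ = _ := by ring
  set A0 := ∫ u in Ioc (0 : ℝ) 2, (u : ℂ) ^ (-(1 / 2 + r)) * (gf x u : ℂ) with hA0
  set A2 := ∫ u in Ioi ((2 : ℝ) ^ n), (u : ℂ) ^ (-(1 / 2 + r)) * (gf x u : ℂ) with hA2
  set GJ := ∫ u in (2 : ℝ)..(2 ^ n), (u : ℂ) ^ (-(1 / 2 + r)) * (gJ J x u : ℂ) with hGJ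
  set GF := ∫ u in (2 : ℝ)..(2 ^ n), (u : ℂ) ^ (-(1 / 2 + r)) * (gf x u : ℂ) with hGF
  have e1 : GJ - (A0 + GF + A2) = (GJ - GF) - (A0 + A2) := by ring
  rw [e1]
  calc _ ≤ ‖GJ - GF‖ + ‖A0 + A2‖ := norm_sub_le _ _
    _ ≤ ‖GJ - GF‖ + (‖A0‖ + ‖A2‖) := by
        gcongr
        exact norm_add_le _ _
    _ ≤ _ := by linarith

theorem WW_small {r : ℂ} {Q x : ℝ} (hQ : 1 ≤ Q) (hQx : Q ≤ x) (hr : 0 ≤ r.re) :
    ‖WW r Q x‖ ≤ 156 * (1 + Real.log (8 * Q)) * (√x * Q ^ (1 / 2 - r.re)) := by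
  have hQ0 : 0 < Q := by linarith
  have hx0 : 0 < x := by linarith
  have hl : 0 ≤ Real.log (8 * Q) := Real.log_nonneg (by linarith)
  have hB : ∀ p ∈ Finset.Ioc ⌊Q⌋₊ ⌊2 * Q⌋₊, p.Prime → p ≠ 2 →
      ‖((∑ l ∈ Finset.Icc 1 ⌊x⌋₊, fnp p l : ℝ) : ℂ)‖ ≤ 13 * (1 + Real.log (8 * Q)) * √x := by
    intro p hp hpp _
    obtain ⟨hp0, hpQ, hp2Q⟩ := mem_block hQ0 hp
    rw [norm_real, Real.norm_eq_abs]
    have h1 := Fp_abs hpp hx0.le
    refine h1.trans ?_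
    have hp0' : (0 : ℝ) < p := by exact_mod_cast hp0
    unfold Bm
    have h2 : √(p : ℝ) ≤ 1.5 * √x := by
      rw [Real.sqrt_le_left (by positivity), mul_pow, Real.sq_sqrt hx0.le]
      linarith
    have h3 : Real.log (4 * (p : ℝ)) ≤ Real.log (8 * Q) := Real.log_le_log (by positivity) (by linarith)
    have h4 : 0 ≤ 1 + Real.log (4 * (p : ℝ)) := by
      have : (1 : ℝ) ≤ p := by exact_mod_cast hp0
      have := Real.log_nonneg (show (1 : ℝ) ≤ 4 * p by linarith)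
      linarith
    have h5 : 0 ≤ √x := Real.sqrt_nonneg x
    calc 8 * √(p : ℝ) * (1 + Real.log (4 * p)) + √x ≤ 8 * (1.5 * √x) * (1 + Real.log (8 * Q)) + √x := by
          gcongr
      _ ≤ _ := by nlinarith [mul_nonneg h5 hl]
  have h := norm_ap_sum_le (r := r) hQ0 hr (by positivity) hB
  unfold WW
  refine h.trans (le_of_eq ?_)
  have e1 : Q ^ (1 / 2 - r.re) = Q * Q ^ (-(1 / 2 + r.re)) := by
    nth_rewrite 2 [← Real.rpow_one Q]
    rw [← Real.rpow_add hQ0]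
    congr 1
    ring
  rw [e1]
  ring

theorem MJ_small {J : ℕ} (hJ : 1 ≤ J) {r : ℂ} {Q x : ℝ} (hQ : 1 ≤ Q) (hQx : Q ≤ x) (hr : 0 ≤ r.re) :
    ‖MJ J r Q x‖ ≤ 4 * (√x * Q ^ (1 / 2 - r.re)) := by
  have hQ0 : 0 < Q := by linarith
  have hx0 : 0 < x := by linarith
  have hJ1 : (1 : ℝ) ≤ J := by exact_mod_cast hJ
  unfold MJ
  have h1 : ∀ u ∈ Icc Q (2 * Q), ‖(gJ J x u : ℂ)‖ ≤ 4 * √x := by
    intro u hu
    rw [norm_real, Real.norm_eq_abs]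
    have h2 := gJ_gf hJ (x := x) (u := u)
    have h3 := gf_abs_small (x := x) (u := u)
    have h4 : √u ≤ 1.5 * √x := by
      rw [Real.sqrt_le_left (by positivity), mul_pow, Real.sq_sqrt hx0.le]
      linarith [hu.2]
    have h5 : √u / J ≤ √u := div_le_self (Real.sqrt_nonneg _) hJ1
    have h6 : |gJ J x u| ≤ |gJ J x u - gf x u| + |gf x u| := by
      have := abs_add_le (gJ J x u - gf x u) (gf x u)
      rwa [sub_add_cancel] at this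
    linarith [Real.sqrt_nonneg x]
  have h := int_bound (r := r) rfl hQ0 hr (by positivity) h1
  refine h.trans (le_of_eq ?_)
  ring

/-- the exponents -/
def aH (b1 b2 m : ℕ) : ℕ := b1 + b2 + 2 * m + 5

/-- the exponents -/
def bJ (b1 b2 m : ℕ) : ℕ := b1 + aH b1 b2 m + m

/-- the exponents -/
def aE (b1 b2 m : ℕ) : ℕ := aH b1 b2 m + b1 + bJ b1 b2 m + m

/-- the number of frequencies -/
noncomputable def JF (b1 b2 m : ℕ) (ℓ : ℝ) : ℕ := ⌈ℓ ^ bJ b1 b2 m⌉₊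

theorem JF_facts (b1 b2 m : ℕ) {ℓ : ℝ} (hℓ : 1 ≤ ℓ) : 1 ≤ JF b1 b2 m ℓ ∧
    ℓ ^ bJ b1 b2 m ≤ JF b1 b2 m ℓ ∧ (JF b1 b2 m ℓ : ℝ) ≤ 2 * ℓ ^ bJ b1 b2 m := by
  have h1 : 1 ≤ ℓ ^ bJ b1 b2 m := one_le_pow₀ hℓ
  have h2 : ℓ ^ bJ b1 b2 m ≤ JF b1 b2 m ℓ := Nat.le_ceil _
  refine ⟨?_, h2, ?_⟩
  · have : (1 : ℝ) ≤ JF b1 b2 m ℓ := h1.trans h2
    exact_mod_cast this
  · have := Nat.ceil_lt_add_one (show 0 ≤ ℓ ^ bJ b1 b2 m by positivity)
    unfold JF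
    linarith

end Pool.Agent.Helper368_LD
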