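import Pool.Agent.Helper368_LD.FBlock

/-!
# The middle blocks without a hypothesis on the twists
-/

set_option autoImplicit false

namespace Pool.Agent.Helper368_LD

open MeasureTheory Set Complex
open scoped Real ArithmeticFunction.vonMangoldt
open Pool.Agent.H491R3.J

theorem mid_block (hG : GRHJ) (b1 b2 m : ℕ) {κ : ℝ} (hκ : 1 ≤ κ) : ∃ C Q0 : ℝ, 0 ≤ C ∧
    ∀ (ℓ x Q : ℝ) (r : ℂ), 1 ≤ ℓ → Q0 ≤ Q → ℓ ≤ 28 * Real.log Q → Q ≤ x * ℓ ^ b1 → x ≤ Q * ℓ ^ b2 →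
    ℓ ^ (aH b1 b2 m) ≤ x → Real.log (16 * (2 * x + 1)) ≤ κ * ℓ → Real.log (18 * Q) ≤ κ * ℓ →
    0 ≤ r.re → r.re ≤ 1 →
    ‖MJ (JF b1 b2 m ℓ) r Q x - WW r Q x‖ ≤ C * (1 + |r.im|) * (x / ℓ ^ m) * Q ^ (-r.re) := by
  set a := aH b1 b2 m with ha
  set b3 := bJ b1 b2 m with hb3
  set a3 := aE b1 b2 m with ha3
  have e_a : a = b1 + b2 + 2 * m + 5 := rfl
  have e_b3 : b3 = b1 + a + m := rfl
  have e_a3 : a3 = a + b1 + b3 + m := rfl
  obtain ⟨Q1, hQ1⟩ := pside_SW hG a3 (2 * b3 + 1)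
  refine ⟨3 + 4500 * 28 ^ a3 + 40 + (150 * 28 ^ a3 + 18) + 1 + 24 * 10 ^ 6 * κ ^ 5,
    max (max Q1 1) (Real.exp (16 * 28 ^ (2 * b3))), by positivity, ?_⟩
  intro ℓ x Q r hℓ hQ hℓQ hQx hxQ hax hl1 hl2 hr0 hr1
  have hQQ1 : Q1 ≤ Q := (le_max_left _ _).trans ((le_max_left _ _).trans hQ)
  have hQ1' : 1 ≤ Q := (le_max_right _ _).trans ((le_max_left _ _).trans hQ)
  have hQe : Real.exp (16 * 28 ^ (2 * b3)) ≤ Q := (le_max_right _ _).trans hQ
  have hQ0 : 0 < Q := by linarith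
  have hLQ : 16 * 28 ^ (2 * b3) ≤ Real.log Q := by
    rw [Real.le_log_iff_exp_le hQ0]
    exact hQe
  have hLQ0 : 0 < Real.log Q := lt_of_lt_of_le (by positivity) hLQ
  have hℓ0 : 0 < ℓ := by linarith
  have hx1 : 1 ≤ x := (one_le_pow₀ hℓ).trans hax
  have hx0 : 0 < x := by linarith
  obtain ⟨j1, j2, j3⟩ := JF_facts b1 b2 m hℓ
  rw [← hb3] at j2 j3
  set J := JF b1 b2 m ℓ with hJ
  have hJ1 : (1 : ℝ) ≤ J := by exact_mod_cast j1
  have hJ0 : (0 : ℝ) < J := by linarith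
  have hK : 4 * ((J ^ 2 : ℕ) : ℝ) ≤ Real.log Q ^ (2 * b3 + 1) := by
    push_cast
    calc 4 * (J : ℝ) ^ 2 ≤ 4 * (2 * ℓ ^ b3) ^ 2 := by gcongr
      _ = 16 * ℓ ^ (2 * b3) := by ring
      _ ≤ 16 * (28 * Real.log Q) ^ (2 * b3) := by gcongr
      _ = (16 * 28 ^ (2 * b3)) * Real.log Q ^ (2 * b3) := by rw [mul_pow]; ring
      _ ≤ Real.log Q * Real.log Q ^ (2 * b3) := by gcongr
      _ = _ := by ring
  have hps := hQ1 Q hQQ1 r.im (J ^ 2) hK
  set t := r.im with ht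
  have htt : 0 ≤ |t| := abs_nonneg t
  set E := (1 + |t|) * (100 * Q / Real.log Q ^ a3) with hE
  have hE0 : 0 ≤ E := by positivity
  -- the bound for `E`
  have hElog : 1 / Real.log Q ^ a3 ≤ 28 ^ a3 / ℓ ^ a3 := by
    rw [div_le_div_iff₀ (by positivity) (by positivity), one_mul, ← mul_pow]
    gcongr
  have hE1 : E ≤ 100 * 28 ^ a3 * (1 + |t|) * x * (ℓ ^ b1 / ℓ ^ a3) := by
    calc E = (1 + |t|) * (100 * Q) * (1 / Real.log Q ^ a3) := by rw [hE]; ring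
      _ ≤ (1 + |t|) * (100 * (x * ℓ ^ b1)) * (28 ^ a3 / ℓ ^ a3) := by gcongr
      _ = _ := by ring
  set H := x / ℓ ^ a with hH
  have hℓa : 0 < ℓ ^ a := by positivity
  have hH1 : 1 ≤ H := by
    rw [hH, le_div_iff₀ hℓa]
    linarith
  have hH0 : 0 < H := by linarith
  have hHx : H ≤ x := div_le_self hx0.le (one_le_pow₀ hℓ)
  have hxH : x / H = ℓ ^ a := by rw [hH]; field_simp
  have hB : ∀ h ∈ Icc 0 H, ‖MJ J r Q (x + h) - MJ J r Q x‖ ≤ (3 * √H * √Q) * Q ^ (-r.re) := by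
    intro h hh
    have h1 := MJ_mod J (r := r) (Q := Q) hQ0 hr0 hx0.le hh.1
    refine h1.trans ?_
    have e1 : Q ^ (1 / 2 - r.re) = √Q * Q ^ (-r.re) := by
      rw [Real.sqrt_eq_rpow, ← Real.rpow_add hQ0]
      congr 1
    rw [e1]
    have h2 : √h ≤ √H := Real.sqrt_le_sqrt hh.2
    calc 3 * √h * (√Q * Q ^ (-r.re)) ≤ 3 * √H * (√Q * Q ^ (-r.re)) := by gcongr
      _ = _ := by ring
  have hmain := MJ_WW hG (L := 2 * x) j1 hps hQ1' hx0.le hH0 hr0 hr1 (by linarith) hB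
  refine hmain.trans ?_
  apply mul_le_mul_of_nonneg_right _ (Real.rpow_nonneg hQ0.le _)
  set G := x / ℓ ^ m with hGd
  have hG0 : 0 < G := by positivity
  have hℓm : 0 < ℓ ^ m := by positivity
  -- powers of `ℓ`
  have hpw : ∀ i j : ℕ, i + m ≤ j → ℓ ^ i / ℓ ^ j ≤ 1 / ℓ ^ m := by
    intro i j hij
    rw [div_le_div_iff₀ (by positivity) (by positivity), one_mul, ← pow_add]
    exact pow_le_pow_right₀ hℓ hij
  -- (1)
  have t1 : 3 * √H * √Q ≤ 3 * G := by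
    have h1 : √H * √Q ≤ G := by
      rw [← Real.sqrt_mul hH0.le, Real.sqrt_le_left hG0.le]
      calc H * Q ≤ x / ℓ ^ a * (x * ℓ ^ b1) := by gcongr
        _ = x ^ 2 * (ℓ ^ b1 / ℓ ^ a) := by ring
        _ ≤ x ^ 2 * (1 / ℓ ^ (2 * m)) := by
            apply mul_le_mul_of_nonneg_left _ (by positivity)
            rw [div_le_div_iff₀ (by positivity) (by positivity), one_mul, ← pow_add]
            exact pow_le_pow_right₀ hℓ (by omega)
        _ = G ^ 2 := by rw [hGd, div_pow, ← pow_mul, mul_comm m 2]; ring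
    calc 3 * √H * √Q = 3 * (√H * √Q) := by ring
      _ ≤ _ := by gcongr
  -- (2)
  have t2 : 8 / π * E * (x / H + 2) * (1 + Real.log ((J ^ 2 : ℕ) : ℝ)) ≤
      4500 * 28 ^ a3 * (1 + |t|) * G := by
    have hpi : 8 / π ≤ 3 := by
      rw [div_le_iff₀ Real.pi_pos]
      have := Real.pi_gt_three
      linarith
    have h1 : x / H + 2 ≤ 3 * ℓ ^ a := by
      rw [hxH]
      have : 1 ≤ ℓ ^ a := one_le_pow₀ hℓ
      linarith
    have h2 : 1 + Real.log ((J ^ 2 : ℕ) : ℝ) ≤ 5 * ℓ ^ b3 := by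
      push_cast
      rw [Real.log_pow]
      push_cast
      have h3 : Real.log (J : ℝ) ≤ J - 1 := Real.log_le_sub_one_of_pos hJ0
      have h4 : 1 ≤ ℓ ^ b3 := one_le_pow₀ hℓ
      linarith
    have h2' : 0 ≤ 1 + Real.log ((J ^ 2 : ℕ) : ℝ) := by
      have : 0 ≤ Real.log ((J ^ 2 : ℕ) : ℝ) := Real.log_natCast_nonneg _
      linarith
    have h1' : 0 ≤ x / H + 2 := by positivity
    calc _ ≤ 3 * (100 * 28 ^ a3 * (1 + |t|) * x * (ℓ ^ b1 / ℓ ^ a3)) * (3 * ℓ ^ a) * (5 * ℓ ^ b3) := by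
          gcongr
      _ = 4500 * 28 ^ a3 * (1 + |t|) * (x * (ℓ ^ (a + b1 + b3) / ℓ ^ a3)) := by ring
      _ ≤ 4500 * 28 ^ a3 * (1 + |t|) * (x * (1 / ℓ ^ m)) := by
          have := hpw (a + b1 + b3) a3 (by omega)
          gcongr
      _ = _ := by rw [hGd]; ring
  -- (3)
  have t3 : 40 * Q ^ 2 / (H * ((J ^ 2 : ℕ) : ℝ)) ≤ 40 * G := by
    have h1 : (ℓ ^ b3) ^ 2 ≤ ((J ^ 2 : ℕ) : ℝ) := by
      push_cast
      gcongr
    calc 40 * Q ^ 2 / (H * ((J ^ 2 : ℕ) : ℝ)) ≤ 40 * (x * ℓ ^ b1) ^ 2 / (H * (ℓ ^ b3) ^ 2) := by gcongr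
      _ = 40 * (x * (ℓ ^ (2 * b1 + a) / ℓ ^ (2 * b3))) := by
          rw [hH]
          field_simp
          ring
      _ ≤ 40 * (x * (1 / ℓ ^ m)) := by
          have := hpw (2 * b1 + a) (2 * b3) (by omega)
          gcongr
      _ = _ := by rw [hGd]; ring
  -- (4)
  have hsx : √(x + H) ≤ 1.5 * √x := by
    have h1 : √(x + H) ≤ √(2 * x) := Real.sqrt_le_sqrt (by linarith)
    have h2 : √(2 * x) = √2 * √x := Real.sqrt_mul (by norm_num) _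
    have h5 : √2 ≤ 1.5 := Real.sqrt_le_iff.2 ⟨by norm_num, by norm_num⟩
    rw [h2] at h1
    refine h1.trans ?_
    gcongr
  have hsq : √x ≤ √Q * ℓ ^ b2 := by
    rw [Real.sqrt_le_left (by positivity), mul_pow, Real.sq_sqrt hQ0.le]
    refine hxQ.trans ?_
    apply mul_le_mul_of_nonneg_left _ hQ0.le
    have : 1 ≤ ℓ ^ b2 := one_le_pow₀ hℓ
    nlinarith
  have hxm : ℓ ^ b2 ≤ G := by
    rw [hGd, le_div_iff₀ hℓm, ← pow_add]
    exact (pow_le_pow_right₀ hℓ (by omega)).trans hax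
  have t4 : √(x + H) * (E + 12) / √Q ≤ (150 * 28 ^ a3 + 18) * (1 + |t|) * G := by
    have hsQ : 0 < √Q := Real.sqrt_pos.2 hQ0
    have h1 : √(x + H) / √Q ≤ 1.5 * ℓ ^ b2 := by
      rw [div_le_iff₀ hsQ]
      calc √(x + H) ≤ 1.5 * √x := hsx
        _ ≤ 1.5 * (√Q * ℓ ^ b2) := by gcongr
        _ = _ := by ring
    calc √(x + H) * (E + 12) / √Q = √(x + H) / √Q * (E + 12) := by ring
      _ ≤ 1.5 * ℓ ^ b2 * (100 * 28 ^ a3 * (1 + |t|) * x * (ℓ ^ b1 / ℓ ^ a3) + 12) := by gcongr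
      _ = 150 * 28 ^ a3 * (1 + |t|) * (x * (ℓ ^ (b1 + b2) / ℓ ^ a3)) + 18 * ℓ ^ b2 := by ring
      _ ≤ 150 * 28 ^ a3 * (1 + |t|) * (x * (1 / ℓ ^ m)) + 18 * (1 + |t|) * G := by
          have h2 := hpw (b1 + b2) a3 (by omega)
          have h3 : 18 * ℓ ^ b2 ≤ 18 * (1 + |t|) * G := by
            have : 18 * ℓ ^ b2 ≤ 18 * G := by linarith
            nlinarith
          gcongr
      _ = _ := by rw [hGd]; ring
  -- (5)
  have t5 : √Q ≤ G := by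
    rw [Real.sqrt_le_left hG0.le]
    calc Q ≤ x * ℓ ^ b1 := hQx
      _ ≤ x * (x / ℓ ^ (2 * m)) := by
          apply mul_le_mul_of_nonneg_left _ hx0.le
          rw [le_div_iff₀ (by positivity), ← pow_add]
          exact (pow_le_pow_right₀ hℓ (by omega)).trans hax
      _ = G ^ 2 := by rw [hGd, div_pow, ← pow_mul, mul_comm m 2]; ring
  -- (6)
  have t6 : (H + 1) * Nb (2 * x) t Q ≤ 24 * 10 ^ 6 * κ ^ 5 * (1 + |t|) * G := by
    have h1 := log_five_le' t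
    have h1' := log_five_le t
    have h2 : 0 ≤ Real.log (18 * Q) := Real.log_nonneg (by linarith)
    have h3 : 0 ≤ Real.log (16 * (2 * x + 1)) := Real.log_nonneg (by linarith)
    unfold Nb
    calc (H + 1) * (3 * 10 ^ 6 * Real.log (16 * (2 * x + 1)) * Real.log (|t| + 5) *
          Real.log (18 * Q) ^ 4) ≤ (H + H) * (3 * 10 ^ 6 * (κ * ℓ) * (4 * (1 + |t|)) * (κ * ℓ) ^ 4) := by
          gcongr
      _ = 24 * 10 ^ 6 * κ ^ 5 * (1 + |t|) * (x * (ℓ ^ 5 / ℓ ^ a)) := by rw [hH]; ring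
      _ ≤ 24 * 10 ^ 6 * κ ^ 5 * (1 + |t|) * (x * (1 / ℓ ^ m)) := by
          have := hpw 5 a (by omega)
          gcongr
      _ = _ := by rw [hGd]; ring
  have hone : ∀ w : ℝ, 0 ≤ w → w * G ≤ w * (1 + |t|) * G := by
    intro w hw
    have : w * 1 * G ≤ w * (1 + |t|) * G := by gcongr; linarith
    linarith
  have u1 := hone 3 (by norm_num)
  have u3 := hone 40 (by norm_num)
  have u5 := hone 1 (by norm_num)
  calc _ ≤ 3 * (1 + |t|) * G + 4500 * 28 ^ a3 * (1 + |t|) * G + 40 * (1 + |t|) * G +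
        (150 * 28 ^ a3 + 18) * (1 + |t|) * G + 1 * (1 + |t|) * G +
        24 * 10 ^ 6 * κ ^ 5 * (1 + |t|) * G := by
        have w1 := t1.trans u1
        have w3 := t3.trans u3
        have w5 : √Q ≤ 1 * (1 + |t|) * G := by linarith
        linarith only [w1, t2, w3, t4, w5, t6]
    _ = _ := by ring

end Pool.Agent.Helper368_LD
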