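import Pool.Agent.Helper368_LD.SieveP
import Pool.Agent.Helper368_LD.MainTwo

/-!
# The primes in the non-square part
-/

set_option autoImplicit false

namespace Pool.Agent.Helper368_LD

open MeasureTheory Set Complex
open scoped Real ArithmeticFunction.vonMangoldt
open Pool.Agent.H491R3.J
open ArithmeticFunction (moebius)

theorem cpow_exp {x : ℝ} (hx : 0 < x) (z : ℂ) : (x : ℂ) ^ z = Complex.exp ((Real.log x : ℂ) * z) := by
  have hx' : (x : ℂ) ≠ 0 := by exact_mod_cast hx.ne'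
  rw [Complex.cpow_def_of_ne_zero hx', Complex.ofReal_log hx.le]

theorem cpow_div_sq {X : ℝ} (hX : 0 < X) {d : ℕ} (hd : 1 ≤ d) (r : ℂ) :
    ((X / (d : ℝ) ^ 2 : ℝ) : ℂ) ^ (1 - r) = (X : ℂ) ^ (1 - r) * (d : ℂ) ^ (-(2 - 2 * r)) := by
  have hd0 : (0 : ℝ) < d := by exact_mod_cast hd
  have e1 : (d : ℂ) = ((d : ℝ) : ℂ) := (Complex.ofReal_natCast d).symm
  rw [e1, cpow_exp (by positivity), cpow_exp hX, cpow_exp hd0, ← Complex.exp_add,
    Real.log_div hX.ne' (by positivity), Real.log_pow]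
  congr 1
  push_cast
  ring

theorem Main2_eq {X : ℝ} {r : ℂ} (hr0 : 0 < r.re) (hr : r.re < 1 / 2) :
    Main2 X r = (X : ℂ) ^ (1 - r) * Cr r * LSeries (muc 2) (2 - 2 * r) := by
  unfold Main2
  rw [PD_eq hr, Cr_eq hr0 hr]
  have h1 : riemannZeta 2 ≠ 0 := riemannZeta_ne_zero_of_one_lt_re (by norm_num)
  have h2 : (1 : ℂ) - r ≠ 0 := by
    intro h
    have := congrArg Complex.re h
    simp only [sub_re, one_re, zero_re] at this
    linarith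
  field_simp

theorem sum_main_d {X : ℝ} (hX : 1 ≤ X) {r : ℂ} (hr0 : 0 < r.re) (hr : r.re ≤ 2 / 5) :
    ‖∑ d ∈ (Finset.Icc 1 ⌊√X⌋₊).filter (fun d => Odd d), ((moebius d : ℤ) : ℂ) *
        (((X / (d : ℝ) ^ 2 : ℝ) : ℂ) ^ (1 - r) * Cr r) - Main2 X r‖ ≤ 500 * √X / r.re ^ 2 := by
  have hX0 : 0 < X := by linarith
  have hsX1 : 1 ≤ √X := by rw [Real.one_le_sqrt]; exact hX
  set D := ⌊√X⌋₊ with hD
  have hD1 : 1 ≤ D := Nat.floor_pos.2 hsX1
  have h1 : ∑ d ∈ (Finset.Icc 1 D).filter (fun d => Odd d), ((moebius d : ℤ) : ℂ) *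
        (((X / (d : ℝ) ^ 2 : ℝ) : ℂ) ^ (1 - r) * Cr r) =
      (X : ℂ) ^ (1 - r) * Cr r * ∑ d ∈ Finset.Icc 1 D, muc 2 d * (d : ℂ) ^ (-(2 - 2 * r)) := by
    rw [Finset.mul_sum, Finset.sum_filter]
    apply Finset.sum_congr rfl
    intro d hd
    rw [Finset.mem_Icc] at hd
    rw [cpow_div_sq hX0 hd.1]
    unfold muc
    by_cases ho : Odd d
    · rw [if_pos ho, if_pos (Nat.coprime_two_right.2 ho)]
      ring
    · rw [if_neg ho, if_neg (fun h => ho (Nat.coprime_two_right.1 h))]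
      ring
  have hs : 1 < (2 - 2 * r).re := by simp; linarith
  have hsre : (2 - 2 * r).re = 2 - 2 * r.re := by simp
  rw [h1, Main2_eq hr0 (by linarith), ← mul_sub, norm_mul, norm_mul, norm_sub_rev]
  have h2 := lseries_tail (muc_norm 2) hs hD1
  rw [hsre] at h2
  have h3 : ‖(X : ℂ) ^ (1 - r)‖ = X ^ (1 - r.re) := by
    rw [norm_cpow_eq_rpow_re_of_pos hX0]
    simp
  have h4 := Cr_abs hr0 hr
  set σ := r.re with hσ
  have h5 : (D : ℝ) ^ (1 - (2 - 2 * σ)) ≤ 2 * X ^ (-(1 / 2 - σ)) := by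
    have hD2 : √X / 2 ≤ D := by
      have a1 := Nat.lt_floor_add_one √X
      have a2 : (1 : ℝ) ≤ D := by exact_mod_cast hD1
      rw [← hD] at a1
      linarith
    have a3 : (1 - (2 - 2 * σ)) = -(1 - 2 * σ) := by ring
    rw [a3]
    calc (D : ℝ) ^ (-(1 - 2 * σ)) ≤ (√X / 2) ^ (-(1 - 2 * σ)) :=
          Real.rpow_le_rpow_of_nonpos (by positivity) hD2 (by linarith)
      _ = (√X) ^ (-(1 - 2 * σ)) * 2 ^ (1 - 2 * σ) := by
          rw [Real.div_rpow (Real.sqrt_nonneg X) (by norm_num), Real.rpow_neg (by norm_num : (0 : ℝ) ≤ 2)]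
          field_simp
      _ ≤ (√X) ^ (-(1 - 2 * σ)) * 2 ^ (1 : ℝ) := by
          gcongr
          · norm_num
          · linarith
      _ = _ := by
          rw [Real.rpow_one, Real.sqrt_eq_rpow, ← Real.rpow_mul hX0.le, mul_comm]
          congr 2
          ring
  have h6 : X ^ (1 - σ) * X ^ (-(1 / 2 - σ)) = √X := by
    rw [← Real.rpow_add hX0, Real.sqrt_eq_rpow]
    congr 1
    ring
  have h7 : (0 : ℝ) < 2 - 2 * σ - 1 := by linarith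
  have h8 : 1 / (2 - 2 * σ - 1) ≤ 5 := by
    rw [div_le_iff₀ h7]
    linarith
  rw [h3]
  calc X ^ (1 - σ) * ‖Cr r‖ * ‖_‖ ≤ X ^ (1 - σ) * (50 / σ ^ 2) *
        ((D : ℝ) ^ (1 - (2 - 2 * σ)) / (2 - 2 * σ - 1)) := by gcongr
    _ = X ^ (1 - σ) * (50 / σ ^ 2) * ((D : ℝ) ^ (1 - (2 - 2 * σ)) * (1 / (2 - 2 * σ - 1))) := by
        ring
    _ ≤ X ^ (1 - σ) * (50 / σ ^ 2) * ((2 * X ^ (-(1 / 2 - σ))) * 5) := by
        gcongr
    _ = 500 * (X ^ (1 - σ) * X ^ (-(1 / 2 - σ))) / σ ^ 2 := by ring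
    _ = _ := by rw [h6]

/-- the sum over `d` of the error terms -/
theorem sum_err_d {X K e : ℝ} (hX : 1 ≤ X) (hK : 0 ≤ K) (he : 1 / 2 ≤ e) :
    ∑ d ∈ (Finset.Icc 1 ⌊√X⌋₊).filter (fun d => Odd d), K * (X / (d : ℝ) ^ 2) ^ e ≤
      K * X ^ e * (1 + Real.log X) := by
  have hX0 : 0 < X := by linarith
  have hsX1 : 1 ≤ √X := by rw [Real.one_le_sqrt]; exact hX
  have hsX : √X ≤ X := by
    rw [Real.sqrt_le_left hX0.le]
    nlinarith
  have h1 : ∑ d ∈ (Finset.Icc 1 ⌊√X⌋₊).filter (fun d => Odd d), K * (X / (d : ℝ) ^ 2) ^ e ≤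
      ∑ d ∈ Finset.Icc 1 ⌊√X⌋₊, K * (X / (d : ℝ) ^ 2) ^ e := by
    apply Finset.sum_le_sum_of_subset_of_nonneg (Finset.filter_subset _ _)
    intro d _ _
    positivity
  refine h1.trans ?_
  have h2 : ∀ d ∈ Finset.Icc 1 ⌊√X⌋₊, K * (X / (d : ℝ) ^ 2) ^ e ≤ K * X ^ e * (1 / (d : ℝ)) := by
    intro d hd
    rw [Finset.mem_Icc] at hd
    have hd1 : (1 : ℝ) ≤ d := by exact_mod_cast hd.1
    rw [mul_assoc]
    apply mul_le_mul_of_nonneg_left _ hK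
    rw [Real.div_rpow hX0.le (by positivity), div_eq_mul_one_div]
    apply mul_le_mul_of_nonneg_left _ (Real.rpow_nonneg hX0.le _)
    apply one_div_le_one_div_of_le (by linarith)
    calc (d : ℝ) = ((d : ℝ) ^ 2) ^ (1 / 2 : ℝ) := by
          rw [← Real.sqrt_eq_rpow, Real.sqrt_sq (by linarith)]
      _ ≤ ((d : ℝ) ^ 2) ^ e := Real.rpow_le_rpow_of_exponent_le (one_le_pow₀ hd1) he
  refine (Finset.sum_le_sum h2).trans ?_
  rw [← Finset.mul_sum]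
  apply mul_le_mul_of_nonneg_left _ (by positivity)
  refine (sum_inv_le _).trans ?_
  have : Real.log (⌊√X⌋₊ : ℝ) ≤ Real.log X := by
    apply Real.log_le_log
    · exact_mod_cast Nat.floor_pos.2 hsX1
    · exact (Nat.floor_le (Real.sqrt_nonneg X)).trans hsX
  linarith

theorem primes_main {X e K : ℝ} {n : ℕ} (hX : 1 ≤ X) {r : ℂ} (hr0 : 0 < r.re) (hr : r.re ≤ 2 / 5)
    (hK : 0 ≤ K) (he : 1 / 2 ≤ e)
    (h : ∀ x : ℝ, 1 ≤ x → x ≤ X → ‖WT r n x - (x : ℂ) ^ (1 - r) * Cr r‖ ≤ K * x ^ e) :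
    ‖∑ p ∈ Finset.Icc 1 (2 ^ n), ap r p * AX X p - Main2 X r‖ ≤
      K * X ^ e * (1 + Real.log X) + 500 * √X / r.re ^ 2 + 10 * √X * (1 + Real.log (4 * X)) ^ 2 := by
  have hX0 : 0 < X := by linarith
  rw [sum_ap_AX hX]
  have h1 := corr_bound hX hr0.le n
  have h2 := sum_main_d hX hr0 hr
  set C := ∑ d ∈ (Finset.Icc 1 ⌊√X⌋₊).filter (fun d => Odd d), ∑ p ∈ Finset.Icc 1 (2 ^ n),
        (if p ∣ d then ap r p * (((moebius d : ℤ) : ℂ) * (Fp p (X / (d : ℝ) ^ 2) : ℂ)) else 0) with hC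
  set S := ∑ d ∈ (Finset.Icc 1 ⌊√X⌋₊).filter (fun d => Odd d), ((moebius d : ℤ) : ℂ) *
        (((X / (d : ℝ) ^ 2 : ℝ) : ℂ) ^ (1 - r) * Cr r) with hS
  set W := ∑ d ∈ (Finset.Icc 1 ⌊√X⌋₊).filter (fun d => Odd d), ((moebius d : ℤ) : ℂ) *
        WT r n (X / (d : ℝ) ^ 2) with hW
  have h3 : ‖W - S‖ ≤ K * X ^ e * (1 + Real.log X) := by
    rw [hW, hS, ← Finset.sum_sub_distrib]
    refine le_trans (norm_sum_le_of_le _ ?_) (sum_err_d hX hK he)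
    intro d hd
    rw [Finset.mem_filter, Finset.mem_Icc] at hd
    have hd1 : (1 : ℝ) ≤ d := by exact_mod_cast hd.1.1
    have hdX : (d : ℝ) ≤ √X := (Nat.le_floor_iff (Real.sqrt_nonneg X)).1 hd.1.2
    have hd2 : (d : ℝ) ^ 2 ≤ X := by
      calc (d : ℝ) ^ 2 ≤ √X ^ 2 := by gcongr
        _ = X := Real.sq_sqrt hX0.le
    have hx1 : 1 ≤ X / (d : ℝ) ^ 2 := by
      rw [le_div_iff₀ (by positivity)]
      linarith
    have hx2 : X / (d : ℝ) ^ 2 ≤ X := div_le_self hX0.le (one_le_pow₀ hd1)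
    rw [← mul_sub, norm_mul]
    have a1 : ‖((moebius d : ℤ) : ℂ)‖ ≤ 1 := by
      rw [Complex.norm_intCast]
      exact_mod_cast ArithmeticFunction.abs_moebius_le_one
    calc _ ≤ 1 * (K * (X / (d : ℝ) ^ 2) ^ e) :=
          mul_le_mul a1 (h _ hx1 hx2) (norm_nonneg _) zero_le_one
      _ = _ := one_mul _
  have e1 : W - C - Main2 X r = (W - S) + (S - Main2 X r) - C := by ring
  rw [e1]
  calc _ ≤ ‖(W - S) + (S - Main2 X r)‖ + ‖C‖ := norm_sub_le _ _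
    _ ≤ ‖W - S‖ + ‖S - Main2 X r‖ + ‖C‖ := by
        gcongr
        exact norm_add_le _ _
    _ ≤ _ := by linarith

end Pool.Agent.Helper368_LD
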