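import Pool.Agent.Helper368_LD.MainTwo
import Pool.Agent.TH705.DL.Core

/-!
# The mean square of the non-square part
-/

set_option autoImplicit false

namespace Pool.Agent.Helper368_LD

open Complex Filter Topology MeasureTheory Set
open scoped Real ArithmeticFunction.vonMangoldt
open Pool.Agent.H491R3.J
open Pool.Agent.TH705.DL (ph DP)

theorem cpow_ph {m : ℕ} (hm : 1 ≤ m) (σ t : ℝ) :
    (m : ℂ) ^ (-(1 / 2 + ((σ : ℂ) + t * I))) = (((m : ℝ) ^ (-(1 / 2 + σ)) : ℝ) : ℂ) * ph (-t) m := by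
  have hm0 : (0 : ℝ) < m := by exact_mod_cast hm
  have hmc : (m : ℂ) ≠ 0 := by exact_mod_cast hm0.ne'
  rw [Pool.Agent.TH705.DL.ph_eq, Complex.cpow_def_of_ne_zero hmc, Real.rpow_def_of_pos hm0,
    ← Complex.natCast_log, Complex.ofReal_exp, ← Complex.exp_add]
  congr 1
  push_cast
  ring

/-- mean square through dyadic blocks -/
theorem dyadic_mean (P : ℕ) (a : ℕ → ℂ) {T : ℝ} (hT : 0 ≤ T) :
    ∫ t in (-T)..T, ‖∑ m ∈ Finset.Icc 1 P, a m * ph (-t) m‖ ^ 2 ≤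
      ((Nat.log 2 P + 1 : ℕ) : ℝ) * ∑ j ∈ Finset.range (Nat.log 2 P + 1),
        (2 * T + 8 * 2 ^ j * (1 + Real.log (2 * 2 ^ j))) *
          ∑ m ∈ (Finset.Icc 1 P).filter (fun m => Nat.log 2 m = j), ‖a m‖ ^ 2 := by
  set L := Nat.log 2 P with hL
  set b : ℕ → ℕ → ℂ := fun j m => if Nat.log 2 m = j ∧ m ≤ P then a m else 0 with hb
  have hdec : ∀ t : ℝ, ∑ m ∈ Finset.Icc 1 P, a m * ph (-t) m =
      ∑ j ∈ Finset.range (L + 1), DP (2 ^ (j + 1)) (b j) (-t) := by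
    intro t
    rw [← Finset.sum_fiberwise_of_maps_to (s := Finset.Icc 1 P) (t := Finset.range (L + 1))
      (g := fun m => Nat.log 2 m)]
    · apply Finset.sum_congr rfl
      intro j _
      unfold DP
      rw [Finset.sum_filter]
      have e1 : ∑ n ∈ Finset.Icc 1 (2 ^ (j + 1)), b j n * ph (-t) n =
          ∑ n ∈ (Finset.Icc 1 (2 ^ (j + 1))).filter (fun n => Nat.log 2 n = j ∧ n ≤ P),
            a n * ph (-t) n := by
        rw [Finset.sum_filter]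
        apply Finset.sum_congr rfl
        intro n _
        simp only [hb]
        split_ifs <;> simp
      rw [e1, ← Finset.sum_filter]
      apply Finset.sum_congr _ (fun _ _ => rfl)
      ext m
      simp only [Finset.mem_filter, Finset.mem_Icc]
      constructor
      · rintro ⟨⟨h1, h2⟩, h3⟩
        refine ⟨⟨h1, ?_⟩, h3, h2⟩
        have := Nat.lt_pow_succ_log_self (b := 2) (by norm_num) m
        rw [h3] at this
        exact this.le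
      · rintro ⟨⟨h1, _⟩, h3, h4⟩
        exact ⟨⟨h1, h4⟩, h3⟩
    · intro m hm
      rw [Finset.mem_Icc] at hm
      rw [Finset.mem_range, Nat.lt_succ_iff]
      exact Nat.log_mono_right hm.2
  have hcs : ∀ t : ℝ, ‖∑ m ∈ Finset.Icc 1 P, a m * ph (-t) m‖ ^ 2 ≤
      ((L + 1 : ℕ) : ℝ) * ∑ j ∈ Finset.range (L + 1), ‖DP (2 ^ (j + 1)) (b j) (-t)‖ ^ 2 := by
    intro t
    rw [hdec]
    have h1 : ‖∑ j ∈ Finset.range (L + 1), DP (2 ^ (j + 1)) (b j) (-t)‖ ≤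
        ∑ j ∈ Finset.range (L + 1), ‖DP (2 ^ (j + 1)) (b j) (-t)‖ := norm_sum_le _ _
    have h2 := sq_sum_le_card_mul_sum_sq (s := Finset.range (L + 1))
      (f := fun j => ‖DP (2 ^ (j + 1)) (b j) (-t)‖)
    rw [Finset.card_range] at h2
    calc _ ≤ (∑ j ∈ Finset.range (L + 1), ‖DP (2 ^ (j + 1)) (b j) (-t)‖) ^ 2 := by gcongr
      _ ≤ _ := h2
  have hDPc : ∀ j, Continuous (fun t : ℝ => ‖DP (2 ^ (j + 1)) (b j) (-t)‖ ^ 2) := by
    intro j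
    have h3 := Pool.Agent.TH705.DL.DP_cont (2 ^ (j + 1)) (b j)
    exact ((h3.comp continuous_neg).norm).pow 2
  have hlc : Continuous (fun t : ℝ => ‖∑ m ∈ Finset.Icc 1 P, a m * ph (-t) m‖ ^ 2) := by
    simp_rw [hdec]
    have h3 : ∀ j, Continuous (fun t : ℝ => DP (2 ^ (j + 1)) (b j) (-t)) := fun j =>
      (Pool.Agent.TH705.DL.DP_cont (2 ^ (j + 1)) (b j)).comp continuous_neg
    exact ((continuous_finsetSum _ fun j _ => h3 j).norm).pow 2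
  have h1 : ∫ t in (-T)..T, ‖∑ m ∈ Finset.Icc 1 P, a m * ph (-t) m‖ ^ 2 ≤
      ∫ t in (-T)..T, ((L + 1 : ℕ) : ℝ) * ∑ j ∈ Finset.range (L + 1),
        ‖DP (2 ^ (j + 1)) (b j) (-t)‖ ^ 2 := by
    apply intervalIntegral.integral_mono_on (by linarith) (hlc.intervalIntegrable _ _)
    · apply Continuous.intervalIntegrable
      exact continuous_const.mul (continuous_finsetSum _ fun j _ => hDPc j)
    · intro t _
      exact hcs t
  refine h1.trans ?_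
  rw [intervalIntegral.integral_const_mul, intervalIntegral.integral_finsetSum
    (fun j _ => (hDPc j).intervalIntegrable _ _)]
  apply mul_le_mul_of_nonneg_left _ (Nat.cast_nonneg _)
  apply Finset.sum_le_sum
  intro j _
  have h2 : ∫ t in (-T)..T, ‖DP (2 ^ (j + 1)) (b j) (-t)‖ ^ 2 =
      ∫ t in (-T)..T, ‖DP (2 ^ (j + 1)) (b j) t‖ ^ 2 := by
    have := intervalIntegral.integral_comp_neg (a := -T) (b := T)
      (fun t : ℝ => ‖DP (2 ^ (j + 1)) (b j) t‖ ^ 2)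
    rw [neg_neg] at this
    exact this
  rw [h2]
  have h3 := Pool.Agent.TH705.DL.mean_value (2 ^ (j + 1)) (Nat.one_le_two_pow) (b j) (-T) T
    (by linarith)
  refine h3.trans ?_
  have h4 : ∑ n ∈ Finset.Icc 1 (2 ^ (j + 1)), ‖b j n‖ ^ 2 ≤
      ∑ m ∈ (Finset.Icc 1 P).filter (fun m => Nat.log 2 m = j), ‖a m‖ ^ 2 := by
    have e1 : ∑ n ∈ Finset.Icc 1 (2 ^ (j + 1)), ‖b j n‖ ^ 2 =
        ∑ n ∈ (Finset.Icc 1 (2 ^ (j + 1))).filter (fun n => Nat.log 2 n = j ∧ n ≤ P), ‖a n‖ ^ 2 := by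
      rw [Finset.sum_filter]
      apply Finset.sum_congr rfl
      intro n _
      simp only [hb]
      split_ifs <;> simp
    rw [e1]
    apply Finset.sum_le_sum_of_subset_of_nonneg
    · intro m hm
      simp only [Finset.mem_filter, Finset.mem_Icc] at hm ⊢
      exact ⟨⟨hm.1.1, hm.2.2⟩, hm.2.1⟩
    · intro m _ _
      positivity
  have h5 : (T - -T) + 4 * ((2 ^ (j + 1) : ℕ) : ℝ) * (1 + Real.log ((2 ^ (j + 1) : ℕ) : ℝ)) =
      2 * T + 8 * 2 ^ j * (1 + Real.log (2 * 2 ^ j)) := by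
    push_cast
    rw [pow_succ, mul_comm ((2 : ℝ) ^ j) 2]
    ring
  rw [h5]
  apply mul_le_mul_of_nonneg_left h4
  have : 0 ≤ Real.log (2 * (2 : ℝ) ^ j) := by
    apply Real.log_nonneg
    have : (1 : ℝ) ≤ 2 ^ j := one_le_pow₀ (by norm_num)
    linarith
  positivity

/-- the block `[Q, 2Q)` -/
theorem block_subset {P j : ℕ} :
    (Finset.Icc 1 P).filter (fun m => Nat.log 2 m = j) ⊆ Finset.Icc (2 ^ j) (2 ^ (j + 1) - 1) := by
  intro m hm
  rw [Finset.mem_filter, Finset.mem_Icc] at hm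
  rw [Finset.mem_Icc]
  have h1 := Nat.pow_log_le_self 2 (show m ≠ 0 by omega)
  have h2 := Nat.lt_pow_succ_log_self (b := 2) (by norm_num) m
  rw [hm.2] at h1 h2
  omega

theorem vM_block_le (j : ℕ) :
    ∑ m ∈ Finset.Icc (2 ^ j) (2 ^ (j + 1) - 1), Λ m ≤ 12 * 2 ^ j := by
  have h1 : ∑ m ∈ Finset.Icc (2 ^ j) (2 ^ (j + 1) - 1), Λ m ≤ Chebyshev.psi (2 * 2 ^ j) := by
    rw [Chebyshev.psi_eq_sum_Icc]
    apply Finset.sum_le_sum_of_subset_of_nonneg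
    · intro m hm
      rw [Finset.mem_Icc] at hm ⊢
      refine ⟨Nat.zero_le _, ?_⟩
      apply Nat.le_floor
      have h2 : m ≤ 2 ^ (j + 1) := hm.2.trans (Nat.sub_le _ _)
      have h3 : (m : ℝ) ≤ ((2 ^ (j + 1) : ℕ) : ℝ) := by exact_mod_cast h2
      rw [pow_succ] at h3
      push_cast at h3
      linarith
    · intro m _ _
      exact ArithmeticFunction.vonMangoldt_nonneg
  have h2 := Chebyshev.psi_le_const_mul_self (x := 2 * 2 ^ j) (by positivity)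
  have h3 : Real.log 4 ≤ 2 := by
    rw [show (4 : ℝ) = 2 ^ 2 by norm_num, Real.log_pow]
    have := Real.log_two_lt_d9
    push_cast
    linarith
  have h4 : (0 : ℝ) < 2 ^ j := by positivity
  nlinarith

/-- the coefficients -/
noncomputable def cf (X σ : ℝ) (m : ℕ) : ℂ :=
  if IsSquare m then 0 else ((Λ m : ℝ) : ℂ) * (((m : ℝ) ^ (-(1 / 2 + σ)) : ℝ) : ℂ) * AX X m

theorem cf_sq_le {X σ : ℝ} (hσ : 0 < σ) {j m : ℕ} (hm : m ∈ Finset.Icc (2 ^ j) (2 ^ (j + 1) - 1)) :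
    ‖cf X σ m‖ ^ 2 ≤ Real.log (2 * 2 ^ j) * ((2 : ℝ) ^ j) ^ (-(1 + 2 * σ)) *
      (if IsSquare m then 0 else Λ m * ‖AX X m‖ ^ 2) := by
  rw [Finset.mem_Icc] at hm
  have hj : (0 : ℝ) < 2 ^ j := by positivity
  have hm1 : (2 : ℝ) ^ j ≤ m := by exact_mod_cast hm.1
  have hm0 : (0 : ℝ) < m := by linarith
  have hm2 : (m : ℝ) ≤ 2 * 2 ^ j := by
    have h2 : m ≤ 2 ^ (j + 1) := hm.2.trans (Nat.sub_le _ _)
    have h3 : (m : ℝ) ≤ ((2 ^ (j + 1) : ℕ) : ℝ) := by exact_mod_cast h2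
    rw [pow_succ] at h3
    push_cast at h3
    linarith
  unfold cf
  split_ifs with h
  · simp
  · rw [norm_mul, norm_mul, norm_real, norm_real, Real.norm_of_nonneg
      ArithmeticFunction.vonMangoldt_nonneg, Real.norm_of_nonneg (Real.rpow_nonneg hm0.le _)]
    have h1 : Λ m ≤ Real.log (2 * 2 ^ j) :=
      ArithmeticFunction.vonMangoldt_le_log.trans (Real.log_le_log hm0 hm2)
    have h2 : ((m : ℝ) ^ (-(1 / 2 + σ))) ^ 2 = (m : ℝ) ^ (-(1 + 2 * σ)) := by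
      rw [← Real.rpow_natCast, ← Real.rpow_mul hm0.le]
      congr 1
      push_cast
      ring
    have h3 : (m : ℝ) ^ (-(1 + 2 * σ)) ≤ ((2 : ℝ) ^ j) ^ (-(1 + 2 * σ)) :=
      Real.rpow_le_rpow_of_nonpos hj hm1 (by linarith)
    have h4 : 0 ≤ Λ m := ArithmeticFunction.vonMangoldt_nonneg
    have h5 : 0 ≤ (m : ℝ) ^ (-(1 + 2 * σ)) := Real.rpow_nonneg hm0.le _
    have h6 : 0 ≤ Real.log (2 * 2 ^ j) := h4.trans h1
    calc (Λ m * (m : ℝ) ^ (-(1 / 2 + σ)) * ‖AX X m‖) ^ 2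
        = Λ m * ((m : ℝ) ^ (-(1 / 2 + σ))) ^ 2 * (Λ m * ‖AX X m‖ ^ 2) := by ring
      _ = Λ m * (m : ℝ) ^ (-(1 + 2 * σ)) * (Λ m * ‖AX X m‖ ^ 2) := by rw [h2]
      _ ≤ _ := by gcongr

theorem AX_le {X : ℝ} (hX : 1 ≤ X) {m : ℕ} (hm : m ≠ 0) (h : ¬ IsSquare m) :
    ‖AX X m‖ ^ 2 ≤ 16 * X * Bm m := by
  have h1 := sqf_jac_le hm h (X := X) (by linarith)
  have hB : 8 ≤ Bm m := by
    unfold Bm
    have h2 : (1 : ℝ) ≤ m := by exact_mod_cast Nat.pos_of_ne_zero hm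
    have h3 : 1 ≤ √(m : ℝ) := by rw [Real.one_le_sqrt]; exact h2
    have h4 : 0 ≤ Real.log (4 * m) := Real.log_nonneg (by linarith)
    nlinarith
  have h5 : 1 ≤ √(X * Bm m) := by
    rw [Real.one_le_sqrt]
    nlinarith
  have h6 : √(X * Bm m) ^ 2 = X * Bm m := Real.sq_sqrt (by nlinarith)
  have h7 : ‖AX X m‖ ≤ 4 * √(X * Bm m) := by
    rw [AX_eq hX]
    refine (norm_sub_le _ _).trans ?_
    rw [norm_one]
    linarith
  calc ‖AX X m‖ ^ 2 ≤ (4 * √(X * Bm m)) ^ 2 := by gcongr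
    _ = 16 * √(X * Bm m) ^ 2 := by ring
    _ = _ := by rw [h6]; ring

/-- the first bound for a block -/
theorem block_one {X σ : ℝ} (hX : 1 ≤ X) (hσ : 0 < σ) (P j : ℕ) :
    ∑ m ∈ (Finset.Icc 1 P).filter (fun m => Nat.log 2 m = j), ‖cf X σ m‖ ^ 2 ≤
      Real.log (2 * 2 ^ j) * (1 + Real.log (8 * 2 ^ j)) * (2304 * X *
        ((2 : ℝ) ^ j) ^ (1 / 2 - 2 * σ)) := by
  have hj : (0 : ℝ) < 2 ^ j := by positivity
  have hj1 : (1 : ℝ) ≤ 2 ^ j := one_le_pow₀ (by norm_num)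
  have hlog : 0 ≤ Real.log (2 * (2 : ℝ) ^ j) := Real.log_nonneg (by linarith)
  have hlog8 : 0 ≤ Real.log (8 * (2 : ℝ) ^ j) := Real.log_nonneg (by linarith)
  have h1 : ∑ m ∈ (Finset.Icc 1 P).filter (fun m => Nat.log 2 m = j), ‖cf X σ m‖ ^ 2 ≤
      ∑ m ∈ Finset.Icc (2 ^ j) (2 ^ (j + 1) - 1), ‖cf X σ m‖ ^ 2 :=
    Finset.sum_le_sum_of_subset_of_nonneg block_subset (fun m _ _ => by positivity)
  refine h1.trans ((Finset.sum_le_sum fun m hm => cf_sq_le hσ hm).trans ?_)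
  rw [← Finset.mul_sum]
  have hB : ∀ m ∈ Finset.Icc (2 ^ j) (2 ^ (j + 1) - 1), (if IsSquare m then 0 else Λ m * ‖AX X m‖ ^ 2) ≤
      Λ m * (16 * X * (12 * √((2 : ℝ) ^ j) * (1 + Real.log (8 * 2 ^ j)))) := by
    intro m hm
    have hΛ : 0 ≤ Λ m := ArithmeticFunction.vonMangoldt_nonneg
    have hs : 0 ≤ √((2 : ℝ) ^ j) := Real.sqrt_nonneg _
    split_ifs with h
    · positivity
    · rw [Finset.mem_Icc] at hm
      have hjn : 0 < 2 ^ j := by positivity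
      have h2 := AX_le hX (m := m) (by omega) h
      refine mul_le_mul_of_nonneg_left (h2.trans ?_) hΛ
      apply mul_le_mul_of_nonneg_left _ (by linarith)
      unfold Bm
      have hm2 : (m : ℝ) ≤ 2 * 2 ^ j := by
        have h2 : m ≤ 2 ^ (j + 1) := hm.2.trans (Nat.sub_le _ _)
        have h3 : (m : ℝ) ≤ ((2 ^ (j + 1) : ℕ) : ℝ) := by exact_mod_cast h2
        rw [pow_succ] at h3
        push_cast at h3
        linarith
      have hm0 : (0 : ℝ) < m := by exact_mod_cast (by omega : 0 < m)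
      have h3 : √(m : ℝ) ≤ 3 / 2 * √((2 : ℝ) ^ j) := by
        rw [Real.sqrt_le_left (by positivity), mul_pow, Real.sq_sqrt hj.le]
        linarith
      have h4 : Real.log (4 * m) ≤ Real.log (8 * 2 ^ j) := Real.log_le_log (by positivity) (by linarith)
      have h5 : 0 ≤ 1 + Real.log (4 * (m : ℝ)) := by
        have : (1 : ℝ) ≤ m := by exact_mod_cast (by omega : 1 ≤ m)
        have := Real.log_nonneg (show (1 : ℝ) ≤ 4 * m by linarith)
        linarith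
      calc 8 * √(m : ℝ) * (1 + Real.log (4 * m)) ≤ 8 * (3 / 2 * √((2 : ℝ) ^ j)) *
            (1 + Real.log (8 * 2 ^ j)) := by gcongr
        _ = _ := by ring
  have h2 : ∑ m ∈ Finset.Icc (2 ^ j) (2 ^ (j + 1) - 1), (if IsSquare m then 0 else Λ m * ‖AX X m‖ ^ 2) ≤
      12 * 2 ^ j * (16 * X * (12 * √((2 : ℝ) ^ j) * (1 + Real.log (8 * 2 ^ j)))) := by
    refine (Finset.sum_le_sum hB).trans ?_
    rw [← Finset.sum_mul]
    exact mul_le_mul_of_nonneg_right (vM_block_le j) (by positivity)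
  have hpow : 0 ≤ ((2 : ℝ) ^ j) ^ (-(1 + 2 * σ)) := Real.rpow_nonneg hj.le _
  calc _ ≤ Real.log (2 * 2 ^ j) * ((2 : ℝ) ^ j) ^ (-(1 + 2 * σ)) *
        (12 * 2 ^ j * (16 * X * (12 * √((2 : ℝ) ^ j) * (1 + Real.log (8 * 2 ^ j))))) := by gcongr
    _ = Real.log (2 * 2 ^ j) * (1 + Real.log (8 * 2 ^ j)) * (2304 * X *
        (((2 : ℝ) ^ j) ^ (-(1 + 2 * σ)) * (2 : ℝ) ^ j * √((2 : ℝ) ^ j))) := by ring
    _ = _ := by
        congr 2
        rw [Real.sqrt_eq_rpow]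
        have : ((2 : ℝ) ^ j) ^ (-(1 + 2 * σ)) * (2 : ℝ) ^ j * ((2 : ℝ) ^ j) ^ (1 / 2 : ℝ) =
            ((2 : ℝ) ^ j) ^ (-(1 + 2 * σ)) * ((2 : ℝ) ^ j) ^ (1 : ℝ) * ((2 : ℝ) ^ j) ^ (1 / 2 : ℝ) := by
          rw [Real.rpow_one]
        rw [this, ← Real.rpow_add hj, ← Real.rpow_add hj]
        congr 1
        ring

theorem psi_zero_eq (g : ℕ → ℂ) (N : ℕ) : psi g 0 (N : ℝ) = ∑ m ∈ Finset.Icc 1 N, g m := by
  unfold psi
  rw [Nat.floor_natCast]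
  apply Finset.sum_congr rfl
  intro m _
  unfold tw
  simp

theorem not_isSquare_mul {a b : ℕ} (ha : Squarefree a) (hb : Squarefree b) (hab : a ≠ b) :
    ¬ IsSquare (a * b) := by
  rintro ⟨c, hc⟩
  apply hab
  apply Nat.eq_of_factorization_eq ha.ne_zero hb.ne_zero
  intro p
  have h1 := congrArg (fun n => n.factorization p) hc
  have hc0 : c ≠ 0 := by
    rintro rfl
    exact (mul_ne_zero ha.ne_zero hb.ne_zero) hc
  simp only [Nat.factorization_mul ha.ne_zero hb.ne_zero, Nat.factorization_mul hc0 hc0,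
    Finsupp.add_apply] at h1
  have h2 := Squarefree.natFactorization_le_one p ha
  have h3 := Squarefree.natFactorization_le_one p hb
  omega

/-- a long character sum over prime powers in a dyadic block -/
theorem char_block {X : ℝ} (hG : GRHJ) (hX : 1 ≤ X) {a b : ℕ} (ha : a ∈ SS X) (hb : b ∈ SS X)
    (hab : a ≠ b) {j : ℕ} (hj : 1 ≤ j) :
    ‖∑ m ∈ Finset.Icc (2 ^ j) (2 ^ (j + 1) - 1), ((Λ m : ℝ) : ℂ) *
      ((jacobiSym (m : ℤ) (a * b) : ℤ) : ℂ)‖ ≤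
      60000 * (32 * Real.log (16 * (X ^ 2 + 1)) + 1) * (√((2 : ℝ) ^ j) *
        Real.log (18 * 2 ^ j) ^ 4) := by
  have hjR : (2 : ℝ) ≤ 2 ^ j := by
    calc (2 : ℝ) = 2 ^ 1 := (pow_one _).symm
      _ ≤ 2 ^ j := pow_le_pow_right₀ (by norm_num) hj
  have hjN : 2 ≤ 2 ^ j := by exact_mod_cast hjR
  rw [mem_SS] at ha hb
  have hX0 : 0 < X := by linarith
  have hne : NeZero (a * b) := ⟨mul_ne_zero (by omega) (by omega)⟩
  have hodd : Odd (a * b) := ha.2.2.1.mul hb.2.2.1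
  have hyp := jchi_hyp hG hodd (not_isSquare_mul ha.2.2.2 hb.2.2.2 hab)
  set n := a * b with hn
  have hnX : (n : ℝ) ≤ X ^ 2 := by
    have h1 : (a : ℝ) ≤ X := (by exact_mod_cast ha.2.1.2 : (a : ℝ) ≤ (⌊X⌋₊ : ℝ)).trans
      (Nat.floor_le hX0.le)
    have h2 : (b : ℝ) ≤ X := (by exact_mod_cast hb.2.1.2 : (b : ℝ) ≤ (⌊X⌋₊ : ℝ)).trans
      (Nat.floor_le hX0.le)
    rw [hn, sq]
    push_cast
    have : (0 : ℝ) ≤ b := Nat.cast_nonneg b
    nlinarith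
  have e1 : ∑ m ∈ Finset.Icc (2 ^ j) (2 ^ (j + 1) - 1), ((Λ m : ℝ) : ℂ) *
      ((jacobiSym (m : ℤ) n : ℤ) : ℂ) = psi (gch (jchi n)) 0 ((2 ^ (j + 1) - 1 : ℕ) : ℝ) -
      psi (gch (jchi n)) 0 ((2 ^ j - 1 : ℕ) : ℝ) := by
    rw [psi_zero_eq, psi_zero_eq]
    have hsplit : Finset.Icc 1 (2 ^ (j + 1) - 1) = Finset.Icc 1 (2 ^ j - 1) ∪
        Finset.Icc (2 ^ j) (2 ^ (j + 1) - 1) := by
      ext m
      simp only [Finset.mem_Icc, Finset.mem_union]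
      have : 2 ^ (j + 1) = 2 * 2 ^ j := by ring
      omega
    have hdisj : Disjoint (Finset.Icc 1 (2 ^ j - 1)) (Finset.Icc (2 ^ j) (2 ^ (j + 1) - 1)) := by
      rw [Finset.disjoint_left]
      intro m hm hm2
      rw [Finset.mem_Icc] at hm hm2
      omega
    rw [hsplit, Finset.sum_union hdisj, add_sub_cancel_left]
    apply Finset.sum_congr rfl
    intro m _
    unfold gch
    rw [jchi_natCast]
    ring
  rw [e1]
  have hlog5 : Real.log (|(0 : ℝ)| + 5) ≤ 2 := by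
    rw [abs_zero, zero_add, Real.log_le_iff_le_exp (by norm_num)]
    have h4 : Real.exp 2 = Real.exp 1 * Real.exp 1 := by rw [← Real.exp_add]; norm_num
    have h5 := Real.exp_one_gt_d9
    rw [h4]
    nlinarith
  have hlog50 : 0 ≤ Real.log (|(0 : ℝ)| + 5) := by
    have := log_five_le 0; linarith
  have hlogX := log_q_le (q := X ^ 2) (by positivity)
  have hn0 : (0 : ℝ) ≤ n := Nat.cast_nonneg n
  have hlogn : Real.log (16 * ((n : ℝ) + 1)) ≤ Real.log (16 * (X ^ 2 + 1)) :=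
    Real.log_le_log (by positivity) (by linarith)
  have hgen : ∀ N : ℕ, 1 ≤ N → N ≤ 2 ^ (j + 1) - 1 → ‖psi (gch (jchi n)) 0 (N : ℝ)‖ ≤
      30000 * (32 * Real.log (16 * (X ^ 2 + 1)) + 1) * (√((2 : ℝ) ^ j) *
        Real.log (18 * 2 ^ j) ^ 4) := by
    intro N hN1 hN2
    have hN1' : (1 : ℝ) ≤ N := by exact_mod_cast hN1
    have hN2' : (N : ℝ) ≤ 2 * 2 ^ j := by
      have h2 : N ≤ 2 ^ (j + 1) := by omega
      have h3 : (N : ℝ) ≤ ((2 ^ (j + 1) : ℕ) : ℝ) := by exact_mod_cast h2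
      rw [pow_succ] at h3
      push_cast at h3
      linarith
    have h6 := psi_bound hyp 0 hN1'
    have h7 : (N : ℝ) ^ (1 / 2 : ℝ) ≤ 3 / 2 * √((2 : ℝ) ^ j) := by
      rw [← Real.sqrt_eq_rpow, Real.sqrt_le_left (by positivity), mul_pow,
        Real.sq_sqrt (by positivity)]
      linarith
    have h8 : Real.log (9 * (N : ℝ)) ≤ Real.log (18 * 2 ^ j) :=
      Real.log_le_log (by positivity) (by linarith)
    have h9 : 0 ≤ Real.log (9 * (N : ℝ)) := Real.log_nonneg (by linarith)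
    have hB0 : 0 ≤ 32 * Real.log (16 * ((n : ℝ) + 1)) + 1 := by
      have := log_q_le (q := (n : ℝ)) hn0
      linarith
    calc _ ≤ 10000 * (32 * Real.log (16 * ((n : ℝ) + 1)) + 1) * Real.log (|(0 : ℝ)| + 5) *
          ((N : ℝ) ^ (1 / 2 : ℝ) * Real.log (9 * (N : ℝ)) ^ 4) := h6
      _ ≤ 10000 * (32 * Real.log (16 * (X ^ 2 + 1)) + 1) * 2 *
          (3 / 2 * √((2 : ℝ) ^ j) * Real.log (18 * 2 ^ j) ^ 4) := by gcongr
      _ = _ := by ring
  have a1 := hgen (2 ^ (j + 1) - 1) (by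
    have : 2 ^ (j + 1) = 2 * 2 ^ j := by ring
    omega) le_rfl
  have a2 := hgen (2 ^ j - 1) (by omega) (by
    have : 2 ^ (j + 1) = 2 * 2 ^ j := by ring
    omega)
  calc _ ≤ _ := norm_sub_le _ _
    _ ≤ _ := add_le_add a1 a2
    _ = _ := by ring

theorem AX_normsq {X : ℝ} (m : ℕ) : ((‖AX X m‖ ^ 2 : ℝ) : ℂ) =
    ∑ a ∈ SS X, ∑ b ∈ SS X, ((jacobiSym (m : ℤ) (a * b) : ℤ) : ℂ) := by
  have h1 : (starRingEnd ℂ) (AX X m) = AX X m := by
    unfold AX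
    rw [map_sum]
    apply Finset.sum_congr rfl
    intro n _
    simp
  rw [Complex.ofReal_pow, ← Complex.mul_conj', h1]
  unfold AX
  rw [Finset.sum_mul_sum]
  apply Finset.sum_congr rfl
  intro a ha
  apply Finset.sum_congr rfl
  intro b hb
  rw [mem_SS] at ha hb
  have h2 : NeZero a := ⟨by omega⟩
  have h3 : NeZero b := ⟨by omega⟩
  rw [jacobiSym.mul_right]
  push_cast
  ring

theorem block_full {X : ℝ} (hG : GRHJ) (hX : 1 ≤ X) {j : ℕ} (hj : 1 ≤ j) :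
    ∑ m ∈ Finset.Icc (2 ^ j) (2 ^ (j + 1) - 1), Λ m * ‖AX X m‖ ^ 2 ≤
      12 * 2 ^ j * X + X ^ 2 * (60000 * (32 * Real.log (16 * (X ^ 2 + 1)) + 1) *
        (√((2 : ℝ) ^ j) * Real.log (18 * 2 ^ j) ^ 4)) := by
  set Δ : ℝ := 60000 * (32 * Real.log (16 * (X ^ 2 + 1)) + 1) *
        (√((2 : ℝ) ^ j) * Real.log (18 * 2 ^ j) ^ 4) with hΔ
  have hX0 : 0 < X := by linarith
  have hΔ0 : 0 ≤ Δ := by
    have hlogX := log_q_le (q := X ^ 2) (by positivity)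
    have : 0 ≤ 32 * Real.log (16 * (X ^ 2 + 1)) + 1 := by linarith
    have h4 : 0 ≤ Real.log (18 * (2 : ℝ) ^ j) ^ 4 := by positivity
    positivity
  have h1 : ((∑ m ∈ Finset.Icc (2 ^ j) (2 ^ (j + 1) - 1), Λ m * ‖AX X m‖ ^ 2 : ℝ) : ℂ) =
      ∑ a ∈ SS X, ∑ b ∈ SS X, ∑ m ∈ Finset.Icc (2 ^ j) (2 ^ (j + 1) - 1), ((Λ m : ℝ) : ℂ) *
        ((jacobiSym (m : ℤ) (a * b) : ℤ) : ℂ) := by
    rw [Complex.ofReal_sum]
    have h2 : ∀ m ∈ Finset.Icc (2 ^ j) (2 ^ (j + 1) - 1), ((Λ m * ‖AX X m‖ ^ 2 : ℝ) : ℂ) =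
        ∑ a ∈ SS X, ∑ b ∈ SS X, ((Λ m : ℝ) : ℂ) * ((jacobiSym (m : ℤ) (a * b) : ℤ) : ℂ) := by
      intro m _
      rw [Complex.ofReal_mul, AX_normsq, Finset.mul_sum]
      apply Finset.sum_congr rfl
      intro a _
      rw [Finset.mul_sum]
    rw [Finset.sum_congr rfl h2, Finset.sum_comm]
    apply Finset.sum_congr rfl
    intro a _
    rw [Finset.sum_comm]
  have h3 : 0 ≤ ∑ m ∈ Finset.Icc (2 ^ j) (2 ^ (j + 1) - 1), Λ m * ‖AX X m‖ ^ 2 := by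
    apply Finset.sum_nonneg
    intro m _
    have : 0 ≤ Λ m := ArithmeticFunction.vonMangoldt_nonneg
    positivity
  have h4 : ∑ m ∈ Finset.Icc (2 ^ j) (2 ^ (j + 1) - 1), Λ m * ‖AX X m‖ ^ 2 =
      ‖((∑ m ∈ Finset.Icc (2 ^ j) (2 ^ (j + 1) - 1), Λ m * ‖AX X m‖ ^ 2 : ℝ) : ℂ)‖ := by
    rw [norm_real, Real.norm_of_nonneg h3]
  rw [h4, h1]
  have h5 : ∀ a ∈ SS X, ‖∑ b ∈ SS X, ∑ m ∈ Finset.Icc (2 ^ j) (2 ^ (j + 1) - 1), ((Λ m : ℝ) : ℂ) *
        ((jacobiSym (m : ℤ) (a * b) : ℤ) : ℂ)‖ ≤ 12 * 2 ^ j + X * Δ := by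
    intro a ha
    have h6 : ∀ b ∈ SS X, ‖∑ m ∈ Finset.Icc (2 ^ j) (2 ^ (j + 1) - 1), ((Λ m : ℝ) : ℂ) *
        ((jacobiSym (m : ℤ) (a * b) : ℤ) : ℂ)‖ ≤ (if b = a then (12 * 2 ^ j : ℝ) else 0) + Δ := by
      intro b hb
      split_ifs with hab
      · refine le_trans ?_ (le_add_of_nonneg_right hΔ0)
        refine le_trans ?_ (vM_block_le j)
        apply norm_sum_le_of_le
        intro m _
        rw [norm_mul, norm_real, Real.norm_of_nonneg ArithmeticFunction.vonMangoldt_nonneg]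
        have h7 := jac_norm (m : ℤ) (a * b)
        have h8 : 0 ≤ Λ m := ArithmeticFunction.vonMangoldt_nonneg
        nlinarith
      · rw [zero_add]
        exact char_block hG hX ha hb (fun h => hab h.symm) hj
    refine (norm_sum_le_of_le _ h6).trans ?_
    rw [Finset.sum_add_distrib, Finset.sum_ite_eq' (SS X) a, if_pos ha, Finset.sum_const,
      nsmul_eq_mul]
    have := card_SS_le hX0.le
    gcongr
  refine (norm_sum_le_of_le _ h5).trans ?_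
  rw [Finset.sum_const, nsmul_eq_mul]
  have h9 := card_SS_le hX0.le
  have h10 : 0 ≤ 12 * 2 ^ j + X * Δ := by positivity
  calc _ ≤ X * (12 * 2 ^ j + X * Δ) := mul_le_mul_of_nonneg_right h9 h10
    _ = _ := by ring

/-- the second bound for a block -/
theorem block_two {X σ : ℝ} (hG : GRHJ) (hX : 1 ≤ X) (hσ : 0 < σ) (P : ℕ) {j : ℕ} (hj : 1 ≤ j) :
    ∑ m ∈ (Finset.Icc 1 P).filter (fun m => Nat.log 2 m = j), ‖cf X σ m‖ ^ 2 ≤
      Real.log (2 * 2 ^ j) * ((2 : ℝ) ^ j) ^ (-(1 + 2 * σ)) *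
      (12 * 2 ^ j * X + X ^ 2 * (60000 * (32 * Real.log (16 * (X ^ 2 + 1)) + 1) *
        (√((2 : ℝ) ^ j) * Real.log (18 * 2 ^ j) ^ 4))) := by
  have hj0 : (0 : ℝ) < 2 ^ j := by positivity
  have hj1 : (1 : ℝ) ≤ 2 ^ j := one_le_pow₀ (by norm_num)
  have hlog : 0 ≤ Real.log (2 * (2 : ℝ) ^ j) := Real.log_nonneg (by linarith)
  have hpow : 0 ≤ ((2 : ℝ) ^ j) ^ (-(1 + 2 * σ)) := Real.rpow_nonneg hj0.le _
  have h1 : ∑ m ∈ (Finset.Icc 1 P).filter (fun m => Nat.log 2 m = j), ‖cf X σ m‖ ^ 2 ≤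
      ∑ m ∈ Finset.Icc (2 ^ j) (2 ^ (j + 1) - 1), ‖cf X σ m‖ ^ 2 :=
    Finset.sum_le_sum_of_subset_of_nonneg block_subset (fun m _ _ => by positivity)
  refine h1.trans ((Finset.sum_le_sum fun m hm => cf_sq_le hσ hm).trans ?_)
  rw [← Finset.mul_sum]
  apply mul_le_mul_of_nonneg_left _ (by positivity)
  refine le_trans (Finset.sum_le_sum ?_) (block_full hG hX hj)
  intro m _
  have h8 : 0 ≤ Λ m := ArithmeticFunction.vonMangoldt_nonneg
  split_ifs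
  · positivity
  · exact le_rfl

end Pool.Agent.Helper368_LD
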