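import Pool.Agent.Helper368_LD.SieveP
import Pool.Agent.Helper368_LD.MeanSq

/-!
# The higher prime powers in the non-square part
-/

set_option autoImplicit false

namespace Pool.Agent.Helper368_LD

open MeasureTheory Set Complex
open scoped Real ArithmeticFunction.vonMangoldt
open Pool.Agent.H491R3.J

theorem sum_rpow_five (N : ℕ) : ∑ n ∈ Finset.Icc 1 N, (n : ℝ) ^ (-(5 / 4) : ℝ) ≤ 5 := by
  rcases Nat.eq_zero_or_pos N with h | h
  · subst h; simp
  · have h1 := sum_rpow_tail (β := 5 / 4) (by norm_num) (le_refl 1) (N - 1)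
    have h2 : ∑ n ∈ Finset.Icc 1 N, (n : ℝ) ^ (-(5 / 4) : ℝ) =
        1 + ∑ i ∈ Finset.range (N - 1), (((1 + 1 + i : ℕ) : ℝ)) ^ (-(5 / 4) : ℝ) := by
      have e1 : Finset.Icc 1 N = Finset.Ico 1 (N + 1) := by
        ext k; simp only [Finset.mem_Icc, Finset.mem_Ico]; omega
      rw [e1, Finset.sum_Ico_eq_sum_range]
      have e2 : N + 1 - 1 = (N - 1) + 1 := by omega
      rw [e2, Finset.sum_range_succ', add_comm]
      congr 1
      · simp
      · apply Finset.sum_congr rfl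
        intro i _
        congr 2
        omega
    rw [h2]
    have h3 : ∑ i ∈ Finset.range (N - 1), (((1 + 1 + i : ℕ) : ℝ)) ^ (-(5 / 4) : ℝ) ≤ 4 := by
      refine le_trans (le_of_eq ?_) (h1.trans (le_of_eq ?_))
      · apply Finset.sum_congr rfl
        intro i _
        congr 2
        push_cast
        ring
      · norm_num
    linarith

theorem AX_pow_odd (X : ℝ) {p k : ℕ} (hk : Odd k) : AX X (p ^ k) = AX X p := by
  unfold AX
  apply Finset.sum_congr rfl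
  intro n _
  congr 1
  push_cast
  rw [jacobiSym.pow_left]
  rcases jacobiSym.trichotomy (p : ℤ) n with h | h | h
  · rw [h]; exact zero_pow hk.pos.ne'
  · rw [h]; exact one_pow k
  · rw [h]; exact hk.neg_one_pow

theorem not_sq_prime {p : ℕ} (hp : p.Prime) : ¬ IsSquare p := by
  rintro ⟨a, ha⟩
  have h1 : a = 1 ∨ a = p := (Nat.dvd_prime hp).1 ⟨a, ha⟩
  have h2 := hp.one_lt
  rcases h1 with h | h
  · rw [h] at ha; omega
  · rw [h] at ha
    nlinarith

/-- the difference -/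
noncomputable def gd (X : ℝ) (r : ℂ) (m : ℕ) : ℂ :=
  (if IsSquare m then 0 else ((Λ m : ℝ) : ℂ) * (m : ℂ) ^ (-(1 / 2 + r)) * AX X m) - ap r m * AX X m

theorem AX_prime_le {X : ℝ} (hX : 1 ≤ X) {p : ℕ} (hp : p.Prime) {L : ℝ} (hL : 1 + Real.log (4 * p) ≤ L) :
    ‖AX X p‖ ≤ 12 * √X * (p : ℝ) ^ (1 / 4 : ℝ) * L := by
  have hp1 : (1 : ℝ) ≤ p := by exact_mod_cast hp.one_le
  have hp0 : (0 : ℝ) < p := by linarith
  have hX0 : 0 ≤ X := by linarith
  have hl : 0 ≤ Real.log (4 * (p : ℝ)) := Real.log_nonneg (by linarith)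
  have h1 := AX_le hX hp.ne_zero (not_sq_prime hp)
  have h2 : 0 ≤ 12 * √X * (p : ℝ) ^ (1 / 4 : ℝ) * L := by
    have : 0 ≤ L := by linarith
    positivity
  apply le_of_sq_le_sq _ h2
  refine h1.trans ?_
  have e1 : (12 * √X * (p : ℝ) ^ (1 / 4 : ℝ) * L) ^ 2 = 144 * √X ^ 2 * ((p : ℝ) ^ (1 / 4 : ℝ)) ^ 2 * L ^ 2 := by ring
  have e2 : ((p : ℝ) ^ (1 / 4 : ℝ)) ^ 2 = √(p : ℝ) := by
    rw [← Real.rpow_natCast, ← Real.rpow_mul hp0.le, Real.sqrt_eq_rpow]
    norm_num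
  rw [e1, e2, Real.sq_sqrt hX0]
  unfold Bm
  have h3 : 1 + Real.log (4 * p) ≤ L ^ 2 := by nlinarith
  have h4 : 0 ≤ √(p : ℝ) := Real.sqrt_nonneg _
  calc 16 * X * (8 * √(p : ℝ) * (1 + Real.log (4 * p))) = 128 * X * √(p : ℝ) * (1 + Real.log (4 * p)) := by ring
    _ ≤ 144 * X * √(p : ℝ) * L ^ 2 := by gcongr; norm_num

theorem gd_bound {X : ℝ} (hX : 1 ≤ X) {r : ℂ} (hr : 0 ≤ r.re) {p k : ℕ} (hp : p.Prime) (hk : 1 ≤ k)
    {L : ℝ} (hL : 1 + Real.log (4 * p) ≤ L) :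
    ‖gd X r (p ^ k)‖ ≤ 24 * √X * L ^ 2 * (p : ℝ) ^ (-(5 / 4) : ℝ) := by
  have hp1 : (1 : ℝ) ≤ p := by exact_mod_cast hp.one_le
  have hp0 : (0 : ℝ) < p := by linarith
  have hl : 0 ≤ Real.log (4 * (p : ℝ)) := Real.log_nonneg (by linarith)
  have hlp : 0 ≤ Real.log (p : ℝ) := Real.log_nonneg hp1
  have hlp2 : Real.log (p : ℝ) ≤ L := by
    have : Real.log (p : ℝ) ≤ Real.log (4 * p) := Real.log_le_log hp0 (by linarith)
    linarith
  have hL0 : 0 ≤ L := by linarith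
  have hB := AX_prime_le hX hp hL
  have hR0 : 0 ≤ 24 * √X * L ^ 2 * (p : ℝ) ^ (-(5 / 4) : ℝ) := by positivity
  have hpow : (p : ℝ) ^ (-(3 / 2) : ℝ) * (p : ℝ) ^ (1 / 4 : ℝ) = (p : ℝ) ^ (-(5 / 4) : ℝ) := by
    rw [← Real.rpow_add hp0]
    norm_num
  have hfin : ∀ w : ℝ, w ≤ 2 * (p : ℝ) ^ (-(3 / 2) : ℝ) → 0 ≤ w →
      Real.log p * w * ‖AX X p‖ ≤ 24 * √X * L ^ 2 * (p : ℝ) ^ (-(5 / 4) : ℝ) := by
    intro w hw hw0
    calc Real.log p * w * ‖AX X p‖ ≤ L * (2 * (p : ℝ) ^ (-(3 / 2) : ℝ)) *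
          (12 * √X * (p : ℝ) ^ (1 / 4 : ℝ) * L) := by gcongr
      _ = 24 * √X * L ^ 2 * ((p : ℝ) ^ (-(3 / 2) : ℝ) * (p : ℝ) ^ (1 / 4 : ℝ)) := by ring
      _ = _ := by rw [hpow]
  rcases Nat.even_or_odd k with he | ho
  · -- squares
    obtain ⟨j, hj⟩ := he
    have hsq : IsSquare (p ^ k) := ⟨p ^ j, by rw [hj, pow_add]⟩
    have hnp : ¬ (p ^ k).Prime := fun h => not_sq_prime h hsq
    unfold gd
    rw [if_pos hsq, ap_zero (fun h => hnp h.1)]
    simpa using hR0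
  · have hns : ¬ IsSquare (p ^ k) := by
      rintro ⟨c, hc⟩
      have h1 := congrArg (fun n => n.factorization p) hc
      have hc0 : c ≠ 0 := by
        rintro rfl
        have : p ^ k ≠ 0 := pow_ne_zero _ hp.ne_zero
        exact this hc
      simp only [Nat.factorization_mul hc0 hc0, Finsupp.add_apply,
        Nat.Prime.factorization_pow hp, Finsupp.single_eq_same] at h1
      obtain ⟨j, hj⟩ := ho
      omega
    have hΛ : Λ (p ^ k) = Real.log p := by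
      rw [ArithmeticFunction.vonMangoldt_apply_pow (by omega),
        ArithmeticFunction.vonMangoldt_apply_prime hp]
    have hnorm : ‖((Λ (p ^ k) : ℝ) : ℂ) * ((p ^ k : ℕ) : ℂ) ^ (-(1 / 2 + r)) * AX X (p ^ k)‖ =
        Real.log p * ((p ^ k : ℕ) : ℝ) ^ (-(1 / 2 + r.re)) * ‖AX X p‖ := by
      rw [hΛ, AX_pow_odd X ho, norm_mul, norm_mul, norm_real, Real.norm_of_nonneg hlp,
        norm_natCast_cpow_of_pos (pow_pos hp.pos k)]
      congr 3
      simp
    by_cases hk1 : k = 1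
    · subst hk1
      rw [pow_one] at *
      by_cases hp2 : p = 2
      · unfold gd
        rw [if_neg hns, ap_zero (fun h => h.2 hp2), zero_mul, sub_zero, hnorm]
        apply hfin
        · have h2 : (p : ℝ) ^ (-(1 / 2 + r.re)) ≤ (p : ℝ) ^ (-(1 / 2) : ℝ) :=
            Real.rpow_le_rpow_of_exponent_le hp1 (by linarith)
          have h3 : 2 * (p : ℝ) ^ (-(3 / 2) : ℝ) = (p : ℝ) ^ (-(1 / 2) : ℝ) := by
            have h4 : (2 : ℝ) = (p : ℝ) ^ (1 : ℝ) := by rw [Real.rpow_one, hp2]; norm_num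
            rw [h4, ← Real.rpow_add hp0]
            congr 1
            rw [Real.rpow_one, hp2]
            norm_num
          rw [h3]
          exact h2
        · positivity
      · unfold gd
        have h5 : ap r p = ((Λ p : ℝ) : ℂ) * (p : ℂ) ^ (-(1 / 2 + r)) := by
          unfold ap lp
          rw [if_pos ⟨hp, hp2⟩, ArithmeticFunction.vonMangoldt_apply_prime hp]
        rw [if_neg hns, h5, sub_self, norm_zero]
        exact hR0
    · have hk3 : 3 ≤ k := by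
        obtain ⟨j, hj⟩ := ho
        omega
      have hnp : ¬ (p ^ k).Prime := Nat.Prime.not_prime_pow (by omega)
      unfold gd
      rw [if_neg hns, ap_zero (fun h => hnp h.1), zero_mul, sub_zero, hnorm]
      apply hfin
      · have h1 : ((p ^ k : ℕ) : ℝ) ^ (-(1 / 2 + r.re)) = (p : ℝ) ^ ((k : ℝ) * (-(1 / 2 + r.re))) := by
          push_cast
          rw [← Real.rpow_natCast, ← Real.rpow_mul hp0.le]
        rw [h1]
        have h2 : (p : ℝ) ^ ((k : ℝ) * (-(1 / 2 + r.re))) ≤ (p : ℝ) ^ (-(3 / 2) : ℝ) := by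
          apply Real.rpow_le_rpow_of_exponent_le hp1
          have : (3 : ℝ) ≤ k := by exact_mod_cast hk3
          nlinarith
        have h3 : 0 ≤ (p : ℝ) ^ (-(3 / 2) : ℝ) := by positivity
        linarith
      · positivity

theorem sum_gd {X : ℝ} (hX : 1 ≤ X) {r : ℂ} (hr : 0 ≤ r.re) {P : ℝ} (hP : 1 ≤ P) :
    ‖∑ m ∈ Finset.Icc 1 ⌊P⌋₊, gd X r m‖ ≤ 240 * √X * (1 + Real.log (4 * P)) ^ 3 := by
  set L := 1 + Real.log (4 * P) with hL
  have hlP : 0 ≤ Real.log P := Real.log_nonneg hP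
  have hlP4 : Real.log P ≤ Real.log (4 * P) := Real.log_le_log (by linarith) (by linarith)
  have hL0 : 0 ≤ L := by linarith
  have h1 : ∑ m ∈ Finset.Icc 1 ⌊P⌋₊, gd X r m = ∑ m ∈ Finset.Ioc 0 ⌊P⌋₊ with IsPrimePow m, gd X r m := by
    rw [Finset.sum_filter]
    have e1 : Finset.Icc 1 ⌊P⌋₊ = Finset.Ioc 0 ⌊P⌋₊ := by
      ext k; simp only [Finset.mem_Icc, Finset.mem_Ioc]; omega
    rw [e1]
    apply Finset.sum_congr rfl
    intro m _
    split_ifs with h
    · rfl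
    · unfold gd
      have h2 : Λ m = 0 := ArithmeticFunction.vonMangoldt_eq_zero_iff.2 h
      rw [h2, ap_zero (fun h3 => h h3.1.isPrimePow)]
      simp
  rw [h1, Chebyshev.sum_PrimePow_eq_sum_sum (gd X r) (by linarith : (0 : ℝ) ≤ P)]
  have h3 : ∀ k ∈ Finset.Icc 1 ⌊Real.log P / Real.log 2⌋₊,
      ‖∑ p ∈ Finset.Ioc 0 ⌊P ^ ((1 : ℝ) / k)⌋₊ with p.Prime, gd X r (p ^ k)‖ ≤ 120 * √X * L ^ 2 := by
    intro k hk
    rw [Finset.mem_Icc] at hk
    have hk1 : (1 : ℝ) ≤ k := by exact_mod_cast hk.1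
    have hPk : P ^ ((1 : ℝ) / k) ≤ P := by
      calc P ^ ((1 : ℝ) / k) ≤ P ^ (1 : ℝ) := by
            apply Real.rpow_le_rpow_of_exponent_le hP
            rw [div_le_one (by linarith)]
            exact hk1
        _ = P := Real.rpow_one P
    have h4 : ∀ p ∈ (Finset.Ioc 0 ⌊P ^ ((1 : ℝ) / k)⌋₊).filter (fun p => p.Prime),
        ‖gd X r (p ^ k)‖ ≤ 24 * √X * L ^ 2 * (p : ℝ) ^ (-(5 / 4) : ℝ) := by
      intro p hp
      rw [Finset.mem_filter, Finset.mem_Ioc] at hp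
      have hpP : (p : ℝ) ≤ P := by
        have h5 : (p : ℝ) ≤ P ^ ((1 : ℝ) / k) :=
          (Nat.le_floor_iff (Real.rpow_nonneg (by linarith) _)).1 hp.1.2
        linarith
      have hp0 : (0 : ℝ) < p := by exact_mod_cast hp.1.1
      apply gd_bound hX hr hp.2 hk.1
      have : Real.log (4 * (p : ℝ)) ≤ Real.log (4 * P) := Real.log_le_log (by positivity) (by linarith)
      linarith
    refine (norm_sum_le_of_le _ h4).trans ?_
    rw [← Finset.mul_sum]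
    have h6 : ∑ p ∈ (Finset.Ioc 0 ⌊P ^ ((1 : ℝ) / k)⌋₊).filter (fun p => p.Prime), (p : ℝ) ^ (-(5 / 4) : ℝ) ≤
        ∑ n ∈ Finset.Icc 1 ⌊P ^ ((1 : ℝ) / k)⌋₊, (n : ℝ) ^ (-(5 / 4) : ℝ) := by
      apply Finset.sum_le_sum_of_subset_of_nonneg
      · intro p hp
        rw [Finset.mem_filter, Finset.mem_Ioc] at hp
        rw [Finset.mem_Icc]
        omega
      · intro n _ _
        positivity
    calc _ ≤ 24 * √X * L ^ 2 * 5 := by
          apply mul_le_mul_of_nonneg_left (h6.trans (sum_rpow_five _)) (by positivity)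
      _ = _ := by ring
  refine (norm_sum_le_of_le _ h3).trans ?_
  rw [Finset.sum_const, nsmul_eq_mul, Nat.card_Icc, Nat.add_sub_cancel]
  have h7 : (⌊Real.log P / Real.log 2⌋₊ : ℝ) ≤ 2 * L := by
    have hl2 := Real.log_two_gt_d9
    refine (Nat.floor_le (by positivity)).trans ?_
    rw [div_le_iff₀ (by linarith)]
    nlinarith
  calc _ ≤ 2 * L * (120 * √X * L ^ 2) := by gcongr
    _ = _ := by ring

theorem nonsq_eq {X : ℝ} (r : ℂ) (N : ℕ) :
    ∑ m ∈ (Finset.Icc 1 N).filter (fun m => ¬ IsSquare m),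
      ((Λ m : ℝ) : ℂ) * (m : ℂ) ^ (-(1 / 2 + r)) * AX X m =
    ∑ m ∈ Finset.Icc 1 N, gd X r m + ∑ p ∈ Finset.Icc 1 N, ap r p * AX X p := by
  rw [← Finset.sum_add_distrib, Finset.sum_filter]
  apply Finset.sum_congr rfl
  intro m _
  unfold gd
  by_cases h : IsSquare m
  · rw [if_neg (fun h2 => h2 h), if_pos h]; ring
  · rw [if_pos h, if_neg h]; ring

end Pool.Agent.Helper368_LD
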