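import Pool.Agent.Helper368_LD.FAll2
import Pool.Agent.Helper368_LD.NsqPrimes
import Pool.Agent.Helper368_LD.PrimePow

/-!
# The sum over the squarefree moduli in two ranges
-/

set_option autoImplicit false

namespace Pool.Agent.Helper368_LD

open MeasureTheory Set Complex
open scoped Real ArithmeticFunction.vonMangoldt
open Pool.Agent.H491R3.J
open ArithmeticFunction (moebius)

theorem dom (N : ℕ) : ∃ D : ℝ, 0 < D ∧ ∀ X : ℝ, 2 ≤ X → (7 * Real.log X) ^ N ≤ D * X ^ (1 / 40 : ℝ) := by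
  have h := (isLittleO_log_rpow_rpow_atTop (N : ℝ) (s := 1 / 40) (by norm_num)).bound
    (c := 1) (by positivity)
  obtain ⟨X1, hX1⟩ := Filter.eventually_atTop.1 h
  refine ⟨7 ^ N + (7 * Real.log (max X1 2)) ^ N, ?_, ?_⟩
  · have : 0 ≤ Real.log (max X1 2) := Real.log_nonneg (by linarith [le_max_right X1 2])
    positivity
  · intro X hX
    have hl : 0 ≤ Real.log X := Real.log_nonneg (by linarith)
    have hX40 : 1 ≤ X ^ (1 / 40 : ℝ) := Real.one_le_rpow (by linarith) (by norm_num)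
    have hm0 : 0 ≤ Real.log (max X1 2) := Real.log_nonneg (by linarith [le_max_right X1 2])
    have hm : 0 ≤ (7 * Real.log (max X1 2)) ^ N := by positivity
    rcases le_or_gt (max X1 2) X with hc | hc
    · have h1 := hX1 X ((le_max_left _ _).trans hc)
      rw [Real.rpow_natCast, Real.norm_of_nonneg (by positivity), Real.norm_of_nonneg (by positivity),
        one_mul] at h1
      rw [mul_pow]
      calc (7 : ℝ) ^ N * Real.log X ^ N ≤ 7 ^ N * X ^ (1 / 40 : ℝ) := by gcongr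
        _ ≤ _ := by
            gcongr
            linarith
    · calc (7 * Real.log X) ^ N ≤ (7 * Real.log (max X1 2)) ^ N := by
            gcongr
        _ = (7 * Real.log (max X1 2)) ^ N * 1 := (mul_one _).symm
        _ ≤ (7 * Real.log (max X1 2)) ^ N * X ^ (1 / 40 : ℝ) := by gcongr
        _ ≤ _ := by
            gcongr
            have : (0 : ℝ) < 7 ^ N := by positivity
            linarith

theorem sum_rpow_eleven (N : ℕ) : ∑ n ∈ Finset.Icc 1 N, (n : ℝ) ^ (-(11 / 10) : ℝ) ≤ 11 := by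
  rcases Nat.eq_zero_or_pos N with h | h
  · subst h; simp
  · have h1 := sum_rpow_tail (β := 11 / 10) (by norm_num) (le_refl 1) (N - 1)
    have h2 : ∑ n ∈ Finset.Icc 1 N, (n : ℝ) ^ (-(11 / 10) : ℝ) =
        1 + ∑ i ∈ Finset.range (N - 1), (((1 + (i + 1) : ℕ) : ℝ)) ^ (-(11 / 10) : ℝ) := by
      have e1 : Finset.Icc 1 N = Finset.Ico 1 (N + 1) := by
        ext k; simp only [Finset.mem_Icc, Finset.mem_Ico]; omega
      rw [e1, Finset.sum_Ico_eq_sum_range]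
      have e2 : N + 1 - 1 = (N - 1) + 1 := by omega
      rw [e2, Finset.sum_range_succ', add_comm]
      congr 1
      simp
    rw [h2]
    have h3 : ((1 : ℕ) : ℝ) ^ (1 - (11 / 10) : ℝ) / (11 / 10 - 1) = 10 := by norm_num
    rw [h3] at h1
    linarith

theorem primes_main' {X K1 K2 : ℝ} {n : ℕ} (hX : 1 ≤ X) {r : ℂ} (hr0 : 0 < r.re) (hr : r.re ≤ 2 / 5)
    (hK1 : 0 ≤ K1) (hK2 : 0 ≤ K2)
    (h1 : ∀ x : ℝ, 1 ≤ x → x ≤ X → ‖WT r n x - (x : ℂ) ^ (1 - r) * Cr r‖ ≤ K1 * x ^ (1 - r.re))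
    (h2 : ∀ x : ℝ, √X ≤ x → x ≤ X → ‖WT r n x - (x : ℂ) ^ (1 - r) * Cr r‖ ≤ K2 * x ^ (1 - r.re)) :
    ‖∑ p ∈ Finset.Icc 1 (2 ^ n), ap r p * AX X p - Main2 X r‖ ≤
      11 * (K2 + K1 * X ^ (-(1 / 40) : ℝ)) * X ^ (1 - r.re) +
      500 * √X / r.re ^ 2 + 10 * √X * (1 + Real.log (4 * X)) ^ 2 := by
  have hX0 : 0 < X := by linarith
  rw [sum_ap_AX hX]
  have b1 := corr_bound hX hr0.le n
  have b2 := sum_main_d hX hr0 hr
  set C := ∑ d ∈ (Finset.Icc 1 ⌊√X⌋₊).filter (fun d => Odd d), ∑ p ∈ Finset.Icc 1 (2 ^ n),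
        (if p ∣ d then ap r p * (((moebius d : ℤ) : ℂ) * (Fp p (X / (d : ℝ) ^ 2) : ℂ)) else 0) with hC
  set S := ∑ d ∈ (Finset.Icc 1 ⌊√X⌋₊).filter (fun d => Odd d), ((moebius d : ℤ) : ℂ) *
        (((X / (d : ℝ) ^ 2 : ℝ) : ℂ) ^ (1 - r) * Cr r) with hS
  set W := ∑ d ∈ (Finset.Icc 1 ⌊√X⌋₊).filter (fun d => Odd d), ((moebius d : ℤ) : ℂ) *
        WT r n (X / (d : ℝ) ^ 2) with hW
  set σ := r.re with hσ
  have hX40 : 0 < X ^ (-(1 / 40) : ℝ) := Real.rpow_pos_of_pos hX0 _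
  have b3 : ‖W - S‖ ≤ 11 * (K2 + K1 * X ^ (-(1 / 40) : ℝ)) * X ^ (1 - σ) := by
    rw [hW, hS, ← Finset.sum_sub_distrib]
    have hterm : ∀ d ∈ (Finset.Icc 1 ⌊√X⌋₊).filter (fun d => Odd d), ‖((moebius d : ℤ) : ℂ) *
        WT r n (X / (d : ℝ) ^ 2) - ((moebius d : ℤ) : ℂ) *
        (((X / (d : ℝ) ^ 2 : ℝ) : ℂ) ^ (1 - r) * Cr r)‖ ≤
        (K2 + K1 * X ^ (-(1 / 40) : ℝ)) * X ^ (1 - σ) * (d : ℝ) ^ (-(11 / 10) : ℝ) := by
      intro d hd
      rw [Finset.mem_filter, Finset.mem_Icc] at hd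
      have hd1 : (1 : ℝ) ≤ d := by exact_mod_cast hd.1.1
      have hd0 : (0 : ℝ) < d := by linarith
      have hdX : (d : ℝ) ≤ √X := (Nat.le_floor_iff (Real.sqrt_nonneg X)).1 hd.1.2
      have hd2 : (d : ℝ) ^ 2 ≤ X := by
        calc (d : ℝ) ^ 2 ≤ √X ^ 2 := by gcongr
          _ = X := Real.sq_sqrt hX0.le
      have hx1 : 1 ≤ X / (d : ℝ) ^ 2 := by
        rw [le_div_iff₀ (by positivity)]
        linarith
      have hx2 : X / (d : ℝ) ^ 2 ≤ X := div_le_self hX0.le (one_le_pow₀ hd1)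
      rw [← mul_sub, norm_mul]
      have a1 : ‖((moebius d : ℤ) : ℂ)‖ ≤ 1 := by
        rw [Complex.norm_intCast]
        exact_mod_cast ArithmeticFunction.abs_moebius_le_one
      have a2 : (X / (d : ℝ) ^ 2) ^ (1 - σ) ≤ X ^ (1 - σ) * (d : ℝ) ^ (-(6 / 5) : ℝ) := by
        rw [Real.div_rpow hX0.le (by positivity), div_eq_mul_inv]
        apply mul_le_mul_of_nonneg_left _ (Real.rpow_nonneg hX0.le _)
        rw [← Real.rpow_natCast, ← Real.rpow_mul hd0.le, ← Real.rpow_neg hd0.le]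
        apply Real.rpow_le_rpow_of_exponent_le hd1
        push_cast
        linarith
      have a3 : (d : ℝ) ^ (-(6 / 5) : ℝ) = (d : ℝ) ^ (-(1 / 10) : ℝ) * (d : ℝ) ^ (-(11 / 10) : ℝ) := by
        rw [← Real.rpow_add hd0]
        norm_num
      have hXσ : 0 < X ^ (1 - σ) := Real.rpow_pos_of_pos hX0 _
      have hd11 : 0 < (d : ℝ) ^ (-(11 / 10) : ℝ) := Real.rpow_pos_of_pos hd0 _
      rcases le_or_gt ((d : ℝ) ^ 2) (√X) with hc | hc
      · have hx3 : √X ≤ X / (d : ℝ) ^ 2 := by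
          rw [le_div_iff₀ (by positivity)]
          calc √X * (d : ℝ) ^ 2 ≤ √X * √X := by gcongr
            _ = X := Real.mul_self_sqrt hX0.le
        have a4 : (d : ℝ) ^ (-(1 / 10) : ℝ) ≤ 1 := Real.rpow_le_one_of_one_le_of_nonpos hd1 (by norm_num)
        calc _ ≤ 1 * (K2 * (X / (d : ℝ) ^ 2) ^ (1 - σ)) :=
              mul_le_mul a1 (h2 _ hx3 hx2) (norm_nonneg _) zero_le_one
          _ ≤ 1 * (K2 * (X ^ (1 - σ) * (1 * (d : ℝ) ^ (-(11 / 10) : ℝ)))) := by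
              rw [a3] at a2
              gcongr
              refine a2.trans ?_
              gcongr
          _ = K2 * X ^ (1 - σ) * (d : ℝ) ^ (-(11 / 10) : ℝ) := by ring
          _ ≤ _ := by
              gcongr
              have : 0 ≤ K1 * X ^ (-(1 / 40) : ℝ) := by positivity
              linarith
      · have a4 : (d : ℝ) ^ (-(1 / 10) : ℝ) ≤ X ^ (-(1 / 40) : ℝ) := by
          have e1 : X ^ (-(1 / 40) : ℝ) = (√X) ^ (-(1 / 20) : ℝ) := by
            rw [Real.sqrt_eq_rpow, ← Real.rpow_mul hX0.le]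
            norm_num
          have e2 : (d : ℝ) ^ (-(1 / 10) : ℝ) = ((d : ℝ) ^ 2) ^ (-(1 / 20) : ℝ) := by
            rw [← Real.rpow_natCast, ← Real.rpow_mul hd0.le]
            norm_num
          rw [e1, e2]
          exact Real.rpow_le_rpow_of_nonpos (Real.sqrt_pos.2 hX0) hc.le (by norm_num)
        calc _ ≤ 1 * (K1 * (X / (d : ℝ) ^ 2) ^ (1 - σ)) :=
              mul_le_mul a1 (h1 _ hx1 hx2) (norm_nonneg _) zero_le_one
          _ ≤ 1 * (K1 * (X ^ (1 - σ) * (X ^ (-(1 / 40) : ℝ) * (d : ℝ) ^ (-(11 / 10) : ℝ)))) := by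
              rw [a3] at a2
              gcongr
              refine a2.trans ?_
              gcongr
          _ = K1 * X ^ (-(1 / 40) : ℝ) * X ^ (1 - σ) * (d : ℝ) ^ (-(11 / 10) : ℝ) := by ring
          _ ≤ _ := by
              gcongr
              linarith
    refine (norm_sum_le_of_le _ hterm).trans ?_
    rw [← Finset.mul_sum]
    have hs : ∑ d ∈ (Finset.Icc 1 ⌊√X⌋₊).filter (fun d => Odd d), (d : ℝ) ^ (-(11 / 10) : ℝ) ≤ 11 := by
      refine le_trans ?_ (sum_rpow_eleven ⌊√X⌋₊)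
      apply Finset.sum_le_sum_of_subset_of_nonneg (Finset.filter_subset _ _)
      intro d _ _
      positivity
    have hpos : 0 ≤ (K2 + K1 * X ^ (-(1 / 40) : ℝ)) * X ^ (1 - σ) := by positivity
    calc _ ≤ (K2 + K1 * X ^ (-(1 / 40) : ℝ)) * X ^ (1 - σ) * 11 := mul_le_mul_of_nonneg_left hs hpos
      _ = _ := by ring
  have e1 : W - C - Main2 X r = (W - S) + (S - Main2 X r) - C := by ring
  rw [e1]
  calc _ ≤ ‖(W - S) + (S - Main2 X r)‖ + ‖C‖ := norm_sub_le _ _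
    _ ≤ ‖W - S‖ + ‖S - Main2 X r‖ + ‖C‖ := by
        gcongr
        exact norm_add_le _ _
    _ ≤ _ := by linarith

end Pool.Agent.Helper368_LD
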