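import Pool.Agent.Helper368_LD.GaussVal

/-!
# Fourier expansion of the averages of a periodic function
-/

set_option autoImplicit false

namespace Pool.Agent.Helper368_LD

open Finset
open Pool.Agent.H987R2.RZ (sum_neg)

/-- the integral of the partial sums -/
noncomputable def FS (f : ℕ → ℝ) (x : ℝ) : ℝ := ∑ l ∈ Icc 1 ⌊x⌋₊, f l * (x - l)

theorem tri_neg {v : ℝ} (h1 : -1 ≤ v) (h2 : v < 0) : v ^ 2 + v + Int.fract v - Int.fract v ^ 2 = 0 := by
  have h : Int.fract v = v + 1 := by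
    rw [Int.fract_eq_iff]
    refine ⟨by linarith, by linarith, -1, by push_cast; ring⟩
  rw [h]
  ring

theorem tri (M : ℕ) : ∀ v : ℝ, -1 ≤ v → v ≤ M →
    ∑ i ∈ range M, max (v - i) 0 = (v ^ 2 + v + Int.fract v - Int.fract v ^ 2) / 2 := by
  induction M with
  | zero =>
    intro v h1 h2
    rw [range_zero, sum_empty]
    rcases lt_or_eq_of_le h2 with h | h
    · rw [tri_neg h1 (by simpa using h)]
      norm_num
    · rw [h]; simp
  | succ M ih =>
    intro v h1 h2
    rcases lt_or_ge v 0 with h | h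
    · rw [tri_neg h1 h, zero_div]
      apply Finset.sum_eq_zero
      intro i _
      apply max_eq_right
      have : (0 : ℝ) ≤ i := Nat.cast_nonneg i
      linarith
    · rw [Finset.sum_range_succ']
      push_cast at h2
      have h3 := ih (v - 1) (by linarith) (by linarith)
      have h4 : ∀ i ∈ range M, max (v - ((i + 1 : ℕ) : ℝ)) 0 = max (v - 1 - i) 0 := by
        intro i _
        push_cast
        congr 1
        ring
      rw [Finset.sum_congr rfl h4, h3, Int.fract_sub_one]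
      simp only [Nat.cast_zero, sub_zero]
      rw [max_eq_left h]
      ring

theorem sum_range_mul (N M : ℕ) (g : ℕ → ℝ) :
    ∑ l ∈ range (N * M), g l = ∑ a ∈ range N, ∑ i ∈ range M, g (i * N + a) := by
  induction M with
  | zero => simp
  | succ M ih =>
    rw [Nat.mul_succ, Finset.sum_range_add, ih]
    simp_rw [Finset.sum_range_succ]
    rw [Finset.sum_add_distrib]
    congr 1
    apply Finset.sum_congr rfl
    intro a _
    rw [mul_comm]

theorem FS_max {f : ℕ → ℝ} (h0 : f 0 = 0) {x : ℝ} (hx : 0 ≤ x) {M : ℕ} (hM : ⌊x⌋₊ < M) :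
    FS f x = ∑ l ∈ range M, f l * max (x - l) 0 := by
  unfold FS
  have h1 : ∑ l ∈ Icc 1 ⌊x⌋₊, f l * (x - l) = ∑ l ∈ Icc 1 ⌊x⌋₊, f l * max (x - l) 0 := by
    apply Finset.sum_congr rfl
    intro l hl
    rw [mem_Icc] at hl
    rw [max_eq_left]
    have := (Nat.le_floor_iff hx).1 hl.2
    linarith
  rw [h1]
  apply Finset.sum_subset
  · intro l hl
    rw [mem_Icc] at hl
    rw [mem_range]
    omega
  · intro l _ hl
    rw [mem_Icc, not_and_or] at hl
    rcases hl with h | h
    · have : l = 0 := by omega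
      rw [this, h0, zero_mul]
    · rw [not_le] at h
      have := (Nat.floor_lt hx).1 h
      rw [max_eq_right (by linarith), mul_zero]

theorem FS_periodic {f : ℕ → ℝ} (h0 : f 0 = 0) {N : ℕ} (hN : 0 < N) (hf : ∀ a i : ℕ, f (i * N + a) = f a)
    {x : ℝ} (hx : 0 ≤ x) : FS f x = ∑ a ∈ range N, f a * ((N : ℝ) *
      ((((x - a) / N) ^ 2 + (x - a) / N + Int.fract ((x - a) / N) - Int.fract ((x - a) / N) ^ 2) / 2)) := by
  have hN' : (0 : ℝ) < N := by exact_mod_cast hN
  rw [FS_max h0 hx (M := N * (⌊x⌋₊ + 1)) (by nlinarith), sum_range_mul]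
  apply Finset.sum_congr rfl
  intro a ha
  rw [mem_range] at ha
  have ha' : (a : ℝ) < N := by exact_mod_cast ha
  rw [← tri (⌊x⌋₊ + 1) ((x - a) / N)]
  · rw [Finset.mul_sum, Finset.mul_sum]
    apply Finset.sum_congr rfl
    intro i _
    rw [hf]
    congr 1
    rw [mul_max_of_nonneg _ _ hN'.le, mul_zero]
    congr 1
    push_cast
    field_simp
    ring
  · rw [le_div_iff₀ hN']
    linarith
  · rw [div_le_iff₀ hN']
    have h1 := Nat.lt_floor_add_one x
    have h2 : (1 : ℝ) ≤ N := by exact_mod_cast hN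
    have h3 : (0 : ℝ) ≤ a := Nat.cast_nonneg a
    push_cast
    nlinarith

theorem cos_series (v : ℝ) : HasSum (fun n : ℕ => 1 / (n : ℝ) ^ 2 * Real.cos (2 * Real.pi * n * v))
    (Real.pi ^ 2 * (Int.fract v ^ 2 - Int.fract v + 1 / 6)) := by
  have h := hasSum_one_div_nat_pow_mul_cos (k := 1) one_ne_zero (x := Int.fract v)
    ⟨Int.fract_nonneg v, (Int.fract_lt_one v).le⟩
  convert h using 1
  · funext n
    norm_num
    left
    have h1 : v = Int.fract v + ⌊v⌋ := (Int.fract_add_floor v).symm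
    have h2 : 2 * Real.pi * n * v = 2 * Real.pi * n * Int.fract v + ((n * ⌊v⌋ : ℤ) : ℝ) * (2 * Real.pi) := by
      conv_lhs => rw [h1]
      push_cast
      ring
    rw [h2, Real.cos_add_int_mul_two_pi]
  · simp [Polynomial.bernoulli, Finset.sum_range_succ, bernoulli_one, bernoulli_two]
    ring

theorem FS_hasSum {f : ℕ → ℝ} {N : ℕ} (hN : 0 < N) (hf : ∀ a i : ℕ, f (i * N + a) = f a)
    (h0 : f 0 = 0) (heven : ∀ a, a ≤ N → f (N - a) = f a) (hz : ∑ a ∈ range N, f a = 0)
    {x H : ℝ} (hx : 0 ≤ x) (hH : 0 ≤ H) :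
    HasSum (fun k : ℕ => (N : ℝ) / (2 * Real.pi ^ 2) / (k : ℝ) ^ 2 *
      ((Real.cos (2 * Real.pi * k * x / N) - Real.cos (2 * Real.pi * k * (x + H) / N)) *
        ∑ a ∈ range N, f a * Real.cos (2 * Real.pi * (k * a) / N))) (FS f (x + H) - FS f x) := by
  have hN' : (0 : ℝ) < N := by exact_mod_cast hN
  have hfN : f N = 0 := by
    have := hf 0 1
    simpa [h0] using this
  -- the first moment
  have hmom : ∑ a ∈ range N, (a : ℝ) * f a = 0 := by
    have h1 := sum_neg N (fun a => (a : ℝ) * f a) (by simp [hfN])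
    have h2 : ∑ r ∈ range N, ((N - r : ℕ) : ℝ) * f (N - r) =
        ∑ r ∈ range N, ((N : ℝ) * f r - (r : ℝ) * f r) := by
      apply Finset.sum_congr rfl
      intro r hr
      rw [mem_range] at hr
      rw [heven r hr.le, Nat.cast_sub hr.le]
      ring
    rw [h2, Finset.sum_sub_distrib, ← Finset.mul_sum, hz] at h1
    linarith
  have hsin : ∀ k : ℕ, ∑ a ∈ range N, f a * Real.sin (2 * Real.pi * (k * a) / N) = 0 := by
    intro k
    have h1 := sum_neg N (fun a => f a * Real.sin (2 * Real.pi * (k * a) / N)) (by simp [hfN])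
    have h2 : ∑ r ∈ range N, f (N - r) * Real.sin (2 * Real.pi * (k * ((N - r : ℕ) : ℝ)) / N) =
        ∑ r ∈ range N, -(f r * Real.sin (2 * Real.pi * (k * r) / N)) := by
      apply Finset.sum_congr rfl
      intro r hr
      rw [mem_range] at hr
      rw [heven r hr.le, Nat.cast_sub hr.le]
      have h3 : 2 * Real.pi * (k * ((N : ℝ) - r)) / N = k * (2 * Real.pi) - 2 * Real.pi * (k * r) / N := by
        field_simp
      rw [h3, Real.sin_nat_mul_two_pi_sub]
      ring
    rw [h2, Finset.sum_neg_distrib] at h1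
    linarith
  have hval : FS f (x + H) - FS f x = ∑ a ∈ range N, f a * ((N : ℝ) / (2 * Real.pi ^ 2) *
      (Real.pi ^ 2 * (Int.fract ((x - a) / N) ^ 2 - Int.fract ((x - a) / N) + 1 / 6) -
        Real.pi ^ 2 * (Int.fract ((x + H - a) / N) ^ 2 - Int.fract ((x + H - a) / N) + 1 / 6))) := by
    rw [FS_periodic h0 hN hf (by linarith), FS_periodic h0 hN hf hx, ← Finset.sum_sub_distrib]
    have e1 : ∀ a ∈ range N, f a * ((N : ℝ) * ((((x + H - a) / N) ^ 2 + (x + H - a) / N +
        Int.fract ((x + H - a) / N) - Int.fract ((x + H - a) / N) ^ 2) / 2)) -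
        f a * ((N : ℝ) * ((((x - a) / N) ^ 2 + (x - a) / N + Int.fract ((x - a) / N) -
        Int.fract ((x - a) / N) ^ 2) / 2)) =
        f a * ((N : ℝ) / (2 * Real.pi ^ 2) *
      (Real.pi ^ 2 * (Int.fract ((x - a) / N) ^ 2 - Int.fract ((x - a) / N) + 1 / 6) -
        Real.pi ^ 2 * (Int.fract ((x + H - a) / N) ^ 2 - Int.fract ((x + H - a) / N) + 1 / 6))) +
        ((((x + H) ^ 2 - x ^ 2) / (2 * N) + H / 2) * f a - H / N * (a * f a)) := by
      intro a _
      have hpi : Real.pi ≠ 0 := Real.pi_ne_zero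
      field_simp
      ring
    rw [Finset.sum_congr rfl e1, Finset.sum_add_distrib, Finset.sum_sub_distrib,
      ← Finset.mul_sum, ← Finset.mul_sum, hz, hmom]
    ring
  rw [hval]
  have hterm : ∀ a ∈ range N, HasSum (fun k : ℕ => f a * ((N : ℝ) / (2 * Real.pi ^ 2) *
      (1 / (k : ℝ) ^ 2 * Real.cos (2 * Real.pi * k * ((x - a) / N)) -
        1 / (k : ℝ) ^ 2 * Real.cos (2 * Real.pi * k * ((x + H - a) / N)))))
      (f a * ((N : ℝ) / (2 * Real.pi ^ 2) *
      (Real.pi ^ 2 * (Int.fract ((x - a) / N) ^ 2 - Int.fract ((x - a) / N) + 1 / 6) -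
        Real.pi ^ 2 * (Int.fract ((x + H - a) / N) ^ 2 - Int.fract ((x + H - a) / N) + 1 / 6)))) := by
    intro a _
    exact (((cos_series ((x - a) / N)).sub (cos_series ((x + H - a) / N))).mul_left _).mul_left _
  have := hasSum_sum hterm
  convert this using 1
  funext k
  have h4 : ∀ (y : ℝ), ∀ a ∈ range N, f a * Real.cos (2 * Real.pi * k * ((y - a) / N)) =
      Real.cos (2 * Real.pi * k * y / N) * (f a * Real.cos (2 * Real.pi * (k * a) / N)) +
      Real.sin (2 * Real.pi * k * y / N) * (f a * Real.sin (2 * Real.pi * (k * a) / N)) := by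
    intro y a _
    have h5 : 2 * Real.pi * k * ((y - a) / N) = 2 * Real.pi * k * y / N - 2 * Real.pi * (k * a) / N := by
      field_simp
    rw [h5, Real.cos_sub]
    ring
  have h6 : ∀ y : ℝ, ∑ a ∈ range N, f a * Real.cos (2 * Real.pi * k * ((y - a) / N)) =
      Real.cos (2 * Real.pi * k * y / N) * ∑ a ∈ range N, f a * Real.cos (2 * Real.pi * (k * a) / N) := by
    intro y
    rw [Finset.sum_congr rfl (h4 y), Finset.sum_add_distrib, ← Finset.mul_sum, ← Finset.mul_sum,
      hsin k, mul_zero, add_zero]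
  have h7 : ∑ a ∈ range N, f a * ((N : ℝ) / (2 * Real.pi ^ 2) *
      (1 / (k : ℝ) ^ 2 * Real.cos (2 * Real.pi * k * ((x - a) / N)) -
        1 / (k : ℝ) ^ 2 * Real.cos (2 * Real.pi * k * ((x + H - a) / N)))) =
      (N : ℝ) / (2 * Real.pi ^ 2) / (k : ℝ) ^ 2 * (∑ a ∈ range N, f a * Real.cos (2 * Real.pi * k * ((x - a) / N)) -
        ∑ a ∈ range N, f a * Real.cos (2 * Real.pi * k * ((x + H - a) / N))) := by
    rw [← Finset.sum_sub_distrib, Finset.mul_sum]
    apply Finset.sum_congr rfl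
    intro a _
    ring
  rw [h7, h6, h6]
  ring

/-- evenness of `a ↦ (p / a)` -/
theorem kro_even {p : ℕ} (hp : p.Prime) (hp2 : p ≠ 2) {a : ℕ} (ha : a ≤ 4 * p) :
    kro p (4 * p - a) = kro p a := by
  have hodd : p % 2 = 1 := by
    rcases hp.eq_two_or_odd with h | h
    · exact absurd h hp2
    · exact h
  have hpo : Odd p := Nat.odd_iff.2 hodd
  unfold kro
  by_cases h : Odd a
  · have h1 : a % 2 = 1 := Nat.odd_iff.1 h
    have h2 : Odd (4 * p - a) := by rw [Nat.odd_iff]; omega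
    rw [if_pos h, if_pos h2]
    have hβ : jacobiSym ((4 * p - a : ℕ) : ℤ) p = jacobiSym (-(a : ℤ)) p := by
      apply jacobiSym.mod_left'
      rw [Nat.cast_sub ha]
      push_cast
      rw [sub_eq_add_neg, Int.add_emod, Int.mul_emod_left]
      simp
    rw [jacobiSym.neg _ hpo] at hβ
    have hp4 : p % 4 = 1 ∨ p % 4 = 3 := by omega
    rcases hp4 with hp1 | hp3
    · rw [ZMod.χ₄_nat_one_mod_four hp1, one_mul] at hβ
      rw [jacobiSym.quadratic_reciprocity_one_mod_four hp1 h2, hβ,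
        jacobiSym.quadratic_reciprocity_one_mod_four hp1 h]
    · rw [ZMod.χ₄_nat_three_mod_four hp3] at hβ
      have ha4 : a % 4 = 1 ∨ a % 4 = 3 := by omega
      rcases ha4 with ha1 | ha3
      · rw [jacobiSym.quadratic_reciprocity_three_mod_four hp3 (by omega : (4 * p - a) % 4 = 3), hβ,
          ← jacobiSym.quadratic_reciprocity_one_mod_four ha1 hpo]
        ring
      · rw [← jacobiSym.quadratic_reciprocity_one_mod_four (by omega : (4 * p - a) % 4 = 1) hpo, hβ,
          jacobiSym.quadratic_reciprocity_three_mod_four hp3 ha3]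
        ring
  · have h1 : a % 2 = 0 := by
      rcases Nat.mod_two_eq_zero_or_one a with h2 | h2
      · exact h2
      · exact absurd (Nat.odd_iff.2 h2) h
    rw [if_neg h, if_neg (by rw [Nat.odd_iff]; omega)]

/-- the Fourier expansion of the averages of `l ↦ (p / l)` -/
theorem FS_kro {p : ℕ} (hp : p.Prime) (hp2 : p ≠ 2) {x H : ℝ} (hx : 0 ≤ x) (hH : 0 ≤ H) :
    HasSum (fun k : ℕ => 2 * (p : ℝ) / Real.pi ^ 2 / (k : ℝ) ^ 2 *
      ((Real.cos (Real.pi * k * x / (2 * p)) - Real.cos (Real.pi * k * (x + H) / (2 * p))) * xi p k))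
      (FS (fun l => (kro p l : ℝ)) (x + H) - FS (fun l => (kro p l : ℝ)) x) := by
  have hp0 : (p : ℝ) ≠ 0 := by exact_mod_cast hp.ne_zero
  have h0 : ((kro p 0 : ℤ) : ℝ) = 0 := by
    unfold kro
    rw [if_neg (by decide)]
    simp
  have hper : ∀ a i : ℕ, ((kro p (i * (4 * p) + a) : ℤ) : ℝ) = (kro p a : ℝ) := by
    intro a i
    rw [← kro_mod hp.ne_zero (i * (4 * p) + a), ← kro_mod hp.ne_zero a]
    congr 2
    rw [Nat.mul_comm i, Nat.mul_add_mod]
  have hz : ∑ a ∈ range (4 * p), (kro p a : ℝ) = 0 := by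
    have h1 := xi_eq hp hp2 0
    unfold xi at h1
    have : Fact p.Prime := ⟨hp⟩
    simp only [Nat.cast_zero, zero_mul, mul_zero, zero_div, Real.cos_zero, mul_one, neg_zero,
      Real.sin_zero] at h1
    rw [h1, jacobiSym.zero_left hp.one_lt]
    simp
  have h := FS_hasSum (f := fun l => (kro p l : ℝ)) (N := 4 * p) (by have := hp.pos; omega) hper h0
    (fun a ha => by rw [kro_even hp hp2 ha]) hz hx hH
  convert h using 1
  funext k
  unfold xi
  push_cast
  have e1 : ∀ y : ℝ, Real.pi * k * y / (2 * p) = 2 * Real.pi * k * y / (4 * p) := by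
    intro y
    field_simp
    ring
  rw [e1, e1]
  have e2 : 2 * (p : ℝ) / Real.pi ^ 2 / (k : ℝ) ^ 2 = 4 * (p : ℝ) / (2 * Real.pi ^ 2) / (k : ℝ) ^ 2 := by
    ring
  rw [e2]

end Pool.Agent.Helper368_LD
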