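import Pool.Agent.Helper368_LD.AbelCmp

/-!
# The function behind the second main term
-/

set_option autoImplicit false

namespace Pool.Agent.Helper368_LD

open MeasureTheory Set
open scoped Real

/-- `∑ sin(π j² v) / j²`, truncated -/
noncomputable def SJ (J : ℕ) (v : ℝ) : ℝ := ∑ j ∈ Finset.Icc 1 J, Real.sin (π * (j : ℝ) ^ 2 * v) / (j : ℝ) ^ 2

theorem sum_inv_sq_Ioc (m n : ℕ) (hm : 1 ≤ m) :
    ∑ j ∈ Finset.Ioc m n, 1 / (j : ℝ) ^ 2 ≤ 1 / (m : ℝ) := by
  have hm0 : (0 : ℝ) < m := by exact_mod_cast hm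
  rcases Nat.lt_or_ge n m with h | h
  · rw [Finset.Ioc_eq_empty (by omega), Finset.sum_empty]
    positivity
  · have key : ∀ n : ℕ, m ≤ n → ∑ j ∈ Finset.Ioc m n, 1 / (j : ℝ) ^ 2 ≤ 1 / (m : ℝ) - 1 / (n : ℝ) := by
      intro n hn
      induction n, hn using Nat.le_induction with
      | base => simp
      | succ n hn ih =>
        rw [Finset.sum_Ioc_succ_top hn]
        have hn0 : (0 : ℝ) < n := lt_of_lt_of_le hm0 (by exact_mod_cast hn)
        have h1 : 1 / ((n + 1 : ℕ) : ℝ) ^ 2 ≤ 1 / (n : ℝ) - 1 / ((n + 1 : ℕ) : ℝ) := by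
          push_cast
          rw [div_sub_div _ _ hn0.ne' (by positivity), div_le_div_iff₀ (by positivity) (by positivity)]
          nlinarith
        linarith
    have h2 := key n h
    have h3 : (0 : ℝ) ≤ 1 / (n : ℝ) := by positivity
    linarith

theorem sum_inv_sq_le (n : ℕ) : ∑ j ∈ Finset.Icc 1 n, 1 / (j : ℝ) ^ 2 ≤ 2 := by
  rcases Nat.eq_zero_or_pos n with h | h
  · rw [h]; simp
  · have h1 : Finset.Icc 1 n = insert 1 (Finset.Ioc 1 n) := by
      ext k
      simp only [Finset.mem_Icc, Finset.mem_insert, Finset.mem_Ioc]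
      omega
    rw [h1, Finset.sum_insert (by simp)]
    have h2 := sum_inv_sq_Ioc 1 n le_rfl
    norm_num at h2 ⊢
    linarith

theorem SJ_abs (J : ℕ) (v : ℝ) : |SJ J v| ≤ 2 := by
  unfold SJ
  refine (Finset.abs_sum_le_sum_abs _ _).trans ((Finset.sum_le_sum ?_).trans (sum_inv_sq_le J))
  intro j hj
  rw [Finset.mem_Icc] at hj
  have hj0 : (0 : ℝ) < (j : ℝ) ^ 2 := by
    have : (0 : ℝ) < j := by exact_mod_cast hj.1
    positivity
  rw [abs_div, abs_of_pos hj0]
  gcongr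
  exact Real.abs_sin_le_one _

theorem abs_sin_sub_sin_le (a b : ℝ) : |Real.sin a - Real.sin b| ≤ |a - b| := by
  rw [Real.sin_sub_sin, abs_mul, abs_mul, abs_two]
  have h1 : |Real.sin ((a - b) / 2)| ≤ |(a - b) / 2| := Real.abs_sin_le_abs
  have h2 := Real.abs_cos_le_one ((a + b) / 2)
  have h3 : |(a - b) / 2| = |a - b| / 2 := by rw [abs_div, abs_two]
  rw [h3] at h1
  have h4 := abs_nonneg (Real.sin ((a - b) / 2))
  nlinarith [abs_nonneg (a - b)]

theorem abs_cos_sub_cos_le (a b : ℝ) : |Real.cos a - Real.cos b| ≤ |a - b| := by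
  rw [Real.cos_sub_cos, abs_mul, abs_mul, abs_neg, abs_two]
  have h1 : |Real.sin ((a - b) / 2)| ≤ |(a - b) / 2| := Real.abs_sin_le_abs
  have h2 := Real.abs_sin_le_one ((a + b) / 2)
  have h3 : |(a - b) / 2| = |a - b| / 2 := by rw [abs_div, abs_two]
  rw [h3] at h1
  have h4 := abs_nonneg (Real.sin ((a - b) / 2))
  have h5 := abs_nonneg (Real.sin ((a + b) / 2))
  nlinarith [abs_nonneg (a - b)]

theorem SJ_mod (J : ℕ) (v w : ℝ) : |SJ J v - SJ J w| ≤ 8 * √|v - w| := by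
  set δ : ℝ := |v - w| with hδ
  have hδ0 : 0 ≤ δ := abs_nonneg _
  rcases hδ0.eq_or_lt with h0 | h0
  · have : v = w := by
      rw [hδ] at h0
      exact sub_eq_zero.1 (abs_eq_zero.1 h0.symm)
    rw [this]
    simp
  rcases lt_or_ge 1 δ with h1 | h1
  · have h2 : |SJ J v - SJ J w| ≤ 4 := by
      refine (abs_sub _ _).trans ?_
      have := SJ_abs J v
      have := SJ_abs J w
      linarith
    have h3 : 1 ≤ √δ := by rw [Real.one_le_sqrt]; exact h1.le
    linarith
  have hs0 : 0 < √δ := Real.sqrt_pos.2 h0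
  have hs1 : √δ ≤ 1 := Real.sqrt_le_iff.2 ⟨by norm_num, by linarith⟩
  have hss : √δ * √δ = δ := Real.mul_self_sqrt h0.le
  set m : ℕ := ⌊1 / √δ⌋₊ with hm
  have hinv1 : 1 ≤ 1 / √δ := by rw [le_div_iff₀ hs0]; linarith
  have hm1 : 1 ≤ m := Nat.le_floor (by simpa using hinv1)
  have hm2 : (m : ℝ) ≤ 1 / √δ := Nat.floor_le (by positivity)
  have hm3 : 1 / √δ < m + 1 := Nat.lt_floor_add_one _
  have hm1' : (1 : ℝ) ≤ m := by exact_mod_cast hm1
  unfold SJ
  rw [← Finset.sum_sub_distrib]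
  have hterm : ∀ j ∈ Finset.Icc 1 J, |Real.sin (π * (j : ℝ) ^ 2 * v) / (j : ℝ) ^ 2 -
      Real.sin (π * (j : ℝ) ^ 2 * w) / (j : ℝ) ^ 2| ≤ if j ≤ m then π * δ else 2 * (1 / (j : ℝ) ^ 2) := by
    intro j hj
    rw [Finset.mem_Icc] at hj
    have hj0 : (0 : ℝ) < (j : ℝ) ^ 2 := by
      have : (0 : ℝ) < j := by exact_mod_cast hj.1
      positivity
    rw [← sub_div, abs_div, abs_of_pos hj0]
    split_ifs
    · rw [div_le_iff₀ hj0]
      refine (abs_sin_sub_sin_le _ _).trans ?_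
      rw [← mul_sub, abs_mul, abs_of_pos (by positivity), ← hδ]
      linarith
    · rw [mul_one_div]
      gcongr
      refine (abs_sub _ _).trans ?_
      have := Real.abs_sin_le_one (π * (j : ℝ) ^ 2 * v)
      have := Real.abs_sin_le_one (π * (j : ℝ) ^ 2 * w)
      linarith
  refine (Finset.abs_sum_le_sum_abs _ _).trans ((Finset.sum_le_sum hterm).trans ?_)
  rw [Finset.sum_ite]
  have hb1 : ∑ j ∈ (Finset.Icc 1 J).filter (fun j => j ≤ m), π * δ ≤ π * √δ := by
    rw [Finset.sum_const, nsmul_eq_mul]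
    have hcard : ((Finset.Icc 1 J).filter (fun j => j ≤ m)).card ≤ m := by
      have hsub : (Finset.Icc 1 J).filter (fun j => j ≤ m) ⊆ Finset.Icc 1 m := by
        intro j hj
        rw [Finset.mem_filter, Finset.mem_Icc] at hj
        rw [Finset.mem_Icc]
        exact ⟨hj.1.1, hj.2⟩
      have := Finset.card_le_card hsub
      simpa using this
    have hcard' : (((Finset.Icc 1 J).filter (fun j => j ≤ m)).card : ℝ) ≤ 1 / √δ :=
      (by exact_mod_cast hcard : (((Finset.Icc 1 J).filter (fun j => j ≤ m)).card : ℝ) ≤ m).trans hm2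
    calc _ ≤ 1 / √δ * (π * δ) := by gcongr
      _ = π * √δ := by
        rw [div_mul_eq_mul_div, one_mul, div_eq_iff hs0.ne']
        rw [mul_assoc, hss]
  have hb2 : ∑ j ∈ (Finset.Icc 1 J).filter (fun j => ¬ j ≤ m), 2 * (1 / (j : ℝ) ^ 2) ≤ 4 * √δ := by
    rw [← Finset.mul_sum]
    have hsub : (Finset.Icc 1 J).filter (fun j => ¬ j ≤ m) ⊆ Finset.Ioc m J := by
      intro j hj
      rw [Finset.mem_filter, Finset.mem_Icc] at hj
      rw [Finset.mem_Ioc]
      omega
    have h5 : ∑ j ∈ (Finset.Icc 1 J).filter (fun j => ¬ j ≤ m), 1 / (j : ℝ) ^ 2 ≤ 1 / (m : ℝ) :=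
      (Finset.sum_le_sum_of_subset_of_nonneg hsub (fun _ _ _ => by positivity)).trans
        (sum_inv_sq_Ioc m J hm1)
    have h6 : 1 / (m : ℝ) ≤ 2 * √δ := by
      rw [div_le_iff₀ (by linarith)]
      have h7 : 1 / √δ < 2 * m := by linarith
      rw [div_lt_iff₀ hs0] at h7
      linarith
    linarith
  have hpi := Real.pi_lt_four
  nlinarith

/-- the density of the second main term -/
noncomputable def gJ (J : ℕ) (x u : ℝ) : ℝ := √u / π * SJ J (x / (2 * u)) - √x / 2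

theorem sqrt_sub_le {x h : ℝ} (hx : 0 ≤ x) (hh : 0 ≤ h) : |√(x + h) - √x| ≤ √h := by
  have h1 : √x ≤ √(x + h) := Real.sqrt_le_sqrt (by linarith)
  rw [abs_of_nonneg (by linarith)]
  have h2 : √(x + h) ≤ √x + √h := by
    apply Real.sqrt_le_iff.2
    have h3 := Real.sq_sqrt hx
    have h4 := Real.sq_sqrt hh
    have h5 : 0 ≤ √x * √h := by positivity
    exact ⟨by positivity, by nlinarith⟩
  linarith

theorem gJ_mod (J : ℕ) {x h u : ℝ} (hx : 0 ≤ x) (hh : 0 ≤ h) (hu : 0 < u) :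
    |gJ J (x + h) u - gJ J x u| ≤ 3 * √h := by
  unfold gJ
  have h1 := SJ_mod J ((x + h) / (2 * u)) (x / (2 * u))
  have e1 : (x + h) / (2 * u) - x / (2 * u) = h / (2 * u) := by ring
  rw [e1, abs_of_nonneg (by positivity : 0 ≤ h / (2 * u))] at h1
  have h2 := sqrt_sub_le hx hh
  have hsu : 0 < √u := Real.sqrt_pos.2 hu
  have hs2 : √(h / (2 * u)) = √h / (√2 * √u) := by
    rw [Real.sqrt_div hh, Real.sqrt_mul (by norm_num)]
  rw [hs2] at h1
  have h2' : (1.4 : ℝ) ≤ √2 := by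
    apply Real.le_sqrt_of_sq_le
    norm_num
  have hpi := Real.pi_gt_three
  have hh0 : 0 ≤ √h := Real.sqrt_nonneg h
  have e2 : √u / π * SJ J ((x + h) / (2 * u)) - √(x + h) / 2 - (√u / π * SJ J (x / (2 * u)) - √x / 2) =
      √u / π * (SJ J ((x + h) / (2 * u)) - SJ J (x / (2 * u))) - (√(x + h) - √x) / 2 := by ring
  rw [e2]
  refine (abs_sub _ _).trans ?_
  rw [abs_mul, abs_of_pos (by positivity : 0 < √u / π), abs_div, abs_two]
  have h3 : √u / π * |SJ J ((x + h) / (2 * u)) - SJ J (x / (2 * u))| ≤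
      √u / π * (8 * (√h / (√2 * √u))) := by gcongr
  have h4 : √u / π * (8 * (√h / (√2 * √u))) = 8 / (π * √2) * √h := by
    field_simp
  have h5 : 8 / (π * √2) ≤ 2.5 := by
    rw [div_le_iff₀ (by positivity)]
    nlinarith
  rw [h4] at h3
  have h6 : 8 / (π * √2) * √h ≤ 2.5 * √h := by gcongr
  linarith

theorem gJ_scale (J : ℕ) {lam : ℝ} (hl : 0 < lam) (x u : ℝ) :
    gJ J (lam * x) (lam * u) = √lam * gJ J x u := by
  unfold gJ
  have e1 : lam * x / (2 * (lam * u)) = x / (2 * u) := by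
    rw [show 2 * (lam * u) = lam * (2 * u) by ring, mul_div_mul_left _ _ hl.ne']
  rw [e1, Real.sqrt_mul hl.le, Real.sqrt_mul hl.le]
  ring

/-- the main term of a block -/
noncomputable def MJ (J : ℕ) (r : ℂ) (Q x : ℝ) : ℂ :=
  ∫ u in Q..(2 * Q), (u : ℂ) ^ (-(1 / 2 + r)) * (gJ J x u : ℂ)

theorem gJ_cont (J : ℕ) : ContinuousOn (Function.uncurry (gJ J)) (univ ×ˢ Ioi 0) := by
  unfold gJ SJ Function.uncurry
  have h : ContinuousOn (fun p : ℝ × ℝ => p.1 / (2 * p.2)) (univ ×ˢ Ioi 0) := by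
    apply ContinuousOn.div (by fun_prop) (by fun_prop)
    intro p hp
    have := hp.2
    simp only [mem_Ioi] at this
    positivity
  apply ContinuousOn.sub
  · apply ContinuousOn.mul (by fun_prop)
    apply continuousOn_finsetSum
    intro j _
    apply ContinuousOn.div_const
    apply Real.continuous_sin.comp_continuousOn
    exact continuousOn_const.mul h
  · fun_prop

theorem gJ_cont_u (J : ℕ) (x : ℝ) {a b : ℝ} (ha : 0 < a) : ContinuousOn (fun u => gJ J x u) (Icc a b) := by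
  have h := gJ_cont J
  have h2 : ContinuousOn (fun u : ℝ => (x, u)) (Icc a b) := by fun_prop
  exact h.comp h2 (fun u hu => ⟨mem_univ _, lt_of_lt_of_le ha hu.1⟩)

theorem cpow_cont {a b : ℝ} (ha : 0 < a) (z : ℂ) : ContinuousOn (fun u : ℝ => (u : ℂ) ^ z) (Icc a b) := by
  intro u hu
  have hu0 : 0 < u := lt_of_lt_of_le ha hu.1
  apply ContinuousAt.continuousWithinAt
  exact ContinuousAt.cpow Complex.continuous_ofReal.continuousAt continuousAt_const (by
    left
    simpa using hu0)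

theorem norm_cpow_r {u : ℝ} (hu : 0 < u) (r : ℂ) : ‖(u : ℂ) ^ (-(1 / 2 + r))‖ = u ^ (-(1 / 2 + r.re)) := by
  rw [Complex.norm_cpow_eq_rpow_re_of_pos hu]
  congr 1
  simp

theorem MJ_scale (J : ℕ) (r : ℂ) {lam Q : ℝ} (hl : 0 < lam) (hQ : 0 < Q) (x : ℝ) :
    MJ J r (lam * Q) (lam * x) = (lam : ℂ) ^ (1 - r) * MJ J r Q x := by
  unfold MJ
  have h1 := intervalIntegral.smul_integral_comp_mul_left (a := Q) (b := 2 * Q)
    (fun u : ℝ => (u : ℂ) ^ (-(1 / 2 + r)) * (gJ J (lam * x) u : ℂ)) lam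
  rw [show 2 * (lam * Q) = lam * (2 * Q) by ring, ← h1]
  have h2 : ∀ u ∈ uIcc Q (2 * Q), ((lam * u : ℝ) : ℂ) ^ (-(1 / 2 + r)) * (gJ J (lam * x) (lam * u) : ℂ) =
      ((lam : ℂ) ^ (-(1 / 2 + r)) * (√lam : ℂ)) * ((u : ℂ) ^ (-(1 / 2 + r)) * (gJ J x u : ℂ)) := by
    intro u hu
    rw [uIcc_of_le (by linarith)] at hu
    have hu0 : 0 < u := lt_of_lt_of_le hQ hu.1
    rw [gJ_scale J hl, Complex.ofReal_mul, Complex.mul_cpow_ofReal_nonneg hl.le hu0.le]
    push_cast
    ring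
  rw [intervalIntegral.integral_congr h2, intervalIntegral.integral_const_mul, Complex.real_smul]
  have hl' : (lam : ℂ) ≠ 0 := by exact_mod_cast hl.ne'
  have h3 : (√lam : ℂ) = (lam : ℂ) ^ (1 / 2 : ℂ) := by
    rw [Real.sqrt_eq_rpow, Complex.ofReal_cpow hl.le]
    norm_num
  have h4 : (lam : ℂ) ^ (1 - r) = (lam : ℂ) * ((lam : ℂ) ^ (-(1 / 2 + r)) * (lam : ℂ) ^ (1 / 2 : ℂ)) := by
    rw [← Complex.cpow_add _ _ hl']
    have : (1 : ℂ) - r = 1 + (-(1 / 2 + r) + 1 / 2) := by ring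
    rw [this, Complex.cpow_add _ _ hl', Complex.cpow_one]
  rw [h3, h4]
  ring

theorem int_rpow_block {Q σ : ℝ} (hQ : 0 < Q) (hσ : 0 ≤ σ) :
    ∫ u in Q..(2 * Q), u ^ (-(1 / 2 + σ)) ≤ Q ^ (1 / 2 - σ) := by
  have h1 : ∀ u ∈ Icc Q (2 * Q), u ^ (-(1 / 2 + σ)) ≤ Q ^ (-(1 / 2 + σ)) := by
    intro u hu
    exact Real.rpow_le_rpow_of_nonpos hQ hu.1 (by linarith)
  have hc : ContinuousOn (fun u : ℝ => u ^ (-(1 / 2 + σ))) (Icc Q (2 * Q)) := by
    intro u hu
    have hu0 : 0 < u := lt_of_lt_of_le hQ hu.1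
    exact (Real.continuousAt_rpow_const _ _ (Or.inl hu0.ne')).continuousWithinAt
  calc ∫ u in Q..(2 * Q), u ^ (-(1 / 2 + σ)) ≤ ∫ _ in Q..(2 * Q), Q ^ (-(1 / 2 + σ)) := by
        apply intervalIntegral.integral_mono_on (by linarith)
        · rw [intervalIntegrable_iff_integrableOn_Icc_of_le (by linarith)]
          exact hc.integrableOn_Icc
        · exact intervalIntegrable_const
        · exact h1
    _ = Q * Q ^ (-(1 / 2 + σ)) := by
        rw [intervalIntegral.integral_const, smul_eq_mul]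
        ring
    _ = Q ^ (1 / 2 - σ) := by
        have h2 : Q ^ (1 / 2 - σ) = Q ^ (1 : ℝ) * Q ^ (-(1 / 2 + σ)) := by
          rw [← Real.rpow_add hQ]
          congr 1
          ring
        rw [h2, Real.rpow_one]

theorem MJ_integrable (J : ℕ) (r : ℂ) {Q : ℝ} (hQ : 0 < Q) (x : ℝ) :
    IntervalIntegrable (fun u : ℝ => (u : ℂ) ^ (-(1 / 2 + r)) * (gJ J x u : ℂ)) volume Q (2 * Q) := by
  rw [intervalIntegrable_iff_integrableOn_Icc_of_le (by linarith)]
  apply ContinuousOn.integrableOn_Icc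
  exact (cpow_cont hQ _).mul (Complex.continuous_ofReal.comp_continuousOn (gJ_cont_u J x hQ))

theorem int_bound {Q σ B : ℝ} {r : ℂ} (hr : r.re = σ) (hQ : 0 < Q) (hσ : 0 ≤ σ) (hB : 0 ≤ B)
    {f : ℝ → ℂ} (hf : ∀ u ∈ Icc Q (2 * Q), ‖f u‖ ≤ B) :
    ‖∫ u in Q..(2 * Q), (u : ℂ) ^ (-(1 / 2 + r)) * f u‖ ≤ B * Q ^ (1 / 2 - σ) := by
  have hc : ContinuousOn (fun u : ℝ => u ^ (-(1 / 2 + σ))) (Icc Q (2 * Q)) := by
    intro u hu
    have hu0 : 0 < u := lt_of_lt_of_le hQ hu.1
    exact (Real.continuousAt_rpow_const _ _ (Or.inl hu0.ne')).continuousWithinAt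
  calc _ ≤ ∫ u in Q..(2 * Q), B * u ^ (-(1 / 2 + σ)) := by
        apply intervalIntegral.norm_integral_le_of_norm_le (by linarith)
        · apply Filter.Eventually.of_forall
          intro u hu
          rw [norm_mul, norm_cpow_r (by linarith [hu.1]), hr, mul_comm]
          have : 0 ≤ u ^ (-(1 / 2 + σ)) := Real.rpow_nonneg (by linarith [hu.1]) _
          exact mul_le_mul_of_nonneg_right (hf u ⟨hu.1.le, hu.2⟩) this
        · rw [intervalIntegrable_iff_integrableOn_Icc_of_le (by linarith)]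
          exact (continuousOn_const.mul hc).integrableOn_Icc
    _ ≤ B * Q ^ (1 / 2 - σ) := by
        rw [intervalIntegral.integral_const_mul]
        gcongr
        exact int_rpow_block hQ hσ

theorem MJ_mod (J : ℕ) {r : ℂ} {Q x h : ℝ} (hQ : 0 < Q) (hr : 0 ≤ r.re) (hx : 0 ≤ x) (hh : 0 ≤ h) :
    ‖MJ J r Q (x + h) - MJ J r Q x‖ ≤ 3 * √h * Q ^ (1 / 2 - r.re) := by
  unfold MJ
  rw [← intervalIntegral.integral_sub (MJ_integrable J r hQ _) (MJ_integrable J r hQ _)]
  simp_rw [← mul_sub]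
  apply int_bound rfl hQ hr (by positivity)
  intro u hu
  rw [← Complex.ofReal_sub, Complex.norm_real, Real.norm_eq_abs]
  exact gJ_mod J hx hh (lt_of_lt_of_le hQ hu.1)

theorem swap_int {f : ℝ → ℝ → ℂ} {a b c d : ℝ} (hab : a ≤ b) (hcd : c ≤ d)
    (hf : ContinuousOn (Function.uncurry f) (Icc a b ×ˢ Icc c d)) :
    ∫ x in a..b, ∫ y in c..d, f x y = ∫ y in c..d, ∫ x in a..b, f x y := by
  simp_rw [intervalIntegral.integral_of_le hab, intervalIntegral.integral_of_le hcd]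
  apply integral_integral_swap
  rw [Measure.prod_restrict]
  have h1 : IntegrableOn (Function.uncurry f) (Icc a b ×ˢ Icc c d) (volume.prod volume) :=
    hf.integrableOn_compact (isCompact_Icc.prod isCompact_Icc)
  exact h1.mono_set (prod_mono Ioc_subset_Icc_self Ioc_subset_Icc_self)

theorem int_gJ (J : ℕ) {x H u : ℝ} (hu : 0 < u) :
    ∫ y in x..(x + H), gJ J y u = √u / π * ∑ j ∈ Finset.Icc 1 J, 2 * u / π / (j : ℝ) ^ 4 *
      (Real.cos (π * (j : ℝ) ^ 2 * x / (2 * u)) - Real.cos (π * (j : ℝ) ^ 2 * (x + H) / (2 * u))) -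
      ((x + H) ^ (3 / 2 : ℝ) - x ^ (3 / 2 : ℝ)) / 3 := by
  have hpi := Real.pi_pos
  unfold gJ
  rw [intervalIntegral.integral_sub]
  · congr 1
    · rw [intervalIntegral.integral_const_mul]
      congr 1
      unfold SJ
      rw [intervalIntegral.integral_finsetSum]
      · apply Finset.sum_congr rfl
        intro j hj
        rw [Finset.mem_Icc] at hj
        have hj0 : (0 : ℝ) < j := by exact_mod_cast hj.1
        have hc : π * (j : ℝ) ^ 2 / (2 * u) ≠ 0 := by positivity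
        have e1 : ∀ y : ℝ, Real.sin (π * (j : ℝ) ^ 2 * (y / (2 * u))) / (j : ℝ) ^ 2 =
            ((j : ℝ) ^ 2)⁻¹ * Real.sin (π * (j : ℝ) ^ 2 / (2 * u) * y) := by
          intro y
          rw [div_eq_inv_mul]
          congr 2
          ring
        simp_rw [e1]
        rw [intervalIntegral.integral_const_mul, intervalIntegral.integral_comp_mul_left _ hc,
          integral_sin]
        have e2 : ∀ y : ℝ, π * (j : ℝ) ^ 2 / (2 * u) * y = π * (j : ℝ) ^ 2 * y / (2 * u) := by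
          intro y; ring
        rw [e2, e2, smul_eq_mul]
        field_simp
      · intro j _
        apply Continuous.intervalIntegrable
        fun_prop
    · have e3 : ∀ y : ℝ, √y / 2 = (1 / 2) * y ^ (1 / 2 : ℝ) := by
        intro y
        rw [Real.sqrt_eq_rpow]
        ring
      simp_rw [e3]
      rw [intervalIntegral.integral_const_mul, integral_rpow (Or.inl (by norm_num))]
      norm_num
      ring
  · apply Continuous.intervalIntegrable
    unfold SJ
    fun_prop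
  · apply Continuous.intervalIntegrable
    fun_prop

theorem MJ_contOn (J : ℕ) {r : ℂ} {Q : ℝ} (hQ : 0 < Q) (hr : 0 ≤ r.re) :
    ContinuousOn (fun x => MJ J r Q x) (Ici 0) := by
  set C : ℝ := 3 * Q ^ (1 / 2 - r.re) with hC
  have hC0 : 0 < C := by positivity
  have key : ∀ x y : ℝ, 0 ≤ x → x ≤ y → ‖MJ J r Q y - MJ J r Q x‖ ≤ C * √(y - x) := by
    intro x y hx hxy
    have := MJ_mod J (x := x) (h := y - x) hQ hr hx (by linarith)
    rw [add_sub_cancel] at this
    rw [hC]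
    linarith
  have key2 : ∀ x y : ℝ, 0 ≤ x → 0 ≤ y → dist (MJ J r Q y) (MJ J r Q x) ≤ C * √|y - x| := by
    intro x y hx hy
    rw [dist_eq_norm]
    rcases le_total x y with h | h
    · rw [abs_of_nonneg (by linarith)]
      exact key x y hx h
    · rw [abs_of_nonpos (by linarith), neg_sub, norm_sub_rev]
      exact key y x hy h
  intro x hx
  rw [ContinuousWithinAt, tendsto_iff_dist_tendsto_zero]
  have h1 : Filter.Tendsto (fun y : ℝ => C * √|y - x|) (nhdsWithin x (Ici 0)) (nhds 0) := by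
    have : Continuous (fun y : ℝ => C * √|y - x|) := by fun_prop
    have h2 := this.tendsto x
    simp only [sub_self, abs_zero, Real.sqrt_zero, mul_zero] at h2
    exact h2.mono_left nhdsWithin_le_nhds
  refine squeeze_zero' (Filter.Eventually.of_forall fun _ => dist_nonneg) ?_ h1
  filter_upwards [self_mem_nhdsWithin] with y hy
  exact key2 x y hx hy

/-- the average of the main term of a block -/
theorem int_MJ (J : ℕ) {r : ℂ} {Q x H : ℝ} (hQ : 0 < Q) (hH : 0 ≤ H) :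
    ∫ y in x..(x + H), MJ J r Q y = ∫ u in Q..(2 * Q), (u : ℂ) ^ (-(1 / 2 + r)) *
      ((√u / π * ∑ j ∈ Finset.Icc 1 J, 2 * u / π / (j : ℝ) ^ 4 *
      (Real.cos (π * (j : ℝ) ^ 2 * x / (2 * u)) - Real.cos (π * (j : ℝ) ^ 2 * (x + H) / (2 * u))) -
      ((x + H) ^ (3 / 2 : ℝ) - x ^ (3 / 2 : ℝ)) / 3 : ℝ) : ℂ) := by
  unfold MJ
  rw [swap_int (by linarith) (by linarith)]
  · apply intervalIntegral.integral_congr
    intro u hu
    rw [uIcc_of_le (by linarith)] at hu
    simp only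
    rw [intervalIntegral.integral_const_mul, intervalIntegral.integral_ofReal,
      int_gJ J (lt_of_lt_of_le hQ hu.1)]
  · apply ContinuousOn.mul
    · have h1 := cpow_cont (b := 2 * Q) hQ (-(1 / 2 + r))
      exact h1.comp continuousOn_snd (fun p hp => hp.2)
    · apply Complex.continuous_ofReal.comp_continuousOn
      exact (gJ_cont J).mono (fun p hp => ⟨mem_univ _, lt_of_lt_of_le hQ hp.2.1⟩)

/-- the average is close to the value -/
theorem avg_MJ (J : ℕ) {r : ℂ} {Q x H B : ℝ} (hQ : 0 < Q) (hr : 0 ≤ r.re) (hx : 0 ≤ x) (hH : 0 < H)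
    (hB : ∀ h ∈ Icc 0 H, ‖MJ J r Q (x + h) - MJ J r Q x‖ ≤ B) :
    ‖(H : ℂ)⁻¹ * (∫ y in x..(x + H), MJ J r Q y) - MJ J r Q x‖ ≤ B := by
  have hi : IntervalIntegrable (fun y => MJ J r Q y) volume x (x + H) := by
    rw [intervalIntegrable_iff_integrableOn_Icc_of_le (by linarith)]
    exact ((MJ_contOn J hQ hr).mono (fun y hy => le_trans hx hy.1)).integrableOn_Icc
  have h1 : (H : ℂ)⁻¹ * (∫ y in x..(x + H), MJ J r Q y) - MJ J r Q x =
      (H : ℂ)⁻¹ * ∫ y in x..(x + H), (MJ J r Q y - MJ J r Q x) := by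
    rw [intervalIntegral.integral_sub hi intervalIntegrable_const, intervalIntegral.integral_const,
      add_sub_cancel_left, Complex.real_smul]
    have : (H : ℂ) ≠ 0 := by exact_mod_cast hH.ne'
    field_simp
  rw [h1, norm_mul, norm_inv, Complex.norm_real, Real.norm_of_nonneg hH.le]
  have h2 : ‖∫ y in x..(x + H), (MJ J r Q y - MJ J r Q x)‖ ≤ B * |x + H - x| := by
    apply intervalIntegral.norm_integral_le_of_norm_le_const
    intro y hy
    rw [uIoc_of_le (by linarith)] at hy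
    have := hB (y - x) ⟨by linarith [hy.1], by linarith [hy.2]⟩
    rwa [add_sub_cancel] at this
  rw [add_sub_cancel_left, abs_of_pos hH] at h2
  rw [inv_mul_le_iff₀ hH]
  linarith

end Pool.Agent.Helper368_LD
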