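import Pool.Agent.V11306.Cao3
import Pool.Agent.H987R2.RZ_P2
import Pool.Agent.Helper368_LD.Kchi

/-!
# The finite Fourier transform of `a ↦ (p / a)` modulo `4p`
-/

set_option autoImplicit false

namespace Pool.Agent.Helper368_LD

open Finset
open Pool.Agent.V11306.Cao (G G_prime eps std_exp' J J_nat)
open Pool.Agent.H987R2.RZ (sum_crt)

theorem zmod_sum_range (p : ℕ) [NeZero p] (f : ZMod p → ℂ) :
    ∑ u : ZMod p, f u = ∑ a ∈ range p, f (a : ZMod p) := by
  symm
  refine Finset.sum_bij (fun a _ => (a : ZMod p)) (fun _ _ => Finset.mem_univ _) ?_ ?_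
    (fun _ _ => rfl)
  · intro a ha b hb hab
    rw [mem_range] at ha hb
    have h1 := congrArg ZMod.val hab
    rwa [ZMod.val_natCast, ZMod.val_natCast, Nat.mod_eq_of_lt ha, Nat.mod_eq_of_lt hb] at h1
  · intro u _
    exact ⟨u.val, mem_range.2 (ZMod.val_lt u), ZMod.natCast_zmod_val u⟩

/-- the quadratic Gauss sum to a prime modulus as an exponential sum -/
theorem gauss_exp (p : ℕ) [hp : Fact p.Prime] (hp2 : p ≠ 2) (k : ℕ) :
    ∑ b ∈ range p, ((jacobiSym b p : ℤ) : ℂ) * Complex.exp ((2 * Real.pi * (k * b) / p : ℝ) * Complex.I) =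
      ((jacobiSym k p : ℤ) : ℂ) * (eps p * Real.sqrt p) := by
  rw [← G_prime p hp2 k]
  unfold G
  rw [zmod_sum_range]
  apply Finset.sum_congr rfl
  intro b _
  have h : (k : ZMod p) * (b : ZMod p) = ((k * b : ℕ) : ZMod p) := by push_cast; rfl
  rw [J_nat, h, std_exp']
  congr 2
  push_cast
  ring

theorem gauss_cos (p : ℕ) [hp : Fact p.Prime] (hp2 : p ≠ 2) (k : ℕ) :
    ∑ b ∈ range p, (jacobiSym b p : ℝ) * Real.cos (2 * Real.pi * (k * b) / p) =
      if p % 4 = 1 then (jacobiSym k p : ℝ) * Real.sqrt p else 0 := by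
  have h := congrArg Complex.re (gauss_exp p hp2 k)
  rw [Complex.re_sum] at h
  have h1 : ∀ b ∈ range p, (((jacobiSym b p : ℤ) : ℂ) *
      Complex.exp ((2 * Real.pi * (k * b) / p : ℝ) * Complex.I)).re =
      (jacobiSym b p : ℝ) * Real.cos (2 * Real.pi * (k * b) / p) := by
    intro b _
    rw [← Complex.ofReal_intCast, Complex.re_ofReal_mul, Complex.exp_ofReal_mul_I_re]
  rw [Finset.sum_congr rfl h1] at h
  rw [h, ← Complex.ofReal_intCast, Complex.re_ofReal_mul]
  unfold eps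
  split_ifs
  · simp
  · simp

theorem gauss_sin (p : ℕ) [hp : Fact p.Prime] (hp2 : p ≠ 2) (k : ℕ) :
    ∑ b ∈ range p, (jacobiSym b p : ℝ) * Real.sin (2 * Real.pi * (k * b) / p) =
      if p % 4 = 1 then 0 else (jacobiSym k p : ℝ) * Real.sqrt p := by
  have h := congrArg Complex.im (gauss_exp p hp2 k)
  rw [Complex.im_sum] at h
  have h1 : ∀ b ∈ range p, (((jacobiSym b p : ℤ) : ℂ) *
      Complex.exp ((2 * Real.pi * (k * b) / p : ℝ) * Complex.I)).im =
      (jacobiSym b p : ℝ) * Real.sin (2 * Real.pi * (k * b) / p) := by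
    intro b _
    rw [← Complex.ofReal_intCast, Complex.im_ofReal_mul, Complex.exp_ofReal_mul_I_im]
  rw [Finset.sum_congr rfl h1] at h
  rw [h, ← Complex.ofReal_intCast, Complex.im_ofReal_mul]
  unfold eps
  split_ifs
  · simp
  · simp

/-- the finite Fourier transform of `a ↦ (p / a)` modulo `4 p` -/
noncomputable def xi (p k : ℕ) : ℝ :=
  ∑ a ∈ range (4 * p), (kro p a : ℝ) * Real.cos (2 * Real.pi * (k * a) / (4 * p))

theorem kro_crt {p : ℕ} (hp : p.Prime) (hp2 : p ≠ 2) {α β : ℕ} (hα : α < 4) :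
    (kro p (α * p + β * 4) : ℝ) =
      (if α = 1 then (if p % 4 = 1 then 1 else -1) else if α = 3 then 1 else 0) *
        (jacobiSym β p : ℝ) := by
  have hodd : p % 2 = 1 := by
    rcases hp.eq_two_or_odd with h | h
    · exact absurd h hp2
    · exact h
  have hpo : Odd p := Nat.odd_iff.2 hodd
  have h4 : jacobiSym 4 p = 1 := by
    have : (4 : ℤ) = 2 ^ 2 := by norm_num
    rw [this, jacobiSym.pow_left]
    apply jacobiSym.sq_one
    rw [Int.gcd_comm]
    have : Nat.Coprime p 2 := by rw [Nat.coprime_two_right]; exact hpo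
    exact this
  have hβ : jacobiSym ((α * p + β * 4 : ℕ) : ℤ) p = jacobiSym β p := by
    have h5 : jacobiSym ((α * p + β * 4 : ℕ) : ℤ) p = jacobiSym ((β * 4 : ℕ) : ℤ) p := by
      apply jacobiSym.mod_left'
      push_cast
      rw [Int.add_emod, Int.mul_emod_left]
      simp
    rw [h5]
    push_cast
    rw [jacobiSym.mul_left, h4, mul_one]
  unfold kro
  have hcase : α = 0 ∨ α = 1 ∨ α = 2 ∨ α = 3 := by omega
  have key1 : ∀ a : ℕ, Odd a → p % 4 = 1 → jacobiSym (p : ℤ) a = jacobiSym (a : ℤ) p := by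
    intro a ha h1
    exact jacobiSym.quadratic_reciprocity_one_mod_four h1 ha
  have key2 : ∀ a : ℕ, a % 4 = 1 → jacobiSym (p : ℤ) a = jacobiSym (a : ℤ) p := by
    intro a ha
    exact (jacobiSym.quadratic_reciprocity_one_mod_four ha hpo).symm
  have key3 : ∀ a : ℕ, a % 4 = 3 → p % 4 = 3 → jacobiSym (p : ℤ) a = -jacobiSym (a : ℤ) p := by
    intro a ha h3
    exact jacobiSym.quadratic_reciprocity_three_mod_four h3 ha
  have hp4 : p % 4 = 1 ∨ p % 4 = 3 := by omega
  rcases hcase with h | h | h | h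
  · subst h
    rw [if_neg (by rw [Nat.odd_iff]; omega)]
    simp
  · subst h
    rw [if_pos (by rw [Nat.odd_iff]; omega)]
    rcases hp4 with h1 | h3
    · rw [key1 _ (by rw [Nat.odd_iff]; omega) h1, hβ]
      simp [h1]
    · rw [key3 _ (by omega) h3, hβ]
      simp [h3]
  · subst h
    rw [if_neg (by rw [Nat.odd_iff]; omega)]
    simp
  · subst h
    rw [if_pos (by rw [Nat.odd_iff]; omega)]
    rcases hp4 with h1 | h3
    · rw [key1 _ (by rw [Nat.odd_iff]; omega) h1, hβ]
      simp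
    · rw [key2 _ (by omega), hβ]
      simp

theorem xi_eq {p : ℕ} (hp : p.Prime) (hp2 : p ≠ 2) (k : ℕ) :
    xi p k = √(p : ℝ) * ((jacobiSym (k : ℤ) p : ℝ) * (Real.cos (Real.pi * k / 2) +
      Real.sin (Real.pi * k / 2)) + (jacobiSym (-(k : ℤ)) p : ℝ) *
        (Real.cos (Real.pi * k / 2) - Real.sin (Real.pi * k / 2))) := by
  have hfact : Fact p.Prime := ⟨hp⟩
  have hp0 : (p : ℝ) ≠ 0 := by exact_mod_cast hp.ne_zero
  have hodd : p % 2 = 1 := by
    rcases hp.eq_two_or_odd with h | h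
    · exact absurd h hp2
    · exact h
  have hpo : Odd p := Nat.odd_iff.2 hodd
  have hcop : Nat.Coprime 4 p := by
    have : Nat.Coprime 2 p := by rw [Nat.coprime_two_left]; exact hpo
    exact Nat.Coprime.pow_left 2 this
  unfold xi
  rw [sum_crt 4 p (by norm_num) hp.pos hcop (fun a => (kro p a : ℝ) *
    Real.cos (2 * Real.pi * (k * a) / (4 * p)))]
  swap
  · intro a
    rw [kro_mod hp.ne_zero]
    congr 1
    have h1 : (a : ℝ) = ((a % (4 * p) : ℕ) : ℝ) + (4 * p : ℝ) * ((a / (4 * p) : ℕ) : ℝ) := by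
      have := Nat.mod_add_div a (4 * p)
      exact_mod_cast this.symm
    have h2 : 2 * Real.pi * (k * a) / (4 * p) =
        2 * Real.pi * (k * ((a % (4 * p) : ℕ) : ℝ)) / (4 * p) +
          ((k * (a / (4 * p)) : ℕ) : ℝ) * (2 * Real.pi) := by
      conv_lhs => rw [h1]
      push_cast
      field_simp
    rw [h2, Real.cos_add_nat_mul_two_pi]
  have hterm : ∀ α ∈ range 4, ∑ b ∈ range p, (kro p (α * p + b * 4) : ℝ) *
      Real.cos (2 * Real.pi * (k * ((α * p + b * 4 : ℕ) : ℝ)) / (4 * p)) =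
      (if α = 1 then (if p % 4 = 1 then 1 else -1) else if α = 3 then 1 else 0) *
        (Real.cos (Real.pi * k * α / 2) * (∑ b ∈ range p, (jacobiSym b p : ℝ) *
          Real.cos (2 * Real.pi * (k * b) / p)) - Real.sin (Real.pi * k * α / 2) *
          (∑ b ∈ range p, (jacobiSym b p : ℝ) * Real.sin (2 * Real.pi * (k * b) / p))) := by
    intro α hα
    rw [mem_range] at hα
    rw [Finset.mul_sum, Finset.mul_sum, ← Finset.sum_sub_distrib, Finset.mul_sum]
    apply Finset.sum_congr rfl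
    intro b _
    rw [kro_crt hp hp2 hα]
    have h3 : 2 * Real.pi * (k * ((α * p + b * 4 : ℕ) : ℝ)) / (4 * p) =
        Real.pi * k * α / 2 + 2 * Real.pi * (k * b) / p := by
      push_cast
      field_simp
      ring
    rw [h3, Real.cos_add]
    ring
  rw [Finset.sum_congr rfl hterm, gauss_cos p hp2, gauss_sin p hp2]
  simp only [Finset.sum_range_succ, Finset.sum_range_zero]
  have hc3 : Real.cos (Real.pi * k * 3 / 2) = Real.cos (Real.pi * k / 2) := by
    have : Real.pi * k * 3 / 2 = k * (2 * Real.pi) - Real.pi * k / 2 := by ring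
    rw [this, Real.cos_nat_mul_two_pi_sub]
  have hs3 : Real.sin (Real.pi * k * 3 / 2) = -Real.sin (Real.pi * k / 2) := by
    have : Real.pi * k * 3 / 2 = k * (2 * Real.pi) - Real.pi * k / 2 := by ring
    rw [this, Real.sin_nat_mul_two_pi_sub]
  have hneg : (jacobiSym (-(k : ℤ)) p : ℝ) = (if p % 4 = 1 then 1 else -1) * (jacobiSym (k : ℤ) p : ℝ) := by
    rw [jacobiSym.neg _ hpo]
    have hp4 : p % 4 = 1 ∨ p % 4 = 3 := by omega
    rcases hp4 with h | h
    · rw [ZMod.χ₄_nat_one_mod_four h, if_pos h]; simp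
    · rw [ZMod.χ₄_nat_three_mod_four h, if_neg (by omega)]; push_cast; ring
  rw [hneg]
  have hp4 : p % 4 = 1 ∨ p % 4 = 3 := by omega
  rcases hp4 with h | h
  · simp only [h, if_true]
    norm_num
    rw [hc3]
    ring
  · have h' : ¬ (p % 4 = 1) := by omega
    simp only [h', if_false]
    norm_num
    rw [hs3]
    ring

theorem xi_abs {p : ℕ} (hp : p.Prime) (hp2 : p ≠ 2) (k : ℕ) : |xi p k| ≤ 4 * √(p : ℝ) := by
  rw [xi_eq hp hp2 k, abs_mul, abs_of_nonneg (Real.sqrt_nonneg _)]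
  have hj : ∀ a : ℤ, |(jacobiSym a p : ℝ)| ≤ 1 := by
    intro a
    rcases jacobiSym.trichotomy a p with h | h | h <;> rw [h] <;> simp
  have hc := Real.abs_cos_le_one (Real.pi * k / 2)
  have hs := Real.abs_sin_le_one (Real.pi * k / 2)
  have h1 : |Real.cos (Real.pi * k / 2) + Real.sin (Real.pi * k / 2)| ≤ 2 :=
    (abs_add_le _ _).trans (by linarith)
  have h2 : |Real.cos (Real.pi * k / 2) - Real.sin (Real.pi * k / 2)| ≤ 2 :=
    (abs_sub _ _).trans (by linarith)
  have h3 : |(jacobiSym (k : ℤ) p : ℝ) * (Real.cos (Real.pi * k / 2) +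
      Real.sin (Real.pi * k / 2)) + (jacobiSym (-(k : ℤ)) p : ℝ) *
        (Real.cos (Real.pi * k / 2) - Real.sin (Real.pi * k / 2))| ≤ 4 := by
    refine (abs_add_le _ _).trans ?_
    rw [abs_mul, abs_mul]
    have := mul_le_mul (hj k) h1 (abs_nonneg _) zero_le_one
    have := mul_le_mul (hj (-(k : ℤ))) h2 (abs_nonneg _) zero_le_one
    linarith
  nlinarith [Real.sqrt_nonneg (p : ℝ)]

end Pool.Agent.Helper368_LD
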