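import Pool.Agent.Helper368_LD.GFun

/-!
# Asymptotics of the function behind the second main term
-/

set_option autoImplicit false

namespace Pool.Agent.Helper368_LD

open MeasureTheory Set Filter Topology
open scoped Real

/-- `∑ sin(π j² v) / j²` -/
noncomputable def Sf (v : ℝ) : ℝ := ∑' j : ℕ, Real.sin (π * (j : ℝ) ^ 2 * v) / (j : ℝ) ^ 2

theorem Sf_term_abs (v : ℝ) (j : ℕ) : |Real.sin (π * (j : ℝ) ^ 2 * v) / (j : ℝ) ^ 2| ≤ 1 / (j : ℝ) ^ 2 := by
  rw [abs_div, abs_of_nonneg (by positivity : (0 : ℝ) ≤ (j : ℝ) ^ 2)]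
  gcongr
  exact Real.abs_sin_le_one _

theorem Sf_summable (v : ℝ) : Summable (fun j : ℕ => Real.sin (π * (j : ℝ) ^ 2 * v) / (j : ℝ) ^ 2) := by
  have h : Summable (fun j : ℕ => 1 / (j : ℝ) ^ 2) := Real.summable_one_div_nat_pow.2 (by norm_num)
  exact Summable.of_norm_bounded h (fun j => by rw [Real.norm_eq_abs]; exact Sf_term_abs v j)

theorem SJ_tendsto (v : ℝ) : Tendsto (fun J : ℕ => SJ J v) atTop (𝓝 (Sf v)) := by
  have h := (Sf_summable v).hasSum.tendsto_sum_nat
  have h2 : (fun J : ℕ => SJ J v) = fun J => ∑ i ∈ Finset.range (J + 1),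
      Real.sin (π * (i : ℝ) ^ 2 * v) / (i : ℝ) ^ 2 := by
    funext J
    unfold SJ
    have : Finset.range (J + 1) = insert 0 (Finset.Icc 1 J) := by
      ext i
      simp only [Finset.mem_range, Finset.mem_insert, Finset.mem_Icc]
      omega
    rw [this, Finset.sum_insert (by simp)]
    simp
  rw [h2]
  exact h.comp (tendsto_add_atTop_nat 1)

theorem SJ_diff {J K : ℕ} (hJ : 1 ≤ J) (hJK : J ≤ K) (v : ℝ) : |SJ J v - SJ K v| ≤ 1 / (J : ℝ) := by
  unfold SJ
  have h2 : Finset.Icc 1 K = Finset.Icc 1 J ∪ Finset.Ioc J K := by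
    ext k
    simp only [Finset.mem_union, Finset.mem_Icc, Finset.mem_Ioc]
    omega
  have h3 : Disjoint (Finset.Icc 1 J) (Finset.Ioc J K) := by
    rw [Finset.disjoint_left]
    intro k hk
    simp only [Finset.mem_Icc, Finset.mem_Ioc] at hk ⊢
    omega
  rw [h2, Finset.sum_union h3, sub_add_cancel_left, abs_neg]
  refine (Finset.abs_sum_le_sum_abs _ _).trans ((Finset.sum_le_sum ?_).trans (sum_inv_sq_Ioc J K hJ))
  intro j _
  exact Sf_term_abs v j

theorem SJ_Sf {J : ℕ} (hJ : 1 ≤ J) (v : ℝ) : |SJ J v - Sf v| ≤ 1 / (J : ℝ) := by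
  have h := ((SJ_tendsto v).const_sub (SJ J v)).abs
  apply le_of_tendsto h
  filter_upwards [eventually_ge_atTop J] with K hK
  exact SJ_diff hJ hK v

theorem Sf_abs (v : ℝ) : |Sf v| ≤ 2 :=
  le_of_tendsto (SJ_tendsto v).abs (Eventually.of_forall fun J => SJ_abs J v)

theorem Sf_mod (v w : ℝ) : |Sf v - Sf w| ≤ 8 * √|v - w| :=
  le_of_tendsto ((SJ_tendsto v).sub (SJ_tendsto w)).abs (Eventually.of_forall fun J => SJ_mod J v w)

theorem Sf_cont : Continuous Sf := by
  rw [continuous_iff_continuousAt]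
  intro x
  rw [ContinuousAt, tendsto_iff_dist_tendsto_zero]
  have h1 : Tendsto (fun y : ℝ => 8 * √|y - x|) (𝓝 x) (𝓝 0) := by
    have : Continuous (fun y : ℝ => 8 * √|y - x|) := by fun_prop
    have h2 := this.tendsto x
    simpa using h2
  refine squeeze_zero (fun _ => dist_nonneg) (fun y => ?_) h1
  rw [Real.dist_eq]
  exact Sf_mod y x

/-- the normalised function -/
noncomputable def hf (u : ℝ) : ℝ := √u / π * Sf (1 / (2 * u))

theorem hf_abs {u : ℝ} : |hf u| ≤ √u := by
  unfold hf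
  have h1 := Sf_abs (1 / (2 * u))
  have hpi := Real.pi_gt_three
  rw [abs_mul, abs_of_nonneg (by positivity)]
  have hs := Real.sqrt_nonneg u
  calc √u / π * |Sf (1 / (2 * u))| ≤ √u / π * 2 := by gcongr
    _ = √u * (2 / π) := by ring
    _ ≤ √u * 1 := by
        gcongr
        rw [div_le_one (by positivity)]
        linarith
    _ = _ := mul_one _

theorem hf_contOn : ContinuousOn hf (Ioi 0) := by
  unfold hf
  apply ContinuousOn.mul (by fun_prop)
  apply Sf_cont.comp_continuousOn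
  apply ContinuousOn.div (by fun_prop) (by fun_prop)
  intro u hu
  have : (0 : ℝ) < u := hu
  positivity

/-- the integrand -/
noncomputable def wy (u y : ℝ) : ℝ := Real.sin (π * y ^ 2 / (2 * u)) / y ^ 2

/-- its derivative -/
noncomputable def wyd (u y : ℝ) : ℝ :=
  Real.cos (π * y ^ 2 / (2 * u)) * (π / (u * y)) - 2 * Real.sin (π * y ^ 2 / (2 * u)) / y ^ 3

theorem wy_hasDeriv {u y : ℝ} (hu : 0 < u) (hy : 0 < y) : HasDerivAt (wy u) (wyd u y) y := by
  have h1 : HasDerivAt (fun y : ℝ => π * y ^ 2 / (2 * u)) (π * y / u) y := by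
    have h2 : HasDerivAt (fun y : ℝ => y ^ 2) (2 * y) y := by simpa using hasDerivAt_pow 2 y
    have h3 := (h2.const_mul π).div_const (2 * u)
    exact h3.congr_deriv (by field_simp)
  have h4 := h1.sin
  have h5 : HasDerivAt (fun y : ℝ => y ^ 2) (2 * y) y := by simpa using hasDerivAt_pow 2 y
  have h6 := h4.div h5 (by positivity)
  refine HasDerivAt.congr_deriv h6 ?_
  unfold wyd
  field_simp

theorem wy_abs {u y : ℝ} (hy : 0 < y) : |wy u y| ≤ 1 / y ^ 2 := by
  unfold wy
  rw [abs_div, abs_of_pos (by positivity : 0 < y ^ 2)]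
  gcongr
  exact Real.abs_sin_le_one _

theorem wy_abs2 {u y : ℝ} (hu : 0 < u) (hy : 0 < y) : |wy u y| ≤ π / (2 * u) := by
  unfold wy
  rw [abs_div, abs_of_pos (by positivity : 0 < y ^ 2), div_le_iff₀ (by positivity)]
  have h1 : |Real.sin (π * y ^ 2 / (2 * u))| ≤ |π * y ^ 2 / (2 * u)| := Real.abs_sin_le_abs
  have hpi := Real.pi_pos
  rw [abs_of_pos (by positivity : 0 < π * y ^ 2 / (2 * u))] at h1
  refine h1.trans (le_of_eq ?_)
  ring

theorem wyd_abs {u y : ℝ} (hu : 0 < u) (hy : 0 < y) : |wyd u y| ≤ 2 * π / u * (1 / y) := by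
  have hpi := Real.pi_pos
  unfold wyd
  have h1 := Real.abs_cos_le_one (π * y ^ 2 / (2 * u))
  have h2 : |Real.sin (π * y ^ 2 / (2 * u))| ≤ |π * y ^ 2 / (2 * u)| := Real.abs_sin_le_abs
  rw [abs_of_pos (by positivity : 0 < π * y ^ 2 / (2 * u))] at h2
  refine (abs_sub _ _).trans ?_
  have e1 : |Real.cos (π * y ^ 2 / (2 * u)) * (π / (u * y))| =
      |Real.cos (π * y ^ 2 / (2 * u))| * (π / (u * y)) := by
    rw [abs_mul, abs_of_pos (by positivity : 0 < π / (u * y))]
  have e2 : |2 * Real.sin (π * y ^ 2 / (2 * u)) / y ^ 3| =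
      2 * |Real.sin (π * y ^ 2 / (2 * u))| / y ^ 3 := by
    rw [abs_div, abs_mul, abs_two, abs_of_pos (by positivity : 0 < y ^ 3)]
  rw [e1, e2]
  have h3 : |Real.cos (π * y ^ 2 / (2 * u))| * (π / (u * y)) ≤ 1 * (π / (u * y)) := by gcongr
  have h4 : 2 * |Real.sin (π * y ^ 2 / (2 * u))| / y ^ 3 ≤ 2 * (π * y ^ 2 / (2 * u)) / y ^ 3 := by
    gcongr
  refine (add_le_add h3 h4).trans (le_of_eq ?_)
  field_simp
  ring

theorem wy_cont {u a b : ℝ} (ha : 0 < a) : ContinuousOn (wy u) (Icc a b) := by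
  unfold wy
  apply ContinuousOn.div (by fun_prop) (by fun_prop)
  intro y hy
  have : 0 < y := lt_of_lt_of_le ha hy.1
  positivity

theorem wyd_cont {u a b : ℝ} (hu : 0 < u) (ha : 0 < a) : ContinuousOn (wyd u) (Icc a b) := by
  unfold wyd
  apply ContinuousOn.sub
  · apply ContinuousOn.mul (by fun_prop)
    apply ContinuousOn.div (by fun_prop) (by fun_prop)
    intro y hy
    have : 0 < y := lt_of_lt_of_le ha hy.1
    positivity
  · apply ContinuousOn.div (by fun_prop) (by fun_prop)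
    intro y hy
    have : 0 < y := lt_of_lt_of_le ha hy.1
    positivity

theorem wy_intOn {u : ℝ} (hu : 0 < u) : IntegrableOn (wy u) (Ioi 0) := by
  rw [← Ioc_union_Ioi_eq_Ioi (zero_le_one (α := ℝ))]
  have hm : AEStronglyMeasurable (wy u) (volume.restrict (Ioi 0)) := by
    apply ContinuousOn.aestronglyMeasurable _ measurableSet_Ioi
    unfold wy
    apply ContinuousOn.div (by fun_prop) (by fun_prop)
    intro y hy
    have : (0 : ℝ) < y := hy
    positivity
  apply IntegrableOn.union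
  · apply IntegrableOn.of_bound (C := π / (2 * u)) (by simp)
    · exact hm.mono_measure (Measure.restrict_mono Ioc_subset_Ioi_self le_rfl)
    · rw [ae_restrict_iff' measurableSet_Ioc]
      exact Eventually.of_forall fun y hy => by rw [Real.norm_eq_abs]; exact wy_abs2 hu hy.1
  · have h1 : IntegrableOn (fun y : ℝ => y ^ (-2 : ℝ)) (Ioi 1) :=
      integrableOn_Ioi_rpow_of_lt (by norm_num) zero_lt_one
    refine Integrable.mono' h1 (hm.mono_measure (Measure.restrict_mono
      (Ioi_subset_Ioi zero_le_one) le_rfl)) ?_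
    rw [ae_restrict_iff' measurableSet_Ioi]
    refine Eventually.of_forall fun y hy => ?_
    have hy0 : (0 : ℝ) < y := lt_trans zero_lt_one hy
    rw [Real.norm_eq_abs, Real.rpow_neg hy0.le, Real.rpow_two, ← one_div]
    exact wy_abs hy0

/-- the constant -/
noncomputable def I0 : ℝ := ∫ y in Ioi (0 : ℝ), wy 1 y

theorem wy_int_eq {u : ℝ} (hu : 0 < u) : ∫ y in Ioi (0 : ℝ), wy u y = I0 / √u := by
  have hs : 0 < √u := Real.sqrt_pos.2 hu
  have h1 := integral_comp_mul_left_Ioi (fun y => wy u y) 0 hs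
  rw [mul_zero] at h1
  have h2 : ∀ y : ℝ, wy u (√u * y) = wy 1 y / u := by
    intro y
    unfold wy
    have e1 : (√u * y) ^ 2 = u * y ^ 2 := by rw [mul_pow, Real.sq_sqrt hu.le]
    rw [e1]
    have e2 : π * (u * y ^ 2) / (2 * u) = π * y ^ 2 / (2 * 1) := by
      field_simp
    rw [e2]
    rw [div_div, mul_comm u]
  simp_rw [h2] at h1
  rw [integral_div] at h1
  have h3 : (√u)⁻¹ • ∫ y in Ioi (0 : ℝ), wy u y = (∫ y in Ioi (0 : ℝ), wy u y) / √u := by
    rw [smul_eq_mul, div_eq_inv_mul]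
  rw [h3] at h1
  unfold I0
  have hss : √u * √u = u := Real.mul_self_sqrt hu.le
  have h4 : (∫ y in Ioi (0 : ℝ), wy u y) = (∫ y in Ioi (0 : ℝ), wy 1 y) / u * √u := by
    rw [h1]
    field_simp
  rw [h4, div_mul_eq_mul_div, div_eq_div_iff hu.ne' hs.ne', mul_assoc, hss]

theorem Sf_asymp {u : ℝ} (hu : 1 ≤ u) : |Sf (1 / (2 * u)) - I0 / √u| ≤ 20 * (1 + Real.log u) / u := by
  have hu0 : 0 < u := by linarith
  have hpi := Real.pi_pos
  have hpi4 := Real.pi_lt_d2
  set N : ℕ := ⌈u⌉₊ with hN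
  have hN1 : 1 ≤ N := Nat.one_le_ceil_iff.2 hu0
  have hNu : u ≤ N := Nat.le_ceil u
  have hNu2 : (N : ℝ) < u + 1 := Nat.ceil_lt_add_one hu0.le
  have hN0 : (0 : ℝ) < N := by linarith
  have hN1' : (1 : ℝ) ≤ N := by exact_mod_cast hN1
  have hlu : 0 ≤ Real.log u := Real.log_nonneg hu
  -- truncation
  have s1 : |Sf (1 / (2 * u)) - SJ N (1 / (2 * u))| ≤ 1 / u := by
    rw [abs_sub_comm]
    refine (SJ_Sf hN1 _).trans ?_
    gcongr
  have s2 : SJ N (1 / (2 * u)) = ∑ j ∈ Finset.Icc 1 N, wy u j := by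
    unfold SJ wy
    apply Finset.sum_congr rfl
    intro j _
    rw [mul_one_div]
  have s3 : ∑ j ∈ Finset.Icc 1 N, wy u j = wy u 1 + ∑ j ∈ Finset.Ioc 1 N, wy u j := by
    have h1 : Finset.Icc 1 N = insert 1 (Finset.Ioc 1 N) := by
      ext k
      simp only [Finset.mem_Icc, Finset.mem_insert, Finset.mem_Ioc]
      omega
    rw [h1, Finset.sum_insert (by simp), Nat.cast_one]
  -- comparison with the integral
  have s4 : |∑ j ∈ Finset.Ioc 1 N, wy u j - ∫ y in (1 : ℝ)..N, wy u y| ≤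
      1 / u ^ 2 + 2 * π / u * Real.log N := by
    have hcount : ∀ y ∈ Icc (1 : ℝ) N, ‖∑ k ∈ Finset.Ioc ⌊(1 : ℝ)⌋₊ ⌊y⌋₊, (fun _ => (1 : ℂ)) k -
        ∫ u in (1 : ℝ)..y, (fun _ => (1 : ℂ)) u‖ ≤ 1 := by
      intro y hy
      simp only [Finset.sum_const, Nat.card_Ioc, nsmul_eq_mul, mul_one,
        intervalIntegral.integral_const, Complex.real_smul, Nat.floor_one]
      have h1 : 1 ≤ ⌊y⌋₊ := Nat.le_floor (by simpa using hy.1)
      have h2 := Nat.floor_le (by linarith [hy.1] : 0 ≤ y)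
      have h3 := Nat.lt_floor_add_one y
      rw [Nat.cast_sub h1]
      have h4 : (((⌊y⌋₊ : ℕ) : ℂ) - ((1 : ℕ) : ℂ) - ((y - 1 : ℝ) : ℂ)) = ((⌊y⌋₊ - y : ℝ) : ℂ) := by
        push_cast
        ring
      rw [h4, Complex.norm_real, Real.norm_eq_abs, abs_le]
      constructor <;> linarith
    have h1 := abel_cmp (c := fun _ => (1 : ℂ)) (v := fun _ => (1 : ℂ)) (w := fun y => (wy u y : ℂ))
      (w' := fun y => (wyd u y : ℂ)) (a := 1) (b := N) zero_le_one hN1'
      (fun y hy => (wy_hasDeriv hu0 (lt_of_lt_of_le zero_lt_one hy.1)).ofReal_comp)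
      (Complex.continuous_ofReal.comp_continuousOn (wyd_cont hu0 zero_lt_one)) continuousOn_const hcount
    simp only [mul_one, one_mul, Nat.floor_one, Nat.floor_natCast] at h1
    rw [intervalIntegral.integral_ofReal, ← Complex.ofReal_sum, ← Complex.ofReal_sub,
      Complex.norm_real, Real.norm_eq_abs, Complex.norm_real, Real.norm_eq_abs] at h1
    refine h1.trans (add_le_add ?_ ?_)
    · refine (wy_abs hN0).trans ?_
      gcongr
    · calc ∫ y in (1 : ℝ)..N, ‖(wyd u y : ℂ)‖ ≤ ∫ y in (1 : ℝ)..N, 2 * π / u * (1 / y) := by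
            apply intervalIntegral.integral_mono_on hN1'
            · rw [intervalIntegrable_iff_integrableOn_Icc_of_le hN1']
              exact (Complex.continuous_ofReal.comp_continuousOn
                (wyd_cont hu0 zero_lt_one)).norm.integrableOn_Icc
            · rw [intervalIntegrable_iff_integrableOn_Icc_of_le hN1']
              apply ContinuousOn.integrableOn_Icc
              apply continuousOn_const.mul
              apply ContinuousOn.div continuousOn_const continuousOn_id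
              intro y hy
              have : (0 : ℝ) < y := lt_of_lt_of_le zero_lt_one hy.1
              exact this.ne'
            · intro y hy
              rw [Complex.norm_real, Real.norm_eq_abs]
              exact wyd_abs hu0 (lt_of_lt_of_le zero_lt_one hy.1)
        _ = 2 * π / u * Real.log N := by
            rw [intervalIntegral.integral_const_mul]
            congr 1
            have := integral_one_div_of_pos zero_lt_one hN0
            rw [this, div_one]
  -- the integral over the half line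
  have s5 : ∫ y in Ioi (0 : ℝ), wy u y = (∫ y in Ioc (0 : ℝ) 1, wy u y) + (∫ y in (1 : ℝ)..N, wy u y) +
      ∫ y in Ioi (N : ℝ), wy u y := by
    have hi := wy_intOn hu0
    have e1 : Ioi (0 : ℝ) = Ioc 0 (N : ℝ) ∪ Ioi (N : ℝ) := (Ioc_union_Ioi_eq_Ioi hN0.le).symm
    have e2 : Ioc (0 : ℝ) N = Ioc 0 1 ∪ Ioc 1 (N : ℝ) := (Ioc_union_Ioc_eq_Ioc zero_le_one hN1').symm
    rw [e1, setIntegral_union Ioc_disjoint_Ioi_same measurableSet_Ioi
      (hi.mono_set Ioc_subset_Ioi_self) (hi.mono_set (Ioi_subset_Ioi hN0.le)), e2,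
      setIntegral_union (Ioc_disjoint_Ioc_of_le le_rfl) measurableSet_Ioc
      (hi.mono_set Ioc_subset_Ioi_self) (hi.mono_set (fun y hy => lt_trans zero_lt_one hy.1)),
      intervalIntegral.integral_of_le hN1']
  have s6 : |∫ y in Ioc (0 : ℝ) 1, wy u y| ≤ π / (2 * u) := by
    have := norm_setIntegral_le_of_norm_le_const (μ := volume) (s := Ioc (0 : ℝ) 1) (f := wy u)
      (C := π / (2 * u)) (by simp) (fun y hy => by rw [Real.norm_eq_abs]; exact wy_abs2 hu0 hy.1)
    simpa using this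
  have s7 : |∫ y in Ioi (N : ℝ), wy u y| ≤ 1 / u := by
    have h1 : IntegrableOn (fun y : ℝ => y ^ (-2 : ℝ)) (Ioi (N : ℝ)) :=
      integrableOn_Ioi_rpow_of_lt (by norm_num) hN0
    have h2 : |∫ y in Ioi (N : ℝ), wy u y| ≤ ∫ y in Ioi (N : ℝ), y ^ (-2 : ℝ) := by
      rw [← Real.norm_eq_abs]
      apply norm_integral_le_of_norm_le h1
      rw [ae_restrict_iff' measurableSet_Ioi]
      refine Eventually.of_forall fun y hy => ?_
      have hy0 : (0 : ℝ) < y := lt_trans hN0 hy
      rw [Real.norm_eq_abs, Real.rpow_neg hy0.le, Real.rpow_two, ← one_div]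
      exact wy_abs hy0
    rw [integral_Ioi_rpow_of_lt (by norm_num) hN0] at h2
    refine h2.trans ?_
    norm_num
    rw [Real.rpow_neg_one]
    gcongr
  have s8 : |wy u 1| ≤ π / (2 * u) := wy_abs2 hu0 zero_lt_one
  have s9 := wy_int_eq hu0
  rw [s5] at s9
  rw [← s9]
  set A0 := ∫ y in Ioc (0 : ℝ) 1, wy u y
  set A1 := ∫ y in (1 : ℝ)..N, wy u y
  set A2 := ∫ y in Ioi (N : ℝ), wy u y
  set B1 := ∑ j ∈ Finset.Ioc 1 N, wy u j
  have hfin : Sf (1 / (2 * u)) - (A0 + A1 + A2) = (Sf (1 / (2 * u)) - SJ N (1 / (2 * u))) +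
      wy u 1 + (B1 - A1) - A0 - A2 := by
    rw [s2, s3]
    ring
  have hlogN : Real.log N ≤ 1 + Real.log u := by
    have h1 : Real.log N ≤ Real.log (2 * u) := Real.log_le_log hN0 (by linarith)
    rw [Real.log_mul (by norm_num) hu0.ne'] at h1
    have := Real.log_two_lt_d9
    linarith
  have hu2 : 1 / u ^ 2 ≤ 1 / u := by
    rw [div_le_div_iff₀ (by positivity) hu0]
    nlinarith
  rw [hfin]
  have htri : |(Sf (1 / (2 * u)) - SJ N (1 / (2 * u))) + wy u 1 + (B1 - A1) - A0 - A2| ≤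
      |Sf (1 / (2 * u)) - SJ N (1 / (2 * u))| + |wy u 1| + |B1 - A1| + |A0| + |A2| := by
    refine (abs_sub _ _).trans (add_le_add_left ?_ _)
    refine (abs_sub _ _).trans (add_le_add_left ?_ _)
    refine (abs_add_le _ _).trans (add_le_add_left ?_ _)
    exact abs_add_le _ _
  refine htri.trans ?_
  have h10 : 2 * π / u * Real.log N ≤ 2 * π / u * (1 + Real.log u) := by gcongr
  have h11 : |Sf (1 / (2 * u)) - SJ N (1 / (2 * u))| + |wy u 1| + |B1 - A1| + |A0| + |A2| ≤
      1 / u + π / (2 * u) + (1 / u + 2 * π / u * (1 + Real.log u)) + π / (2 * u) + 1 / u := by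
    linarith
  refine h11.trans ?_
  rw [le_div_iff₀ hu0]
  have e5 : (1 / u + π / (2 * u) + (1 / u + 2 * π / u * (1 + Real.log u)) + π / (2 * u) + 1 / u) * u =
      3 + π + 2 * π * (1 + Real.log u) := by
    field_simp
    ring
  rw [e5]
  nlinarith

/-- the constant `I0 / π` -/
noncomputable def c0 : ℝ := I0 / π

theorem hf_asymp {u : ℝ} (hu : 1 ≤ u) : |hf u - c0| ≤ 7 * (1 + Real.log u) / √u := by
  have hu0 : 0 < u := by linarith
  have hs : 0 < √u := Real.sqrt_pos.2 hu0
  have h1 := Sf_asymp hu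
  have hpi := Real.pi_gt_three
  have hlu : 0 ≤ Real.log u := Real.log_nonneg hu
  have hss : √u * √u = u := Real.mul_self_sqrt hu0.le
  unfold hf c0
  have e1 : √u / π * Sf (1 / (2 * u)) - I0 / π = √u / π * (Sf (1 / (2 * u)) - I0 / √u) := by
    field_simp
  rw [e1, abs_mul, abs_of_pos (by positivity)]
  calc √u / π * |Sf (1 / (2 * u)) - I0 / √u| ≤ √u / π * (20 * (1 + Real.log u) / u) := by gcongr
    _ = 20 / π * ((1 + Real.log u) / √u) := by
        nth_rewrite 3 [← hss]
        field_simp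
    _ ≤ 7 * ((1 + Real.log u) / √u) := by
        apply mul_le_mul_of_nonneg_right _ (by positivity)
        rw [div_le_iff₀ (by positivity)]
        linarith
    _ = _ := by ring

end Pool.Agent.Helper368_LD
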