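import Pool.Agent.Helper368_LD.SinMellin
import Pool.Agent.Helper368_LD.HBound

/-!
# The Mellin transform of the function behind the second main term
-/

set_option autoImplicit false

namespace Pool.Agent.Helper368_LD

open MeasureTheory Set Filter Topology Complex Asymptotics
open scoped Real

/-- the sine, complex valued -/
noncomputable def sn (w : ℝ) : ℂ := ((Real.sin w : ℝ) : ℂ)

theorem sn_conv {z : ℂ} (hz1 : -1 < z.re) (hz2 : z.re < 0) : MellinConvergent sn z := by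
  have hc : Continuous sn := by unfold sn; fun_prop
  apply mellinConvergent_of_isBigO_rpow (a := 0) (b := -1)
  · exact (hc.locallyIntegrable (μ := volume)).locallyIntegrableOn _
  · apply IsBigO.of_bound 1
    filter_upwards with x
    unfold sn
    rw [norm_real, Real.norm_eq_abs, neg_zero, Real.rpow_zero, norm_one, mul_one]
    exact Real.abs_sin_le_one x
  · exact hz2
  · apply IsBigO.of_bound 1
    filter_upwards [self_mem_nhdsWithin] with x hx
    have hx0 : (0 : ℝ) < x := hx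
    unfold sn
    rw [norm_real, Real.norm_eq_abs, neg_neg, Real.rpow_one, Real.norm_eq_abs, one_mul]
    exact Real.abs_sin_le_abs
  · exact hz1

theorem sn_scaled_conv {s : ℂ} (h1 : -1 / 2 < s.re) (h2 : s.re < 1 / 2) {a : ℝ} (ha : 0 < a) :
    MellinConvergent (fun v : ℝ => (v : ℂ) ^ (1 / 2 : ℂ) • sn (a * v⁻¹)) s := by
  rw [MellinConvergent.cpow_smul]
  have e1 : (fun v : ℝ => sn (a * v⁻¹)) = fun v : ℝ => (fun u => sn (a * u)) (v ^ (-1 : ℝ)) := by
    funext v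
    simp only
    rw [Real.rpow_neg_one]
  rw [e1, MellinConvergent.comp_rpow (f := fun u => sn (a * u)) (a := -1) (by norm_num),
    MellinConvergent.comp_mul_left ha]
  have e2 : (s + 1 / 2) / ((-1 : ℝ) : ℂ) = -(s + 1 / 2) := by push_cast; ring
  rw [e2]
  apply sn_conv
  · simp only [neg_re, add_re]; norm_num; linarith
  · simp only [neg_re, add_re]; norm_num; linarith

theorem sn_scaled_mellin {s : ℂ} (h1 : -1 / 2 < s.re) (h2 : s.re < 1 / 2) {a : ℝ} (ha : 0 < a) :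
    mellin (fun v : ℝ => (v : ℂ) ^ (1 / 2 : ℂ) • sn (a * v⁻¹)) s =
      (a : ℂ) ^ (s + 1 / 2) * (Gamma (-(s + 1 / 2)) * sin (π * (-(s + 1 / 2)) / 2)) := by
  rw [mellin_cpow_smul]
  have e1 : (fun v : ℝ => sn (a * v⁻¹)) = fun v : ℝ => (fun u => sn (a * u)) (v⁻¹) := rfl
  rw [e1, mellin_comp_inv (fun u => sn (a * u)), mellin_comp_mul_left _ _ ha, neg_neg, smul_eq_mul]
  congr 1
  apply mellin_sin
  · simp only [neg_re, add_re]; norm_num; linarith
  · simp only [neg_re, add_re]; norm_num; linarith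

/-- the terms of the series -/
noncomputable def Fj (s : ℂ) (j : ℕ) (v : ℝ) : ℂ :=
  (v : ℂ) ^ (s - 1) * ((√v / π * (Real.sin (π * (j : ℝ) ^ 2 * (1 / (2 * v))) / (j : ℝ) ^ 2) : ℝ) : ℂ)

theorem Fj_eq {s : ℂ} {j : ℕ} {v : ℝ} (hv : 0 < v) : Fj s j v =
    (1 / (π * (j : ℂ) ^ 2)) * ((v : ℂ) ^ (s - 1) • ((v : ℂ) ^ (1 / 2 : ℂ) • sn (π * (j : ℝ) ^ 2 / 2 * v⁻¹))) := by
  unfold Fj sn
  have e1 : π * (j : ℝ) ^ 2 * (1 / (2 * v)) = π * (j : ℝ) ^ 2 / 2 * v⁻¹ := by
    field_simp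
  have e2 : (v : ℂ) ^ (1 / 2 : ℂ) = ((√v : ℝ) : ℂ) := by
    rw [Real.sqrt_eq_rpow, Complex.ofReal_cpow hv.le]
    norm_num
  rw [e1, e2, smul_eq_mul, smul_eq_mul]
  push_cast
  ring

theorem Fj_int {s : ℂ} (h1 : -1 / 2 < s.re) (h2 : s.re < 1 / 2) (j : ℕ) :
    IntegrableOn (Fj s j) (Ioi 0) := by
  rcases Nat.eq_zero_or_pos j with h | h
  · subst h
    have : Fj s 0 = fun _ => 0 := by
      funext v
      unfold Fj
      simp
    rw [this]
    exact integrableOn_zero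
  · have hj : (0 : ℝ) < j := by exact_mod_cast h
    have ha : 0 < π * (j : ℝ) ^ 2 / 2 := by
      have := Real.pi_pos
      positivity
    have := (sn_scaled_conv h1 h2 ha).const_mul (1 / (π * (j : ℂ) ^ 2))
    refine IntegrableOn.congr_fun this ?_ measurableSet_Ioi
    intro v hv
    exact (Fj_eq hv).symm

theorem Fj_integral {s : ℂ} (h1 : -1 / 2 < s.re) (h2 : s.re < 0) (j : ℕ) :
    ∫ v in Ioi (0 : ℝ), Fj s j v = (1 / π * ((π / 2 : ℝ) : ℂ) ^ (s + 1 / 2) *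
      (Gamma (-(s + 1 / 2)) * sin (π * (-(s + 1 / 2)) / 2))) * (1 / (j : ℂ) ^ (1 - 2 * s)) := by
  have hpi := Real.pi_pos
  rcases Nat.eq_zero_or_pos j with h | h
  · subst h
    have e0 : Fj s 0 = fun _ => 0 := by
      funext v
      unfold Fj
      simp
    rw [e0]
    have hne : 1 - 2 * s ≠ 0 := by
      intro h
      have := congrArg Complex.re h
      simp at this
      linarith
    simp [Complex.zero_cpow hne]
  · have hj : (0 : ℝ) < j := by exact_mod_cast h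
    have hj' : (j : ℂ) ≠ 0 := by exact_mod_cast h.ne'
    have ha : 0 < π * (j : ℝ) ^ 2 / 2 := by positivity
    have e1 : ∫ v in Ioi (0 : ℝ), Fj s j v = (1 / (π * (j : ℂ) ^ 2)) *
        mellin (fun v : ℝ => (v : ℂ) ^ (1 / 2 : ℂ) • sn (π * (j : ℝ) ^ 2 / 2 * v⁻¹)) s := by
      unfold mellin
      rw [← integral_const_mul]
      apply setIntegral_congr_fun measurableSet_Ioi
      intro v hv
      exact Fj_eq hv
    rw [e1, sn_scaled_mellin h1 (by linarith) ha]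
    have e2 : ((π * (j : ℝ) ^ 2 / 2 : ℝ) : ℂ) ^ (s + 1 / 2) = ((π / 2 : ℝ) : ℂ) ^ (s + 1 / 2) *
        (j : ℂ) ^ (2 * s + 1) := by
      have e3 : π * (j : ℝ) ^ 2 / 2 = (π / 2) * (j : ℝ) ^ 2 := by ring
      rw [e3, Complex.ofReal_mul, Complex.mul_cpow_ofReal_nonneg (by positivity) (by positivity)]
      congr 1
      rw [Complex.ofReal_pow, Complex.ofReal_natCast, ← Complex.natCast_cpow_natCast_mul]
      congr 1
      push_cast
      ring
    rw [e2]
    have e4 : (j : ℂ) ^ (1 - 2 * s) = (j : ℂ) ^ 2 * ((j : ℂ) ^ (2 * s + 1))⁻¹ := by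
      have : (1 : ℂ) - 2 * s = 2 + -(2 * s + 1) := by ring
      rw [this, Complex.cpow_add _ _ hj', Complex.cpow_neg]
      norm_num
    rw [e4]
    have hne : (j : ℂ) ^ (2 * s + 1) ≠ 0 := by
      rw [Complex.cpow_def_of_ne_zero hj']; exact exp_ne_zero _
    have hpi' : (π : ℂ) ≠ 0 := by exact_mod_cast hpi.ne'
    field_simp

/-- `∫ ‖Fj‖` -/
theorem Fj_norm {s : ℂ} {j : ℕ} (h : 1 ≤ j) :
    ∫ v in Ioi (0 : ℝ), ‖Fj s j v‖ ≤ ‖mellin (fun w : ℝ => ((|Real.sin w| : ℝ) : ℂ)) (-((s.re : ℂ) + 1 / 2))‖ *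
      (1 / π * (π / 2) ^ (s.re + 1 / 2)) * (j : ℝ) ^ (2 * s.re - 1) := by
  have hpi := Real.pi_pos
  have hj : (0 : ℝ) < j := by exact_mod_cast h
  have ha : 0 < π * (j : ℝ) ^ 2 / 2 := by positivity
  set a := π * (j : ℝ) ^ 2 / 2 with hadef
  set Gc : ℝ → ℂ := fun w => ((|Real.sin w| : ℝ) : ℂ) with hGc
  have e1 : ((∫ v in Ioi (0 : ℝ), ‖Fj s j v‖ : ℝ) : ℂ) = (1 / (π * (j : ℂ) ^ 2)) *
      mellin (fun v : ℝ => (v : ℂ) ^ (1 / 2 : ℂ) • Gc (a * v⁻¹)) (s.re : ℂ) := by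
    unfold mellin
    rw [← integral_const_mul, ← integral_complex_ofReal]
    apply setIntegral_congr_fun measurableSet_Ioi
    intro v hv
    have hv0 : (0 : ℝ) < v := hv
    simp only
    unfold Fj
    rw [norm_mul, Complex.norm_cpow_eq_rpow_re_of_pos hv0, norm_real, Real.norm_eq_abs, abs_mul,
      abs_of_nonneg (by positivity : 0 ≤ √v / π), abs_div, abs_of_pos (by positivity : (0 : ℝ) < (j : ℝ) ^ 2)]
    have e1 : π * (j : ℝ) ^ 2 * (1 / (2 * v)) = a * v⁻¹ := by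
      rw [hadef]
      field_simp
    have e2 : (v : ℂ) ^ (1 / 2 : ℂ) = ((√v : ℝ) : ℂ) := by
      rw [Real.sqrt_eq_rpow, Complex.ofReal_cpow hv0.le]
      norm_num
    have e3 : (v : ℂ) ^ ((s.re : ℂ) - 1) = ((v ^ (s - 1).re : ℝ) : ℂ) := by
      rw [Complex.ofReal_cpow hv0.le]
      congr 1
      simp
    rw [e1, e2, e3, hGc, smul_eq_mul, smul_eq_mul]
    push_cast
    ring
  have e2 : mellin (fun v : ℝ => (v : ℂ) ^ (1 / 2 : ℂ) • Gc (a * v⁻¹)) (s.re : ℂ) =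
      (a : ℂ) ^ ((s.re : ℂ) + 1 / 2) * mellin Gc (-((s.re : ℂ) + 1 / 2)) := by
    rw [mellin_cpow_smul]
    have e1 : (fun v : ℝ => Gc (a * v⁻¹)) = fun v : ℝ => (fun u => Gc (a * u)) (v⁻¹) := rfl
    rw [e1, mellin_comp_inv (fun u => Gc (a * u)), mellin_comp_mul_left _ _ ha, neg_neg, smul_eq_mul]
  have h0 : 0 ≤ ∫ v in Ioi (0 : ℝ), ‖Fj s j v‖ := integral_nonneg fun _ => norm_nonneg _
  have e3 : ∫ v in Ioi (0 : ℝ), ‖Fj s j v‖ = ‖((∫ v in Ioi (0 : ℝ), ‖Fj s j v‖ : ℝ) : ℂ)‖ := by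
    rw [norm_real, Real.norm_of_nonneg h0]
  rw [e3, e1, e2, norm_mul, norm_mul, Complex.norm_cpow_eq_rpow_re_of_pos ha, norm_div, norm_one,
    norm_mul, norm_pow, norm_real, Complex.norm_natCast, Real.norm_of_nonneg hpi.le]
  have e4 : ((s.re : ℂ) + 1 / 2).re = s.re + 1 / 2 := by simp
  rw [e4]
  have e5 : a ^ (s.re + 1 / 2) = (π / 2) ^ (s.re + 1 / 2) * (j : ℝ) ^ (2 * s.re + 1) := by
    have : a = (π / 2) * (j : ℝ) ^ 2 := by rw [hadef]; ring
    rw [this, Real.mul_rpow (by positivity) (by positivity), ← Real.rpow_natCast, ← Real.rpow_mul hj.le]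
    congr 2
    push_cast
    ring
  have e6 : (j : ℝ) ^ (2 * s.re - 1) = (j : ℝ) ^ (2 * s.re + 1) / (j : ℝ) ^ 2 := by
    rw [← Real.rpow_natCast, ← Real.rpow_sub hj]
    congr 1
    push_cast
    ring
  rw [e5, e6]
  apply le_of_eq
  ring

theorem hf_mellin {s : ℂ} (h1 : -1 / 2 < s.re) (h2 : s.re < 0) :
    mellin (fun v : ℝ => ((hf v : ℝ) : ℂ)) s = (1 / π * ((π / 2 : ℝ) : ℂ) ^ (s + 1 / 2) *
      (Gamma (-(s + 1 / 2)) * sin (π * (-(s + 1 / 2)) / 2))) * riemannZeta (1 - 2 * s) := by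
  have hsum : Summable (fun j : ℕ => ∫ v in Ioi (0 : ℝ), ‖Fj s j v‖) := by
    set C := ‖mellin (fun w : ℝ => ((|Real.sin w| : ℝ) : ℂ)) (-((s.re : ℂ) + 1 / 2))‖ *
      (1 / π * (π / 2) ^ (s.re + 1 / 2)) with hC
    have h3 : Summable (fun j : ℕ => C * (j : ℝ) ^ (2 * s.re - 1)) := by
      apply Summable.mul_left
      exact Real.summable_nat_rpow.2 (by linarith)
    have h4 : Summable (fun j : ℕ => ∫ v in Ioi (0 : ℝ), ‖Fj s (j + 1) v‖) := by
      refine Summable.of_nonneg_of_le (fun j => integral_nonneg fun _ => norm_nonneg _) (fun j => ?_)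
        ((summable_nat_add_iff 1).2 h3)
      exact Fj_norm (by omega)
    exact (summable_nat_add_iff 1).1 h4
  have h5 := hasSum_integral_of_summable_integral_norm (μ := volume.restrict (Ioi 0))
    (F := fun j v => Fj s j v) (fun j => Fj_int h1 (by linarith) j) hsum
  have h6 : mellin (fun v : ℝ => ((hf v : ℝ) : ℂ)) s = ∫ v in Ioi (0 : ℝ), ∑' j : ℕ, Fj s j v := by
    unfold mellin
    apply setIntegral_congr_fun measurableSet_Ioi
    intro v _
    simp only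
    unfold Fj hf Sf
    rw [smul_eq_mul, tsum_mul_left]
    congr 1
    rw [← Complex.ofReal_tsum, tsum_mul_left]
  rw [h6, ← h5.tsum_eq]
  have hz := zeta_eq_tsum_one_div_nat_cpow (s := 1 - 2 * s) (by
    simp only [sub_re, one_re, mul_re]
    norm_num
    linarith)
  rw [hz, ← tsum_mul_left]
  apply tsum_congr
  intro j
  exact Fj_integral h1 h2 j

end Pool.Agent.Helper368_LD
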