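import Pool.Agent.Helper368_LD.Trunc
import Pool.Agent.H491R3.J.InvL

/-!
# The Jacobi characters of odd non-square modulus under the Riemann hypothesis for the family
-/

set_option autoImplicit false

namespace Pool.Agent.Helper368_LD

open Complex MeasureTheory Set Filter Topology
open Pool.Agent.H491R3.J

theorem jchi_natCast (n : ℕ) [NeZero n] (m : ℕ) :
    jchi n (m : ZMod n) = ((jacobiSym (m : ℤ) n : ℤ) : ℂ) := by
  change ((jacobiSym (((m : ZMod n).val : ℕ) : ℤ) n : ℤ) : ℂ) = _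
  rw [ZMod.val_natCast, jac_periodic]

/-- decomposition of an odd non-square -/
theorem odd_decomp {n : ℕ} (hodd : Odd n) (hsq : ¬ IsSquare n) :
    ∃ (d : OS) (b : ℕ), b ^ 2 * d.1 = n ∧ b ≠ 0 := by
  obtain ⟨a, b, hab, ha⟩ := Nat.sq_mul_squarefree n
  have hb : b ≠ 0 := by
    rintro rfl
    rw [zero_pow two_ne_zero, zero_mul] at hab
    rw [← hab] at hodd
    exact absurd hodd (by decide)
  have ha1 : 1 < a := by
    rcases Nat.lt_or_ge 1 a with h | h
    · exact h
    · exfalso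
      interval_cases a
      · rw [mul_zero] at hab
        rw [← hab] at hodd
        exact absurd hodd (by decide)
      · apply hsq
        rw [← hab, mul_one]
        exact ⟨b, sq b⟩
  have hoa : Odd a := by
    rw [← hab] at hodd
    exact Nat.Odd.of_mul_left (by rwa [mul_comm] at hodd)
  exact ⟨⟨a, hoa, ha, ha1⟩, b, hab, hb⟩

theorem jacobi_sq_mul {d b : ℕ} (hd : d ≠ 0) (hb : b ≠ 0) {m : ℕ} (hm : Nat.Coprime m b) :
    jacobiSym (m : ℤ) (b ^ 2 * d) = jacobiSym (m : ℤ) d := by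
  have h1 : NeZero d := ⟨hd⟩
  have h2 : NeZero b := ⟨hb⟩
  have h3 : NeZero (b ^ 2) := ⟨pow_ne_zero 2 hb⟩
  rw [jacobiSym.mul_right, jacobiSym.pow_right, jacobiSym.sq_one, one_mul]
  rw [Int.gcd_natCast_natCast]
  exact hm

theorem jchi_changeLevel {n : ℕ} [NeZero n] {d : OS} {b : ℕ} (hab : b ^ 2 * d.1 = n) (hb : b ≠ 0)
    (hdn : d.1 ∣ n) : jchi n = DirichletCharacter.changeLevel hdn (chi d) := by
  ext a
  rw [DirichletCharacter.changeLevel_eq_cast_of_dvd _ hdn]
  have h : ((a : ZMod n).val : ZMod n) = a := ZMod.natCast_zmod_val _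
  have hcop : Nat.Coprime (a : ZMod n).val n := ZMod.val_coe_unit_coprime a
  rw [← h, jchi_natCast, ZMod.cast_natCast hdn, chi_natCast]
  congr 1
  have hbn : b ∣ n := by
    rw [← hab]
    exact (Dvd.intro_left (b * d.1) (by ring))
  have h3 : ∀ m : ℕ, Nat.Coprime m n → jacobiSym (m : ℤ) n = jacobiSym (m : ℤ) d.1 := by
    intro m hm
    rw [← jacobi_sq_mul (NeZero.ne d.1) hb (hm.coprime_dvd_right hbn), hab]
  exact h3 _ hcop

theorem jchi_ne_one {n : ℕ} [NeZero n] (hodd : Odd n) (hsq : ¬ IsSquare n) : jchi n ≠ 1 := by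
  obtain ⟨d, b, hab, hb⟩ := odd_decomp hodd hsq
  have hdn : d.1 ∣ n := Dvd.intro_left _ hab
  rw [jchi_changeLevel hab hb hdn]
  intro h
  rw [DirichletCharacter.changeLevel_eq_one_iff hdn] at h
  exact chi_ne_one d h

theorem jchi_ne_zero (hG : GRHJ) {n : ℕ} [NeZero n] (hodd : Odd n) (hsq : ¬ IsSquare n) {s : ℂ}
    (hs : 1 / 2 < s.re) : DirichletCharacter.LFunction (jchi n) s ≠ 0 := by
  obtain ⟨d, b, hab, hb⟩ := odd_decomp hodd hsq
  have hdn : d.1 ∣ n := Dvd.intro_left _ hab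
  rw [jchi_changeLevel hab hb hdn, DirichletCharacter.LFunction_changeLevel hdn _
    (Or.inl (chi_ne_one d))]
  apply mul_ne_zero (L_ne_zero hG d hs)
  rw [Finset.prod_ne_zero_iff]
  intro p hp h0
  have hp' := Nat.prime_of_mem_primeFactors hp
  rw [sub_eq_zero] at h0
  have h1 : ‖chi d (p : ZMod d.1) * (p : ℂ) ^ (-s)‖ < 1 := by
    rw [norm_mul, norm_natCast_cpow_of_pos hp'.pos]
    have h2 := DirichletCharacter.norm_le_one (chi d) (p : ZMod d.1)
    have h3 : (p : ℝ) ^ (-s).re < 1 := by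
      apply Real.rpow_lt_one_of_one_lt_of_neg
      · exact_mod_cast hp'.one_lt
      · simp only [neg_re]; linarith
    have h4 : 0 ≤ (p : ℝ) ^ (-s).re := Real.rpow_nonneg (Nat.cast_nonneg p) _
    nlinarith [norm_nonneg (chi d (p : ZMod d.1))]
  rw [← h0, norm_one] at h1
  exact lt_irrefl _ h1

theorem jchi_hyp (hG : GRHJ) {n : ℕ} [NeZero n] (hodd : Odd n) (hsq : ¬ IsSquare n) :
    Hyp (gch (jchi n)) 0 (fun s => -deriv (DirichletCharacter.LFunction (jchi n)) s /
      DirichletCharacter.LFunction (jchi n) s) (1 / 2) (32 * Real.log (16 * ((n : ℝ) + 1))) :=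
  hyp_char (jchi_ne_one hodd hsq) le_rfl (by norm_num) (fun _ hs => jchi_ne_zero hG hodd hsq hs)

theorem LJ_one (s : ℂ) : LJ 1 s = riemannZeta s := by
  unfold LJ
  rw [dif_neg (by norm_num), DirichletCharacter.LFunction_modOne_eq]

theorem zeta_ne_zero_of_GRHJ (hG : GRHJ) {s : ℂ} (hs : 1 / 2 < s.re) (hs1 : s.re < 1) :
    riemannZeta s ≠ 0 := by
  intro h0
  have h1 := hG 1 (by decide) squarefree_one s
  rw [LJ_one s] at h1
  have := h1 h0 (by linarith) hs1
  linarith

theorem LJ_fun_eq {n : ℕ} [h : NeZero n] : LJ n = DirichletCharacter.LFunction (jchi n) := by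
  funext s
  unfold LJ
  rw [dif_neg h.out]

end Pool.Agent.Helper368_LD
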