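import Pool.Agent.Helper368_LD.RepInt
import Pool.Agent.Helper368_LD.MainTwo
import Pool.Agent.Helper368_LD.Decomp

/-!
# Summation over the family against smooth weights
-/

set_option autoImplicit false

namespace Pool.Agent.Helper368_LD

open Complex MeasureTheory Set Filter Topology
open scoped ContDiff Real
open Pool.Agent.H491R3.J

variable {a b c d : ℝ} {f g h : ℝ → ℂ}

/-- the sum over the odd squarefree integers in `[3, X]` -/
noncomputable def A1 (X : ℝ) (r : ℂ) : ℂ := ∑ l ∈ SS X, deriv (LJ l) (1 / 2 + r) / LJ l (1 / 2 + r)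

/-- the transform of the weight -/
noncomputable def qf (f h : ℝ → ℂ) (r : ℂ) (ξ : ℝ) : ℂ := mellin (fun u => f (ξ / u) * h u) r

theorem qf_hasDerivAt (hc : 0 < c) (hf : TF a b f) (hh : TF c d h) (r : ℂ) (ξ : ℝ) :
    HasDerivAt (qf f h r) (qf (deriv f) (fun u => (u : ℂ)⁻¹ * h u) r ξ) ξ :=
  conv_hasDerivAt hc hf hh r ξ

theorem qf_contDiff (hc : 0 < c) (r : ℂ) (n : ℕ) : ∀ {f h : ℝ → ℂ}, TF a b f → TF c d h →
    ContDiff ℝ n (qf f h r) := by
  induction n with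
  | zero =>
    intro f h hf hh
    rw [Nat.cast_zero, contDiff_zero]
    exact continuous_iff_continuousAt.2 fun ξ => (qf_hasDerivAt hc hf hh r ξ).continuousAt
  | succ n ih =>
    intro f h hf hh
    have e : ((n + 1 : ℕ) : WithTop ℕ∞) = (n : WithTop ℕ∞) + 1 := by push_cast; rfl
    rw [e, contDiff_succ_iff_deriv]
    refine ⟨fun ξ => (qf_hasDerivAt hc hf hh r ξ).differentiableAt, ?_, ?_⟩
    · intro h1
      simp at h1
    · have h1 : deriv (qf f h r) = qf (deriv f) (fun u => (u : ℂ)⁻¹ * h u) r :=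
        funext fun ξ => (qf_hasDerivAt hc hf hh r ξ).deriv
      rw [h1]
      exact ih hf.deriv (hh.divv hc)

theorem TF_qf (ha : 0 < a) (hc : 0 < c) (hf : TF a b f) (hh : TF c d h) (r : ℂ) :
    TF (a * c) (b * d) (qf f h r) where
  smooth := contDiff_infty.2 fun n => qf_contDiff hc r n hf hh
  supp := fun _ hξ => conv_zero ha hc hf hh hξ r

theorem mellin_qf (ha : 0 < a) (hc : 0 < c) (hf : TF a b f) (hh : TF c d h) (e r : ℂ) :
    mellin (qf f h r) (1 - e) = mellin f (1 - e) * mellin h (r + 1 - e) := by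
  rw [mellin_eq_Icc (mul_pos ha hc) (TF_qf ha hc hf hh r), ← conv_mellin ha hc hf hh e r]
  apply setIntegral_congr_fun measurableSet_Icc
  intro ξ _
  simp only [qf]
  congr 2
  ring

theorem mellin_scale_zero {q : ℝ → ℂ} {s : ℂ} {L : ℝ} (hL : 0 < L) (hq : mellin q s = 0) :
    mellin (fun t => q (t / L)) s = 0 := by
  have h1 := mellin_comp_mul_left q s (inv_pos.2 hL)
  rw [hq, smul_zero] at h1
  have e : (fun t : ℝ => q (t / L)) = fun t => q (L⁻¹ * t) := by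
    funext t
    rw [div_eq_inv_mul]
  rw [e, h1]

theorem sum_SS_zero (w : ℕ → ℂ) (t : ℝ) : ∑ k ∈ Finset.Icc 0 ⌊t⌋₊,
    (if k ≠ 1 ∧ Odd k ∧ Squarefree k then w k else 0) = ∑ l ∈ SS t, w l := by
  rw [← Finset.sum_filter]
  apply Finset.sum_congr _ (fun _ _ => rfl)
  ext k
  rw [Finset.mem_filter, Finset.mem_Icc, mem_SS]
  constructor
  · rintro ⟨⟨_, h1⟩, h2, h3, h4⟩
    refine ⟨h2, ⟨?_, h1⟩, h3, h4⟩
    rcases Nat.eq_zero_or_pos k with h | h
    · subst h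
      exact absurd h3 (by decide)
    · exact h
  · rintro ⟨h2, ⟨_, h1⟩, h3, h4⟩
    exact ⟨⟨Nat.zero_le _, h1⟩, h2, h3, h4⟩

theorem sum_SS_abel {Q : ℝ → ℂ} (hQ : TF a b Q) {Y : ℝ} (hY0 : 0 ≤ Y) (hY : b < Y) (w : ℕ → ℂ) :
    ∑ l ∈ SS Y, w l * Q l = -∫ t in Ioc 0 Y, deriv Q t * ∑ l ∈ SS t, w l := by
  have h1 := abel_TF hQ hY0 hY (fun k => if k ≠ 1 ∧ Odd k ∧ Squarefree k then w k else 0)
  simp only [sum_SS_zero] at h1
  rw [← h1, ← sum_SS_zero]
  apply Finset.sum_congr rfl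
  intro k _
  split_ifs
  · ring
  · rw [mul_zero]

theorem main_vanish {Q : ℝ → ℂ} (ha : 0 < a) (hab : a ≤ b) (hQ : TF a b Q) {Y : ℝ} (hY : b < Y) {r : ℂ}
    (h1 : mellin Q 1 = 0) (h2 : mellin Q (1 - r) = 0) (α β : ℂ) :
    IntegrableOn (fun t : ℝ => deriv Q t * ((t : ℂ) * α - (t : ℂ) ^ (1 - r) * β)) (Ioc 0 Y) ∧
    ∫ t in Ioc 0 Y, deriv Q t * ((t : ℂ) * α - (t : ℂ) ^ (1 - r) * β) = 0 := by
  have hP := hQ.deriv.vmul ha
  have e1 := mellin_byparts ha hab hQ 1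
  have e2 := mellin_byparts ha hab hQ (1 - r)
  rw [h1, mul_zero] at e1
  rw [h2, mul_zero] at e2
  have i1 := hP.mellinConvergent ha 1
  have i2 := hP.mellinConvergent ha (1 - r)
  unfold MellinConvergent at i1 i2
  unfold mellin at e1 e2
  have e3 : ∀ t ∈ Ioi (0 : ℝ), deriv Q t * ((t : ℂ) * α - (t : ℂ) ^ (1 - r) * β) =
      α * ((t : ℂ) ^ ((1 : ℂ) - 1) • ((t : ℂ) * deriv Q t)) -
      β * ((t : ℂ) ^ ((1 - r) - 1) • ((t : ℂ) * deriv Q t)) := by
    intro t ht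
    have ht0 : (t : ℂ) ≠ 0 := by
      have : (0 : ℝ) < t := ht
      exact_mod_cast this.ne'
    rw [smul_eq_mul, smul_eq_mul, sub_self, Complex.cpow_zero, Complex.cpow_sub _ 1 ht0, cpow_one]
    field_simp
  have i3 : IntegrableOn (fun t : ℝ => deriv Q t * ((t : ℂ) * α - (t : ℂ) ^ (1 - r) * β)) (Ioi 0) := by
    apply IntegrableOn.congr_fun _ (fun t ht => (e3 t ht).symm) measurableSet_Ioi
    exact (i1.const_mul α).sub (i2.const_mul β)
  refine ⟨i3.mono_set (fun t ht => ht.1), ?_⟩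
  have e4 : ∫ t in Ioi (0 : ℝ), deriv Q t * ((t : ℂ) * α - (t : ℂ) ^ (1 - r) * β) =
      ∫ t in Ioc 0 Y, deriv Q t * ((t : ℂ) * α - (t : ℂ) ^ (1 - r) * β) := by
    apply setIntegral_eq_of_subset_of_forall_sdiff_eq_zero measurableSet_Ioi
    · intro t ht; exact ht.1
    · intro t ht
      have h1 : Y < t := by
        by_contra h3
        exact ht.2 ⟨ht.1, not_lt.1 h3⟩
      rw [hQ.deriv.supp t (fun h => by linarith [h.2]), zero_mul]
  rw [← e4, setIntegral_congr_fun measurableSet_Ioi e3, integral_sub (i1.const_mul α)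
    (i2.const_mul β), integral_const_mul, integral_const_mul, e1, e2]
  ring

theorem Main1_lin (X : ℝ) (r : ℂ) : Main1 X r = (X : ℂ) * Main1 1 r := by
  unfold Main1
  push_cast
  ring

theorem Main2_lin (X : ℝ) (r : ℂ) : Main2 X r = (X : ℂ) ^ (1 - r) * Main2 1 r := by
  unfold Main2
  rw [ofReal_one, Complex.one_cpow]
  ring

theorem A1_measurable (r : ℂ) : Measurable fun x : ℝ => A1 x r := by
  have h1 : (fun x : ℝ => A1 x r) = (fun n : ℕ => A1 (n : ℝ) r) ∘ (fun x : ℝ => ⌊x⌋₊) := by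
    funext x
    simp only [Function.comp, A1, SS, Nat.floor_natCast]
  rw [h1]
  exact (Measurable.of_discrete).comp Nat.measurable_floor

theorem A1_bound {x Y : ℝ} (hx : x ≤ Y) (r : ℂ) :
    ‖A1 x r‖ ≤ ∑ l ∈ SS Y, ‖deriv (LJ l) (1 / 2 + r) / LJ l (1 / 2 + r)‖ := by
  refine (norm_sum_le _ _).trans (Finset.sum_le_sum_of_subset_of_nonneg ?_ (fun _ _ _ => norm_nonneg _))
  intro l hl
  rw [mem_SS] at hl ⊢
  exact ⟨hl.1, ⟨hl.2.1.1, hl.2.1.2.trans (Nat.floor_mono hx)⟩, hl.2.2⟩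

/-- the sum over the family for one value of the parameter -/
theorem lsum_point {Q : ℝ → ℂ} (ha : 0 < a) (hab : a ≤ b) (hQ : TF a b Q) {Y : ℝ} (hY : b < Y) {r : ℂ}
    (h1 : mellin Q 1 = 0) (h2 : mellin Q (1 - r) = 0) {E e D : ℝ} (hE0 : 0 ≤ E) (he : 0 ≤ e)
    (hE : ∀ x : ℝ, 0 < x → ‖A1 x r - (Main1 x r - Main2 x r)‖ ≤ E * x ^ e)
    (hD : ∀ t, ‖deriv Q t‖ ≤ D) :
    ‖∑ l ∈ SS Y, (-(deriv (LJ l) (1 / 2 + r) / LJ l (1 / 2 + r))) * Q l‖ ≤ D * (E * b ^ e) * b := by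
  have hY0 : 0 ≤ Y := by linarith
  have hb0 : 0 < b := by linarith
  have hD0 : 0 ≤ D := (norm_nonneg _).trans (hD 0)
  rw [sum_SS_abel hQ hY0 hY]
  obtain ⟨m1, m2⟩ := main_vanish ha hab hQ hY h1 h2 (Main1 1 r) (Main2 1 r)
  have hA : IntegrableOn (fun t : ℝ => deriv Q t * A1 t r) (Ioc 0 Y) := by
    refine Integrable.bdd_mul (c := D) ?_ hQ.deriv.cont.aestronglyMeasurable ?_
    · refine Measure.integrableOn_of_bounded (M := ∑ l ∈ SS Y, ‖deriv (LJ l) (1 / 2 + r) /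
        LJ l (1 / 2 + r)‖) ?_ (A1_measurable r).aestronglyMeasurable ?_
      · simp
      · refine (ae_restrict_iff' measurableSet_Ioc).2 (Eventually.of_forall ?_)
        intro t ht
        exact A1_bound ht.2 r
    · exact Eventually.of_forall hD
  have e1 : -∫ t in Ioc 0 Y, deriv Q t * ∑ l ∈ SS t, (-(deriv (LJ l) (1 / 2 + r) /
      LJ l (1 / 2 + r))) = ∫ t in Ioc 0 Y, deriv Q t * (A1 t r - (Main1 t r - Main2 t r)) := by
    have e2 : ∫ t in Ioc 0 Y, deriv Q t * (A1 t r - (Main1 t r - Main2 t r)) =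
        (∫ t in Ioc 0 Y, deriv Q t * A1 t r) -
          ∫ t in Ioc 0 Y, deriv Q t * ((t : ℂ) * Main1 1 r - (t : ℂ) ^ (1 - r) * Main2 1 r) := by
      rw [← integral_sub hA m1]
      apply setIntegral_congr_fun measurableSet_Ioc
      intro t _
      simp only
      rw [Main1_lin t, Main2_lin t]
      ring
    rw [e2, m2, sub_zero, ← integral_neg]
    apply setIntegral_congr_fun measurableSet_Ioc
    intro t _
    simp only [A1]
    rw [Finset.sum_neg_distrib]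
    ring
  rw [e1]
  have e3 : ∫ t in Ioc 0 Y, deriv Q t * (A1 t r - (Main1 t r - Main2 t r)) =
      ∫ t in Ioc 0 b, deriv Q t * (A1 t r - (Main1 t r - Main2 t r)) := by
    apply setIntegral_eq_of_subset_of_forall_sdiff_eq_zero measurableSet_Ioc
    · intro t ht; exact ⟨ht.1, ht.2.trans hY.le⟩
    · intro t ht
      have h1 : b < t := by
        by_contra h3
        exact ht.2 ⟨ht.1.1, not_lt.1 h3⟩
      rw [hQ.deriv.supp t (fun h => by linarith [h.2]), zero_mul]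
  rw [e3]
  have h3 : ∀ t ∈ Ioc 0 b, ‖deriv Q t * (A1 t r - (Main1 t r - Main2 t r))‖ ≤ D * (E * b ^ e) := by
    intro t ht
    rw [norm_mul]
    apply mul_le_mul (hD t) _ (norm_nonneg _) hD0
    refine (hE t ht.1).trans ?_
    apply mul_le_mul_of_nonneg_left _ hE0
    exact Real.rpow_le_rpow ht.1.le ht.2 he
  have h4 := norm_setIntegral_le_of_norm_le_const (μ := volume) (by simp) h3
  simpa [hb0.le] using h4

end Pool.Agent.Helper368_LD
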