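import Pool.Agent.Helper368_LD.LSum

/-!
# Summation over the family against smooth weights in two variables
-/

set_option autoImplicit false

namespace Pool.Agent.Helper368_LD

open Complex MeasureTheory Set Filter Topology
open scoped ContDiff Real ArithmeticFunction.vonMangoldt
open Pool.Agent.H491R3.J

variable {a b c d : ℝ} {f g h : ℝ → ℂ}

theorem log_five_lin (t : ℝ) : Real.log (|t| + 5) ≤ 4 * (1 + |t|) := by
  have h1 : 0 ≤ |t| := abs_nonneg t
  have h2 := Real.log_le_sub_one_of_pos (by positivity : 0 < |t| + 5)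
  linarith

theorem rep_integrable {g : ℕ → ℂ} {G : ℂ → ℂ} {B : ℝ} (h : Hyp g 0 G (1 / 2) B) {σ : ℝ}
    (hσ0 : 0 < σ) (hσ1 : σ ≤ 1) {K : ℝ → ℂ} (hc : 0 < c) (hK : TF c d K) {C : ℝ}
    (hC : ∀ t : ℝ, ‖mellin K ((σ : ℂ) + t * I)‖ ≤ C * (1 + |t|) ^ (-3 : ℝ)) {M : ℝ} (hM0 : 0 < M) :
    Integrable (fun t : ℝ => G (1 / 2 + ((σ : ℂ) + t * I)) * (M : ℂ) ^ ((σ : ℂ) + t * I) *
        mellin K ((σ : ℂ) + t * I)) := by
  have hMc : (M : ℂ) ≠ 0 := by exact_mod_cast hM0.ne'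
  have hre : ∀ t : ℝ, ((1 / 2 : ℂ) + ((σ : ℂ) + t * I)).re = 1 / 2 + σ := fun t => by simp
  have him : ∀ t : ℝ, ((1 / 2 : ℂ) + ((σ : ℂ) + t * I)).im = t := fun t => by simp
  have hcont : Continuous (fun t : ℝ => G (1 / 2 + ((σ : ℂ) + t * I)) * (M : ℂ) ^ ((σ : ℂ) + t * I) *
        mellin K ((σ : ℂ) + t * I)) := by
    apply Continuous.mul
    · apply Continuous.mul
      · rw [continuous_iff_continuousAt]
        intro t
        have h1 : DifferentiableAt ℂ G (1 / 2 + ((σ : ℂ) + t * I)) := h.hGd _ (by rw [hre]; linarith)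
        have h2 : ContinuousAt (fun t : ℝ => (1 / 2 : ℂ) + ((σ : ℂ) + t * I)) t := by fun_prop
        exact ContinuousAt.comp (g := G) (f := fun t : ℝ => (1 / 2 : ℂ) + ((σ : ℂ) + t * I))
          h1.continuousAt h2
      · apply Continuous.const_cpow (by fun_prop)
        left
        exact hMc
    · exact (mellin_differentiable hc hK).continuous.comp (by fun_prop)
  refine Integrable.mono' ((integrable_one_add_abs (p := 2) (by norm_num)).const_mul
      (B / σ ^ 2 * 4 * M ^ σ * C)) hcont.aestronglyMeasurable (Eventually.of_forall ?_)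
  intro t
  have h1 := h.hB σ hσ0 hσ1 (1 / 2 + ((σ : ℂ) + t * I)) (by rw [hre]) (by rw [hre]; linarith)
  rw [him] at h1
  have h2 := log_five_lin t
  have hB0 := h.hB0
  have h3 : 0 < 1 + |t| := by positivity
  have h4 : ‖(M : ℂ) ^ ((σ : ℂ) + t * I)‖ = M ^ σ := by
    rw [norm_cpow_eq_rpow_re_of_pos hM0]
    congr 1
    simp
  rw [norm_mul, norm_mul, h4]
  have h5 : 0 ≤ M ^ σ := Real.rpow_nonneg hM0.le _
  calc _ ≤ (B / σ ^ 2 * (4 * (1 + |t|))) * M ^ σ * (C * (1 + |t|) ^ (-3 : ℝ)) := by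
        gcongr
        · refine h1.trans ?_
          gcongr
        · exact hC t
    _ = B / σ ^ 2 * 4 * M ^ σ * C * ((1 + |t|) ^ (-3 : ℝ) * (1 + |t|)) := by ring
    _ = _ := by
        rw [← Real.rpow_add_one h3.ne']
        norm_num

theorem decay_rpow {C : ℝ} {N : ℕ} {z : ℂ} {t : ℝ} (h : ‖z‖ * (1 + |t|) ^ N ≤ C) :
    ‖z‖ ≤ C * (1 + |t|) ^ (-(N : ℝ)) := by
  have h3 : 0 < 1 + |t| := by positivity
  rw [Real.rpow_neg h3.le, Real.rpow_natCast, ← div_eq_mul_inv, le_div_iff₀ (by positivity)]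
  exact h

/-- the sum over the prime powers for one member of the family -/
noncomputable def Sl (f h : ℝ → ℂ) (N : ℕ) (M θ : ℝ) (l : ℕ) : ℂ :=
  ∑ m ∈ Finset.Icc 1 N, ((Λ m : ℝ) : ℂ) * ((jacobiSym (m : ℤ) l : ℤ) : ℂ) *
    (rh m * (f (θ * l / m) * h (m / M)))

theorem Sl_rep (hG : GRHJ) {σ : ℝ} (hσ0 : 0 < σ) (hσ1 : σ ≤ 1) (ha : 0 < a) (hc : 0 < c) (hcd : c ≤ d)
    (hf : TF a b f) (hh : TF c d h) {M θ : ℝ} (hM0 : 0 < M) {N : ℕ} (hN : d * M < N)
    {Y : ℝ} {l : ℕ} (hl : l ∈ SS Y) :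
    Integrable (fun t : ℝ => (-(deriv (LJ l) (1 / 2 + ((σ : ℂ) + t * I)) /
      LJ l (1 / 2 + ((σ : ℂ) + t * I)))) * (M : ℂ) ^ ((σ : ℂ) + t * I) *
        qf f h ((σ : ℂ) + t * I) (θ * l / M)) ∧
    Sl f h N M θ l = (1 / (2 * π)) • ∫ t : ℝ, (-(deriv (LJ l) (1 / 2 + ((σ : ℂ) + t * I)) /
      LJ l (1 / 2 + ((σ : ℂ) + t * I)))) * (M : ℂ) ^ ((σ : ℂ) + t * I) *
        qf f h ((σ : ℂ) + t * I) (θ * l / M) := by
  have hnsq := not_isSquare_of_SS hl
  rw [mem_SS] at hl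
  have hne : NeZero l := ⟨by omega⟩
  have hyp := jchi_hyp hG hl.2.2.1 hnsq
  obtain ⟨C, hC0, hC⟩ := conv_decay ha hc hcd 3 hf hh
  have hK := hf.conv hc hh (θ * l / M)
  have hdec : ∀ t : ℝ, ‖mellin (fun u => f (θ * l / M / u) * h u) ((σ : ℂ) + t * I)‖ ≤
      C * (1 + |t|) ^ (-3 : ℝ) := by
    intro t
    have h1 := hC (θ * l / M) ((σ : ℂ) + t * I) (by simpa using hσ0.le) (by simpa using hσ1)
    have him : ((σ : ℂ) + t * I).im = t := by simp
    rw [him] at h1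
    have := decay_rpow h1
    exact_mod_cast this
  have e1 : ∀ s : ℂ, -deriv (DirichletCharacter.LFunction (jchi l)) s /
      DirichletCharacter.LFunction (jchi l) s = -(deriv (LJ l) s / LJ l s) := by
    intro s
    rw [LJ_fun_eq]
    ring
  have i1 := rep_integrable hyp hσ0 hσ1 hc hK hdec hM0
  have r1 := rep hyp (by linarith : (1 / 2 : ℝ) < 1 / 2 + σ) hσ0.le hc hcd hK hdec hM0 hN
  simp only [e1] at i1 r1
  refine ⟨i1, ?_⟩
  unfold qf
  rw [← r1]
  unfold Sl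
  apply Finset.sum_congr rfl
  intro m hm
  rw [Finset.mem_Icc] at hm
  have hm0 : (m : ℝ) ≠ 0 := by
    have : m ≠ 0 := by omega
    exact_mod_cast this
  have e2 : θ * l / M / (m / M) = θ * l / m := by field_simp
  rw [e2]
  unfold gch
  rw [jchi_natCast]
  ring

/-- the sum over the family -/
theorem lsum_total (hG : GRHJ) {σ : ℝ} (hσ0 : 0 < σ) (hσ1 : σ ≤ 1) (ha : 0 < a) (hab : a ≤ b)
    (hc : 0 < c) (hcd : c ≤ d) (hf : TF a b f) (hh : TF c d h) (hf1 : mellin f 1 = 0)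
    (hh1 : mellin h 1 = 0) {E e : ℝ} {n : ℕ} (hE0 : 0 ≤ E) (he : 0 ≤ e)
    (hE : ∀ x t : ℝ, 0 < x → ‖A1 x ((σ : ℂ) + t * I) - (Main1 x ((σ : ℂ) + t * I) -
      Main2 x ((σ : ℂ) + t * I))‖ ≤ E * (1 + |t|) ^ n * x ^ e) :
    ∃ C' : ℝ, 0 ≤ C' ∧ ∀ (M θ Y : ℝ) (N : ℕ), 0 < M → 0 < θ → b * d * (M / θ) < Y → d * M < N →
      ‖∑ l ∈ SS Y, Sl f h N M θ l‖ ≤ C' * (M ^ σ * (M / θ) ^ e) := by
  obtain ⟨CN, hCN0, hCN⟩ := conv_decay ha hc hcd (n + 2) hf.deriv (hh.divv hc)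
  have hb : 0 < b := by linarith
  have hd : 0 < d := by linarith
  set I2 : ℝ := ∫ t : ℝ, (1 + |t|) ^ (-2 : ℝ) with hI2
  refine ⟨(1 / (2 * π)) * (CN * E * (b * d) ^ e * (b * d) * |I2|), by positivity, ?_⟩
  intro M θ Y N hM hθ hY hN
  have hL : 0 < M / θ := div_pos hM hθ
  set L := M / θ with hLd
  have e1 : ∑ l ∈ SS Y, Sl f h N M θ l = (1 / (2 * π)) • ∫ t : ℝ, (M : ℂ) ^ ((σ : ℂ) + t * I) *
      ∑ l ∈ SS Y, (-(deriv (LJ l) (1 / 2 + ((σ : ℂ) + t * I)) / LJ l (1 / 2 + ((σ : ℂ) + t * I)))) *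
        qf f h ((σ : ℂ) + t * I) (l / L) := by
    rw [Finset.sum_congr rfl (fun l hl => (Sl_rep hG hσ0 hσ1 ha hc hcd hf hh hM hN hl).2),
      ← Finset.smul_sum, ← integral_finsetSum _ (fun l hl =>
        (Sl_rep hG hσ0 hσ1 ha hc hcd hf hh hM hN hl).1)]
    congr 1
    apply integral_congr_ae
    apply Eventually.of_forall
    intro t
    simp only
    rw [Finset.mul_sum]
    apply Finset.sum_congr rfl
    intro l _
    have e2 : θ * l / M = l / L := by
      rw [hLd]; field_simp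
    rw [e2]
    ring
  rw [e1, norm_smul]
  have hpi : ‖(1 / (2 * π) : ℝ)‖ = 1 / (2 * π) := Real.norm_of_nonneg (by positivity)
  rw [hpi, mul_assoc]
  apply mul_le_mul_of_nonneg_left _ (by positivity)
  have hpt : ∀ t : ℝ, ‖(M : ℂ) ^ ((σ : ℂ) + t * I) *
      ∑ l ∈ SS Y, (-(deriv (LJ l) (1 / 2 + ((σ : ℂ) + t * I)) / LJ l (1 / 2 + ((σ : ℂ) + t * I)))) *
        qf f h ((σ : ℂ) + t * I) (l / L)‖ ≤ (CN * E * (b * d) ^ e * (b * d) * (M ^ σ * L ^ e)) *
          (1 + |t|) ^ (-2 : ℝ) := by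
    intro t
    set r : ℂ := (σ : ℂ) + t * I with hr
    have hrre : r.re = σ := by simp [hr]
    have hrim : r.im = t := by simp [hr]
    have hq := TF_qf ha hc hf hh r
    have hQ := hq.scale hL
    have z1 : mellin (qf f h r) 1 = 0 := by
      have := mellin_qf ha hc hf hh 0 r
      rw [sub_zero, hf1, zero_mul] at this
      exact this
    have z2 : mellin (qf f h r) (1 - r) = 0 := by
      have := mellin_qf ha hc hf hh r r
      have e3 : r + 1 - r = 1 := by ring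
      rw [e3, hh1, mul_zero] at this
      exact this
    have hder : ∀ x, deriv (fun x : ℝ => qf f h r (x / L)) x =
        ((1 / L : ℝ) : ℂ) * qf (deriv f) (fun u => (u : ℂ)⁻¹ * h u) r (x / L) := by
      intro x
      have h1 : HasDerivAt (fun x : ℝ => x / L) (1 / L) x := (hasDerivAt_id x).div_const L
      have h2 := HasDerivAt.scomp x (qf_hasDerivAt hc hf hh r (x / L)) h1
      have h3 : deriv (fun x : ℝ => qf f h r (x / L)) x =
          (1 / L : ℝ) • qf (deriv f) (fun u => (u : ℂ)⁻¹ * h u) r (x / L) := h2.deriv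
      rw [h3, Complex.real_smul]
    have hD : ∀ x, ‖deriv (fun x : ℝ => qf f h r (x / L)) x‖ ≤
        (1 / L) * (CN * (1 + |t|) ^ (-((n + 2 : ℕ) : ℝ))) := by
      intro x
      rw [hder x, norm_mul, norm_real, Real.norm_of_nonneg (by positivity)]
      apply mul_le_mul_of_nonneg_left _ (by positivity)
      have h1 := hCN (x / L) r (by rw [hrre]; exact hσ0.le) (by rw [hrre]; exact hσ1)
      rw [hrim] at h1
      exact decay_rpow h1
    have h3 : 0 < 1 + |t| := by positivity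
    have key := lsum_point (a := a * c * L) (b := b * d * L) (by positivity)
      (by
        have : a * c ≤ b * d := mul_le_mul hab hcd hc.le hb.le
        exact mul_le_mul_of_nonneg_right this hL.le) hQ hY
      (mellin_scale_zero hL z1) (mellin_scale_zero hL z2) (E := E * (1 + |t|) ^ n) (e := e)
      (by positivity) he (fun x hx => hE x t hx) hD
    rw [norm_mul, norm_cpow_eq_rpow_re_of_pos hM, hrre]
    refine (mul_le_mul_of_nonneg_left key (Real.rpow_nonneg hM.le _)).trans (le_of_eq ?_)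
    rw [Real.mul_rpow (by positivity) hL.le]
    have e4 : (1 + |t|) ^ (-((n + 2 : ℕ) : ℝ)) * (1 + |t|) ^ n = (1 + |t|) ^ (-2 : ℝ) := by
      rw [← Real.rpow_natCast (1 + |t|) n, ← Real.rpow_add h3]
      congr 1
      push_cast
      ring
    rw [← e4]
    field_simp
  refine (norm_integral_le_of_norm_le ((integrable_one_add_abs (p := 2) (by norm_num)).const_mul
    (CN * E * (b * d) ^ e * (b * d) * (M ^ σ * L ^ e))) (Eventually.of_forall hpt)).trans ?_
  rw [integral_const_mul, ← hI2]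
  have h5 : I2 ≤ |I2| := le_abs_self _
  have h6 : 0 ≤ CN * E * (b * d) ^ e * (b * d) * (M ^ σ * L ^ e) := by positivity
  calc _ ≤ CN * E * (b * d) ^ e * (b * d) * (M ^ σ * L ^ e) * |I2| :=
        mul_le_mul_of_nonneg_left h5 h6
    _ = _ := by ring

end Pool.Agent.Helper368_LD
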