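import Pool.Agent.Helper368_LD.Count
import Pool.Agent.Helper368_LD.Kchi

/-!
# The contribution of the squares
-/

set_option autoImplicit false

namespace Pool.Agent.Helper368_LD

open Complex Filter Topology
open scoped Real ArithmeticFunction.vonMangoldt

/-- the sum over the odd primes in the first main term, as a function of `z = 1 + 2r` -/
noncomputable def Sz (z : ℂ) : ℂ := ∑' p : Nat.Primes, if (p : ℕ) = 2 then 0 else
  ((Real.log (p : ℕ) : ℝ) : ℂ) / ((((p : ℕ) : ℂ) + 1) * (((p : ℕ) : ℂ) ^ z - 1))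

/-- `Λ(l) (1 - w(p))` for `l` a power of `p` -/
noncomputable def gv (l : ℕ) : ℂ := ((Λ l * (1 - wp l.minFac) : ℝ) : ℂ)

/-- `Λ(l) w(p)` for `l` a power of `p` -/
noncomputable def gw (l : ℕ) : ℂ := ((Λ l * wp l.minFac : ℝ) : ℂ)

theorem wp_bounds (p : ℕ) : 0 ≤ wp p ∧ wp p ≤ 1 := by
  unfold wp
  split_ifs
  · norm_num
  · have h : (0 : ℝ) ≤ p := Nat.cast_nonneg p
    constructor
    · positivity
    · rw [div_le_one (by linarith)]
      linarith

theorem one_sub_wp (p : ℕ) : 1 - wp p = if p = 2 then 0 else 1 / ((p : ℝ) + 1) := by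
  unfold wp
  split_ifs
  · norm_num
  · have h : (0 : ℝ) ≤ p := Nat.cast_nonneg p
    field_simp
    ring

theorem gv_norm (l : ℕ) : ‖gv l‖ ≤ Λ l := by
  unfold gv
  obtain ⟨h1, h2⟩ := wp_bounds l.minFac
  have h3 : 0 ≤ Λ l := ArithmeticFunction.vonMangoldt_nonneg
  rw [norm_real, Real.norm_of_nonneg (mul_nonneg h3 (by linarith))]
  nlinarith

theorem gw_norm (l : ℕ) : ‖gw l‖ ≤ Λ l := by
  unfold gw
  obtain ⟨h1, h2⟩ := wp_bounds l.minFac
  have h3 : 0 ≤ Λ l := ArithmeticFunction.vonMangoldt_nonneg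
  rw [norm_real, Real.norm_of_nonneg (mul_nonneg h3 (by linarith))]
  nlinarith

theorem summable_of_le_vM {g : ℕ → ℂ} (hg : ∀ m, ‖g m‖ ≤ Λ m) {s : ℂ}
    (hs : 1 < s.re) : LSeriesSummable g s := by
  have h := ArithmeticFunction.LSeriesSummable_vonMangoldt hs
  unfold LSeriesSummable at h ⊢
  refine Summable.of_norm_bounded h.norm (fun m => ?_)
  apply LSeries.norm_term_le
  refine (hg m).trans (le_of_eq ?_)
  rw [norm_real, Real.norm_of_nonneg ArithmeticFunction.vonMangoldt_nonneg]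

theorem natCast_pow_cpow (m k : ℕ) (z : ℂ) : ((m ^ k : ℕ) : ℂ) ^ z = ((m : ℂ) ^ z) ^ k := by
  induction k with
  | zero => simp
  | succ k ih =>
    rw [pow_succ, pow_succ, Nat.cast_mul, Complex.natCast_mul_natCast_cpow, ih]

theorem gv_LSeries {z : ℂ} (hz : 1 < z.re) : LSeries gv z = Sz z := by
  have hsum : LSeriesSummable gv z := summable_of_le_vM gv_norm hz
  unfold LSeries
  have hsupp : Function.support (LSeries.term gv z) ⊆ {n : ℕ | IsPrimePow n} := by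
    intro n hn
    by_contra hnp
    apply hn
    rcases Nat.eq_zero_or_pos n with rfl | h
    · simp
    · rw [LSeries.term_of_ne_zero h.ne']
      have : Λ n = 0 := ArithmeticFunction.vonMangoldt_eq_zero_iff.2 hnp
      unfold gv
      rw [this]
      simp
  rw [← tsum_subtype_eq_of_support_subset hsupp]
  have h1 : ∑' x : {n : ℕ | IsPrimePow n}, LSeries.term gv z x =
      ∑' pk : Nat.Primes × ℕ, LSeries.term gv z ((pk.1 : ℕ) ^ (pk.2 + 1)) := by
    exact (Nat.Primes.prodNatEquiv.tsum_eq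
      (fun x : {n : ℕ // IsPrimePow n} => LSeries.term gv z x)).symm
  rw [h1]
  have hinj : Function.Injective (fun pk : Nat.Primes × ℕ => ((pk.1 : ℕ) ^ (pk.2 + 1))) := by
    intro a b hab
    apply Nat.Primes.prodNatEquiv.injective
    apply Subtype.ext
    exact hab
  have hs2 : Summable (fun pk : Nat.Primes × ℕ => LSeries.term gv z ((pk.1 : ℕ) ^ (pk.2 + 1))) :=
    hsum.comp_injective hinj
  rw [hs2.tsum_prod]
  unfold Sz
  apply tsum_congr
  intro p
  have hp : (p : ℕ).Prime := p.2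
  have hp0 : ((p : ℕ) : ℂ) ≠ 0 := by exact_mod_cast hp.ne_zero
  have hpz : ((p : ℕ) : ℂ) ^ z ≠ 0 := by
    rw [Complex.cpow_def_of_ne_zero hp0]; exact exp_ne_zero _
  have hterm : ∀ k : ℕ, LSeries.term gv z ((p : ℕ) ^ (k + 1)) =
      ((Real.log (p : ℕ) * (1 - wp (p : ℕ)) : ℝ) : ℂ) * (((p : ℕ) : ℂ) ^ z)⁻¹ *
        ((((p : ℕ) : ℂ) ^ z)⁻¹) ^ k := by
    intro k
    have hpk : (p : ℕ) ^ (k + 1) ≠ 0 := pow_ne_zero _ hp.ne_zero
    rw [LSeries.term_of_ne_zero hpk]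
    unfold gv
    rw [ArithmeticFunction.vonMangoldt_apply_pow (by omega),
      ArithmeticFunction.vonMangoldt_apply_prime hp, Nat.Prime.pow_minFac hp (by omega)]
    rw [natCast_pow_cpow, pow_succ, div_eq_mul_inv, mul_inv, inv_pow]
    ring
  simp_rw [hterm]
  rw [tsum_mul_left]
  have hn : ‖((((p : ℕ) : ℂ) ^ z)⁻¹)‖ < 1 := by
    rw [norm_inv, norm_natCast_cpow_of_pos hp.pos]
    apply inv_lt_one_of_one_lt₀
    apply Real.one_lt_rpow
    · exact_mod_cast hp.one_lt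
    · linarith
  rw [tsum_geometric_of_norm_lt_one hn, one_sub_wp]
  have hpz1 : ((p : ℕ) : ℂ) ^ z - 1 ≠ 0 := by
    intro h0
    rw [sub_eq_zero] at h0
    rw [h0] at hn
    simp at hn
  split_ifs with h2
  · simp
  · push_cast
    have h5 : 1 - (((p : ℕ) : ℂ) ^ z)⁻¹ ≠ 0 := by
      intro h0
      apply hpz1
      field_simp at h0
      rw [h0, mul_zero]
    have hp1 : ((p : ℕ) : ℂ) + 1 ≠ 0 := by
      have : (((p : ℕ) + 1 : ℕ) : ℂ) ≠ 0 := by exact_mod_cast (by omega : (p : ℕ) + 1 ≠ 0)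
      push_cast at this
      exact this
    field_simp

theorem gw_LSeries {z : ℂ} (hz : 1 < z.re) :
    LSeries gw z = -(deriv riemannZeta z / riemannZeta z + Sz z) := by
  have h1 := ArithmeticFunction.LSeries_vonMangoldt_eq_deriv_riemannZeta_div hz
  have h2 : LSeries (fun n => ((Λ n : ℝ) : ℂ)) z = LSeries gw z + LSeries gv z := by
    rw [← LSeries_add (summable_of_le_vM gw_norm hz) (summable_of_le_vM gv_norm hz)]
    congr 1
    funext n
    simp only [Pi.add_apply]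
    unfold gw gv
    push_cast
    ring
  rw [gv_LSeries hz] at h2
  have h3 : LSeries gw z = LSeries (fun n => ((Λ n : ℝ) : ℂ)) z - Sz z := by rw [h2]; ring
  rw [h3, h1]
  ring

theorem vM_term_le {σ : ℝ} (hσ : 0 < σ) {D : ℕ} (hD : 1 ≤ D) (i : ℕ) :
    Λ (D + (i + 1)) * ((D + (i + 1) : ℕ) : ℝ) ^ (-(1 + 2 * σ)) ≤
      (Real.log D + 1 / σ) * (D : ℝ) ^ (-σ) * ((D + (i + 1) : ℕ) : ℝ) ^ (-(1 + σ)) := by
  have hD0 : (0 : ℝ) < D := by exact_mod_cast hD
  set u : ℝ := ((D + (i + 1) : ℕ) : ℝ) with hu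
  have huD : (D : ℝ) ≤ u := by rw [hu]; push_cast; linarith [Nat.cast_nonneg (α := ℝ) i]
  have hu0 : 0 < u := by linarith
  have hq1 : 1 ≤ u / D := by rw [le_div_iff₀ hD0]; linarith
  have h1 : Λ (D + (i + 1)) ≤ Real.log u := ArithmeticFunction.vonMangoldt_le_log
  have h2 : Real.log u ≤ (Real.log D + 1 / σ) * (u / D) ^ σ := by
    have e : u = D * (u / D) := by field_simp
    have h3 : Real.log (u / D) ≤ (u / D) ^ σ / σ := Real.log_le_rpow_div (by positivity) hσ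
    have h4 : 1 ≤ (u / D) ^ σ := Real.one_le_rpow hq1 hσ.le
    have h5 : Real.log u = Real.log D + Real.log (u / D) := by
      rw [← Real.log_mul hD0.ne' (by positivity), ← e]
    have h6 : 0 ≤ Real.log (D : ℝ) := Real.log_nonneg (by exact_mod_cast hD)
    rw [h5]
    have h7 : (u / D) ^ σ / σ = 1 / σ * (u / D) ^ σ := by ring
    rw [h7] at h3
    nlinarith
  have h8 : (u / D) ^ σ = u ^ σ * (D : ℝ) ^ (-σ) := by
    rw [Real.div_rpow hu0.le hD0.le, Real.rpow_neg hD0.le]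
    rfl
  have h9 : 0 ≤ u ^ (-(1 + 2 * σ)) := Real.rpow_nonneg hu0.le _
  calc Λ (D + (i + 1)) * u ^ (-(1 + 2 * σ))
      ≤ ((Real.log D + 1 / σ) * (u / D) ^ σ) * u ^ (-(1 + 2 * σ)) := by
        gcongr
        exact h1.trans h2
    _ = (Real.log D + 1 / σ) * (D : ℝ) ^ (-σ) * (u ^ σ * u ^ (-(1 + 2 * σ))) := by rw [h8]; ring
    _ = _ := by
        rw [← Real.rpow_add hu0]
        congr 2
        ring

theorem vM_tail_range {σ : ℝ} (hσ : 0 < σ) {D : ℕ} (hD : 1 ≤ D) (n : ℕ) :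
    ∑ i ∈ Finset.range n, Λ (D + (i + 1)) * ((D + (i + 1) : ℕ) : ℝ) ^ (-(1 + 2 * σ)) ≤
      (Real.log D + 1 / σ) * (D : ℝ) ^ (-(2 * σ)) / σ := by
  have hD0 : (0 : ℝ) < D := by exact_mod_cast hD
  have h6 : 0 ≤ Real.log (D : ℝ) := Real.log_nonneg (by exact_mod_cast hD)
  refine (Finset.sum_le_sum fun i _ => vM_term_le hσ hD i).trans ?_
  rw [← Finset.mul_sum]
  have h1 := sum_rpow_tail (β := 1 + σ) (by linarith) hD n
  have e1 : (1 : ℝ) - (1 + σ) = -σ := by ring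
  have e2 : (1 : ℝ) + σ - 1 = σ := by ring
  rw [e1, e2] at h1
  calc _ ≤ (Real.log D + 1 / σ) * (D : ℝ) ^ (-σ) * ((D : ℝ) ^ (-σ) / σ) := by gcongr
    _ = (Real.log D + 1 / σ) * ((D : ℝ) ^ (-σ) * (D : ℝ) ^ (-σ)) / σ := by ring
    _ = _ := by
        rw [← Real.rpow_add hD0]
        congr 3
        ring

theorem vM_series_tail {g : ℕ → ℂ} (hg : ∀ m, ‖g m‖ ≤ Λ m) {σ : ℝ} (hσ : 0 < σ) {z : ℂ}
    (hz : z.re = 1 + 2 * σ) {D : ℕ} (hD : 1 ≤ D) :
    ‖LSeries g z - ∑ d ∈ Finset.Icc 1 D, g d * (d : ℂ) ^ (-z)‖ ≤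
      (Real.log D + 1 / σ) * (D : ℝ) ^ (-(2 * σ)) / σ := by
  have hsum : LSeriesSummable g z := summable_of_le_vM hg (by linarith)
  unfold LSeries
  have hsplit := hsum.sum_add_tsum_nat_add (D + 1)
  have h0 : ∑ i ∈ Finset.range (D + 1), LSeries.term g z i =
      ∑ d ∈ Finset.Icc 1 D, g d * (d : ℂ) ^ (-z) := by
    rw [← Finset.sum_subset (s₁ := Finset.Icc 1 D) (s₂ := Finset.range (D + 1))]
    · apply Finset.sum_congr rfl
      intro d hd
      rw [Finset.mem_Icc] at hd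
      rw [LSeries.term_of_ne_zero (by omega), Complex.cpow_neg, div_eq_mul_inv]
    · intro d hd
      rw [Finset.mem_Icc] at hd
      rw [Finset.mem_range]
      omega
    · intro d hd hd2
      rw [Finset.mem_range] at hd
      rw [Finset.mem_Icc] at hd2
      have : d = 0 := by omega
      rw [this, LSeries.term_zero]
  rw [← hsplit, h0, add_sub_cancel_left]
  have hsn : Summable (fun i : ℕ => ‖LSeries.term g z (i + (D + 1))‖) :=
    ((summable_nat_add_iff (D + 1)).2 hsum).norm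
  refine (norm_tsum_le_tsum_norm hsn).trans ?_
  apply Real.tsum_le_of_sum_range_le (fun _ => norm_nonneg _)
  intro n
  refine le_trans (Finset.sum_le_sum ?_) (vM_tail_range hσ hD n)
  intro i _
  rw [LSeries.term_of_ne_zero (by omega), norm_div, norm_natCast_cpow_of_pos (by omega),
    Real.rpow_neg (Nat.cast_nonneg _), show i + (D + 1) = D + (i + 1) by ring, div_eq_mul_inv, hz]
  exact mul_le_mul_of_nonneg_right (hg _) (by positivity)

theorem vM_sum_le {σ : ℝ} (hσ : 0 < σ) (D : ℕ) :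
    ∑ l ∈ Finset.Icc 1 D, Λ l * (l : ℝ) ^ (-(1 + 2 * σ)) ≤ 1 / σ ^ 2 := by
  have h1 := vM_tail_range hσ (le_refl 1) D
  simp only [Nat.cast_one, Real.log_one, zero_add, Real.one_rpow, mul_one] at h1
  have h2 : ∑ l ∈ Finset.Icc 1 D, Λ l * (l : ℝ) ^ (-(1 + 2 * σ)) ≤
      ∑ i ∈ Finset.range D, Λ (1 + (i + 1)) * ((1 + (i + 1) : ℕ) : ℝ) ^ (-(1 + 2 * σ)) := by
    have h3 : ∑ l ∈ Finset.Icc 1 D, Λ l * (l : ℝ) ^ (-(1 + 2 * σ)) ≤
        ∑ l ∈ Finset.Icc 1 (D + 1), Λ l * (l : ℝ) ^ (-(1 + 2 * σ)) := by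
      apply Finset.sum_le_sum_of_subset_of_nonneg
      · intro l hl
        rw [Finset.mem_Icc] at hl ⊢
        omega
      · intro l _ _
        have : 0 ≤ Λ l := ArithmeticFunction.vonMangoldt_nonneg
        positivity
    refine h3.trans (le_of_eq ?_)
    rw [← Finset.sum_subset (s₁ := Finset.Icc 2 (D + 1)) (s₂ := Finset.Icc 1 (D + 1))]
    · symm
      apply Finset.sum_nbij (fun i => 1 + (i + 1))
      · intro i hi
        rw [Finset.mem_range] at hi
        rw [Finset.mem_Icc]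
        omega
      · intro a _ b _ hab
        simp only at hab
        omega
      · intro l hl
        rw [Finset.coe_Icc, Set.mem_Icc] at hl
        refine ⟨l - 2, ?_, ?_⟩
        · rw [Finset.coe_range, Set.mem_Iio]
          omega
        · simp only
          omega
      · intro i _
        rfl
    · intro l hl
      rw [Finset.mem_Icc] at hl ⊢
      omega
    · intro l hl hl2
      rw [Finset.mem_Icc] at hl hl2
      have : l = 1 := by omega
      rw [this]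
      simp
  refine h2.trans (h1.trans (le_of_eq ?_))
  field_simp

/-- the odd squarefree integers in `[3, X]` -/
noncomputable def SS (X : ℝ) : Finset ℕ := ((Finset.Icc 1 ⌊X⌋₊).filter (fun n => Odd n ∧ Squarefree n)).erase 1

theorem mem_SS {X : ℝ} {n : ℕ} : n ∈ SS X ↔ n ≠ 1 ∧ (1 ≤ n ∧ n ≤ ⌊X⌋₊) ∧ Odd n ∧ Squarefree n := by
  unfold SS
  rw [Finset.mem_erase, Finset.mem_filter, Finset.mem_Icc]

theorem card_SS_le {X : ℝ} (hX : 0 ≤ X) : ((SS X).card : ℝ) ≤ X := by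
  have h1 : (SS X).card ≤ ⌊X⌋₊ := by
    unfold SS
    refine (Finset.card_erase_le).trans ((Finset.card_filter_le _ _).trans ?_)
    rw [Nat.card_Icc]
    omega
  exact (by exact_mod_cast h1 : ((SS X).card : ℝ) ≤ (⌊X⌋₊ : ℝ)).trans (Nat.floor_le hX)

/-- the character sum over the family -/
noncomputable def AX (X : ℝ) (m : ℕ) : ℂ := ∑ n ∈ SS X, ((jacobiSym (m : ℤ) n : ℤ) : ℂ)

theorem AX_eq {X : ℝ} (hX : 1 ≤ X) (m : ℕ) : AX X m =
    ∑ n ∈ (Finset.Icc 1 ⌊X⌋₊).filter (fun n => Odd n ∧ Squarefree n),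
      ((jacobiSym (m : ℤ) n : ℤ) : ℂ) - 1 := by
  unfold AX SS
  rw [Finset.sum_erase_eq_sub]
  · simp
  · rw [Finset.mem_filter, Finset.mem_Icc]
    exact ⟨⟨le_rfl, Nat.le_floor (by simpa using hX)⟩, odd_one, squarefree_one⟩

theorem jac_sq_primePow {l : ℕ} (hl : IsPrimePow l) {n : ℕ} (hn : n ≠ 0) :
    ((jacobiSym ((l ^ 2 : ℕ) : ℤ) n : ℤ) : ℂ) = if l.minFac ∣ n then 0 else 1 := by
  have hne : NeZero n := ⟨hn⟩
  have hp : (l.minFac).Prime := Nat.minFac_prime hl.ne_one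
  have hpow := hl.minFac_pow_factorization_eq
  set p := l.minFac with hpd
  set k := l.factorization p with hk
  have hk0 : k ≠ 0 := by
    intro h0
    rw [h0, pow_zero] at hpow
    exact hl.ne_one hpow.symm
  have hcop : Nat.Coprime l n ↔ ¬ p ∣ n := by
    rw [← hpow, Nat.coprime_pow_left_iff (Nat.pos_of_ne_zero hk0), hp.coprime_iff_not_dvd]
  push_cast
  rw [jacobiSym.pow_left]
  split_ifs with h
  · have h0 : jacobiSym (l : ℤ) n = 0 := by
      rw [jacobiSym.eq_zero_iff_not_coprime, Int.gcd_natCast_natCast]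
      intro h1
      exact hcop.1 h1 h
    rw [h0]
    norm_num
  · have h1 : jacobiSym (l : ℤ) n ^ 2 = 1 := by
      apply jacobiSym.sq_one
      rw [Int.gcd_natCast_natCast]
      exact hcop.2 h
    rw [h1]
    norm_num

theorem AX_sq {X : ℝ} (hX : 1 ≤ X) {l : ℕ} (hl : IsPrimePow l) :
    ‖AX X (l ^ 2) - ((4 / π ^ 2 * wp l.minFac * X : ℝ) : ℂ)‖ ≤ 3 * √X := by
  have hp : (l.minFac).Prime := Nat.minFac_prime hl.ne_one
  have h1 := sqf_cop_count hp hX
  have h2 : ∑ n ∈ (Finset.Icc 1 ⌊X⌋₊).filter (fun n => Odd n ∧ Squarefree n),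
      ((jacobiSym ((l ^ 2 : ℕ) : ℤ) n : ℤ) : ℂ) =
      ∑ n ∈ (Finset.Icc 1 ⌊X⌋₊).filter (fun n => Odd n ∧ Squarefree n),
        (if l.minFac ∣ n then 0 else 1 : ℂ) := by
    apply Finset.sum_congr rfl
    intro n hn
    rw [Finset.mem_filter, Finset.mem_Icc] at hn
    exact jac_sq_primePow hl (by omega)
  rw [AX_eq hX, h2]
  have hsX : 1 ≤ √X := by rw [Real.one_le_sqrt]; exact hX
  calc _ = ‖(∑ n ∈ (Finset.Icc 1 ⌊X⌋₊).filter (fun n => Odd n ∧ Squarefree n),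
        (if l.minFac ∣ n then 0 else 1 : ℂ) - ((4 / π ^ 2 * wp l.minFac * X : ℝ) : ℂ)) - 1‖ := by
        congr 1; ring
    _ ≤ _ := norm_sub_le _ _
    _ ≤ 3 * √X := by
        rw [norm_one]
        linarith

/-- the first main term -/
noncomputable def Main1 (X : ℝ) (r : ℂ) : ℂ := 2 * X / (3 * riemannZeta 2) *
  (deriv riemannZeta (1 + 2 * r) / riemannZeta (1 + 2 * r) + Sz (1 + 2 * r))

theorem squares_main {X : ℝ} (hX : 1 ≤ X) {r : ℂ} (hr : 0 < r.re) {D : ℕ} (hD : 1 ≤ D) :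
    ‖∑ l ∈ Finset.Icc 1 D, ((Λ l : ℝ) : ℂ) * (l : ℂ) ^ (-(1 + 2 * r)) * AX X (l ^ 2) + Main1 X r‖ ≤
      X * ((Real.log D + 1 / r.re) * (D : ℝ) ^ (-(2 * r.re)) / r.re) + 3 * √X / r.re ^ 2 := by
  set σ := r.re with hσ
  set z : ℂ := 1 + 2 * r with hz
  have hzre : z.re = 1 + 2 * σ := by simp [hz, hσ]
  have hX0 : 0 < X := by linarith
  have hM : Main1 X r = -((4 / π ^ 2 * X : ℝ) : ℂ) * LSeries gw z := by
    unfold Main1
    rw [gw_LSeries (by linarith), riemannZeta_two]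
    have hpi : (π : ℂ) ≠ 0 := by exact_mod_cast Real.pi_ne_zero
    push_cast
    field_simp
    ring
  have h1 : ∑ l ∈ Finset.Icc 1 D, ((Λ l : ℝ) : ℂ) * (l : ℂ) ^ (-z) * AX X (l ^ 2) =
      ((4 / π ^ 2 * X : ℝ) : ℂ) * ∑ l ∈ Finset.Icc 1 D, gw l * (l : ℂ) ^ (-z) +
      ∑ l ∈ Finset.Icc 1 D, ((Λ l : ℝ) : ℂ) * (l : ℂ) ^ (-z) *
        (AX X (l ^ 2) - ((4 / π ^ 2 * wp l.minFac * X : ℝ) : ℂ)) := by
    rw [Finset.mul_sum, ← Finset.sum_add_distrib]
    apply Finset.sum_congr rfl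
    intro l _
    unfold gw
    push_cast
    ring
  rw [h1, hM]
  have h2 := vM_series_tail gw_norm hr hzre hD
  have h3 : ‖∑ l ∈ Finset.Icc 1 D, ((Λ l : ℝ) : ℂ) * (l : ℂ) ^ (-z) *
        (AX X (l ^ 2) - ((4 / π ^ 2 * wp l.minFac * X : ℝ) : ℂ))‖ ≤ 3 * √X / σ ^ 2 := by
    refine (norm_sum_le_of_le (n := fun l => (Λ l * (l : ℝ) ^ (-(1 + 2 * σ))) * (3 * √X)) _ ?_).trans ?_
    · intro l hl
      rw [Finset.mem_Icc] at hl
      rw [norm_mul, norm_mul, norm_real, Real.norm_of_nonneg ArithmeticFunction.vonMangoldt_nonneg,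
        norm_natCast_cpow_of_pos (by omega), neg_re, hzre]
      by_cases hpp : IsPrimePow l
      · gcongr
        exact AX_sq hX hpp
      · rw [ArithmeticFunction.vonMangoldt_eq_zero_iff.2 hpp]
        simp
    · rw [← Finset.sum_mul]
      have := vM_sum_le hr D
      calc _ ≤ 1 / σ ^ 2 * (3 * √X) := by gcongr
        _ = _ := by ring
  have h4 : ‖((4 / π ^ 2 * X : ℝ) : ℂ) * (LSeries gw z - ∑ l ∈ Finset.Icc 1 D, gw l *
      (l : ℂ) ^ (-z))‖ ≤ X * ((Real.log D + 1 / σ) * (D : ℝ) ^ (-(2 * σ)) / σ) := by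
    have hpi := Real.pi_gt_three
    rw [norm_mul, norm_real, Real.norm_of_nonneg (by positivity)]
    have h5 : 4 / π ^ 2 * X ≤ X := by
      have : 4 / π ^ 2 ≤ 1 := by
        rw [div_le_one (by positivity)]
        nlinarith
      nlinarith
    exact mul_le_mul h5 h2 (norm_nonneg _) hX0.le
  calc _ = ‖∑ l ∈ Finset.Icc 1 D, ((Λ l : ℝ) : ℂ) * (l : ℂ) ^ (-z) *
        (AX X (l ^ 2) - ((4 / π ^ 2 * wp l.minFac * X : ℝ) : ℂ)) -
        ((4 / π ^ 2 * X : ℝ) : ℂ) * (LSeries gw z - ∑ l ∈ Finset.Icc 1 D, gw l *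
      (l : ℂ) ^ (-z))‖ := by congr 1; ring
    _ ≤ _ := norm_sub_le _ _
    _ ≤ _ := by linarith

end Pool.Agent.Helper368_LD
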