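import Pool.Agent.Helper368_LD.BlockB
import Pool.Agent.Helper368_LD.Squares

/-!
# The side of the moduli
-/

set_option autoImplicit false

namespace Pool.Agent.Helper368_LD

open MeasureTheory Set Complex
open scoped Real ArithmeticFunction.vonMangoldt
open Pool.Agent.H491R3.J

/-- the sums over primes for a fixed modulus -/
noncomputable def PN (l : ℕ) (t y : ℝ) : ℂ :=
  ∑ p ∈ Finset.Icc 1 ⌊y⌋₊, (lp p : ℂ) * (p : ℂ) ^ (-((t : ℂ) * I)) * ((jacobiSym (p : ℤ) l : ℤ) : ℂ)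

theorem PN_bound (hG : GRHJ) {l : ℕ} (hodd : Odd l) (hsq : ¬ IsSquare l) (t : ℝ) {y : ℝ} (hy : 1 ≤ y) :
    ‖PN l t y‖ ≤ 10 ^ 6 * Real.log (16 * ((l : ℝ) + 1)) * Real.log (|t| + 5) *
      (√y * Real.log (9 * y) ^ 4) := by
  have hne : NeZero l := ⟨by rintro rfl; exact absurd hodd (by decide)⟩
  have h1 := psi_bound (jchi_hyp hG hodd hsq) t hy
  rw [← Real.sqrt_eq_rpow] at h1
  set L := Real.log (16 * ((l : ℝ) + 1)) with hL
  have hL1 : 1 ≤ L := log_q_le (Nat.cast_nonneg l)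
  have hT := log_five_le t
  have hy9 := log_nine hy
  set R := √y * Real.log (9 * y) ^ 4 with hRR
  have hsy : 1 ≤ √y := by rw [Real.one_le_sqrt]; exact hy
  have hR1 : 1 ≤ R := one_le_mul_of_one_le_of_one_le hsy (one_le_pow₀ (by linarith))
  have h2 : PN l t y = psi (gch (jchi l)) t y -
      ∑ m ∈ Finset.Icc 1 ⌊y⌋₊, ((Λ m - lq m : ℝ) : ℂ) * ((jacobiSym (m : ℤ) l : ℤ) : ℂ) *
        (m : ℂ) ^ (-((t : ℂ) * I)) -
      ∑ m ∈ Finset.Icc 1 ⌊y⌋₊, ((lq m - lp m : ℝ) : ℂ) * ((jacobiSym (m : ℤ) l : ℤ) : ℂ) *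
        (m : ℂ) ^ (-((t : ℂ) * I)) := by
    unfold PN psi tw
    rw [← Finset.sum_sub_distrib, ← Finset.sum_sub_distrib]
    apply Finset.sum_congr rfl
    intro m _
    unfold gch
    rw [jchi_natCast]
    push_cast
    ring
  have h3 : ‖∑ m ∈ Finset.Icc 1 ⌊y⌋₊, ((Λ m - lq m : ℝ) : ℂ) * ((jacobiSym (m : ℤ) l : ℤ) : ℂ) *
        (m : ℂ) ^ (-((t : ℂ) * I))‖ ≤ 2 * √y * Real.log y := by
    refine le_trans (norm_sum_le_of_le _ ?_) (sum_vM_sub_lq hy)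
    intro m hm
    rw [Finset.mem_Icc] at hm
    rw [norm_mul, norm_mul, norm_natCast_cpow_it t (by omega), mul_one, norm_real,
      Real.norm_of_nonneg (by linarith [lq_le_vM m])]
    have := jac_norm (m : ℤ) l
    have h4 := lq_le_vM m
    nlinarith
  have h4 : ‖∑ m ∈ Finset.Icc 1 ⌊y⌋₊, ((lq m - lp m : ℝ) : ℂ) * ((jacobiSym (m : ℤ) l : ℤ) : ℂ) *
        (m : ℂ) ^ (-((t : ℂ) * I))‖ ≤ 1 := by
    have h5 : ∀ m ∈ Finset.Icc 1 ⌊y⌋₊, ‖((lq m - lp m : ℝ) : ℂ) * ((jacobiSym (m : ℤ) l : ℤ) : ℂ) *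
        (m : ℂ) ^ (-((t : ℂ) * I))‖ ≤ if m = 2 then 1 else 0 := by
      intro m hm
      rw [Finset.mem_Icc] at hm
      rw [norm_mul, norm_mul, norm_natCast_cpow_it t (by omega), mul_one, norm_real]
      have h6 := jac_norm (m : ℤ) l
      split_ifs with h
      · subst h
        unfold lq lp
        rw [if_pos Nat.prime_two, if_neg (by simp), sub_zero, Real.norm_of_nonneg
          (Real.log_natCast_nonneg 2)]
        have h7 : Real.log ((2 : ℕ) : ℝ) ≤ 1 := by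
          have := Real.log_two_lt_d9
          push_cast
          linarith
        have h8 := Real.log_natCast_nonneg 2
        nlinarith [norm_nonneg (((jacobiSym ((2 : ℕ) : ℤ) l : ℤ) : ℂ))]
      · have h9 : lq m - lp m = 0 := by
          unfold lq lp
          by_cases hp : m.Prime
          · rw [if_pos hp, if_pos ⟨hp, h⟩, sub_self]
          · rw [if_neg hp, if_neg (fun h => hp h.1), sub_self]
        rw [h9]
        simp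
    refine (norm_sum_le_of_le _ h5).trans ?_
    rw [Finset.sum_ite_eq']
    split_ifs <;> norm_num
  have h5 : √y * Real.log y ≤ R := by
    have := sqrt_log_le (Θ := 1 / 2) le_rfl hy
    rwa [← Real.sqrt_eq_rpow] at this
  have hLT : 1 ≤ L * Real.log (|t| + 5) := one_le_mul_of_one_le_of_one_le hL1 hT
  rw [h2]
  calc _ ≤ (‖psi (gch (jchi l)) t y‖ + _) + _ :=
        (norm_sub_le _ _).trans (add_le_add_left (norm_sub_le _ _) _)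
    _ ≤ (10000 * (32 * L + 1) * Real.log (|t| + 5) * R + 2 * √y * Real.log y) + 1 :=
        add_le_add (add_le_add h1 h3) h4
    _ ≤ (10000 * (33 * L) * Real.log (|t| + 5) * R + 2 * (L * Real.log (|t| + 5) * R)) +
        L * Real.log (|t| + 5) * R := by
        have e1 : 32 * L + 1 ≤ 33 * L := by linarith
        have e2 : 2 * √y * Real.log y ≤ 2 * (L * Real.log (|t| + 5) * R) := by nlinarith
        have e3 : 10000 * (32 * L + 1) * Real.log (|t| + 5) * R ≤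
            10000 * (33 * L) * Real.log (|t| + 5) * R := by gcongr
        have e4 : 1 ≤ L * Real.log (|t| + 5) * R := one_le_mul_of_one_le_of_one_le hLT hR1
        linarith
    _ = 330003 * (L * Real.log (|t| + 5) * R) := by ring
    _ ≤ 10 ^ 6 * (L * Real.log (|t| + 5) * R) := by
        have : 0 ≤ L * Real.log (|t| + 5) * R := by positivity
        nlinarith
    _ = _ := by ring

/-- the bound for a modulus up to `L` -/
noncomputable def Nb (L t Q : ℝ) : ℝ := 3 * 10 ^ 6 * Real.log (16 * (L + 1)) * Real.log (|t| + 5) *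
  Real.log (18 * Q) ^ 4

theorem sum_Ioc_eq {f : ℕ → ℂ} {a b : ℝ} (hab : a ≤ b) :
    ∑ p ∈ Finset.Ioc ⌊a⌋₊ ⌊b⌋₊, f p = ∑ p ∈ Finset.Icc 1 ⌊b⌋₊, f p - ∑ p ∈ Finset.Icc 1 ⌊a⌋₊, f p := by
  have h1 : ⌊a⌋₊ ≤ ⌊b⌋₊ := Nat.floor_mono hab
  have h2 : Finset.Icc 1 ⌊b⌋₊ = Finset.Icc 1 ⌊a⌋₊ ∪ Finset.Ioc ⌊a⌋₊ ⌊b⌋₊ := by
    ext k
    simp only [Finset.mem_union, Finset.mem_Icc, Finset.mem_Ioc]
    omega
  have h3 : Disjoint (Finset.Icc 1 ⌊a⌋₊) (Finset.Ioc ⌊a⌋₊ ⌊b⌋₊) := by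
    rw [Finset.disjoint_left]
    intro k hk
    simp only [Finset.mem_Icc, Finset.mem_Ioc] at hk ⊢
    omega
  rw [h2, Finset.sum_union h3]
  ring

theorem V_bound (hG : GRHJ) {l : ℕ} (hodd : Odd l) (hsq : ¬ IsSquare l) {L : ℝ} (hl : (l : ℝ) ≤ L)
    {r : ℂ} {Q : ℝ} (hQ : 1 ≤ Q) (hr : 0 ≤ r.re) :
    ‖∑ p ∈ Finset.Ioc ⌊Q⌋₊ ⌊2 * Q⌋₊, ap r p * ((jacobiSym (p : ℤ) l : ℤ) : ℂ)‖ ≤
      Nb L r.im Q * Q ^ (-r.re) := by
  have hQ0 : 0 < Q := by linarith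
  have hT := log_five_le r.im
  have hlQ : 2 ≤ Real.log (18 * Q) := by
    have := log_nine hQ
    have h2 : Real.log (9 * Q) ≤ Real.log (18 * Q) := Real.log_le_log (by positivity) (by linarith)
    linarith
  have hl0 : (0 : ℝ) ≤ l := Nat.cast_nonneg l
  have hL1 : 1 ≤ Real.log (16 * (L + 1)) := log_q_le (by linarith)
  set E : ℝ := 2 * (10 ^ 6 * Real.log (16 * (L + 1)) * Real.log (|r.im| + 5) *
      (√(2 * Q) * Real.log (18 * Q) ^ 4)) with hE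
  have hPN : ∀ y ∈ Icc Q (2 * Q), ‖PN l r.im y‖ ≤ E / 2 := by
    intro y hy
    have hy1 : 1 ≤ y := hQ.trans hy.1
    refine (PN_bound hG hodd hsq r.im hy1).trans ?_
    rw [hE, mul_div_cancel_left₀ _ (by norm_num : (2 : ℝ) ≠ 0)]
    have h1 : 0 ≤ Real.log (16 * ((l : ℝ) + 1)) := by
      have := log_q_le hl0
      linarith
    have h2 : 0 ≤ Real.log (9 * y) := by
      have := log_nine hy1
      linarith
    have h3 : 9 * y ≤ 18 * Q := by linarith [hy.2]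
    have h4 := hy.2
    gcongr
  have hcm : ∀ y ∈ Icc Q (2 * Q), ‖∑ p ∈ Finset.Ioc ⌊Q⌋₊ ⌊y⌋₊, (lp p : ℂ) *
      (p : ℂ) ^ (-((r.im : ℂ) * I)) * ((jacobiSym (p : ℤ) l : ℤ) : ℂ) -
      ∫ u in Q..y, (fun _ => (0 : ℂ)) u‖ ≤ E := by
    intro y hy
    rw [intervalIntegral.integral_zero, sub_zero, sum_Ioc_eq hy.1]
    have h1 := hPN y hy
    have h2 := hPN Q ⟨le_rfl, by linarith⟩
    calc _ ≤ ‖PN l r.im y‖ + ‖PN l r.im Q‖ := norm_sub_le _ _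
      _ ≤ _ := by linarith
  have hwd : ∀ y ∈ Icc Q (2 * Q), HasDerivAt (fun y : ℝ => ((y ^ (-(1 / 2 + r.re)) : ℝ) : ℂ))
      ((-(1 / 2 + r.re) * y ^ (-(1 / 2 + r.re) - 1) : ℝ) : ℂ) y := fun y hy =>
    (Real.hasDerivAt_rpow_const (Or.inl (lt_of_lt_of_le hQ0 hy.1).ne')).ofReal_comp
  have hwc : ContinuousOn (fun y : ℝ => ((-(1 / 2 + r.re) * y ^ (-(1 / 2 + r.re) - 1) : ℝ) : ℂ))
      (Icc Q (2 * Q)) := by
    apply Complex.continuous_ofReal.comp_continuousOn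
    apply continuousOn_const.mul
    intro u hu
    exact (Real.continuousAt_rpow_const _ _ (Or.inl (lt_of_lt_of_le hQ0 hu.1).ne')).continuousWithinAt
  have h1 := abel_cmp hQ0.le (by linarith) hwd hwc continuousOn_const hcm
  simp only [mul_zero, intervalIntegral.integral_zero, sub_zero] at h1
  have h2 := pw_total (σ := r.re) hQ0 hr
  have hE0 : 0 ≤ E := by positivity
  have h3 : ∑ p ∈ Finset.Ioc ⌊Q⌋₊ ⌊2 * Q⌋₊, ap r p * ((jacobiSym (p : ℤ) l : ℤ) : ℂ) =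
      ∑ p ∈ Finset.Ioc ⌊Q⌋₊ ⌊2 * Q⌋₊, (((p : ℝ) ^ (-(1 / 2 + r.re)) : ℝ) : ℂ) * ((lp p : ℂ) *
      (p : ℂ) ^ (-((r.im : ℂ) * I)) * ((jacobiSym (p : ℤ) l : ℤ) : ℂ)) := by
    apply Finset.sum_congr rfl
    intro p hp
    rw [ap_eq r (mem_block hQ0 hp).1]
    ring
  rw [h3]
  refine (h1.trans (mul_le_mul_of_nonneg_left h2 hE0)).trans ?_
  have h4 : Q ^ (-(1 / 2 + r.re)) * √(2 * Q) = √2 * Q ^ (-r.re) := by
    rw [Real.sqrt_mul (by norm_num), Real.sqrt_eq_rpow Q]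
    have e4 : Q ^ (-r.re) = Q ^ (-(1 / 2 + r.re)) * Q ^ (1 / 2 : ℝ) := by
      rw [← Real.rpow_add hQ0]
      congr 1
      ring
    rw [e4]
    ring
  have h5 : √2 ≤ 1.5 := Real.sqrt_le_iff.2 ⟨by norm_num, by norm_num⟩
  have h6 : 0 ≤ Q ^ (-r.re) := Real.rpow_nonneg hQ0.le _
  unfold Nb
  calc E * Q ^ (-(1 / 2 + r.re)) = 2 * (10 ^ 6 * Real.log (16 * (L + 1)) * Real.log (|r.im| + 5) *
      Real.log (18 * Q) ^ 4) * (Q ^ (-(1 / 2 + r.re)) * √(2 * Q)) := by rw [hE]; ring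
    _ = 2 * (10 ^ 6 * Real.log (16 * (L + 1)) * Real.log (|r.im| + 5) *
      Real.log (18 * Q) ^ 4) * (√2 * Q ^ (-r.re)) := by rw [h4]
    _ ≤ 2 * (10 ^ 6 * Real.log (16 * (L + 1)) * Real.log (|r.im| + 5) *
      Real.log (18 * Q) ^ 4) * (1.5 * Q ^ (-r.re)) := by gcongr
    _ = _ := by ring

theorem V_all (hG : GRHJ) (l : ℕ) {L : ℝ} (hl : (l : ℝ) ≤ L)
    {r : ℂ} {Q : ℝ} (hQ : 1 ≤ Q) (hr : 0 ≤ r.re) :
    ‖∑ p ∈ Finset.Ioc ⌊Q⌋₊ ⌊2 * Q⌋₊, ap r p * (fnp p l : ℂ)‖ ≤ Nb L r.im Q * Q ^ (-r.re) := by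
  have hl0 : (0 : ℝ) ≤ l := Nat.cast_nonneg l
  have hNb : 0 ≤ Nb L r.im Q * Q ^ (-r.re) := by
    unfold Nb
    have hL1 : 1 ≤ Real.log (16 * (L + 1)) := log_q_le (by linarith)
    have hT := log_five_le r.im
    have h6 : 0 ≤ Q ^ (-r.re) := Real.rpow_nonneg (by linarith) _
    positivity
  unfold fnp kro
  by_cases hs : IsSquare l
  · simp only [if_pos hs]
    simpa using hNb
  · by_cases ho : Odd l
    · simp only [if_neg hs, if_pos ho]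
      simpa using V_bound hG ho hs hl hQ hr
    · simp only [if_neg hs, if_neg ho]
      simpa using hNb

/-- the block sum -/
noncomputable def WW (r : ℂ) (Q x : ℝ) : ℂ := ∑ p ∈ Finset.Ioc ⌊Q⌋₊ ⌊2 * Q⌋₊,
  ap r p * ((∑ l ∈ Finset.Icc 1 ⌊x⌋₊, fnp p l : ℝ) : ℂ)

theorem WW_eq (r : ℂ) (Q x : ℝ) : WW r Q x = ∑ l ∈ Finset.Icc 1 ⌊x⌋₊,
    ∑ p ∈ Finset.Ioc ⌊Q⌋₊ ⌊2 * Q⌋₊, ap r p * (fnp p l : ℂ) := by
  unfold WW
  rw [Finset.sum_comm]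
  apply Finset.sum_congr rfl
  intro p _
  push_cast
  rw [Finset.mul_sum]

theorem WW_le (hG : GRHJ) {r : ℂ} {Q x L : ℝ} (hQ : 1 ≤ Q) (hr : 0 ≤ r.re) (hx : 0 ≤ x) (hL : x ≤ L) :
    ‖WW r Q x‖ ≤ x * (Nb L r.im Q * Q ^ (-r.re)) := by
  rw [WW_eq]
  have h1 : ∀ l ∈ Finset.Icc 1 ⌊x⌋₊, ‖∑ p ∈ Finset.Ioc ⌊Q⌋₊ ⌊2 * Q⌋₊, ap r p * (fnp p l : ℂ)‖ ≤
      Nb L r.im Q * Q ^ (-r.re) := by
    intro l hl
    apply V_all hG l _ hQ hr
    exact ((Nat.le_floor_iff hx).1 (Finset.mem_Icc.1 hl).2).trans hL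
  refine (norm_sum_le_of_le _ h1).trans ?_
  rw [Finset.sum_const, nsmul_eq_mul, Nat.card_Icc, Nat.add_sub_cancel]
  apply mul_le_mul_of_nonneg_right (Nat.floor_le hx)
  exact (norm_nonneg _).trans (V_all hG 0 (by simpa using hx.trans hL) hQ hr)

theorem WW_lip (hG : GRHJ) {r : ℂ} {Q x h L : ℝ} (hQ : 1 ≤ Q) (hr : 0 ≤ r.re) (hx : 0 ≤ x)
    (hh : 0 ≤ h) (hL : x + h ≤ L) :
    ‖WW r Q (x + h) - WW r Q x‖ ≤ (h + 1) * (Nb L r.im Q * Q ^ (-r.re)) := by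
  rw [WW_eq, WW_eq, ← sum_Ioc_eq (by linarith)]
  have h1 : ∀ l ∈ Finset.Ioc ⌊x⌋₊ ⌊x + h⌋₊, ‖∑ p ∈ Finset.Ioc ⌊Q⌋₊ ⌊2 * Q⌋₊, ap r p * (fnp p l : ℂ)‖ ≤
      Nb L r.im Q * Q ^ (-r.re) := by
    intro l hl
    apply V_all hG l _ hQ hr
    exact ((Nat.le_floor_iff (by linarith)).1 (Finset.mem_Ioc.1 hl).2).trans hL
  refine (norm_sum_le_of_le _ h1).trans ?_
  rw [Finset.sum_const, nsmul_eq_mul]
  apply mul_le_mul_of_nonneg_right
  · have := card_Ioc_floor_le hx (by linarith : x ≤ x + h)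
    linarith
  · exact (norm_nonneg _).trans (V_all hG 0 (by simp; linarith) hQ hr)

theorem AWH_WW (hG : GRHJ) {r : ℂ} {Q x H L : ℝ} (hQ : 1 ≤ Q) (hr : 0 ≤ r.re) (hx : 0 ≤ x)
    (hH : 0 ≤ H) (hL : x + H ≤ L) :
    ‖AWH r Q x H - (H : ℂ) * WW r Q x‖ ≤ H * (H + 1) * (Nb L r.im Q * Q ^ (-r.re)) := by
  have h0 : AWH r Q x H - (H : ℂ) * WW r Q x = ∑ l ∈ Finset.Ioc ⌊x⌋₊ ⌊x + H⌋₊, ((x + H - l : ℝ) : ℂ) *
      ∑ p ∈ Finset.Ioc ⌊Q⌋₊ ⌊2 * Q⌋₊, ap r p * (fnp p l : ℂ) := by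
    have e1 : ∑ l ∈ Finset.Ioc ⌊x⌋₊ ⌊x + H⌋₊, ((x + H - l : ℝ) : ℂ) *
      ∑ p ∈ Finset.Ioc ⌊Q⌋₊ ⌊2 * Q⌋₊, ap r p * (fnp p l : ℂ) =
      ∑ p ∈ Finset.Ioc ⌊Q⌋₊ ⌊2 * Q⌋₊, ap r p * ((∑ l ∈ Finset.Ioc ⌊x⌋₊ ⌊x + H⌋₊, fnp p l * (x + H - l) : ℝ) : ℂ) := by
      simp_rw [Finset.mul_sum]
      rw [Finset.sum_comm]
      apply Finset.sum_congr rfl
      intro p _
      push_cast
      rw [Finset.mul_sum]
      apply Finset.sum_congr rfl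
      intro l _
      ring
    rw [e1]
    unfold AWH WW
    rw [Finset.mul_sum, ← Finset.sum_sub_distrib]
    apply Finset.sum_congr rfl
    intro p _
    rw [FS_diff _ hH]
    push_cast
    ring
  rw [h0]
  have h1 : ∀ l ∈ Finset.Ioc ⌊x⌋₊ ⌊x + H⌋₊, ‖((x + H - l : ℝ) : ℂ) *
      ∑ p ∈ Finset.Ioc ⌊Q⌋₊ ⌊2 * Q⌋₊, ap r p * (fnp p l : ℂ)‖ ≤
      H * (Nb L r.im Q * Q ^ (-r.re)) := by
    intro l hl
    rw [Finset.mem_Ioc] at hl
    have h5 : x < l := Nat.lt_of_floor_lt hl.1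
    have h6 : (l : ℝ) ≤ x + H := (Nat.le_floor_iff (by linarith)).1 hl.2
    rw [norm_mul, norm_real, Real.norm_of_nonneg (by linarith)]
    exact mul_le_mul (by linarith) (V_all hG l (h6.trans hL) hQ hr) (norm_nonneg _) hH
  refine (norm_sum_le_of_le _ h1).trans ?_
  rw [Finset.sum_const, nsmul_eq_mul]
  have h2 := card_Ioc_floor_le hx (by linarith : x ≤ x + H)
  have h3 : 0 ≤ Nb L r.im Q * Q ^ (-r.re) :=
    (norm_nonneg _).trans (V_all hG 0 (by simp; linarith) hQ hr)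
  calc _ ≤ (H + 1) * (H * (Nb L r.im Q * Q ^ (-r.re))) := by
        apply mul_le_mul_of_nonneg_right (by linarith) (by positivity)
    _ = _ := by ring

end Pool.Agent.Helper368_LD
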