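import Pool.Agent.Helper368_LD.SqSieve

/-!
# The bound for the pair of twisted prime sums
-/

set_option autoImplicit false

namespace Pool.Agent.Helper368_LD

open Complex MeasureTheory Set Filter Topology
open scoped ContDiff Real ArithmeticFunction.vonMangoldt
open Pool.Agent.H491R3.J

variable {a b c d : ℝ} {f g h : ℝ → ℂ}

/-- the range of the prime powers -/
noncomputable def NM (M : ℝ) : ℕ := ⌊2 * M⌋₊ + 1

theorem NM_lt {M : ℝ} : 2 * M < NM M := by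
  unfold NM
  push_cast
  exact Nat.lt_floor_add_one _

theorem NM_le {M : ℝ} (hM : 1 ≤ M) : (NM M : ℝ) ≤ 3 * M := by
  unfold NM
  push_cast
  have := Nat.floor_le (by linarith : 0 ≤ 2 * M)
  linarith

theorem NM_pos (M : ℝ) : 1 ≤ NM M := by
  unfold NM
  omega

/-- the smooth sum over primes twisted by `(D/p)` -/
noncomputable def PW (D : ℤ) (h : ℝ → ℂ) (M : ℝ) : ℂ :=
  ∑ p ∈ Finset.Icc 1 (NM M), (lp p : ℂ) * ((jacobiSym D p : ℤ) : ℂ) * h (p / M)

/-- the double sum -/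
noncomputable def TT (k : ℕ) (h : ℝ → ℂ) (M : ℝ) : ℂ :=
  ∑ x ∈ OD (6 * NM M), ∑ l ∈ SF (6 * NM M), Sl (fk k) h (NM M) M ((x : ℝ) ^ 2) l

theorem TT_eq (k : ℕ) (h : ℝ → ℂ) (M : ℝ) : TT k h M =
    ∑ m ∈ Finset.Icc 1 (NM M), ((Λ m : ℝ) : ℂ) * (rh m * h (m / M)) *
      ∑ x ∈ OD (6 * NM M), ∑ l ∈ SF (6 * NM M), ((jacobiSym (m : ℤ) l : ℤ) : ℂ) *
        fk k ((x : ℝ) ^ 2 * l / m) := by
  unfold TT Sl
  have e1 : ∀ x ∈ OD (6 * NM M), ∑ l ∈ SF (6 * NM M), ∑ m ∈ Finset.Icc 1 (NM M),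
      ((Λ m : ℝ) : ℂ) * ((jacobiSym (m : ℤ) l : ℤ) : ℂ) *
        (rh m * (fk k ((x : ℝ) ^ 2 * l / m) * h (m / M))) =
      ∑ m ∈ Finset.Icc 1 (NM M), ∑ l ∈ SF (6 * NM M), ((Λ m : ℝ) : ℂ) *
        ((jacobiSym (m : ℤ) l : ℤ) : ℂ) * (rh m * (fk k ((x : ℝ) ^ 2 * l / m) * h (m / M))) :=
    fun x _ => Finset.sum_comm
  rw [Finset.sum_congr rfl e1, Finset.sum_comm]
  apply Finset.sum_congr rfl
  intro m _
  rw [Finset.mul_sum]
  apply Finset.sum_congr rfl
  intro x _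
  rw [Finset.mul_sum]
  apply Finset.sum_congr rfl
  intro l _
  ring

theorem rh_norm (m : ℕ) : ‖rh m‖ = (√(m : ℝ))⁻¹ := by
  unfold rh
  have h0 : (0 : ℝ) ≤ m := Nat.cast_nonneg m
  rw [norm_real, Real.norm_of_nonneg (Real.rpow_nonneg h0 _), Real.rpow_neg h0, ← Real.sqrt_eq_rpow]

theorem rh_mul_sqrt {m : ℕ} (hm : 1 ≤ m) : rh m * ((√(m : ℝ) : ℝ) : ℂ) = 1 := by
  unfold rh
  have h0 : (0 : ℝ) < m := by exact_mod_cast hm
  rw [← ofReal_mul, Real.sqrt_eq_rpow, ← Real.rpow_add h0]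
  norm_num

theorem boundA (k : ℕ) {Ch : ℝ} (hCh : ∀ v, ‖h v‖ ≤ Ch) (M : ℝ) :
    ‖TT k h M - ∑ m ∈ Finset.Icc 1 (NM M), ((Λ m : ℝ) : ℂ) * (rh m * h (m / M)) *
      ((xi m k : ℝ) : ℂ)‖ ≤ 12 * Ch * (√(NM M : ℝ) * Real.log (NM M)) := by
  have hCh0 : 0 ≤ Ch := (norm_nonneg _).trans (hCh 0)
  rw [TT_eq, ← Finset.sum_sub_distrib]
  have h1 : ∀ m ∈ Finset.Icc 1 (NM M), ‖((Λ m : ℝ) : ℂ) * (rh m * h (m / M)) *
      (∑ x ∈ OD (6 * NM M), ∑ l ∈ SF (6 * NM M), ((jacobiSym (m : ℤ) l : ℤ) : ℂ) *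
        fk k ((x : ℝ) ^ 2 * l / m)) - ((Λ m : ℝ) : ℂ) * (rh m * h (m / M)) * ((xi m k : ℝ) : ℂ)‖ ≤
      (6 * Ch * √(NM M : ℝ)) * (Λ m / ((m.minFac : ℕ) : ℝ) ^ 2) := by
    intro m hm
    rw [Finset.mem_Icc] at hm
    have hΛ : 0 ≤ Λ m := ArithmeticFunction.vonMangoldt_nonneg
    rw [← mul_sub]
    by_cases h0 : Λ m = 0
    · rw [h0]
      simp
    · have hpp : IsPrimePow m := ArithmeticFunction.vonMangoldt_ne_zero_iff.1 h0
      have h2 := decomp_diff hpp k (L := 6 * NM M) (by omega)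
      have hm0 : (0 : ℝ) < m := by exact_mod_cast hpp.pos
      have hq0 : (0 : ℝ) < ((m.minFac : ℕ) : ℝ) := by exact_mod_cast Nat.minFac_pos m
      have h3 : ((6 * m / m.minFac ^ 2 : ℕ) : ℝ) ≤ 6 * m / ((m.minFac : ℕ) : ℝ) ^ 2 := by
        refine Nat.cast_div_le.trans (le_of_eq ?_)
        push_cast
        rfl
      rw [norm_mul, norm_mul, norm_mul, norm_real, Real.norm_of_nonneg hΛ, rh_norm m]
      have hs : 0 < √(m : ℝ) := Real.sqrt_pos.2 hm0
      have hs2 : √(m : ℝ) ≤ √(NM M : ℝ) := Real.sqrt_le_sqrt (by exact_mod_cast hm.2)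
      calc _ ≤ Λ m * ((√(m : ℝ))⁻¹ * Ch) * (6 * m / ((m.minFac : ℕ) : ℝ) ^ 2) := by
            gcongr
            · exact hCh _
            · exact h2.trans h3
        _ = 6 * Ch * ((√(m : ℝ))⁻¹ * m) * (Λ m / ((m.minFac : ℕ) : ℝ) ^ 2) := by ring
        _ = 6 * Ch * √(m : ℝ) * (Λ m / ((m.minFac : ℕ) : ℝ) ^ 2) := by
            congr 2
            have : (m : ℝ) = √(m : ℝ) * √(m : ℝ) := (Real.mul_self_sqrt hm0.le).symm
            rw [inv_mul_eq_div, div_eq_iff hs.ne']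
            exact this
        _ ≤ _ := by gcongr
  refine (norm_sum_le_of_le _ h1).trans ?_
  rw [← Finset.mul_sum]
  have h4 := sum_vM_minFac (NM_pos M)
  have h5 : 0 ≤ 6 * Ch * √(NM M : ℝ) := by positivity
  calc _ ≤ 6 * Ch * √(NM M : ℝ) * (2 * Real.log (NM M)) := mul_le_mul_of_nonneg_left h4 h5
    _ = _ := by ring

theorem boundB {k : ℕ} (hk : 1 ≤ k) (hh : TF (1 / 2) 2 h) {M : ℝ}
    (hM : 2 * (k : ℝ) ^ 2 + 4 < M) :
    ∑ m ∈ Finset.Icc 1 (NM M), ((Λ m : ℝ) : ℂ) * (rh m * h (m / M)) * ((xi m k : ℝ) : ℂ) =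
      ((Real.cos (π * k / 2) + Real.sin (π * k / 2) : ℝ) : ℂ) * PW k h M +
      ((Real.cos (π * k / 2) - Real.sin (π * k / 2) : ℝ) : ℂ) * PW (-k) h M := by
  have hk1 : (1 : ℝ) ≤ k := by exact_mod_cast hk
  have hM0 : 0 < M := by nlinarith
  unfold PW
  rw [Finset.mul_sum, Finset.mul_sum, ← Finset.sum_add_distrib]
  apply Finset.sum_congr rfl
  intro m hm
  rw [Finset.mem_Icc] at hm
  by_cases hsup : (m : ℝ) / M ∈ Icc (1 / 2 : ℝ) 2
  · have hmM : M / 2 ≤ m := by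
      have := hsup.1
      rw [le_div_iff₀ hM0] at this
      linarith
    have hmk : (k : ℝ) ^ 2 < m := by linarith
    have hm2 : (2 : ℝ) < m := by nlinarith
    have hm2' : 2 < m := by exact_mod_cast hm2
    by_cases h0 : Λ m = 0
    · have hnp : ¬ m.Prime := by
        intro hp
        rw [ArithmeticFunction.vonMangoldt_eq_zero_iff] at h0
        exact h0 hp.isPrimePow
      have hl : lp m = 0 := by
        unfold lp
        rw [if_neg (fun h => hnp h.1)]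
      rw [h0, hl]
      simp
    · have hpp : IsPrimePow m := ArithmeticFunction.vonMangoldt_ne_zero_iff.1 h0
      obtain ⟨p, j, hp, hj, hpj⟩ := (isPrimePow_nat_iff m).1 hpp
      rcases Nat.lt_or_ge 1 j with hj1 | hj1
      · -- proper power
        obtain ⟨i, rfl⟩ : ∃ i, j = i + 1 := ⟨j - 1, by omega⟩
        have hi : 1 ≤ i := by omega
        have hnd : ¬ p ^ i ∣ k := by
          intro hd
          have h1 := Nat.le_of_dvd (by omega) hd
          have h2 : m ≤ (p ^ i) ^ 2 := by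
            rw [← hpj, ← pow_mul]
            exact Nat.pow_le_pow_right hp.pos (by omega)
          have h3 : (p ^ i) ^ 2 ≤ k ^ 2 := Nat.pow_le_pow_left h1 2
          have h4 : (m : ℝ) ≤ (k : ℝ) ^ 2 := by exact_mod_cast h2.trans h3
          linarith
        have hxi : xi m k = 0 := by
          rw [← hpj]
          exact xi_pow_zero hp hi hnd
        have hnp : ¬ m.Prime := by
          rw [← hpj]
          exact Nat.Prime.not_prime_pow (by omega)
        have hl : lp m = 0 := by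
          unfold lp
          rw [if_neg (fun h => hnp h.1)]
        rw [hxi, hl]
        simp
      · have hj1 : j = 1 := by omega
        subst hj1
        rw [pow_one] at hpj
        subst hpj
        have hl : lp p = Λ p := by
          unfold lp
          rw [if_pos ⟨hp, by omega⟩, ArithmeticFunction.vonMangoldt_apply_prime hp]
        rw [xi_eq hp (by omega) k, hl]
        have hrs := rh_mul_sqrt hm.1
        push_cast at hrs ⊢
        linear_combination ((Λ p : ℂ) * h ((p : ℝ) / M) *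
          (((jacobiSym (k : ℤ) p : ℤ) : ℂ) * (Complex.cos (π * k / 2) + Complex.sin (π * k / 2)) +
            ((jacobiSym (-(k : ℤ)) p : ℤ) : ℂ) * (Complex.cos (π * k / 2) -
              Complex.sin (π * k / 2)))) * hrs
  · rw [hh.supp _ hsup]
    simp

end Pool.Agent.Helper368_LD
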