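import Pool.Agent.Helper368_LD.PairBound

/-!
# The bound for the pair of twisted prime sums, continued
-/

set_option autoImplicit false

namespace Pool.Agent.Helper368_LD

open Complex MeasureTheory Set Filter Topology
open scoped ContDiff Real ArithmeticFunction.vonMangoldt
open Pool.Agent.H491R3.J

variable {a b c d : ℝ} {f g h : ℝ → ℂ}

theorem mellin_fk_one {k : ℕ} (hk : 1 ≤ k) : mellin (fk k) 1 = 0 := by
  have hk0 : (k : ℝ) ≠ 0 := by
    have : k ≠ 0 := by omega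
    exact_mod_cast this
  rw [mellin_eq_interval (c := 1) (d := 6) one_pos (by norm_num) (TF_fk k)]
  have e1 : ∀ u : ℝ, (u : ℂ) ^ ((1 : ℂ) - 1) * fk k u = ((wv u * Real.cos (π * k * u / 2) : ℝ) : ℂ) := by
    intro u
    rw [sub_self, Complex.cpow_zero, one_mul]
    rfl
  simp only [e1]
  rw [intervalIntegral.integral_ofReal]
  set S : ℝ → ℝ := fun v => Real.smoothTransition (v - 1) * Real.cos (π * k * v / 2) with hS
  have hSc : Continuous S := by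
    apply Continuous.mul
    · exact Real.smoothTransition.continuous.comp (by fun_prop)
    · fun_prop
  have hi : ∀ x y, IntervalIntegrable S volume x y := fun x y => hSc.intervalIntegrable _ _
  have hwc : Continuous fun v => wv v * Real.cos (π * k * v / 2) :=
    wv_smooth.continuous.mul (by fun_prop)
  have hwi : ∀ x y, IntervalIntegrable (fun v => wv v * Real.cos (π * k * v / 2)) volume x y :=
    fun x y => hwc.intervalIntegrable _ _
  have hz1 : ∫ v in (0 : ℝ)..1, wv v * Real.cos (π * k * v / 2) = 0 := by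
    rw [intervalIntegral.integral_of_le (by norm_num)]
    apply setIntegral_eq_zero_of_forall_eq_zero
    intro v hv
    have h0 : wv v = 0 := by
      unfold wv
      rw [Real.smoothTransition.zero_of_nonpos (by linarith [hv.2]),
        Real.smoothTransition.zero_of_nonpos (by linarith [hv.2]), sub_zero]
    rw [h0, zero_mul]
  have hz2 : ∫ v in (6 : ℝ)..8, wv v * Real.cos (π * k * v / 2) = 0 := by
    rw [intervalIntegral.integral_of_le (by norm_num)]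
    apply setIntegral_eq_zero_of_forall_eq_zero
    intro v hv
    rw [wv_supp (fun h => by linarith [h.2, hv.1]), zero_mul]
  have e2 : ∫ v in (1 : ℝ)..6, wv v * Real.cos (π * k * v / 2) =
      ∫ v in (0 : ℝ)..8, wv v * Real.cos (π * k * v / 2) := by
    rw [← intervalIntegral.integral_add_adjacent_intervals (hwi 0 1) (hwi 1 8), hz1, zero_add,
      ← intervalIntegral.integral_add_adjacent_intervals (hwi 1 6) (hwi 6 8), hz2, add_zero]
  have e3 : ∀ v : ℝ, wv v * Real.cos (π * k * v / 2) = S v - S (v - 4) := by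
    intro v
    simp only [hS]
    unfold wv
    have e4 : v - 4 - 1 = v - 5 := by ring
    have e5 : π * k * v / 2 = π * k * (v - 4) / 2 + k * (2 * π) := by ring
    have e6 : Real.cos (π * k * v / 2) = Real.cos (π * k * (v - 4) / 2) := by
      rw [e5, Real.cos_add_nat_mul_two_pi]
    rw [e4, ← e6]
    ring
  have e7 : ∫ v in (0 : ℝ)..8, wv v * Real.cos (π * k * v / 2) = ∫ v in (4 : ℝ)..8, S v := by
    simp only [e3]
    have hi4 : IntervalIntegrable (fun v => S (v - 4)) volume 0 8 :=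
      (hSc.comp (continuous_id.sub continuous_const)).intervalIntegrable _ _
    rw [intervalIntegral.integral_sub (hi 0 8) hi4, intervalIntegral.integral_comp_sub_right S 4]
    have e8 : ∫ v in (0 - 4 : ℝ)..(8 - 4), S v = ∫ v in (0 : ℝ)..4, S v := by
      have h1 : (0 - 4 : ℝ) = -4 := by norm_num
      have h2 : (8 - 4 : ℝ) = 4 := by norm_num
      rw [h1, h2, ← intervalIntegral.integral_add_adjacent_intervals (hi (-4) 0) (hi 0 4)]
      have h3 : ∫ v in (-4 : ℝ)..0, S v = 0 := by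
        rw [intervalIntegral.integral_of_le (by norm_num)]
        apply setIntegral_eq_zero_of_forall_eq_zero
        intro v hv
        simp only [hS]
        rw [Real.smoothTransition.zero_of_nonpos (by linarith [hv.2]), zero_mul]
      rw [h3, zero_add]
    rw [e8, ← intervalIntegral.integral_add_adjacent_intervals (hi 0 4) (hi 4 8)]
    ring
  have e9 : ∫ v in (4 : ℝ)..8, S v = 0 := by
    have h1 : ∫ v in (4 : ℝ)..8, S v = ∫ v in (4 : ℝ)..8, Real.cos ((π * k / 2) * v) := by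
      apply intervalIntegral.integral_congr
      intro v hv
      rw [uIcc_of_le (by norm_num)] at hv
      simp only [hS]
      rw [Real.smoothTransition.one_of_one_le (by linarith [hv.1]), one_mul]
      congr 1
      ring
    have hpk : π * k / 2 ≠ 0 := by
      have := Real.pi_ne_zero
      positivity
    rw [h1, intervalIntegral.integral_comp_mul_left (fun x => Real.cos x) hpk, integral_cos]
    have h2 : π * k / 2 * 8 = ((4 * k : ℕ) : ℝ) * π := by push_cast; ring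
    have h3 : π * k / 2 * 4 = ((2 * k : ℕ) : ℝ) * π := by push_cast; ring
    rw [h2, h3, Real.sin_nat_mul_pi, Real.sin_nat_mul_pi, sub_self, smul_zero]
  rw [e2, e7, e9, ofReal_zero]

theorem sum_SF {R : Type*} [AddCommMonoid R] {L : ℕ} (hL : 1 ≤ L) (g : ℕ → R) :
    ∑ l ∈ SF L, g l = g 1 + ∑ l ∈ SS (L : ℝ), g l := by
  have h1 : (1 : ℕ) ∈ SF L := by
    unfold SF
    rw [Finset.mem_filter, Finset.mem_Icc]
    exact ⟨⟨le_rfl, hL⟩, odd_one, squarefree_one⟩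
  rw [← Finset.add_sum_erase _ _ h1]
  congr 1
  apply Finset.sum_congr _ (fun _ _ => rfl)
  unfold SF SS
  rw [Nat.floor_natCast]

theorem sum_inv_le2 (L : ℕ) : ∑ x ∈ Finset.Icc 1 L, ((x : ℝ))⁻¹ ≤ 1 + Real.log L := by
  have h1 := harmonic_le_one_add_log L
  rw [harmonic_eq_sum_Icc] at h1
  push_cast at h1
  exact h1

theorem boundC (hG : GRHJ) {k : ℕ} (hk : 1 ≤ k) {σ : ℝ} (hσ0 : 0 < σ) (hσ1 : σ ≤ 1)
    (hh : TF (1 / 2) 2 h) (hh1 : mellin h 1 = 0) {E e : ℝ} {n : ℕ} (hE0 : 0 ≤ E) (he : 1 / 2 ≤ e)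
    (hE : ∀ x t : ℝ, 0 < x → ‖A1 x ((σ : ℂ) + t * I) - (Main1 x ((σ : ℂ) + t * I) -
      Main2 x ((σ : ℂ) + t * I))‖ ≤ E * (1 + |t|) ^ n * x ^ e) :
    ∃ C : ℝ, 0 ≤ C ∧ ∀ M : ℝ, 1 ≤ M →
      ‖∑ x ∈ OD (6 * NM M), ∑ l ∈ SS ((6 * NM M : ℕ) : ℝ), Sl (fk k) h (NM M) M ((x : ℝ) ^ 2) l‖ ≤
        C * (M ^ (σ + e) * (1 + Real.log ((6 * NM M : ℕ) : ℝ))) := by
  obtain ⟨C, hC0, hC⟩ := lsum_total hG hσ0 hσ1 one_pos (by norm_num : (1 : ℝ) ≤ 6)
    (by norm_num : (0 : ℝ) < 1 / 2) (by norm_num : (1 / 2 : ℝ) ≤ 2) (TF_fk k) hh (mellin_fk_one hk)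
    hh1 hE0 (by linarith : 0 ≤ e) hE
  refine ⟨C, hC0, ?_⟩
  intro M hM
  have hM0 : 0 < M := by linarith
  have hNM := NM_lt (M := M)
  have h1 : ∀ x ∈ OD (6 * NM M), ‖∑ l ∈ SS ((6 * NM M : ℕ) : ℝ), Sl (fk k) h (NM M) M
      ((x : ℝ) ^ 2) l‖ ≤ C * M ^ (σ + e) * ((x : ℝ))⁻¹ := by
    intro x hx
    unfold OD at hx
    rw [Finset.mem_filter, Finset.mem_Icc] at hx
    have hx1 : (1 : ℝ) ≤ x := by exact_mod_cast hx.1.1
    have hx0 : (0 : ℝ) < x := by linarith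
    have hle : M / (x : ℝ) ^ 2 ≤ M := by
      apply div_le_self hM0.le
      nlinarith
    have h2 := hC M ((x : ℝ) ^ 2) ((6 * NM M : ℕ) : ℝ) (NM M) hM0 (by positivity)
      (by push_cast; linarith) hNM
    refine h2.trans ?_
    rw [Real.rpow_add hM0, Real.div_rpow hM0.le (by positivity)]
    have h3 : ((x : ℝ) ^ 2) ^ e = (x : ℝ) ^ (2 * e) := by
      rw [← Real.rpow_natCast (x : ℝ) 2, ← Real.rpow_mul hx0.le]
      norm_num
    have h4 : (x : ℝ) ≤ (x : ℝ) ^ (2 * e) := by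
      calc (x : ℝ) = (x : ℝ) ^ (1 : ℝ) := (Real.rpow_one _).symm
        _ ≤ _ := Real.rpow_le_rpow_of_exponent_le hx1 (by linarith)
    rw [h3, div_eq_mul_inv]
    have h5 : ((x : ℝ) ^ (2 * e))⁻¹ ≤ ((x : ℝ))⁻¹ := inv_anti₀ hx0 h4
    have h6 : 0 ≤ M ^ σ := Real.rpow_nonneg hM0.le _
    have h7 : 0 ≤ M ^ e := Real.rpow_nonneg hM0.le _
    calc C * (M ^ σ * (M ^ e * ((x : ℝ) ^ (2 * e))⁻¹)) ≤ C * (M ^ σ * (M ^ e * ((x : ℝ))⁻¹)) := by
          gcongr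
      _ = _ := by ring
  refine (norm_sum_le_of_le _ h1).trans ?_
  rw [← Finset.mul_sum, mul_assoc C]
  apply mul_le_mul_of_nonneg_left _ hC0
  apply mul_le_mul_of_nonneg_left _ (Real.rpow_nonneg hM0.le _)
  refine le_trans ?_ (sum_inv_le2 (6 * NM M))
  apply Finset.sum_le_sum_of_subset_of_nonneg
  · exact Finset.filter_subset _ _
  · intro x _ _
    positivity

theorem sum_Icc_zero {w : ℕ → ℂ} (hw : w 0 = 0) (N : ℕ) :
    ∑ m ∈ Finset.Icc 0 N, w m = ∑ m ∈ Finset.Icc 1 N, w m := by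
  symm
  apply Finset.sum_subset
  · intro m hm
    rw [Finset.mem_Icc] at hm ⊢
    omega
  · intro m hm hm2
    rw [Finset.mem_Icc] at hm hm2
    have : m = 0 := by omega
    rw [this, hw]

theorem E_zeta (hG : GRHJ) {δ : ℝ} (hδ : 0 < δ) : ∃ E : ℝ, 0 ≤ E ∧ ∀ y : ℝ, 1 ≤ y →
    ‖∑ m ∈ Finset.Icc 0 ⌊y⌋₊, ((Λ m : ℝ) : ℂ) - 1 * y‖ ≤ E * y ^ (1 / 2 + δ) := by
  have hyp := hyp_zeta (θ := 1 / 2) le_rfl (by norm_num) (fun s h1 h2 => zeta_ne_zero_of_GRHJ hG h1 h2)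
  have hl5 := log_five_le 0
  refine ⟨10000 * (80 + 1) * Real.log (|(0 : ℝ)| + 5) * ((4 / δ) ^ 4 * 9 ^ δ) + 1, by positivity, ?_⟩
  intro y hy
  have h1 := pnt_gen hyp 0 hy
  rw [sum_Icc_zero (by simp)]
  have e1 : ∀ m : ℕ, tw (fun m => ((Λ m : ℝ) : ℂ)) 0 m = ((Λ m : ℝ) : ℂ) := by
    intro m
    unfold tw
    simp
  have e2 : ∫ u in Ioc 1 y, (u : ℂ) ^ (-(((0 : ℝ) : ℂ) * I)) = (y : ℂ) - 1 := by
    have : ∀ u : ℝ, (u : ℂ) ^ (-(((0 : ℝ) : ℂ) * I)) = 1 := by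
      intro u
      simp
    simp only [this]
    rw [← intervalIntegral.integral_of_le hy, intervalIntegral.integral_const]
    simp
  simp only [e1] at h1
  rw [e2] at h1
  have h2 := log_pow_bound hy hδ
  have hy0 : 0 < y := by linarith
  have h3 : 1 ≤ y ^ (1 / 2 + δ) := Real.one_le_rpow hy (by linarith)
  have h4 : y ^ (1 / 2 + δ) = y ^ (1 / 2 : ℝ) * y ^ δ := Real.rpow_add hy0 _ _
  have h5 : 0 ≤ y ^ (1 / 2 : ℝ) := Real.rpow_nonneg hy0.le _
  calc _ = ‖(∑ m ∈ Finset.Icc 1 ⌊y⌋₊, ((Λ m : ℝ) : ℂ) - 1 * ((y : ℂ) - 1)) - 1‖ := by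
        congr 1; ring
    _ ≤ ‖∑ m ∈ Finset.Icc 1 ⌊y⌋₊, ((Λ m : ℝ) : ℂ) - 1 * ((y : ℂ) - 1)‖ + ‖(1 : ℂ)‖ := norm_sub_le _ _
    _ ≤ 10000 * (80 + 1) * Real.log (|(0 : ℝ)| + 5) * (y ^ (1 / 2 : ℝ) * Real.log (9 * y) ^ 4) + 1 := by
        rw [norm_one]
        linarith
    _ ≤ 10000 * (80 + 1) * Real.log (|(0 : ℝ)| + 5) * (y ^ (1 / 2 : ℝ) *
          ((4 / δ) ^ 4 * 9 ^ δ * y ^ δ)) + 1 := by gcongr
    _ = 10000 * (80 + 1) * Real.log (|(0 : ℝ)| + 5) * ((4 / δ) ^ 4 * 9 ^ δ) * y ^ (1 / 2 + δ) + 1 := by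
        rw [h4]; ring
    _ ≤ _ := by linarith

theorem boundD (hG : GRHJ) (k : ℕ) (hh : TF (1 / 2) 2 h) (hh1 : mellin h 1 = 0) {δ : ℝ} (hδ : 0 < δ) :
    ∃ C : ℝ, 0 ≤ C ∧ ∀ M : ℝ, 2 ≤ M →
      ‖∑ x ∈ OD (6 * NM M), Sl (fk k) h (NM M) M ((x : ℝ) ^ 2) 1‖ ≤ C * M ^ (1 / 2 + δ) := by
  obtain ⟨E, hE0, hE⟩ := E_zeta hG hδ
  obtain ⟨C1, hC1, h1⟩ := smooth_sum hE0 (by linarith : 0 ≤ 1 / 2 + δ) hE
    (by norm_num : (0 : ℝ) < 1 / 2) (by norm_num : (1 / 2 : ℝ) ≤ 2) hh (Or.inr hh1)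
  obtain ⟨C2, hC2, h2⟩ := sum_sq_fk k
  obtain ⟨C3, hC3, h3⟩ := hh.bounded
  refine ⟨‖cq k‖ * C1 + C2 * C3 * 36, by positivity, ?_⟩
  intro M hM
  have hM0 : 0 < M := by linarith
  have hNM := NM_lt (M := M)
  have hNM3 := NM_le (M := M) (by linarith)
  have e1 : ∑ x ∈ OD (6 * NM M), Sl (fk k) h (NM M) M ((x : ℝ) ^ 2) 1 =
      (cq k / 2) * ∑ m ∈ Finset.Icc 0 (NM M), h (m / M) * ((Λ m : ℝ) : ℂ) +
      ∑ m ∈ Finset.Icc 1 (NM M), ((Λ m : ℝ) : ℂ) * (rh m * h (m / M)) *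
        (∑ x ∈ OD (6 * NM M), fk k ((x : ℝ) ^ 2 / m) - ((√(m : ℝ) / 2 : ℝ) : ℂ) * cq k) := by
    unfold Sl
    rw [Finset.sum_comm, sum_Icc_zero (by simp), Finset.mul_sum, ← Finset.sum_add_distrib]
    apply Finset.sum_congr rfl
    intro m hm
    rw [Finset.mem_Icc] at hm
    have e2 : ∀ x ∈ OD (6 * NM M), ((Λ m : ℝ) : ℂ) * ((jacobiSym (m : ℤ) 1 : ℤ) : ℂ) *
        (rh m * (fk k ((x : ℝ) ^ 2 * ((1 : ℕ) : ℝ) / m) * h (m / M))) =
        (((Λ m : ℝ) : ℂ) * (rh m * h (m / M))) * fk k ((x : ℝ) ^ 2 / m) := by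
      intro x _
      rw [jacobiSym.one_right, Nat.cast_one, mul_one, Int.cast_one]
      ring
    rw [Finset.sum_congr rfl e2, ← Finset.mul_sum]
    have hrs := rh_mul_sqrt hm.1
    push_cast at hrs ⊢
    linear_combination ((1 / 2 : ℂ) * (Λ m : ℂ) * h ((m : ℝ) / M) * cq k) * hrs
  rw [e1]
  have b1 : ‖(cq k / 2) * ∑ m ∈ Finset.Icc 0 (NM M), h (m / M) * ((Λ m : ℝ) : ℂ)‖ ≤
      ‖cq k‖ * C1 * M ^ (1 / 2 + δ) := by
    rw [norm_mul, norm_div]
    have h4 := h1 M (NM M) (by linarith) (by linarith)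
    have h5 : ‖(2 : ℂ)‖ = 2 := by norm_num
    rw [h5]
    have h6 := norm_nonneg (cq k)
    calc ‖cq k‖ / 2 * ‖∑ m ∈ Finset.Icc 0 (NM M), h (m / M) * ((Λ m : ℝ) : ℂ)‖
        ≤ ‖cq k‖ * (C1 * M ^ (1 / 2 + δ)) := by
          apply mul_le_mul (by linarith) h4 (norm_nonneg _) h6
      _ = _ := by ring
  have b2 : ‖∑ m ∈ Finset.Icc 1 (NM M), ((Λ m : ℝ) : ℂ) * (rh m * h (m / M)) *
        (∑ x ∈ OD (6 * NM M), fk k ((x : ℝ) ^ 2 / m) - ((√(m : ℝ) / 2 : ℝ) : ℂ) * cq k)‖ ≤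
      C2 * C3 * 36 * M ^ (1 / 2 + δ) := by
    have h4 : ∀ m ∈ Finset.Icc 1 (NM M), ‖((Λ m : ℝ) : ℂ) * (rh m * h (m / M)) *
        (∑ x ∈ OD (6 * NM M), fk k ((x : ℝ) ^ 2 / m) - ((√(m : ℝ) / 2 : ℝ) : ℂ) * cq k)‖ ≤
        (C3 * C2 * (√(M / 2))⁻¹) * Λ m := by
      intro m hm
      rw [Finset.mem_Icc] at hm
      have hΛ : 0 ≤ Λ m := ArithmeticFunction.vonMangoldt_nonneg
      by_cases hsup : (m : ℝ) / M ∈ Icc (1 / 2 : ℝ) 2
      · have hmM : M / 2 ≤ m := by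
          have := hsup.1
          rw [le_div_iff₀ hM0] at this
          linarith
        have h5 := h2 m (6 * NM M) hm.1 (by omega)
        rw [norm_mul, norm_mul, norm_mul, norm_real, Real.norm_of_nonneg hΛ, rh_norm]
        have hs : 0 < √(M / 2) := Real.sqrt_pos.2 (by linarith)
        have h6 : (√(m : ℝ))⁻¹ ≤ (√(M / 2))⁻¹ := inv_anti₀ hs (Real.sqrt_le_sqrt hmM)
        calc _ ≤ Λ m * ((√(M / 2))⁻¹ * C3) * C2 := by
              gcongr
              · exact h3 _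
              · exact h5
          _ = _ := by ring
      · rw [hh.supp _ hsup, mul_zero, mul_zero, zero_mul, norm_zero]
        positivity
    refine (norm_sum_le_of_le _ h4).trans ?_
    rw [← Finset.mul_sum]
    have h7 : ∑ m ∈ Finset.Icc 1 (NM M), Λ m ≤ 18 * M := by
      have h8 := Chebyshev.psi_le_const_mul_self (x := (NM M : ℝ)) (Nat.cast_nonneg _)
      have h9 : ∑ m ∈ Finset.Icc 1 (NM M), Λ m = Chebyshev.psi (NM M : ℝ) := by
        unfold Chebyshev.psi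
        rw [Nat.floor_natCast]
        rfl
      have h10 : Real.log 4 ≤ 2 := by
        rw [show (4 : ℝ) = 2 ^ 2 by norm_num, Real.log_pow]
        have := Real.log_two_lt_d9
        push_cast
        linarith
      rw [h9]
      have h11 : (0 : ℝ) ≤ NM M := Nat.cast_nonneg _
      nlinarith
    have hsM : 0 < √(M / 2) := Real.sqrt_pos.2 (by linarith)
    have h12 : (√(M / 2))⁻¹ * (18 * M) = 36 * √(M / 2) := by
      have : M / 2 = √(M / 2) * √(M / 2) := (Real.mul_self_sqrt (by linarith)).symm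
      rw [inv_mul_eq_div, div_eq_iff hsM.ne']
      nlinarith
    have h13 : √(M / 2) ≤ M ^ (1 / 2 + δ) := by
      calc √(M / 2) ≤ √M := Real.sqrt_le_sqrt (by linarith)
        _ = M ^ (1 / 2 : ℝ) := Real.sqrt_eq_rpow M
        _ ≤ _ := Real.rpow_le_rpow_of_exponent_le (by linarith) (by linarith)
    calc _ ≤ C3 * C2 * (√(M / 2))⁻¹ * (18 * M) := by gcongr
      _ = C3 * C2 * (36 * √(M / 2)) := by rw [← h12]; ring
      _ ≤ C3 * C2 * (36 * M ^ (1 / 2 + δ)) := by gcongr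
      _ = _ := by ring
  refine (norm_add_le _ _).trans ?_
  linarith

end Pool.Agent.Helper368_LD
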