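import Pool.Agent.Helper368_LD.PairBound2

/-!
# The bounds for the twisted prime sums
-/

set_option autoImplicit false

namespace Pool.Agent.Helper368_LD

open Complex MeasureTheory Set Filter Topology
open scoped ContDiff Real ArithmeticFunction.vonMangoldt
open Pool.Agent.H491R3.J

variable {a b c d : ℝ} {f g h : ℝ → ℂ}

theorem sum_vM_NM {M : ℝ} (hM : 1 ≤ M) : ∑ m ∈ Finset.Icc 1 (NM M), Λ m ≤ 18 * M := by
  have hNM3 := NM_le hM
  have h8 := Chebyshev.psi_le_const_mul_self (x := (NM M : ℝ)) (Nat.cast_nonneg _)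
  have h9 : ∑ m ∈ Finset.Icc 1 (NM M), Λ m = Chebyshev.psi (NM M : ℝ) := by
    unfold Chebyshev.psi
    rw [Nat.floor_natCast]
    rfl
  have h10 : Real.log 4 ≤ 2 := by
    rw [show (4 : ℝ) = 2 ^ 2 by norm_num, Real.log_pow]
    have := Real.log_two_lt_d9
    push_cast
    linarith
  rw [h9]
  have h11 : (0 : ℝ) ≤ NM M := Nat.cast_nonneg _
  nlinarith

theorem PW_trivial (D : ℤ) {Ch : ℝ} (hCh : ∀ v, ‖h v‖ ≤ Ch) {M : ℝ} (hM : 1 ≤ M) :
    ‖PW D h M‖ ≤ 18 * Ch * M := by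
  have hCh0 : 0 ≤ Ch := (norm_nonneg _).trans (hCh 0)
  have h1 : ∀ m ∈ Finset.Icc 1 (NM M), ‖(lp m : ℂ) * ((jacobiSym D m : ℤ) : ℂ) * h (m / M)‖ ≤
      Ch * Λ m := by
    intro m _
    rw [norm_mul, norm_mul, norm_real, Real.norm_of_nonneg (lp_nonneg m)]
    have h2 := lp_le_vM m
    have h3 := jac_norm D m
    have h4 := hCh (m / M)
    have h5 := lp_nonneg m
    calc lp m * ‖((jacobiSym D m : ℤ) : ℂ)‖ * ‖h (m / M)‖ ≤ Λ m * 1 * Ch := by gcongr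
      _ = _ := by ring
  refine (norm_sum_le_of_le _ h1).trans ?_
  rw [← Finset.mul_sum]
  have := sum_vM_NM hM
  nlinarith

theorem sqrt_log_NM {δ M : ℝ} (hδ : 0 < δ) (hM : 1 ≤ M) :
    √(NM M : ℝ) * Real.log (NM M) ≤ 3 ^ (1 / 2 + δ) / δ * M ^ (1 / 2 + δ) := by
  have hN := NM_le hM
  have hN1 : (1 : ℝ) ≤ NM M := by exact_mod_cast NM_pos M
  have hN0 : (0 : ℝ) < NM M := by linarith
  have h1 : Real.log (NM M) ≤ (NM M : ℝ) ^ δ / δ := Real.log_le_rpow_div hN0.le hδ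
  calc √(NM M : ℝ) * Real.log (NM M) ≤ (NM M : ℝ) ^ (1 / 2 : ℝ) * ((NM M : ℝ) ^ δ / δ) := by
        rw [Real.sqrt_eq_rpow]
        gcongr
    _ = (NM M : ℝ) ^ (1 / 2 + δ) / δ := by
        rw [Real.rpow_add hN0]; ring
    _ ≤ (3 * M) ^ (1 / 2 + δ) / δ := by gcongr
    _ = _ := by
        rw [Real.mul_rpow (by norm_num) (by linarith)]; ring

/-- the bound for the pair -/
theorem pair_bound (hG : GRHJ) {k : ℕ} (hk : 1 ≤ k) {σ : ℝ} (hσ0 : 0 < σ) (hσ1 : σ ≤ 1)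
    (hh : TF (1 / 2) 2 h) (hh1 : mellin h 1 = 0) {E e : ℝ} {n : ℕ} (hE0 : 0 ≤ E) (he : 1 / 2 ≤ e)
    (hE : ∀ x t : ℝ, 0 < x → ‖A1 x ((σ : ℂ) + t * I) - (Main1 x ((σ : ℂ) + t * I) -
      Main2 x ((σ : ℂ) + t * I))‖ ≤ E * (1 + |t|) ^ n * x ^ e) {κ : ℝ} (hκ : σ + e < κ) :
    ∃ C : ℝ, 0 ≤ C ∧ ∀ M : ℝ, 1 ≤ M →
      ‖((Real.cos (π * k / 2) + Real.sin (π * k / 2) : ℝ) : ℂ) * PW k h M +
      ((Real.cos (π * k / 2) - Real.sin (π * k / 2) : ℝ) : ℂ) * PW (-k) h M‖ ≤ C * M ^ κ := by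
  obtain ⟨Ch, hCh0, hCh⟩ := hh.bounded
  obtain ⟨C1, hC1, h1⟩ := boundC hG hk hσ0 hσ1 hh hh1 hE0 he hE
  have hδ : 0 < κ - 1 / 2 := by linarith
  obtain ⟨C2, hC2, h2⟩ := boundD hG k hh hh1 hδ
  set δ2 : ℝ := κ - (σ + e) with hδ2
  have hδ20 : 0 < δ2 := by rw [hδ2]; linarith
  set M0 : ℝ := 2 * (k : ℝ) ^ 2 + 5 with hM0
  have hM01 : 5 ≤ M0 := by rw [hM0]; nlinarith [sq_nonneg (k : ℝ)]
  set Ca : ℝ := 12 * Ch * (3 ^ (1 / 2 + (κ - 1 / 2)) / (κ - 1 / 2)) with hCa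
  set Cc : ℝ := C1 * (1 + 18 ^ δ2 / δ2) with hCc
  have hCa0 : 0 ≤ Ca := by positivity
  have hCc0 : 0 ≤ Cc := by positivity
  refine ⟨(4 * (18 * Ch * M0)) + (Ca + Cc + C2), by positivity, ?_⟩
  intro M hM
  have hMpos : 0 < M := by linarith
  have hMκ : 1 ≤ M ^ κ := Real.one_le_rpow hM (by linarith)
  have hcs : ‖((Real.cos (π * k / 2) + Real.sin (π * k / 2) : ℝ) : ℂ)‖ ≤ 2 ∧
      ‖((Real.cos (π * k / 2) - Real.sin (π * k / 2) : ℝ) : ℂ)‖ ≤ 2 := by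
    have h3 := Real.abs_cos_le_one (π * k / 2)
    have h4 := Real.abs_sin_le_one (π * k / 2)
    constructor
    · rw [norm_real, Real.norm_eq_abs]
      exact (abs_add_le _ _).trans (by linarith)
    · rw [norm_real, Real.norm_eq_abs]
      exact (abs_sub _ _).trans (by linarith)
  rcases lt_or_ge M M0 with hlt | hge
  · have p1 := PW_trivial (k : ℤ) hCh hM
    have p2 := PW_trivial (-(k : ℤ)) hCh hM
    have p3 : 18 * Ch * M ≤ 18 * Ch * M0 := by gcongr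
    refine (norm_add_le _ _).trans ?_
    rw [norm_mul, norm_mul]
    calc _ ≤ 2 * (18 * Ch * M0) + 2 * (18 * Ch * M0) :=
          add_le_add (mul_le_mul hcs.1 (p1.trans p3) (norm_nonneg _) (by norm_num))
            (mul_le_mul hcs.2 (p2.trans p3) (norm_nonneg _) (by norm_num))
      _ = (4 * (18 * Ch * M0)) * 1 := by ring
      _ ≤ ((4 * (18 * Ch * M0)) + (Ca + Cc + C2)) * M ^ κ := by
          apply mul_le_mul _ hMκ (by norm_num) (by positivity)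
          linarith
  · have hB := boundB hk hh (by linarith : 2 * (k : ℝ) ^ 2 + 4 < M)
    rw [← hB]
    have hA := boundA k hCh M
    have hC := h1 M hM
    have hD := h2 M (by linarith)
    have hL1 : 1 ≤ 6 * NM M := by have := NM_pos M; omega
    have hTT : TT k h M = ∑ x ∈ OD (6 * NM M), Sl (fk k) h (NM M) M ((x : ℝ) ^ 2) 1 +
        ∑ x ∈ OD (6 * NM M), ∑ l ∈ SS ((6 * NM M : ℕ) : ℝ), Sl (fk k) h (NM M) M ((x : ℝ) ^ 2) l := by
      unfold TT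
      rw [← Finset.sum_add_distrib]
      apply Finset.sum_congr rfl
      intro x _
      exact sum_SF hL1 _
    have hsl := sqrt_log_NM hδ hM
    have hκ2 : 1 / 2 + (κ - 1 / 2) = κ := by ring
    rw [hκ2] at hsl hD
    rw [hκ2] at hCa
    have a1 : 12 * Ch * (√(NM M : ℝ) * Real.log (NM M)) ≤ Ca * M ^ κ := by
      rw [hCa]
      calc _ ≤ 12 * Ch * (3 ^ κ / (κ - 1 / 2) * M ^ κ) := by gcongr
        _ = _ := by ring
    have a2 : C1 * (M ^ (σ + e) * (1 + Real.log ((6 * NM M : ℕ) : ℝ))) ≤ Cc * M ^ κ := by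
      have hN := NM_le hM
      have hN1 : (1 : ℝ) ≤ NM M := by exact_mod_cast NM_pos M
      have l1 : Real.log ((6 * NM M : ℕ) : ℝ) ≤ (18 * M) ^ δ2 / δ2 := by
        refine (Real.log_le_log (by push_cast; linarith) ?_).trans
          (Real.log_le_rpow_div (by linarith) hδ20)
        push_cast
        linarith
      rw [Real.mul_rpow (by norm_num) hMpos.le] at l1
      have l2 : 1 ≤ M ^ δ2 := Real.one_le_rpow hM hδ20.le
      have l3 : 1 + Real.log ((6 * NM M : ℕ) : ℝ) ≤ (1 + 18 ^ δ2 / δ2) * M ^ δ2 := by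
        calc _ ≤ M ^ δ2 + 18 ^ δ2 * M ^ δ2 / δ2 := by linarith
          _ = _ := by ring
      have l4 : M ^ κ = M ^ (σ + e) * M ^ δ2 := by
        rw [← Real.rpow_add hMpos]
        congr 1
        rw [hδ2]; ring
      rw [hCc, l4]
      have l5 : 0 ≤ M ^ (σ + e) := Real.rpow_nonneg hMpos.le _
      calc _ ≤ C1 * (M ^ (σ + e) * ((1 + 18 ^ δ2 / δ2) * M ^ δ2)) := by gcongr
        _ = _ := by ring
    have e1 : ∑ m ∈ Finset.Icc 1 (NM M), ((Λ m : ℝ) : ℂ) * (rh m * h (m / M)) *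
        ((xi m k : ℝ) : ℂ) = TT k h M - (TT k h M - ∑ m ∈ Finset.Icc 1 (NM M),
          ((Λ m : ℝ) : ℂ) * (rh m * h (m / M)) * ((xi m k : ℝ) : ℂ)) := by ring
    rw [e1]
    refine (norm_sub_le _ _).trans ?_
    have h5 : ‖TT k h M‖ ≤ C2 * M ^ κ + Cc * M ^ κ := by
      rw [hTT]
      exact (norm_add_le _ _).trans (add_le_add hD (hC.trans a2))
    have h6 : 0 ≤ 4 * (18 * Ch * M0) * M ^ κ := by positivity
    calc _ ≤ (C2 * M ^ κ + Cc * M ^ κ) + Ca * M ^ κ := add_le_add h5 (hA.trans a1)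
      _ ≤ _ := by nlinarith

/-- the discriminant whose character is in the family -/
def D0 (k : ℕ) : ℤ := if k % 4 = 1 then k else -k

theorem jac_D0 {k p : ℕ} (hk : Odd k) (hp : Odd p) : jacobiSym (D0 k) p = jacobiSym (p : ℤ) k := by
  unfold D0
  have hk2 := Nat.odd_iff.1 hk
  have hp2 := Nat.odd_iff.1 hp
  split_ifs with h
  · exact jacobiSym.quadratic_reciprocity_one_mod_four h hp
  · have hk3 : k % 4 = 3 := by omega
    rw [jacobiSym.neg _ hp]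
    rcases (by omega : p % 4 = 1 ∨ p % 4 = 3) with h1 | h3
    · rw [ZMod.χ₄_nat_one_mod_four h1, one_mul]
      exact (jacobiSym.quadratic_reciprocity_one_mod_four h1 hk).symm
    · rw [ZMod.χ₄_nat_three_mod_four h3,
        jacobiSym.quadratic_reciprocity_three_mod_four hk3 h3]
      ring

theorem sum_D0 {k : ℕ} (hk : Odd k) (y : ℝ) :
    ∑ m ∈ Finset.Icc 0 ⌊y⌋₊, (lp m : ℂ) * ((jacobiSym (D0 k) m : ℤ) : ℂ) =
      ∑ m ∈ Finset.Icc 1 ⌊y⌋₊, (lp m : ℂ) * ((jacobiSym (m : ℤ) k : ℤ) : ℂ) := by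
  rw [sum_Icc_zero (by unfold lp; simp)]
  apply Finset.sum_congr rfl
  intro m _
  by_cases hm : m.Prime ∧ m ≠ 2
  · rw [jac_D0 hk (hm.1.odd_of_ne_two hm.2)]
  · unfold lp
    rw [if_neg hm]
    simp

theorem PS_known (hG : GRHJ) {k : ℕ} (hk : Odd k) {δ : ℝ} (hδ : 0 < δ) :
    ∃ (κ : ℂ) (E : ℝ), 0 ≤ E ∧ ∀ y : ℝ, 1 ≤ y →
      ‖∑ m ∈ Finset.Icc 0 ⌊y⌋₊, (lp m : ℂ) * ((jacobiSym (D0 k) m : ℤ) : ℂ) - κ * y‖ ≤
        E * y ^ (1 / 2 + δ) := by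
  have hl5 := log_five_le 0
  by_cases hsq : IsSquare k
  · obtain ⟨j, hj⟩ := hsq
    have hj1 : 1 ≤ j := by
      rcases Nat.eq_zero_or_pos j with h | h
      · rw [h] at hj
        rw [hj] at hk
        exact absurd hk (by decide)
      · exact h
    have hj2 : k = j ^ 2 := by rw [hj, sq]
    have hk1 : k % 4 = 1 := by
      have : Odd j := by
        rw [hj] at hk
        exact Nat.Odd.of_mul_left hk
      obtain ⟨i, hi⟩ := this
      rw [hj, hi]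
      ring_nf
      omega
    have hD : D0 k = ((j ^ 2 : ℕ) : ℤ) := by
      unfold D0
      rw [if_pos hk1, hj2]
    have hL := log_q_le (q := 4 * ((j ^ 2 : ℕ) : ℝ)) (by positivity)
    refine ⟨1, 10 ^ 6 * Real.log (16 * (4 * ((j ^ 2 : ℕ) : ℝ) + 1)) * Real.log (|(0 : ℝ)| + 5) *
      ((4 / δ) ^ 4 * 9 ^ δ) + 1, by positivity, ?_⟩
    intro y hy
    have h1 := PS_sq (Θ := 1 / 2) le_rfl (by norm_num)
      (fun s h1 h2 => zeta_ne_zero_of_GRHJ hG h1 h2) hj1 0 hy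
    have hy0 : 0 < y := by linarith
    have e2 : ∫ u in Ioc 1 y, (u : ℂ) ^ (-(((0 : ℝ) : ℂ) * I)) = (y : ℂ) - 1 := by
      have : ∀ u : ℝ, (u : ℂ) ^ (-(((0 : ℝ) : ℂ) * I)) = 1 := by
        intro u
        simp
      simp only [this]
      rw [← intervalIntegral.integral_of_le hy, intervalIntegral.integral_const]
      simp
    have e3 : PS ((j ^ 2 : ℕ) : ℤ) 0 y =
        ∑ m ∈ Finset.Icc 0 ⌊y⌋₊, (lp m : ℂ) * ((jacobiSym (D0 k) m : ℤ) : ℂ) := by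
      rw [sum_Icc_zero (by unfold lp; simp), hD]
      unfold PS
      apply Finset.sum_congr rfl
      intro m _
      simp
    rw [e2, e3] at h1
    have h2 := log_pow_bound hy hδ
    have h3 : 1 ≤ y ^ (1 / 2 + δ) := Real.one_le_rpow hy (by linarith)
    have h4 : y ^ (1 / 2 + δ) = y ^ (1 / 2 : ℝ) * y ^ δ := Real.rpow_add hy0 _ _
    have h5 : 0 ≤ y ^ (1 / 2 : ℝ) := Real.rpow_nonneg hy0.le _
    set Lq := Real.log (16 * (4 * ((j ^ 2 : ℕ) : ℝ) + 1)) with hLq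
    set S := ∑ m ∈ Finset.Icc 0 ⌊y⌋₊, (lp m : ℂ) * ((jacobiSym (D0 k) m : ℤ) : ℂ) with hS
    calc ‖S - 1 * y‖ = ‖(S - ((y : ℂ) - 1)) - 1‖ := by congr 1; ring
      _ ≤ ‖S - ((y : ℂ) - 1)‖ + ‖(1 : ℂ)‖ := norm_sub_le _ _
      _ ≤ 10 ^ 6 * Lq * Real.log (|(0 : ℝ)| + 5) * (y ^ (1 / 2 : ℝ) * Real.log (9 * y) ^ 4) + 1 := by
          rw [norm_one]
          linarith
      _ ≤ 10 ^ 6 * Lq * Real.log (|(0 : ℝ)| + 5) * (y ^ (1 / 2 : ℝ) *
            ((4 / δ) ^ 4 * 9 ^ δ * y ^ δ)) + 1 := by gcongr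
      _ = 10 ^ 6 * Lq * Real.log (|(0 : ℝ)| + 5) * ((4 / δ) ^ 4 * 9 ^ δ) * y ^ (1 / 2 + δ) + 1 := by
          rw [h4]; ring
      _ ≤ _ := by linarith
  · have hL := log_q_le (q := (k : ℝ)) (Nat.cast_nonneg k)
    refine ⟨0, 10 ^ 6 * Real.log (16 * ((k : ℝ) + 1)) * Real.log (|(0 : ℝ)| + 5) *
      ((4 / δ) ^ 4 * 9 ^ δ), by positivity, ?_⟩
    intro y hy
    have hy0 : 0 < y := by linarith
    have h1 := PN_bound hG hk hsq 0 hy
    have e3 : PN k 0 y = ∑ m ∈ Finset.Icc 0 ⌊y⌋₊, (lp m : ℂ) * ((jacobiSym (D0 k) m : ℤ) : ℂ) := by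
      rw [sum_D0 hk]
      unfold PN
      apply Finset.sum_congr rfl
      intro m _
      simp
    rw [e3] at h1
    rw [zero_mul, sub_zero]
    refine h1.trans ?_
    have h2 := log_pow_bound hy hδ
    have h4 : y ^ (1 / 2 + δ) = √y * y ^ δ := by rw [Real.sqrt_eq_rpow]; exact Real.rpow_add hy0 _ _
    calc _ ≤ 10 ^ 6 * Real.log (16 * ((k : ℝ) + 1)) * Real.log (|(0 : ℝ)| + 5) *
          (√y * ((4 / δ) ^ 4 * 9 ^ δ * y ^ δ)) := by gcongr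
      _ = _ := by rw [h4]; ring

theorem PW_known (hG : GRHJ) {k : ℕ} (hk : Odd k) (hh : TF (1 / 2) 2 h) (hh1 : mellin h 1 = 0)
    {κ : ℝ} (hκ : 1 / 2 < κ) : ∃ C : ℝ, 0 ≤ C ∧ ∀ M : ℝ, 1 ≤ M → ‖PW (D0 k) h M‖ ≤ C * M ^ κ := by
  obtain ⟨κ0, E, hE0, hE⟩ := PS_known hG hk (by linarith : 0 < κ - 1 / 2)
  have e : 1 / 2 + (κ - 1 / 2) = κ := by ring
  rw [e] at hE
  obtain ⟨Ch, hCh0, hCh⟩ := hh.bounded
  obtain ⟨C, hC0, hC⟩ := smooth_sum hE0 (by linarith : 0 ≤ κ) hE (by norm_num : (0 : ℝ) < 1 / 2)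
    (by norm_num : (1 / 2 : ℝ) ≤ 2) hh (Or.inr hh1)
  refine ⟨C + 18 * Ch * 2, by positivity, ?_⟩
  intro M hM
  have hMκ : 1 ≤ M ^ κ := Real.one_le_rpow hM (by linarith)
  rcases lt_or_ge M 2 with h2 | h2
  · refine (PW_trivial _ hCh hM).trans ?_
    have : 18 * Ch * M ≤ 18 * Ch * 2 := by gcongr
    nlinarith [mul_nonneg hC0 (by linarith : 0 ≤ M ^ κ)]
  · have h3 := hC M (NM M) (by linarith) NM_lt
    have h4 : PW (D0 k) h M = ∑ m ∈ Finset.Icc 0 (NM M), h (m / M) *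
        ((lp m : ℂ) * ((jacobiSym (D0 k) m : ℤ) : ℂ)) := by
      rw [sum_Icc_zero (by unfold lp; simp)]
      unfold PW
      apply Finset.sum_congr rfl
      intro m _
      ring
    rw [h4]
    refine h3.trans ?_
    nlinarith [mul_nonneg hCh0 (by linarith : 0 ≤ M ^ κ)]

end Pool.Agent.Helper368_LD
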