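import Mathlib

/-!
# Moving a vertical line of integration
-/

set_option autoImplicit false

namespace Pool.Agent.Helper368_LD

open Complex MeasureTheory Set Filter Topology

/-- integrability of `(1 + |v|) ^ (-p)` -/
theorem integrable_one_add_abs {p : ℝ} (hp : 1 < p) :
    Integrable (fun v : ℝ => (1 + |v|) ^ (-p)) := by
  have := integrable_one_add_norm (E := ℝ) (μ := volume) (r := p) (by simpa using hp)
  simpa [Real.norm_eq_abs] using this

theorem vline_integrable {f : ℂ → ℂ} {b K p : ℝ} (hp : 1 < p)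
    (hf : Continuous fun v : ℝ => f ((b : ℂ) + v * I))
    (hK : ∀ v : ℝ, ‖f ((b : ℂ) + v * I)‖ ≤ K * (1 + |v|) ^ (-p)) :
    Integrable (fun v : ℝ => f ((b : ℂ) + v * I)) := by
  refine Integrable.mono' ((integrable_one_add_abs hp).const_mul K) hf.aestronglyMeasurable ?_
  exact Eventually.of_forall hK

/-- moving the line -/
theorem vline_shift {f : ℂ → ℂ} {b c K p : ℝ} (hbc : b ≤ c) (hp : 1 < p)
    (hf : ∀ s : ℂ, b ≤ s.re → s.re ≤ c → DifferentiableAt ℂ f s)
    (hK : ∀ s : ℂ, b ≤ s.re → s.re ≤ c → ‖f s‖ ≤ K * (1 + |s.im|) ^ (-p)) :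
    ∫ v : ℝ, f ((b : ℂ) + v * I) = ∫ v : ℝ, f ((c : ℂ) + v * I) := by
  have hcont : ∀ a : ℝ, b ≤ a → a ≤ c → Continuous fun v : ℝ => f ((a : ℂ) + v * I) := by
    intro a h1 h2
    rw [continuous_iff_continuousAt]
    intro v
    have h3 : DifferentiableAt ℂ f ((a : ℂ) + v * I) := hf _ (by simpa using h1) (by simpa using h2)
    have h4 : ContinuousAt (fun v : ℝ => ((a : ℂ) + v * I)) v := by fun_prop
    exact ContinuousAt.comp (g := f) (f := fun v : ℝ => ((a : ℂ) + v * I)) h3.continuousAt h4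
  have hKb : ∀ a : ℝ, b ≤ a → a ≤ c → ∀ v : ℝ, ‖f ((a : ℂ) + v * I)‖ ≤ K * (1 + |v|) ^ (-p) := by
    intro a h1 h2 v
    have := hK ((a : ℂ) + v * I) (by simpa using h1) (by simpa using h2)
    simpa using this
  have hib := vline_integrable hp (hcont b le_rfl hbc) (hKb b le_rfl hbc)
  have hic := vline_integrable hp (hcont c hbc le_rfl) (hKb c hbc le_rfl)
  have hlb : Tendsto (fun V : ℝ => ∫ v in (-V)..V, f ((b : ℂ) + v * I)) atTop
      (𝓝 (∫ v : ℝ, f ((b : ℂ) + v * I))) :=
    intervalIntegral_tendsto_integral hib tendsto_neg_atTop_atBot tendsto_id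
  have hlc : Tendsto (fun V : ℝ => ∫ v in (-V)..V, f ((c : ℂ) + v * I)) atTop
      (𝓝 (∫ v : ℝ, f ((c : ℂ) + v * I))) :=
    intervalIntegral_tendsto_integral hic tendsto_neg_atTop_atBot tendsto_id
  have hz : Tendsto (fun V : ℝ => 2 * ((c - b) * (K * (1 + V) ^ (-p)))) atTop (𝓝 0) := by
    have h1 : Tendsto (fun V : ℝ => (1 + V) ^ (-p)) atTop (𝓝 0) := by
      have h2 := tendsto_rpow_neg_atTop (y := p) (by linarith)
      exact h2.comp (tendsto_atTop_add_const_left _ _ tendsto_id)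
    have h3 := ((h1.const_mul K).const_mul (c - b)).const_mul 2
    simpa using h3
  have hdiff : Tendsto (fun V : ℝ => (∫ v in (-V)..V, f ((c : ℂ) + v * I)) -
      ∫ v in (-V)..V, f ((b : ℂ) + v * I)) atTop (𝓝 0) := by
    apply squeeze_zero_norm' _ hz
    filter_upwards [eventually_ge_atTop (0 : ℝ)] with V hV
    have hrect := Complex.integral_boundary_rect_eq_zero_of_differentiableOn f
      ((b : ℂ) + ((-V : ℝ) : ℂ) * I) ((c : ℂ) + (V : ℂ) * I) (by
        intro s hs
        have hs1 := hs.1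
        simp only [mem_preimage, add_re, ofReal_re, mul_re, I_re, mul_zero, ofReal_im, I_im,
          mul_one, sub_self, add_zero] at hs1
        rw [uIcc_of_le hbc] at hs1
        exact (hf s hs1.1 hs1.2).differentiableWithinAt)
    simp only [add_re, ofReal_re, mul_re, I_re, mul_zero, ofReal_im, I_im,
          mul_one, sub_self, add_zero, add_im, mul_im, zero_add] at hrect
    have hh : ∀ w : ℝ, |w| = V → ‖∫ x in b..c, f ((x : ℂ) + w * I)‖ ≤
        (c - b) * (K * (1 + V) ^ (-p)) := by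
      intro w hw
      have h1 : ∀ x ∈ Set.uIoc b c, ‖f ((x : ℂ) + w * I)‖ ≤ K * (1 + V) ^ (-p) := by
        intro x hx
        rw [uIoc_of_le hbc] at hx
        have := hKb x hx.1.le hx.2 w
        rwa [hw] at this
      have h2 := intervalIntegral.norm_integral_le_of_norm_le_const h1
      rw [abs_of_nonneg (by linarith : (0 : ℝ) ≤ c - b)] at h2
      linarith
    have h1 := hh V (abs_of_nonneg hV)
    have h2 := hh (-V) (by rw [abs_neg]; exact abs_of_nonneg hV)
    have e : (∫ v in (-V)..V, f ((c : ℂ) + v * I)) - ∫ v in (-V)..V, f ((b : ℂ) + v * I) =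
        I * ((∫ x in b..c, f ((x : ℂ) + ((-V : ℝ) : ℂ) * I)) -
          ∫ x in b..c, f ((x : ℂ) + (V : ℂ) * I)) := by
      simp only [smul_eq_mul] at hrect
      have hI : I * I = -1 := I_mul_I
      linear_combination (-I) * hrect + ((∫ v in (-V)..V, f ((c : ℂ) + v * I)) -
        ∫ v in (-V)..V, f ((b : ℂ) + v * I)) * hI
    rw [e, norm_mul, norm_I, one_mul]
    calc _ ≤ ‖∫ x in b..c, f ((x : ℂ) + ((-V : ℝ) : ℂ) * I)‖ +
          ‖∫ x in b..c, f ((x : ℂ) + (V : ℂ) * I)‖ := norm_sub_le _ _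
      _ ≤ _ := by linarith
  have h := tendsto_nhds_unique (hlc.sub hlb) hdiff
  rw [sub_eq_zero] at h
  exact h.symm

end Pool.Agent.Helper368_LD
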