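import Pool.Agent.H379R2.SWP
import Pool.Agent.Helper368_LD.Shift

/-!
# Perron formula for a Dirichlet series with a simple pole on the line `Re s = 1`
-/

set_option autoImplicit false

namespace Pool.Agent.Helper368_LD

open Complex MeasureTheory Set Filter Topology
open scoped Real
open Pool.Agent.H379R2.SW

/-- the smooth main term, through the Perron kernel -/
theorem perron_main {c : ℝ} (hc : 1 < c) {w : ℂ} (hw : w.re = 1) {x : ℝ} (hx : 1 ≤ x) :
    ∫ u in Ioc 1 x, (u : ℂ) ^ (w - 1) * ((Real.log (x / u) : ℝ) : ℂ) =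
      ((Real.exp (c * Real.log x) : ℝ) : ℂ) * ∫ ξ : ℝ,
        (1 / (vert c ξ - w)) / (vert c ξ) ^ 2 *
          cexp (((2 * π * ξ * Real.log x : ℝ) : ℂ) * I) := by
  have hc0 : 0 < c := by linarith
  have hx0 : 0 < x := by linarith
  set μ : Measure ℝ := volume.restrict (Ioi 1) with hμ
  set F : ℝ → ℝ → ℂ := fun u ξ => (u : ℂ) ^ (w - 1 - c) *
      (cexp (((2 * π * ξ * (Real.log x - Real.log u) : ℝ) : ℂ) * I) / (vert c ξ) ^ 2) with hF
  have hnormu : ∀ u ∈ Ioi (1 : ℝ), ‖(u : ℂ) ^ (w - 1 - c)‖ = u ^ (-c) := by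
    intro u hu
    rw [norm_cpow_eq_rpow_re_of_pos (lt_trans one_pos hu)]
    congr 1
    simp [hw]
  have hint1 : Integrable (fun u : ℝ => (u : ℝ) ^ (-c)) μ :=
    (integrableOn_Ioi_rpow_of_lt (by linarith) one_pos)
  have hF1 : Integrable (Function.uncurry F) (μ.prod volume) := by
    have hb : Integrable (fun z : ℝ × ℝ => (z.1 ^ (-c)) * (‖vert c z.2‖ ^ 2)⁻¹)
        (μ.prod volume) :=
      Integrable.mul_prod hint1 (integrable_inv_norm_vert_sq hc.le)
    refine Integrable.mono' hb ?_ ?_
    · apply Measurable.aestronglyMeasurable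
      simp only [hF]
      apply Measurable.mul
      · fun_prop
      · apply Measurable.div
        · fun_prop
        · have := (continuous_vert c).measurable
          fun_prop
    · have hae : ∀ᵐ z : ℝ × ℝ ∂(μ.prod volume), z.1 ∈ Ioi (1 : ℝ) := by
        have h1 : ∀ᵐ u ∂μ, u ∈ Ioi (1 : ℝ) := ae_restrict_mem measurableSet_Ioi
        exact (Measure.quasiMeasurePreserving_fst (μ := μ) (ν := (volume : Measure ℝ))).ae h1
      filter_upwards [hae] with z hz
      simp only [hF, Function.uncurry]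
      rw [norm_mul, hnormu _ hz, norm_div, Complex.norm_exp_ofReal_mul_I, norm_pow, one_div]
  have hswap := integral_integral_swap (f := F) (μ := μ) (ν := volume) hF1
  -- left side
  have hL : ∀ u ∈ Ioi (1 : ℝ), ∫ ξ : ℝ, F u ξ = (u : ℂ) ^ (w - 1 - c) *
      ((max (Real.log x - Real.log u) 0 * Real.exp (-(c * (Real.log x - Real.log u))) : ℝ) : ℂ) := by
    intro u _
    simp only [hF]
    rw [integral_const_mul, perron_kernel hc.le]
  have hR : ∀ ξ : ℝ, ∫ u, F u ξ ∂μ = (1 / (vert c ξ - w)) / (vert c ξ) ^ 2 *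
          cexp (((2 * π * ξ * Real.log x : ℝ) : ℂ) * I) := by
    intro ξ
    have h1 : ∀ u ∈ Ioi (1 : ℝ), F u ξ = (u : ℂ) ^ (w - 1 - vert c ξ) *
        (cexp (((2 * π * ξ * Real.log x : ℝ) : ℂ) * I) / (vert c ξ) ^ 2) := by
      intro u hu
      have hu0 : (u : ℂ) ≠ 0 := by
        have : (0 : ℝ) < u := lt_trans one_pos hu
        exact_mod_cast this.ne'
      simp only [hF]
      have h2 : (u : ℂ) ^ (w - 1 - vert c ξ) = (u : ℂ) ^ (w - 1 - c) *
          cexp (((-(2 * π * ξ * Real.log u) : ℝ) : ℂ) * I) := by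
        have e : w - 1 - vert c ξ = (w - 1 - c) + (-((2 * π * ξ : ℝ) : ℂ) * I) := by
          unfold vert; ring
        rw [e, Complex.cpow_add _ _ hu0]
        congr 1
        rw [Complex.cpow_def_of_ne_zero hu0,
          ← Complex.ofReal_log (lt_trans one_pos hu).le]
        congr 1
        push_cast
        ring
      have h3 : cexp (((2 * π * ξ * (Real.log x - Real.log u) : ℝ) : ℂ) * I) =
          cexp (((-(2 * π * ξ * Real.log u) : ℝ) : ℂ) * I) *
          cexp (((2 * π * ξ * Real.log x : ℝ) : ℂ) * I) := by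
        rw [← Complex.exp_add]
        congr 1
        push_cast
        ring
      rw [h2, h3]
      ring
    rw [hμ, setIntegral_congr_fun measurableSet_Ioi h1, integral_mul_const]
    have h4 : (w - 1 - vert c ξ).re < -1 := by
      simp [hw, vert_re]
      linarith
    rw [integral_Ioi_cpow_of_lt h4 one_pos]
    have h5 : w - 1 - vert c ξ + 1 = -(vert c ξ - w) := by ring
    rw [h5]
    have h6 : vert c ξ - w ≠ 0 := by
      intro h
      have := congrArg Complex.re h
      simp [hw, vert_re] at this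
      linarith
    have h7 := vert_ne_zero hc0 ξ
    rw [ofReal_one, one_cpow]
    field_simp
  have hswap' : ∫ u, ((u : ℂ) ^ (w - 1 - c) *
      ((max (Real.log x - Real.log u) 0 * Real.exp (-(c * (Real.log x - Real.log u))) : ℝ) : ℂ)) ∂μ =
      ∫ ξ : ℝ, (1 / (vert c ξ - w)) / (vert c ξ) ^ 2 *
          cexp (((2 * π * ξ * Real.log x : ℝ) : ℂ) * I) := by
    rw [← integral_congr_ae (Eventually.of_forall hR), ← hswap]
    rw [hμ]
    exact (setIntegral_congr_fun measurableSet_Ioi hL).symm
  rw [← hswap', hμ, ← integral_const_mul]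
  have hsub : Ioc 1 x ⊆ Ioi (1 : ℝ) := fun u hu => hu.1
  rw [← integral_indicator measurableSet_Ioc, ← integral_indicator measurableSet_Ioi]
  congr 1
  ext u
  by_cases hu : u ∈ Ioi (1 : ℝ)
  · have hu0 : 0 < u := lt_trans one_pos hu
    have huc : (u : ℂ) ≠ 0 := by exact_mod_cast hu0.ne'
    rw [indicator_of_mem hu]
    by_cases hux : u ≤ x
    · rw [indicator_of_mem (show u ∈ Ioc 1 x from ⟨hu, hux⟩),
        max_eq_left (sub_nonneg.2 (Real.log_le_log hu0 hux)), Real.log_div hx0.ne' hu0.ne']
      have h1 : (u : ℂ) ^ (w - 1 - c) = (u : ℂ) ^ (w - 1) *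
          ((Real.exp (-(c * Real.log u)) : ℝ) : ℂ) := by
        rw [Complex.cpow_sub _ _ huc, div_eq_mul_inv]
        congr 1
        rw [Complex.cpow_def_of_ne_zero huc, ← Complex.ofReal_log hu0.le, ← Complex.exp_neg]
        push_cast
        congr 1
        ring
      have h2 : Real.exp (-(c * (Real.log x - Real.log u))) =
          Real.exp (-(c * Real.log x)) * Real.exp (c * Real.log u) := by
        rw [← Real.exp_add]; congr 1; ring
      rw [h1, h2, Real.exp_neg, Real.exp_neg]
      have h4 : ((Real.exp (c * Real.log x) : ℝ) : ℂ) ≠ 0 := by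
        exact_mod_cast (Real.exp_pos _).ne'
      have h5 : ((Real.exp (c * Real.log u) : ℝ) : ℂ) ≠ 0 := by
        exact_mod_cast (Real.exp_pos _).ne'
      push_cast at h4 h5 ⊢
      field_simp
    · rw [indicator_of_notMem (fun h => hux h.2), max_eq_right]
      · simp
      · rw [sub_nonpos]
        exact Real.log_le_log hx0 (not_le.1 hux).le
  · rw [indicator_of_notMem (fun h => hu (hsub h)), indicator_of_notMem hu]

end Pool.Agent.Helper368_LD
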