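import Pool.Agent.Helper368_LD.Perron

/-!
# A prime number theorem with a zero free half plane, twisted by `m ^ (-it)`
-/

set_option autoImplicit false

namespace Pool.Agent.Helper368_LD

open Complex MeasureTheory Set Filter Topology
open scoped Real
open Pool.Agent.H379R2.SW

theorem integral_one_add_rpow {p : ℝ} (hp : 1 < p) :
    ∫ x in Ioi (0 : ℝ), (1 + x) ^ (-p) = 1 / (p - 1) := by
  have h1 : ∀ x ∈ Ici (0 : ℝ), HasDerivAt (fun x : ℝ => (1 + x) ^ (1 - p) / (1 - p))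
      ((1 + x) ^ (-p)) x := by
    intro x hx
    have hx' : 0 < 1 + x := by have : (0 : ℝ) ≤ x := hx; linarith
    have h2 : HasDerivAt (fun x : ℝ => 1 + x) 1 x := (hasDerivAt_id x).const_add 1
    have h3 := (h2.rpow_const (p := 1 - p) (Or.inl hx'.ne')).div_const (1 - p)
    have hp' : 1 - p ≠ 0 := by linarith
    refine h3.congr_deriv ?_
    have e : 1 - p - 1 = -p := by ring
    rw [e]
    field_simp
  have h4 : IntegrableOn (fun x : ℝ => (1 + x) ^ (-p)) (Ioi 0) := by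
    have := (integrable_one_add_abs hp).integrableOn (s := Ioi (0 : ℝ))
    refine this.congr_fun (fun x hx => ?_) measurableSet_Ioi
    simp only
    rw [abs_of_pos hx]
  have h5 : Tendsto (fun x : ℝ => (1 + x) ^ (1 - p) / (1 - p)) atTop (𝓝 0) := by
    have h2 := tendsto_rpow_neg_atTop (y := p - 1) (by linarith)
    have h6 := (h2.comp (tendsto_atTop_add_const_left _ 1 tendsto_id)).div_const (1 - p)
    rw [zero_div] at h6
    refine h6.congr (fun x => ?_)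
    simp only [Function.comp, id, neg_sub]
  rw [integral_Ioi_of_hasDerivAt_of_tendsto' h1 h4 h5]
  have hp' : 1 - p ≠ 0 := by linarith
  have hp2 : p - 1 ≠ 0 := by linarith
  simp
  rw [← inv_neg, neg_sub]

theorem integral_one_add_abs {p : ℝ} (hp : 1 < p) :
    ∫ x : ℝ, (1 + |x|) ^ (-p) = 2 / (p - 1) := by
  have := integral_comp_abs (f := fun x : ℝ => (1 + x) ^ (-p))
  rw [this, integral_one_add_rpow hp]
  ring

theorem exp_sub_one_bound {z : ℂ} {a : ℝ} (ha : 0 ≤ a) (ha1 : a ≤ 1) (hz : z.re ≤ 2) :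
    ‖exp z - 1‖ ≤ 9 * ‖z‖ ^ (1 - a) := by
  rcases le_or_gt ‖z‖ 1 with h | h
  · have h1 := Complex.norm_exp_sub_one_le h
    have h2 : ‖z‖ ≤ ‖z‖ ^ (1 - a) := by
      rcases eq_or_lt_of_le (norm_nonneg z) with h0 | h0
      · rw [← h0]; positivity
      · calc ‖z‖ = ‖z‖ ^ (1 : ℝ) := (Real.rpow_one _).symm
          _ ≤ ‖z‖ ^ (1 - a) := Real.rpow_le_rpow_of_exponent_ge h0 h (by linarith)
    nlinarith [norm_nonneg z]
  · have h1 : ‖exp z - 1‖ ≤ ‖exp z‖ + 1 := by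
      have := norm_sub_le (exp z) 1
      simpa using this
    have h2 : ‖exp z‖ ≤ 8 := by
      rw [Complex.norm_exp]
      have h3 : Real.exp z.re ≤ Real.exp 2 := Real.exp_le_exp.2 hz
      have h4 : Real.exp 2 = Real.exp 1 * Real.exp 1 := by rw [← Real.exp_add]; norm_num
      have h5 := Real.exp_one_lt_d9
      have h6 := Real.exp_pos 1
      nlinarith
    have h3 : 1 ≤ ‖z‖ ^ (1 - a) := Real.one_le_rpow h.le (by linarith)
    linarith

theorem log_shift_bound {v t a : ℝ} (ha : 0 < a) (ha1 : a ≤ 1) :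
    Real.log (|v + t| + 5) ≤ Real.log (|t| + 5) * (3 / a * (1 + |v|) ^ (a / 2)) := by
  have hv := abs_nonneg v
  have ht := abs_nonneg t
  have h1 : |v + t| + 5 ≤ (1 + |v|) * (|t| + 5) := by
    have := abs_add_le v t
    nlinarith
  have h2 : Real.log (|v + t| + 5) ≤ Real.log (1 + |v|) + Real.log (|t| + 5) := by
    rw [← Real.log_mul (by positivity) (by positivity)]
    apply Real.log_le_log (by positivity) h1
  have h3 : 1 ≤ Real.log (|t| + 5) := by
    rw [Real.le_log_iff_exp_le (by positivity)]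
    have := Real.exp_one_lt_d9
    linarith
  have h4 : Real.log (1 + |v|) ≤ (1 + |v|) ^ (a / 2) / (a / 2) :=
    Real.log_le_rpow_div (by positivity) (by positivity)
  have h5 : 1 ≤ (1 + |v|) ^ (a / 2) := Real.one_le_rpow (by linarith) (by positivity)
  have h6 : 0 ≤ Real.log (1 + |v|) := Real.log_nonneg (by linarith)
  have h7 : 1 ≤ 1 / a := by rw [le_div_iff₀ ha]; linarith
  have h8 : (1 + |v|) ^ (a / 2) / (a / 2) = 2 * (1 / a) * (1 + |v|) ^ (a / 2) := by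
    field_simp
  have h9 : (3 : ℝ) / a = 3 * (1 / a) := by ring
  rw [h8] at h4
  rw [h9]
  nlinarith [mul_nonneg h6 (by linarith : (0 : ℝ) ≤ Real.log (|t| + 5) - 1),
    mul_nonneg (by linarith : (0 : ℝ) ≤ 1 / a - 1) (by linarith : (0 : ℝ) ≤ (1 + |v|) ^ (a / 2)),
    mul_nonneg (mul_nonneg (by linarith : (0 : ℝ) ≤ 1 / a - 1) (by linarith : (0 : ℝ) ≤
      (1 + |v|) ^ (a / 2))) (by linarith : (0 : ℝ) ≤ Real.log (|t| + 5)),
    mul_le_mul_of_nonneg_left h4 (by linarith : (0 : ℝ) ≤ Real.log (|t| + 5))]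

theorem one_add_le_norm {s : ℂ} (hs : 1 / 2 ≤ s.re) : 1 + |s.im| ≤ 3 * ‖s‖ := by
  have h1 := Complex.abs_re_le_norm s
  have h2 := Complex.abs_im_le_norm s
  have h3 := (abs_le.1 h1).2
  linarith

/-- hypotheses on the Dirichlet series -/
structure Hyp (g : ℕ → ℂ) (κ : ℂ) (G : ℂ → ℂ) (θ B : ℝ) : Prop where
  hθ : 1 / 2 ≤ θ
  hθ1 : θ ≤ 1
  hB0 : 0 ≤ B
  hg : ∀ m, ‖g m‖ ≤ ArithmeticFunction.vonMangoldt m
  hκ : ‖κ‖ ≤ 1
  hG : ∀ s : ℂ, 1 < s.re → LSeries g s = κ / (s - 1) + G s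
  hGd : ∀ s : ℂ, θ < s.re → DifferentiableAt ℂ G s
  hB : ∀ δ : ℝ, 0 < δ → δ ≤ 1 → ∀ s : ℂ, θ + δ ≤ s.re → s.re ≤ 2 →
    ‖G s‖ ≤ B / δ ^ 2 * Real.log (|s.im| + 5)

/-- the twisted coefficients -/
noncomputable def tw (g : ℕ → ℂ) (t : ℝ) (m : ℕ) : ℂ := g m * (m : ℂ) ^ (-((t : ℂ) * I))

theorem norm_natCast_cpow_it (t : ℝ) {m : ℕ} (hm : 0 < m) : ‖(m : ℂ) ^ (-((t : ℂ) * I))‖ = 1 := by
  rw [norm_natCast_cpow_of_pos hm]
  simp

theorem norm_tw_le {g : ℕ → ℂ} (hg : ∀ m, ‖g m‖ ≤ ArithmeticFunction.vonMangoldt m) (t : ℝ) (m : ℕ) :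
    ‖tw g t m‖ ≤ ArithmeticFunction.vonMangoldt m := by
  unfold tw
  rcases Nat.eq_zero_or_pos m with rfl | hm
  · have h0 : g 0 = 0 := by
      have := hg 0
      simpa using this
    simp [h0]
  · rw [norm_mul, norm_natCast_cpow_it t hm, mul_one]
    exact hg m

theorem tw_summable {g : ℕ → ℂ} (hg : ∀ m, ‖g m‖ ≤ ArithmeticFunction.vonMangoldt m) (t : ℝ) {s : ℂ}
    (hs : 1 < s.re) : LSeriesSummable (tw g t) s := by
  have h := ArithmeticFunction.LSeriesSummable_vonMangoldt hs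
  unfold LSeriesSummable at h ⊢
  refine Summable.of_norm_bounded h.norm (fun m => ?_)
  apply LSeries.norm_term_le
  refine (norm_tw_le hg t m).trans (le_of_eq ?_)
  rw [norm_real, Real.norm_of_nonneg ArithmeticFunction.vonMangoldt_nonneg]

theorem tw_LSeries (g : ℕ → ℂ) (t : ℝ) (s : ℂ) :
    LSeries (tw g t) s = LSeries g (s + t * I) := by
  unfold LSeries
  apply tsum_congr
  intro m
  rcases Nat.eq_zero_or_pos m with rfl | hm
  · simp
  · rw [LSeries.term_of_ne_zero hm.ne', LSeries.term_of_ne_zero hm.ne']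
    have hm' : (m : ℂ) ≠ 0 := by exact_mod_cast hm.ne'
    unfold tw
    rw [Complex.cpow_add _ _ hm', Complex.cpow_neg]
    have h1 : (m : ℂ) ^ ((t : ℂ) * I) ≠ 0 := by
      rw [Complex.cpow_def_of_ne_zero hm']; exact exp_ne_zero _
    have h2 : (m : ℂ) ^ s ≠ 0 := by
      rw [Complex.cpow_def_of_ne_zero hm']; exact exp_ne_zero _
    field_simp

/-- the integrand -/
noncomputable def FF (G : ℂ → ℂ) (t L : ℝ) (s : ℂ) : ℂ := G (s + t * I) * exp (s * L) / s ^ 2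

theorem FF_diff {g : ℕ → ℂ} {κ : ℂ} {G : ℂ → ℂ} {θ B : ℝ} (h : Hyp g κ G θ B) (t L : ℝ) {s : ℂ}
    (hs : θ < s.re) : DifferentiableAt ℂ (FF G t L) s := by
  have hθ := h.hθ
  have hs0 : s ^ 2 ≠ 0 := by
    apply pow_ne_zero
    intro h0
    rw [h0] at hs
    simp at hs
    linarith
  have h1 : DifferentiableAt ℂ (fun s : ℂ => G (s + t * I)) s := by
    have h2 : DifferentiableAt ℂ G (s + t * I) := h.hGd _ (by simpa using hs)
    exact h2.comp s (differentiableAt_id.add_const _)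
  have h3 : DifferentiableAt ℂ (fun s : ℂ => s ^ 2) s := by fun_prop
  have h4 : DifferentiableAt ℂ (fun s : ℂ => exp (s * L)) s := by fun_prop
  exact (h1.mul h4).div h3 hs0

theorem FF_bound {g : ℕ → ℂ} {κ : ℂ} {G : ℂ → ℂ} {θ B : ℝ} (h : Hyp g κ G θ B) (t : ℝ) {L δ : ℝ}
    (hL : 0 ≤ L) (hδ : 0 < δ) (hδ1 : δ ≤ 1) {s : ℂ} (hs : θ + δ ≤ s.re) (hs2 : s.re ≤ 2) :
    ‖FF G t L s‖ ≤ (B / δ ^ 2 * (Real.log (|t| + 5) * 3) * Real.exp (2 * L) * 9) *
      (1 + |s.im|) ^ (-(3 / 2) : ℝ) := by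
  have hθ := h.hθ
  have hB0 := h.hB0
  have h1 := h.hB δ hδ hδ1 (s + t * I) (by simpa using hs) (by simpa using hs2)
  have him : (s + t * I).im = s.im + t := by simp
  rw [him] at h1
  have h2 := log_shift_bound (v := s.im) (t := t) (a := 1) one_pos le_rfl
  have h3 := one_add_le_norm (s := s) (by linarith)
  have hv : 0 < 1 + |s.im| := by positivity
  have hs0 : 0 < ‖s‖ := by
    have : 0 < 3 * ‖s‖ := lt_of_lt_of_le hv h3
    linarith
  unfold FF
  rw [norm_div, norm_mul, norm_pow, Complex.norm_exp]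
  have h4 : (s * L).re ≤ 2 * L := by
    have : (s * L).re = s.re * L := by simp
    rw [this]
    exact mul_le_mul_of_nonneg_right hs2 hL
  have h5 : (1 + |s.im|) ^ 2 / 9 ≤ ‖s‖ ^ 2 := by
    rw [div_le_iff₀ (by norm_num)]
    nlinarith
  have h6 : 0 < (1 + |s.im|) ^ 2 / 9 := by positivity
  have hexp : Real.exp (s * L).re ≤ Real.exp (2 * L) := Real.exp_le_exp.2 h4
  have h7 : ‖G (s + t * I)‖ ≤ B / δ ^ 2 * (Real.log (|t| + 5) * (3 * (1 + |s.im|) ^ (1 / 2 : ℝ))) := by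
    refine h1.trans ?_
    apply mul_le_mul_of_nonneg_left _ (by positivity)
    refine h2.trans (le_of_eq ?_)
    norm_num
  have hlog : 0 ≤ Real.log (|t| + 5) := Real.log_nonneg (by have := abs_nonneg t; linarith)
  calc ‖G (s + t * I)‖ * Real.exp (s * L).re / ‖s‖ ^ 2
      ≤ (B / δ ^ 2 * (Real.log (|t| + 5) * (3 * (1 + |s.im|) ^ (1 / 2 : ℝ)))) *
        Real.exp (2 * L) / ((1 + |s.im|) ^ 2 / 9) := by
        apply div_le_div₀ (by positivity) _ h6 h5
        exact mul_le_mul h7 hexp (Real.exp_pos _).le (by positivity)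
    _ = (B / δ ^ 2 * (Real.log (|t| + 5) * 3) * Real.exp (2 * L) * 9) *
        ((1 + |s.im|) ^ (1 / 2 : ℝ) / (1 + |s.im|) ^ 2) := by field_simp
    _ = _ := by
        congr 1
        rw [← Real.rpow_natCast, ← Real.rpow_sub hv]
        norm_num

/-- the remainder -/
noncomputable def RR (g : ℕ → ℂ) (κ : ℂ) (t x : ℝ) : ℂ :=
  ∑ m ∈ Finset.Icc 1 ⌊x⌋₊, tw g t m * ((Real.log (x / m) : ℝ) : ℂ) -
    κ * ∫ u in Ioc 1 x, (u : ℂ) ^ (-((t : ℂ) * I)) * ((Real.log (x / u) : ℝ) : ℂ)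

theorem RR_line2 {g : ℕ → ℂ} {κ : ℂ} {G : ℂ → ℂ} {θ B : ℝ} (h : Hyp g κ G θ B) (t : ℝ) {x : ℝ}
    (hx : 1 ≤ x) :
    RR g κ t x = ((1 / (2 * π) : ℝ) : ℂ) * ∫ v : ℝ, FF G t (Real.log x) ((2 : ℝ) + v * I) := by
  have hx0 : 0 < x := by linarith
  have hθ1 := h.hθ1
  have hL : 0 ≤ Real.log x := Real.log_nonneg hx
  unfold RR
  have hw : (1 - (t : ℂ) * I).re = 1 := by simp
  have hm := perron_main (c := 2) (by norm_num) hw hx
  have e1 : (1 - (t : ℂ) * I) - 1 = -((t : ℂ) * I) := by ring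
  rw [e1] at hm
  have hp := perron_sum (tw g t) (c := 2) (by norm_num) (tw_summable h.hg t (by norm_num)) hx
  rw [hm, hp]
  have hE : ∀ ξ : ℝ, LSeries (tw g t) (vert 2 ξ) / (vert 2 ξ) ^ 2 *
          cexp (((2 * π * ξ * Real.log x : ℝ) : ℂ) * I) =
      κ * ((1 / (vert 2 ξ - (1 - (t : ℂ) * I))) / (vert 2 ξ) ^ 2 *
          cexp (((2 * π * ξ * Real.log x : ℝ) : ℂ) * I)) +
      G (vert 2 ξ + t * I) / (vert 2 ξ) ^ 2 *
          cexp (((2 * π * ξ * Real.log x : ℝ) : ℂ) * I) := by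
    intro ξ
    rw [tw_LSeries, h.hG _ (by simp [vert_re])]
    have e2 : vert 2 ξ + t * I - 1 = vert 2 ξ - (1 - (t : ℂ) * I) := by ring
    rw [e2]
    ring
  have hcF : Continuous (fun v : ℝ => FF G t (Real.log x) (((2 : ℝ) : ℂ) + v * I)) := by
    rw [continuous_iff_continuousAt]
    intro v
    have h3 : DifferentiableAt ℂ (FF G t (Real.log x)) (((2 : ℝ) : ℂ) + v * I) :=
      FF_diff h t _ (by simp; linarith)
    have h4 : ContinuousAt (fun v : ℝ => (((2 : ℝ) : ℂ) + v * I)) v := by fun_prop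
    exact ContinuousAt.comp (g := FF G t (Real.log x)) (f := fun v : ℝ => (((2 : ℝ) : ℂ) + v * I))
      h3.continuousAt h4
  have hiF : Integrable (fun v : ℝ => FF G t (Real.log x) (((2 : ℝ) : ℂ) + v * I)) := by
    apply vline_integrable (p := 3 / 2) (by norm_num) hcF
    intro v
    have := FF_bound h t hL (δ := 1) one_pos le_rfl (s := (((2 : ℝ) : ℂ) + v * I))
      (by simp; linarith) (by simp)
    simpa using this
  have hexp : ∀ ξ : ℝ, ((Real.exp (2 * Real.log x) : ℝ) : ℂ) *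
      (G (vert 2 ξ + t * I) / (vert 2 ξ) ^ 2 * cexp (((2 * π * ξ * Real.log x : ℝ) : ℂ) * I)) =
      FF G t (Real.log x) (((2 : ℝ) : ℂ) + ((2 * π * ξ : ℝ) : ℂ) * I) := by
    intro ξ
    unfold FF
    have e3 : (((2 : ℝ) : ℂ) + ((2 * π * ξ : ℝ) : ℂ) * I) = vert 2 ξ := rfl
    rw [e3]
    have e4 : cexp (vert 2 ξ * (Real.log x : ℝ)) = ((Real.exp (2 * Real.log x) : ℝ) : ℂ) *
        cexp (((2 * π * ξ * Real.log x : ℝ) : ℂ) * I) := by
      rw [Complex.ofReal_exp, ← Complex.exp_add]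
      congr 1
      unfold vert
      push_cast
      ring
    rw [e4]
    ring
  have hiF2 : Integrable (fun ξ : ℝ => FF G t (Real.log x)
      (((2 : ℝ) : ℂ) + ((2 * π * ξ : ℝ) : ℂ) * I)) := by
    have := hiF.comp_mul_left' (R := 2 * π) (by positivity)
    exact this
  have hE2 : ((Real.exp (2 * Real.log x) : ℝ) : ℂ) ≠ 0 := by exact_mod_cast (Real.exp_pos _).ne'
  have hi2 : Integrable (fun ξ : ℝ => G (vert 2 ξ + t * I) / (vert 2 ξ) ^ 2 *
      cexp (((2 * π * ξ * Real.log x : ℝ) : ℂ) * I)) := by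
    have h5 := hiF2.const_mul (((Real.exp (2 * Real.log x) : ℝ) : ℂ))⁻¹
    refine h5.congr (Eventually.of_forall (fun ξ => ?_))
    simp only
    rw [← hexp ξ, ← mul_assoc, inv_mul_cancel₀ hE2, one_mul]
  have hi1 : Integrable (fun ξ : ℝ => κ * ((1 / (vert 2 ξ - (1 - (t : ℂ) * I))) / (vert 2 ξ) ^ 2 *
          cexp (((2 * π * ξ * Real.log x : ℝ) : ℂ) * I))) := by
    apply Integrable.const_mul
    have hne : ∀ ξ : ℝ, vert 2 ξ - (1 - (t : ℂ) * I) ≠ 0 := by
      intro ξ h0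
      have := congrArg Complex.re h0
      simp [vert_re] at this
      linarith
    refine Integrable.mono' (integrable_inv_norm_vert_sq (c := 2) (by norm_num)) ?_ ?_
    · apply Continuous.aestronglyMeasurable
      have hcv := continuous_vert 2
      apply Continuous.mul _ (by fun_prop)
      apply Continuous.div _ (hcv.pow 2) (fun ξ => pow_ne_zero 2 (vert_ne_zero (by norm_num) ξ))
      exact continuous_const.div (hcv.sub continuous_const) hne
    · refine Eventually.of_forall (fun ξ => ?_)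
      rw [norm_mul, Complex.norm_exp_ofReal_mul_I, mul_one, norm_div, norm_div, norm_one, norm_pow]
      have h6 : 1 ≤ ‖vert 2 ξ - (1 - (t : ℂ) * I)‖ := by
        have := Complex.abs_re_le_norm (vert 2 ξ - (1 - (t : ℂ) * I))
        have h7 : (vert 2 ξ - (1 - (t : ℂ) * I)).re = 1 := by
          simp [vert_re]; norm_num
        rw [h7] at this
        simpa using this
      have h8 : 1 / ‖vert 2 ξ - (1 - (t : ℂ) * I)‖ ≤ 1 := by
        rw [div_le_one (by linarith)]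
        exact h6
      have h9 : 0 ≤ ‖vert 2 ξ‖ ^ 2 := by positivity
      calc _ ≤ 1 / ‖vert 2 ξ‖ ^ 2 := by gcongr
        _ = _ := one_div _
  have hsum : ∫ ξ : ℝ, LSeries (tw g t) (vert 2 ξ) / (vert 2 ξ) ^ 2 *
          cexp (((2 * π * ξ * Real.log x : ℝ) : ℂ) * I) =
      κ * (∫ ξ : ℝ, ((1 / (vert 2 ξ - (1 - (t : ℂ) * I))) / (vert 2 ξ) ^ 2 *
          cexp (((2 * π * ξ * Real.log x : ℝ) : ℂ) * I))) +
      ∫ ξ : ℝ, G (vert 2 ξ + t * I) / (vert 2 ξ) ^ 2 *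
          cexp (((2 * π * ξ * Real.log x : ℝ) : ℂ) * I) := by
    rw [integral_congr_ae (Eventually.of_forall hE), integral_add hi1 hi2, integral_const_mul]
  rw [hsum]
  have hchg : ∫ ξ : ℝ, FF G t (Real.log x) (((2 : ℝ) : ℂ) + ((2 * π * ξ : ℝ) : ℂ) * I) =
      ((1 / (2 * π) : ℝ) : ℂ) * ∫ v : ℝ, FF G t (Real.log x) (((2 : ℝ) : ℂ) + v * I) := by
    have := MeasureTheory.Measure.integral_comp_mul_left
      (fun v : ℝ => FF G t (Real.log x) (((2 : ℝ) : ℂ) + v * I)) (2 * π)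
    rw [this, abs_of_pos (by positivity), real_smul, one_div]
  rw [← hchg, ← integral_congr_ae (Eventually.of_forall hexp), integral_const_mul]
  push_cast
  ring

theorem RR_line {g : ℕ → ℂ} {κ : ℂ} {G : ℂ → ℂ} {θ B : ℝ} (h : Hyp g κ G θ B) (t : ℝ) {x δ : ℝ}
    (hx : 1 ≤ x) (hδ : 0 < δ) (hδ1 : δ ≤ 1) :
    RR g κ t x = ((1 / (2 * π) : ℝ) : ℂ) *
      ∫ v : ℝ, FF G t (Real.log x) (((θ + δ : ℝ) : ℂ) + v * I) := by
  have hθ := h.hθ
  have hθ1 := h.hθ1
  rw [RR_line2 h t hx]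
  congr 1
  symm
  apply vline_shift (p := 3 / 2) (by linarith) (by norm_num)
  · intro s h1 _
    exact FF_diff h t _ (by linarith)
  · intro s h1 h2
    exact FF_bound h t (Real.log_nonneg hx) hδ hδ1 h1 h2

theorem FF_integrable {g : ℕ → ℂ} {κ : ℂ} {G : ℂ → ℂ} {θ B : ℝ} (h : Hyp g κ G θ B) (t : ℝ)
    {L δ : ℝ} (hL : 0 ≤ L) (hδ : 0 < δ) (hδ1 : δ ≤ 1) :
    Integrable (fun v : ℝ => FF G t L (((θ + δ : ℝ) : ℂ) + v * I)) := by
  have hθ := h.hθ
  have hθ1 := h.hθ1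
  apply vline_integrable (p := 3 / 2) (by norm_num)
  · rw [continuous_iff_continuousAt]
    intro v
    have h3 : DifferentiableAt ℂ (FF G t L) (((θ + δ : ℝ) : ℂ) + v * I) :=
      FF_diff h t _ (by simp; linarith)
    have h4 : ContinuousAt (fun v : ℝ => (((θ + δ : ℝ) : ℂ) + v * I)) v := by fun_prop
    exact ContinuousAt.comp (g := FF G t L) (f := fun v : ℝ => (((θ + δ : ℝ) : ℂ) + v * I))
      h3.continuousAt h4
  · intro v
    have := FF_bound h t hL hδ hδ1 (s := (((θ + δ : ℝ) : ℂ) + v * I))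
      (by simp) (by simp; linarith)
    simpa using this

/-- the difference of the remainder -/
theorem RR_diff {g : ℕ → ℂ} {κ : ℂ} {G : ℂ → ℂ} {θ B : ℝ} (h : Hyp g κ G θ B) (t : ℝ)
    {x η δ a : ℝ} (hx : 1 ≤ x) (hη : 0 < η) (hη1 : η ≤ 1) (hδ : 0 < δ) (hδ1 : δ ≤ 1)
    (ha : 0 < a) (ha1 : a ≤ 1) :
    ‖RR g κ t (x * Real.exp η) - RR g κ t x‖ ≤
      1000 * (B / δ ^ 2 * Real.log (|t| + 5)) * (x ^ (θ + δ) * η ^ (1 - a)) / a ^ 2 := by
  have hθ := h.hθ
  have hθ1 := h.hθ1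
  have hB0 := h.hB0
  have hx0 : 0 < x := by linarith
  have hex : 1 ≤ Real.exp η := by
    have := Real.add_one_le_exp η; linarith
  have hxe : 1 ≤ x * Real.exp η := by nlinarith
  have hL : 0 ≤ Real.log x := Real.log_nonneg hx
  have hlogxe : Real.log (x * Real.exp η) = Real.log x + η := by
    rw [Real.log_mul hx0.ne' (Real.exp_pos _).ne', Real.log_exp]
  have hlog : 0 ≤ Real.log (|t| + 5) := Real.log_nonneg (by have := abs_nonneg t; linarith)
  rw [RR_line h t hxe hδ hδ1, RR_line h t hx hδ hδ1, ← mul_sub, hlogxe,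
    ← integral_sub (FF_integrable h t (by linarith) hδ hδ1) (FF_integrable h t hL hδ hδ1), norm_mul]
  have hpt : ∀ v : ℝ, ‖FF G t (Real.log x + η) (((θ + δ : ℝ) : ℂ) + v * I) -
      FF G t (Real.log x) (((θ + δ : ℝ) : ℂ) + v * I)‖ ≤
      ((B / δ ^ 2 * Real.log (|t| + 5)) * (x ^ (θ + δ) * η ^ (1 - a)) * (243 / a)) *
        (1 + |v|) ^ (-(1 + a / 2)) := by
    intro v
    set s : ℂ := ((θ + δ : ℝ) : ℂ) + v * I with hs
    have hsre : s.re = θ + δ := by simp [hs]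
    have hsim : s.im = v := by simp [hs]
    have e1 : FF G t (Real.log x + η) s - FF G t (Real.log x) s =
        G (s + t * I) * exp (s * Real.log x) * (exp (s * η) - 1) / s ^ 2 := by
      unfold FF
      have : exp (s * ((Real.log x + η : ℝ) : ℂ)) = exp (s * Real.log x) * exp (s * η) := by
        rw [← Complex.exp_add]; congr 1; push_cast; ring
      rw [this]
      ring
    rw [e1, norm_div, norm_mul, norm_mul, norm_pow]
    have h1 := h.hB δ hδ hδ1 (s + t * I) (by simp [hsre]) (by simp [hsre]; linarith)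
    have him : (s + t * I).im = v + t := by simp [hsim]
    rw [him] at h1
    have h2 := log_shift_bound (v := v) (t := t) ha ha1
    have h3 := one_add_le_norm (s := s) (by rw [hsre]; linarith)
    rw [hsim] at h3
    have hv : 0 < 1 + |v| := by positivity
    have hs0 : 0 < ‖s‖ := by
      have : 0 < 3 * ‖s‖ := lt_of_lt_of_le hv h3
      linarith
    have h4 : ‖exp (s * Real.log x)‖ = x ^ (θ + δ) := by
      rw [Complex.norm_exp, Real.rpow_def_of_pos hx0]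
      congr 1
      simp only [mul_re, hsre, ofReal_re, ofReal_im, mul_zero, sub_zero]
      ring
    have h5 : ‖exp (s * η) - 1‖ ≤ 9 * (‖s‖ * η) ^ (1 - a) := by
      have h6 := exp_sub_one_bound (z := s * η) ha.le ha1 (by
        simp only [mul_re, hsre, ofReal_re, ofReal_im, mul_zero, sub_zero]
        nlinarith)
      rwa [norm_mul, norm_real, Real.norm_of_nonneg hη.le] at h6
    rw [Real.mul_rpow hs0.le hη.le] at h5
    rw [h4]
    have h7 : ‖G (s + t * I)‖ ≤ B / δ ^ 2 * (Real.log (|t| + 5) * (3 / a * (1 + |v|) ^ (a / 2))) :=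
      h1.trans (mul_le_mul_of_nonneg_left h2 (by positivity))
    have hxp : 0 ≤ x ^ (θ + δ) := Real.rpow_nonneg hx0.le _
    have hηp : 0 ≤ η ^ (1 - a) := Real.rpow_nonneg hη.le _
    have h8 : ‖s‖ ^ (1 - a) / ‖s‖ ^ 2 ≤ 9 * (1 + |v|) ^ (-(1 + a)) := by
      have e2 : ‖s‖ ^ (1 - a) / ‖s‖ ^ 2 = ‖s‖ ^ (-(1 + a)) := by
        rw [← Real.rpow_natCast, ← Real.rpow_sub hs0]
        congr 1
        push_cast
        ring
      rw [e2]
      have h9 : (1 + |v|) / 3 ≤ ‖s‖ := by linarith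
      calc ‖s‖ ^ (-(1 + a)) ≤ ((1 + |v|) / 3) ^ (-(1 + a)) :=
            Real.rpow_le_rpow_of_nonpos (by positivity) h9 (by linarith)
        _ = (1 + |v|) ^ (-(1 + a)) * 3 ^ (1 + a) := by
            rw [Real.div_rpow hv.le (by norm_num), Real.rpow_neg (by norm_num : (0 : ℝ) ≤ 3)]
            field_simp
        _ ≤ (1 + |v|) ^ (-(1 + a)) * 3 ^ (2 : ℝ) := by
            apply mul_le_mul_of_nonneg_left _ (Real.rpow_nonneg hv.le _)
            exact Real.rpow_le_rpow_of_exponent_le (by norm_num) (by linarith)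
        _ = 9 * (1 + |v|) ^ (-(1 + a)) := by norm_num; ring
    calc ‖G (s + t * I)‖ * x ^ (θ + δ) * ‖exp (s * η) - 1‖ / ‖s‖ ^ 2
        ≤ (B / δ ^ 2 * (Real.log (|t| + 5) * (3 / a * (1 + |v|) ^ (a / 2)))) * x ^ (θ + δ) *
          (9 * (‖s‖ ^ (1 - a) * η ^ (1 - a))) / ‖s‖ ^ 2 := by
          gcongr
      _ = (B / δ ^ 2 * (Real.log (|t| + 5) * (3 / a * (1 + |v|) ^ (a / 2)))) * x ^ (θ + δ) *
          (9 * η ^ (1 - a)) * (‖s‖ ^ (1 - a) / ‖s‖ ^ 2) := by ring
      _ ≤ (B / δ ^ 2 * (Real.log (|t| + 5) * (3 / a * (1 + |v|) ^ (a / 2)))) * x ^ (θ + δ) *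
          (9 * η ^ (1 - a)) * (9 * (1 + |v|) ^ (-(1 + a))) := by
          gcongr
      _ = ((B / δ ^ 2 * Real.log (|t| + 5)) * (x ^ (θ + δ) * η ^ (1 - a)) * (243 / a)) *
          ((1 + |v|) ^ (a / 2) * (1 + |v|) ^ (-(1 + a))) := by ring
      _ = _ := by
          rw [← Real.rpow_add hv]
          congr 2
          ring
  have hint : Integrable (fun v : ℝ => ((B / δ ^ 2 * Real.log (|t| + 5)) *
      (x ^ (θ + δ) * η ^ (1 - a)) * (243 / a)) * (1 + |v|) ^ (-(1 + a / 2))) :=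
    (integrable_one_add_abs (by linarith)).const_mul _
  have hI := norm_integral_le_of_norm_le hint (Eventually.of_forall hpt)
  rw [integral_const_mul, integral_one_add_abs (by linarith)] at hI
  have hpi := Real.pi_gt_three
  have hn : ‖((1 / (2 * π) : ℝ) : ℂ)‖ ≤ 1 / 6 := by
    rw [norm_real, Real.norm_of_nonneg (by positivity), div_le_div_iff₀ (by positivity) (by norm_num)]
    linarith
  set Y : ℝ := (B / δ ^ 2 * Real.log (|t| + 5)) * (x ^ (θ + δ) * η ^ (1 - a)) with hY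
  have hY0 : 0 ≤ Y := by
    rw [hY]
    have hxp : 0 ≤ x ^ (θ + δ) := Real.rpow_nonneg hx0.le _
    have hηp : 0 ≤ η ^ (1 - a) := Real.rpow_nonneg hη.le _
    positivity
  calc _ ≤ 1 / 6 * (Y * (243 / a) * (2 / (1 + a / 2 - 1))) := by
        apply mul_le_mul hn hI (norm_nonneg _) (by norm_num)
    _ = 162 * Y / a ^ 2 := by
        have e : 1 + a / 2 - 1 = a / 2 := by ring
        rw [e]
        field_simp
        ring
    _ ≤ 1000 * Y / a ^ 2 := by gcongr; norm_num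
    _ = _ := by rw [hY]; ring

theorem card_Ioc_floor_le {x y : ℝ} (hx : 0 ≤ x) (hxy : x ≤ y) :
    (((Finset.Ioc ⌊x⌋₊ ⌊y⌋₊).card : ℕ) : ℝ) ≤ y - x + 1 := by
  rw [Nat.card_Ioc, Nat.cast_sub (Nat.floor_mono hxy)]
  have h1 := Nat.floor_le (hx.trans hxy)
  have h2 := Nat.lt_floor_add_one x
  linarith

theorem RR_diff_lower {g : ℕ → ℂ} {κ : ℂ} (hg : ∀ m, ‖g m‖ ≤ ArithmeticFunction.vonMangoldt m)
    (hκ : ‖κ‖ ≤ 1) (t : ℝ) {x η : ℝ} (hx : 1 ≤ x) (hη : 0 < η) (hη1 : η ≤ 1) :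
    ‖(η : ℂ) * (∑ m ∈ Finset.Icc 1 ⌊x⌋₊, tw g t m - κ * ∫ u in Ioc 1 x, (u : ℂ) ^ (-((t : ℂ) * I)))‖ ≤
      ‖RR g κ t (x * Real.exp η) - RR g κ t x‖ + η * (Real.log (3 * x) * (4 * η * x + 1)) := by
  have hx0 : 0 < x := by linarith
  have hex : 1 ≤ Real.exp η := by
    have := Real.add_one_le_exp η; linarith
  set y : ℝ := x * Real.exp η with hy
  have hxy : x ≤ y := by rw [hy]; nlinarith
  have hy0 : 0 < y := by linarith
  have hy1 : 1 ≤ y := by linarith
  have hyx : y - x ≤ 2 * η * x := by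
    have h1 : Real.exp η ≤ 1 + 2 * η := by
      have h2 := Real.exp_bound_div_one_sub_of_interval hη.le
      have h3 := Real.abs_exp_sub_one_le (x := η) (by rw [abs_of_pos hη]; exact hη1)
      rw [abs_of_pos hη] at h3
      have := (abs_le.1 h3).2
      linarith
    rw [hy]; nlinarith
  have hlogy : Real.log y = Real.log x + η := by
    rw [hy, Real.log_mul hx0.ne' (Real.exp_pos _).ne', Real.log_exp]
  -- the sum part
  have hsplit : Finset.Icc 1 ⌊y⌋₊ = Finset.Icc 1 ⌊x⌋₊ ∪ Finset.Ioc ⌊x⌋₊ ⌊y⌋₊ := by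
    ext m
    simp only [Finset.mem_Icc, Finset.mem_union, Finset.mem_Ioc]
    have := Nat.floor_mono hxy
    have h1 : 1 ≤ ⌊x⌋₊ := Nat.le_floor (by simpa using hx)
    omega
  have hdisj : Disjoint (Finset.Icc 1 ⌊x⌋₊) (Finset.Ioc ⌊x⌋₊ ⌊y⌋₊) := by
    rw [Finset.disjoint_left]
    intro m hm hm2
    simp only [Finset.mem_Icc, Finset.mem_Ioc] at hm hm2
    omega
  have hS : ∑ m ∈ Finset.Icc 1 ⌊y⌋₊, tw g t m * ((Real.log (y / m) : ℝ) : ℂ) =
      ∑ m ∈ Finset.Icc 1 ⌊x⌋₊, tw g t m * ((Real.log (x / m) : ℝ) : ℂ) +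
      (η : ℂ) * ∑ m ∈ Finset.Icc 1 ⌊x⌋₊, tw g t m +
      ∑ m ∈ Finset.Ioc ⌊x⌋₊ ⌊y⌋₊, tw g t m * ((Real.log (y / m) : ℝ) : ℂ) := by
    rw [hsplit, Finset.sum_union hdisj, Finset.mul_sum, ← Finset.sum_add_distrib]
    congr 1
    apply Finset.sum_congr rfl
    intro m hm
    rw [Finset.mem_Icc] at hm
    have hm0 : (0 : ℝ) < m := by exact_mod_cast (by omega : 0 < m)
    rw [Real.log_div hy0.ne' hm0.ne', Real.log_div hx0.ne' hm0.ne', hlogy]
    push_cast
    ring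
  -- the integral part
  have hlogint : ∀ z : ℝ, 1 ≤ z → IntegrableOn (fun u : ℝ => (u : ℂ) ^ (-((t : ℂ) * I)) *
      ((Real.log (y / u) : ℝ) : ℂ)) (Ioc 1 z) := by
    intro z hz
    apply IntegrableOn.mono_set _ Ioc_subset_Icc_self
    apply ContinuousOn.integrableOn_Icc
    intro u hu
    have hu0 : 0 < u := by linarith [hu.1]
    apply ContinuousAt.continuousWithinAt
    apply ContinuousAt.mul
    · exact (Complex.continuousAt_ofReal_cpow_const _ _ (Or.inr hu0.ne'))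
    · apply Complex.continuous_ofReal.continuousAt.comp
      apply ContinuousAt.log _ (div_pos hy0 hu0).ne'
      exact continuousAt_const.div continuousAt_id hu0.ne'
  have hpowint : ∀ z : ℝ, 1 ≤ z → IntegrableOn (fun u : ℝ => (u : ℂ) ^ (-((t : ℂ) * I))) (Ioc 1 z) := by
    intro z hz
    apply IntegrableOn.mono_set _ Ioc_subset_Icc_self
    apply ContinuousOn.integrableOn_Icc
    intro u hu
    have hu0 : 0 < u := by linarith [hu.1]
    exact (Complex.continuousAt_ofReal_cpow_const _ _ (Or.inr hu0.ne')).continuousWithinAt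
  have hlogint2 : IntegrableOn (fun u : ℝ => (u : ℂ) ^ (-((t : ℂ) * I)) *
      ((Real.log (x / u) : ℝ) : ℂ)) (Ioc 1 x) := by
    apply IntegrableOn.mono_set _ Ioc_subset_Icc_self
    apply ContinuousOn.integrableOn_Icc
    intro u hu
    have hu0 : 0 < u := by linarith [hu.1]
    apply ContinuousAt.continuousWithinAt
    apply ContinuousAt.mul
    · exact (Complex.continuousAt_ofReal_cpow_const _ _ (Or.inr hu0.ne'))
    · apply Complex.continuous_ofReal.continuousAt.comp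
      apply ContinuousAt.log _ (div_pos hx0 hu0).ne'
      exact continuousAt_const.div continuousAt_id hu0.ne'
  have hIoc : Ioc 1 y = Ioc 1 x ∪ Ioc x y := (Ioc_union_Ioc_eq_Ioc hx hxy).symm
  have hInt : ∫ u in Ioc 1 y, (u : ℂ) ^ (-((t : ℂ) * I)) * ((Real.log (y / u) : ℝ) : ℂ) =
      (∫ u in Ioc 1 x, (u : ℂ) ^ (-((t : ℂ) * I)) * ((Real.log (x / u) : ℝ) : ℂ)) +
      (η : ℂ) * (∫ u in Ioc 1 x, (u : ℂ) ^ (-((t : ℂ) * I))) +
      ∫ u in Ioc x y, (u : ℂ) ^ (-((t : ℂ) * I)) * ((Real.log (y / u) : ℝ) : ℂ) := by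
    have h1 := hlogint y hy1
    rw [hIoc] at h1
    rw [hIoc, setIntegral_union (by
      rw [Set.disjoint_left]
      intro u hu hu2
      exact absurd hu.2 (not_le.2 hu2.1)) measurableSet_Ioc (h1.mono_set subset_union_left)
      (h1.mono_set subset_union_right)]
    congr 1
    rw [← integral_const_mul, ← integral_add hlogint2 ((hpowint x hx).const_mul _)]
    apply setIntegral_congr_fun measurableSet_Ioc
    intro u hu
    have hu0 : 0 < u := by linarith [hu.1]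
    simp only
    rw [Real.log_div hy0.ne' hu0.ne', Real.log_div hx0.ne' hu0.ne', hlogy]
    push_cast
    ring
  have e : (η : ℂ) * (∑ m ∈ Finset.Icc 1 ⌊x⌋₊, tw g t m -
      κ * ∫ u in Ioc 1 x, (u : ℂ) ^ (-((t : ℂ) * I))) = (RR g κ t y - RR g κ t x) -
      ∑ m ∈ Finset.Ioc ⌊x⌋₊ ⌊y⌋₊, tw g t m * ((Real.log (y / m) : ℝ) : ℂ) +
      κ * ∫ u in Ioc x y, (u : ℂ) ^ (-((t : ℂ) * I)) * ((Real.log (y / u) : ℝ) : ℂ) := by
    unfold RR
    rw [hS, hInt]
    ring
  have hlog3 : 1 ≤ Real.log (3 * x) := by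
    rw [Real.le_log_iff_exp_le (by positivity)]
    have := Real.exp_one_lt_d9
    linarith
  have hb1 : ‖∑ m ∈ Finset.Ioc ⌊x⌋₊ ⌊y⌋₊, tw g t m * ((Real.log (y / m) : ℝ) : ℂ)‖ ≤
      (2 * η * x + 1) * (Real.log (3 * x) * η) := by
    refine (norm_sum_le_of_le (f := fun m => tw g t m * ((Real.log (y / m) : ℝ) : ℂ))
      (n := fun _ => Real.log (3 * x) * η) _ ?_).trans ?_
    · intro m hm
      rw [Finset.mem_Ioc] at hm
      have hm1 : x < m := by
        have := (Nat.floor_lt hx0.le).1 hm.1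
        exact this
      have hm2 : (m : ℝ) ≤ y := (Nat.le_floor_iff hy0.le).1 hm.2
      have hm0 : (0 : ℝ) < m := by linarith
      rw [norm_mul]
      apply mul_le_mul _ _ (norm_nonneg _) (by linarith)
      · refine (norm_tw_le hg t m).trans (ArithmeticFunction.vonMangoldt_le_log.trans ?_)
        apply Real.log_le_log hm0
        have h3 : Real.exp η ≤ 3 := by
          have h4 : Real.exp η ≤ Real.exp 1 := Real.exp_le_exp.2 hη1
          have := Real.exp_one_lt_d9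
          linarith
        calc (m : ℝ) ≤ y := hm2
          _ = x * Real.exp η := rfl
          _ ≤ x * 3 := by gcongr
          _ = 3 * x := by ring
      · rw [norm_real, Real.norm_eq_abs, Real.log_div hy0.ne' hm0.ne', hlogy]
        have h5 : Real.log m ≤ Real.log x + η := by
          rw [← hlogy]; exact Real.log_le_log hm0 hm2
        have h6 : Real.log x ≤ Real.log m := Real.log_le_log hx0 hm1.le
        rw [abs_of_nonneg (by linarith)]
        linarith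
    · rw [Finset.sum_const, nsmul_eq_mul]
      apply mul_le_mul_of_nonneg_right _ (by positivity)
      have := card_Ioc_floor_le hx0.le hxy
      linarith
  have hb2 : ‖κ * ∫ u in Ioc x y, (u : ℂ) ^ (-((t : ℂ) * I)) * ((Real.log (y / u) : ℝ) : ℂ)‖ ≤
      η * (2 * η * x) := by
    rw [norm_mul]
    have h7 : ‖∫ u in Ioc x y, (u : ℂ) ^ (-((t : ℂ) * I)) * ((Real.log (y / u) : ℝ) : ℂ)‖ ≤
        η * (y - x) := by
      have := norm_setIntegral_le_of_norm_le_const (μ := volume) (s := Ioc x y) (C := η)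
        (f := fun u : ℝ => (u : ℂ) ^ (-((t : ℂ) * I)) * ((Real.log (y / u) : ℝ) : ℂ))
        (by rw [Real.volume_Ioc]; exact ENNReal.ofReal_lt_top) (by
          intro u hu
          have hu0 : 0 < u := lt_trans hx0 hu.1
          rw [norm_mul, norm_cpow_eq_rpow_re_of_pos hu0]
          simp only [neg_re, mul_re, ofReal_re, I_re, mul_zero, ofReal_im, I_im, mul_one, sub_self,
            neg_zero, Real.rpow_zero, one_mul]
          rw [norm_real, Real.norm_eq_abs, Real.log_div hy0.ne' hu0.ne', hlogy]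
          have h5 : Real.log u ≤ Real.log x + η := by
            rw [← hlogy]; exact Real.log_le_log hu0 hu.2
          have h6 : Real.log x ≤ Real.log u := Real.log_le_log hx0 hu.1.le
          rw [abs_of_nonneg (by linarith)]
          linarith)
      rwa [Real.volume_real_Ioc_of_le hxy] at this
    calc ‖κ‖ * _ ≤ 1 * (η * (y - x)) := mul_le_mul hκ h7 (norm_nonneg _) (by norm_num)
      _ ≤ _ := by rw [one_mul]; gcongr
  rw [e]
  calc _ ≤ ‖(RR g κ t y - RR g κ t x) -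
      ∑ m ∈ Finset.Ioc ⌊x⌋₊ ⌊y⌋₊, tw g t m * ((Real.log (y / m) : ℝ) : ℂ)‖ +
      ‖κ * ∫ u in Ioc x y, (u : ℂ) ^ (-((t : ℂ) * I)) * ((Real.log (y / u) : ℝ) : ℂ)‖ :=
        norm_add_le _ _
    _ ≤ ‖RR g κ t y - RR g κ t x‖ + ‖∑ m ∈ Finset.Ioc ⌊x⌋₊ ⌊y⌋₊, tw g t m *
      ((Real.log (y / m) : ℝ) : ℂ)‖ + η * (2 * η * x) := by
        gcongr
        exact norm_sub_le _ _
    _ ≤ ‖RR g κ t y - RR g κ t x‖ + (2 * η * x + 1) * (Real.log (3 * x) * η) +
        η * (2 * η * x) := by gcongr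
    _ ≤ _ := by
      have h8 : η * (2 * η * x) ≤ η * (Real.log (3 * x) * (2 * η * x)) := by
        apply mul_le_mul_of_nonneg_left _ hη.le
        have : 0 ≤ 2 * η * x := by positivity
        nlinarith
      nlinarith

/-- **Prime number theorem with a zero free half plane.** -/
theorem pnt_gen {g : ℕ → ℂ} {κ : ℂ} {G : ℂ → ℂ} {θ B : ℝ} (h : Hyp g κ G θ B) (t : ℝ) {y : ℝ}
    (hy : 1 ≤ y) :
    ‖∑ m ∈ Finset.Icc 1 ⌊y⌋₊, tw g t m - κ * ∫ u in Ioc 1 y, (u : ℂ) ^ (-((t : ℂ) * I))‖ ≤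
      10000 * (B + 1) * Real.log (|t| + 5) * (y ^ θ * Real.log (9 * y) ^ 4) := by
  have hθ := h.hθ
  have hθ1 := h.hθ1
  have hB0 := h.hB0
  have hy0 : 0 < y := by linarith
  set ℓ : ℝ := Real.log (9 * y) with hℓ
  have hℓ2 : 2 ≤ ℓ := by
    rw [hℓ, Real.le_log_iff_exp_le (by positivity)]
    have h4 : Real.exp 2 = Real.exp 1 * Real.exp 1 := by rw [← Real.exp_add]; norm_num
    have h5 := Real.exp_one_lt_d9
    have h6 := Real.exp_pos 1
    nlinarith
  have hℓ0 : 0 < ℓ := by linarith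
  set δ : ℝ := 1 / ℓ with hδd
  have hδ : 0 < δ := by positivity
  have hδ1 : δ ≤ 1 := by
    rw [hδd, div_le_one hℓ0]; linarith
  set η : ℝ := y ^ (-(1 / 2) : ℝ) with hηd
  have hη : 0 < η := Real.rpow_pos_of_pos hy0 _
  have hη1 : η ≤ 1 := Real.rpow_le_one_of_one_le_of_nonpos hy (by norm_num)
  have h1 := RR_diff_lower h.hg h.hκ t hy hη hη1
  have h2 := RR_diff h t hy hη hη1 hδ hδ1 hδ hδ1
  set Z := ∑ m ∈ Finset.Icc 1 ⌊y⌋₊, tw g t m - κ * ∫ u in Ioc 1 y, (u : ℂ) ^ (-((t : ℂ) * I)) with hZ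
  rw [norm_mul, norm_real, Real.norm_of_nonneg hη.le] at h1
  have hlogt : 1 ≤ Real.log (|t| + 5) := by
    rw [Real.le_log_iff_exp_le (by positivity)]
    have := Real.exp_one_lt_d9
    have := abs_nonneg t
    linarith
  set lt := Real.log (|t| + 5) with hlt
  have h3 : η * ‖Z‖ ≤ η * (1000 * (B / δ ^ 2 * lt) * (y ^ (θ + δ) * η ^ (-δ)) / δ ^ 2 +
      Real.log (3 * y) * (4 * η * y + 1)) := by
    refine h1.trans ?_
    have e1 : η ^ (1 - δ) = η * η ^ (-δ) := by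
      rw [sub_eq_add_neg, Real.rpow_add hη, Real.rpow_one]
    rw [e1] at h2
    calc _ ≤ 1000 * (B / δ ^ 2 * lt) * (y ^ (θ + δ) * (η * η ^ (-δ))) / δ ^ 2 +
        η * (Real.log (3 * y) * (4 * η * y + 1)) := by gcongr
      _ = _ := by ring
  have h4 := le_of_mul_le_mul_left h3 hη
  have hyδ : y ^ δ ≤ 3 := by
    rw [Real.rpow_def_of_pos hy0, hδd]
    have h5 : Real.log y * (1 / ℓ) ≤ 1 := by
      rw [mul_one_div, div_le_one hℓ0, hℓ]
      exact Real.log_le_log hy0 (by linarith)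
    calc Real.exp (Real.log y * (1 / ℓ)) ≤ Real.exp 1 := Real.exp_le_exp.2 h5
      _ ≤ 3 := by have := Real.exp_one_lt_d9; linarith
  have hηδ : η ^ (-δ) ≤ 3 := by
    rw [hηd, ← Real.rpow_mul hy0.le]
    have h6 : y ^ (-(1 / 2) * -δ) ≤ y ^ δ := Real.rpow_le_rpow_of_exponent_le hy (by linarith)
    linarith
  have hyθ : 0 < y ^ θ := Real.rpow_pos_of_pos hy0 _
  have h7 : y ^ (θ + δ) * η ^ (-δ) ≤ 9 * y ^ θ := by
    rw [Real.rpow_add hy0]
    have h8 : 0 < η ^ (-δ) := Real.rpow_pos_of_pos hη _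
    have h9 : 0 < y ^ δ := Real.rpow_pos_of_pos hy0 _
    calc y ^ θ * y ^ δ * η ^ (-δ) ≤ y ^ θ * 3 * 3 := by gcongr
      _ = _ := by ring
  have h10 : 4 * η * y + 1 ≤ 5 * y ^ θ := by
    have h11 : η * y = y ^ (1 / 2 : ℝ) := by
      rw [hηd]
      nth_rewrite 2 [← Real.rpow_one y]
      rw [← Real.rpow_add hy0]
      norm_num
    have h12 : y ^ (1 / 2 : ℝ) ≤ y ^ θ := Real.rpow_le_rpow_of_exponent_le hy hθ
    have h13 : 1 ≤ y ^ θ := Real.one_le_rpow hy (by linarith)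
    nlinarith
  have h14 : Real.log (3 * y) ≤ ℓ := by
    rw [hℓ]
    exact Real.log_le_log (by positivity) (by linarith)
  have h15 : 0 ≤ Real.log (3 * y) := Real.log_nonneg (by linarith)
  have hδinv : 1 / δ ^ 2 = ℓ ^ 2 := by
    rw [hδd]; field_simp
  calc ‖Z‖ ≤ 1000 * (B / δ ^ 2 * lt) * (y ^ (θ + δ) * η ^ (-δ)) / δ ^ 2 +
      Real.log (3 * y) * (4 * η * y + 1) := h4
    _ = 1000 * (B * lt) * (y ^ (θ + δ) * η ^ (-δ)) * (1 / δ ^ 2) * (1 / δ ^ 2) +
      Real.log (3 * y) * (4 * η * y + 1) := by ring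
    _ ≤ 1000 * (B * lt) * (9 * y ^ θ) * ℓ ^ 2 * ℓ ^ 2 + ℓ * (5 * y ^ θ) := by
      rw [hδinv]
      gcongr
    _ ≤ 1000 * (B * lt) * (9 * y ^ θ) * ℓ ^ 2 * ℓ ^ 2 + 1000 * lt * (y ^ θ * ℓ ^ 4) := by
      have h16 : ℓ ≤ ℓ ^ 4 := by
        have : 1 ≤ ℓ ^ 3 := one_le_pow₀ (by linarith)
        nlinarith
      have h17 : ℓ * (5 * y ^ θ) ≤ 5 * (y ^ θ * ℓ ^ 4) := by nlinarith
      have h18 : 0 < y ^ θ * ℓ ^ 4 := by positivity
      nlinarith
    _ ≤ _ := by
      have h18 : 0 < y ^ θ * ℓ ^ 4 := by positivity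
      have h19 : 0 ≤ B * lt * (y ^ θ * ℓ ^ 4) := by positivity
      have h20 : 0 ≤ lt * (y ^ θ * ℓ ^ 4) := by positivity
      nlinarith

end Pool.Agent.Helper368_LD
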