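import Pool.Agent.Helper368_LD.Inst

/-!
# Truncated Dirichlet series in a zero free half plane
-/

set_option autoImplicit false

namespace Pool.Agent.Helper368_LD

open Complex MeasureTheory Set Filter Topology

/-- the partial sums -/
noncomputable def psi (g : ℕ → ℂ) (t u : ℝ) : ℂ := ∑ m ∈ Finset.Icc 1 ⌊u⌋₊, tw g t m

theorem tw_zero {g : ℕ → ℂ} (hg : ∀ m, ‖g m‖ ≤ ArithmeticFunction.vonMangoldt m) (t : ℝ) :
    tw g t 0 = 0 := by
  have := norm_tw_le hg t 0
  simpa using this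

theorem psi_eq {g : ℕ → ℂ} (hg : ∀ m, ‖g m‖ ≤ ArithmeticFunction.vonMangoldt m) (t u : ℝ) :
    ∑ m ∈ Finset.Icc 0 ⌊u⌋₊, tw g t m = psi g t u := by
  unfold psi
  rw [← Finset.sum_subset (s₁ := Finset.Icc 1 ⌊u⌋₊)]
  · intro m hm
    rw [Finset.mem_Icc] at hm ⊢
    omega
  · intro m hm hm2
    rw [Finset.mem_Icc] at hm hm2
    have : m = 0 := by omega
    rw [this, tw_zero hg]

theorem measurable_psi (g : ℕ → ℂ) (t : ℝ) : Measurable (psi g t) := by
  unfold psi
  exact (Measurable.of_discrete (f := fun n : ℕ => ∑ m ∈ Finset.Icc 1 n, tw g t m)).comp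
    Nat.measurable_floor

theorem psi_bound {g : ℕ → ℂ} {G : ℂ → ℂ} {θ B : ℝ} (h : Hyp g 0 G θ B) (t : ℝ) {u : ℝ}
    (hu : 1 ≤ u) : ‖psi g t u‖ ≤
      10000 * (B + 1) * Real.log (|t| + 5) * (u ^ θ * Real.log (9 * u) ^ 4) := by
  have := pnt_gen h t hu
  rw [zero_mul, sub_zero] at this
  exact this

theorem log_pow_bound {u δ : ℝ} (hu : 1 ≤ u) (hδ : 0 < δ) :
    Real.log (9 * u) ^ 4 ≤ (4 / δ) ^ 4 * 9 ^ δ * u ^ δ := by
  have h1 : Real.log (9 * u) ≤ (9 * u) ^ (δ / 4) / (δ / 4) :=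
    Real.log_le_rpow_div (by positivity) (by positivity)
  have h0 : 0 ≤ Real.log (9 * u) := Real.log_nonneg (by linarith)
  calc Real.log (9 * u) ^ 4 ≤ ((9 * u) ^ (δ / 4) / (δ / 4)) ^ 4 := by gcongr
    _ = (4 / δ) ^ 4 * ((9 * u) ^ (δ / 4)) ^ 4 := by
      rw [div_pow, div_pow]; field_simp
    _ = (4 / δ) ^ 4 * (9 ^ δ * u ^ δ) := by
      congr 1
      rw [← Real.rpow_natCast, ← Real.rpow_mul (by positivity), ← Real.mul_rpow (by norm_num)
        (by linarith)]
      congr 1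
      push_cast
      ring
    _ = _ := by ring

/-- integral representation in the zero free half plane -/
theorem G_integral {g : ℕ → ℂ} {G : ℂ → ℂ} {θ B : ℝ} (h : Hyp g 0 G θ B) (t : ℝ) {w : ℂ}
    (hw : θ < w.re) :
    G (w + t * I) = w * ∫ u in Ioi (1 : ℝ), psi g t u * (u : ℂ) ^ (-(w + 1)) := by
  have hθ := h.hθ
  have hθ1 := h.hθ1
  have hB0 := h.hB0
  set δ : ℝ := (w.re - θ) / 2 with hδ
  have hδ0 : 0 < δ := by rw [hδ]; linarith
  set K : ℝ := 10000 * (B + 1) * Real.log (|t| + 5) * ((4 / δ) ^ 4 * 9 ^ δ) with hK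
  have hlog : 0 ≤ Real.log (|t| + 5) := by
    have := log_five_le t; linarith
  have hK0 : 0 ≤ K := by positivity
  have hb : ∀ u : ℝ, 1 ≤ u → ‖psi g t u‖ ≤ K * u ^ (θ + δ) := by
    intro u hu
    refine (psi_bound h t hu).trans ?_
    have h1 := log_pow_bound hu hδ0
    have h2 : 0 ≤ u ^ θ := Real.rpow_nonneg (by linarith) _
    rw [Real.rpow_add (by linarith)]
    calc 10000 * (B + 1) * Real.log (|t| + 5) * (u ^ θ * Real.log (9 * u) ^ 4)
        ≤ 10000 * (B + 1) * Real.log (|t| + 5) * (u ^ θ * ((4 / δ) ^ 4 * 9 ^ δ * u ^ δ)) := by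
          gcongr
      _ = _ := by rw [hK]; ring
  set A : ℝ → ℂ := fun u => if 1 ≤ u then psi g t u * ((u ^ (-(θ + δ)) : ℝ) : ℂ) else 0 with hA
  have hAm : Measurable A := by
    apply Measurable.ite measurableSet_Ici _ measurable_const
    apply (measurable_psi g t).mul
    fun_prop
  have hAb : ∀ u, ‖A u‖ ≤ K := by
    intro u
    simp only [hA]
    split_ifs with hu
    · have hu0 : 0 < u := by linarith
      rw [norm_mul, norm_real, Real.norm_of_nonneg (Real.rpow_nonneg hu0.le _), Real.rpow_neg hu0.le]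
      have h3 : 0 < u ^ (θ + δ) := Real.rpow_pos_of_pos hu0 _
      rw [← div_eq_mul_inv, div_le_iff₀ h3]
      exact hb u hu
    · simpa using hK0
  have hJ := H370.DL.J_diff hK0 hAm hAb
  set U : Set ℂ := {z : ℂ | θ + δ < z.re} with hU
  have hUo : IsOpen U := isOpen_lt continuous_const Complex.continuous_re
  have hUc : IsPreconnected U := (convex_halfSpace_re_gt (θ + δ)).isPreconnected
  have hJeq : ∀ z : ℂ, ∫ u in Ioi (1 : ℝ), psi g t u * (u : ℂ) ^ (-(z + 1)) =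
      ∫ u in Ioi (1 : ℝ), A u * (u : ℂ) ^ (-(z - ((θ + δ : ℝ) : ℂ)) - 1) := by
    intro z
    apply setIntegral_congr_fun measurableSet_Ioi
    intro u hu
    have hu1 : (1 : ℝ) < u := hu
    have hu0 : 0 < u := by linarith
    have huc : (u : ℂ) ≠ 0 := by exact_mod_cast hu0.ne'
    simp only [hA]
    rw [if_pos hu1.le, Complex.ofReal_cpow hu0.le, mul_assoc, ← Complex.cpow_add _ _ huc]
    congr 2
    push_cast
    ring
  have hf2 : DifferentiableOn ℂ (fun z : ℂ => z * ∫ u in Ioi (1 : ℝ), psi g t u *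
      (u : ℂ) ^ (-(z + 1))) U := by
    intro z hz
    have hz' : θ + δ < z.re := hz
    apply DifferentiableWithinAt.mul differentiableWithinAt_id
    have h1 : DifferentiableAt ℂ (fun s : ℂ => ∫ u in Ioi (1 : ℝ), A u * (u : ℂ) ^ (-s - 1))
        (z - ((θ + δ : ℝ) : ℂ)) := by
      apply hJ.differentiableAt
      apply (isOpen_lt continuous_const Complex.continuous_re).mem_nhds
      change 0 < (z - ((θ + δ : ℝ) : ℂ)).re
      simp only [sub_re, ofReal_re]
      linarith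
    have h2 : DifferentiableAt ℂ (fun z : ℂ => ∫ u in Ioi (1 : ℝ), A u *
        (u : ℂ) ^ (-(z - ((θ + δ : ℝ) : ℂ)) - 1)) z :=
      DifferentiableAt.comp (g := fun s : ℂ => ∫ u in Ioi (1 : ℝ), A u * (u : ℂ) ^ (-s - 1))
        (f := fun z : ℂ => z - ((θ + δ : ℝ) : ℂ)) z h1 (differentiableAt_id.sub_const _)
    have h3 : (fun z : ℂ => ∫ u in Ioi (1 : ℝ), psi g t u * (u : ℂ) ^ (-(z + 1))) =
        fun z : ℂ => ∫ u in Ioi (1 : ℝ), A u * (u : ℂ) ^ (-(z - ((θ + δ : ℝ) : ℂ)) - 1) :=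
      funext hJeq
    rw [h3]
    exact h2.differentiableWithinAt
  have hf1 : DifferentiableOn ℂ (fun z : ℂ => G (z + t * I)) U := by
    intro z hz
    have hz' : θ + δ < z.re := hz
    have h1 : DifferentiableAt ℂ G (z + t * I) := h.hGd _ (by simp; linarith)
    exact (h1.comp z (differentiableAt_id.add_const _)).differentiableWithinAt
  have hz0 : w + 3 ∈ U := by
    change θ + δ < (w + 3).re
    have : (w + 3).re = w.re + 3 := by simp
    rw [this, hδ]
    linarith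
  have hwU : w ∈ U := by
    change θ + δ < w.re
    rw [hδ]; linarith
  have hev : (fun z : ℂ => G (z + t * I)) =ᶠ[𝓝 (w + 3)] fun z : ℂ => z * ∫ u in Ioi (1 : ℝ),
      psi g t u * (u : ℂ) ^ (-(z + 1)) := by
    have hopen : IsOpen {z : ℂ | 1 < z.re} := isOpen_lt continuous_const Complex.continuous_re
    have h1 : w + 3 ∈ {z : ℂ | 1 < z.re} := by
      change 1 < (w + 3).re
      have : (w + 3).re = w.re + 3 := by simp
      rw [this]; linarith
    filter_upwards [hopen.mem_nhds h1, hUo.mem_nhds hz0] with z hz1 hz2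
    have hz1' : 1 < z.re := hz1
    have hz2' : θ + δ < z.re := hz2
    have h4 := h.hG (z + t * I) (by simpa using hz1')
    rw [zero_div, zero_add, ← tw_LSeries] at h4
    rw [← h4]
    have h5 := LSeries_eq_mul_integral (tw g t) (r := θ + δ) (by linarith) hz2'
      (tw_summable h.hg t hz1') (by
        apply Asymptotics.IsBigO.of_bound K
        filter_upwards [eventually_ge_atTop 1] with n hn
        have h6 := hb n (by exact_mod_cast hn)
        unfold psi at h6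
        rw [Nat.floor_natCast] at h6
        rwa [Real.norm_of_nonneg (Real.rpow_nonneg (Nat.cast_nonneg n) _)])
    exact h5
  have heq := (hf1.analyticOnNhd hUo).eqOn_of_preconnected_of_eventuallyEq
    (hf2.analyticOnNhd hUo) hUc hz0 hev
  exact heq hwU

theorem psi_int_bound {g : ℕ → ℂ} {G : ℂ → ℂ} {θ B : ℝ} (h : Hyp g 0 G θ B) (t : ℝ) {α P : ℝ}
    (hα : 0 < α) (hP : 1 ≤ P) {u : ℝ} (hu : P < u) :
    ‖psi g t u * (u : ℂ) ^ (-((((θ + α : ℝ) : ℂ)) + 1))‖ ≤
      10000 * (B + 1) * Real.log (|t| + 5) * (Real.log (9 * P) + 8 / α) ^ 4 * P ^ (-(α / 2)) *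
        u ^ (-(α / 2) - 1) := by
  have hB0 := h.hB0
  have hu1 : 1 ≤ u := by linarith
  have hu0 : 0 < u := by linarith
  have hP0 : 0 < P := by linarith
  have hlog : 0 ≤ Real.log (|t| + 5) := by
    have := log_five_le t; linarith
  have hlP : 0 ≤ Real.log (9 * P) := Real.log_nonneg (by linarith)
  rw [norm_mul, norm_cpow_eq_rpow_re_of_pos hu0]
  have e1 : (-((((θ + α : ℝ) : ℂ)) + 1)).re = -(θ + α + 1) := by simp
  rw [e1]
  have h1 := psi_bound h t hu1
  have hq1 : 1 ≤ u / P := by rw [le_div_iff₀ hP0]; linarith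
  have h2 : Real.log (9 * u) ≤ (Real.log (9 * P) + 8 / α) * (u / P) ^ (α / 8) := by
    have e2 : 9 * u = (9 * P) * (u / P) := by field_simp
    rw [e2, Real.log_mul (by positivity) (by positivity)]
    have h3 : Real.log (u / P) ≤ (u / P) ^ (α / 8) / (α / 8) :=
      Real.log_le_rpow_div (by positivity) (by positivity)
    have h4 : 1 ≤ (u / P) ^ (α / 8) := Real.one_le_rpow hq1 (by positivity)
    have h5 : (u / P) ^ (α / 8) / (α / 8) = 8 / α * (u / P) ^ (α / 8) := by field_simp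
    rw [h5] at h3
    nlinarith
  have hl0 : 0 ≤ Real.log (9 * u) := Real.log_nonneg (by linarith)
  have h6 : Real.log (9 * u) ^ 4 ≤ (Real.log (9 * P) + 8 / α) ^ 4 * (u / P) ^ (α / 2) := by
    calc Real.log (9 * u) ^ 4 ≤ ((Real.log (9 * P) + 8 / α) * (u / P) ^ (α / 8)) ^ 4 := by gcongr
      _ = (Real.log (9 * P) + 8 / α) ^ 4 * (u / P) ^ (α / 2) := by
        rw [mul_pow]
        congr 1
        rw [← Real.rpow_natCast, ← Real.rpow_mul (by positivity)]
        congr 1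
        push_cast
        ring
  have h7 : (u / P) ^ (α / 2) = u ^ (α / 2) * P ^ (-(α / 2)) := by
    rw [Real.div_rpow hu0.le hP0.le, Real.rpow_neg hP0.le]
    rfl
  have hup : 0 ≤ u ^ (-(θ + α + 1)) := Real.rpow_nonneg hu0.le _
  have huθ : 0 ≤ u ^ θ := Real.rpow_nonneg hu0.le _
  calc ‖psi g t u‖ * u ^ (-(θ + α + 1))
      ≤ (10000 * (B + 1) * Real.log (|t| + 5) * (u ^ θ * Real.log (9 * u) ^ 4)) *
        u ^ (-(θ + α + 1)) := by gcongr
    _ ≤ (10000 * (B + 1) * Real.log (|t| + 5) * (u ^ θ * ((Real.log (9 * P) + 8 / α) ^ 4 *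
        (u / P) ^ (α / 2)))) * u ^ (-(θ + α + 1)) := by gcongr
    _ = 10000 * (B + 1) * Real.log (|t| + 5) * (Real.log (9 * P) + 8 / α) ^ 4 * P ^ (-(α / 2)) *
        (u ^ θ * u ^ (α / 2) * u ^ (-(θ + α + 1))) := by
        rw [h7]; ring
    _ = _ := by
        rw [← Real.rpow_add hu0, ← Real.rpow_add hu0]
        congr 2
        ring

/-- **truncated Dirichlet series** -/
theorem trunc_bound {g : ℕ → ℂ} {G : ℂ → ℂ} {θ B : ℝ} (h : Hyp g 0 G θ B) (t : ℝ) {α P : ℝ}
    (hα : 0 < α) (hα1 : α ≤ 1) (hP : 1 ≤ P) :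
    ‖G (((θ + α : ℝ) : ℂ) + t * I) -
      ∑ m ∈ Finset.Icc 1 ⌊P⌋₊, g m * (m : ℂ) ^ (-(((θ + α : ℝ) : ℂ) + t * I))‖ ≤
      50000 * (B + 1) * Real.log (|t| + 5) *
        ((Real.log (9 * P) + 8 / α) ^ 4 * P ^ (-α) / α) := by
  have hθ := h.hθ
  have hθ1 := h.hθ1
  have hB0 := h.hB0
  have hP0 : 0 < P := by linarith
  set β : ℝ := θ + α with hβ
  have hβ0 : 0 < β := by linarith
  have hlog : 0 ≤ Real.log (|t| + 5) := by
    have := log_five_le t; linarith
  have hlP : 0 ≤ Real.log (9 * P) := Real.log_nonneg (by linarith)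
  set C : ℝ := 10000 * (B + 1) * Real.log (|t| + 5) * (Real.log (9 * P) + 8 / α) ^ 4 with hC
  have hC0 : 0 ≤ C := by positivity
  have hG := G_integral h t (w := (β : ℂ)) (by simp; linarith)
  -- the tail of the integral
  have hptb : ∀ u ∈ Ioi P, ‖psi g t u * (u : ℂ) ^ (-((β : ℂ) + 1))‖ ≤
      C * P ^ (-(α / 2)) * u ^ (-(α / 2) - 1) := by
    intro u hu
    have := psi_int_bound h t hα hP hu
    rw [← hβ] at this
    refine this.trans (le_of_eq ?_)
    rw [hC]
  have hIoiP : IntegrableOn (fun u : ℝ => u ^ (-(α / 2) - 1)) (Ioi P) :=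
    integrableOn_Ioi_rpow_of_lt (by linarith) hP0
  have hmeas : Measurable (fun u : ℝ => psi g t u * (u : ℂ) ^ (-((β : ℂ) + 1))) := by
    apply (measurable_psi g t).mul
    fun_prop
  have htailint : IntegrableOn (fun u : ℝ => psi g t u * (u : ℂ) ^ (-((β : ℂ) + 1))) (Ioi P) := by
    refine Integrable.mono' (hIoiP.const_mul (C * P ^ (-(α / 2)))) hmeas.aestronglyMeasurable ?_
    exact (ae_restrict_iff' measurableSet_Ioi).mpr (Eventually.of_forall hptb)
  have htail : ‖∫ u in Ioi P, psi g t u * (u : ℂ) ^ (-((β : ℂ) + 1))‖ ≤ C * P ^ (-α) * (2 / α) := by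
    have h1 := norm_integral_le_of_norm_le (hIoiP.const_mul (C * P ^ (-(α / 2))))
      ((ae_restrict_iff' measurableSet_Ioi).mpr (Eventually.of_forall hptb))
    rw [integral_const_mul, integral_Ioi_rpow_of_lt (by linarith) hP0] at h1
    refine h1.trans (le_of_eq ?_)
    have e1 : -(α / 2) - 1 + 1 = -(α / 2) := by ring
    rw [e1]
    have e2 : P ^ (-α) = P ^ (-(α / 2)) * P ^ (-(α / 2)) := by
      rw [← Real.rpow_add hP0]; congr 1; ring
    rw [e2]
    field_simp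
  -- the finite part
  have hfin : IntegrableOn (fun u : ℝ => psi g t u * (u : ℂ) ^ (-((β : ℂ) + 1))) (Ioc 1 P) := by
    have hb1 : ∀ u ∈ Ioc 1 P, ‖psi g t u * (u : ℂ) ^ (-((β : ℂ) + 1))‖ ≤
        10000 * (B + 1) * Real.log (|t| + 5) * (P ^ θ * Real.log (9 * P) ^ 4) := by
      intro u hu
      have hu0 : 0 < u := by linarith [hu.1]
      rw [norm_mul, norm_cpow_eq_rpow_re_of_pos hu0]
      have h2 := psi_bound h t hu.1.le
      have h3 : u ^ (-((β : ℂ) + 1)).re ≤ 1 := by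
        apply Real.rpow_le_one_of_one_le_of_nonpos hu.1.le
        simp; linarith
      have h4 : 0 ≤ u ^ (-((β : ℂ) + 1)).re := Real.rpow_nonneg hu0.le _
      have h5 : Real.log (9 * u) ≤ Real.log (9 * P) := Real.log_le_log (by positivity) (by linarith [hu.2])
      have h6 : 0 ≤ Real.log (9 * u) := Real.log_nonneg (by linarith [hu.1])
      have h7 : u ^ θ ≤ P ^ θ := Real.rpow_le_rpow hu0.le hu.2 (by linarith)
      calc _ ≤ ‖psi g t u‖ * 1 := by gcongr
        _ ≤ 10000 * (B + 1) * Real.log (|t| + 5) * (u ^ θ * Real.log (9 * u) ^ 4) := by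
          rw [mul_one]; exact h2
        _ ≤ _ := by gcongr
    refine Integrable.mono' (g := fun _ => 10000 * (B + 1) * Real.log (|t| + 5) *
      (P ^ θ * Real.log (9 * P) ^ 4)) ?_ hmeas.aestronglyMeasurable ?_
    · exact integrableOn_const (by rw [Real.volume_Ioc]; exact ENNReal.ofReal_ne_top)
    · exact (ae_restrict_iff' measurableSet_Ioc).mpr (Eventually.of_forall hb1)
  have hsplit : ∫ u in Ioi (1 : ℝ), psi g t u * (u : ℂ) ^ (-((β : ℂ) + 1)) =
      (∫ u in Ioc 1 P, psi g t u * (u : ℂ) ^ (-((β : ℂ) + 1))) +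
      ∫ u in Ioi P, psi g t u * (u : ℂ) ^ (-((β : ℂ) + 1)) := by
    rw [← Ioc_union_Ioi_eq_Ioi hP, setIntegral_union (Ioc_disjoint_Ioi le_rfl) measurableSet_Ioi
      hfin htailint]
  -- partial summation
  have hder : ∀ u ∈ Icc 1 P, HasDerivAt (fun u : ℝ => (u : ℂ) ^ (-(β : ℂ)))
      (-(β : ℂ) * (u : ℂ) ^ (-((β : ℂ) + 1))) u := by
    intro u hu
    have hu0 : u ≠ 0 := by linarith [hu.1]
    have h3 : -(β : ℂ) ≠ 0 := by
      simp only [ne_eq, neg_eq_zero, ofReal_eq_zero]; linarith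
    have h2 := hasDerivAt_ofReal_cpow_const (x := u) (r := -(β : ℂ)) hu0 h3
    have e2 : -(β : ℂ) - 1 = -((β : ℂ) + 1) := by ring
    rwa [e2] at h2
  have hab := sum_mul_eq_sub_integral_mul₀ (c := tw g t) (f := fun u : ℝ => (u : ℂ) ^ (-(β : ℂ)))
    (tw_zero h.hg t) P (fun u hu => (hder u hu).differentiableAt) (by
      have hc : ContinuousOn (fun u : ℝ => -(β : ℂ) * (u : ℂ) ^ (-((β : ℂ) + 1))) (Icc 1 P) := by
        intro u hu
        have hu0 : u ≠ 0 := by linarith [hu.1]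
        exact (continuousAt_const.mul (Complex.continuousAt_ofReal_cpow_const _ _
          (Or.inr hu0))).continuousWithinAt
      refine (hc.integrableOn_Icc).congr_fun (fun u hu => ((hder u hu).deriv).symm) measurableSet_Icc)
  have hIeq : ∫ u in Ioc 1 P, deriv (fun u : ℝ => (u : ℂ) ^ (-(β : ℂ))) u *
      ∑ k ∈ Finset.Icc 0 ⌊u⌋₊, tw g t k =
      -(β : ℂ) * ∫ u in Ioc 1 P, psi g t u * (u : ℂ) ^ (-((β : ℂ) + 1)) := by
    rw [← integral_const_mul]
    apply setIntegral_congr_fun measurableSet_Ioc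
    intro u hu
    simp only
    rw [(hder u ⟨hu.1.le, hu.2⟩).deriv, psi_eq h.hg]
    ring
  rw [hIeq, psi_eq h.hg] at hab
  have hS : ∑ m ∈ Finset.Icc 1 ⌊P⌋₊, g m * (m : ℂ) ^ (-((β : ℂ) + t * I)) =
      ∑ k ∈ Finset.Icc 0 ⌊P⌋₊, ((k : ℝ) : ℂ) ^ (-(β : ℂ)) * tw g t k := by
    rw [← Finset.sum_subset (s₁ := Finset.Icc 1 ⌊P⌋₊) (s₂ := Finset.Icc 0 ⌊P⌋₊)]
    · apply Finset.sum_congr rfl
      intro m hm
      rw [Finset.mem_Icc] at hm
      have hm0 : (m : ℂ) ≠ 0 := by exact_mod_cast (by omega : m ≠ 0)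
      unfold tw
      rw [neg_add, Complex.cpow_add _ _ hm0]
      push_cast
      ring
    · intro m hm
      rw [Finset.mem_Icc] at hm ⊢
      omega
    · intro m hm hm2
      rw [Finset.mem_Icc] at hm hm2
      have : m = 0 := by omega
      rw [this, tw_zero h.hg, mul_zero]
  rw [hS, hab, hG, hsplit]
  have e4 : (β : ℂ) * ((∫ u in Ioc 1 P, psi g t u * (u : ℂ) ^ (-((β : ℂ) + 1))) +
      ∫ u in Ioi P, psi g t u * (u : ℂ) ^ (-((β : ℂ) + 1))) -
      ((P : ℂ) ^ (-(β : ℂ)) * psi g t P - -(β : ℂ) * ∫ u in Ioc 1 P, psi g t u *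
        (u : ℂ) ^ (-((β : ℂ) + 1))) =
      (β : ℂ) * (∫ u in Ioi P, psi g t u * (u : ℂ) ^ (-((β : ℂ) + 1))) -
        (P : ℂ) ^ (-(β : ℂ)) * psi g t P := by ring
  rw [e4]
  have hbd : ‖(P : ℂ) ^ (-(β : ℂ)) * psi g t P‖ ≤ C * P ^ (-α) := by
    rw [norm_mul, norm_cpow_eq_rpow_re_of_pos hP0]
    have h2 := psi_bound h t hP
    have h3 : Real.log (9 * P) ≤ Real.log (9 * P) + 8 / α := by
      have : 0 ≤ 8 / α := by positivity
      linarith
    have e5 : (-(β : ℂ)).re = -β := by simp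
    rw [e5]
    calc P ^ (-β) * ‖psi g t P‖ ≤ P ^ (-β) * (10000 * (B + 1) * Real.log (|t| + 5) *
          (P ^ θ * (Real.log (9 * P) + 8 / α) ^ 4)) := by
          gcongr
          refine h2.trans ?_
          gcongr
      _ = C * (P ^ (-β) * P ^ θ) := by rw [hC]; ring
      _ = _ := by
          rw [← Real.rpow_add hP0, hβ]
          congr 2
          ring
  have hPα : 0 ≤ P ^ (-α) := Real.rpow_nonneg hP0.le _
  calc _ ≤ ‖(β : ℂ) * (∫ u in Ioi P, psi g t u * (u : ℂ) ^ (-((β : ℂ) + 1)))‖ +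
        ‖(P : ℂ) ^ (-(β : ℂ)) * psi g t P‖ := norm_sub_le _ _
    _ ≤ 2 * (C * P ^ (-α) * (2 / α)) + C * P ^ (-α) := by
        rw [norm_mul, norm_real, Real.norm_of_nonneg hβ0.le]
        gcongr
        linarith
    _ = C * P ^ (-α) * (4 / α + 1) := by ring
    _ ≤ C * P ^ (-α) * (5 / α) := by
        apply mul_le_mul_of_nonneg_left _ (by positivity)
        rw [div_add_one hα.ne', div_le_div_iff_of_pos_right hα]
        linarith
    _ = _ := by rw [hC]; ring

end Pool.Agent.Helper368_LD
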