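import Pool.Agent.Helper368_LD.Fourier
import Pool.Agent.Helper368_LD.Trunc
import Pool.Agent.Helper368_LD.Inst

/-!
# Sums over primes of real characters
-/

set_option autoImplicit false

namespace Pool.Agent.Helper368_LD

open Complex Filter Topology MeasureTheory Set
open scoped Real ArithmeticFunction.vonMangoldt

/-- no zeros with real part greater than `Θ` for the real nonprincipal Dirichlet characters -/
def RealHyp (Θ : ℝ) : Prop := ∀ (N : ℕ) [NeZero N] (χ : DirichletCharacter ℂ N), χ ^ 2 = 1 → χ ≠ 1 →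
  ∀ s : ℂ, Θ < s.re → DirichletCharacter.LFunction χ s ≠ 0

/-- the function `l ↦ (D / l)` on odd `l` -/
def zro (D : ℤ) (l : ℕ) : ℤ := if Odd l then jacobiSym D l else 0

theorem zro_mod (D : ℤ) (l : ℕ) : zro D (l % (4 * D.natAbs)) = zro D l := by
  unfold zro
  have hpar : Odd (l % (4 * D.natAbs)) ↔ Odd l := by
    rw [Nat.odd_iff, Nat.odd_iff]
    have h1 : 2 ∣ 4 * D.natAbs := ⟨2 * D.natAbs, by ring⟩
    rw [Nat.mod_mod_of_dvd _ h1]
  by_cases h : Odd l
  · rw [if_pos (hpar.2 h), if_pos h]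
    exact (jacobiSym.mod_right D h).symm
  · rw [if_neg (fun h2 => h (hpar.1 h2)), if_neg h]

theorem zro_mul (D : ℤ) (a b : ℕ) : zro D (a * b) = zro D a * zro D b := by
  unfold zro
  by_cases ha : Odd a
  · by_cases hb : Odd b
    · rw [if_pos ha, if_pos hb, if_pos (ha.mul hb)]
      have h1 : NeZero a := ⟨by rintro rfl; exact absurd ha (by decide)⟩
      have h2 : NeZero b := ⟨by rintro rfl; exact absurd hb (by decide)⟩
      exact jacobiSym.mul_right _ _ _
    · rw [if_neg hb, if_neg (fun h => hb (Nat.Odd.of_mul_left (by rwa [mul_comm] at h))), mul_zero]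
  · rw [if_neg ha, if_neg (fun h => ha (Nat.Odd.of_mul_left h)), zero_mul]

theorem zro_one (D : ℤ) : zro D 1 = 1 := by
  unfold zro
  rw [if_pos odd_one, jacobiSym.one_right]

theorem zro_nonunit {D : ℤ} (l : ℕ) (h : ¬ l.Coprime (4 * D.natAbs)) : zro D l = 0 := by
  unfold zro
  split_ifs with ho
  · have h1 : NeZero l := ⟨by rintro rfl; exact absurd ho (by decide)⟩
    rw [jacobiSym.eq_zero_iff_not_coprime]
    intro h2
    apply h
    apply Nat.Coprime.mul_right
    · have h3 : Nat.Coprime l 2 := by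
        rw [Nat.coprime_two_right]
        exact ho
      have : (4 : ℕ) = 2 ^ 2 := by norm_num
      rw [this]
      exact h3.pow_right 2
    · rw [Int.gcd_comm] at h2
      exact h2
  · rfl

/-- the character `l ↦ (D / l)` modulo `4|D|` -/
noncomputable def zchi (D : ℤ) [NeZero (4 * D.natAbs)] : DirichletCharacter ℂ (4 * D.natAbs) where
  toFun a := ((zro D a.val : ℤ) : ℂ)
  map_one' := by
    rw [ZMod.val_one_eq_one_mod, zro_mod, zro_one]
    simp
  map_mul' a b := by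
    rw [ZMod.val_mul, zro_mod, zro_mul]
    push_cast
    ring
  map_nonunit' a ha := by
    have h : zro D a.val = 0 := by
      apply zro_nonunit
      intro h2
      apply ha
      rw [← ZMod.natCast_zmod_val a]
      exact (ZMod.isUnit_iff_coprime a.val (4 * D.natAbs)).2 h2
    rw [h]
    simp

theorem zchi_natCast (D : ℤ) [NeZero (4 * D.natAbs)] (l : ℕ) :
    zchi D (l : ZMod (4 * D.natAbs)) = ((zro D l : ℤ) : ℂ) := by
  change ((zro D ((l : ZMod (4 * D.natAbs)).val) : ℤ) : ℂ) = _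
  rw [ZMod.val_natCast, zro_mod]

theorem zchi_ne_one {D : ℤ} [NeZero (4 * D.natAbs)] (h : ¬ IsSquare D) : zchi D ≠ 1 := by
  obtain ⟨d, hd, hj⟩ := Helper919.exists_jacobi_neg_one D h
  intro h1
  have h2 := zchi_natCast D d
  have h3 : zro D d = -1 := by
    unfold zro
    rw [if_pos hd, hj]
  rw [h3] at h2
  have h4 : IsUnit (d : ZMod (4 * D.natAbs)) := by
    by_contra hu
    have h5 := (zchi D).map_nonunit hu
    rw [h5] at h2
    norm_num at h2
  rw [h1, MulChar.one_apply h4] at h2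
  norm_num at h2

theorem zchi_sq (D : ℤ) [NeZero (4 * D.natAbs)] : zchi D ^ 2 = 1 := by
  ext u
  rw [MulChar.pow_apply_coe, MulChar.one_apply_coe]
  change ((zro D (u : ZMod (4 * D.natAbs)).val : ℤ) : ℂ) ^ 2 = 1
  have hne : zchi D (u : ZMod (4 * D.natAbs)) ≠ 0 := by
    intro h0
    have := (zchi D).map_nonunit (a := (u : ZMod (4 * D.natAbs)))
    have h1 : IsUnit (zchi D (u : ZMod (4 * D.natAbs))) := u.isUnit.map (zchi D)
    exact h1.ne_zero h0
  have hne2 : zro D (u : ZMod (4 * D.natAbs)).val ≠ 0 := by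
    intro h0
    apply hne
    change ((zro D (u : ZMod (4 * D.natAbs)).val : ℤ) : ℂ) = 0
    rw [h0]
    simp
  have h3 : zro D (u : ZMod (4 * D.natAbs)).val ^ 2 = 1 := by
    unfold zro at hne2 ⊢
    split_ifs at hne2 ⊢ with ho
    · rcases jacobiSym.trichotomy D (u : ZMod (4 * D.natAbs)).val with h | h | h
      · exact absurd h hne2
      · rw [h]; norm_num
      · rw [h]; norm_num
    · exact absurd rfl hne2
  exact_mod_cast h3

/-- `log p` on the odd primes -/
noncomputable def lp (p : ℕ) : ℝ := if p.Prime ∧ p ≠ 2 then Real.log p else 0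

theorem lp_nonneg (p : ℕ) : 0 ≤ lp p := by
  unfold lp
  split_ifs
  · exact Real.log_natCast_nonneg p
  · exact le_rfl

theorem lp_le_vM (p : ℕ) : lp p ≤ Λ p := by
  unfold lp
  split_ifs with h
  · rw [ArithmeticFunction.vonMangoldt_apply_prime h.1]
  · exact ArithmeticFunction.vonMangoldt_nonneg

/-- `log p` on the primes -/
noncomputable def lq (p : ℕ) : ℝ := if p.Prime then Real.log p else 0

theorem lq_le_vM (p : ℕ) : lq p ≤ Λ p := by
  unfold lq
  split_ifs with h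
  · rw [ArithmeticFunction.vonMangoldt_apply_prime h]
  · exact ArithmeticFunction.vonMangoldt_nonneg

theorem sum_vM_sub_lq {y : ℝ} (hy : 1 ≤ y) :
    ∑ m ∈ Finset.Icc 1 ⌊y⌋₊, (Λ m - lq m) ≤ 2 * √y * Real.log y := by
  have h1 := Chebyshev.abs_psi_sub_theta_le_sqrt_mul_log hy
  have h2 : Chebyshev.psi y - Chebyshev.theta y = ∑ m ∈ Finset.Icc 1 ⌊y⌋₊, (Λ m - lq m) := by
    rw [Finset.sum_sub_distrib]
    unfold Chebyshev.psi Chebyshev.theta lq
    rw [Finset.sum_filter]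
    rfl
  rw [← h2]
  exact (le_abs_self _).trans h1

/-- the sums over primes -/
noncomputable def PS (D : ℤ) (t y : ℝ) : ℂ :=
  ∑ p ∈ Finset.Icc 1 ⌊y⌋₊, (lp p : ℂ) * (p : ℂ) ^ (-((t : ℂ) * I)) * ((jacobiSym D p : ℤ) : ℂ)

theorem lp_zro (D : ℤ) (p : ℕ) : (lp p : ℂ) * ((jacobiSym D p : ℤ) : ℂ) =
    (lq p : ℂ) * ((zro D p : ℤ) : ℂ) := by
  unfold lp lq zro
  by_cases hp : p.Prime
  · by_cases h2 : p = 2
    · subst h2
      simp
    · have hodd : Odd p := hp.odd_of_ne_two h2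
      rw [if_pos ⟨hp, h2⟩, if_pos hp, if_pos hodd]
  · rw [if_neg (fun h => hp h.1), if_neg hp]
    simp

theorem PS_eq (D : ℤ) (t y : ℝ) : PS D t y =
    ∑ p ∈ Finset.Icc 1 ⌊y⌋₊, (lq p : ℂ) * ((zro D p : ℤ) : ℂ) * (p : ℂ) ^ (-((t : ℂ) * I)) := by
  unfold PS
  apply Finset.sum_congr rfl
  intro p _
  rw [← lp_zro]
  ring

theorem zro_norm (D : ℤ) (l : ℕ) : ‖((zro D l : ℤ) : ℂ)‖ ≤ 1 := by
  unfold zro
  split_ifs
  · rcases jacobiSym.trichotomy D l with h | h | h <;> rw [h] <;> simp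
  · simp

theorem log_nine {y : ℝ} (hy : 1 ≤ y) : 2 ≤ Real.log (9 * y) := by
  rw [Real.le_log_iff_exp_le (by positivity)]
  have h4 : Real.exp 2 = Real.exp 1 * Real.exp 1 := by rw [← Real.exp_add]; norm_num
  have h5 := Real.exp_one_lt_d9
  have h6 := Real.exp_pos 1
  nlinarith

theorem sqrt_log_le {Θ y : ℝ} (hΘ : 1 / 2 ≤ Θ) (hy : 1 ≤ y) :
    √y * Real.log y ≤ y ^ Θ * Real.log (9 * y) ^ 4 := by
  have h1 : √y ≤ y ^ Θ := by
    rw [Real.sqrt_eq_rpow]
    exact Real.rpow_le_rpow_of_exponent_le hy hΘ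
  have h2 := log_nine hy
  have h3 : Real.log y ≤ Real.log (9 * y) := Real.log_le_log (by linarith) (by linarith)
  have h4 : Real.log (9 * y) ≤ Real.log (9 * y) ^ 4 := by
    nlinarith [pow_le_pow_right₀ (by linarith : 1 ≤ Real.log (9 * y)) (show 1 ≤ 4 by norm_num)]
  have h5 : 0 ≤ Real.log y := Real.log_nonneg hy
  gcongr
  exact h3.trans h4

/-- nonprincipal case -/
theorem PS_nonsq {Θ : ℝ} (hR : RealHyp Θ) (hΘ : 1 / 2 ≤ Θ) (hΘ1 : Θ ≤ 1) {D : ℤ}
    (hD : ¬ IsSquare D) (t : ℝ) {y : ℝ} (hy : 1 ≤ y) :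
    ‖PS D t y‖ ≤ 10 ^ 6 * Real.log (16 * (4 * (D.natAbs : ℝ) + 1)) * Real.log (|t| + 5) *
      (y ^ Θ * Real.log (9 * y) ^ 4) := by
  have hD0 : D ≠ 0 := by
    rintro rfl
    exact hD ⟨0, by simp⟩
  have hne : NeZero (4 * D.natAbs) := ⟨by
    have := Int.natAbs_ne_zero.2 hD0
    omega⟩
  have hyp := hyp_char (zchi_ne_one hD) hΘ hΘ1 (fun s hs => hR _ _ (zchi_sq D) (zchi_ne_one hD) s hs)
  have h1 := psi_bound hyp t hy
  have hq : (((4 * D.natAbs : ℕ) : ℝ)) = 4 * (D.natAbs : ℝ) := by push_cast; ring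
  rw [hq] at h1
  set L := Real.log (16 * (4 * (D.natAbs : ℝ) + 1)) with hL
  have hL1 : 1 ≤ L := log_q_le (by positivity)
  have hT := log_five_le t
  set R := y ^ Θ * Real.log (9 * y) ^ 4 with hRR
  have hy9 := log_nine hy
  have hR0 : 0 ≤ R := by positivity
  have h2 : PS D t y = psi (gch (zchi D)) t y -
      ∑ m ∈ Finset.Icc 1 ⌊y⌋₊, ((Λ m - lq m : ℝ) : ℂ) * ((zro D m : ℤ) : ℂ) *
        (m : ℂ) ^ (-((t : ℂ) * I)) := by
    rw [PS_eq]
    unfold psi tw
    rw [← Finset.sum_sub_distrib]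
    apply Finset.sum_congr rfl
    intro m _
    unfold gch
    rw [zchi_natCast]
    push_cast
    ring
  have h3 : ‖∑ m ∈ Finset.Icc 1 ⌊y⌋₊, ((Λ m - lq m : ℝ) : ℂ) * ((zro D m : ℤ) : ℂ) *
        (m : ℂ) ^ (-((t : ℂ) * I))‖ ≤ 2 * √y * Real.log y := by
    refine le_trans (norm_sum_le_of_le _ ?_) (sum_vM_sub_lq hy)
    intro m hm
    rw [Finset.mem_Icc] at hm
    rw [norm_mul, norm_mul, norm_natCast_cpow_it t (by omega), mul_one, norm_real,
      Real.norm_of_nonneg (by linarith [lq_le_vM m])]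
    have := zro_norm D m
    have h4 := lq_le_vM m
    nlinarith
  have h5 := sqrt_log_le hΘ hy
  rw [← hRR] at h5
  have hLT : 1 ≤ L * Real.log (|t| + 5) := one_le_mul_of_one_le_of_one_le hL1 hT
  rw [h2]
  calc _ ≤ ‖psi (gch (zchi D)) t y‖ + _ := norm_sub_le _ _
    _ ≤ 10000 * (32 * L + 1) * Real.log (|t| + 5) * R + 2 * √y * Real.log y := add_le_add h1 h3
    _ ≤ 10000 * (33 * L) * Real.log (|t| + 5) * R + 2 * (L * Real.log (|t| + 5) * R) := by
        have e1 : 32 * L + 1 ≤ 33 * L := by linarith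
        have e2 : 2 * √y * Real.log y ≤ 2 * (L * Real.log (|t| + 5) * R) := by nlinarith
        have e3 : 10000 * (32 * L + 1) * Real.log (|t| + 5) * R ≤
            10000 * (33 * L) * Real.log (|t| + 5) * R := by gcongr
        linarith
    _ = 330002 * (L * Real.log (|t| + 5) * R) := by ring
    _ ≤ 10 ^ 6 * (L * Real.log (|t| + 5) * R) := by
        have : 0 ≤ L * Real.log (|t| + 5) * R := by positivity
        nlinarith
    _ = _ := by ring

theorem sum_log_primeFactors_le {n : ℕ} (hn : n ≠ 0) (N : ℕ) :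
    ∑ p ∈ (Finset.Icc 1 N).filter (fun p => p.Prime ∧ p ∣ n), Real.log p ≤ Real.log n := by
  have h1 : (Finset.Icc 1 N).filter (fun p => p.Prime ∧ p ∣ n) ⊆ n.primeFactors := by
    intro p hp
    rw [Finset.mem_filter] at hp
    exact Nat.mem_primeFactors.2 ⟨hp.2.1, hp.2.2, hn⟩
  calc _ ≤ ∑ p ∈ n.primeFactors, Real.log p :=
        Finset.sum_le_sum_of_subset_of_nonneg h1 (fun p _ _ => Real.log_natCast_nonneg p)
    _ = Real.log ((∏ p ∈ n.primeFactors, p : ℕ) : ℝ) := by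
        push_cast
        rw [Real.log_prod]
        intro p hp
        have := (Nat.prime_of_mem_primeFactors hp).ne_zero
        exact_mod_cast this
    _ ≤ Real.log n := by
        apply Real.log_le_log
        · have : 0 < ∏ p ∈ n.primeFactors, p := Finset.prod_pos fun p hp =>
            (Nat.prime_of_mem_primeFactors hp).pos
          exact_mod_cast this
        · exact_mod_cast Nat.le_of_dvd (Nat.pos_of_ne_zero hn) (Nat.prod_primeFactors_dvd n)

/-- principal case -/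
theorem PS_sq {Θ : ℝ} (hΘ : 1 / 2 ≤ Θ) (hΘ1 : Θ ≤ 1)
    (hz : ∀ s : ℂ, Θ < s.re → s.re < 1 → riemannZeta s ≠ 0) {j : ℕ} (hj : 1 ≤ j) (t : ℝ) {y : ℝ}
    (hy : 1 ≤ y) :
    ‖PS ((j ^ 2 : ℕ) : ℤ) t y - ∫ u in Ioc 1 y, (u : ℂ) ^ (-((t : ℂ) * I))‖ ≤
      10 ^ 6 * Real.log (16 * (4 * ((j ^ 2 : ℕ) : ℝ) + 1)) * Real.log (|t| + 5) *
      (y ^ Θ * Real.log (9 * y) ^ 4) := by
  have h1 := pnt_gen (hyp_zeta hΘ hΘ1 hz) t hy
  rw [one_mul] at h1
  set L := Real.log (16 * (4 * ((j ^ 2 : ℕ) : ℝ) + 1)) with hL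
  have hL1 : 1 ≤ L := log_q_le (by positivity)
  have hT := log_five_le t
  set R := y ^ Θ * Real.log (9 * y) ^ 4 with hRR
  have hy9 := log_nine hy
  have hR1 : 1 ≤ R := by
    have e1 : 1 ≤ y ^ Θ := Real.one_le_rpow hy (by linarith)
    have e2 : 1 ≤ Real.log (9 * y) ^ 4 := one_le_pow₀ (by linarith)
    exact one_le_mul_of_one_le_of_one_le e1 e2
  set I0 := ∫ u in Ioc 1 y, (u : ℂ) ^ (-((t : ℂ) * I)) with hI0
  have h2 : PS ((j ^ 2 : ℕ) : ℤ) t y - I0 = (∑ m ∈ Finset.Icc 1 ⌊y⌋₊,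
      tw (fun m => ((Λ m : ℝ) : ℂ)) t m - I0) -
      ∑ m ∈ Finset.Icc 1 ⌊y⌋₊, ((Λ m - lq m : ℝ) : ℂ) * (m : ℂ) ^ (-((t : ℂ) * I)) -
      ∑ m ∈ Finset.Icc 1 ⌊y⌋₊, (lq m : ℂ) * (1 - ((zro ((j ^ 2 : ℕ) : ℤ) m : ℤ) : ℂ)) *
        (m : ℂ) ^ (-((t : ℂ) * I)) := by
    rw [PS_eq]
    rw [← sub_eq_zero]
    have e : ∀ (A B C D E : ℂ), A - B - (C - B - D - E) = A - (C - D - E) := fun A B C D E => by ring
    rw [e, ← Finset.sum_sub_distrib, ← Finset.sum_sub_distrib, ← Finset.sum_sub_distrib]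
    apply Finset.sum_eq_zero
    intro m _
    unfold tw
    push_cast
    ring
  have h3 : ‖∑ m ∈ Finset.Icc 1 ⌊y⌋₊, ((Λ m - lq m : ℝ) : ℂ) *
        (m : ℂ) ^ (-((t : ℂ) * I))‖ ≤ 2 * √y * Real.log y := by
    refine le_trans (norm_sum_le_of_le _ ?_) (sum_vM_sub_lq hy)
    intro m hm
    rw [Finset.mem_Icc] at hm
    rw [norm_mul, norm_natCast_cpow_it t (by omega), mul_one, norm_real,
      Real.norm_of_nonneg (by linarith [lq_le_vM m])]
  have h4 : ‖∑ m ∈ Finset.Icc 1 ⌊y⌋₊, (lq m : ℂ) * (1 - ((zro ((j ^ 2 : ℕ) : ℤ) m : ℤ) : ℂ)) *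
        (m : ℂ) ^ (-((t : ℂ) * I))‖ ≤ Real.log ((2 * j : ℕ) : ℝ) := by
    refine le_trans ?_ (sum_log_primeFactors_le (n := 2 * j) (by omega) ⌊y⌋₊)
    rw [Finset.sum_filter]
    refine norm_sum_le_of_le _ ?_
    intro m hm
    rw [Finset.mem_Icc] at hm
    rw [norm_mul, norm_mul, norm_natCast_cpow_it t (by omega), mul_one]
    by_cases hmp : m.Prime
    · by_cases hd : m ∣ 2 * j
      · rw [if_pos ⟨hmp, hd⟩]
        have e1 : ‖((lq m : ℝ) : ℂ)‖ = Real.log m := by
          unfold lq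
          rw [if_pos hmp, norm_real, Real.norm_of_nonneg (Real.log_natCast_nonneg m)]
        have e2 : ‖(1 : ℂ) - ((zro ((j ^ 2 : ℕ) : ℤ) m : ℤ) : ℂ)‖ ≤ 1 := by
          unfold zro
          split_ifs with ho
          · push_cast
            rw [jacobiSym.pow_left]
            rcases jacobiSym.trichotomy (j : ℤ) m with h | h | h <;> rw [h] <;> simp
          · simp
        rw [e1]
        have := Real.log_natCast_nonneg m
        nlinarith
      · have hm2 : m ≠ 2 := by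
          rintro rfl
          exact hd (dvd_mul_right 2 j)
        have hodd : Odd m := hmp.odd_of_ne_two hm2
        have e3 : zro ((j ^ 2 : ℕ) : ℤ) m = 1 := by
          unfold zro
          rw [if_pos hodd]
          push_cast
          rw [jacobiSym.pow_left]
          apply jacobiSym.sq_one
          rw [Int.gcd_natCast_natCast]
          have h5 : ¬ m ∣ j := fun h => hd (dvd_mul_of_dvd_right h 2)
          exact ((Nat.Prime.coprime_iff_not_dvd hmp).2 h5).symm
        rw [e3, if_neg (fun h => hd h.2)]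
        simp
    · unfold lq
      rw [if_neg hmp, if_neg (fun h => hmp h.1)]
      simp
  have h5 := sqrt_log_le hΘ hy
  rw [← hRR] at h5
  have h6 : Real.log ((2 * j : ℕ) : ℝ) ≤ L := by
    apply Real.log_le_log
    · have : 0 < 2 * j := by omega
      exact_mod_cast this
    · push_cast
      have : (1 : ℝ) ≤ j := by exact_mod_cast hj
      nlinarith
  have hLT : 1 ≤ L * Real.log (|t| + 5) := one_le_mul_of_one_le_of_one_le hL1 hT
  have hT0 : 0 < Real.log (|t| + 5) := by linarith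
  rw [h2]
  calc _ ≤ (‖∑ m ∈ Finset.Icc 1 ⌊y⌋₊, tw (fun m => ((Λ m : ℝ) : ℂ)) t m - I0‖ + _) + _ :=
        (norm_sub_le _ _).trans (add_le_add_left (norm_sub_le _ _) _)
    _ ≤ (10000 * (80 + 1) * Real.log (|t| + 5) * R + 2 * √y * Real.log y) +
        Real.log ((2 * j : ℕ) : ℝ) := add_le_add (add_le_add h1 h3) h4
    _ ≤ (810000 * (L * Real.log (|t| + 5) * R) + 2 * (L * Real.log (|t| + 5) * R)) +
        L * Real.log (|t| + 5) * R := by
        have hR0 : 0 < R := by linarith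
        have e1 : Real.log (|t| + 5) * R ≤ L * Real.log (|t| + 5) * R := by
          have : 0 ≤ Real.log (|t| + 5) * R := by positivity
          nlinarith
        have e2 : R ≤ L * Real.log (|t| + 5) * R := by nlinarith
        have e3 : L ≤ L * Real.log (|t| + 5) * R := by
          have : 1 ≤ Real.log (|t| + 5) * R := one_le_mul_of_one_le_of_one_le hT hR1
          nlinarith
        linarith
    _ = 810003 * (L * Real.log (|t| + 5) * R) := by ring
    _ ≤ 10 ^ 6 * (L * Real.log (|t| + 5) * R) := by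
        have : 0 ≤ L * Real.log (|t| + 5) * R := by positivity
        nlinarith
    _ = _ := by ring

end Pool.Agent.Helper368_LD
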