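import Pool.Agent.Helper368_LD.ErrAll
import Pool.Agent.Helper368_LD.NSMean

/-!
# The conjectural formula and power saving
-/

set_option autoImplicit false

namespace Pool.Agent.Helper368_LD

open Complex MeasureTheory Set Filter Topology
open scoped ContDiff Real ArithmeticFunction.vonMangoldt
open Pool.Agent.H491R3.J

/-- the conjectural formula, uniformly for `c / log X ≤ Re r ≤ 1/4` and `|Im r| ≤ X ^ (1 - ε)` -/
def QOne : Prop := ∀ ε : ℝ, 0 < ε → ∀ c : ℝ, 0 < c → ∃ K : ℝ, ∀ (X : ℝ) (r : ℂ), 2 ≤ X →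
  c / Real.log X ≤ r.re → r.re ≤ 1 / 4 → |r.im| ≤ X ^ (1 - ε) →
    ‖DS X r - (Main1 X r - Main2 X r)‖ ≤ K * X ^ (1 / 2 + ε)

theorem Main1_one_bound {σ : ℝ} (hσ : 0 < σ) : ∃ C : ℝ, 0 ≤ C ∧ ∀ t : ℝ,
    ‖Main1 1 ((σ : ℂ) + t * I)‖ ≤ C := by
  refine ⟨4 / π ^ 2 * ∑' n, ‖LSeries.term gw (((1 + 2 * σ : ℝ)) : ℂ) n‖, ?_, ?_⟩
  · have : 0 ≤ ∑' n, ‖LSeries.term gw (((1 + 2 * σ : ℝ)) : ℂ) n‖ := tsum_nonneg fun _ => norm_nonneg _
    positivity
  · intro t
    set r : ℂ := (σ : ℂ) + t * I with hr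
    set z : ℂ := 1 + 2 * r with hz
    have hzre : z.re = 1 + 2 * σ := by rw [hz, hr]; simp
    have hM : Main1 1 r = -((4 / π ^ 2 : ℝ) : ℂ) * LSeries gw z := by
      unfold Main1
      rw [gw_LSeries (by linarith), riemannZeta_two]
      have hpi : (π : ℂ) ≠ 0 := by exact_mod_cast Real.pi_ne_zero
      push_cast
      field_simp
      ring
    rw [hM, norm_mul, norm_neg, norm_real, Real.norm_of_nonneg (by positivity)]
    apply mul_le_mul_of_nonneg_left _ (by positivity)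
    have hs : LSeriesSummable gw z := summable_of_le_vM gw_norm (by linarith)
    refine (norm_tsum_le_tsum_norm hs.norm).trans (le_of_eq ?_)
    apply tsum_congr
    intro n
    rw [LSeries.norm_term_eq, LSeries.norm_term_eq, hzre, ofReal_re]

theorem triv_err (hG : GRHJ) {σ : ℝ} (hσ0 : 0 < σ) (hσ1 : σ ≤ 1 / 4) : ∃ C : ℝ, 0 ≤ C ∧
    ∀ X t : ℝ, 2 ≤ X → ‖DS X ((σ : ℂ) + t * I) - (Main1 X ((σ : ℂ) + t * I) -
      Main2 X ((σ : ℂ) + t * I))‖ ≤ C * (X * Real.log X * (1 + |t|)) := by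
  obtain ⟨CZ, hCZ0, hCZ⟩ := Z1_bound hG hσ0 (by linarith : σ < 1 / 2)
  obtain ⟨CM, hCM0, hCM⟩ := Main1_one_bound hσ0
  obtain ⟨CN, hCN0, hCN⟩ := Main2_bound
  set c1 : ℝ := (Real.log (9 * 1) + 8 / σ) ^ 4 / σ with hc1
  have hl9 : 0 ≤ Real.log (9 * 1) := Real.log_nonneg (by norm_num)
  have hc10 : 0 ≤ c1 := by positivity
  refine ⟨50000 * 226 * 4 * c1 + 2 * CZ + 2 * CM + 2 * CN * (1 / σ), by positivity, ?_⟩
  intro X t hX
  have hL := logX_ge hX
  have hX0 : 0 < X := by linarith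
  have ht : 1 ≤ 1 + |t| := by linarith [abs_nonneg t]
  have h1 := DS_decomp hG (X := X) (P := 1) (σ := σ) (t := t) (by linarith) le_rfl hσ0 (by linarith)
  set r : ℂ := (σ : ℂ) + t * I with hr
  have e1 : ∑ m ∈ Finset.Icc 1 ⌊(1 : ℝ)⌋₊, ((Λ m : ℝ) : ℂ) * (m : ℂ) ^ (-(1 / 2 + r)) *
      AX X m = 0 := by
    rw [Nat.floor_one]
    simp
  rw [e1, add_zero] at h1
  have hZ1 : deriv riemannZeta (1 / 2 + r) / riemannZeta (1 / 2 + r) = Z1 r := rfl
  rw [hZ1] at h1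
  have hl16 : Real.log (16 * (X + 1)) ≤ 7 * Real.log X := by
    refine le_trans (Real.log_le_log (by linarith) ?_) (log_16X hX)
    nlinarith
  have hTE : TE X 1 σ t ≤ 50000 * 226 * 4 * c1 * (Real.log X * (1 + |t|)) := by
    unfold TE
    rw [Real.one_rpow, mul_one, ← hc1]
    have h2 := log_five_lin t
    have h3 : 32 * Real.log (16 * (X + 1)) + 1 ≤ 226 * Real.log X := by linarith
    have h4 := log_five_le t
    have h5 : 0 ≤ Real.log (16 * (X + 1)) := Real.log_nonneg (by linarith)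
    calc 50000 * (32 * Real.log (16 * (X + 1)) + 1) * Real.log (|t| + 5) * c1
        ≤ 50000 * (226 * Real.log X) * (4 * (1 + |t|)) * c1 := by gcongr
      _ = _ := by ring
  have hXL : 1 ≤ 2 * Real.log X := by linarith
  have b1 : ‖Z1 r‖ ≤ 2 * CZ * (X * Real.log X * (1 + |t|)) := by
    refine (hCZ t).trans ?_
    have h6 : 1 ≤ 2 * (X * Real.log X) := by nlinarith
    have h7 : 0 ≤ CZ * (1 + |t|) := by positivity
    nlinarith
  have b2 : ‖Main1 X r‖ ≤ 2 * CM * (X * Real.log X * (1 + |t|)) := by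
    rw [Main1_lin, norm_mul, norm_real, Real.norm_of_nonneg hX0.le]
    have h6 : 1 ≤ 2 * Real.log X * (1 + |t|) := one_le_mul_of_one_le_of_one_le hXL ht
    have h7 : X * ‖Main1 1 r‖ ≤ X * CM := mul_le_mul_of_nonneg_left (hCM t) hX0.le
    have h8 : 0 ≤ X * CM := by positivity
    nlinarith
  have b3 : ‖Main2 X r‖ ≤ 2 * CN * (1 / σ) * (X * Real.log X * (1 + |t|)) := by
    refine (hCN X σ t (by linarith) hσ0 hσ1).trans ?_
    have h6 : 1 ≤ 2 * Real.log X * (1 + |t|) := one_le_mul_of_one_le_of_one_le hXL ht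
    have h7 : (√(1 + |t|))⁻¹ ≤ 1 := inv_le_one_of_one_le₀ (by rw [Real.one_le_sqrt]; exact ht)
    have h8 : 0 ≤ CN * X * (1 / σ) := by positivity
    calc CN * X * (1 / σ) * (√(1 + |t|))⁻¹ ≤ CN * X * (1 / σ) * 1 :=
          mul_le_mul_of_nonneg_left h7 h8
      _ ≤ CN * X * (1 / σ) * (2 * Real.log X * (1 + |t|)) := mul_le_mul_of_nonneg_left h6 h8
      _ = _ := by ring
  have b4 : ‖DS X r - Z1 r‖ ≤ 50000 * 226 * 4 * c1 * (X * Real.log X * (1 + |t|)) := by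
    refine h1.trans ?_
    calc X * TE X 1 σ t ≤ X * (50000 * 226 * 4 * c1 * (Real.log X * (1 + |t|))) :=
          mul_le_mul_of_nonneg_left hTE hX0.le
      _ = _ := by ring
  have e2 : DS X r - (Main1 X r - Main2 X r) = (DS X r - Z1 r) + Z1 r - Main1 X r + Main2 X r := by
    ring
  rw [e2]
  have n1 := norm_add_le ((DS X r - Z1 r) + Z1 r - Main1 X r) (Main2 X r)
  have n2 := norm_sub_le ((DS X r - Z1 r) + Z1 r) (Main1 X r)
  have n3 := norm_add_le (DS X r - Z1 r) (Z1 r)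
  linarith

/-- the formula gives power saving -/
theorem powSave_of_QOne (hG : GRHJ) (hQ : QOne) {σ ε : ℝ} (hσ0 : 0 < σ) (hσ1 : σ ≤ 1 / 4)
    (hε : 0 < ε) (hε1 : ε ≤ 1 / 2) : PowSave σ (1 / 2 - σ - ε) := by
  have hl2 : 0 < Real.log 2 := Real.log_pos (by norm_num)
  obtain ⟨K, hK⟩ := hQ ε hε (σ * Real.log 2) (by positivity)
  obtain ⟨C, hC0, hC⟩ := triv_err hG hσ0 hσ1
  refine ⟨|K| + C / ε, 2, ?_⟩
  intro X t hX
  have hX0 : 0 < X := by linarith
  have hX1 : 1 ≤ X := by linarith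
  have he : 1 - σ - (1 / 2 - σ - ε) = 1 / 2 + ε := by ring
  rw [he]
  have ht : 1 ≤ 1 + |t| := by linarith [abs_nonneg t]
  have hXe : 0 ≤ X ^ (1 / 2 + ε) := Real.rpow_nonneg hX0.le _
  have hT2 : (1 + |t|) ^ (2 : ℝ) = (1 + |t|) * (1 + |t|) := by
    rw [Real.rpow_two, sq]
  rw [hT2]
  have hTT : 1 ≤ (1 + |t|) * (1 + |t|) := one_le_mul_of_one_le_of_one_le ht ht
  have hCε : 0 ≤ C / ε := by positivity
  have hKa : 0 ≤ |K| := abs_nonneg K
  set r : ℂ := (σ : ℂ) + t * I with hr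
  have hrre : r.re = σ := by rw [hr]; simp
  have hrim : r.im = t := by rw [hr]; simp
  rcases le_or_gt |t| (X ^ (1 - ε)) with h | h
  · have hlX : Real.log 2 ≤ Real.log X := Real.log_le_log (by norm_num) hX
    have h1 := hK X r hX (by
      rw [hrre, div_le_iff₀ (by linarith)]
      exact mul_le_mul_of_nonneg_left hlX hσ0.le) (by rw [hrre]; exact hσ1) (by rw [hrim]; exact h)
    refine h1.trans ?_
    calc K * X ^ (1 / 2 + ε) ≤ |K| * X ^ (1 / 2 + ε) :=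
          mul_le_mul_of_nonneg_right (le_abs_self K) hXe
      _ = |K| * 1 * X ^ (1 / 2 + ε) := by ring
      _ ≤ (|K| + C / ε) * ((1 + |t|) * (1 + |t|)) * X ^ (1 / 2 + ε) := by
          gcongr
          linarith
  · refine (hC X t hX).trans ?_
    have h2 : Real.log X ≤ X ^ ε / ε := Real.log_le_rpow_div hX0.le hε
    have h3 : X ^ (1 / 2 : ℝ) ≤ 1 + |t| := by
      calc X ^ (1 / 2 : ℝ) ≤ X ^ (1 - ε) := Real.rpow_le_rpow_of_exponent_le hX1 (by linarith)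
        _ ≤ 1 + |t| := by linarith
    have h4 : X * X ^ ε = X ^ (1 / 2 + ε) * X ^ (1 / 2 : ℝ) := by
      rw [← Real.rpow_add hX0]
      conv_lhs => rw [← Real.rpow_one X, ← Real.rpow_mul hX0.le]
      rw [← Real.rpow_add hX0]
      congr 1
      ring
    calc C * (X * Real.log X * (1 + |t|)) ≤ C * (X * (X ^ ε / ε) * (1 + |t|)) := by gcongr
      _ = C / ε * ((X * X ^ ε) * (1 + |t|)) := by ring
      _ = C / ε * ((X ^ (1 / 2 + ε) * X ^ (1 / 2 : ℝ)) * (1 + |t|)) := by rw [h4]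
      _ ≤ C / ε * ((X ^ (1 / 2 + ε) * (1 + |t|)) * (1 + |t|)) := by gcongr
      _ = C / ε * ((1 + |t|) * (1 + |t|)) * X ^ (1 / 2 + ε) := by ring
      _ ≤ _ := by
          gcongr
          linarith

theorem realHyp_of_QOne (hG : GRHJ) (hQ : QOne) : RealHyp (1 / 2) := by
  intro N _ ψ hψ hψ1 s hs
  set σ : ℝ := min ((s.re - 1 / 2) / 3) (1 / 8) with hσ
  have hσ0 : 0 < σ := by
    rw [hσ]
    have : 0 < (s.re - 1 / 2) / 3 := by linarith
    positivity
  have hσ1 : σ ≤ 1 / 8 := min_le_right _ _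
  have hσ2 : σ ≤ (s.re - 1 / 2) / 3 := min_le_left _ _
  have h1 := powSave_of_QOne hG hQ hσ0 (by linarith : σ ≤ 1 / 4) hσ0 (by linarith)
  have h2 := realHyp_of_powSave hG hσ0 (by linarith) (by linarith) (by linarith) h1
  exact h2 N ψ hψ hψ1 s (by linarith)

end Pool.Agent.Helper368_LD
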