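import Pool.Agent.Helper368_LD.ZeroFree2
import Pool.Agent.Helper368_LD.Classify

/-!
# Power saving implies zero free half planes for all real characters
-/

set_option autoImplicit false

namespace Pool.Agent.Helper368_LD

open Complex MeasureTheory Set Filter Topology
open scoped ContDiff Real ArithmeticFunction.vonMangoldt
open Pool.Agent.H491R3.J

theorem not_isSquare_of_squarefree {D : ℤ} (hD : Squarefree D) (hD1 : D ≠ 1) : ¬ IsSquare D := by
  rintro ⟨a, ha⟩
  have h1 : IsUnit a := hD a ⟨1, by rw [ha]; ring⟩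
  rcases Int.isUnit_iff.1 h1 with h | h
  · apply hD1
    rw [ha, h]
    norm_num
  · apply hD1
    rw [ha, h]
    norm_num

theorem euler_factor_ne_zero {N : ℕ} [NeZero N] (χ : DirichletCharacter ℂ N) {p : ℕ} (hp : p.Prime)
    {s : ℂ} (hs : 0 < s.re) : 1 - χ (p : ZMod N) * (p : ℂ) ^ (-s) ≠ 0 := by
  intro h0
  rw [sub_eq_zero] at h0
  have h1 : ‖χ (p : ZMod N) * (p : ℂ) ^ (-s)‖ < 1 := by
    rw [norm_mul, norm_natCast_cpow_of_pos hp.pos]
    have h2 := DirichletCharacter.norm_le_one χ (p : ZMod N)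
    have h3 : (p : ℝ) ^ (-s).re < 1 := by
      apply Real.rpow_lt_one_of_one_lt_of_neg
      · exact_mod_cast hp.one_lt
      · simp only [neg_re]; linarith
    have h4 : 0 ≤ (p : ℝ) ^ (-s).re := Real.rpow_nonneg (Nat.cast_nonneg p) _
    nlinarith [norm_nonneg (χ (p : ZMod N))]
  rw [← h0, norm_one] at h1
  exact lt_irrefl _ h1

/-- squarefree discriminants suffice -/
theorem realHyp_of_squarefree {Θ : ℝ} (hΘ : 0 ≤ Θ)
    (H : ∀ D : ℤ, Squarefree D → D ≠ 1 → ∀ [NeZero (4 * D.natAbs)] (ρ : ℂ), Θ < ρ.re →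
      DirichletCharacter.LFunction (zchi D) ρ ≠ 0) : RealHyp Θ := by
  intro N _ ψ hψ hψ1 s hs h0
  obtain ⟨D, hDs, hD1, hDd, hDa⟩ := real_char_kronecker hψ hψ1
  have hN0 : N ≠ 0 := NeZero.ne N
  have hD0 : D ≠ 0 := hDs.ne_zero
  have i1 : NeZero (8 * N) := ⟨by omega⟩
  have i2 : NeZero (4 * D.natAbs) := ⟨by have := Int.natAbs_ne_zero.2 hD0; omega⟩
  have hdvd : N ∣ 8 * N := dvd_mul_left N 8
  have heq : DirichletCharacter.changeLevel hdvd ψ = DirichletCharacter.changeLevel hDd (zchi D) := by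
    ext u
    have h4 : ((u : ZMod (8 * N)).val).Coprime (8 * N) := ZMod.val_coe_unit_coprime u
    have h5 : (((u : ZMod (8 * N)).val : ℕ) : ZMod (8 * N)) = u := ZMod.natCast_zmod_val _
    rw [DirichletCharacter.changeLevel_eq_cast_of_dvd _ hdvd,
      DirichletCharacter.changeLevel_eq_cast_of_dvd _ hDd, ← h5, ZMod.cast_natCast hdvd,
      ZMod.cast_natCast hDd, zchi_natCast, hDa _ h4]
    have hodd : Odd (u : ZMod (8 * N)).val := by
      have : ((u : ZMod (8 * N)).val).Coprime 2 := Nat.Coprime.coprime_dvd_right ⟨4 * N, by ring⟩ h4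
      exact (Nat.coprime_two_right).1 this
    unfold zro
    rw [if_pos hodd]
  have hnsq := not_isSquare_of_squarefree hDs hD1
  have hs0 : 0 < s.re := by linarith
  have e1 := DirichletCharacter.LFunction_changeLevel hdvd ψ (s := s) (Or.inl hψ1)
  have e2 := DirichletCharacter.LFunction_changeLevel hDd (zchi D) (s := s)
    (Or.inl (zchi_ne_one hnsq))
  rw [heq, h0, zero_mul] at e1
  rw [e1] at e2
  have h1 : DirichletCharacter.LFunction (zchi D) s *
      ∏ p ∈ (8 * N).primeFactors, (1 - zchi D (p : ZMod (4 * D.natAbs)) * (p : ℂ) ^ (-s)) ≠ 0 := by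
    apply mul_ne_zero (H D hDs hD1 s hs)
    rw [Finset.prod_ne_zero_iff]
    intro p hp
    exact euler_factor_ne_zero _ (Nat.prime_of_mem_primeFactors hp) hs0
  exact h1 e2.symm

theorem cos_sin_odd {k : ℕ} (hk : Odd k) :
    Real.cos (π * k / 2) = 0 ∧ (Real.sin (π * k / 2) = 1 ∨ Real.sin (π * k / 2) = -1) := by
  obtain ⟨j, hj⟩ := hk
  have e : π * (k : ℝ) / 2 = j * π + π / 2 := by
    rw [hj]; push_cast; ring
  rw [e, Real.cos_add_pi_div_two, Real.sin_add_pi_div_two, Real.sin_nat_mul_pi, neg_zero]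
  refine ⟨rfl, ?_⟩
  rcases Nat.even_or_odd j with h | h
  · left
    obtain ⟨i, hi⟩ := h
    have : (j : ℝ) * π = i * (2 * π) := by rw [hi]; push_cast; ring
    rw [this, Real.cos_nat_mul_two_pi]
  · right
    obtain ⟨i, hi⟩ := h
    have : (j : ℝ) * π = i * (2 * π) + π := by rw [hi]; push_cast; ring
    rw [this, Real.cos_nat_mul_two_pi_add_pi]

theorem cos_sin_even {k : ℕ} (hk : Even k) :
    Real.sin (π * k / 2) = 0 ∧ (Real.cos (π * k / 2) = 1 ∨ Real.cos (π * k / 2) = -1) := by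
  obtain ⟨j, hj⟩ := hk
  have e : π * (k : ℝ) / 2 = j * π := by
    rw [hj]; push_cast; ring
  rw [e, Real.sin_nat_mul_pi]
  refine ⟨rfl, ?_⟩
  rcases Nat.even_or_odd j with h | h
  · left
    obtain ⟨i, hi⟩ := h
    have : (j : ℝ) * π = i * (2 * π) := by rw [hi]; push_cast; ring
    rw [this, Real.cos_nat_mul_two_pi]
  · right
    obtain ⟨i, hi⟩ := h
    have : (j : ℝ) * π = i * (2 * π) + π := by rw [hi]; push_cast; ring
    rw [this, Real.cos_nat_mul_two_pi_add_pi]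

/-- the case of squarefree discriminants -/
theorem squarefree_zero_free (hG : GRHJ) {σ : ℝ} (hσ0 : 0 < σ) (hσ1 : σ ≤ 1) {E e : ℝ} {n : ℕ}
    (hE0 : 0 ≤ E) (he : 1 / 2 ≤ e)
    (hE : ∀ x t : ℝ, 0 < x → ‖A1 x ((σ : ℂ) + t * I) - (Main1 x ((σ : ℂ) + t * I) -
      Main2 x ((σ : ℂ) + t * I))‖ ≤ E * (1 + |t|) ^ n * x ^ e)
    (D : ℤ) (hD : Squarefree D) (hD1 : D ≠ 1) [NeZero (4 * D.natAbs)] (ρ : ℂ) (hρ : σ + e < ρ.re) :
    DirichletCharacter.LFunction (zchi D) ρ ≠ 0 := by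
  obtain ⟨κ, hκ1, hκ2⟩ := exists_between hρ
  have hκh : 1 / 2 < κ := by linarith
  have hD0 : D ≠ 0 := hD.ne_zero
  set k := D.natAbs with hk
  have hk1 : 1 ≤ k := Nat.one_le_iff_ne_zero.2 (Int.natAbs_ne_zero.2 hD0)
  have hDk : D = k ∨ D = -k := Int.natAbs_eq D
  have hnsq := not_isSquare_of_squarefree hD hD1
  rcases Nat.even_or_odd k with hev | hodd
  · -- even case
    obtain ⟨hs, hc⟩ := cos_sin_even hev
    have hk2 : 2 ≤ k := by
      obtain ⟨j, hj⟩ := hev
      omega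
    have hksq : Squarefree k := Int.squarefree_natAbs.2 hD
    have hkn : ¬ IsSquare (k : ℤ) := by
      apply not_isSquare_of_squarefree (Int.squarefree_natCast.2 hksq)
      omega
    have hkn2 : ¬ IsSquare (-(k : ℤ)) := by
      rintro ⟨a, ha⟩
      nlinarith [mul_self_nonneg a]
    have j1 : NeZero (4 * ((k : ℤ)).natAbs) := ⟨by rw [Int.natAbs_natCast]; omega⟩
    have j2 : NeZero (4 * (-(k : ℤ)).natAbs) := ⟨by rw [Int.natAbs_neg, Int.natAbs_natCast]; omega⟩
    have hH : ∀ h : ℝ → ℂ, TF (1 / 2) 2 h → mellin h 1 = 0 → ∃ C : ℝ, 0 ≤ C ∧ ∀ M : ℝ, 1 ≤ M →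
        ‖PW k h M + PW (-k) h M‖ ≤ C * M ^ κ := by
      intro h hh hh1
      obtain ⟨C, hC0, hC⟩ := pair_bound hG hk1 hσ0 hσ1 hh hh1 hE0 he hE hκ1
      refine ⟨C, hC0, ?_⟩
      intro M hM
      refine le_trans (le_of_eq ?_) (hC M hM)
      rw [hs, add_zero, sub_zero, ← mul_add, norm_mul]
      have : ‖((Real.cos (π * k / 2) : ℝ) : ℂ)‖ = 1 := by
        rcases hc with h | h <;> rw [h] <;> simp
      rw [this, one_mul]
    have key := zero_free hkn hkn2 hκh hH hκ2
    rcases hDk with h | h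
    · have : DirichletCharacter.LFunction (zchi (k : ℤ)) ρ ≠ 0 := left_ne_zero_of_mul key
      clear_value k
      subst h
      convert this
    · have : DirichletCharacter.LFunction (zchi (-(k : ℤ))) ρ ≠ 0 := right_ne_zero_of_mul key
      clear_value k
      subst h
      convert this
  · -- odd case
    obtain ⟨hc, hs⟩ := cos_sin_odd hodd
    have hH : ∀ h : ℝ → ℂ, TF (1 / 2) 2 h → mellin h 1 = 0 → ∃ C : ℝ, 0 ≤ C ∧ ∀ M : ℝ, 1 ≤ M →
        ‖PW D h M + PW D h M‖ ≤ C * M ^ κ := by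
      intro h hh hh1
      obtain ⟨C, hC0, hC⟩ := pair_bound hG hk1 hσ0 hσ1 hh hh1 hE0 he hE hκ1
      obtain ⟨C2, hC20, hC2⟩ := PW_known hG hodd hh hh1 hκh
      refine ⟨2 * (C + C2), by positivity, ?_⟩
      intro M hM
      have b1 := hC M hM
      have b2 := hC2 M hM
      rw [hc, zero_add, zero_sub] at b1
      have e1 : ((Real.sin (π * k / 2) : ℝ) : ℂ) * PW k h M + ((-Real.sin (π * k / 2) : ℝ) : ℂ) *
          PW (-k) h M = ((Real.sin (π * k / 2) : ℝ) : ℂ) * (PW k h M - PW (-k) h M) := by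
        push_cast
        ring
      have hs1 : ‖((Real.sin (π * k / 2) : ℝ) : ℂ)‖ = 1 := by
        rcases hs with h | h <;> rw [h] <;> simp
      rw [e1, norm_mul, hs1, one_mul] at b1
      have hMκ : 0 ≤ M ^ κ := Real.rpow_nonneg (by linarith) _
      have b3 : ‖PW D h M‖ ≤ (C + C2) * M ^ κ := by
        have hkD : D0 k = k ∨ D0 k = -k := by
          unfold D0
          split_ifs
          · left; rfl
          · right; rfl
        have b4 : 0 ≤ C * M ^ κ := mul_nonneg hC0 hMκ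
        rcases hkD with h1 | h1 <;> rcases hDk with h2 | h2 <;> rw [h1] at b2 <;> rw [h2]
        · linarith
        · have e2 : PW (-(k : ℤ)) h M = PW k h M - (PW k h M - PW (-k) h M) := by ring
          rw [e2]
          exact (norm_sub_le _ _).trans (by linarith)
        · have e2 : PW (k : ℤ) h M = PW (-k) h M + (PW k h M - PW (-k) h M) := by ring
          rw [e2]
          exact (norm_add_le _ _).trans (by linarith)
        · linarith
      calc _ ≤ ‖PW D h M‖ + ‖PW D h M‖ := norm_add_le _ _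
        _ ≤ _ := by linarith
    exact left_ne_zero_of_mul (zero_free hnsq hnsq hκh hH hκ2)

theorem realHyp_of_error (hG : GRHJ) {σ : ℝ} (hσ0 : 0 < σ) (hσ1 : σ ≤ 1) {E e : ℝ} {n : ℕ}
    (hE0 : 0 ≤ E) (he : 1 / 2 ≤ e)
    (hE : ∀ x t : ℝ, 0 < x → ‖A1 x ((σ : ℂ) + t * I) - (Main1 x ((σ : ℂ) + t * I) -
      Main2 x ((σ : ℂ) + t * I))‖ ≤ E * (1 + |t|) ^ n * x ^ e) : RealHyp (σ + e) :=
  realHyp_of_squarefree (by linarith) (fun D hD hD1 _ ρ hρ =>
    squarefree_zero_free hG hσ0 hσ1 hE0 he hE D hD hD1 ρ hρ)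

end Pool.Agent.Helper368_LD
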