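import Pool.Agent.Helper368_LD.TestFn
import Pool.Agent.Helper368_LD.Shift
import Pool.Agent.Helper368_LD.Trunc

/-!
# Smoothed sums as integrals of the logarithmic derivative on a vertical line
-/

set_option autoImplicit false

namespace Pool.Agent.Helper368_LD

open Complex MeasureTheory Set Filter Topology
open scoped ContDiff Real

variable {a b c d : ℝ} {f g h : ℝ → ℂ}

theorem TF.scale {M : ℝ} (hM : 0 < M) (hf : TF a b f) : TF (a * M) (b * M) (fun u => f (u / M)) where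
  smooth := hf.smooth.comp (contDiff_id.div_const M)
  supp := by
    intro v hv
    apply hf.supp
    intro h
    apply hv
    have h1 := h.1
    have h2 := h.2
    rw [le_div_iff₀ hM] at h1
    rw [div_le_iff₀ hM] at h2
    exact ⟨h1, h2⟩

theorem abel_TF {Q : ℝ → ℂ} (hQ : TF a b Q) {Y : ℝ} (hY0 : 0 ≤ Y) (hY : b < Y) (w : ℕ → ℂ) :
    ∑ k ∈ Finset.Icc 0 ⌊Y⌋₊, Q k * w k = -∫ t in Ioc 0 Y, deriv Q t * ∑ k ∈ Finset.Icc 0 ⌊t⌋₊, w k := by
  rw [sum_mul_eq_sub_integral_mul w hY0 (fun t _ => hQ.diff t)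
    hQ.deriv.cont.continuousOn.integrableOn_Icc, hQ.supp Y (fun h => by linarith [h.2]), zero_mul,
    zero_sub]

/-- the real power `u ^ (-1/2)` -/
noncomputable def rh (u : ℝ) : ℂ := ((u ^ (-(1 / 2) : ℝ) : ℝ) : ℂ)

theorem rh_smooth {u : ℝ} (hu : 0 < u) : ContDiffAt ℝ ∞ rh u :=
  contDiff_ofReal'.contDiffAt.comp u (Real.contDiffAt_rpow_const_of_ne hu.ne')

theorem rh_deriv {u : ℝ} (hu : 0 < u) :
    HasDerivAt rh (((-(1 / 2) * u ^ (-(1 / 2) - 1 : ℝ) : ℝ)) : ℂ) u :=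
  (Real.hasDerivAt_rpow_const (Or.inl hu.ne')).ofReal_comp

/-- `K / 2 - v K'` -/
noncomputable def K2 (K : ℝ → ℂ) (v : ℝ) : ℂ := (1 / 2) * K v - (v : ℂ) * deriv K v

theorem TF.K2 {K : ℝ → ℂ} (hc : 0 < c) (hK : TF c d K) : TF c d (K2 K) :=
  (hK.cmul (1 / 2)).sub (hK.deriv.vmul hc)

theorem mellin_K2 {K : ℝ → ℂ} (hc : 0 < c) (hcd : c ≤ d) (hK : TF c d K) (r : ℂ) :
    mellin (K2 K) r = (1 / 2 + r) * mellin K r := by
  have h1 : mellin (K2 K) r = mellin (fun v => (1 / 2) * K v) r -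
      mellin (fun v => (v : ℂ) * deriv K v) r := by
    rw [← (hasMellin_sub ((hK.cmul (1 / 2)).mellinConvergent hc r)
      ((hK.deriv.vmul hc).mellinConvergent hc r)).2]
    rfl
  have h2 : mellin (fun v => (1 / 2 : ℂ) * K v) r = (1 / 2) * mellin K r := by
    have := mellin_const_smul K r (1 / 2 : ℂ)
    simpa only [smul_eq_mul] using this
  rw [h1, h2, mellin_byparts hc hcd hK]
  ring

theorem kappa_deriv {K : ℝ → ℂ} (hK : TF c d K) {M u : ℝ} (hM : 0 < M) (hu : 0 < u) :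
    deriv (fun u => rh u * K (u / M)) u = -(((u ^ (-(3 / 2) : ℝ) : ℝ) : ℂ) * K2 K (u / M)) := by
  have h1 : HasDerivAt (fun u : ℝ => u / M) (1 / M) u := (hasDerivAt_id u).div_const M
  have h2 : HasDerivAt (fun u : ℝ => K (u / M)) ((1 / M : ℝ) • deriv K (u / M)) u :=
    HasDerivAt.scomp u (hK.hasDeriv (u / M)) h1
  have h3 : deriv (fun u => rh u * K (u / M)) u = (((-(1 / 2) * u ^ (-(1 / 2) - 1 : ℝ) : ℝ)) : ℂ) *
      K (u / M) + rh u * ((1 / M : ℝ) • deriv K (u / M)) := ((rh_deriv hu).mul h2).deriv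
  rw [h3]
  unfold K2 rh
  have e1 : u ^ (-(1 / 2) - 1 : ℝ) = u ^ (-(3 / 2) : ℝ) := by congr 1; norm_num
  have e2 : u ^ (-(1 / 2) : ℝ) = u ^ (-(3 / 2) : ℝ) * u := by
    conv_rhs => rw [← Real.rpow_add_one hu.ne']
    congr 1
    norm_num
  have hMc : (M : ℂ) ≠ 0 := by exact_mod_cast hM.ne'
  rw [e1, e2, Complex.real_smul]
  push_cast
  field_simp
  ring

theorem psi_int {g : ℕ → ℂ} {G : ℂ → ℂ} {θ B : ℝ} (h : Hyp g 0 G θ B) (t : ℝ) {w : ℝ}
    (hw : θ < w) : IntegrableOn (fun u : ℝ => ‖psi g t u‖ * u ^ (-(w + 1))) (Ioi 1) := by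
  have hθ := h.hθ
  have hB0 := h.hB0
  set δ : ℝ := (w - θ) / 2 with hδ
  have hδ0 : 0 < δ := by rw [hδ]; linarith
  set K : ℝ := 10000 * (B + 1) * Real.log (|t| + 5) * ((4 / δ) ^ 4 * 9 ^ δ) with hK
  have hlog : 0 ≤ Real.log (|t| + 5) := by
    have := log_five_le t; linarith
  have hK0 : 0 ≤ K := by positivity
  have hb : ∀ u : ℝ, 1 ≤ u → ‖psi g t u‖ ≤ K * u ^ (θ + δ) := by
    intro u hu
    refine (psi_bound h t hu).trans ?_
    have h1 := log_pow_bound hu hδ0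
    have h2 : 0 ≤ u ^ θ := Real.rpow_nonneg (by linarith) _
    rw [Real.rpow_add (by linarith)]
    calc 10000 * (B + 1) * Real.log (|t| + 5) * (u ^ θ * Real.log (9 * u) ^ 4)
        ≤ 10000 * (B + 1) * Real.log (|t| + 5) * (u ^ θ * ((4 / δ) ^ 4 * 9 ^ δ * u ^ δ)) := by
          gcongr
      _ = _ := by rw [hK]; ring
  have hi : IntegrableOn (fun u : ℝ => K * u ^ (-δ - 1)) (Ioi 1) :=
    (integrableOn_Ioi_rpow_of_lt (by linarith) zero_lt_one).const_mul K
  refine Integrable.mono' hi ?_ ?_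
  · apply AEStronglyMeasurable.mul (measurable_psi g t).norm.aestronglyMeasurable
    apply ContinuousOn.aestronglyMeasurable _ measurableSet_Ioi
    intro u hu
    have hu0 : (0 : ℝ) < u := lt_trans zero_lt_one hu
    exact (Real.continuousAt_rpow_const _ _ (Or.inl hu0.ne')).continuousWithinAt
  · refine (ae_restrict_iff' measurableSet_Ioi).2 (Eventually.of_forall ?_)
    intro u hu
    have hu1 : (1 : ℝ) < u := hu
    have hu0 : (0 : ℝ) < u := by linarith
    rw [norm_mul, norm_norm, Real.norm_of_nonneg (Real.rpow_nonneg hu0.le _)]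
    calc ‖psi g t u‖ * u ^ (-(w + 1)) ≤ (K * u ^ (θ + δ)) * u ^ (-(w + 1)) :=
          mul_le_mul_of_nonneg_right (hb u hu1.le) (Real.rpow_nonneg hu0.le _)
      _ = K * (u ^ (θ + δ) * u ^ (-(w + 1))) := by ring
      _ = K * u ^ (-δ - 1) := by
          rw [← Real.rpow_add hu0]
          congr 2
          rw [hδ]; ring

theorem inv_formula {K : ℝ → ℂ} (hc : 0 < c) (hK : TF c d K) {σ C : ℝ}
    (hC : ∀ t : ℝ, ‖mellin K ((σ : ℂ) + t * I)‖ ≤ C * (1 + |t|) ^ (-2 : ℝ)) {v : ℝ} (hv : 0 < v) :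
    K v = (1 / (2 * π)) • ∫ t : ℝ, (v : ℂ) ^ (-((σ : ℂ) + t * I)) * mellin K ((σ : ℂ) + t * I) := by
  have hd := mellin_differentiable hc hK
  have hcont : Continuous fun t : ℝ => mellin K ((σ : ℂ) + t * I) :=
    hd.continuous.comp (by fun_prop)
  have hint : VerticalIntegrable (mellin K) σ := vline_integrable (p := 2) (by norm_num) hcont hC
  have h1 := mellinInv_mellin_eq σ K hv (hK.mellinConvergent hc σ) hint hK.cont.continuousAt
  rw [← h1]
  rfl

theorem psi_zero_eq' {g : ℕ → ℂ} (hg : ∀ m, ‖g m‖ ≤ ArithmeticFunction.vonMangoldt m) (u : ℝ) :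
    ∑ k ∈ Finset.Icc 0 ⌊u⌋₊, g k = psi g 0 u := by
  rw [← psi_eq hg]
  apply Finset.sum_congr rfl
  intro m _
  unfold tw
  simp

theorem psi_le_one {g : ℕ → ℂ} (hg : ∀ m, ‖g m‖ ≤ ArithmeticFunction.vonMangoldt m) (t : ℝ) {u : ℝ}
    (hu : u ≤ 1) : psi g t u = 0 := by
  unfold psi
  apply Finset.sum_eq_zero
  intro m hm
  rw [Finset.mem_Icc] at hm
  have h1 : ⌊u⌋₊ ≤ 1 := by
    have := Nat.floor_mono hu
    simpa using this
  have hm1 : m = 1 := by omega
  have := norm_tw_le hg t m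
  rw [hm1] at this ⊢
  simpa using this

theorem cpow_div_pos {u M : ℝ} (hu : 0 < u) (hM : 0 < M) (r : ℂ) :
    ((u / M : ℝ) : ℂ) ^ (-r) = (u : ℂ) ^ (-r) * (M : ℂ) ^ r := by
  have h1 := Complex.mul_cpow_ofReal_nonneg (div_pos hu hM).le hM.le (-r)
  have h2 : ((u / M : ℝ) : ℂ) * (M : ℂ) = (u : ℂ) := by
    rw [← ofReal_mul]
    congr 1
    field_simp
  rw [h2] at h1
  have hMc : (M : ℂ) ≠ 0 := by exact_mod_cast hM.ne'
  have h3 : (M : ℂ) ^ (-r) * (M : ℂ) ^ r = 1 := by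
    rw [← Complex.cpow_add _ _ hMc, neg_add_cancel, Complex.cpow_zero]
  rw [h1, mul_assoc, h3, mul_one]

/-- the representation of smoothed sums -/
theorem rep {g : ℕ → ℂ} {G : ℂ → ℂ} {θ B : ℝ} (h : Hyp g 0 G θ B) {σ : ℝ} (hσ : θ < 1 / 2 + σ)
    (hσ0 : 0 ≤ σ) {K : ℝ → ℂ} (hc : 0 < c) (hcd : c ≤ d) (hK : TF c d K) {C : ℝ}
    (hC : ∀ t : ℝ, ‖mellin K ((σ : ℂ) + t * I)‖ ≤ C * (1 + |t|) ^ (-3 : ℝ)) {M : ℝ}
    (hM0 : 0 < M) {N : ℕ} (hN : d * M < N) :
    ∑ m ∈ Finset.Icc 1 N, g m * (rh m * K (m / M)) =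
      (1 / (2 * π)) • ∫ t : ℝ, G (1 / 2 + ((σ : ℂ) + t * I)) * (M : ℂ) ^ ((σ : ℂ) + t * I) *
        mellin K ((σ : ℂ) + t * I) := by
  have hg0 : g 0 = 0 := by
    have := h.hg 0
    simpa using this
  have hMc : (M : ℂ) ≠ 0 := by exact_mod_cast hM0.ne'
  have hκ : TF (c * M) (d * M) (fun u => rh u * K (u / M)) :=
    (hK.scale hM0).mul_of_pos (mul_pos hc hM0) (fun u hu => rh_smooth hu)
  have hK2 := TF.K2 hc hK
  -- Abel summation
  set F : ℝ → ℂ := fun u => psi g 0 u * (((u ^ (-(3 / 2) : ℝ) : ℝ) : ℂ) * K2 K (u / M)) with hF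
  have s1 : ∑ m ∈ Finset.Icc 1 N, g m * (rh m * K (m / M)) = ∫ u in Ioc (0 : ℝ) N, F u := by
    have e1 : ∑ m ∈ Finset.Icc 1 N, g m * (rh m * K (m / M)) =
        ∑ k ∈ Finset.Icc 0 ⌊(N : ℝ)⌋₊, (fun u : ℝ => rh u * K (u / M)) k * g k := by
      rw [Nat.floor_natCast]
      apply Finset.sum_subset_zero_on_sdiff
      · intro m hm
        rw [Finset.mem_Icc] at hm ⊢
        omega
      · intro m hm
        rw [Finset.mem_sdiff, Finset.mem_Icc, Finset.mem_Icc] at hm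
        have : m = 0 := by omega
        rw [this, hg0, mul_zero]
      · intro m _
        ring
    rw [e1, abel_TF hκ (Nat.cast_nonneg N) hN, ← integral_neg]
    apply setIntegral_congr_fun measurableSet_Ioc
    intro u hu
    simp only [hF]
    rw [kappa_deriv hK hM0 hu.1, psi_zero_eq' h.hg]
    ring
  have s2 : ∫ u in Ioc (0 : ℝ) N, F u = ∫ u in Ioi (1 : ℝ), F u := by
    have e1 : ∫ u in Ioi (0 : ℝ), F u = ∫ u in Ioc (0 : ℝ) N, F u := by
      apply setIntegral_eq_of_subset_of_forall_sdiff_eq_zero measurableSet_Ioi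
      · intro u hu; exact hu.1
      · intro u hu
        have h1 : (N : ℝ) < u := by
          by_contra h2
          exact hu.2 ⟨hu.1, not_lt.1 h2⟩
        simp only [hF]
        rw [hK2.supp (u / M), mul_zero, mul_zero]
        intro h3
        have := h3.2
        rw [div_le_iff₀ hM0] at this
        linarith
    have e2 : ∫ u in Ioi (0 : ℝ), F u = ∫ u in Ioi (1 : ℝ), F u := by
      apply setIntegral_eq_of_subset_of_forall_sdiff_eq_zero measurableSet_Ioi
      · intro u hu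
        have h0 : (1 : ℝ) < u := hu
        exact lt_trans zero_lt_one h0
      · intro u hu
        have h1 : u ≤ 1 := not_lt.1 hu.2
        simp only [hF]
        rw [psi_le_one h.hg 0 h1, zero_mul]
    rw [← e1, e2]
  -- Mellin inversion
  have hdK := mellin_differentiable hc hK
  have hnr : ∀ t : ℝ, ‖(1 / 2 : ℂ) + ((σ : ℂ) + t * I)‖ ≤ (1 + σ) * (1 + |t|) := by
    intro t
    have h1 : ‖(1 / 2 : ℂ) + ((σ : ℂ) + t * I)‖ ≤ 1 / 2 + (σ + |t|) := by
      refine (norm_add_le _ _).trans (add_le_add (by norm_num) ((norm_add_le _ _).trans ?_))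
      rw [norm_real, Real.norm_of_nonneg hσ0, norm_mul, norm_I, mul_one, norm_real, Real.norm_eq_abs]
    have h2 : 0 ≤ |t| := abs_nonneg t
    nlinarith
  have hC0 : 0 ≤ C := by
    have := hC 0
    have h1 := norm_nonneg (mellin K ((σ : ℂ) + (0 : ℝ) * I))
    simp only [abs_zero, add_zero, Real.one_rpow, mul_one] at this
    linarith
  have hdec : ∀ t : ℝ, ‖mellin (K2 K) ((σ : ℂ) + t * I)‖ ≤ ((1 + σ) * C) * (1 + |t|) ^ (-2 : ℝ) := by
    intro t
    rw [mellin_K2 hc hcd hK, norm_mul]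
    have h2 : 0 < 1 + |t| := by positivity
    calc _ ≤ ((1 + σ) * (1 + |t|)) * (C * (1 + |t|) ^ (-3 : ℝ)) :=
          mul_le_mul (hnr t) (hC t) (norm_nonneg _) (by positivity)
      _ = ((1 + σ) * C) * ((1 + |t|) ^ (-3 : ℝ) * (1 + |t|)) := by ring
      _ = _ := by
          rw [← Real.rpow_add_one h2.ne']
          norm_num
  set Q : ℝ → ℂ := fun t => (M : ℂ) ^ ((σ : ℂ) + t * I) * mellin (K2 K) ((σ : ℂ) + t * I) with hQ
  have hQc : Continuous Q := by
    apply Continuous.mul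
    · apply Continuous.const_cpow (by fun_prop)
      left
      exact hMc
    · exact (mellin_differentiable hc hK2).continuous.comp (by fun_prop)
  have hQn : ∀ t, ‖Q t‖ ≤ (M ^ σ * ((1 + σ) * C)) * (1 + |t|) ^ (-2 : ℝ) := by
    intro t
    simp only [hQ]
    rw [norm_mul, norm_cpow_eq_rpow_re_of_pos hM0]
    have e : ((σ : ℂ) + t * I).re = σ := by simp
    rw [e, mul_assoc]
    exact mul_le_mul_of_nonneg_left (hdec t) (Real.rpow_nonneg hM0.le _)
  have hQi : Integrable Q := by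
    refine Integrable.mono' ((integrable_one_add_abs (p := 2) (by norm_num)).const_mul
      (M ^ σ * ((1 + σ) * C))) hQc.aestronglyMeasurable ?_
    exact Eventually.of_forall hQn
  set Φ : ℝ → ℝ → ℂ := fun u t => psi g 0 u * ((u ^ (-(3 / 2) : ℝ) : ℝ) : ℂ) *
    (u : ℂ) ^ (-((σ : ℂ) + t * I)) * Q t with hΦ
  have s3 : ∀ u ∈ Ioi (1 : ℝ), F u = (1 / (2 * π)) • ∫ t : ℝ, Φ u t := by
    intro u hu
    have hu0 : 0 < u := lt_trans zero_lt_one hu
    simp only [hF, hΦ]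
    rw [inv_formula hc hK2 hdec (div_pos hu0 hM0), Complex.real_smul, Complex.real_smul]
    have e1 : ∀ t : ℝ, psi g 0 u * ((u ^ (-(3 / 2) : ℝ) : ℝ) : ℂ) * (u : ℂ) ^ (-((σ : ℂ) + t * I)) *
        Q t = (psi g 0 u * ((u ^ (-(3 / 2) : ℝ) : ℝ) : ℂ)) *
          (((u / M : ℝ) : ℂ) ^ (-((σ : ℂ) + t * I)) * mellin (K2 K) ((σ : ℂ) + t * I)) := by
      intro t
      rw [cpow_div_pos hu0 hM0]
      simp only [hQ]
      ring
    simp only [e1]
    rw [integral_const_mul]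
    ring
  have hw0 : θ < 1 / 2 + σ := hσ
  have hP := psi_int h 0 hw0
  have hint : Integrable (Function.uncurry Φ) ((volume.restrict (Ioi (1 : ℝ))).prod volume) := by
    refine Integrable.mono' (Integrable.mul_prod hP hQi.norm) ?_ ?_
    · apply Measurable.aestronglyMeasurable
      apply Measurable.mul _ (hQc.measurable.comp measurable_snd)
      apply Measurable.mul
      · apply Measurable.mul ((measurable_psi g 0).comp measurable_fst)
        exact Complex.measurable_ofReal.comp (measurable_fst.pow_const _)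
      · apply Measurable.pow (Complex.measurable_ofReal.comp measurable_fst)
        fun_prop
    · have e : (volume.restrict (Ioi (1 : ℝ))).prod (volume : Measure ℝ) =
          ((volume : Measure ℝ).prod volume).restrict (Ioi 1 ×ˢ univ) := by
        rw [← Measure.prod_restrict, Measure.restrict_univ]
      rw [e]
      refine (ae_restrict_iff' (measurableSet_Ioi.prod MeasurableSet.univ)).2
        (Eventually.of_forall ?_)
      rintro ⟨u, t⟩ ⟨hu, _⟩
      have hu0 : (0 : ℝ) < u := lt_trans zero_lt_one hu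
      simp only [Function.uncurry, hΦ]
      rw [norm_mul, norm_mul, norm_mul, norm_real, Real.norm_of_nonneg (Real.rpow_nonneg hu0.le _),
        norm_cpow_eq_rpow_re_of_pos hu0]
      have e2 : (-((σ : ℂ) + t * I)).re = -σ := by simp
      rw [e2, mul_assoc ‖psi g 0 u‖, ← Real.rpow_add hu0]
      have e3 : -(3 / 2) + -σ = -(1 / 2 + σ + 1) := by ring
      rw [e3]
  rw [s1, s2, setIntegral_congr_fun measurableSet_Ioi s3, integral_smul,
    integral_integral_swap hint]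
  congr 1
  apply integral_congr_ae
  apply Eventually.of_forall
  intro t
  simp only [hΦ]
  have e1 : ∀ u ∈ Ioi (1 : ℝ), psi g 0 u * ((u ^ (-(3 / 2) : ℝ) : ℝ) : ℂ) *
      (u : ℂ) ^ (-((σ : ℂ) + t * I)) * Q t = Q t * (psi g 0 u *
        (u : ℂ) ^ (-((1 / 2 + ((σ : ℂ) + t * I)) + 1))) := by
    intro u hu
    have hu0 : (0 : ℝ) < u := lt_trans zero_lt_one hu
    have huc : (u : ℂ) ≠ 0 := by exact_mod_cast hu0.ne'
    have e2 : ((u ^ (-(3 / 2) : ℝ) : ℝ) : ℂ) * (u : ℂ) ^ (-((σ : ℂ) + t * I)) =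
        (u : ℂ) ^ (-((1 / 2 + ((σ : ℂ) + t * I)) + 1)) := by
      rw [ofReal_cpow hu0.le, ← Complex.cpow_add _ _ huc]
      congr 1
      push_cast
      ring
    rw [← e2]
    ring
  rw [setIntegral_congr_fun measurableSet_Ioi e1, integral_const_mul]
  have hw : θ < (1 / 2 + ((σ : ℂ) + t * I)).re := by
    have : (1 / 2 + ((σ : ℂ) + t * I)).re = 1 / 2 + σ := by simp
    rw [this]; exact hσ
  have h5 := G_integral h 0 hw
  rw [ofReal_zero, zero_mul, add_zero] at h5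
  rw [h5]
  simp only [hQ]
  rw [mellin_K2 hc hcd hK]
  ring

end Pool.Agent.Helper368_LD
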