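import Pool.Agent.Helper368_LD.Unsmooth
import Pool.Agent.W468.CFTail
import Pool.Agent.W762.EC.SSA

/-!
# Sums over primes in real characters of small conductor
-/

set_option autoImplicit false

namespace Pool.Agent.Helper368_LD

open MeasureTheory Set Complex
open scoped Real ArithmeticFunction.vonMangoldt
open Pool.Agent.H491R3.J
open Pool.Agent.H262R3.Lk.SWQ (psiC)

theorem lp_diff {D : ℤ} {q : ℕ} {χ : DirichletCharacter ℂ q}
    (hχ : ∀ p : ℕ, p.Prime → 4 * D.natAbs < p → χ (p : ZMod q) = ((jacobiSym D p : ℤ) : ℂ))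
    {n : ℕ} (hD : 1 ≤ D.natAbs) :
    ‖(lp n : ℂ) * (n : ℂ) ^ (-(((0 : ℝ) : ℂ) * I)) * ((jacobiSym D n : ℤ) : ℂ) -
      ((Λ n : ℝ) : ℂ) * χ (n : ZMod q)‖ ≤
      (Λ n - lq n) + 2 * (if n.Prime ∧ n ≤ 4 * D.natAbs then Real.log n else 0) := by
  have h0 : (n : ℂ) ^ (-(((0 : ℝ) : ℂ) * I)) = 1 := by simp
  rw [h0, mul_one]
  have hJ : ‖((jacobiSym D n : ℤ) : ℂ)‖ ≤ 1 := by
    rcases jacobiSym.trichotomy D n with h | h | h <;> rw [h] <;> simp
  have hχ1 : ‖χ (n : ZMod q)‖ ≤ 1 := χ.norm_le_one _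
  have hlog : 0 ≤ Real.log (n : ℝ) := Real.log_natCast_nonneg n
  by_cases hp : n.Prime
  · have hΛ : Λ n = Real.log n := ArithmeticFunction.vonMangoldt_apply_prime hp
    have hlq : lq n = Real.log n := by unfold lq; rw [if_pos hp]
    by_cases hs : n ≤ 4 * D.natAbs
    · rw [if_pos ⟨hp, hs⟩, hΛ, hlq, sub_self, zero_add]
      have h1 : ‖(lp n : ℂ) * ((jacobiSym D n : ℤ) : ℂ)‖ ≤ Real.log n := by
        rw [norm_mul, norm_real, Real.norm_of_nonneg (lp_nonneg n)]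
        have h2 : lp n ≤ Real.log n := by
          rw [← hΛ]; exact lp_le_vM n
        calc lp n * ‖((jacobiSym D n : ℤ) : ℂ)‖ ≤ Real.log n * 1 := by
              apply mul_le_mul h2 hJ (norm_nonneg _) hlog
          _ = _ := mul_one _
      have h3 : ‖((Real.log n : ℝ) : ℂ) * χ (n : ZMod q)‖ ≤ Real.log n := by
        rw [norm_mul, norm_real, Real.norm_of_nonneg hlog]
        calc _ ≤ Real.log n * 1 := by gcongr
          _ = _ := mul_one _
      refine (norm_sub_le _ _).trans ?_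
      linarith
    · push Not at hs
      rw [if_neg (fun h => absurd h.2 (not_le.2 hs)), hχ n hp hs]
      have hlp : lp n = Real.log n := by
        unfold lp
        rw [if_pos ⟨hp, by omega⟩]
      rw [hlp, hΛ, hlq, sub_self, norm_zero]
      simp
  · have hlp : lp n = 0 := by
      unfold lp
      rw [if_neg (fun h => hp h.1)]
    have hlq : lq n = 0 := by unfold lq; rw [if_neg hp]
    rw [if_neg (fun h => hp h.1), hlp, hlq]
    simp only [ofReal_zero, zero_mul, zero_sub, norm_neg, sub_zero, mul_zero, add_zero]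
    have hΛ0 : 0 ≤ Λ n := ArithmeticFunction.vonMangoldt_nonneg
    rw [norm_mul, norm_real, Real.norm_of_nonneg hΛ0]
    calc _ ≤ Λ n * 1 := by gcongr
      _ = _ := mul_one _

theorem PS_SW (A B : ℕ) : ∃ y0 : ℝ, ∀ y : ℝ, y0 ≤ y → ∀ D : ℤ, ¬ IsSquare D →
    4 * (D.natAbs : ℝ) ≤ Real.log y ^ B → ‖PS D 0 y‖ ≤ 20 * y / Real.log y ^ A := by
  obtain ⟨x1, hx1⟩ := Pool.Agent.W762.EC.SSA.psiC_bound A B
  obtain ⟨x2, hx2⟩ := Pool.Agent.W762.EC.SSA.growth (A + B + 1)
  refine ⟨max (max x1 x2) 100, fun y hy D hsq hD => ?_⟩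
  have hy1 : x1 ≤ y := (le_max_left _ _).trans ((le_max_left _ _).trans hy)
  have hy2 : x2 ≤ y := (le_max_right _ _).trans ((le_max_left _ _).trans hy)
  have hy100 : 100 ≤ y := (le_max_right _ _).trans hy
  have hy0 : 0 < y := by linarith
  have hL1 : 1 ≤ Real.log y := by
    rw [Real.le_log_iff_exp_le hy0]
    have := Real.exp_one_lt_d9
    linarith
  have hsy : 10 ≤ √y := by
    rw [Real.le_sqrt (by norm_num) hy0.le]
    linarith
  have hD0 : D ≠ 0 := by rintro rfl; exact hsq ⟨0, by simp⟩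
  have hD1 : 1 ≤ D.natAbs := Int.natAbs_pos.2 hD0
  obtain ⟨q, hq1, hq2, χ, hχ, hχp⟩ := Pool.Agent.W468.ConjF.exists_prim D hsq
  have hqB : (q : ℝ) ≤ Real.log y ^ B := by
    refine le_trans ?_ hD
    exact_mod_cast hq2
  have h1 := hx1 y hy1 q hq1 hqB χ hχ
  have h2 : ‖PS D 0 y - psiC y q χ‖ ≤ 2 * √y * Real.log y + 16 * (D.natAbs : ℝ) := by
    unfold PS psiC
    rw [← Finset.sum_sub_distrib]
    have h3 : ∀ n ∈ Finset.Icc 1 ⌊y⌋₊, ‖(lp n : ℂ) * (n : ℂ) ^ (-(((0 : ℝ) : ℂ) * I)) *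
        ((jacobiSym D n : ℤ) : ℂ) - ((Λ n : ℝ) : ℂ) * χ (n : ZMod q)‖ ≤
        (Λ n - lq n) + 2 * (if n.Prime ∧ n ≤ 4 * D.natAbs then Real.log n else 0) := by
      intro n hn
      exact lp_diff hχp hD1
    refine (norm_sum_le_of_le _ h3).trans ?_
    rw [Finset.sum_add_distrib, ← Finset.mul_sum]
    have h4 := sum_vM_sub_lq (y := y) (by linarith)
    have h5 : ∑ n ∈ Finset.Icc 1 ⌊y⌋₊, (if n.Prime ∧ n ≤ 4 * D.natAbs then Real.log (n : ℝ) else 0) ≤
        8 * (D.natAbs : ℝ) := by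
      rw [← Finset.sum_filter]
      have h6 : ∑ n ∈ (Finset.Icc 1 ⌊y⌋₊).filter (fun n => n.Prime ∧ n ≤ 4 * D.natAbs), Real.log (n : ℝ) ≤
          Chebyshev.theta ((4 * D.natAbs : ℕ) : ℝ) := by
        unfold Chebyshev.theta
        rw [Nat.floor_natCast]
        apply Finset.sum_le_sum_of_subset_of_nonneg
        · intro n hn
          rw [Finset.mem_filter, Finset.mem_Icc] at hn
          rw [Finset.mem_filter, Finset.mem_Ioc]
          exact ⟨⟨hn.1.1, hn.2.2⟩, hn.2.1⟩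
        · intro n _ _
          exact Real.log_natCast_nonneg n
      refine h6.trans ?_
      have h7 := Chebyshev.theta_le_log4_mul_x (x := ((4 * D.natAbs : ℕ) : ℝ)) (Nat.cast_nonneg _)
      refine h7.trans ?_
      have h8 : Real.log 4 ≤ 2 := by
        have : Real.log 4 = 2 * Real.log 2 := by
          rw [show (4 : ℝ) = 2 ^ 2 by norm_num, Real.log_pow]
          push_cast
          ring
        rw [this]
        have := Real.log_two_lt_d9
        linarith
      push_cast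
      have : (0 : ℝ) ≤ D.natAbs := Nat.cast_nonneg _
      nlinarith
    linarith
  have h9 : Real.log y ^ (A + B + 1) ≤ √y := hx2 y hy2
  have hLA : 0 < Real.log y ^ A := by positivity
  have h10 : 2 * √y * Real.log y ≤ 2 * (y / Real.log y ^ A) := by
    rw [mul_assoc]
    apply mul_le_mul_of_nonneg_left _ (by norm_num)
    rw [le_div_iff₀ hLA]
    calc √y * Real.log y * Real.log y ^ A = √y * Real.log y ^ (A + 1) := by ring
      _ ≤ √y * Real.log y ^ (A + B + 1) := by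
          apply mul_le_mul_of_nonneg_left _ (Real.sqrt_nonneg y)
          exact pow_le_pow_right₀ hL1 (by omega)
      _ ≤ √y * √y := by gcongr
      _ = y := Real.mul_self_sqrt hy0.le
  have h11 : 16 * (D.natAbs : ℝ) ≤ 4 * (y / Real.log y ^ A) := by
    have h12 : (D.natAbs : ℝ) * 4 * Real.log y ^ A ≤ y := by
      calc (D.natAbs : ℝ) * 4 * Real.log y ^ A ≤ Real.log y ^ B * Real.log y ^ A := by
            gcongr
            linarith
        _ = Real.log y ^ (A + B) := by ring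
        _ ≤ Real.log y ^ (A + B + 1) := pow_le_pow_right₀ hL1 (by omega)
        _ ≤ √y := h9
        _ ≤ √y * √y := by nlinarith
        _ = y := Real.mul_self_sqrt hy0.le
    have h13 : 4 * (D.natAbs : ℝ) ≤ y / Real.log y ^ A := by
      rw [le_div_iff₀ hLA]
      linarith
    linarith
  have h14 : 10 * y / Real.log y ^ A = 10 * (y / Real.log y ^ A) := by ring
  have h15 : 20 * y / Real.log y ^ A = 20 * (y / Real.log y ^ A) := by ring
  have h16 : 0 < y / Real.log y ^ A := by positivity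
  have h17 : PS D 0 y = (PS D 0 y - psiC y q χ) + psiC y q χ := by ring
  rw [h17, h15]
  rw [h14] at h1
  refine (norm_add_le _ _).trans ?_
  linarith

/-- the twisted sums over a block -/
theorem tw_block {D : ℤ} {Q E : ℝ} (hQ : 1 ≤ Q)
    (hE : ∀ y ∈ Icc Q (2 * Q), ‖PS D 0 y - PS D 0 Q‖ ≤ E) (t : ℝ) {y : ℝ} (hy : y ∈ Icc Q (2 * Q)) :
    ‖∑ p ∈ Finset.Ioc ⌊Q⌋₊ ⌊y⌋₊, (lp p : ℂ) * (p : ℂ) ^ (-((t : ℂ) * I)) * ((jacobiSym D p : ℤ) : ℂ)‖ ≤
      E * (1 + |t|) := by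
  have hQ0 : 0 < Q := by linarith
  set c : ℕ → ℂ := fun p => (lp p : ℂ) * ((jacobiSym D p : ℤ) : ℂ) with hc
  set w : ℝ → ℂ := fun u => (u : ℂ) ^ (-((t : ℂ) * I)) with hw
  set w' : ℝ → ℂ := fun u => (-((t : ℂ) * I)) * (u : ℂ) ^ (-((t : ℂ) * I) - 1) with hw'
  have hE0 : 0 ≤ E := (norm_nonneg _).trans (hE Q ⟨le_rfl, by linarith⟩)
  have hd : ∀ u ∈ Icc Q y, HasDerivAt w (w' u) u := by
    intro u hu
    have hu0 : 0 < u := lt_of_lt_of_le hQ0 hu.1
    have h1 : HasDerivAt (fun z : ℂ => z ^ (-((t : ℂ) * I)))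
        (-((t : ℂ) * I) * (u : ℂ) ^ (-((t : ℂ) * I) - 1) * 1) (u : ℂ) :=
      (hasDerivAt_id' (u : ℂ)).cpow_const (Complex.ofReal_mem_slitPlane.2 hu0)
    rw [mul_one] at h1
    exact h1.comp_ofReal
  have hw'c : ContinuousOn w' (Icc Q y) := by
    apply ContinuousOn.mul continuousOn_const
    exact cpow_cont hQ0 _
  have hcond : ∀ v ∈ Icc Q y, ‖∑ k ∈ Finset.Ioc ⌊Q⌋₊ ⌊v⌋₊, c k - ∫ _u in Q..v, (0 : ℂ)‖ ≤ E := by
    intro v hv
    rw [intervalIntegral.integral_zero, sub_zero]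
    have h4 := hE v ⟨hv.1, hv.2.trans hy.2⟩
    have h5 : PS D 0 v - PS D 0 Q = ∑ k ∈ Finset.Ioc ⌊Q⌋₊ ⌊v⌋₊, c k := by
      unfold PS
      rw [← sum_Ioc_eq hv.1]
      apply Finset.sum_congr rfl
      intro p _
      simp [hc]
    rw [← h5]
    exact h4
  have h6 := abel_cmp (c := c) (v := fun _ => 0) (w := w) (w' := w') hQ0.le hy.1 hd hw'c
    continuousOn_const hcond
  simp only [mul_zero, intervalIntegral.integral_zero, sub_zero] at h6
  have h7 : ∑ p ∈ Finset.Ioc ⌊Q⌋₊ ⌊y⌋₊, (lp p : ℂ) * (p : ℂ) ^ (-((t : ℂ) * I)) *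
      ((jacobiSym D p : ℤ) : ℂ) = ∑ k ∈ Finset.Ioc ⌊Q⌋₊ ⌊y⌋₊, w k * c k := by
    apply Finset.sum_congr rfl
    intro p _
    simp only [hw, hc, Complex.ofReal_natCast]
    ring
  rw [h7]
  refine h6.trans (mul_le_mul_of_nonneg_left ?_ hE0)
  have hy0 : 0 < y := by linarith [hy.1]
  have h8 : ‖w y‖ = 1 := by
    simp only [hw]
    rw [norm_cpow_eq_rpow_re_of_pos hy0]
    simp
  have h9 : ∫ u in Q..y, ‖w' u‖ ≤ |t| := by
    have h10 : ∀ u ∈ Set.uIoc Q y, ‖‖w' u‖‖ ≤ |t| / Q := by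
      intro u hu
      rw [uIoc_of_le hy.1] at hu
      have hu0 : 0 < u := lt_trans hQ0 hu.1
      rw [norm_norm]
      simp only [hw']
      rw [norm_mul, norm_neg, norm_mul, norm_real, Complex.norm_I, mul_one, Real.norm_eq_abs,
        norm_cpow_eq_rpow_re_of_pos hu0]
      have h11 : (-((t : ℂ) * I) - 1).re = -1 := by simp
      rw [h11, Real.rpow_neg_one, div_eq_mul_inv]
      have := hu.1.le
      gcongr
    have h12 := intervalIntegral.norm_integral_le_of_norm_le_const h10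
    refine (le_abs_self _).trans (h12.trans ?_)
    rw [abs_of_nonneg (by linarith [hy.1] : 0 ≤ y - Q)]
    have h13 : y - Q ≤ Q := by linarith [hy.2]
    calc |t| / Q * (y - Q) ≤ |t| / Q * Q := by gcongr
      _ = |t| := by field_simp
  rw [h8]
  linarith

end Pool.Agent.Helper368_LD
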