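import Pool.Agent.Helper368_LD.SWa

/-!
# The prime side without a hypothesis on the twists
-/

set_option autoImplicit false

namespace Pool.Agent.Helper368_LD

open MeasureTheory Set Complex
open scoped Real ArithmeticFunction.vonMangoldt
open Pool.Agent.H491R3.J

theorem log_five_le' (t : ℝ) : Real.log (|t| + 5) ≤ 4 * (1 + |t|) := by
  have h := abs_nonneg t
  have h1 := Real.log_le_sub_one_of_pos (show 0 < |t| + 5 by linarith)
  linarith

/-- the nonsquare frequencies -/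
theorem nonsq_SW (A B : ℕ) : ∃ Q0 : ℝ, ∀ Q : ℝ, Q0 ≤ Q → ∀ D : ℤ, ¬ IsSquare D →
    4 * (D.natAbs : ℝ) ≤ Real.log Q ^ B → ∀ t : ℝ, ∀ y ∈ Icc Q (2 * Q),
    ‖∑ p ∈ Finset.Ioc ⌊Q⌋₊ ⌊y⌋₊, (lp p : ℂ) * (p : ℂ) ^ (-((t : ℂ) * I)) * ((jacobiSym D p : ℤ) : ℂ)‖ ≤
      (1 + |t|) * (100 * Q / Real.log Q ^ A) := by
  obtain ⟨y0, hy0⟩ := PS_SW A B
  refine ⟨max y0 3, fun Q hQ D hD hDQ t y hy => ?_⟩
  have hQy0 : y0 ≤ Q := (le_max_left _ _).trans hQ
  have hQ3 : 3 ≤ Q := (le_max_right _ _).trans hQ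
  have hQ0 : 0 < Q := by linarith
  have hL1 : 1 ≤ Real.log Q := by
    rw [Real.le_log_iff_exp_le hQ0]
    have := Real.exp_one_lt_d9
    linarith
  have hLA : 0 < Real.log Q ^ A := by positivity
  have hb : ∀ v ∈ Icc Q (2 * Q), ‖PS D 0 v‖ ≤ 40 * (Q / Real.log Q ^ A) := by
    intro v hv
    have hlv : Real.log Q ≤ Real.log v := Real.log_le_log hQ0 hv.1
    have h1 := hy0 v (hQy0.trans hv.1) D hD (hDQ.trans (by gcongr))
    refine h1.trans ?_
    calc 20 * v / Real.log v ^ A ≤ 20 * (2 * Q) / Real.log Q ^ A := by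
          have := hv.2
          gcongr
      _ = _ := by ring
  have hE : ∀ v ∈ Icc Q (2 * Q), ‖PS D 0 v - PS D 0 Q‖ ≤ 100 * Q / Real.log Q ^ A := by
    intro v hv
    have h1 := hb v hv
    have h2 := hb Q ⟨le_rfl, by linarith⟩
    have h3 : 0 < Q / Real.log Q ^ A := by positivity
    have h4 : 100 * Q / Real.log Q ^ A = 100 * (Q / Real.log Q ^ A) := by ring
    rw [h4]
    refine (norm_sub_le _ _).trans ?_
    linarith
  have h5 := tw_block (by linarith : (1 : ℝ) ≤ Q) hE t hy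
  linarith

/-- the square frequencies -/
theorem sq_SW (hG : GRHJ) (A B : ℕ) : ∃ Q0 : ℝ, ∀ Q : ℝ, Q0 ≤ Q → ∀ j : ℕ, 1 ≤ j →
    4 * ((j ^ 2 : ℕ) : ℝ) ≤ Real.log Q ^ B → ∀ t : ℝ, ∀ y ∈ Icc Q (2 * Q),
    ‖PS ((j ^ 2 : ℕ) : ℤ) t y - ∫ u in Ioc 1 y, (u : ℂ) ^ (-((t : ℂ) * I))‖ ≤
      (1 + |t|) * (50 * Q / Real.log Q ^ A) := by
  obtain ⟨X1, hX1⟩ := Pool.Agent.W762.EC.SSA.growth (A + B + 5)
  refine ⟨max X1 (Real.exp (10 ^ 12)), fun Q hQ j hj hjQ t y hy => ?_⟩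
  have hQX : X1 ≤ Q := (le_max_left _ _).trans hQ
  have hQe : Real.exp (10 ^ 12) ≤ Q := (le_max_right _ _).trans hQ
  have hQ0 : 0 < Q := lt_of_lt_of_le (Real.exp_pos _) hQe
  have hL : 10 ^ 12 ≤ Real.log Q := by
    rw [Real.le_log_iff_exp_le hQ0]
    exact hQe
  have hQ1 : 1 ≤ Q := by
    have h1 : (1 : ℝ) ≤ Real.exp (10 ^ 12) := Real.one_le_exp (by norm_num)
    linarith
  set L := Real.log Q with hLd
  have hL1 : 1 ≤ L := by linarith
  have hz : ∀ s : ℂ, 1 / 2 < s.re → s.re < 1 → riemannZeta s ≠ 0 := fun s h1 h2 =>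
    zeta_ne_zero_of_GRHJ hG h1 h2
  have hy1 : 1 ≤ y := hQ1.trans hy.1
  have h1 := PS_sq le_rfl (by norm_num) hz hj t hy1
  refine h1.trans ?_
  have hj0 : (0 : ℝ) ≤ ((j ^ 2 : ℕ) : ℝ) := Nat.cast_nonneg _
  have a1 : Real.log (16 * (4 * ((j ^ 2 : ℕ) : ℝ) + 1)) ≤ 32 * L ^ B := by
    have h2 : (1 : ℝ) ≤ L ^ B := one_le_pow₀ hL1
    have h3 := Real.log_le_sub_one_of_pos (show 0 < 16 * (4 * ((j ^ 2 : ℕ) : ℝ) + 1) by positivity)
    linarith
  have a1' : 0 ≤ Real.log (16 * (4 * ((j ^ 2 : ℕ) : ℝ) + 1)) := by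
    have := log_q_le (q := 4 * ((j ^ 2 : ℕ) : ℝ)) (by linarith)
    linarith
  have a2 := log_five_le' t
  have a3 : y ^ (1 / 2 : ℝ) ≤ 2 * √Q := by
    rw [← Real.sqrt_eq_rpow, Real.sqrt_le_left (by positivity), mul_pow, Real.sq_sqrt hQ0.le]
    linarith [hy.2]
  have a4 : Real.log (9 * y) ≤ 2 * L := by
    have h2 : Real.log (9 * y) ≤ Real.log (18 * Q) := Real.log_le_log (by positivity) (by linarith [hy.2])
    have h3 : Real.log (18 * Q) = Real.log 18 + L := Real.log_mul (by norm_num) hQ0.ne'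
    have h4 := Real.log_le_sub_one_of_pos (show (0 : ℝ) < 18 by norm_num)
    linarith
  have a4' : 0 ≤ Real.log (9 * y) := by
    have := log_nine hy1
    linarith
  have a5 : 0 ≤ Real.log (|t| + 5) := by
    have := log_five_le t
    linarith
  have h5 := hX1 Q hQX
  rw [← hLd] at h5
  have hLA : 0 < L ^ A := by positivity
  have ht : 0 ≤ |t| := abs_nonneg t
  have key : 4096 * 10 ^ 6 * (L ^ B * L ^ 4) * √Q ≤ 50 * Q / L ^ A := by
    rw [le_div_iff₀ hLA]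
    calc 4096 * 10 ^ 6 * (L ^ B * L ^ 4) * √Q * L ^ A = 4096 * 10 ^ 6 * (L ^ (A + B + 4)) * √Q := by ring
      _ ≤ L * L ^ (A + B + 4) * √Q := by
          gcongr
          linarith
      _ = L ^ (A + B + 5) * √Q := by ring
      _ ≤ √Q * √Q := by gcongr
      _ = Q := Real.mul_self_sqrt hQ0.le
      _ ≤ 50 * Q := by linarith
  calc 10 ^ 6 * Real.log (16 * (4 * ((j ^ 2 : ℕ) : ℝ) + 1)) * Real.log (|t| + 5) *
      (y ^ (1 / 2 : ℝ) * Real.log (9 * y) ^ 4)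
      ≤ 10 ^ 6 * (32 * L ^ B) * (4 * (1 + |t|)) * ((2 * √Q) * (2 * L) ^ 4) := by gcongr
    _ = (1 + |t|) * (4096 * 10 ^ 6 * (L ^ B * L ^ 4) * √Q) := by ring
    _ ≤ _ := by gcongr

theorem pside_SW (hG : GRHJ) (A B : ℕ) : ∃ Q0 : ℝ, ∀ Q : ℝ, Q0 ≤ Q → ∀ (t : ℝ) (K : ℕ),
    4 * (K : ℝ) ≤ Real.log Q ^ B → PSide Q t ((1 + |t|) * (100 * Q / Real.log Q ^ A)) K := by
  obtain ⟨Q1, hQ1⟩ := nonsq_SW A B
  obtain ⟨Q2, hQ2⟩ := sq_SW hG A B
  refine ⟨max (max Q1 Q2) 1, fun Q hQ t K hK => ?_⟩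
  have h1 : Q1 ≤ Q := (le_max_left _ _).trans ((le_max_left _ _).trans hQ)
  have h2 : Q2 ≤ Q := (le_max_right _ _).trans ((le_max_left _ _).trans hQ)
  have h3 : 1 ≤ Q := (le_max_right _ _).trans hQ
  constructor
  · intro k hk y hy
    have hk' := Finset.mem_Icc.1 hk
    have hkK : 4 * (k : ℝ) ≤ Real.log Q ^ B := by
      have : (k : ℝ) ≤ K := by exact_mod_cast hk'.2
      linarith
    by_cases hs : IsSquare k
    · obtain ⟨j, hj⟩ := hs
      have hj1 : 1 ≤ j := by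
        rcases Nat.eq_zero_or_pos j with h | h
        · rw [hj, h] at hk'; omega
        · exact h
      have hkj : ((j ^ 2 : ℕ) : ℤ) = (k : ℤ) := by rw [hj]; push_cast; ring
      have hkj' : ((j ^ 2 : ℕ) : ℝ) = (k : ℝ) := by rw [hj]; push_cast; ring
      have b1 := hQ2 Q h2 j hj1 (by rw [hkj']; exact hkK) t y hy
      have b2 := hQ2 Q h2 j hj1 (by rw [hkj']; exact hkK) t Q ⟨le_rfl, by linarith⟩
      rw [hkj] at b1 b2
      have hy1 : 1 ≤ y := h3.trans hy.1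
      have hv : vk t k = fun u : ℝ => (u : ℂ) ^ (-((t : ℂ) * I)) := by
        funext u
        unfold vk
        rw [if_pos ⟨j, hj⟩]
      have hint : ∀ c : ℝ, 1 ≤ c → IntervalIntegrable (fun u : ℝ => (u : ℂ) ^ (-((t : ℂ) * I)))
          volume 1 c := by
        intro c hc
        rw [intervalIntegrable_iff_integrableOn_Icc_of_le hc]
        exact (cpow_cont (by norm_num) _).integrableOn_Icc
      have e1 : ∫ u in Q..y, vk t k u = (∫ u in Ioc 1 y, (u : ℂ) ^ (-((t : ℂ) * I))) -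
          ∫ u in Ioc 1 Q, (u : ℂ) ^ (-((t : ℂ) * I)) := by
        rw [hv, ← intervalIntegral.integral_of_le hy1, ← intervalIntegral.integral_of_le h3,
          intervalIntegral.integral_interval_sub_left (hint y hy1) (hint Q h3)]
      rw [e1, sum_Ioc_eq hy.1]
      unfold PS at b1 b2
      set A1 := ∑ p ∈ Finset.Icc 1 ⌊y⌋₊, (lp p : ℂ) * (p : ℂ) ^ (-((t : ℂ) * I)) *
        ((jacobiSym (k : ℤ) p : ℤ) : ℂ)
      set A2 := ∑ p ∈ Finset.Icc 1 ⌊Q⌋₊, (lp p : ℂ) * (p : ℂ) ^ (-((t : ℂ) * I)) *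
        ((jacobiSym (k : ℤ) p : ℤ) : ℂ)
      set I1 := ∫ u in Ioc 1 y, (u : ℂ) ^ (-((t : ℂ) * I))
      set I2 := ∫ u in Ioc 1 Q, (u : ℂ) ^ (-((t : ℂ) * I))
      have e2 : A1 - A2 - (I1 - I2) = (A1 - I1) - (A2 - I2) := by ring
      rw [e2]
      refine (norm_sub_le _ _).trans ((add_le_add b1 b2).trans (le_of_eq ?_))
      ring
    · have hv : vk t k = fun _ => 0 := by
        funext u
        unfold vk
        rw [if_neg hs]
      rw [hv, intervalIntegral.integral_zero, sub_zero]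
      apply hQ1 Q h1 (k : ℤ) (not_isSquare_natCast hs) _ t y hy
      rw [Int.natAbs_natCast]
      exact hkK
  · intro k hk y hy
    have hk' := Finset.mem_Icc.1 hk
    have hkK : 4 * (k : ℝ) ≤ Real.log Q ^ B := by
      have : (k : ℝ) ≤ K := by exact_mod_cast hk'.2
      linarith
    have hs' : ¬ IsSquare (-(k : ℤ)) := by
      rintro ⟨a, ha⟩
      have h1 : (0 : ℤ) ≤ a * a := mul_self_nonneg a
      have h2 : (1 : ℤ) ≤ k := by exact_mod_cast hk'.1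
      omega
    apply hQ1 Q h1 (-(k : ℤ)) hs' _ t y hy
    rw [Int.natAbs_neg, Int.natAbs_natCast]
    exact hkK

end Pool.Agent.Helper368_LD
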