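import Mathlib
import Pool.Agent.H732R2.VorCos
import Pool.Agent.Helper368_LD.Pnt

/-!
# The Mellin transform of the sine
-/

set_option autoImplicit false

namespace Pool.Agent.Helper368_LD

open MeasureTheory Set Filter Topology Complex
open scoped Real
open Pool.Agent.H387R2.Vor (laplace_gamma)

theorem exp_sub_one_le {a : ℂ} (ha : 0 ≤ a.re) : ‖exp (-a) - 1‖ ≤ ‖a‖ := by
  have h1 : ∀ t : ℝ, HasDerivAt (fun t : ℝ => exp (-(a * t))) (-a * exp (-(a * t))) t := by
    intro t
    have h3 : HasDerivAt (fun t : ℝ => (t : ℂ)) 1 t := Complex.ofRealCLM.hasDerivAt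
    have h2 : HasDerivAt (fun t : ℝ => -(a * (t : ℂ))) (-(a * 1)) t := (h3.const_mul a).neg
    exact h2.cexp.congr_deriv (by ring)
  have h2 := Convex.norm_image_sub_le_of_norm_hasDerivWithin_le (f := fun t : ℝ => exp (-(a * t)))
    (f' := fun t : ℝ => -a * exp (-(a * t))) (s := Icc (0 : ℝ) 1) (C := ‖a‖) (x := 0) (y := 1)
    (fun t _ => (h1 t).hasDerivWithinAt) (by
      intro t ht
      rw [norm_mul, norm_neg, norm_exp]
      have : (-(a * (t : ℂ))).re ≤ 0 := by
        simp only [neg_re, mul_re, ofReal_re, ofReal_im, mul_zero, sub_zero]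
        have := mul_nonneg ha ht.1
        linarith
      have h3 : Real.exp (-(a * (t : ℂ))).re ≤ 1 := Real.exp_le_one_iff.2 this
      have := norm_nonneg a
      nlinarith [Real.exp_pos (-(a * (t : ℂ))).re]) (convex_Icc 0 1) ⟨le_rfl, zero_le_one⟩
      ⟨zero_le_one, le_rfl⟩
  simpa using h2

theorem exp_sub_one_le2 {a : ℂ} (ha : 0 ≤ a.re) : ‖exp (-a) - 1‖ ≤ 2 := by
  refine (norm_sub_le _ _).trans ?_
  rw [norm_exp, norm_one]
  have : Real.exp (-a).re ≤ 1 := Real.exp_le_one_iff.2 (by simpa using ha)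
  linarith

/-- the dominating function -/
noncomputable def dmf (x : ℝ) (w : ℝ) : ℝ := if w ≤ 1 then 2 * w ^ x else 2 * w ^ (x - 1)

theorem dmf_int {x : ℝ} (h1 : -1 < x) (h2 : x < 0) : IntegrableOn (dmf x) (Ioi 0) := by
  rw [← Ioc_union_Ioi_eq_Ioi (zero_le_one (α := ℝ))]
  apply IntegrableOn.union
  · have h : IntegrableOn (fun w : ℝ => 2 * w ^ x) (Ioc 0 1) := by
      apply Integrable.const_mul
      rw [← IntegrableOn, ← intervalIntegrable_iff_integrableOn_Ioc_of_le zero_le_one]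
      exact intervalIntegral.intervalIntegrable_rpow' h1
    refine h.congr_fun ?_ measurableSet_Ioc
    intro w hw
    unfold dmf
    simp only
    rw [if_pos hw.2]
  · have h : IntegrableOn (fun w : ℝ => 2 * w ^ (x - 1)) (Ioi 1) := by
      apply Integrable.const_mul
      exact integrableOn_Ioi_rpow_of_lt (by linarith) zero_lt_one
    refine h.congr_fun ?_ measurableSet_Ioi
    intro w hw
    unfold dmf
    simp only
    rw [if_neg (not_le.2 hw)]

theorem dmf_bound {z ζ : ℂ} (hζ : 0 ≤ ζ.re) (hζ2 : ‖ζ‖ ≤ 2) {w : ℝ} (hw : 0 < w) :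
    ‖(w : ℂ) ^ (z - 1) * (exp (-(ζ * w)) - 1)‖ ≤ dmf z.re w := by
  have hre : 0 ≤ (ζ * (w : ℂ)).re := by
    simp only [mul_re, ofReal_re, ofReal_im, mul_zero, sub_zero]
    exact mul_nonneg hζ hw.le
  rw [norm_mul, Complex.norm_cpow_eq_rpow_re_of_pos hw]
  have e1 : (z - 1).re = z.re - 1 := by simp
  rw [e1]
  have hwp : 0 < w ^ (z.re - 1) := Real.rpow_pos_of_pos hw _
  unfold dmf
  split_ifs with h
  · have h1 := exp_sub_one_le hre
    rw [norm_mul, norm_real, Real.norm_of_nonneg hw.le] at h1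
    have e2 : w ^ z.re = w ^ (z.re - 1) * w := by
      have : z.re = (z.re - 1) + 1 := by ring
      conv_lhs => rw [this, Real.rpow_add hw, Real.rpow_one]
    rw [e2]
    calc _ ≤ w ^ (z.re - 1) * (‖ζ‖ * w) := by gcongr
      _ ≤ w ^ (z.re - 1) * (2 * w) := by gcongr
      _ = _ := by ring
  · have h1 := exp_sub_one_le2 hre
    calc _ ≤ w ^ (z.re - 1) * 2 := by gcongr
      _ = _ := by ring

theorem dm_meas (z ζ : ℂ) : AEStronglyMeasurable (fun w : ℝ => (w : ℂ) ^ (z - 1) * (exp (-(ζ * w)) - 1))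
    (volume.restrict (Ioi 0)) := by
  apply ContinuousOn.aestronglyMeasurable _ measurableSet_Ioi
  apply ContinuousOn.mul
  · intro u hu
    have hu0 : (0 : ℝ) < u := hu
    exact (ContinuousAt.cpow Complex.continuous_ofReal.continuousAt continuousAt_const (by
      left
      simpa using hu0)).continuousWithinAt
  · fun_prop

theorem dm_int {z ζ : ℂ} (hz1 : -1 < z.re) (hz2 : z.re < 0) (hζ : 0 ≤ ζ.re) (hζ2 : ‖ζ‖ ≤ 2) :
    IntegrableOn (fun w : ℝ => (w : ℂ) ^ (z - 1) * (exp (-(ζ * w)) - 1)) (Ioi 0) := by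
  refine Integrable.mono' (dmf_int hz1 hz2) (dm_meas z ζ) ?_
  rw [ae_restrict_iff' measurableSet_Ioi]
  exact Eventually.of_forall fun w hw => dmf_bound hζ hζ2 hw

theorem laplace_sub {z ζ : ℂ} (hz1 : -1 < z.re) (hz2 : z.re < 0) (hζ : 0 < ζ.re) (hζ2 : ‖ζ‖ ≤ 2) :
    ∫ w in Ioi (0 : ℝ), (w : ℂ) ^ (z - 1) * (exp (-(ζ * w)) - 1) = (1 / ζ) ^ z * Gamma z := by
  have hz0 : z ≠ 0 := by
    rintro rfl
    simp at hz2
  have hζ0 : ζ ≠ 0 := by
    rintro rfl
    simp at hζ
  have hu : ∀ x ∈ Ioi (0 : ℝ), HasDerivAt (fun w : ℝ => exp (-(ζ * w)) - 1) (-ζ * exp (-(ζ * x))) x := by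
    intro t _
    have h3 : HasDerivAt (fun t : ℝ => (t : ℂ)) 1 t := Complex.ofRealCLM.hasDerivAt
    have h2 : HasDerivAt (fun t : ℝ => -(ζ * (t : ℂ))) (-(ζ * 1)) t := (h3.const_mul ζ).neg
    exact (h2.cexp.sub_const 1).congr_deriv (by ring)
  have hv : ∀ x ∈ Ioi (0 : ℝ), HasDerivAt (fun w : ℝ => (w : ℂ) ^ z / z) ((x : ℂ) ^ (z - 1)) x := by
    intro x hx
    have hx0 : (0 : ℝ) < x := hx
    have h4 := (hasDerivAt_ofReal_cpow_const (x := x) hx0.ne' (r := z) hz0).div_const z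
    refine HasDerivAt.congr_deriv h4 ?_
    field_simp
  have hnorm : ∀ w : ℝ, 0 < w → ‖(exp (-(ζ * w)) - 1) * ((w : ℂ) ^ z / z)‖ ≤
      min (2 * w ^ (z.re + 1)) (2 * w ^ z.re) / ‖z‖ := by
    intro w hw
    have hre : 0 ≤ (ζ * (w : ℂ)).re := by
      simp only [mul_re, ofReal_re, ofReal_im, mul_zero, sub_zero]
      exact mul_nonneg hζ.le hw.le
    rw [norm_mul, norm_div, Complex.norm_cpow_eq_rpow_re_of_pos hw, mul_div_assoc']
    gcongr
    apply le_min
    · have h1 := exp_sub_one_le hre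
      rw [norm_mul, norm_real, Real.norm_of_nonneg hw.le] at h1
      rw [Real.rpow_add hw, Real.rpow_one]
      have hwp : 0 < w ^ z.re := Real.rpow_pos_of_pos hw _
      calc _ ≤ (‖ζ‖ * w) * w ^ z.re := by gcongr
        _ ≤ (2 * w) * w ^ z.re := by gcongr
        _ = _ := by ring
    · have h1 := exp_sub_one_le2 hre
      have hwp : 0 < w ^ z.re := Real.rpow_pos_of_pos hw _
      gcongr
  have hzero : Tendsto ((fun w : ℝ => exp (-(ζ * w)) - 1) * (fun w : ℝ => (w : ℂ) ^ z / z))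
      (𝓝[>] 0) (𝓝 0) := by
    rw [tendsto_zero_iff_norm_tendsto_zero]
    have h1 : Tendsto (fun w : ℝ => 2 * w ^ (z.re + 1) / ‖z‖) (𝓝[>] 0) (𝓝 0) := by
      have h2 : ContinuousAt (fun w : ℝ => 2 * w ^ (z.re + 1) / ‖z‖) 0 := by
        apply ContinuousAt.div_const
        apply ContinuousAt.mul continuousAt_const
        exact Real.continuousAt_rpow_const _ _ (Or.inr (by linarith))
      have h3 := h2.tendsto
      rw [Real.zero_rpow (by linarith), mul_zero, zero_div] at h3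
      exact h3.mono_left nhdsWithin_le_nhds
    refine squeeze_zero' (Eventually.of_forall fun _ => norm_nonneg _) ?_ h1
    filter_upwards [self_mem_nhdsWithin] with w hw
    have hw0 : (0 : ℝ) < w := hw
    refine (hnorm w hw0).trans ?_
    gcongr
    exact min_le_left _ _
  have hinf : Tendsto ((fun w : ℝ => exp (-(ζ * w)) - 1) * (fun w : ℝ => (w : ℂ) ^ z / z))
      atTop (𝓝 0) := by
    rw [tendsto_zero_iff_norm_tendsto_zero]
    have h1 : Tendsto (fun w : ℝ => 2 * w ^ z.re / ‖z‖) atTop (𝓝 0) := by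
      have h2 := tendsto_rpow_neg_atTop (y := -z.re) (by linarith)
      rw [neg_neg] at h2
      have h3 := (h2.const_mul 2).div_const ‖z‖
      simpa using h3
    refine squeeze_zero' (Eventually.of_forall fun _ => norm_nonneg _) ?_ h1
    filter_upwards [eventually_gt_atTop 0] with w hw
    refine (hnorm w hw).trans ?_
    gcongr
    exact min_le_right _ _
  have hI1 : IntegrableOn ((fun w : ℝ => exp (-(ζ * w)) - 1) * (fun w : ℝ => (w : ℂ) ^ (z - 1))) (Ioi 0) := by
    have := dm_int hz1 hz2 hζ.le hζ2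
    refine this.congr_fun ?_ measurableSet_Ioi
    intro w _
    simp only [Pi.mul_apply]
    ring
  have hI2' : IntegrableOn (fun w : ℝ => (w : ℂ) ^ z * exp (-(ζ * w))) (Ioi 0) := by
    have h1 : IntegrableOn (fun w : ℝ => w ^ z.re * Real.exp (-ζ.re * w)) (Ioi 0) := by
      have := integrableOn_rpow_mul_exp_neg_mul_rpow (p := 1) (s := z.re) (b := ζ.re) hz1 one_pos hζ
      simpa using this
    refine Integrable.mono' h1 ?_ ?_
    · apply ContinuousOn.aestronglyMeasurable _ measurableSet_Ioi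
      apply ContinuousOn.mul
      · intro u hu
        have hu0 : (0 : ℝ) < u := hu
        exact (ContinuousAt.cpow Complex.continuous_ofReal.continuousAt continuousAt_const (by
          left
          simpa using hu0)).continuousWithinAt
      · fun_prop
    · rw [ae_restrict_iff' measurableSet_Ioi]
      refine Eventually.of_forall fun w hw => ?_
      have hw0 : (0 : ℝ) < w := hw
      rw [norm_mul, Complex.norm_cpow_eq_rpow_re_of_pos hw0, norm_exp]
      simp
  have hI2 : IntegrableOn ((fun w : ℝ => -ζ * exp (-(ζ * w))) * (fun w : ℝ => (w : ℂ) ^ z / z)) (Ioi 0) := by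
    have := hI2'.const_mul (-ζ / z)
    refine IntegrableOn.congr_fun this ?_ measurableSet_Ioi
    intro w _
    simp only [Pi.mul_apply]
    field_simp
  have hparts := integral_Ioi_mul_deriv_eq_deriv_mul hu hv hI1 hI2 hzero hinf
  have e1 : ∫ w in Ioi (0 : ℝ), (w : ℂ) ^ (z - 1) * (exp (-(ζ * w)) - 1) =
      ∫ x in Ioi (0 : ℝ), (exp (-(ζ * x)) - 1) * (x : ℂ) ^ (z - 1) := by
    congr 1
    funext w
    ring
  rw [e1, hparts]
  have e2 : ∫ x in Ioi (0 : ℝ), -ζ * exp (-(ζ * x)) * ((x : ℂ) ^ z / z) =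
      (-ζ / z) * ∫ x in Ioi (0 : ℝ), (x : ℂ) ^ ((z + 1) - 1) * exp (-(ζ * x)) := by
    rw [← integral_const_mul]
    congr 1
    funext w
    rw [add_sub_cancel_right]
    field_simp
  rw [e2, laplace_gamma (z := z + 1) (by simp; linarith) ζ hζ, Gamma_add_one z hz0,
    Complex.cpow_add _ _ (one_div_ne_zero hζ0), cpow_one]
  field_simp
  ring

/-- on the boundary of the half plane -/
theorem laplace_bdry {z : ℂ} (hz1 : -1 < z.re) (hz2 : z.re < 0) {ε : ℝ} (hε : |ε| = 1) :
    ∫ w in Ioi (0 : ℝ), (w : ℂ) ^ (z - 1) * (exp (-((ε * I) * w)) - 1) = (1 / (ε * I)) ^ z * Gamma z := by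
  set ζ : ℕ → ℂ := fun n => ((1 / ((n : ℝ) + 1) : ℝ) : ℂ) + ε * I with hζ
  have hζt : Tendsto ζ atTop (𝓝 (ε * I)) := by
    have h1 := (tendsto_one_div_add_atTop_nhds_zero_nat (𝕜 := ℝ))
    have h2 : Tendsto (fun n : ℕ => ((1 / ((n : ℝ) + 1) : ℝ) : ℂ)) atTop (𝓝 ((0 : ℝ) : ℂ)) :=
      (Complex.continuous_ofReal.tendsto 0).comp h1
    have h3 := h2.add_const (ε * I : ℂ)
    simpa [hζ] using h3
  have hζre : ∀ n, 0 < (ζ n).re := by
    intro n
    rw [hζ]
    simp only [add_re, ofReal_re, mul_re, I_re, mul_zero, ofReal_im, I_im, mul_one, sub_self, add_zero]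
    positivity
  have hζn : ∀ n, ‖ζ n‖ ≤ 2 := by
    intro n
    rw [hζ]
    refine (norm_add_le _ _).trans ?_
    rw [norm_real, norm_mul, norm_real, norm_I, mul_one, Real.norm_eq_abs, Real.norm_eq_abs, hε,
      abs_of_nonneg (by positivity)]
    have : 1 / ((n : ℝ) + 1) ≤ 1 := by
      rw [div_le_one (by positivity)]
      have : (0 : ℝ) ≤ n := Nat.cast_nonneg n
      linarith
    linarith
  have h1 : Tendsto (fun n => ∫ w in Ioi (0 : ℝ), (w : ℂ) ^ (z - 1) * (exp (-(ζ n * w)) - 1)) atTop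
      (𝓝 (∫ w in Ioi (0 : ℝ), (w : ℂ) ^ (z - 1) * (exp (-((ε * I) * w)) - 1))) := by
    apply tendsto_integral_of_dominated_convergence (dmf z.re)
    · intro n
      exact dm_meas z (ζ n)
    · exact dmf_int hz1 hz2
    · intro n
      rw [ae_restrict_iff' measurableSet_Ioi]
      exact Eventually.of_forall fun w hw => dmf_bound (hζre n).le (hζn n) hw
    · apply Eventually.of_forall
      intro w
      apply Tendsto.const_mul
      apply Tendsto.sub_const
      apply (Complex.continuous_exp.tendsto _).comp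
      exact (hζt.mul_const (w : ℂ)).neg
  have hεI : (ε : ℂ) * I ≠ 0 := by
    apply mul_ne_zero _ I_ne_zero
    intro h
    have : ε = 0 := by exact_mod_cast h
    rw [this, abs_zero] at hε
    norm_num at hε
  have h2 : Tendsto (fun n => (1 / ζ n) ^ z * Gamma z) atTop (𝓝 ((1 / (ε * I)) ^ z * Gamma z)) := by
    apply Tendsto.mul_const
    have h3 : Tendsto (fun n => 1 / ζ n) atTop (𝓝 (1 / (ε * I))) := tendsto_const_nhds.div hζt hεI
    have h4 : ContinuousAt (fun y : ℂ => y ^ z) (1 / (ε * I)) := by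
      apply ContinuousAt.cpow continuousAt_id continuousAt_const
      right
      simp only [id]
      have h5 : (1 / ((ε : ℂ) * I)).im = -ε⁻¹ := by
        have : (1 : ℂ) / (ε * I) = ((-ε⁻¹ : ℝ) : ℂ) * I := by
          have hε0 : (ε : ℂ) ≠ 0 := left_ne_zero_of_mul hεI
          push_cast
          field_simp
          rw [I_sq]
          ring
        rw [this]
        simp
      rw [h5]
      intro h0
      have : ε = 0 := by simpa using h0
      rw [this, abs_zero] at hε
      norm_num at hε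
    exact h4.tendsto.comp h3
  refine tendsto_nhds_unique h1 (h2.congr fun n => ?_)
  exact (laplace_sub hz1 hz2 (hζre n) (hζn n)).symm

/-- **The Mellin transform of the sine.** -/
theorem mellin_sin {z : ℂ} (hz1 : -1 < z.re) (hz2 : z.re < 0) :
    mellin (fun w : ℝ => ((Real.sin w : ℝ) : ℂ)) z = Gamma z * sin (π * z / 2) := by
  have h1 := laplace_bdry hz1 hz2 (ε := 1) (by simp)
  have h2 := laplace_bdry hz1 hz2 (ε := -1) (by simp)
  have i1 := dm_int (ζ := ((1 : ℝ) : ℂ) * I) hz1 hz2 (by simp) (by simp)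
  have i2 := dm_int (ζ := ((-1 : ℝ) : ℂ) * I) hz1 hz2 (by simp) (by simp)
  unfold mellin
  have e1 : ∀ w : ℝ, (w : ℂ) ^ (z - 1) • ((Real.sin w : ℝ) : ℂ) =
      (1 / (2 * I)) * ((w : ℂ) ^ (z - 1) * (exp (-((((-1 : ℝ) : ℂ) * I) * w)) - 1) -
        (w : ℂ) ^ (z - 1) * (exp (-((((1 : ℝ) : ℂ) * I) * w)) - 1)) := by
    intro w
    rw [smul_eq_mul, Complex.ofReal_sin, Complex.sin]
    have a1 : -((((-1 : ℝ) : ℂ) * I) * w) = w * I := by push_cast; ring
    have a2 : -((((1 : ℝ) : ℂ) * I) * w) = -w * I := by push_cast; ring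
    rw [a1, a2]
    field_simp
    rw [I_sq]
    ring
  simp_rw [e1]
  rw [integral_const_mul, integral_sub i2 i1, h1, h2]
  have b1 : (1 : ℂ) / (((-1 : ℝ) : ℂ) * I) = I := by
    push_cast
    field_simp
    rw [I_sq]
  have b2 : (1 : ℂ) / (((1 : ℝ) : ℂ) * I) = -I := by
    push_cast
    field_simp
    rw [I_sq]
    ring
  rw [b1, b2, Complex.cpow_def_of_ne_zero I_ne_zero, Complex.cpow_def_of_ne_zero (neg_ne_zero.2 I_ne_zero),
    Complex.log_I, Complex.log_neg_I, Complex.sin]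
  have c1 : (π : ℂ) / 2 * I * z = π * z / 2 * I := by ring
  have c2 : -((π : ℂ) / 2) * I * z = -(π * z / 2) * I := by ring
  rw [c1, c2]
  field_simp
  rw [I_sq]
  ring

end Pool.Agent.Helper368_LD
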