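import Pool.Agent.Helper368_LD.TestFn
import Pool.Agent.Helper368_LD.GaussVal

/-!
# The periodic window and exact evaluation of the smoothed character sums
-/

set_option autoImplicit false

namespace Pool.Agent.Helper368_LD

open Complex MeasureTheory Set Filter Topology
open scoped ContDiff Real

/-- the window: its translates by multiples of `4` add up to `1` -/
noncomputable def wv (v : ℝ) : ℝ := Real.smoothTransition (v - 1) - Real.smoothTransition (v - 5)

/-- the weight -/
noncomputable def fk (k : ℕ) (v : ℝ) : ℂ := ((wv v * Real.cos (π * k * v / 2) : ℝ) : ℂ)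

theorem wv_supp {v : ℝ} (hv : v ∉ Icc (1 : ℝ) 6) : wv v = 0 := by
  unfold wv
  rcases lt_or_ge v 1 with h | h
  · rw [Real.smoothTransition.zero_of_nonpos (by linarith),
      Real.smoothTransition.zero_of_nonpos (by linarith), sub_zero]
  · have h2 : 6 < v := by
      by_contra h3
      exact hv ⟨h, not_lt.1 h3⟩
    rw [Real.smoothTransition.one_of_one_le (by linarith),
      Real.smoothTransition.one_of_one_le (by linarith), sub_self]

theorem wv_nonneg (v : ℝ) : 0 ≤ wv v := by
  unfold wv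
  have := Real.smoothTransition.monotone (by linarith : v - 5 ≤ v - 1)
  linarith

theorem wv_le_one (v : ℝ) : wv v ≤ 1 := by
  unfold wv
  have := Real.smoothTransition.le_one (v - 1)
  have := Real.smoothTransition.nonneg (v - 5)
  linarith

theorem wv_smooth : ContDiff ℝ ∞ wv := by
  unfold wv
  apply ContDiff.sub
  · exact Real.smoothTransition.contDiff.comp (contDiff_id.sub contDiff_const)
  · exact Real.smoothTransition.contDiff.comp (contDiff_id.sub contDiff_const)

theorem TF_fk (k : ℕ) : TF 1 6 (fk k) where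
  smooth := by
    unfold fk
    apply contDiff_ofReal'.comp
    apply wv_smooth.mul
    apply Real.contDiff_cos.comp
    fun_prop
  supp := by
    intro v hv
    unfold fk
    rw [wv_supp hv]
    simp

theorem fk_le (k : ℕ) (v : ℝ) : ‖fk k v‖ ≤ 1 := by
  unfold fk
  rw [norm_real, Real.norm_eq_abs, abs_mul, abs_of_nonneg (wv_nonneg v)]
  have h1 := wv_le_one v
  have h2 := wv_nonneg v
  have h3 := Real.abs_cos_le_one (π * k * v / 2)
  have h4 := abs_nonneg (Real.cos (π * k * v / 2))
  nlinarith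

theorem sum_window {m : ℕ} (hm : 0 < m) (C : ℕ → ℝ) (hC : ∀ n, C (4 * m + n) = C n) :
    ∑ n ∈ Finset.range (8 * m), C n * wv ((n : ℝ) / m) = ∑ a ∈ Finset.range (4 * m), C a := by
  have hm0 : (0 : ℝ) < m := by exact_mod_cast hm
  have e8 : 8 * m = 4 * m + 4 * m := by ring
  rw [e8, Finset.sum_range_add]
  have h1 : ∀ n ∈ Finset.range (4 * m), C n * wv ((n : ℝ) / m) =
      C n * Real.smoothTransition ((n : ℝ) / m - 1) := by
    intro n hn
    rw [Finset.mem_range] at hn
    unfold wv
    have h2 : (n : ℝ) / m < 4 := by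
      rw [div_lt_iff₀ hm0]
      exact_mod_cast hn
    rw [Real.smoothTransition.zero_of_nonpos (by linarith : (n : ℝ) / m - 5 ≤ 0), sub_zero]
  have h2 : ∀ n ∈ Finset.range (4 * m), C (4 * m + n) * wv (((4 * m + n : ℕ) : ℝ) / m) =
      C n - C n * Real.smoothTransition ((n : ℝ) / m - 1) := by
    intro n hn
    unfold wv
    have h3 : ((4 * m + n : ℕ) : ℝ) / m = 4 + (n : ℝ) / m := by
      push_cast
      field_simp
    have h4 : 0 ≤ (n : ℝ) / m := by positivity
    rw [h3, hC, Real.smoothTransition.one_of_one_le (by linarith : 1 ≤ 4 + (n : ℝ) / m - 1)]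
    have h5 : 4 + (n : ℝ) / m - 5 = (n : ℝ) / m - 1 := by ring
    rw [h5]
    ring
  rw [Finset.sum_congr rfl h1, Finset.sum_congr rfl h2, Finset.sum_sub_distrib]
  ring

theorem kro_period {m : ℕ} (hm : m ≠ 0) (n : ℕ) : kro m (4 * m + n) = kro m n := by
  rw [← kro_mod hm (4 * m + n), Nat.add_mod_left, kro_mod hm]

/-- exact evaluation by a complete sum -/
theorem sum_fk_eq {m : ℕ} (hm : 0 < m) (k : ℕ) {L : ℕ} (hL : 6 * m ≤ L) :
    ∑ n ∈ (Finset.Icc 1 L).filter (fun n => Odd n), ((jacobiSym (m : ℤ) n : ℤ) : ℂ) *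
      fk k ((n : ℝ) / m) = ((xi m k : ℝ) : ℂ) := by
  have hm0 : (0 : ℝ) < m := by exact_mod_cast hm
  set C : ℕ → ℝ := fun n => (kro m n : ℝ) * Real.cos (π * k * ((n : ℝ) / m) / 2) with hC
  have hper : ∀ n, C (4 * m + n) = C n := by
    intro n
    simp only [hC]
    rw [kro_period hm.ne']
    congr 1
    have : π * k * (((4 * m + n : ℕ) : ℝ) / m) / 2 = π * k * ((n : ℝ) / m) / 2 + k * (2 * π) := by
      push_cast
      field_simp
      ring
    rw [this, Real.cos_add_nat_mul_two_pi]
  have h1 := sum_window hm C hper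
  have h2 : ∑ n ∈ (Finset.Icc 1 L).filter (fun n => Odd n), ((jacobiSym (m : ℤ) n : ℤ) : ℂ) *
      fk k ((n : ℝ) / m) = ((∑ n ∈ Finset.Icc 1 L, C n * wv ((n : ℝ) / m) : ℝ) : ℂ) := by
    rw [Finset.sum_filter, ofReal_sum]
    apply Finset.sum_congr rfl
    intro n _
    simp only [hC]
    unfold kro fk
    split_ifs
    · push_cast
      ring
    · simp
  have h3 : ∑ n ∈ Finset.Icc 1 L, C n * wv ((n : ℝ) / m) =
      ∑ n ∈ Finset.range (8 * m), C n * wv ((n : ℝ) / m) := by
    have hz : ∀ n : ℕ, n ≤ m ∨ 6 * m ≤ n → wv ((n : ℝ) / m) = 0 := by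
      intro n hn
      unfold wv
      rcases hn with h | h
      · have h5 : (n : ℝ) / m ≤ 1 := by
          rw [div_le_iff₀ hm0, one_mul]
          exact_mod_cast h
        rw [Real.smoothTransition.zero_of_nonpos (by linarith),
          Real.smoothTransition.zero_of_nonpos (by linarith), sub_zero]
      · have h5 : 6 ≤ (n : ℝ) / m := by
          rw [le_div_iff₀ hm0]
          exact_mod_cast h
        rw [Real.smoothTransition.one_of_one_le (by linarith),
          Real.smoothTransition.one_of_one_le (by linarith), sub_self]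
    have e1 : ∑ n ∈ Finset.Icc 1 (6 * m), C n * wv ((n : ℝ) / m) =
        ∑ n ∈ Finset.Icc 1 L, C n * wv ((n : ℝ) / m) := by
      apply Finset.sum_subset
      · intro n hn
        rw [Finset.mem_Icc] at hn ⊢
        omega
      · intro n hn hn2
        rw [Finset.mem_Icc] at hn hn2
        rw [hz n (Or.inr (by omega)), mul_zero]
    have e2 : ∑ n ∈ Finset.Icc 1 (6 * m), C n * wv ((n : ℝ) / m) =
        ∑ n ∈ Finset.range (8 * m), C n * wv ((n : ℝ) / m) := by
      apply Finset.sum_subset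
      · intro n hn
        rw [Finset.mem_Icc] at hn
        rw [Finset.mem_range]
        omega
      · intro n hn hn2
        rw [Finset.mem_range] at hn
        rw [Finset.mem_Icc] at hn2
        rw [hz n (by omega), mul_zero]
    rw [← e1, e2]
  rw [h2, h3, h1]
  congr 1
  unfold xi
  apply Finset.sum_congr rfl
  intro a _
  simp only [hC]
  congr 2
  field_simp
  ring

theorem sum_blocks (g : ℕ → ℝ) (n q : ℕ) : ∑ a ∈ Finset.range (q * n), g a =
    ∑ i ∈ Finset.range q, ∑ b ∈ Finset.range n, g (n * i + b) := by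
  induction q with
  | zero => simp
  | succ q ih =>
    rw [Nat.succ_mul, Finset.sum_range_add, ih, Finset.sum_range_succ]
    congr 1
    apply Finset.sum_congr rfl
    intro b _
    rw [mul_comm q n]

theorem cos_sum_zero {q k : ℕ} (hq : 0 < q) (hk : ¬ q ∣ k) (α : ℝ) :
    ∑ i ∈ Finset.range q, Real.cos (α + 2 * π * (k * i) / q) = 0 := by
  have hq0 : (q : ℂ) ≠ 0 := by exact_mod_cast hq.ne'
  set ζ : ℂ := cexp (2 * π * I * (k / q)) with hζ
  have hζ1 : ζ ≠ 1 := by
    intro h
    rw [hζ, Complex.exp_eq_one_iff] at h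
    obtain ⟨n, hn⟩ := h
    have h2 : (2 * π * I : ℂ) ≠ 0 := Complex.two_pi_I_ne_zero
    have h3 : (k : ℂ) / q = n := by
      apply mul_left_cancel₀ h2
      rw [hn]
      ring
    rw [div_eq_iff hq0] at h3
    have h4 : (k : ℤ) = n * q := by exact_mod_cast h3
    apply hk
    have h5 : (q : ℤ) ∣ (k : ℤ) := ⟨n, by rw [h4]; ring⟩
    exact_mod_cast h5
  have hζq : ζ ^ q = 1 := by
    rw [hζ, ← Complex.exp_nat_mul, Complex.exp_eq_one_iff]
    refine ⟨k, ?_⟩
    push_cast
    field_simp
  have hgeom : ∑ i ∈ Finset.range q, ζ ^ i = 0 := by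
    have := geom_sum_eq hζ1 q
    rw [this, hζq, sub_self, zero_div]
  have h1 : ∀ i ∈ Finset.range q, Real.cos (α + 2 * π * (k * i) / q) =
      (cexp (α * I) * ζ ^ i).re := by
    intro i _
    rw [hζ, ← Complex.exp_nat_mul, ← Complex.exp_add]
    have e : (α : ℂ) * I + (i : ℂ) * (2 * π * I * (k / q)) =
        ((α + 2 * π * (k * i) / q : ℝ) : ℂ) * I := by
      push_cast
      field_simp
    rw [e, Complex.exp_ofReal_mul_I_re]
  rw [Finset.sum_congr rfl h1, ← Complex.re_sum, ← Finset.mul_sum, hgeom, mul_zero]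
  rfl

theorem xi_pow_zero {p : ℕ} (hp : p.Prime) {j k : ℕ} (hj : 1 ≤ j) (hk : ¬ p ^ j ∣ k) :
    xi (p ^ (j + 1)) k = 0 := by
  have hp0 : 0 < p := hp.pos
  have hper : ∀ n i, kro (p ^ (j + 1)) (4 * p * i + n) = kro (p ^ (j + 1)) n := by
    intro n i
    have h1 : ∀ a, kro (p ^ (j + 1)) a = kro p a ^ (j + 1) := by
      intro a
      unfold kro
      split_ifs
      · push_cast
        rw [jacobiSym.pow_left]
      · rw [zero_pow (by omega)]
    rw [h1, h1]
    congr 1
    rw [← kro_mod hp0.ne' (4 * p * i + n), Nat.mul_add_mod, kro_mod hp0.ne']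
  unfold xi
  have e1 : 4 * p ^ (j + 1) = p ^ j * (4 * p) := by ring
  rw [e1, sum_blocks, Finset.sum_comm]
  apply Finset.sum_eq_zero
  intro b _
  have h2 : ∀ i ∈ Finset.range (p ^ j), (kro (p ^ (j + 1)) (4 * p * i + b) : ℝ) *
      Real.cos (2 * π * (k * ((4 * p * i + b : ℕ) : ℝ)) / (4 * ((p ^ (j + 1) : ℕ) : ℝ))) =
      (kro (p ^ (j + 1)) b : ℝ) * Real.cos (2 * π * (k * b) / (4 * (p : ℝ) ^ (j + 1)) +
        2 * π * (k * i) / ((p ^ j : ℕ) : ℝ)) := by
    intro i _
    rw [hper]
    congr 2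
    have hpr : (p : ℝ) ≠ 0 := by exact_mod_cast hp0.ne'
    push_cast
    field_simp
    ring
  rw [Finset.sum_congr rfl h2, ← Finset.mul_sum, cos_sum_zero (pow_pos hp0 j) hk, mul_zero]

end Pool.Agent.Helper368_LD
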