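import Pool.Agent.Helper368_LD.LSum2
import Pool.Agent.Helper368_LD.NSide
import Pool.Agent.Helper368_LD.Wt

/-!
# Smooth sums over primes and over squares
-/

set_option autoImplicit false

namespace Pool.Agent.Helper368_LD

open Complex MeasureTheory Set Filter Topology
open scoped ContDiff Real ArithmeticFunction.vonMangoldt
open Pool.Agent.H491R3.J

variable {a b c d : ℝ} {f g h : ℝ → ℂ}

theorem deriv_scale (hf : TF a b f) (M x : ℝ) :
    deriv (fun u => f (u / M)) x = ((1 / M : ℝ) : ℂ) * deriv f (x / M) := by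
  have h1 : HasDerivAt (fun x : ℝ => x / M) (1 / M) x := (hasDerivAt_id x).div_const M
  have h2 := HasDerivAt.scomp x (hf.hasDeriv (x / M)) h1
  have h3 : deriv (fun x : ℝ => f (x / M)) x = (1 / M : ℝ) • deriv f (x / M) := h2.deriv
  rw [h3, Complex.real_smul]

theorem sum_floor_measurable (w : ℕ → ℂ) : Measurable fun t : ℝ => ∑ k ∈ Finset.Icc 0 ⌊t⌋₊, w k :=
  (Measurable.of_discrete (f := fun n : ℕ => ∑ k ∈ Finset.Icc 0 n, w k)).comp Nat.measurable_floor

theorem smooth_sum {w : ℕ → ℂ} {κ : ℂ} {E e : ℝ} (hE0 : 0 ≤ E) (he : 0 ≤ e)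
    (hE : ∀ y : ℝ, 1 ≤ y → ‖∑ m ∈ Finset.Icc 0 ⌊y⌋₊, w m - κ * y‖ ≤ E * y ^ e)
    (hc : 0 < c) (hcd : c ≤ d) (hh : TF c d h) (hκ : κ = 0 ∨ mellin h 1 = 0) :
    ∃ C : ℝ, 0 ≤ C ∧ ∀ (M : ℝ) (N : ℕ), 1 ≤ c * M → d * M < N →
      ‖∑ m ∈ Finset.Icc 0 N, h (m / M) * w m‖ ≤ C * M ^ e := by
  obtain ⟨C1, hC1, hb1⟩ := hh.deriv.bounded
  have hd : 0 < d := by linarith
  refine ⟨C1 * E * d ^ e * d, by positivity, ?_⟩
  intro M N hM hN
  have hM0 : 0 < M := by
    by_contra h
    have := mul_nonpos_of_nonneg_of_nonpos hc.le (not_lt.1 h)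
    linarith
  have hQ := hh.scale hM0
  have hN0 : (0 : ℝ) ≤ N := Nat.cast_nonneg N
  have h1 := abel_TF hQ hN0 hN w
  rw [Nat.floor_natCast] at h1
  rw [h1, norm_neg]
  have hder : ∀ x, ‖deriv (fun u => h (u / M)) x‖ ≤ (1 / M) * C1 := by
    intro x
    rw [deriv_scale hh, norm_mul, norm_real, Real.norm_of_nonneg (by positivity)]
    exact mul_le_mul_of_nonneg_left (hb1 _) (by positivity)
  have iA : IntegrableOn (fun t : ℝ => deriv (fun u => h (u / M)) t *
      ∑ k ∈ Finset.Icc 0 ⌊t⌋₊, w k) (Ioc 0 N) := by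
    refine Integrable.bdd_mul (c := (1 / M) * C1) ?_ hQ.deriv.cont.aestronglyMeasurable ?_
    · refine Measure.integrableOn_of_bounded (M := ∑ k ∈ Finset.Icc 0 N, ‖w k‖) (by simp)
        (sum_floor_measurable w).aestronglyMeasurable ?_
      refine (ae_restrict_iff' measurableSet_Ioc).2 (Eventually.of_forall ?_)
      intro t ht
      refine (norm_sum_le _ _).trans (Finset.sum_le_sum_of_subset_of_nonneg ?_
        (fun _ _ _ => norm_nonneg _))
      intro k hk
      rw [Finset.mem_Icc] at hk ⊢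
      refine ⟨hk.1, hk.2.trans ?_⟩
      have := Nat.floor_mono ht.2
      rwa [Nat.floor_natCast] at this
    · exact Eventually.of_forall hder
  have iB : IntegrableOn (fun t : ℝ => deriv (fun u => h (u / M)) t * (κ * t)) (Ioc 0 N) := by
    apply Continuous.integrableOn_Ioc
    apply hQ.deriv.cont.mul
    fun_prop
  have hz : ∫ t in Ioc (0 : ℝ) N, deriv (fun u => h (u / M)) t * (κ * t) = 0 := by
    rcases hκ with hκ | hκ
    · simp [hκ]
    · have e1 := mellin_byparts (mul_pos hc hM0) (mul_le_mul_of_nonneg_right hcd hM0.le) hQ 1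
      rw [mellin_scale_zero hM0 hκ, mul_zero] at e1
      have e2 : mellin (fun u : ℝ => (u : ℂ) * deriv (fun u => h (u / M)) u) 1 =
          ∫ t in Ioc (0 : ℝ) N, (t : ℂ) * deriv (fun u => h (u / M)) t := by
        unfold mellin
        have e3 : ∀ t : ℝ, (t : ℂ) ^ ((1 : ℂ) - 1) • ((t : ℂ) * deriv (fun u => h (u / M)) t) =
            (t : ℂ) * deriv (fun u => h (u / M)) t := by
          intro t
          rw [sub_self, Complex.cpow_zero, one_smul]
        simp only [e3]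
        apply setIntegral_eq_of_subset_of_forall_sdiff_eq_zero measurableSet_Ioi
        · intro t ht; exact ht.1
        · intro t ht
          have h1 : (N : ℝ) < t := by
            by_contra h3
            exact ht.2 ⟨ht.1, not_lt.1 h3⟩
          rw [hQ.deriv.supp t (fun h => by linarith [h.2]), mul_zero]
      rw [e2] at e1
      have e4 : ∀ t : ℝ, deriv (fun u => h (u / M)) t * (κ * t) =
          κ * ((t : ℂ) * deriv (fun u => h (u / M)) t) := fun t => by ring
      simp only [e4]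
      rw [integral_const_mul, e1, mul_zero]
  have e5 : ∫ t in Ioc (0 : ℝ) N, deriv (fun u => h (u / M)) t * ∑ k ∈ Finset.Icc 0 ⌊t⌋₊, w k =
      ∫ t in Ioc (0 : ℝ) N, deriv (fun u => h (u / M)) t *
        (∑ k ∈ Finset.Icc 0 ⌊t⌋₊, w k - κ * t) := by
    have : ∀ t : ℝ, deriv (fun u => h (u / M)) t * (∑ k ∈ Finset.Icc 0 ⌊t⌋₊, w k - κ * t) =
        deriv (fun u => h (u / M)) t * ∑ k ∈ Finset.Icc 0 ⌊t⌋₊, w k -
          deriv (fun u => h (u / M)) t * (κ * t) := fun t => by ring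
    simp only [this]
    rw [integral_sub iA iB, hz, sub_zero]
  rw [e5]
  have e6 : ∫ t in Ioc (0 : ℝ) N, deriv (fun u => h (u / M)) t *
        (∑ k ∈ Finset.Icc 0 ⌊t⌋₊, w k - κ * t) =
      ∫ t in Ioc (0 : ℝ) (d * M), deriv (fun u => h (u / M)) t *
        (∑ k ∈ Finset.Icc 0 ⌊t⌋₊, w k - κ * t) := by
    apply setIntegral_eq_of_subset_of_forall_sdiff_eq_zero measurableSet_Ioc
    · intro t ht; exact ⟨ht.1, ht.2.trans hN.le⟩
    · intro t ht
      have h1 : d * M < t := by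
        by_contra h3
        exact ht.2 ⟨ht.1.1, not_lt.1 h3⟩
      rw [hQ.deriv.supp t (fun h => by linarith [h.2]), zero_mul]
  rw [e6]
  have h3 : ∀ t ∈ Ioc 0 (d * M), ‖deriv (fun u => h (u / M)) t *
      (∑ k ∈ Finset.Icc 0 ⌊t⌋₊, w k - κ * t)‖ ≤ (1 / M) * C1 * (E * (d * M) ^ e) := by
    intro t ht
    by_cases htc : t < c * M
    · rw [hQ.deriv.supp t (fun h => by linarith [h.1]), zero_mul, norm_zero]
      positivity
    · rw [norm_mul]
      have ht1 : 1 ≤ t := by linarith [not_lt.1 htc]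
      apply mul_le_mul (hder t) _ (norm_nonneg _) (by positivity)
      refine (hE t ht1).trans ?_
      apply mul_le_mul_of_nonneg_left _ hE0
      exact Real.rpow_le_rpow (by linarith) ht.2 he
  have h4 := norm_setIntegral_le_of_norm_le_const (μ := volume) (by simp) h3
  have hdM : 0 ≤ d * M := by positivity
  rw [Real.volume_real_Ioc_of_le hdM, sub_zero] at h4
  refine h4.trans (le_of_eq ?_)
  rw [Real.mul_rpow hd.le hM0.le]
  field_simp

/-- the constant of the sum over squares -/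
noncomputable def cq (k : ℕ) : ℂ := ∫ x in (0 : ℝ)..3, fk k (x ^ 2)

theorem sum_sq_fk (k : ℕ) : ∃ C : ℝ, 0 ≤ C ∧ ∀ (m L : ℕ), 1 ≤ m → 6 * m ≤ L →
    ‖∑ n ∈ (Finset.Icc 1 L).filter (fun n => Odd n), fk k ((n : ℝ) ^ 2 / m) -
      ((√(m : ℝ) / 2 : ℝ) : ℂ) * cq k‖ ≤ C := by
  obtain ⟨C1, hC1, hb1⟩ := (TF_fk k).deriv.bounded
  refine ⟨1 / 2 * (12 * C1), by positivity, ?_⟩
  intro m L hm hL
  have hm1 : (1 : ℝ) ≤ m := by exact_mod_cast hm
  have hm0 : (0 : ℝ) < m := by linarith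
  have hL6 : 6 * (m : ℝ) ≤ L := by exact_mod_cast hL
  have hL0 : (0 : ℝ) ≤ L := Nat.cast_nonneg L
  set w : ℝ → ℂ := fun u => fk k (u ^ 2 / m) with hw
  set w' : ℝ → ℂ := fun u => ((2 * u / m : ℝ) : ℂ) * deriv (fk k) (u ^ 2 / m) with hw'
  have hder : ∀ y ∈ Icc (0 : ℝ) L, HasDerivAt w (w' y) y := by
    intro y _
    have h1 : HasDerivAt (fun u : ℝ => u ^ 2 / m) (2 * y / m) y := by
      have := (hasDerivAt_pow 2 y).div_const (m : ℝ)
      simpa using this
    have h2 := HasDerivAt.scomp y ((TF_fk k).hasDeriv (y ^ 2 / m)) h1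
    refine h2.congr_deriv ?_
    rw [Complex.real_smul]
  have hcont : Continuous w' := by
    simp only [hw']
    apply Continuous.mul (by fun_prop)
    exact (TF_fk k).deriv.cont.comp (by fun_prop)
  have hE : ∀ y ∈ Icc (0 : ℝ) L, ‖∑ k ∈ Finset.Ioc ⌊(0 : ℝ)⌋₊ ⌊y⌋₊, (if Odd k then (1 : ℂ) else 0) -
      ∫ u in (0 : ℝ)..y, (1 / 2 : ℂ)‖ ≤ 1 / 2 := by
    intro y hy
    rw [Nat.floor_zero, intervalIntegral.integral_const, ← Finset.sum_filter, Finset.sum_const]
    have e1 : (Finset.Ioc 0 ⌊y⌋₊).filter (fun k => Odd k) = (Finset.Icc 1 ⌊y⌋₊).filter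
        (fun k => Odd k) := rfl
    rw [e1]
    have h1 := card_odd_bound hy.1
    have e2 : ((Finset.Icc 1 ⌊y⌋₊).filter (fun k => Odd k)).card • (1 : ℂ) - (y - 0) • (1 / 2 : ℂ) =
        (((((Finset.Icc 1 ⌊y⌋₊).filter (fun k => Odd k)).card : ℝ) - y / 2 : ℝ) : ℂ) := by
      rw [Complex.real_smul]
      push_cast
      simp
      ring
    rw [e2, norm_real, Real.norm_eq_abs]
    exact h1
  have key := abel_cmp (c := fun k => if Odd k then (1 : ℂ) else 0) (v := fun _ => (1 / 2 : ℂ))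
    le_rfl hL0 hder hcont.continuousOn continuousOn_const hE
  have hz : ∀ u : ℝ, 0 ≤ u → 6 * (m : ℝ) < u ^ 2 → w u = 0 ∧ w' u = 0 := by
    intro u _ hu
    have h6 : u ^ 2 / m ∉ Icc (1 : ℝ) 6 := by
      intro h
      have := h.2
      rw [div_le_iff₀ hm0] at this
      linarith
    constructor
    · exact (TF_fk k).supp _ h6
    · simp only [hw']
      rw [(TF_fk k).deriv.supp _ h6, mul_zero]
  have hLsq : 6 * (m : ℝ) < (L : ℝ) ^ 2 := by nlinarith
  rw [(hz L hL0 hLsq).1, norm_zero, zero_add] at key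
  have s1 : ∑ j ∈ Finset.Ioc ⌊(0 : ℝ)⌋₊ ⌊(L : ℝ)⌋₊, w j * (if Odd j then (1 : ℂ) else 0) =
      ∑ n ∈ (Finset.Icc 1 L).filter (fun n => Odd n), fk k ((n : ℝ) ^ 2 / m) := by
    rw [Nat.floor_zero, Nat.floor_natCast, Finset.sum_filter]
    apply Finset.sum_congr rfl
    intro n _
    simp only [hw]
    split_ifs
    · rw [mul_one]
    · rw [mul_zero]
  set s : ℝ := √(m : ℝ) with hs
  have hs0 : 0 < s := Real.sqrt_pos.2 hm0
  have hs2 : s ^ 2 = m := Real.sq_sqrt hm0.le
  have hs1 : 1 ≤ s := by rw [hs, Real.one_le_sqrt]; exact hm1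
  have hLs : 3 ≤ (L : ℝ) / s := by
    rw [le_div_iff₀ hs0]
    nlinarith
  have s2 : ∫ u in (0 : ℝ)..L, w u * (1 / 2 : ℂ) = ((s / 2 : ℝ) : ℂ) * cq k := by
    rw [intervalIntegral.integral_mul_const]
    have e1 : ∫ u in (0 : ℝ)..L, w u = s • ∫ x in (0 : ℝ)..(L / s), fk k (x ^ 2) := by
      have e2 : ∀ u : ℝ, w u = (fun x : ℝ => fk k (x ^ 2)) (u / s) := by
        intro u
        simp only [hw]
        congr 1
        rw [div_pow, hs2]
      simp only [e2]
      rw [intervalIntegral.integral_comp_div (fun x : ℝ => fk k (x ^ 2)) hs0.ne', zero_div]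
    have hc2 : Continuous fun x : ℝ => fk k (x ^ 2) := (TF_fk k).cont.comp (by fun_prop)
    have e3 : ∫ x in (0 : ℝ)..(L / s), fk k (x ^ 2) = cq k := by
      unfold cq
      rw [← intervalIntegral.integral_add_adjacent_intervals (b := 3)
        (hc2.intervalIntegrable _ _) (hc2.intervalIntegrable _ _)]
      have e4 : ∫ x in (3 : ℝ)..(L / s), fk k (x ^ 2) = 0 := by
        rw [intervalIntegral.integral_of_le hLs]
        apply setIntegral_eq_zero_of_forall_eq_zero
        intro x hx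
        apply (TF_fk k).supp
        intro h
        have h1 := h.2
        have h2 := hx.1
        nlinarith
      rw [e4, add_zero]
    rw [e1, e3, Complex.real_smul]
    push_cast
    ring
  rw [s1, s2] at key
  refine key.trans ?_
  apply mul_le_mul_of_nonneg_left _ (by norm_num)
  -- the variation
  set q : ℝ := √(6 * (m : ℝ)) with hq
  have hq2 : q ^ 2 = 6 * m := Real.sq_sqrt (by positivity)
  have hq0 : 0 ≤ q := Real.sqrt_nonneg _
  have hqL : q ≤ L := by
    rw [hq, Real.sqrt_le_left hL0]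
    exact hLsq.le
  have hni : ∀ x y : ℝ, IntervalIntegrable (fun u => ‖w' u‖) volume x y :=
    fun x y => hcont.norm.intervalIntegrable _ _
  rw [← intervalIntegral.integral_add_adjacent_intervals (hni 0 q) (hni q L)]
  have e5 : ∫ u in q..(L : ℝ), ‖w' u‖ = 0 := by
    rw [intervalIntegral.integral_of_le hqL]
    apply setIntegral_eq_zero_of_forall_eq_zero
    intro x hx
    rw [(hz x (hq0.trans hx.1.le) (by nlinarith [hx.1])).2, norm_zero]
  have e6 : ∀ u ∈ Set.uIoc 0 q, ‖‖w' u‖‖ ≤ 2 * q / m * C1 := by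
    intro u hu
    rw [uIoc_of_le hq0] at hu
    rw [norm_norm]
    simp only [hw']
    rw [norm_mul, norm_real, Real.norm_of_nonneg (by have := hu.1; positivity)]
    apply mul_le_mul _ (hb1 _) (norm_nonneg _) (by positivity)
    gcongr
    exact hu.2
  have e7 := intervalIntegral.norm_integral_le_of_norm_le_const e6
  rw [sub_zero, abs_of_nonneg hq0] at e7
  have e8 : 2 * q / m * C1 * q = 12 * C1 := by
    have : 2 * q / m * C1 * q = 2 * (q ^ 2) / m * C1 := by ring
    rw [this, hq2]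
    field_simp
    ring
  rw [e5, add_zero]
  have e9 := Real.le_norm_self (∫ u in (0 : ℝ)..q, ‖w' u‖)
  linarith

end Pool.Agent.Helper368_LD
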