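import Pool.Agent.Helper368_LD.SmoothSum

/-!
# From odd squarefree integers to all odd integers
-/

set_option autoImplicit false

namespace Pool.Agent.Helper368_LD

open Complex MeasureTheory Set Filter Topology
open scoped ContDiff Real ArithmeticFunction.vonMangoldt
open Pool.Agent.H491R3.J

/-- the odd integers up to `L` -/
def OD (L : ℕ) : Finset ℕ := (Finset.Icc 1 L).filter (fun n => Odd n)

/-- the odd squarefree integers up to `L` -/
def SF (L : ℕ) : Finset ℕ := (Finset.Icc 1 L).filter (fun n => Odd n ∧ Squarefree n)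

theorem sq_unique {x y u v : ℕ} (hx : x ≠ 0) (hy : y ≠ 0) (hu : Squarefree u) (hv : Squarefree v)
    (h : x ^ 2 * u = y ^ 2 * v) : x = y ∧ u = v := by
  have hu0 : u ≠ 0 := hu.ne_zero
  have hv0 : v ≠ 0 := hv.ne_zero
  have hxy : x = y := by
    apply Nat.eq_of_factorization_eq hx hy
    intro p
    have h1 : (x ^ 2 * u).factorization p = (y ^ 2 * v).factorization p := by rw [h]
    rw [Nat.factorization_mul (pow_ne_zero 2 hx) hu0, Nat.factorization_mul (pow_ne_zero 2 hy) hv0,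
      Nat.factorization_pow, Nat.factorization_pow] at h1
    simp only [Finsupp.add_apply, Finsupp.smul_apply, smul_eq_mul] at h1
    have h2 := hu.natFactorization_le_one p
    have h3 := hv.natFactorization_le_one p
    omega
  refine ⟨hxy, ?_⟩
  rw [hxy] at h
  exact Nat.eq_of_mul_eq_mul_left (by positivity) h

theorem sq_decomp {R : Type*} [AddCommMonoid R] (L : ℕ) (F : ℕ → R) (hF : ∀ n, L < n → F n = 0) :
    ∑ n ∈ OD L, F n = ∑ x ∈ OD L, ∑ l ∈ SF L, F (x ^ 2 * l) := by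
  rw [← Finset.sum_product', ← Finset.sum_filter_add_sum_filter_not (OD L ×ˢ SF L)
    (fun z => z.1 ^ 2 * z.2 ≤ L)]
  have h0 : ∑ z ∈ (OD L ×ˢ SF L).filter (fun z => ¬ z.1 ^ 2 * z.2 ≤ L), F (z.1 ^ 2 * z.2) = 0 := by
    apply Finset.sum_eq_zero
    intro z hz
    rw [Finset.mem_filter] at hz
    exact hF _ (not_le.1 hz.2)
  rw [h0, add_zero]
  symm
  apply Finset.sum_nbij (fun z : ℕ × ℕ => z.1 ^ 2 * z.2)
  · intro z hz
    rw [Finset.mem_filter, Finset.mem_product] at hz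
    unfold OD SF at hz
    rw [Finset.mem_filter, Finset.mem_filter, Finset.mem_Icc, Finset.mem_Icc] at hz
    unfold OD
    rw [Finset.mem_filter, Finset.mem_Icc]
    obtain ⟨⟨⟨⟨h1, _⟩, h3⟩, ⟨⟨h4, _⟩, h6, _⟩⟩, h8⟩ := hz
    refine ⟨⟨?_, h8⟩, (h3.pow).mul h6⟩
    have : 0 < z.1 ^ 2 * z.2 := by positivity
    omega
  · intro z hz z' hz' hzz
    rw [Finset.mem_coe, Finset.mem_filter, Finset.mem_product] at hz hz'
    unfold OD SF at hz hz'
    rw [Finset.mem_filter, Finset.mem_filter, Finset.mem_Icc, Finset.mem_Icc] at hz hz'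
    have := sq_unique (by omega) (by omega) hz.1.2.2.2 hz'.1.2.2.2 hzz
    exact Prod.ext this.1 this.2
  · intro n hn
    unfold OD at hn
    rw [Finset.coe_filter, Set.mem_ofPred_eq, Finset.mem_Icc] at hn
    obtain ⟨u, x, hxu, hu⟩ := Nat.sq_mul_squarefree n
    have hn0 : n ≠ 0 := by omega
    have hx0 : x ≠ 0 := by
      rintro rfl
      simp at hxu
      omega
    have hu0 : u ≠ 0 := hu.ne_zero
    have hodd : Odd (x ^ 2 * u) := hxu ▸ hn.2
    have hxo : Odd x := by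
      have h1 := Nat.Odd.of_mul_right (by rwa [mul_comm] at hodd : Odd (u * x ^ 2))
      have h2 : Odd (x * x) := by rwa [← sq]
      exact Nat.Odd.of_mul_left h2
    have huo : Odd u := Nat.Odd.of_mul_left (by rwa [mul_comm] at hodd)
    have hxL : x ≤ x ^ 2 * u := by
      have e : x ^ 2 * u = x * (x * u) := by ring
      rw [e]
      exact Nat.le_mul_of_pos_right x (by positivity)
    have huL : u ≤ x ^ 2 * u := Nat.le_mul_of_pos_left u (by positivity)
    refine ⟨(x, u), ?_, hxu⟩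
    rw [Finset.mem_coe, Finset.mem_filter, Finset.mem_product]
    unfold OD SF
    rw [Finset.mem_filter, Finset.mem_filter, Finset.mem_Icc, Finset.mem_Icc]
    simp only
    refine ⟨⟨⟨⟨by omega, by omega⟩, hxo⟩, ⟨⟨by omega, by omega⟩, huo, hu⟩⟩, by omega⟩
  · intro z _
    rfl

/-- the sum without the coprimality condition -/
theorem decomp_diff {m : ℕ} (hm : IsPrimePow m) (k : ℕ) {L : ℕ} (hL : 6 * m ≤ L) :
    ‖∑ x ∈ OD L, ∑ l ∈ SF L, ((jacobiSym (m : ℤ) l : ℤ) : ℂ) * fk k ((x : ℝ) ^ 2 * l / m) -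
      ((xi m k : ℝ) : ℂ)‖ ≤ ((6 * m / m.minFac ^ 2 : ℕ) : ℝ) := by
  have hmpos : 0 < m := hm.pos
  have hm0 : (0 : ℝ) < m := by exact_mod_cast hmpos
  set p := m.minFac with hpd
  have hp : p.Prime := Nat.minFac_prime hm.ne_one
  have hfz : ∀ n : ℕ, 6 * m < n → fk k ((n : ℝ) / m) = 0 := by
    intro n hn
    apply (TF_fk k).supp
    intro h
    have h1 := h.2
    rw [div_le_iff₀ hm0] at h1
    have h2 : (6 : ℝ) * m < n := by exact_mod_cast hn
    linarith
  have e1 := sum_fk_eq hmpos k hL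
  have e2 := sq_decomp L (fun n => ((jacobiSym (m : ℤ) n : ℤ) : ℂ) * fk k ((n : ℝ) / m)) (by
    intro n hn
    rw [hfz n (by omega), mul_zero])
  rw [← e1]
  have e3 : ∑ n ∈ (Finset.Icc 1 L).filter (fun n => Odd n), ((jacobiSym (m : ℤ) n : ℤ) : ℂ) *
      fk k ((n : ℝ) / m) = ∑ x ∈ OD L, ∑ l ∈ SF L, ((jacobiSym (m : ℤ) (x ^ 2 * l) : ℤ) : ℂ) *
        fk k (((x ^ 2 * l : ℕ) : ℝ) / m) := e2
  rw [e3, ← Finset.sum_sub_distrib]
  simp only [← Finset.sum_sub_distrib]
  have hG : ∑ n ∈ OD L, (if p ^ 2 ∣ n ∧ n ≤ 6 * m then (1 : ℝ) else 0) ≤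
      ((6 * m / p ^ 2 : ℕ) : ℝ) := by
    rw [← Finset.sum_filter, Finset.sum_const, nsmul_eq_mul, mul_one,
      ← Nat.Ioc_filter_dvd_card_eq_div]
    apply Nat.cast_le.2
    apply Finset.card_le_card
    intro n hn
    unfold OD at hn
    rw [Finset.mem_filter, Finset.mem_filter, Finset.mem_Icc] at hn
    rw [Finset.mem_filter, Finset.mem_Ioc]
    exact ⟨⟨by omega, hn.2.2⟩, hn.2.1⟩
  refine le_trans ?_ hG
  rw [sq_decomp L (fun n => if p ^ 2 ∣ n ∧ n ≤ 6 * m then (1 : ℝ) else 0) (by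
    intro n hn
    rw [if_neg]
    rintro ⟨_, h2⟩
    omega)]
  refine norm_sum_le_of_le _ fun x hx => norm_sum_le_of_le _ fun l hl => ?_
  unfold OD at hx
  unfold SF at hl
  rw [Finset.mem_filter, Finset.mem_Icc] at hx hl
  have hl0 : NeZero l := ⟨by omega⟩
  have hx0 : NeZero x := ⟨by omega⟩
  have hx2 : NeZero (x ^ 2) := ⟨pow_ne_zero 2 (by omega)⟩
  have e4 : (((x ^ 2 * l : ℕ) : ℝ) / m) = (x : ℝ) ^ 2 * l / m := by push_cast; ring
  have e5 : ((jacobiSym (m : ℤ) l : ℤ) : ℂ) * fk k ((x : ℝ) ^ 2 * l / m) -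
      ((jacobiSym (m : ℤ) (x ^ 2 * l) : ℤ) : ℂ) * fk k (((x ^ 2 * l : ℕ) : ℝ) / m) =
      (1 - ((jacobiSym (m : ℤ) x : ℤ) : ℂ) ^ 2) * (((jacobiSym (m : ℤ) l : ℤ) : ℂ) *
        fk k (((x ^ 2 * l : ℕ) : ℝ) / m)) := by
    rw [jacobiSym.mul_right, jacobiSym.pow_right, e4]
    push_cast
    ring
  rw [e5]
  by_cases hcop : p ∣ x
  · by_cases hle : x ^ 2 * l ≤ 6 * m
    · rw [if_pos ⟨Dvd.dvd.mul_right (pow_dvd_pow_of_dvd hcop 2) l, hle⟩, norm_mul, norm_mul]
      have h1 : ‖(1 : ℂ) - ((jacobiSym (m : ℤ) x : ℤ) : ℂ) ^ 2‖ ≤ 1 := by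
        rcases jacobiSym.trichotomy (m : ℤ) x with h | h | h <;> rw [h] <;> norm_num
      have h2 := jac_norm (m : ℤ) l
      have h3 := fk_le k (((x ^ 2 * l : ℕ) : ℝ) / m)
      have h4 : ‖(1 : ℂ) - ((jacobiSym (m : ℤ) x : ℤ) : ℂ) ^ 2‖ * (‖((jacobiSym (m : ℤ) l : ℤ) : ℂ)‖ *
          ‖fk k (((x ^ 2 * l : ℕ) : ℝ) / m)‖) ≤ 1 * (1 * 1) := by gcongr
      simpa using h4
    · rw [if_neg (fun h => hle h.2), hfz _ (by omega)]
      simp
  · have h1 : jacobiSym (m : ℤ) x ^ 2 = 1 := by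
      apply jacobiSym.sq_one
      rw [Int.gcd_natCast_natCast]
      have hpow := hm.minFac_pow_factorization_eq
      rw [← hpd] at hpow
      rw [← hpow]
      exact ((Nat.Prime.coprime_iff_not_dvd hp).2 hcop).pow_left _
    have h2 : ((jacobiSym (m : ℤ) x : ℤ) : ℂ) ^ 2 = 1 := by exact_mod_cast h1
    rw [h2, sub_self, zero_mul, norm_zero]
    split_ifs <;> norm_num

theorem sum_minFac_le {q : ℕ} (hq : 2 ≤ q) {N : ℕ} (hN : 1 ≤ N) :
    ∑ m ∈ (Finset.Icc 1 N).filter (fun m => m.minFac = q), Λ m ≤ Real.log N := by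
  have h1 : ∑ m ∈ (Finset.Icc 1 N).filter (fun m => m.minFac = q), Λ m ≤
      ∑ m ∈ (Finset.Icc 1 (Nat.log q N)).image (fun j => q ^ j), Real.log q := by
    rw [← Finset.sum_filter_ne_zero]
    have hle : ∀ m ∈ ((Finset.Icc 1 N).filter (fun m => m.minFac = q)).filter (fun m => Λ m ≠ 0),
        Λ m ≤ Real.log q := by
      intro m hm
      rw [Finset.mem_filter, Finset.mem_filter] at hm
      rw [ArithmeticFunction.vonMangoldt_apply]
      split_ifs
      · rw [hm.1.2]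
      · exact Real.log_natCast_nonneg q
    refine (Finset.sum_le_sum hle).trans ?_
    apply Finset.sum_le_sum_of_subset_of_nonneg
    · intro m hm
      rw [Finset.mem_filter, Finset.mem_filter, Finset.mem_Icc] at hm
      rw [Finset.mem_image]
      have hpp : IsPrimePow m := ArithmeticFunction.vonMangoldt_ne_zero_iff.1 hm.2
      have hpow := hpp.minFac_pow_factorization_eq
      rw [hm.1.2] at hpow
      refine ⟨m.factorization q, ?_, hpow⟩
      rw [Finset.mem_Icc]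
      constructor
      · by_contra h
        have h0 : m.factorization q = 0 := by omega
        rw [h0, pow_zero] at hpow
        exact hpp.ne_one hpow.symm
      · apply Nat.le_log_of_pow_le (by omega)
        rw [hpow]
        exact hm.1.1.2
    · intro m _ _
      exact Real.log_natCast_nonneg q
  refine h1.trans ?_
  rw [Finset.sum_const, nsmul_eq_mul]
  have h2 : (((Finset.Icc 1 (Nat.log q N)).image (fun j => q ^ j)).card : ℝ) ≤ Nat.log q N := by
    have := Finset.card_image_le (s := Finset.Icc 1 (Nat.log q N)) (f := fun j => q ^ j)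
    rw [Nat.card_Icc] at this
    exact_mod_cast (by omega : ((Finset.Icc 1 (Nat.log q N)).image (fun j => q ^ j)).card ≤
      Nat.log q N)
  have h3 : (Nat.log q N : ℝ) * Real.log q ≤ Real.log N := by
    rw [← Real.log_pow]
    apply Real.log_le_log
    · have : 0 < q ^ Nat.log q N := by positivity
      exact_mod_cast this
    · exact_mod_cast Nat.pow_log_le_self q (by omega)
  have h4 : 0 ≤ Real.log q := Real.log_natCast_nonneg q
  nlinarith

theorem sum_vM_minFac {N : ℕ} (hN : 1 ≤ N) :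
    ∑ m ∈ Finset.Icc 1 N, Λ m / ((m.minFac : ℕ) : ℝ) ^ 2 ≤ 2 * Real.log N := by
  have hlog : 0 ≤ Real.log (N : ℝ) := Real.log_natCast_nonneg N
  have hmaps : ∀ m ∈ Finset.Icc 1 N, m.minFac ∈ Finset.Icc 1 N := by
    intro m hm
    rw [Finset.mem_Icc] at hm ⊢
    exact ⟨Nat.minFac_pos m, (Nat.minFac_le hm.1).trans hm.2⟩
  rw [← Finset.sum_fiberwise_of_maps_to hmaps]
  have h1 : ∀ q ∈ Finset.Icc 1 N, ∑ m ∈ (Finset.Icc 1 N).filter (fun m => m.minFac = q),
      Λ m / ((m.minFac : ℕ) : ℝ) ^ 2 ≤ Real.log N * ((q : ℝ) ^ 2)⁻¹ := by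
    intro q hq
    rw [Finset.mem_Icc] at hq
    have e1 : ∑ m ∈ (Finset.Icc 1 N).filter (fun m => m.minFac = q),
        Λ m / ((m.minFac : ℕ) : ℝ) ^ 2 = (∑ m ∈ (Finset.Icc 1 N).filter (fun m => m.minFac = q),
          Λ m) * ((q : ℝ) ^ 2)⁻¹ := by
      rw [Finset.sum_mul]
      apply Finset.sum_congr rfl
      intro m hm
      rw [Finset.mem_filter] at hm
      rw [hm.2, div_eq_mul_inv]
    rw [e1]
    apply mul_le_mul_of_nonneg_right _ (by positivity)
    rcases Nat.lt_or_ge 1 q with h | h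
    · exact sum_minFac_le h hN
    · have hq1 : q = 1 := by omega
      rw [Finset.sum_eq_zero]
      · exact hlog
      · intro m hm
        rw [Finset.mem_filter, hq1, Nat.minFac_eq_one_iff] at hm
        rw [hm.2, ArithmeticFunction.vonMangoldt_apply_one]
  refine (Finset.sum_le_sum h1).trans ?_
  rw [← Finset.mul_sum]
  have h2 : ∑ q ∈ Finset.Icc 1 N, ((q : ℝ) ^ 2)⁻¹ ≤ 2 := by
    have e2 : Finset.Icc 1 N = insert 1 (Finset.Ioc 1 N) := by
      ext q
      rw [Finset.mem_insert, Finset.mem_Icc, Finset.mem_Ioc]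
      omega
    rw [e2, Finset.sum_insert (by simp)]
    have h3 := sum_Ioc_inv_sq_le_sub (α := ℝ) one_ne_zero hN
    have h4 : 0 ≤ ((N : ℝ))⁻¹ := by positivity
    simp only [Nat.cast_one, one_pow, inv_one] at h3 ⊢
    linarith
  nlinarith

end Pool.Agent.Helper368_LD
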