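import Mathlib

/-!
# Smooth test functions with compact support in the positive half line
-/

set_option autoImplicit false

namespace Pool.Agent.Helper368_LD

open Complex MeasureTheory Set Filter Topology
open scoped ContDiff

/-- smooth functions vanishing outside of `[a, b]` -/
structure TF (a b : ℝ) (f : ℝ → ℂ) : Prop where
  smooth : ContDiff ℝ ∞ f
  supp : ∀ v, v ∉ Icc a b → f v = 0

variable {a b c d : ℝ} {f g h : ℝ → ℂ}

theorem TF.cont (hf : TF a b f) : Continuous f := hf.smooth.continuous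

theorem TF.diff (hf : TF a b f) : Differentiable ℝ f := hf.smooth.differentiable (by simp)

theorem TF.hasDeriv (hf : TF a b f) (v : ℝ) : HasDerivAt f (deriv f v) v :=
  (hf.diff v).hasDerivAt

theorem TF.eventually_zero (hf : TF a b f) {v : ℝ} (hv : v ∉ Icc a b) : f =ᶠ[𝓝 v] fun _ => 0 := by
  have h1 : (Icc a b)ᶜ ∈ 𝓝 v := isClosed_Icc.isOpen_compl.mem_nhds hv
  filter_upwards [h1] with w hw
  exact hf.supp w hw

theorem TF.deriv (hf : TF a b f) : TF a b (deriv f) where
  smooth := (contDiff_infty_iff_deriv.1 hf.smooth).2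
  supp := by
    intro v hv
    rw [(hf.eventually_zero hv).deriv_eq]
    simp

theorem TF.mul_of_pos (ha : 0 < a) (hf : TF a b f) (hg : ∀ v : ℝ, 0 < v → ContDiffAt ℝ ∞ g v) :
    TF a b (fun v => g v * f v) where
  smooth := by
    rw [contDiff_iff_contDiffAt]
    intro v
    by_cases hv : 0 < v
    · exact (hg v hv).mul hf.smooth.contDiffAt
    · have hv' : v ∉ Icc a b := fun h => hv (by linarith [h.1])
      have h1 : (fun v => g v * f v) =ᶠ[𝓝 v] fun _ => 0 := by
        filter_upwards [hf.eventually_zero hv'] with w hw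
        rw [hw, mul_zero]
      exact ContDiffAt.congr_of_eventuallyEq contDiffAt_const h1
  supp := by
    intro v hv
    rw [hf.supp v hv, mul_zero]

theorem contDiff_ofReal' : ContDiff ℝ ∞ (fun v : ℝ => (v : ℂ)) := Complex.ofRealCLM.contDiff

theorem TF.vmul (ha : 0 < a) (hf : TF a b f) : TF a b (fun v => (v : ℂ) * f v) :=
  hf.mul_of_pos ha (fun _ _ => contDiff_ofReal'.contDiffAt)

theorem TF.divv (ha : 0 < a) (hf : TF a b f) : TF a b (fun v => (v : ℂ)⁻¹ * f v) := by
  apply hf.mul_of_pos ha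
  intro v hv
  apply ContDiffAt.inv contDiff_ofReal'.contDiffAt
  exact_mod_cast hv.ne'

theorem TF.cmul (c : ℂ) (hf : TF a b f) : TF a b (fun v => c * f v) where
  smooth := contDiff_const.mul hf.smooth
  supp := by
    intro v hv
    rw [hf.supp v hv, mul_zero]

theorem TF.add (hf : TF a b f) (hg : TF a b g) : TF a b (fun v => f v + g v) where
  smooth := hf.smooth.add hg.smooth
  supp := by
    intro v hv
    rw [hf.supp v hv, hg.supp v hv, add_zero]

theorem TF.sub (hf : TF a b f) (hg : TF a b g) : TF a b (fun v => f v - g v) where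
  smooth := hf.smooth.sub hg.smooth
  supp := by
    intro v hv
    rw [hf.supp v hv, hg.supp v hv, sub_zero]

theorem TF.bounded (hf : TF a b f) : ∃ C : ℝ, 0 ≤ C ∧ ∀ v, ‖f v‖ ≤ C := by
  obtain ⟨C, hC⟩ := isCompact_Icc.exists_bound_of_continuousOn (s := Icc a b) hf.cont.continuousOn
  refine ⟨max C 0, le_max_right _ _, fun v => ?_⟩
  by_cases hv : v ∈ Icc a b
  · exact (hC v hv).trans (le_max_left _ _)
  · rw [hf.supp v hv, norm_zero]
    exact le_max_right _ _

/-- the product `f(ξ/u) h(u)` -/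
theorem TF.conv (hc : 0 < c) (hf : TF a b f) (hh : TF c d h) (ξ : ℝ) :
    TF c d (fun u => f (ξ / u) * h u) := by
  apply hh.mul_of_pos hc
  intro u hu
  apply ContDiffAt.comp u hf.smooth.contDiffAt
  exact ContDiffAt.div contDiffAt_const contDiffAt_id hu.ne'

theorem mellin_eq_Icc (hc : 0 < c) (hh : TF c d h) (r : ℂ) :
    mellin h r = ∫ u in Icc c d, (u : ℂ) ^ (r - 1) * h u := by
  unfold mellin
  apply setIntegral_eq_of_subset_of_forall_sdiff_eq_zero measurableSet_Ioi
  · intro u hu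
    exact lt_of_lt_of_le hc hu.1
  · intro u hu
    simp only [smul_eq_mul]
    rw [hh.supp u hu.2, mul_zero]

theorem mellin_eq_interval (hc : 0 < c) (hcd : c ≤ d) (hh : TF c d h) (r : ℂ) :
    mellin h r = ∫ u in c..d, (u : ℂ) ^ (r - 1) * h u := by
  rw [intervalIntegral.integral_of_le hcd, mellin_eq_Icc hc hh, ← integral_Icc_eq_integral_Ioc]

theorem mellin_integrand_continuousOn (hc : 0 < c) (hh : TF c d h) (r : ℂ) :
    ContinuousOn (fun u : ℝ => (u : ℂ) ^ (r - 1) * h u) (Icc c d) := by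
  apply ContinuousOn.mul _ hh.cont.continuousOn
  intro u hu
  apply ContinuousAt.continuousWithinAt
  exact Complex.continuousAt_ofReal_cpow_const u (r - 1) (Or.inr (lt_of_lt_of_le hc hu.1).ne')

theorem TF.mellinConvergent (hc : 0 < c) (hh : TF c d h) (r : ℂ) : MellinConvergent h r := by
  unfold MellinConvergent
  have h1 : IntegrableOn (fun u : ℝ => (u : ℂ) ^ (r - 1) • h u) (Icc c d) :=
    (mellin_integrand_continuousOn hc hh r).integrableOn_Icc
  apply h1.of_forall_sdiff_eq_zero measurableSet_Ioi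
  intro u hu
  rw [hh.supp u hu.2, smul_zero]

theorem mellin_norm_le (hc : 0 < c) (hcd : c ≤ d) (hh : TF c d h) {C : ℝ} (hC : ∀ v, ‖h v‖ ≤ C)
    {r : ℂ} (hr0 : 0 ≤ r.re) (hr1 : r.re ≤ 1) : ‖mellin h r‖ ≤ (1 + c⁻¹) * C * (d - c) := by
  rw [mellin_eq_interval hc hcd hh]
  have hC0 : 0 ≤ C := (norm_nonneg _).trans (hC 0)
  have h1 : ∀ u ∈ Set.uIoc c d, ‖(u : ℂ) ^ (r - 1) * h u‖ ≤ (1 + c⁻¹) * C := by
    intro u hu
    rw [uIoc_of_le hcd] at hu
    have hu0 : 0 < u := hc.trans hu.1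
    rw [norm_mul, norm_cpow_eq_rpow_re_of_pos hu0]
    have h2 : u ^ (r - 1).re ≤ 1 + c⁻¹ := by
      have e : (r - 1).re = r.re - 1 := by simp
      rw [e]
      rcases le_total 1 u with h | h
      · have := Real.rpow_le_one_of_one_le_of_nonpos h (by linarith : r.re - 1 ≤ 0)
        have : 0 < c⁻¹ := inv_pos.2 hc
        linarith
      · have h3 : u ^ (r.re - 1) ≤ u ^ (-1 : ℝ) :=
          Real.rpow_le_rpow_of_exponent_ge hu0 h (by linarith)
        rw [Real.rpow_neg_one] at h3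
        have h4 : u⁻¹ ≤ c⁻¹ := inv_anti₀ hc hu.1.le
        linarith
    have h5 : 0 ≤ u ^ (r - 1).re := Real.rpow_nonneg hu0.le _
    exact mul_le_mul h2 (hC u) (norm_nonneg _) (h5.trans h2)
  have h2 := intervalIntegral.norm_integral_le_of_norm_le_const h1
  rwa [abs_of_nonneg (by linarith : (0 : ℝ) ≤ d - c)] at h2

/-- integration by parts -/
theorem mellin_byparts (hc : 0 < c) (hcd : c ≤ d) (hh : TF c d h) (r : ℂ) :
    mellin (fun u => (u : ℂ) * deriv h u) r = -r * mellin h r := by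
  have hc2 : 0 < c / 2 := by linarith
  have hw : ∀ {g : ℝ → ℂ}, TF c d g → TF (c / 2) (d + 1) g := by
    intro g hg
    refine ⟨hg.smooth, fun v hv => hg.supp v ?_⟩
    intro h1
    exact hv ⟨by linarith [h1.1], by linarith [h1.2]⟩
  have hd' : TF c d (fun u => (u : ℂ) * deriv h u) := hh.deriv.vmul hc
  rw [mellin_eq_interval hc2 (by linarith) (hw hd'), mellin_eq_interval hc2 (by linarith) (hw hh)]
  have hpos : ∀ u ∈ Set.uIcc (c / 2) (d + 1), 0 < u := by
    intro u hu
    rw [uIcc_of_le (by linarith)] at hu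
    linarith [hu.1]
  have hder : ∀ u ∈ Set.uIcc (c / 2) (d + 1), HasDerivAt (fun u : ℝ => (u : ℂ) ^ r * h u)
      ((r * (u : ℂ) ^ (r - 1)) * h u + (u : ℂ) ^ r * deriv h u) u := by
    intro u hu
    have hu0 := hpos u hu
    have h1 : HasDerivAt (fun u : ℝ => (u : ℂ) ^ r) (r * (u : ℂ) ^ (r - 1)) u := by
      have h2 : HasDerivAt (fun z : ℂ => z ^ r) (r * (u : ℂ) ^ (r - 1) * 1) (u : ℂ) :=
        (hasDerivAt_id (u : ℂ)).cpow_const (Or.inl (by simpa using hu0))
      rw [mul_one] at h2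
      exact h2.comp_ofReal
    exact h1.mul (hh.hasDeriv u)
  have hint : IntervalIntegrable (fun u : ℝ => (r * (u : ℂ) ^ (r - 1)) * h u + (u : ℂ) ^ r * deriv h u)
      volume (c / 2) (d + 1) := by
    apply ContinuousOn.intervalIntegrable
    intro u hu
    have hu0 := hpos u hu
    apply ContinuousAt.continuousWithinAt
    have h1 := Complex.continuousAt_ofReal_cpow_const u (r - 1) (Or.inr hu0.ne')
    have h2 := Complex.continuousAt_ofReal_cpow_const u r (Or.inr hu0.ne')
    have h3 := hh.cont.continuousAt (x := u)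
    have h4 := hh.deriv.cont.continuousAt (x := u)
    exact ((continuousAt_const.mul h1).mul h3).add (h2.mul h4)
  have h1 := intervalIntegral.integral_eq_sub_of_hasDerivAt hder hint
  have hz1 : h (d + 1) = 0 := hh.supp _ (fun h => by linarith [h.2])
  have hz2 : h (c / 2) = 0 := hh.supp _ (fun h => by linarith [h.1])
  rw [hz1, hz2, mul_zero, mul_zero, sub_zero] at h1
  have e1 : ∫ u in (c / 2)..(d + 1), ((r * (u : ℂ) ^ (r - 1)) * h u + (u : ℂ) ^ r * deriv h u) =
      r * (∫ u in (c / 2)..(d + 1), (u : ℂ) ^ (r - 1) * h u) +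
        ∫ u in (c / 2)..(d + 1), (u : ℂ) ^ (r - 1) * ((u : ℂ) * deriv h u) := by
    rw [← intervalIntegral.integral_const_mul, ← intervalIntegral.integral_add]
    · apply intervalIntegral.integral_congr
      intro u hu
      have hu0 := hpos u hu
      have huc : (u : ℂ) ≠ 0 := by exact_mod_cast hu0.ne'
      have e : (u : ℂ) ^ r = (u : ℂ) ^ (r - 1) * (u : ℂ) := by
        rw [Complex.cpow_sub _ _ huc, cpow_one]
        field_simp
      simp only
      rw [e]
      ring
    · apply ContinuousOn.intervalIntegrable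
      rw [uIcc_of_le (by linarith)]
      have := mellin_integrand_continuousOn hc2 (hw hh) r
      exact continuousOn_const.mul this
    · apply ContinuousOn.intervalIntegrable
      rw [uIcc_of_le (by linarith)]
      exact mellin_integrand_continuousOn hc2 (hw hd') r
  rw [e1] at h1
  linear_combination h1

theorem conv_deriv_eq (hf : TF a b f) (hh : TF c d h) (ξ : ℝ) {u : ℝ} (hu : 0 < u) :
    (u : ℂ) * deriv (fun u => f (ξ / u) * h u) u =
      f (ξ / u) * ((u : ℂ) * deriv h u) - (((ξ / u : ℝ) : ℂ) * deriv f (ξ / u)) * h u := by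
  have h1 : HasDerivAt (fun u : ℝ => ξ / u) (-ξ / u ^ 2) u := by
    have h2 := (hasDerivAt_inv hu.ne').const_mul ξ
    have e : (fun u : ℝ => ξ / u) = fun u => ξ * u⁻¹ := by funext u; rw [div_eq_mul_inv]
    rw [e]
    refine h2.congr_deriv ?_
    field_simp
  have h2 : HasDerivAt (fun u : ℝ => f (ξ / u)) ((-ξ / u ^ 2 : ℝ) • deriv f (ξ / u)) u :=
    HasDerivAt.scomp u (hf.hasDeriv (ξ / u)) h1
  have h3 : deriv (fun u => f (ξ / u) * h u) u = ((-ξ / u ^ 2 : ℝ) • deriv f (ξ / u)) * h u +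
      f (ξ / u) * deriv h u := (h2.mul (hh.hasDeriv u)).deriv
  rw [h3]
  have huc : (u : ℂ) ≠ 0 := by exact_mod_cast hu.ne'
  rw [Complex.real_smul]
  push_cast
  field_simp
  ring

theorem mellin_congr_pos {f g : ℝ → ℂ} (h : ∀ u, 0 < u → f u = g u) (r : ℂ) :
    mellin f r = mellin g r := by
  unfold mellin
  apply setIntegral_congr_fun measurableSet_Ioi
  intro u hu
  simp only
  rw [h u hu]

/-- rapid decay in vertical strips, uniformly -/
theorem conv_decay (ha : 0 < a) (hc : 0 < c) (hcd : c ≤ d) (N : ℕ) :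
    ∀ {f h : ℝ → ℂ}, TF a b f → TF c d h → ∃ C : ℝ, 0 ≤ C ∧ ∀ (ξ : ℝ) (r : ℂ), 0 ≤ r.re → r.re ≤ 1 →
      ‖mellin (fun u => f (ξ / u) * h u) r‖ * (1 + |r.im|) ^ N ≤ C := by
  induction N with
  | zero =>
    intro f h hf hh
    obtain ⟨C1, hC1, h1⟩ := hf.bounded
    obtain ⟨C2, hC2, h2⟩ := hh.bounded
    refine ⟨(1 + c⁻¹) * (C1 * C2) * (d - c), ?_, ?_⟩
    · have : 0 ≤ d - c := by linarith
      have : 0 < c⁻¹ := inv_pos.2 hc
      positivity
    · intro ξ r hr0 hr1
      rw [pow_zero, mul_one]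
      apply mellin_norm_le hc hcd (hf.conv hc hh ξ) _ hr0 hr1
      intro v
      rw [norm_mul]
      exact mul_le_mul (h1 _) (h2 _) (norm_nonneg _) hC1
  | succ N ih =>
    intro f h hf hh
    obtain ⟨C0, hC0, h0⟩ := ih hf hh
    obtain ⟨C1, hC1, h1⟩ := ih (hf.deriv.vmul ha) hh
    obtain ⟨C2, hC2, h2⟩ := ih hf (hh.deriv.vmul hc)
    refine ⟨C0 + (C1 + C2), by positivity, ?_⟩
    intro ξ r hr0 hr1
    have hK := hf.conv hc hh ξ
    have e1 := mellin_byparts hc hcd hK r
    have hA := (hf.deriv.vmul ha).conv hc hh ξ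
    have hB := hf.conv hc (hh.deriv.vmul hc) ξ
    have e2 : mellin (fun u => (u : ℂ) * deriv (fun u => f (ξ / u) * h u) u) r =
        mellin (fun u => f (ξ / u) * ((u : ℂ) * deriv h u)) r -
        mellin (fun u => (((ξ / u : ℝ) : ℂ) * deriv f (ξ / u)) * h u) r := by
      rw [← (hasMellin_sub (hB.mellinConvergent hc r) (hA.mellinConvergent hc r)).2]
      apply mellin_congr_pos
      intro u hu
      exact conv_deriv_eq hf hh ξ hu
    have h3 := h0 ξ r hr0 hr1
    have h4 := h1 ξ r hr0 hr1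
    have h5 := h2 ξ r hr0 hr1
    set m := mellin (fun u => f (ξ / u) * h u) r with hm
    set m1 := mellin (fun u => (((ξ / u : ℝ) : ℂ) * deriv f (ξ / u)) * h u) r with hm1
    set m2 := mellin (fun u => f (ξ / u) * ((u : ℂ) * deriv h u)) r with hm2
    have e3 : r * m = m1 - m2 := by
      rw [e2] at e1
      linear_combination e1
    have h6 : ‖r‖ * ‖m‖ ≤ ‖m1‖ + ‖m2‖ := by
      rw [← norm_mul, e3]
      exact norm_sub_le _ _
    have h7 : |r.im| ≤ ‖r‖ := abs_im_le_norm r
    have h8 : 0 ≤ (1 + |r.im|) ^ N := by positivity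
    calc ‖m‖ * (1 + |r.im|) ^ (N + 1) = ‖m‖ * (1 + |r.im|) ^ N + |r.im| * ‖m‖ * (1 + |r.im|) ^ N := by
          ring
      _ ≤ ‖m‖ * (1 + |r.im|) ^ N + ‖r‖ * ‖m‖ * (1 + |r.im|) ^ N := by gcongr
      _ ≤ ‖m‖ * (1 + |r.im|) ^ N + (‖m1‖ + ‖m2‖) * (1 + |r.im|) ^ N := by gcongr
      _ ≤ _ := by linarith

theorem conv_zero (ha : 0 < a) (hc : 0 < c) (hf : TF a b f) (hh : TF c d h) {ξ : ℝ}
    (hξ : ξ ∉ Icc (a * c) (b * d)) (r : ℂ) : mellin (fun u => f (ξ / u) * h u) r = 0 := by
  have h1 : ∀ u, f (ξ / u) * h u = 0 := by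
    intro u
    by_cases hu : u ∈ Icc c d
    · by_cases hv : ξ / u ∈ Icc a b
      · exfalso
        apply hξ
        have hu0 : 0 < u := lt_of_lt_of_le hc hu.1
        have e : ξ = (ξ / u) * u := by field_simp
        rw [e]
        constructor
        · exact mul_le_mul hv.1 hu.1 hc.le (ha.le.trans hv.1)
        · exact mul_le_mul hv.2 hu.2 hu0.le (ha.le.trans (hv.1.trans hv.2))
      · rw [hf.supp _ hv, zero_mul]
    · rw [hh.supp _ hu, mul_zero]
  unfold mellin
  simp only [h1, smul_zero, integral_zero]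

/-- the derivative in the parameter -/
theorem conv_hasDerivAt (hc : 0 < c) (hf : TF a b f) (hh : TF c d h) (r : ℂ) (ξ : ℝ) :
    HasDerivAt (fun ξ : ℝ => mellin (fun u => f (ξ / u) * h u) r)
      (mellin (fun u => deriv f (ξ / u) * ((u : ℂ)⁻¹ * h u)) r) ξ := by
  have e1 : (fun ξ : ℝ => mellin (fun u => f (ξ / u) * h u) r) =
      fun ξ : ℝ => ∫ u in Icc c d, (u : ℂ) ^ (r - 1) * (f (ξ / u) * h u) := by
    funext ξ
    exact mellin_eq_Icc hc (hf.conv hc hh ξ) r
  rw [e1, mellin_eq_Icc hc (hf.deriv.conv hc (hh.divv hc) ξ) r]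
  obtain ⟨C1, hC1, h1⟩ := hf.deriv.bounded
  obtain ⟨C2, h2⟩ := isCompact_Icc.exists_bound_of_continuousOn
    (mellin_integrand_continuousOn hc (hh.divv hc) r)
  refine (hasDerivAt_integral_of_dominated_loc_of_deriv_le (s := Set.univ)
    (F' := fun (ξ u : ℝ) => (u : ℂ) ^ (r - 1) * (deriv f (ξ / u) * ((u : ℂ)⁻¹ * h u)))
    (bound := fun _ => C1 * C2) Filter.univ_mem ?_ ?_ ?_ ?_ ?_ ?_).2
  · apply Eventually.of_forall
    intro ξ
    exact (mellin_integrand_continuousOn hc (hf.conv hc hh ξ) r).aestronglyMeasurable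
      measurableSet_Icc
  · exact (mellin_integrand_continuousOn hc (hf.conv hc hh ξ) r).integrableOn_Icc
  · exact (mellin_integrand_continuousOn hc (hf.deriv.conv hc (hh.divv hc) ξ) r).aestronglyMeasurable
      measurableSet_Icc
  · refine (ae_restrict_iff' measurableSet_Icc).2 (Eventually.of_forall ?_)
    intro u hu ξ _
    have e : (u : ℂ) ^ (r - 1) * (deriv f (ξ / u) * ((u : ℂ)⁻¹ * h u)) =
        deriv f (ξ / u) * ((u : ℂ) ^ (r - 1) * ((u : ℂ)⁻¹ * h u)) := by ring
    rw [e, norm_mul]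
    exact mul_le_mul (h1 _) (h2 u hu) (norm_nonneg _) hC1
  · exact continuousOn_const.integrableOn_Icc
  · refine (ae_restrict_iff' measurableSet_Icc).2 (Eventually.of_forall ?_)
    intro u hu ξ _
    have hu0 : 0 < u := lt_of_lt_of_le hc hu.1
    have h3 : HasDerivAt (fun ξ : ℝ => ξ / u) (1 / u) ξ := (hasDerivAt_id ξ).div_const u
    have h4 : HasDerivAt (fun ξ : ℝ => f (ξ / u)) ((1 / u : ℝ) • deriv f (ξ / u)) ξ :=
      HasDerivAt.scomp ξ (hf.hasDeriv (ξ / u)) h3
    have h5 := (h4.mul_const (h u)).const_mul ((u : ℂ) ^ (r - 1))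
    refine h5.congr_deriv ?_
    rw [Complex.real_smul]
    push_cast
    ring

theorem mellin_differentiable (hc : 0 < c) (hh : TF c d h) : Differentiable ℂ (mellin h) := by
  intro s
  apply mellin_differentiableAt_of_isBigO_rpow (a := s.re + 1) (b := s.re - 1)
  · exact hh.cont.continuousOn.locallyIntegrableOn measurableSet_Ioi
  · apply Asymptotics.IsBigO.of_bound 1
    filter_upwards [eventually_gt_atTop (max d 0)] with v hv
    have h1 : d < v := lt_of_le_of_lt (le_max_left _ _) hv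
    rw [hh.supp v (fun h => by linarith [h.2]), norm_zero]
    positivity
  · linarith
  · apply Asymptotics.IsBigO.of_bound 1
    have h1 : Iio c ∈ 𝓝[>] (0 : ℝ) := mem_nhdsWithin_of_mem_nhds (Iio_mem_nhds hc)
    filter_upwards [h1] with v hv
    have h1 : v < c := hv
    rw [hh.supp v (fun h => by linarith [h.1]), norm_zero]
    positivity
  · linarith

/-- the Mellin transform of the multiplicative convolution -/
theorem conv_mellin (ha : 0 < a) (hc : 0 < c) (hf : TF a b f) (hh : TF c d h) (e r : ℂ) :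
    ∫ ξ in Icc (a * c) (b * d), (ξ : ℂ) ^ (-e) * mellin (fun u => f (ξ / u) * h u) r =
      mellin f (1 - e) * mellin h (r + 1 - e) := by
  have hac : 0 < a * c := mul_pos ha hc
  have e1 : ∀ ξ : ℝ, (ξ : ℂ) ^ (-e) * mellin (fun u => f (ξ / u) * h u) r =
      ∫ u in Icc c d, (ξ : ℂ) ^ (-e) * ((u : ℂ) ^ (r - 1) * (f (ξ / u) * h u)) := by
    intro ξ
    rw [mellin_eq_Icc hc (hf.conv hc hh ξ) r, integral_const_mul]
  simp only [e1]
  have hint : Integrable (Function.uncurry fun (ξ u : ℝ) => (ξ : ℂ) ^ (-e) * ((u : ℂ) ^ (r - 1) *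
      (f (ξ / u) * h u))) ((volume.restrict (Icc (a * c) (b * d))).prod
        (volume.restrict (Icc c d))) := by
    rw [Measure.prod_restrict]
    apply ContinuousOn.integrableOn_compact (isCompact_Icc.prod isCompact_Icc)
    rintro ⟨ξ, u⟩ ⟨h1, h2⟩
    have hξ0 : 0 < ξ := lt_of_lt_of_le hac h1.1
    have hu0 : 0 < u := lt_of_lt_of_le hc h2.1
    apply ContinuousAt.continuousWithinAt
    have c1 : ContinuousAt (fun p : ℝ × ℝ => ((p.1 : ℝ) : ℂ) ^ (-e)) (ξ, u) :=
      ContinuousAt.comp (f := Prod.fst) (g := fun v : ℝ => (v : ℂ) ^ (-e))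
        (Complex.continuousAt_ofReal_cpow_const ξ (-e) (Or.inr hξ0.ne')) continuousAt_fst
    have c2 : ContinuousAt (fun p : ℝ × ℝ => ((p.2 : ℝ) : ℂ) ^ (r - 1)) (ξ, u) :=
      ContinuousAt.comp (f := Prod.snd) (g := fun v : ℝ => (v : ℂ) ^ (r - 1))
        (Complex.continuousAt_ofReal_cpow_const u (r - 1) (Or.inr hu0.ne')) continuousAt_snd
    have c3 : ContinuousAt (fun p : ℝ × ℝ => f (p.1 / p.2)) (ξ, u) := by
      have : ContinuousAt (fun p : ℝ × ℝ => p.1 / p.2) (ξ, u) :=
        continuousAt_fst.div continuousAt_snd hu0.ne'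
      exact ContinuousAt.comp (f := fun p : ℝ × ℝ => p.1 / p.2) (g := f)
        hf.cont.continuousAt this
    have c4 : ContinuousAt (fun p : ℝ × ℝ => h p.2) (ξ, u) :=
      (hh.cont.comp continuous_snd).continuousAt
    exact c1.mul (c2.mul (c3.mul c4))
  rw [integral_integral_swap hint]
  have e2 : ∀ u ∈ Icc c d, ∫ ξ in Icc (a * c) (b * d), (ξ : ℂ) ^ (-e) * ((u : ℂ) ^ (r - 1) *
      (f (ξ / u) * h u)) = mellin f (1 - e) * ((u : ℂ) ^ (r + 1 - e - 1) * h u) := by
    intro u hu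
    have hu0 : 0 < u := lt_of_lt_of_le hc hu.1
    have huc : (u : ℂ) ≠ 0 := by exact_mod_cast hu0.ne'
    by_cases hhu : h u = 0
    · simp [hhu]
    have e3 : mellin (fun ξ => f (u⁻¹ * ξ)) (1 - e) = ∫ ξ in Icc (a * c) (b * d),
        (ξ : ℂ) ^ (-e) * f (ξ / u) := by
      unfold mellin
      have e4 : ∀ ξ : ℝ, (ξ : ℂ) ^ (1 - e - 1) • f (u⁻¹ * ξ) = (ξ : ℂ) ^ (-e) * f (ξ / u) := by
        intro ξ
        rw [smul_eq_mul]
        congr 2
        · ring
        · rw [div_eq_inv_mul]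
      simp only [e4]
      apply setIntegral_eq_of_subset_of_forall_sdiff_eq_zero measurableSet_Ioi
      · intro ξ hξ
        exact lt_of_lt_of_le hac hξ.1
      · intro ξ hξ
        have h5 : ξ / u ∉ Icc a b := by
          intro hv
          apply hξ.2
          have e : ξ = (ξ / u) * u := by field_simp
          rw [e]
          constructor
          · exact mul_le_mul hv.1 hu.1 hc.le (ha.le.trans hv.1)
          · exact mul_le_mul hv.2 hu.2 hu0.le (ha.le.trans (hv.1.trans hv.2))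
        rw [hf.supp _ h5, mul_zero]
    have e5 := mellin_comp_mul_left f (1 - e) (inv_pos.2 hu0)
    rw [e3] at e5
    have e6 : (((u⁻¹ : ℝ)) : ℂ) ^ (-(1 - e)) = (u : ℂ) ^ (1 - e) := by
      have harg : (u : ℂ).arg ≠ Real.pi := by
        rw [Complex.arg_ofReal_of_nonneg hu0.le]
        exact Real.pi_pos.ne
      rw [ofReal_inv, Complex.inv_cpow _ _ harg, ← Complex.cpow_neg, neg_neg]
    rw [e6, smul_eq_mul] at e5
    calc _ = ∫ ξ in Icc (a * c) (b * d), ((u : ℂ) ^ (r - 1) * h u) * ((ξ : ℂ) ^ (-e) *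
          f (ξ / u)) := by
          apply integral_congr_ae
          apply Eventually.of_forall
          intro ξ
          simp only
          ring
      _ = ((u : ℂ) ^ (r - 1) * h u) * ((u : ℂ) ^ (1 - e) * mellin f (1 - e)) := by
          rw [integral_const_mul, e5]
      _ = mellin f (1 - e) * (((u : ℂ) ^ (r - 1) * (u : ℂ) ^ (1 - e)) * h u) := by ring
      _ = _ := by
          rw [← Complex.cpow_add _ _ huc]
          congr 4
          ring
  rw [setIntegral_congr_fun measurableSet_Icc e2, integral_const_mul, ← mellin_eq_Icc hc hh]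

end Pool.Agent.Helper368_LD
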