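import Pool.Agent.Helper368_LD.NSide

/-!
# Removing the average
-/

set_option autoImplicit false

namespace Pool.Agent.Helper368_LD

open MeasureTheory Set Complex
open scoped Real ArithmeticFunction.vonMangoldt
open Pool.Agent.H491R3.J

/-- the bound on the prime side -/
noncomputable def Eb (Θ : ℝ) (K : ℕ) (t Q : ℝ) : ℝ :=
  2 * (10 ^ 6 * Real.log (16 * (4 * (K : ℝ) + 1)) * Real.log (|t| + 5) *
    ((2 * Q) ^ Θ * Real.log (18 * Q) ^ 4))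

theorem pside (hG : GRHJ) {Θ : ℝ} (hR : RealHyp Θ) (hΘ : 1 / 2 ≤ Θ) (hΘ1 : Θ ≤ 1) {Q : ℝ}
    (hQ : 1 ≤ Q) (t : ℝ) (K : ℕ) : PSide Q t (Eb Θ K t Q) K := by
  have hT := log_five_le t
  have mono : ∀ k ∈ Finset.Icc 1 K, ∀ y ∈ Icc Q (2 * Q),
      10 ^ 6 * Real.log (16 * (4 * (k : ℝ) + 1)) * Real.log (|t| + 5) *
      (y ^ Θ * Real.log (9 * y) ^ 4) ≤ Eb Θ K t Q / 2 := by
    intro k hk y hy
    rw [Finset.mem_Icc] at hk
    have hy1 : 1 ≤ y := hQ.trans hy.1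
    unfold Eb
    rw [mul_div_cancel_left₀ _ (by norm_num : (2 : ℝ) ≠ 0)]
    have hkK : (k : ℝ) ≤ K := by exact_mod_cast hk.2
    have hk0 : (0 : ℝ) ≤ k := Nat.cast_nonneg k
    have h1 : 0 ≤ Real.log (16 * (4 * (k : ℝ) + 1)) := by
      have := log_q_le (q := 4 * (k : ℝ)) (by linarith)
      linarith
    have h1' : 0 ≤ Real.log (16 * (4 * (K : ℝ) + 1)) := by
      have := log_q_le (q := 4 * (K : ℝ)) (by linarith)
      linarith
    have h2 : 0 ≤ Real.log (9 * y) := by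
      have := log_nine hy1
      linarith
    have h3 : 9 * y ≤ 18 * Q := by linarith [hy.2]
    have h4 := hy.2
    have h5 : 0 ≤ Real.log (|t| + 5) := by linarith
    gcongr
  constructor
  · intro k hk y hy
    have hk' := Finset.mem_Icc.1 hk
    have hy1 : 1 ≤ y := hQ.trans hy.1
    rw [sum_Ioc_eq hy.1]
    have hQmem : Q ∈ Icc Q (2 * Q) := ⟨le_rfl, by linarith⟩
    by_cases hs : IsSquare k
    · obtain ⟨j, hj⟩ := hs
      have hj1 : 1 ≤ j := by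
        rcases Nat.eq_zero_or_pos j with h | h
        · rw [hj, h] at hk'; omega
        · exact h
      have hkj : ((j ^ 2 : ℕ) : ℤ) = (k : ℤ) := by rw [hj]; push_cast; ring
      have hkj' : ((j ^ 2 : ℕ) : ℝ) = (k : ℝ) := by rw [hj]; push_cast; ring
      have hz : ∀ s : ℂ, Θ < s.re → s.re < 1 → riemannZeta s ≠ 0 := fun s h1 h2 =>
        zeta_ne_zero_of_GRHJ hG (by linarith) h2
      have b1 := PS_sq hΘ hΘ1 hz hj1 t hy1
      have b2 := PS_sq hΘ hΘ1 hz hj1 t hQ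
      rw [hkj, hkj'] at b1 b2
      have hv : vk t k = fun u : ℝ => (u : ℂ) ^ (-((t : ℂ) * I)) := by
        funext u
        unfold vk
        rw [if_pos ⟨j, hj⟩]
      have hint : ∀ c : ℝ, 1 ≤ c → IntervalIntegrable (fun u : ℝ => (u : ℂ) ^ (-((t : ℂ) * I)))
          volume 1 c := by
        intro c hc
        rw [intervalIntegrable_iff_integrableOn_Icc_of_le hc]
        exact (cpow_cont (by norm_num) _).integrableOn_Icc
      have e1 : ∫ u in Q..y, vk t k u = (∫ u in Ioc 1 y, (u : ℂ) ^ (-((t : ℂ) * I))) -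
          ∫ u in Ioc 1 Q, (u : ℂ) ^ (-((t : ℂ) * I)) := by
        rw [hv, ← intervalIntegral.integral_of_le hy1, ← intervalIntegral.integral_of_le hQ,
          intervalIntegral.integral_interval_sub_left (hint y hy1) (hint Q hQ)]
      rw [e1]
      have c1 := b1.trans (mono k hk y hy)
      have c2 := b2.trans (mono k hk Q hQmem)
      unfold PS at c1 c2
      set A1 := ∑ p ∈ Finset.Icc 1 ⌊y⌋₊, (lp p : ℂ) * (p : ℂ) ^ (-((t : ℂ) * I)) *
        ((jacobiSym (k : ℤ) p : ℤ) : ℂ)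
      set A2 := ∑ p ∈ Finset.Icc 1 ⌊Q⌋₊, (lp p : ℂ) * (p : ℂ) ^ (-((t : ℂ) * I)) *
        ((jacobiSym (k : ℤ) p : ℤ) : ℂ)
      set I1 := ∫ u in Ioc 1 y, (u : ℂ) ^ (-((t : ℂ) * I))
      set I2 := ∫ u in Ioc 1 Q, (u : ℂ) ^ (-((t : ℂ) * I))
      have e2 : A1 - A2 - (I1 - I2) = (A1 - I1) - (A2 - I2) := by ring
      rw [e2]
      refine (norm_sub_le _ _).trans ?_
      linarith
    · have hv : vk t k = fun _ => 0 := by
        funext u
        unfold vk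
        rw [if_neg hs]
      rw [hv, intervalIntegral.integral_zero, sub_zero]
      have hs' := not_isSquare_natCast hs
      have b1 := PS_nonsq hR hΘ hΘ1 hs' t hy1
      have b2 := PS_nonsq hR hΘ hΘ1 hs' t hQ
      rw [Int.natAbs_natCast] at b1 b2
      have c1 := b1.trans (mono k hk y hy)
      have c2 := b2.trans (mono k hk Q hQmem)
      unfold PS at c1 c2
      refine (norm_sub_le _ _).trans ?_
      linarith
  · intro k hk y hy
    have hk' := Finset.mem_Icc.1 hk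
    have hy1 : 1 ≤ y := hQ.trans hy.1
    rw [sum_Ioc_eq hy.1]
    have hQmem : Q ∈ Icc Q (2 * Q) := ⟨le_rfl, by linarith⟩
    have hs' : ¬ IsSquare (-(k : ℤ)) := by
      rintro ⟨a, ha⟩
      have h1 : (0 : ℤ) ≤ a * a := mul_self_nonneg a
      have h2 : (1 : ℤ) ≤ k := by exact_mod_cast hk'.1
      omega
    have b1 := PS_nonsq hR hΘ hΘ1 hs' t hy1
    have b2 := PS_nonsq hR hΘ hΘ1 hs' t hQ
    rw [Int.natAbs_neg, Int.natAbs_natCast] at b1 b2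
    have c1 := b1.trans (mono k hk y hy)
    have c2 := b2.trans (mono k hk Q hQmem)
    unfold PS at c1 c2
    refine (norm_sub_le _ _).trans ?_
    linarith

/-- the main term of a block against the block sum -/
theorem MJ_WW (hG : GRHJ) {r : ℂ} {Q x H E B L : ℝ} {J : ℕ} (hJ : 1 ≤ J)
    (h : PSide Q r.im E (J ^ 2)) (hQ : 1 ≤ Q) (hx : 0 ≤ x) (hH : 0 < H) (hr : 0 ≤ r.re)
    (hr1 : r.re ≤ 1) (hL : x + H ≤ L)
    (hB : ∀ h ∈ Icc 0 H, ‖MJ J r Q (x + h) - MJ J r Q x‖ ≤ B * Q ^ (-r.re)) :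
    ‖MJ J r Q x - WW r Q x‖ ≤ (B + 8 / π * E * (x / H + 2) * (1 + Real.log ((J ^ 2 : ℕ) : ℝ)) +
      40 * Q ^ 2 / (H * ((J ^ 2 : ℕ) : ℝ)) + √(x + H) * (E + 12) / √Q + √Q +
      (H + 1) * Nb L r.im Q) * Q ^ (-r.re) := by
  have hQ0 : 0 < Q := by linarith
  have h1 := avg_MJ J (B := B * Q ^ (-r.re)) hQ0 hr hx hH hB
  have h2 := block_lemma hJ h hQ0 hx hH.le hr hr1
  have h3 := AWH_WW hG hQ hr hx hH.le hL
  have hHc : (H : ℂ) ≠ 0 := by exact_mod_cast hH.ne'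
  set M := MJ J r Q x
  set W := WW r Q x
  set IM := ∫ y in x..(x + H), MJ J r Q y
  set A := AWH r Q x H
  have e1 : M - W = -((H : ℂ)⁻¹ * IM - M) - (H : ℂ)⁻¹ * (A - IM) + (H : ℂ)⁻¹ * (A - H * W) := by
    field_simp
    ring
  have hn : ‖(H : ℂ)⁻¹‖ = H⁻¹ := by rw [norm_inv, norm_real, Real.norm_of_nonneg hH.le]
  have hp1 : Q ^ (-(1 / 2 + r.re)) = Q ^ (-r.re) / √Q := by
    have e4 : Q ^ (-r.re) = Q ^ (-(1 / 2 + r.re)) * Q ^ (1 / 2 : ℝ) := by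
      rw [← Real.rpow_add hQ0]
      congr 1
      ring
    rw [Real.sqrt_eq_rpow, e4]
    have : Q ^ (1 / 2 : ℝ) ≠ 0 := (Real.rpow_pos_of_pos hQ0 _).ne'
    field_simp
  have hp2 : Q ^ (1 / 2 - r.re) = √Q * Q ^ (-r.re) := by
    rw [Real.sqrt_eq_rpow, ← Real.rpow_add hQ0]
    congr 1
  rw [hp1, hp2] at h2
  rw [e1]
  calc _ ≤ ‖(H : ℂ)⁻¹ * IM - M‖ + ‖(H : ℂ)⁻¹ * (A - IM)‖ + ‖(H : ℂ)⁻¹ * (A - H * W)‖ := by
        refine (norm_add_le _ _).trans (add_le_add_left ?_ _)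
        refine (norm_sub_le _ _).trans (add_le_add_left ?_ _)
        rw [norm_neg]
    _ ≤ B * Q ^ (-r.re) + H⁻¹ * (8 / π * E * (x + 2 * H) * Q ^ (-r.re) * (1 + Real.log ((J ^ 2 : ℕ) : ℝ)) +
        40 * (Q ^ 2 * Q ^ (-r.re)) / ((J ^ 2 : ℕ) : ℝ) +
        H * √(x + H) * (E + 12) * (Q ^ (-r.re) / √Q) + H * (√Q * Q ^ (-r.re))) +
        H⁻¹ * (H * (H + 1) * (Nb L r.im Q * Q ^ (-r.re))) := by
        rw [norm_mul, norm_mul, hn]
        gcongr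
    _ = _ := by
        field_simp
        ring

/-- the truncation parameter -/
noncomputable def JY (B : ℕ) (Y : ℝ) : ℕ := ⌈Y ^ (B + 1)⌉₊

/-- the logarithm -/
noncomputable def lY (B : ℕ) (Y : ℝ) : ℝ := (2 * B + 11) * Real.log Y

theorem log_le_of_le_pow {Y w : ℝ} {n : ℕ} (hw : 0 < w) (h : w ≤ Y ^ n) :
    Real.log w ≤ n * Real.log Y := by
  rw [← Real.log_pow]
  exact Real.log_le_log hw h

theorem two_pow_le {Y : ℝ} (hY : 2 ≤ Y) (n : ℕ) : (2 : ℝ) ^ n ≤ Y ^ n := by gcongr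

theorem JY_facts {Y : ℝ} (hY : 2 ≤ Y) (B : ℕ) : 1 ≤ JY B Y ∧ Y ^ (B + 1) ≤ JY B Y ∧
    (JY B Y : ℝ) ≤ Y ^ (B + 2) := by
  have h1 : 1 ≤ Y ^ (B + 1) := one_le_pow₀ (by linarith)
  have h2 : Y ^ (B + 1) ≤ JY B Y := Nat.le_ceil _
  refine ⟨?_, h2, ?_⟩
  · have : (1 : ℝ) ≤ JY B Y := h1.trans h2
    exact_mod_cast this
  · have h3 : (JY B Y : ℝ) < Y ^ (B + 1) + 1 := Nat.ceil_lt_add_one (by linarith)
    have h4 : Y ^ (B + 2) = Y * Y ^ (B + 1) := by ring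
    rw [h4]
    nlinarith

theorem logY_ge {Y : ℝ} (hY : 2 ≤ Y) : 0.69 ≤ Real.log Y := by
  have h1 : Real.log 2 ≤ Real.log Y := Real.log_le_log (by norm_num) hY
  have := Real.log_two_gt_d9
  linarith

theorem lY_ge {Y : ℝ} (hY : 2 ≤ Y) (B : ℕ) : 7 ≤ lY B Y := by
  have h := logY_ge hY
  unfold lY
  have hB : (0 : ℝ) ≤ B := Nat.cast_nonneg B
  nlinarith

theorem log_J1 {Y : ℝ} (hY : 2 ≤ Y) (B : ℕ) :
    Real.log (16 * (4 * ((JY B Y ^ 2 : ℕ) : ℝ) + 1)) ≤ lY B Y := by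
  obtain ⟨h1, h2, h3⟩ := JY_facts hY B
  have h1' : (1 : ℝ) ≤ JY B Y := by exact_mod_cast h1
  have h4 : 16 * (4 * ((JY B Y ^ 2 : ℕ) : ℝ) + 1) ≤ Y ^ (2 * B + 11) := by
    push_cast
    have e1 : Y ^ (2 * B + 11) = Y ^ 7 * (Y ^ (B + 2)) ^ 2 := by ring
    have e2 := two_pow_le hY 7
    rw [e1]
    have h5 : (JY B Y : ℝ) ^ 2 ≤ (Y ^ (B + 2)) ^ 2 := by gcongr
    have h6 : 1 ≤ (JY B Y : ℝ) ^ 2 := one_le_pow₀ h1'
    calc _ ≤ 2 ^ 7 * (JY B Y : ℝ) ^ 2 := by linarith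
      _ ≤ _ := by gcongr
  have := log_le_of_le_pow (by positivity) h4
  unfold lY
  push_cast at this ⊢
  linarith

theorem log_J2 {Y : ℝ} (hY : 2 ≤ Y) (B : ℕ) : 1 + Real.log ((JY B Y ^ 2 : ℕ) : ℝ) ≤ lY B Y := by
  obtain ⟨h1, h2, h3⟩ := JY_facts hY B
  have h1' : (1 : ℝ) ≤ JY B Y := by exact_mod_cast h1
  have h4 : ((JY B Y ^ 2 : ℕ) : ℝ) ≤ Y ^ (2 * B + 4) := by
    push_cast
    have e1 : Y ^ (2 * B + 4) = (Y ^ (B + 2)) ^ 2 := by ring
    rw [e1]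
    gcongr
  have h5 := log_le_of_le_pow (by positivity) h4
  have h6 := logY_ge hY
  unfold lY
  push_cast at h5 ⊢
  nlinarith

theorem log_Q1 {Y : ℝ} (hY : 2 ≤ Y) (B : ℕ) {q : ℝ} (hq : 1 ≤ q) (hq2 : q ≤ Y ^ (B + 1)) :
    Real.log (18 * q) ≤ lY B Y := by
  have h4 : 18 * q ≤ Y ^ (2 * B + 11) := by
    have e1 : Y ^ (2 * B + 11) = Y ^ 5 * Y ^ (B + 1) * Y ^ (B + 5) := by ring
    have e2 := two_pow_le hY 5
    have e3 : 1 ≤ Y ^ (B + 5) := one_le_pow₀ (by linarith)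
    rw [e1]
    calc 18 * q ≤ 2 ^ 5 * Y ^ (B + 1) * 1 := by linarith
      _ ≤ _ := by gcongr
  have := log_le_of_le_pow (by positivity) h4
  unfold lY
  push_cast at this ⊢
  linarith

theorem log_L1 {Y : ℝ} (hY : 2 ≤ Y) (B : ℕ) {L : ℝ} (hL : 0 ≤ L) (hL2 : L ≤ Y ^ (B + 2)) :
    Real.log (16 * (L + 1)) ≤ lY B Y := by
  have h4 : 16 * (L + 1) ≤ Y ^ (2 * B + 11) := by
    have e1 : Y ^ (2 * B + 11) = Y ^ 5 * Y ^ (B + 2) * Y ^ (B + 4) := by ring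
    have e2 := two_pow_le hY 5
    have e3 : 1 ≤ Y ^ (B + 4) := one_le_pow₀ (by linarith)
    have e4 : 1 ≤ Y ^ (B + 2) := one_le_pow₀ (by linarith)
    rw [e1]
    calc 16 * (L + 1) ≤ 2 ^ 5 * Y ^ (B + 2) * 1 := by linarith
      _ ≤ _ := by gcongr
  have := log_le_of_le_pow (by positivity) h4
  unfold lY
  push_cast at this ⊢
  linarith

/-- the basic constant -/
noncomputable def DY (B : ℕ) (Y t : ℝ) : ℝ := 10 ^ 6 * Real.log (|t| + 5) * lY B Y ^ 5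

theorem DY_ge {Y : ℝ} (hY : 2 ≤ Y) (B : ℕ) (t : ℝ) : 10 ^ 6 ≤ DY B Y t := by
  have h1 := lY_ge hY B
  have h2 := log_five_le t
  have h3 : 1 ≤ lY B Y ^ 5 := one_le_pow₀ (by linarith)
  unfold DY
  have : 1 ≤ Real.log (|t| + 5) * lY B Y ^ 5 := one_le_mul_of_one_le_of_one_le h2 h3
  nlinarith

theorem Nb_le {Y : ℝ} (hY : 2 ≤ Y) (B : ℕ) (t : ℝ) {q L : ℝ} (hq : 1 ≤ q) (hq2 : q ≤ Y ^ (B + 1))
    (hL : 0 ≤ L) (hL2 : L ≤ Y ^ (B + 2)) : Nb L t q ≤ 3 * DY B Y t := by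
  have h1 := log_Q1 hY B hq hq2
  have h2 := log_L1 hY B hL hL2
  have h3 := log_five_le t
  have h4 : 0 ≤ Real.log (18 * q) := Real.log_nonneg (by linarith)
  have h5 : 1 ≤ Real.log (16 * (L + 1)) := log_q_le hL
  have hl := lY_ge hY B
  have hl0 : 0 ≤ lY B Y := by linarith
  unfold Nb DY
  calc _ ≤ 3 * 10 ^ 6 * lY B Y * Real.log (|t| + 5) * lY B Y ^ 4 := by gcongr
    _ = _ := by ring

theorem Nb_nonneg {t q L : ℝ} (hq : 1 ≤ q) (hL : 0 ≤ L) : 0 ≤ Nb L t q := by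
  have h3 := log_five_le t
  have h4 : 0 ≤ Real.log (18 * q) := Real.log_nonneg (by linarith)
  have h5 : 1 ≤ Real.log (16 * (L + 1)) := log_q_le hL
  unfold Nb
  positivity

theorem Eb_le {Θ : ℝ} (hΘ1 : Θ ≤ 1) {Y : ℝ} (hY : 2 ≤ Y) (B : ℕ) (t : ℝ) {q : ℝ}
    (hq : 1 ≤ q) (hq2 : q ≤ Y ^ (B + 1)) : Eb Θ (JY B Y ^ 2) t q ≤ 4 * DY B Y t * q ^ Θ := by
  have h1 := log_Q1 hY B hq hq2
  have h2 := log_J1 hY B
  have h3 := log_five_le t
  have h4 : 0 ≤ Real.log (18 * q) := Real.log_nonneg (by linarith)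
  have h5 : 0 ≤ Real.log (16 * (4 * ((JY B Y ^ 2 : ℕ) : ℝ) + 1)) := by
    have := log_q_le (q := 4 * ((JY B Y ^ 2 : ℕ) : ℝ)) (by positivity)
    linarith
  have h6 : (2 * q) ^ Θ ≤ 2 * q ^ Θ := by
    rw [Real.mul_rpow (by norm_num) (by linarith)]
    have : (2 : ℝ) ^ Θ ≤ 2 ^ (1 : ℝ) := Real.rpow_le_rpow_of_exponent_le (by norm_num) hΘ1
    rw [Real.rpow_one] at this
    have h7 : 0 ≤ q ^ Θ := Real.rpow_nonneg (by linarith) _
    nlinarith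
  have h7 : 0 ≤ q ^ Θ := Real.rpow_nonneg (by linarith) _
  have hl := lY_ge hY B
  unfold Eb DY
  calc _ ≤ 2 * (10 ^ 6 * lY B Y * Real.log (|t| + 5) * ((2 * q ^ Θ) * lY B Y ^ 4)) := by
        gcongr
    _ = _ := by ring

theorem Eb_nonneg {Θ : ℝ} {K : ℕ} {t q : ℝ} (hq : 1 ≤ q) : 0 ≤ Eb Θ K t q := by
  have h3 := log_five_le t
  have h4 : 0 ≤ Real.log (18 * q) := Real.log_nonneg (by linarith)
  have h5 : 0 ≤ Real.log (16 * (4 * (K : ℝ) + 1)) := by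
    have := log_q_le (q := 4 * (K : ℝ)) (by positivity)
    linarith
  have h7 : 0 ≤ (2 * q) ^ Θ := Real.rpow_nonneg (by linarith) _
  unfold Eb
  positivity

/-- the large scale parameters -/
theorem scale_facts {Θ Y : ℝ} (hΘ : 1 / 2 ≤ Θ) (hΘ1 : Θ < 1) {B : ℕ} (hB : 8 / (1 - Θ) ≤ B)
    (hY : 2 ≤ Y) : 1 ≤ (Y ^ B) ^ ((1 + Θ) / 2) ∧ (Y ^ B) ^ ((1 + Θ) / 2) * Y ^ 4 ≤ Y ^ B ∧
      (Y ^ B) ^ Θ * Y ^ 4 ≤ (Y ^ B) ^ ((1 + Θ) / 2) ∧ Y ≤ Y ^ B := by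
  have hY0 : 0 < Y := by linarith
  have hlam : 1 ≤ Y ^ B := one_le_pow₀ (by linarith)
  have hlam0 : 0 < Y ^ B := by positivity
  have h1 : 0 < 1 - Θ := by linarith
  have h2 : 8 ≤ B * (1 - Θ) := by rwa [div_le_iff₀ h1] at hB
  have h3 : Y ^ 4 ≤ (Y ^ B) ^ ((1 - Θ) / 2) := by
    rw [← Real.rpow_natCast Y B, ← Real.rpow_mul hY0.le, ← Real.rpow_natCast Y 4]
    apply Real.rpow_le_rpow_of_exponent_le (by linarith)
    push_cast
    linarith
  refine ⟨Real.one_le_rpow hlam (by linarith), ?_, ?_, ?_⟩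
  · calc (Y ^ B) ^ ((1 + Θ) / 2) * Y ^ 4 ≤ (Y ^ B) ^ ((1 + Θ) / 2) * (Y ^ B) ^ ((1 - Θ) / 2) := by
          gcongr
      _ = Y ^ B := by
          rw [← Real.rpow_add hlam0]
          have : (1 + Θ) / 2 + (1 - Θ) / 2 = 1 := by ring
          rw [this, Real.rpow_one]
  · calc (Y ^ B) ^ Θ * Y ^ 4 ≤ (Y ^ B) ^ Θ * (Y ^ B) ^ ((1 - Θ) / 2) := by
          gcongr
      _ = (Y ^ B) ^ ((1 + Θ) / 2) := by
          rw [← Real.rpow_add hlam0]
          congr 1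
          ring
  · have h5 : 1 ≤ B := by
      by_contra hcon
      have : B = 0 := by omega
      rw [this] at h2
      simp at h2
      linarith
    calc Y = Y ^ 1 := (pow_one Y).symm
      _ ≤ Y ^ B := pow_le_pow_right₀ (by linarith) h5

theorem MJ_WW_big (hG : GRHJ) {Θ : ℝ} (hR : RealHyp Θ) (hΘ : 1 / 2 ≤ Θ) (hΘ1 : Θ < 1) {B : ℕ}
    (hB : 8 / (1 - Θ) ≤ B) {Y : ℝ} (hY : 2 ≤ Y) {r : ℂ} (hr : 0 ≤ r.re) (hr1 : r.re ≤ 1 / 2)
    {Q z : ℝ} (hQ : 1 ≤ Q) (hQY : Q ≤ Y) (hz : 0 ≤ z) (hzY : z ≤ Y ^ B * Y) :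
    ‖MJ (JY B Y) r (Y ^ B * Q) z - WW r (Y ^ B * Q) z‖ ≤
      48 * DY B Y r.im * lY B Y * Y ^ B * (Y ^ B * Q) ^ (-r.re) := by
  obtain ⟨s1, s2, s3, s4⟩ := scale_facts hΘ hΘ1 hB hY
  obtain ⟨j1, j2, j3⟩ := JY_facts hY B
  set J := JY B Y with hJ
  set lam := Y ^ B with hlam
  set H := lam ^ ((1 + Θ) / 2) with hH
  set D := DY B Y r.im with hD
  set ℓ := lY B Y with hℓ
  have hD1 : 10 ^ 6 ≤ D := DY_ge hY B r.im
  have hℓ1 : 7 ≤ ℓ := lY_ge hY B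
  have hY0 : 0 < Y := by linarith
  have hlam1 : 1 ≤ lam := one_le_pow₀ (by linarith)
  have hlam0 : 0 < lam := by linarith
  have hQ0 : 0 < Q := by linarith
  have hH0 : 0 < H := by linarith
  have hq1 : 1 ≤ lam * Q := one_le_mul_of_one_le_of_one_le hlam1 hQ
  have hlamY : lam * Y = Y ^ (B + 1) := by rw [hlam]; ring
  have hq2 : lam * Q ≤ Y ^ (B + 1) := by rw [← hlamY]; gcongr
  have hY4 : 1 ≤ Y ^ 4 := one_le_pow₀ (by linarith)
  have hHlam : H ≤ lam := by nlinarith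
  have hlamY2 : Y * (lam * Y) = Y ^ (B + 2) := by rw [hlam]; ring
  have hzH : z + H ≤ 2 * (lam * Y) := by nlinarith
  have hzH2 : z + H ≤ Y ^ (B + 2) := by
    rw [← hlamY2]
    nlinarith [mul_pos hlam0 hY0]
  have hL0 : 0 ≤ Y ^ (B + 2) := by positivity
  have hN := Nb_le hY B r.im hq1 hq2 hL0 le_rfl
  have hN0 : 0 ≤ Nb (Y ^ (B + 2)) r.im (lam * Q) := Nb_nonneg hq1 hL0
  have hE := Eb_le (Θ := Θ) hΘ1.le hY B r.im hq1 hq2
  have hE0 : 0 ≤ Eb Θ (J ^ 2) r.im (lam * Q) := Eb_nonneg hq1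
  rw [← hD] at hN hE
  set N := Nb (Y ^ (B + 2)) r.im (lam * Q) with hNd
  set E := Eb Θ (J ^ 2) r.im (lam * Q) with hEd
  -- the size of `E`
  have hlT : 0 < lam ^ Θ := Real.rpow_pos_of_pos hlam0 _
  have hE2 : E * Y ^ 3 ≤ 4 * D * H := by
    have h1 : (lam * Q) ^ Θ ≤ lam ^ Θ * Y := by
      rw [Real.mul_rpow hlam0.le hQ0.le]
      have : Q ^ Θ ≤ Q ^ (1 : ℝ) := Real.rpow_le_rpow_of_exponent_le hQ hΘ1.le
      rw [Real.rpow_one] at this
      gcongr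
      linarith
    calc E * Y ^ 3 ≤ 4 * D * (lam * Q) ^ Θ * Y ^ 3 := by gcongr
      _ ≤ 4 * D * (lam ^ Θ * Y) * Y ^ 3 := by gcongr
      _ = 4 * D * (lam ^ Θ * Y ^ 4) := by ring
      _ ≤ _ := by gcongr
  -- the trivial modulus of continuity
  have hsq : √(lam * Q) ≤ lam := by
    apply Real.sqrt_le_iff.2
    exact ⟨hlam0.le, by nlinarith⟩
  have hB' : ∀ h ∈ Icc 0 H, ‖MJ J r (lam * Q) (z + h) - MJ J r (lam * Q) z‖ ≤
      (3 * lam) * (lam * Q) ^ (-r.re) := by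
    intro h hh
    have h1 := MJ_mod J (Q := lam * Q) (x := z) (h := h) (by positivity) hr hz hh.1
    refine h1.trans ?_
    have h2 : (lam * Q) ^ (1 / 2 - r.re) = √(lam * Q) * (lam * Q) ^ (-r.re) := by
      rw [Real.sqrt_eq_rpow, ← Real.rpow_add (by positivity)]
      congr 1
    rw [h2]
    have h3 : √h * √(lam * Q) ≤ lam := by
      rw [← Real.sqrt_mul hh.1]
      apply Real.sqrt_le_iff.2
      refine ⟨hlam0.le, ?_⟩
      have h4 : h * Q ≤ lam := by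
        calc h * Q ≤ H * Y := mul_le_mul hh.2 hQY hQ0.le hH0.le
          _ ≤ H * Y ^ 4 := by
              have : Y ≤ Y ^ 4 := by
                calc Y = Y ^ 1 := (pow_one Y).symm
                  _ ≤ Y ^ 4 := pow_le_pow_right₀ (by linarith) (by norm_num)
              gcongr
          _ ≤ lam := s2
      nlinarith
    have h5 : 0 ≤ (lam * Q) ^ (-r.re) := Real.rpow_nonneg (by positivity) _
    calc 3 * √h * (√(lam * Q) * (lam * Q) ^ (-r.re)) =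
          3 * (√h * √(lam * Q)) * (lam * Q) ^ (-r.re) := by ring
      _ ≤ 3 * lam * (lam * Q) ^ (-r.re) := by gcongr
  have hps := pside hG hR hΘ hΘ1.le hq1 r.im (J ^ 2)
  rw [← hEd] at hps
  have hmain := MJ_WW hG (L := Y ^ (B + 2)) j1 hps hq1 hz hH0 hr (by linarith) hzH2 hB'
  rw [← hNd] at hmain
  refine hmain.trans ?_
  apply mul_le_mul_of_nonneg_right _ (Real.rpow_nonneg (by positivity) _)
  have hpi : 8 / π ≤ 3 := by
    rw [div_le_iff₀ Real.pi_pos]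
    have := Real.pi_gt_three
    linarith
  have hY3 : 1 ≤ Y ^ 3 := one_le_pow₀ (by linarith)
  have hYY3 : Y ≤ Y ^ 3 := by
    calc Y = Y ^ 1 := (pow_one Y).symm
      _ ≤ Y ^ 3 := pow_le_pow_right₀ (by linarith) (by norm_num)
  have hD0 : 0 < D := by linarith
  -- second term
  have t2 : 8 / π * E * (z / H + 2) * (1 + Real.log ((J ^ 2 : ℕ) : ℝ)) ≤ 36 * D * ℓ * lam := by
    have h1 : E * (z / H) ≤ 4 * D * lam := by
      have h2 : E * (z / H) ≤ E * (lam * Y / H) := by gcongr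
      have h3 : E * (lam * Y / H) = E * Y * lam / H := by ring
      have h4 : E * Y * lam / H ≤ 4 * D * lam := by
        rw [div_le_iff₀ hH0]
        have : E * Y ≤ 4 * D * H := le_trans (by gcongr) hE2
        nlinarith
      linarith
    have h5 : E * 2 ≤ 8 * D * lam := by
      have : E ≤ 4 * D * H := by
        calc E = E * 1 := by ring
          _ ≤ E * Y ^ 3 := by gcongr
          _ ≤ _ := hE2
      nlinarith
    have h6 : E * (z / H + 2) ≤ 12 * D * lam := by rw [mul_add]; linarith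
    have h7 : 1 + Real.log ((J ^ 2 : ℕ) : ℝ) ≤ ℓ := log_J2 hY B
    have h8 : 0 ≤ E * (z / H + 2) := by positivity
    have h9 : 0 ≤ 1 + Real.log ((J ^ 2 : ℕ) : ℝ) := by
      have : 0 ≤ Real.log ((J ^ 2 : ℕ) : ℝ) := Real.log_natCast_nonneg _
      linarith
    calc _ = 8 / π * (E * (z / H + 2)) * (1 + Real.log ((J ^ 2 : ℕ) : ℝ)) := by ring
      _ ≤ 3 * (12 * D * lam) * ℓ := by gcongr
      _ = _ := by ring
  have hJ2 : (lam * Q) ^ 2 ≤ ((J ^ 2 : ℕ) : ℝ) := by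
    push_cast
    have := hq2.trans j2
    gcongr
  have t3 : 40 * (lam * Q) ^ 2 / (H * ((J ^ 2 : ℕ) : ℝ)) ≤ 40 * lam := by
    have hJp : 0 < ((J ^ 2 : ℕ) : ℝ) := by
      have : 0 < (lam * Q) ^ 2 := by positivity
      linarith
    rw [div_le_iff₀ (by positivity)]
    have h1 : 1 ≤ lam * H := one_le_mul_of_one_le_of_one_le hlam1 s1
    calc 40 * (lam * Q) ^ 2 ≤ 40 * ((J ^ 2 : ℕ) : ℝ) := by linarith
      _ ≤ 40 * ((J ^ 2 : ℕ) : ℝ) * (lam * H) := le_mul_of_one_le_right (by positivity) h1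
      _ = _ := by ring
  have t4 : √(z + H) * (E + 12) / √(lam * Q) ≤ (8 * D + 24) * lam := by
    have h1 : √(z + H) / √(lam * Q) ≤ 2 * Y := by
      rw [← Real.sqrt_div (by positivity)]
      apply Real.sqrt_le_iff.2
      refine ⟨by positivity, ?_⟩
      rw [div_le_iff₀ (by positivity)]
      calc z + H ≤ 2 * (lam * Y) := hzH
        _ ≤ (2 * Y) ^ 2 * (lam * 1) := by nlinarith [mul_pos hlam0 hY0]
        _ ≤ (2 * Y) ^ 2 * (lam * Q) := by gcongr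
    have h2 : E * Y ≤ 4 * D * lam := by
      have h3 : E * Y ≤ 4 * D * H := le_trans (by gcongr) hE2
      have h4 : 4 * D * H ≤ 4 * D * lam := by gcongr
      linarith
    calc √(z + H) * (E + 12) / √(lam * Q) = √(z + H) / √(lam * Q) * (E + 12) := by ring
      _ ≤ 2 * Y * (E + 12) := by gcongr
      _ = 2 * (E * Y) + 24 * Y := by ring
      _ ≤ 2 * (4 * D * lam) + 24 * lam := by gcongr
      _ = _ := by ring
  have t6 : (H + 1) * N ≤ 6 * D * lam := by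
    calc (H + 1) * N ≤ (lam + lam) * (3 * D) := by gcongr
      _ = _ := by ring
  have hDl : 7 * D ≤ D * ℓ := by nlinarith
  have hDlam : 0 < D * lam := by positivity
  calc _ ≤ 3 * lam + 36 * D * ℓ * lam + 40 * lam + (8 * D + 24) * lam + lam + 6 * D * lam := by
        gcongr
    _ = (68 + 14 * D + 36 * (D * ℓ)) * lam := by ring
    _ ≤ (48 * (D * ℓ)) * lam := by
        have : 68 + 14 * D + 36 * (D * ℓ) ≤ 48 * (D * ℓ) := by nlinarith
        gcongr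
    _ = _ := by ring

/-- **The Lipschitz bound for the main term of a block.** -/
theorem MJ_lip (hG : GRHJ) {Θ : ℝ} (hR : RealHyp Θ) (hΘ : 1 / 2 ≤ Θ) (hΘ1 : Θ < 1) {B : ℕ}
    (hB : 8 / (1 - Θ) ≤ B) {Y : ℝ} (hY : 2 ≤ Y) {r : ℂ} (hr : 0 ≤ r.re) (hr1 : r.re ≤ 1 / 2)
    {Q x h : ℝ} (hQ : 1 ≤ Q) (hQY : Q ≤ Y) (hx : 0 ≤ x) (hh : 0 ≤ h) (hxh : x + h ≤ Y) :
    ‖MJ (JY B Y) r Q (x + h) - MJ (JY B Y) r Q x‖ ≤
      (h + 1) * (100 * DY B Y r.im * lY B Y) * Q ^ (-r.re) := by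
  obtain ⟨s1, s2, s3, s4⟩ := scale_facts hΘ hΘ1 hB hY
  have hD1 : 10 ^ 6 ≤ DY B Y r.im := DY_ge hY B r.im
  have hℓ1 : 7 ≤ lY B Y := lY_ge hY B
  set J := JY B Y with hJ
  set lam := Y ^ B with hlam
  set D := DY B Y r.im with hD
  set ℓ := lY B Y with hℓ
  have hY0 : 0 < Y := by linarith
  have hlam1 : 1 ≤ lam := one_le_pow₀ (by linarith)
  have hlam0 : 0 < lam := by linarith
  have hQ0 : 0 < Q := by linarith
  have hD0 : 0 < D := by linarith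
  have hxY : x ≤ Y := by linarith
  have b1 := MJ_WW_big hG hR hΘ hΘ1 hB hY hr hr1 (z := lam * (x + h)) hQ hQY (by positivity)
    (by gcongr)
  have b0 := MJ_WW_big hG hR hΘ hΘ1 hB hY hr hr1 (z := lam * x) hQ hQY (by positivity)
    (by gcongr)
  rw [← hlam, ← hJ, ← hD, ← hℓ] at b1 b0
  have hq1 : 1 ≤ lam * Q := one_le_mul_of_one_le_of_one_le hlam1 hQ
  have hlamY : lam * Y = Y ^ (B + 1) := by rw [hlam]; ring
  have hq2 : lam * Q ≤ Y ^ (B + 1) := by rw [← hlamY]; gcongr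
  have hL0 : 0 ≤ Y ^ (B + 2) := by positivity
  have hN := Nb_le hY B r.im hq1 hq2 hL0 le_rfl
  have hN0 : 0 ≤ Nb (Y ^ (B + 2)) r.im (lam * Q) := Nb_nonneg hq1 hL0
  rw [← hD] at hN
  have hL : lam * x + lam * h ≤ Y ^ (B + 2) := by
    have e1 : Y ^ (B + 2) = Y * (lam * Y) := by rw [hlam]; ring
    rw [e1, ← mul_add]
    have : lam * (x + h) ≤ lam * Y := by gcongr
    nlinarith [mul_pos hlam0 hY0]
  have w1 := WW_lip hG (r := r) (Q := lam * Q) (x := lam * x) (h := lam * h) hq1 hr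
    (by positivity) (by positivity) hL
  rw [← mul_add] at w1
  set N := Nb (Y ^ (B + 2)) r.im (lam * Q) with hNd
  have hQr : 0 < (lam * Q) ^ (-r.re) := Real.rpow_pos_of_pos (by positivity) _
  have htot : ‖MJ J r (lam * Q) (lam * (x + h)) - MJ J r (lam * Q) (lam * x)‖ ≤
      100 * D * ℓ * (h + 1) * lam * (lam * Q) ^ (-r.re) := by
    have e2 : MJ J r (lam * Q) (lam * (x + h)) - MJ J r (lam * Q) (lam * x) =
        (MJ J r (lam * Q) (lam * (x + h)) - WW r (lam * Q) (lam * (x + h))) -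
        (MJ J r (lam * Q) (lam * x) - WW r (lam * Q) (lam * x)) +
        (WW r (lam * Q) (lam * (x + h)) - WW r (lam * Q) (lam * x)) := by ring
    rw [e2]
    calc _ ≤ 48 * D * ℓ * lam * (lam * Q) ^ (-r.re) + 48 * D * ℓ * lam * (lam * Q) ^ (-r.re) +
          (lam * h + 1) * (N * (lam * Q) ^ (-r.re)) := by
          refine (norm_add_le _ _).trans (add_le_add ?_ w1)
          exact (norm_sub_le _ _).trans (add_le_add b1 b0)
      _ ≤ 48 * D * ℓ * lam * (lam * Q) ^ (-r.re) + 48 * D * ℓ * lam * (lam * Q) ^ (-r.re) +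
          (lam * h + lam) * ((3 * D) * (lam * Q) ^ (-r.re)) := by gcongr
      _ = (96 * (D * ℓ) + 3 * (D * (h + 1))) * (lam * (lam * Q) ^ (-r.re)) := by ring
      _ ≤ (100 * (D * ℓ) * (h + 1)) * (lam * (lam * Q) ^ (-r.re)) := by
          apply mul_le_mul_of_nonneg_right _ (by positivity)
          have h1 : 0 ≤ D * ℓ * h := by positivity
          have h2 : D * (h + 1) ≤ D * ℓ * (h + 1) := by
            have : D ≤ D * ℓ := by nlinarith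
            gcongr
          have h3 : D * ℓ ≤ D * ℓ * (h + 1) := by nlinarith
          nlinarith
      _ = _ := by ring
  rw [MJ_scale J r hlam0 hQ0, MJ_scale J r hlam0 hQ0, ← mul_sub, norm_mul,
    Complex.norm_cpow_eq_rpow_re_of_pos hlam0] at htot
  have e3 : (1 - r).re = 1 - r.re := by simp
  rw [e3, Real.mul_rpow hlam0.le hQ0.le, sub_eq_add_neg, Real.rpow_add hlam0, Real.rpow_one] at htot
  have hlr : 0 < lam * lam ^ (-r.re) := mul_pos hlam0 (Real.rpow_pos_of_pos hlam0 _)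
  have e4 : 100 * D * ℓ * (h + 1) * lam * (lam ^ (-r.re) * Q ^ (-r.re)) =
      (lam * lam ^ (-r.re)) * ((h + 1) * (100 * D * ℓ) * Q ^ (-r.re)) := by ring
  rw [e4] at htot
  exact le_of_mul_le_mul_left htot hlr

end Pool.Agent.Helper368_LD
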