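import Pool.Agent.Helper368_LD.GFun
import Pool.Agent.Helper368_LD.PrimeSide

/-!
# The weights on the prime side
-/

set_option autoImplicit false

namespace Pool.Agent.Helper368_LD

open MeasureTheory Set
open scoped Real

/-- the weight -/
noncomputable def wk (σ x H : ℝ) (k : ℕ) (y : ℝ) : ℝ :=
  y ^ (1 - σ) * (Real.cos (π * k * x / (2 * y)) - Real.cos (π * k * (x + H) / (2 * y)))

/-- its derivative -/
noncomputable def wkd (σ x H : ℝ) (k : ℕ) (y : ℝ) : ℝ :=
  (1 - σ) * y ^ (-σ) * (Real.cos (π * k * x / (2 * y)) - Real.cos (π * k * (x + H) / (2 * y))) +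
  y ^ (1 - σ) * (Real.sin (π * k * x / (2 * y)) * (π * k * x / (2 * y ^ 2)) -
    Real.sin (π * k * (x + H) / (2 * y)) * (π * k * (x + H) / (2 * y ^ 2)))

theorem wk_hasDeriv (σ x H : ℝ) (k : ℕ) {y : ℝ} (hy : 0 < y) :
    HasDerivAt (wk σ x H k) (wkd σ x H k y) y := by
  have h1 : HasDerivAt (fun y : ℝ => y ^ (1 - σ)) ((1 - σ) * y ^ (-σ)) y := by
    have := Real.hasDerivAt_rpow_const (x := y) (p := 1 - σ) (Or.inl hy.ne')
    convert this using 1
    congr 2
    ring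
  have h2 : ∀ c : ℝ, HasDerivAt (fun y : ℝ => Real.cos (c / (2 * y)))
      (Real.sin (c / (2 * y)) * (c / (2 * y ^ 2))) y := by
    intro c
    have h3 : HasDerivAt (fun y : ℝ => c / (2 * y)) (-(c / (2 * y ^ 2))) y := by
      have h4 : HasDerivAt (fun y : ℝ => 2 * y) 2 y := by
        simpa using (hasDerivAt_id y).const_mul 2
      have h5 : (2 * y) ≠ 0 := by positivity
      have h6 : HasDerivAt (fun y : ℝ => c / (2 * y)) ((0 * (2 * y) - c * 2) / (2 * y) ^ 2) y :=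
        (hasDerivAt_const y c).div h4 h5
      exact h6.congr_deriv (by field_simp; ring)
    have := h3.cos
    convert this using 1
    ring
  have h5 := h1.mul ((h2 (π * k * x)).sub (h2 (π * k * (x + H))))
  exact h5

theorem wkd_cont (σ x H : ℝ) (k : ℕ) {a b : ℝ} (ha : 0 < a) :
    ContinuousOn (wkd σ x H k) (Icc a b) := by
  have h0 : ∀ y ∈ Icc a b, y ≠ 0 := fun y hy => (lt_of_lt_of_le ha hy.1).ne'
  have hr : ∀ e : ℝ, ContinuousOn (fun y : ℝ => y ^ e) (Icc a b) := fun e y hy =>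
    (Real.continuousAt_rpow_const _ _ (Or.inl (h0 y hy))).continuousWithinAt
  have h1 : ∀ c : ℝ, ContinuousOn (fun y : ℝ => c / (2 * y)) (Icc a b) := by
    intro c
    apply ContinuousOn.div (by fun_prop) (by fun_prop)
    intro y hy
    have := h0 y hy
    positivity
  have h2 : ∀ c : ℝ, ContinuousOn (fun y : ℝ => c / (2 * y ^ 2)) (Icc a b) := by
    intro c
    apply ContinuousOn.div (by fun_prop) (by fun_prop)
    intro y hy
    have := h0 y hy
    positivity
  unfold wkd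
  apply ContinuousOn.add
  · apply ContinuousOn.mul (continuousOn_const.mul (hr _))
    exact (Real.continuous_cos.comp_continuousOn (h1 _)).sub
      (Real.continuous_cos.comp_continuousOn (h1 _))
  · apply ContinuousOn.mul (hr _)
    exact ((Real.continuous_sin.comp_continuousOn (h1 _)).mul (h2 _)).sub
      ((Real.continuous_sin.comp_continuousOn (h1 _)).mul (h2 _))

theorem wk_abs {σ x H : ℝ} {k : ℕ} {y Q : ℝ} (hQ : 0 < Q) (hy : Q ≤ y) (hH : 0 ≤ H)
    (hσ : 0 ≤ σ) : |wk σ x H k y| ≤ π * k * H / 2 * Q ^ (-σ) := by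
  have hy0 : 0 < y := by linarith
  have hpi := Real.pi_pos
  unfold wk
  rw [abs_mul, abs_of_nonneg (Real.rpow_nonneg hy0.le _)]
  have h1 := abs_cos_sub_cos_le (π * k * x / (2 * y)) (π * k * (x + H) / (2 * y))
  have e1 : π * k * x / (2 * y) - π * k * (x + H) / (2 * y) = -(π * k * H / (2 * y)) := by ring
  rw [e1, abs_neg, abs_of_nonneg (by positivity : 0 ≤ π * k * H / (2 * y))] at h1
  have h2 : y ^ (1 - σ) = y * y ^ (-σ) := by
    rw [sub_eq_add_neg, Real.rpow_add hy0, Real.rpow_one]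
  have h3 : y ^ (-σ) ≤ Q ^ (-σ) := Real.rpow_le_rpow_of_nonpos hQ hy (by linarith)
  have h4 : 0 ≤ y ^ (-σ) := Real.rpow_nonneg hy0.le _
  rw [h2]
  calc _ ≤ y * y ^ (-σ) * (π * k * H / (2 * y)) := by gcongr
    _ = π * k * H / 2 * y ^ (-σ) := by field_simp
    _ ≤ _ := by gcongr

theorem wkd_abs {σ x H : ℝ} {k : ℕ} {y Q : ℝ} (hQ : 0 < Q) (hy : Q ≤ y) (hx : 0 ≤ x) (hH : 0 ≤ H)
    (hσ : 0 ≤ σ) (hσ1 : σ ≤ 1) : |wkd σ x H k y| ≤ π * k * (x + H) * Q ^ (-σ) / Q := by
  have hy0 : 0 < y := by linarith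
  have hpi := Real.pi_pos
  unfold wkd
  have h1 := abs_cos_sub_cos_le (π * k * x / (2 * y)) (π * k * (x + H) / (2 * y))
  have e1 : π * k * x / (2 * y) - π * k * (x + H) / (2 * y) = -(π * k * H / (2 * y)) := by ring
  rw [e1, abs_neg, abs_of_nonneg (by positivity : 0 ≤ π * k * H / (2 * y))] at h1
  have h2 : y ^ (1 - σ) = y * y ^ (-σ) := by
    rw [sub_eq_add_neg, Real.rpow_add hy0, Real.rpow_one]
  have h3 : y ^ (-σ) ≤ Q ^ (-σ) := Real.rpow_le_rpow_of_nonpos hQ hy (by linarith)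
  have h4 : 0 ≤ y ^ (-σ) := Real.rpow_nonneg hy0.le _
  set S := y ^ (-σ) with hS
  have hA : |(1 - σ) * S * (Real.cos (π * k * x / (2 * y)) - Real.cos (π * k * (x + H) / (2 * y)))| ≤
      S * (π * k * H / (2 * y)) := by
    rw [abs_mul, abs_mul, abs_of_nonneg (by linarith : 0 ≤ 1 - σ), abs_of_nonneg h4]
    have : (1 - σ) * S ≤ S := by nlinarith
    gcongr
  have hB : |y ^ (1 - σ) * (Real.sin (π * k * x / (2 * y)) * (π * k * x / (2 * y ^ 2)) -
    Real.sin (π * k * (x + H) / (2 * y)) * (π * k * (x + H) / (2 * y ^ 2)))| ≤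
      y * S * (π * k * x / (2 * y ^ 2) + π * k * (x + H) / (2 * y ^ 2)) := by
    rw [abs_mul, h2, abs_of_nonneg (by positivity)]
    gcongr
    refine (abs_sub _ _).trans ?_
    rw [abs_mul, abs_mul, abs_of_nonneg (by positivity : 0 ≤ π * k * x / (2 * y ^ 2)),
      abs_of_nonneg (by positivity : 0 ≤ π * k * (x + H) / (2 * y ^ 2))]
    have s1 := Real.abs_sin_le_one (π * k * x / (2 * y))
    have s2 := Real.abs_sin_le_one (π * k * (x + H) / (2 * y))
    have t1 : 0 ≤ π * k * x / (2 * y ^ 2) := by positivity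
    have t2 : 0 ≤ π * k * (x + H) / (2 * y ^ 2) := by positivity
    nlinarith
  refine (abs_add_le _ _).trans ((add_le_add hA hB).trans ?_)
  have e2 : S * (π * k * H / (2 * y)) + y * S * (π * k * x / (2 * y ^ 2) + π * k * (x + H) / (2 * y ^ 2)) =
      π * k * (x + H) * S / y := by
    field_simp
    ring
  rw [e2]
  have hk : (0 : ℝ) ≤ k := Nat.cast_nonneg k
  gcongr

theorem wk_total {σ x H : ℝ} {k : ℕ} {Q : ℝ} (hQ : 0 < Q) (hx : 0 ≤ x) (hH : 0 ≤ H)
    (hσ : 0 ≤ σ) (hσ1 : σ ≤ 1) :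
    ‖(wk σ x H k (2 * Q) : ℂ)‖ + ∫ u in Q..(2 * Q), ‖(wkd σ x H k u : ℂ)‖ ≤
      π * k * (x + 2 * H) * Q ^ (-σ) := by
  have hpi := Real.pi_pos
  have h1 := wk_abs (x := x) (k := k) (y := 2 * Q) hQ (by linarith) hH hσ
  have hQs : 0 < Q ^ (-σ) := Real.rpow_pos_of_pos hQ _
  have h2 : ∫ u in Q..(2 * Q), ‖(wkd σ x H k u : ℂ)‖ ≤ π * k * (x + H) * Q ^ (-σ) := by
    calc _ ≤ ∫ _ in Q..(2 * Q), π * k * (x + H) * Q ^ (-σ) / Q := by
          apply intervalIntegral.integral_mono_on (by linarith)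
          · rw [intervalIntegrable_iff_integrableOn_Icc_of_le (by linarith)]
            apply ContinuousOn.integrableOn_Icc
            exact (Complex.continuous_ofReal.comp_continuousOn (wkd_cont σ x H k hQ)).norm
          · exact intervalIntegrable_const
          · intro u hu
            rw [Complex.norm_real, Real.norm_eq_abs]
            exact wkd_abs hQ hu.1 hx hH hσ hσ1
      _ = _ := by
          rw [intervalIntegral.integral_const, smul_eq_mul]
          field_simp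
          ring
  rw [Complex.norm_real, Real.norm_eq_abs]
  calc _ ≤ π * k * H / 2 * Q ^ (-σ) + π * k * (x + H) * Q ^ (-σ) := add_le_add h1 h2
    _ = π * k * (x + 3 / 2 * H) * Q ^ (-σ) := by ring
    _ ≤ _ := by
        gcongr
        norm_num

/-- the power weight -/
theorem pw_total {σ Q : ℝ} (hQ : 0 < Q) (hσ : 0 ≤ σ) :
    ‖(((2 * Q) ^ (-(1 / 2 + σ)) : ℝ) : ℂ)‖ +
      ∫ u in Q..(2 * Q), ‖((-(1 / 2 + σ) * u ^ (-(1 / 2 + σ) - 1) : ℝ) : ℂ)‖ ≤ Q ^ (-(1 / 2 + σ)) := by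
  have h1 : ∫ u in Q..(2 * Q), ‖((-(1 / 2 + σ) * u ^ (-(1 / 2 + σ) - 1) : ℝ) : ℂ)‖ =
      -∫ u in Q..(2 * Q), (-(1 / 2 + σ) * u ^ (-(1 / 2 + σ) - 1)) := by
    rw [← intervalIntegral.integral_neg]
    apply intervalIntegral.integral_congr
    intro u hu
    rw [uIcc_of_le (by linarith)] at hu
    have hu0 : 0 < u := lt_of_lt_of_le hQ hu.1
    simp only
    rw [Complex.norm_real, Real.norm_eq_abs, abs_of_nonpos]
    have := Real.rpow_nonneg hu0.le (-(1 / 2 + σ) - 1)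
    nlinarith
  have h2 : ∫ u in Q..(2 * Q), (-(1 / 2 + σ) * u ^ (-(1 / 2 + σ) - 1)) =
      (2 * Q) ^ (-(1 / 2 + σ)) - Q ^ (-(1 / 2 + σ)) := by
    apply intervalIntegral.integral_eq_sub_of_hasDerivAt (f := fun u : ℝ => u ^ (-(1 / 2 + σ)))
    · intro u hu
      rw [uIcc_of_le (by linarith)] at hu
      exact Real.hasDerivAt_rpow_const (Or.inl (lt_of_lt_of_le hQ hu.1).ne')
    · rw [intervalIntegrable_iff_integrableOn_Icc_of_le (by linarith)]
      apply ContinuousOn.integrableOn_Icc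
      apply continuousOn_const.mul
      intro u hu
      exact (Real.continuousAt_rpow_const _ _ (Or.inl (lt_of_lt_of_le hQ hu.1).ne')).continuousWithinAt
  rw [h1, h2, Complex.norm_real, Real.norm_of_nonneg (Real.rpow_nonneg (by linarith) _)]
  linarith

end Pool.Agent.Helper368_LD
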