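import Pool.Agent.Helper368_LD.PairBound3

/-!
# From the bounds for the twisted prime sums to zero free half planes
-/

set_option autoImplicit false

namespace Pool.Agent.Helper368_LD

open Complex MeasureTheory Set Filter Topology
open scoped ContDiff Real ArithmeticFunction.vonMangoldt
open Pool.Agent.H491R3.J

variable {a b c d : ℝ} {f g h : ℝ → ℂ}

/-- a weight whose Mellin transform vanishes at `1` and not at `ρ` -/
theorem exists_h {ρ : ℂ} (hρ : ρ ≠ 1) : ∃ h : ℝ → ℂ, TF (1 / 2) 2 h ∧ mellin h 1 = 0 ∧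
    mellin h ρ ≠ 0 := by
  have hcont : ContinuousAt (fun u : ℝ => (u : ℂ) ^ (ρ - 1)) 1 :=
    Complex.continuousAt_ofReal_cpow_const 1 (ρ - 1) (Or.inr one_ne_zero)
  rw [Metric.continuousAt_iff] at hcont
  obtain ⟨δ, hδ, hδ2⟩ := hcont (1 / 2) (by norm_num)
  simp only [ofReal_one, Complex.one_cpow] at hδ2
  set r : ℝ := min (δ / 2) (1 / 4) with hr
  have hr0 : 0 < r := by rw [hr]; positivity
  have hr1 : r ≤ 1 / 4 := min_le_right _ _
  have hr2 : r < δ := by
    have := min_le_left (δ / 2) (1 / 4 : ℝ)
    rw [← hr] at this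
    linarith
  set B : ContDiffBump (1 : ℝ) := ⟨r / 2, r, by positivity, by linarith⟩ with hB
  set b : ℝ → ℂ := fun u => ((B u : ℝ) : ℂ) with hb
  have hBz : ∀ u : ℝ, r ≤ |u - 1| → B u = 0 := by
    intro u hu
    apply B.zero_of_le_dist
    rw [Real.dist_eq]
    exact hu
  have hbTF : TF (1 / 2) 2 b := by
    refine ⟨contDiff_ofReal'.comp B.contDiff, ?_⟩
    intro v hv
    simp only [hb]
    rw [hBz v]
    · simp
    · by_contra h
      rw [not_le, abs_lt] at h
      apply hv
      constructor <;> linarith [h.1, h.2]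
  have hc : (0 : ℝ) < 1 / 2 := by norm_num
  have hpos : mellin b ρ ≠ 0 := by
    intro h0
    have c1 := hbTF.mellinConvergent hc ρ
    have c2 := hbTF.mellinConvergent hc 1
    have e1 : mellin b 1 = ((∫ u in Ioi (0 : ℝ), B u : ℝ) : ℂ) := by
      have e0 : ((∫ u in Ioi (0 : ℝ), B u : ℝ) : ℂ) = ∫ u in Ioi (0 : ℝ), ((B u : ℝ) : ℂ) :=
        integral_ofReal.symm
      rw [e0]
      unfold mellin
      apply integral_congr_ae
      apply Eventually.of_forall
      intro u
      simp only [hb]
      rw [sub_self, Complex.cpow_zero, one_smul]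
    have hBi : Integrable (fun u => B u) := B.integrable
    have e2 : ∫ u in Ioi (0 : ℝ), B u = ∫ u, B u := by
      apply setIntegral_eq_integral_of_forall_compl_eq_zero
      intro u hu
      apply hBz
      have hu0 : u ≤ 0 := not_lt.1 hu
      rw [abs_of_nonpos (by linarith)]
      linarith
    have hBpos : 0 < ∫ u, B u := B.integral_pos
    have e3 : mellin b ρ - mellin b 1 = ∫ u in Ioi (0 : ℝ), ((u : ℂ) ^ (ρ - 1) • b u -
        (u : ℂ) ^ ((1 : ℂ) - 1) • b u) := by
      rw [integral_sub c1 c2]
      rfl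
    have e4 : ‖mellin b ρ - mellin b 1‖ ≤ ∫ u in Ioi (0 : ℝ), 1 / 2 * B u := by
      rw [e3]
      apply norm_integral_le_of_norm_le (hBi.integrableOn.const_mul _)
      apply Eventually.of_forall
      intro u
      rw [sub_self, Complex.cpow_zero, one_smul, smul_eq_mul]
      have e5 : (u : ℂ) ^ (ρ - 1) * b u - b u = ((u : ℂ) ^ (ρ - 1) - 1) * b u := by ring
      rw [e5, norm_mul]
      have hBn : ‖b u‖ = B u := by
        simp only [hb]
        rw [norm_real, Real.norm_of_nonneg B.nonneg]
      rw [hBn]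
      rcases lt_or_ge |u - 1| r with h | h
      · have h2 := hδ2 (x := u) (by rw [Real.dist_eq]; linarith)
        rw [dist_eq_norm] at h2
        exact mul_le_mul_of_nonneg_right h2.le B.nonneg
      · rw [hBz u h]
        simp
    rw [h0, zero_sub, norm_neg, e1, norm_real, integral_const_mul, e2,
      Real.norm_of_nonneg hBpos.le] at e4
    linarith
  refine ⟨fun u => (u : ℂ) * deriv b u + b u, (hbTF.deriv.vmul hc).add hbTF, ?_, ?_⟩
  · have h1 := (hasMellin_add ((hbTF.deriv.vmul hc).mellinConvergent hc 1)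
      (hbTF.mellinConvergent hc 1)).2
    rw [h1, mellin_byparts hc (by norm_num) hbTF]
    ring
  · have h1 := (hasMellin_add ((hbTF.deriv.vmul hc).mellinConvergent hc ρ)
      (hbTF.mellinConvergent hc ρ)).2
    rw [h1, mellin_byparts hc (by norm_num) hbTF]
    have h2 : -ρ * mellin b ρ + mellin b ρ = (1 - ρ) * mellin b ρ := by ring
    rw [h2]
    exact mul_ne_zero (sub_ne_zero.2 hρ.symm) hpos

/-- the smooth sum over the prime powers -/
noncomputable def PF (g : ℕ → ℂ) (h : ℝ → ℂ) (M : ℝ) : ℂ :=
  ∑ m ∈ Finset.Icc 1 (NM M), g m * h (m / M)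

theorem PF_measurable (g : ℕ → ℂ) (hh : TF (1 / 2) 2 h) : Measurable (PF g h) := by
  have h1 : Measurable (fun z : ℕ × ℝ => ∑ m ∈ Finset.Icc 1 z.1, g m * h (m / z.2)) := by
    apply measurable_from_prod_countable_right
    intro N
    change Measurable fun y : ℝ => ∑ m ∈ Finset.Icc 1 N, g m * h (m / y)
    apply Finset.measurable_sum
    intro m _
    apply Measurable.const_mul
    exact hh.cont.measurable.comp (measurable_const.div measurable_id)
  have h2 : Measurable (fun M : ℝ => (NM M, M)) := by
    apply Measurable.prodMk _ measurable_id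
    unfold NM
    exact (Measurable.of_discrete (f := fun n : ℕ => n + 1)).comp
      (Nat.measurable_floor.comp (measurable_const_mul 2))
  exact h1.comp h2

theorem inv_mellin (hh : TF (1 / 2) 2 h) {m : ℕ} (hm : 1 ≤ m) (s : ℂ) :
    IntegrableOn (fun M : ℝ => (M : ℂ) ^ (-s - 1) * h (m / M)) (Ioi 0) ∧
    ∫ M in Ioi (0 : ℝ), (M : ℂ) ^ (-s - 1) * h (m / M) = (m : ℂ) ^ (-s) * mellin h s := by
  have hm0 : (0 : ℝ) < m := by exact_mod_cast hm
  have c1 : MellinConvergent h s := hh.mellinConvergent (by norm_num) s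
  have c2 : MellinConvergent (fun t => h (m * t)) s := (MellinConvergent.comp_mul_left hm0).2 c1
  have e : ∀ M : ℝ, (fun t : ℝ => h (m * t)) (M ^ (-1 : ℝ)) = h (m / M) := by
    intro M
    simp only
    rw [Real.rpow_neg_one, div_eq_mul_inv]
  have c3 : MellinConvergent (fun M => (fun t : ℝ => h (m * t)) (M ^ (-1 : ℝ))) (-s) := by
    rw [MellinConvergent.comp_rpow (f := fun t : ℝ => h (m * t)) (by norm_num : (-1 : ℝ) ≠ 0)]
    have : -s / ((-1 : ℝ) : ℂ) = s := by
      push_cast
      ring
    rw [this]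
    exact c2
  simp only [e] at c3
  refine ⟨c3, ?_⟩
  have h1 := mellin_comp_inv (fun t : ℝ => h (m * t)) (-s)
  rw [neg_neg, mellin_comp_mul_left h s hm0] at h1
  have h2 : mellin (fun t : ℝ => (fun t : ℝ => h (m * t)) t⁻¹) (-s) =
      ∫ M in Ioi (0 : ℝ), (M : ℂ) ^ (-s - 1) * h (m / M) := by
    unfold mellin
    apply integral_congr_ae
    apply Eventually.of_forall
    intro M
    simp only
    rw [div_eq_mul_inv, smul_eq_mul]
  rw [← h2, h1, smul_eq_mul]
  push_cast
  rfl

theorem PF_mellin {g : ℕ → ℂ} (hg : ∀ m, ‖g m‖ ≤ Λ m) (hg2 : g 2 = 0) (hh : TF (1 / 2) 2 h) {s : ℂ}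
    (hs : 1 < s.re) :
    ∫ M in Ioi (1 : ℝ), PF g h M * (M : ℂ) ^ (-s - 1) = mellin h s * LSeries g s := by
  obtain ⟨Ch, hCh0, hCh⟩ := hh.bounded
  have hg0 : g 0 = 0 := by simpa using hg 0
  have hg1 : g 1 = 0 := by simpa using hg 1
  set F : ℕ → ℝ → ℂ := fun m M => g m * ((M : ℂ) ^ (-s - 1) * h (m / M)) with hF
  have hFi : ∀ m, Integrable (F m) (volume.restrict (Ioi (1 : ℝ))) := by
    intro m
    rcases Nat.eq_zero_or_pos m with h0 | h0
    · simp only [hF]
      rw [h0, hg0]
      simp
    · have h1 := (inv_mellin hh h0 s).1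
      exact (h1.mono_set (Ioi_subset_Ioi zero_le_one)).const_mul (g m)
  have hnorm : ∀ m : ℕ, ∫ M in Ioi (1 : ℝ), ‖F m M‖ ≤
      ‖LSeries.term g (s.re : ℂ) m‖ * (Ch * 2 ^ s.re / s.re) := by
    intro m
    rcases Nat.eq_zero_or_pos m with h0 | h0
    · simp only [hF]
      rw [h0, hg0]
      simp
    · have hm0 : (0 : ℝ) < m := by exact_mod_cast h0
      have hm2 : (0 : ℝ) < m / 2 := by positivity
      have hi : IntegrableOn (fun M : ℝ => M ^ (-s.re - 1)) (Ioi ((m : ℝ) / 2)) :=
        integrableOn_Ioi_rpow_of_lt (by linarith) hm2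
      have h1 : ∫ M in Ioi (1 : ℝ), ‖F m M‖ ≤ ∫ M in Ioi ((m : ℝ) / 2), ‖g m‖ * Ch * M ^ (-s.re - 1) := by
        have h2 : ∫ M in Ioi (1 : ℝ), ‖F m M‖ ≤ ∫ M in Ioi (0 : ℝ), ‖F m M‖ := by
          apply setIntegral_mono_set
          · exact ((inv_mellin hh h0 s).1.const_mul (g m)).norm
          · exact Eventually.of_forall fun M => norm_nonneg _
          · exact (Ioi_subset_Ioi zero_le_one).eventuallyLE
        have h3 : ∫ M in Ioi (0 : ℝ), ‖F m M‖ = ∫ M in Ici ((m : ℝ) / 2), ‖F m M‖ := by
          apply setIntegral_eq_of_subset_of_forall_sdiff_eq_zero measurableSet_Ioi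
          · intro M hM
            exact lt_of_lt_of_le hm2 hM
          · intro M hM
            have hM0 : (0 : ℝ) < M := hM.1
            have hM2 : M < m / 2 := not_le.1 hM.2
            simp only [hF]
            rw [hh.supp (m / M), mul_zero, mul_zero, norm_zero]
            intro h4
            have := h4.2
            rw [div_le_iff₀ hM0] at this
            linarith
        have h4 : ∫ M in Ici ((m : ℝ) / 2), ‖F m M‖ ≤
            ∫ M in Ici ((m : ℝ) / 2), ‖g m‖ * Ch * M ^ (-s.re - 1) := by
          apply setIntegral_mono_on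
          · exact (((inv_mellin hh h0 s).1.mono_set (fun M hM => lt_of_lt_of_le hm2 hM)).const_mul
              (g m)).norm
          · rw [integrableOn_Ici_iff_integrableOn_Ioi]
            exact hi.const_mul _
          · exact measurableSet_Ici
          · intro M hM
            have hM0 : (0 : ℝ) < M := lt_of_lt_of_le hm2 hM
            simp only [hF]
            rw [norm_mul, norm_mul, norm_cpow_eq_rpow_re_of_pos hM0]
            have e : (-s - 1).re = -s.re - 1 := by simp
            rw [e]
            have h5 : 0 ≤ M ^ (-s.re - 1) := Real.rpow_nonneg hM0.le _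
            calc ‖g m‖ * (M ^ (-s.re - 1) * ‖h (m / M)‖) ≤ ‖g m‖ * (M ^ (-s.re - 1) * Ch) := by
                  gcongr
                  exact hCh _
              _ = _ := by ring
        rw [integral_Ici_eq_integral_Ioi (f := fun M : ℝ => ‖g m‖ * Ch * M ^ (-s.re - 1))] at h4
        linarith
      refine h1.trans (le_of_eq ?_)
      rw [integral_const_mul, integral_Ioi_rpow_of_lt (by linarith) hm2, LSeries.norm_term_eq,
        if_neg h0.ne']
      have e1 : -s.re - 1 + 1 = -s.re := by ring
      rw [e1, Real.rpow_neg hm2.le, Real.div_rpow hm0.le (by norm_num), ofReal_re]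
      have h2s : (0 : ℝ) < 2 ^ s.re := by positivity
      have hms : (0 : ℝ) < (m : ℝ) ^ s.re := Real.rpow_pos_of_pos hm0 _
      have hs0 : s.re ≠ 0 := by linarith
      field_simp
  have hsum : Summable fun m => ∫ M in Ioi (1 : ℝ), ‖F m M‖ := by
    have h1 : LSeriesSummable g (s.re : ℂ) := summable_of_le_vM hg (by simpa using hs)
    refine Summable.of_nonneg_of_le (fun m => ?_) hnorm (h1.norm.mul_right _)
    exact integral_nonneg fun _ => norm_nonneg _
  have key := hasSum_integral_of_summable_integral_norm hFi hsum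
  have e1 : ∀ M ∈ Ioi (1 : ℝ), ∑' m, F m M = PF g h M * (M : ℂ) ^ (-s - 1) := by
    intro M hM
    have hM0 : (0 : ℝ) < M := lt_trans zero_lt_one hM
    rw [tsum_eq_sum (s := Finset.Icc 1 (NM M))]
    · unfold PF
      rw [Finset.sum_mul]
      apply Finset.sum_congr rfl
      intro m _
      simp only [hF]
      ring
    · intro m hm
      rw [Finset.mem_Icc, not_and_or] at hm
      simp only [hF]
      rcases hm with hm | hm
      · have : m = 0 := by omega
        rw [this, hg0, zero_mul]
      · rw [hh.supp (m / M), mul_zero, mul_zero]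
        intro h4
        have h5 := h4.2
        rw [div_le_iff₀ hM0] at h5
        have h6 : (NM M : ℝ) < m := by exact_mod_cast not_le.1 hm
        have h7 := NM_lt (M := M)
        linarith
  rw [setIntegral_congr_fun measurableSet_Ioi e1] at key
  have e2 : ∀ m, ∫ M in Ioi (1 : ℝ), F m M = mellin h s * LSeries.term g s m := by
    intro m
    rcases Nat.lt_or_ge m 3 with h3 | h3
    · have hgm : g m = 0 := by
        have : m = 0 ∨ m = 1 ∨ m = 2 := by omega
        rcases this with rfl | rfl | rfl
        · exact hg0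
        · exact hg1
        · exact hg2
      have : LSeries.term g s m = 0 := by
        rcases Nat.eq_zero_or_pos m with h0 | h0
        · rw [h0, LSeries.term_zero]
        · rw [LSeries.term_of_ne_zero h0.ne', hgm, zero_div]
      rw [this, mul_zero]
      simp only [hF]
      rw [hgm]
      simp
    · have h1 := inv_mellin hh (by omega : 1 ≤ m) s
      have e3 : ∫ M in Ioi (1 : ℝ), F m M = ∫ M in Ioi (0 : ℝ), F m M := by
        symm
        apply setIntegral_eq_of_subset_of_forall_sdiff_eq_zero measurableSet_Ioi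
        · exact Ioi_subset_Ioi zero_le_one
        · intro M hM
          have hM0 : (0 : ℝ) < M := hM.1
          have hM1 : M ≤ 1 := not_lt.1 hM.2
          simp only [hF]
          rw [hh.supp (m / M), mul_zero, mul_zero]
          intro h4
          have h5 := h4.2
          rw [div_le_iff₀ hM0] at h5
          have h6 : (3 : ℝ) ≤ m := by exact_mod_cast h3
          linarith
      rw [e3]
      simp only [hF]
      rw [integral_const_mul, h1.2, LSeries.term_of_ne_zero (by omega), Complex.cpow_neg]
      ring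
  simp only [e2] at key
  rw [← key.tsum_eq, tsum_mul_left]
  rfl

end Pool.Agent.Helper368_LD
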