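import Pool.Agent.Helper368_LD.ZeroFree

/-!
# From the bounds for the twisted prime sums to zero free half planes, continued
-/

set_option autoImplicit false

namespace Pool.Agent.Helper368_LD

open Complex MeasureTheory Set Filter Topology
open scoped ContDiff Real ArithmeticFunction.vonMangoldt
open Pool.Agent.H491R3.J

variable {h : ℝ → ℂ}

theorem PF_PW (D : ℤ) [NeZero (4 * D.natAbs)] {Ch : ℝ} (hCh : ∀ v, ‖h v‖ ≤ Ch) (M : ℝ) :
    ‖PF (gch (zchi D)) h M - PW D h M‖ ≤ 2 * Ch * (√(NM M : ℝ) * Real.log (NM M)) := by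
  have hCh0 : 0 ≤ Ch := (norm_nonneg _).trans (hCh 0)
  have hN1 : (1 : ℝ) ≤ NM M := by exact_mod_cast NM_pos M
  have e1 : PF (gch (zchi D)) h M - PW D h M =
      ∑ m ∈ Finset.Icc 1 (NM M), ((Λ m - lq m : ℝ) : ℂ) * ((zro D m : ℤ) : ℂ) * h (m / M) := by
    unfold PF PW
    rw [← Finset.sum_sub_distrib]
    apply Finset.sum_congr rfl
    intro m _
    rw [lp_zro]
    unfold gch
    rw [zchi_natCast]
    push_cast
    ring
  rw [e1]
  have h1 : ∀ m ∈ Finset.Icc 1 (NM M), ‖((Λ m - lq m : ℝ) : ℂ) * ((zro D m : ℤ) : ℂ) * h (m / M)‖ ≤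
      Ch * (Λ m - lq m) := by
    intro m _
    have h2 := lq_le_vM m
    have h3 := zro_norm D m
    have h4 := hCh (m / M)
    rw [norm_mul, norm_mul, norm_real, Real.norm_of_nonneg (by linarith)]
    calc (Λ m - lq m) * ‖((zro D m : ℤ) : ℂ)‖ * ‖h (m / M)‖ ≤ (Λ m - lq m) * 1 * Ch := by
          have : 0 ≤ Λ m - lq m := by linarith
          gcongr
      _ = _ := by ring
  refine (norm_sum_le_of_le _ h1).trans ?_
  rw [← Finset.mul_sum]
  have h5 := sum_vM_sub_lq hN1
  rw [Nat.floor_natCast] at h5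
  nlinarith

theorem I_diff {g : ℕ → ℂ} (hh : TF (1 / 2) 2 h) {κ C : ℝ} (hC0 : 0 ≤ C)
    (hC : ∀ M : ℝ, 1 ≤ M → ‖PF g h M‖ ≤ C * M ^ κ) :
    DifferentiableOn ℂ (fun s : ℂ => ∫ M in Ioi (1 : ℝ), PF g h M * (M : ℂ) ^ (-s - 1))
      {s : ℂ | κ < s.re} := by
  set A : ℝ → ℂ := fun u => if 1 ≤ u then PF g h u * ((u ^ (-κ) : ℝ) : ℂ) else 0 with hA
  have hAm : Measurable A := by
    apply Measurable.ite measurableSet_Ici _ measurable_const
    apply (PF_measurable g hh).mul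
    fun_prop
  have hAb : ∀ u, ‖A u‖ ≤ C := by
    intro u
    simp only [hA]
    split_ifs with hu
    · have hu0 : 0 < u := by linarith
      rw [norm_mul, norm_real, Real.norm_of_nonneg (Real.rpow_nonneg hu0.le _), Real.rpow_neg hu0.le]
      have h3 : 0 < u ^ κ := Real.rpow_pos_of_pos hu0 _
      rw [← div_eq_mul_inv, div_le_iff₀ h3]
      exact hC u hu
    · simpa using hC0
  have hJ := H370.DL.J_diff hC0 hAm hAb
  have hJeq : ∀ z : ℂ, ∫ u in Ioi (1 : ℝ), PF g h u * (u : ℂ) ^ (-z - 1) =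
      ∫ u in Ioi (1 : ℝ), A u * (u : ℂ) ^ (-(z - (κ : ℂ)) - 1) := by
    intro z
    apply setIntegral_congr_fun measurableSet_Ioi
    intro u hu
    have hu1 : (1 : ℝ) < u := hu
    have hu0 : 0 < u := by linarith
    have huc : (u : ℂ) ≠ 0 := by exact_mod_cast hu0.ne'
    simp only [hA]
    rw [if_pos hu1.le, Complex.ofReal_cpow hu0.le, mul_assoc, ← Complex.cpow_add _ _ huc]
    congr 2
    push_cast
    ring
  intro z hz
  have hz' : κ < z.re := hz
  have h1 : DifferentiableAt ℂ (fun s : ℂ => ∫ u in Ioi (1 : ℝ), A u * (u : ℂ) ^ (-s - 1))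
      (z - (κ : ℂ)) := by
    apply hJ.differentiableAt
    apply (isOpen_lt continuous_const Complex.continuous_re).mem_nhds
    change 0 < (z - (κ : ℂ)).re
    simp only [sub_re, ofReal_re]
    linarith
  have h2 : DifferentiableAt ℂ (fun z : ℂ => ∫ u in Ioi (1 : ℝ), A u *
      (u : ℂ) ^ (-(z - (κ : ℂ)) - 1)) z :=
    DifferentiableAt.comp (g := fun s : ℂ => ∫ u in Ioi (1 : ℝ), A u * (u : ℂ) ^ (-s - 1))
      (f := fun z : ℂ => z - (κ : ℂ)) z h1 (differentiableAt_id.sub_const _)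
  have h3 : (fun z : ℂ => ∫ u in Ioi (1 : ℝ), PF g h u * (u : ℂ) ^ (-z - 1)) =
      fun z : ℂ => ∫ u in Ioi (1 : ℝ), A u * (u : ℂ) ^ (-(z - (κ : ℂ)) - 1) :=
    funext hJeq
  rw [h3]
  exact h2.differentiableWithinAt

theorem order_argument {P A H : ℂ → ℂ} {ρ : ℂ} (hP : AnalyticAt ℂ P ρ) (hA : AnalyticAt ℂ A ρ)
    (hH : AnalyticAt ℂ H ρ) (hHρ : H ρ ≠ 0) (hPρ : P ρ = 0)
    (heq : (A * P) =ᶠ[𝓝 ρ] (H * deriv P)) : ∀ᶠ z in 𝓝 ρ, P z = 0 := by
  have h1 := analyticOrderAt_congr heq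
  rw [analyticOrderAt_mul hA hP, analyticOrderAt_mul hH hP.deriv,
    (hH.analyticOrderAt_eq_zero).2 hHρ, zero_add] at h1
  have h2 := hP.analyticOrderAt_deriv_add_one
  rw [hPρ] at h2
  simp only [sub_zero] at h2
  have h3 : analyticOrderAt (fun z => P z) ρ = analyticOrderAt P ρ := rfl
  rw [h3] at h2
  have h4 : analyticOrderAt P ρ = ⊤ := by
    by_contra hne
    have h5 : analyticOrderAt P ρ ≤ analyticOrderAt (deriv P) ρ := by
      rw [← h1]
      exact le_add_self
    have h6 : analyticOrderAt (deriv P) ρ + 1 ≤ analyticOrderAt (deriv P) ρ := by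
      rw [h2]; exact h5
    have h7 : analyticOrderAt (deriv P) ρ ≠ ⊤ := by
      intro h
      rw [h, top_add] at h2
      exact hne h2.symm
    exact absurd h6 (not_le.2 (ENat.lt_add_one_iff h7 |>.2 le_rfl))
  exact analyticOrderAt_eq_top.1 h4

/-- **The zero free half plane.** -/
theorem zero_free {D1 D2 : ℤ} [NeZero (4 * D1.natAbs)] [NeZero (4 * D2.natAbs)]
    (hs1 : ¬ IsSquare D1) (hs2 : ¬ IsSquare D2) {κ : ℝ} (hκ : 1 / 2 < κ)
    (H : ∀ h : ℝ → ℂ, TF (1 / 2) 2 h → mellin h 1 = 0 → ∃ C : ℝ, 0 ≤ C ∧ ∀ M : ℝ, 1 ≤ M →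
      ‖PW D1 h M + PW D2 h M‖ ≤ C * M ^ κ) {ρ : ℂ} (hρ : κ < ρ.re) :
    DirichletCharacter.LFunction (zchi D1) ρ * DirichletCharacter.LFunction (zchi D2) ρ ≠ 0 := by
  have hn1 := zchi_ne_one hs1
  have hn2 := zchi_ne_one hs2
  set L1 := DirichletCharacter.LFunction (zchi D1) with hL1
  set L2 := DirichletCharacter.LFunction (zchi D2) with hL2
  have hd1 : Differentiable ℂ L1 := DirichletCharacter.differentiable_LFunction hn1
  have hd2 : Differentiable ℂ L2 := DirichletCharacter.differentiable_LFunction hn2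
  set P : ℂ → ℂ := fun s => L1 s * L2 s with hP
  have hPd : Differentiable ℂ P := hd1.mul hd2
  have hPne : ∀ s : ℂ, 1 ≤ s.re → P s ≠ 0 := by
    intro s hs
    exact mul_ne_zero (DirichletCharacter.LFunction_ne_zero_of_one_le_re _ (Or.inl hn1) hs)
      (DirichletCharacter.LFunction_ne_zero_of_one_le_re _ (Or.inl hn2) hs)
  intro hPρ
  change P ρ = 0 at hPρ
  have hρ1 : ρ ≠ 1 := by
    intro h
    rw [h] at hPρ
    exact hPne 1 (by simp) hPρ
  obtain ⟨h, hh, hh1, hhρ⟩ := exists_h hρ1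
  obtain ⟨Ch, hCh0, hCh⟩ := hh.bounded
  obtain ⟨C, hC0, hC⟩ := H h hh hh1
  -- the arithmetic function
  set g : ℕ → ℂ := fun m => (gch (zchi D1) m + gch (zchi D2) m) / 2 with hg
  have hgb : ∀ m, ‖g m‖ ≤ Λ m := by
    intro m
    simp only [hg]
    rw [norm_div]
    have h1 := gch_norm (zchi D1) m
    have h2 := gch_norm (zchi D2) m
    have h3 := norm_add_le (gch (zchi D1) m) (gch (zchi D2) m)
    have h4 : ‖(2 : ℂ)‖ = 2 := by norm_num
    rw [h4]
    linarith
  have hg2 : g 2 = 0 := by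
    simp only [hg]
    unfold gch
    have e1 : zro D1 2 = 0 := by unfold zro; rw [if_neg (by decide)]
    have e2 : zro D2 2 = 0 := by unfold zro; rw [if_neg (by decide)]
    rw [zchi_natCast, zchi_natCast, e1, e2]
    simp
  have hPFb : ∀ M : ℝ, 1 ≤ M → ‖PF g h M‖ ≤
      (C + 4 * Ch * (3 ^ (1 / 2 + (κ - 1 / 2)) / (κ - 1 / 2))) * M ^ κ := by
    intro M hM
    have e1 : PF g h M = ((PW D1 h M + PW D2 h M) + (PF (gch (zchi D1)) h M - PW D1 h M) +
        (PF (gch (zchi D2)) h M - PW D2 h M)) / 2 := by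
      have e2 : PF g h M = (PF (gch (zchi D1)) h M + PF (gch (zchi D2)) h M) / 2 := by
        unfold PF
        rw [← Finset.sum_add_distrib, Finset.sum_div]
        apply Finset.sum_congr rfl
        intro m _
        simp only [hg]
        ring
      rw [e2]
      ring
    have b1 := hC M hM
    have b2 := PF_PW D1 hCh M
    have b3 := PF_PW D2 hCh M
    have b4 := sqrt_log_NM (by linarith : 0 < κ - 1 / 2) hM
    have e3 : 1 / 2 + (κ - 1 / 2) = κ := by ring
    rw [e3] at b4 ⊢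
    have b5 : 2 * Ch * (√(NM M : ℝ) * Real.log (NM M)) ≤ 2 * Ch * (3 ^ κ / (κ - 1 / 2) * M ^ κ) := by
      gcongr
    rw [e1, norm_div]
    have h4 : ‖(2 : ℂ)‖ = 2 := by norm_num
    rw [h4]
    have b6 := norm_add₃_le (a := PW D1 h M + PW D2 h M) (b := PF (gch (zchi D1)) h M - PW D1 h M)
      (c := PF (gch (zchi D2)) h M - PW D2 h M)
    have b7 : 0 ≤ C * M ^ κ := mul_nonneg hC0 (Real.rpow_nonneg (by linarith) _)
    have b8 := norm_nonneg ((PW D1 h M + PW D2 h M) + (PF (gch (zchi D1)) h M - PW D1 h M) +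
        (PF (gch (zchi D2)) h M - PW D2 h M))
    calc _ ≤ ‖(PW D1 h M + PW D2 h M) + (PF (gch (zchi D1)) h M - PW D1 h M) +
        (PF (gch (zchi D2)) h M - PW D2 h M)‖ := by linarith
      _ ≤ C * M ^ κ + 2 * Ch * (3 ^ κ / (κ - 1 / 2) * M ^ κ) +
          2 * Ch * (3 ^ κ / (κ - 1 / 2) * M ^ κ) := by linarith
      _ = _ := by ring
  have hCC : 0 ≤ C + 4 * Ch * (3 ^ (1 / 2 + (κ - 1 / 2)) / (κ - 1 / 2)) := by
    have : 0 < κ - 1 / 2 := by linarith
    positivity
  have hId := I_diff hh hCC hPFb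
  set J : ℂ → ℂ := fun s : ℂ => ∫ M in Ioi (1 : ℝ), PF g h M * (M : ℂ) ^ (-s - 1) with hJ
  set U : Set ℂ := {s : ℂ | κ < s.re} with hU
  have hUo : IsOpen U := isOpen_lt continuous_const Complex.continuous_re
  have hUc : IsPreconnected U := (convex_halfSpace_re_gt κ).isPreconnected
  have hmd : Differentiable ℂ (mellin h) := mellin_differentiable (by norm_num) hh
  have hP'd : Differentiable ℂ (deriv P) := fun s => (hPd.analyticAt s).deriv.differentiableAt
  set A : ℂ → ℂ := fun s => 2 * J s with hA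
  set Hm : ℂ → ℂ := fun s => -mellin h s with hHm
  have hAd : DifferentiableOn ℂ A U := (differentiableOn_const _).mul hId
  have hf1 : DifferentiableOn ℂ (A * P) U := hAd.mul hPd.differentiableOn
  have hf2 : DifferentiableOn ℂ (Hm * deriv P) U := (hmd.neg.mul hP'd).differentiableOn
  have hid : ∀ s : ℂ, 1 < s.re → (A * P) s = (Hm * deriv P) s := by
    intro s hs
    have e1 := PF_mellin hgb hg2 hh hs
    have e2 : LSeries g s = (-deriv L1 s / L1 s + -deriv L2 s / L2 s) / 2 := by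
      rw [← gch_LSeries hs, ← gch_LSeries hs]
      have s1 : LSeriesSummable (gch (zchi D1)) s := summable_of_le_vM (gch_norm _) hs
      have s2 : LSeriesSummable (gch (zchi D2)) s := summable_of_le_vM (gch_norm _) hs
      rw [← LSeries_add s1 s2]
      have e3 : g = (1 / 2 : ℂ) • (gch (zchi D1) + gch (zchi D2)) := by
        funext m
        simp only [hg, Pi.smul_apply, Pi.add_apply, smul_eq_mul]
        ring
      rw [e3, LSeries_smul]
      ring
    have n1 : L1 s ≠ 0 := DirichletCharacter.LFunction_ne_zero_of_one_le_re _ (Or.inl hn1) hs.le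
    have n2 : L2 s ≠ 0 := DirichletCharacter.LFunction_ne_zero_of_one_le_re _ (Or.inl hn2) hs.le
    have e4 : deriv P s = deriv L1 s * L2 s + L1 s * deriv L2 s :=
      ((hd1 s).hasDerivAt.mul (hd2 s).hasDerivAt).deriv
    simp only [Pi.mul_apply, hA, hHm, hJ]
    rw [e1, e2, e4]
    simp only [hP]
    field_simp
    ring
  have hev : (A * P) =ᶠ[𝓝 (ρ + 3)] (Hm * deriv P) := by
    have hopen : IsOpen {z : ℂ | 1 < z.re} := isOpen_lt continuous_const Complex.continuous_re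
    have h1 : ρ + 3 ∈ {z : ℂ | 1 < z.re} := by
      change 1 < (ρ + 3).re
      have : (ρ + 3).re = ρ.re + 3 := by simp
      rw [this]; linarith
    filter_upwards [hopen.mem_nhds h1] with z hz
    exact hid z hz
  have hz0 : ρ + 3 ∈ U := by
    change κ < (ρ + 3).re
    have : (ρ + 3).re = ρ.re + 3 := by simp
    rw [this]; linarith
  have heq := (hf1.analyticOnNhd hUo).eqOn_of_preconnected_of_eventuallyEq
    (hf2.analyticOnNhd hUo) hUc hz0 hev
  have heqρ : (A * P) =ᶠ[𝓝 ρ] (Hm * deriv P) := by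
    filter_upwards [hUo.mem_nhds (show ρ ∈ U from hρ)] with z hz
    exact heq hz
  have hfin := order_argument (hPd.analyticAt ρ) ((hAd.analyticOnNhd hUo) ρ hρ)
    (hmd.neg.analyticAt ρ) (neg_ne_zero.2 hhρ) hPρ heqρ
  have hzero := (hPd.differentiableOn (s := Set.univ)).analyticOnNhd isOpen_univ
  have hall := hzero.eqOn_zero_of_preconnected_of_eventuallyEq_zero isPreconnected_univ
    (mem_univ ρ) hfin
  exact hPne 2 (by norm_num) (hall (mem_univ 2))

end Pool.Agent.Helper368_LD
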